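import Mathlib

/-!
MP_c52340_nt: base-4 expansions with digits 0, 1, -1 and multipliers.
These are the two definitions of the problem file.
-/

namespace Pool.Agent.Lib.MP_c52340_nt

/-- The set `L` of the problem: integers `x = ∑_{i<n} d i * 4^i` with all digits
`d i` in `{-1, 0, 1}`. -/
def InL (x : ℤ) : Prop :=
  ∃ n : ℕ, ∃ d : ℕ → ℤ, (∀ i, d i = -1 ∨ d i = 0 ∨ d i = 1) ∧
    x = ∑ i ∈ Finset.range n, d i * 4 ^ i

/-- `m` is a multiplier for `k`: `m` is positive and both `m` and `k * m` lie in `L`. -/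
def IsMultiplier (k m : ℤ) : Prop := 0 < m ∧ InL m ∧ InL (k * m)

end Pool.Agent.Lib.MP_c52340_nt
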