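import Mathlib
import Pool.Agent.Lib.MP_c52340_nt.Defs

namespace Pool.Agent.Lib.MP_c52340_nt

/-- digit condition -/
def Dig (e : ℤ) : Prop := e = -1 ∨ e = 0 ∨ e = 1

/-- `x` has an expansion with digits in `{-1,0,1}` and `n` digits. -/
def Ln (n : ℕ) (x : ℤ) : Prop :=
  ∃ d : ℕ → ℤ, (∀ i, Dig (d i)) ∧ x = ∑ i ∈ Finset.range n, d i * 4 ^ i

theorem inL_iff {x : ℤ} : InL x ↔ ∃ n, Ln n x := Iff.rfl

theorem Dig.neg {e : ℤ} (h : Dig e) : Dig (-e) := by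
  unfold Dig at *; omega

theorem ln_zero {x : ℤ} : Ln 0 x ↔ x = 0 := by
  constructor
  · rintro ⟨d, _, h⟩; simpa using h
  · rintro rfl; exact ⟨fun _ => 0, fun _ => Or.inr (Or.inl rfl), by simp⟩

theorem ln_succ {n : ℕ} {x : ℤ} :
    Ln (n + 1) x ↔ ∃ e y, Dig e ∧ Ln n y ∧ x = e + 4 * y := by
  constructor
  · rintro ⟨d, hd, h⟩
    refine ⟨d 0, ∑ i ∈ Finset.range n, d (i + 1) * 4 ^ i, hd 0,
      ⟨fun i => d (i + 1), fun i => hd _, rfl⟩, ?_⟩
    rw [h, Finset.sum_range_succ', Finset.mul_sum]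
    simp only [pow_zero, mul_one]
    rw [add_comm]
    congr 1
    apply Finset.sum_congr rfl
    intro i _; ring
  · rintro ⟨e, y, he, ⟨d, hd, hy⟩, h⟩
    refine ⟨fun i => if i = 0 then e else d (i - 1), ?_, ?_⟩
    · intro i
      by_cases hi : i = 0
      · simp only [hi, if_true]; exact he
      · simp only [hi, if_false]; exact hd _
    · rw [h, hy, Finset.sum_range_succ', Finset.mul_sum]
      simp only [if_true, pow_zero, mul_one, Nat.add_eq_zero_iff, one_ne_zero, and_false,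
        if_false, Nat.add_sub_cancel]
      rw [add_comm]
      congr 1
      apply Finset.sum_congr rfl
      intro i _; ring

theorem Ln.bound {n : ℕ} : ∀ {x : ℤ}, Ln n x → 3 * x ≤ 4 ^ n - 1 ∧ -(4 ^ n - 1) ≤ 3 * x := by
  induction n with
  | zero => intro x h; rw [ln_zero] at h; subst h; simp
  | succ n ih =>
    intro x h
    obtain ⟨e, y, he, hy, rfl⟩ := ln_succ.1 h
    have := ih hy
    rw [pow_succ]
    rcases he with rfl | rfl | rfl <;> constructor <;> linarith [this.1, this.2]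

theorem Ln.neg {n : ℕ} {x : ℤ} (h : Ln n x) : Ln n (-x) := by
  obtain ⟨d, hd, rfl⟩ := h
  exact ⟨fun i => -d i, fun i => (hd i).neg, by simp [Finset.sum_neg_distrib]⟩

/-- splitting an expansion -/
theorem ln_add {a b : ℕ} : ∀ {x : ℤ},
    Ln (a + b) x ↔ ∃ y c, Ln a y ∧ Ln b c ∧ x = y + 4 ^ a * c := by
  induction a with
  | zero =>
    intro x
    simp only [Nat.zero_add, ln_zero, pow_zero, one_mul]
    constructor
    · intro h; exact ⟨0, x, rfl, h, by ring⟩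
    · rintro ⟨y, c, rfl, hc, rfl⟩; simpa using hc
  | succ a ih =>
    intro x
    have hab : a + 1 + b = (a + b) + 1 := by ring
    rw [hab, ln_succ]
    constructor
    · rintro ⟨e, z, he, hz, rfl⟩
      obtain ⟨y, c, hy, hc, rfl⟩ := ih.1 hz
      exact ⟨e + 4 * y, c, ln_succ.2 ⟨e, y, he, hy, rfl⟩, hc, by rw [pow_succ]; ring⟩
    · rintro ⟨y, c, hy, hc, rfl⟩
      obtain ⟨e, z, he, hz, rfl⟩ := ln_succ.1 hy
      exact ⟨e, z + 4 ^ a * c, he, ih.2 ⟨z, c, hz, hc, rfl⟩, by rw [pow_succ]; ring⟩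

theorem ln_zero_mem (n : ℕ) : Ln n 0 :=
  ⟨fun _ => 0, fun _ => Or.inr (Or.inl rfl), by simp⟩

theorem Ln.mono {n m : ℕ} (h : n ≤ m) {x : ℤ} (hx : Ln n x) : Ln m x := by
  obtain ⟨k, rfl⟩ := Nat.exists_eq_add_of_le h
  exact ln_add.2 ⟨x, 0, hx, ln_zero_mem k, by ring⟩

theorem Ln.inL {n : ℕ} {x : ℤ} (h : Ln n x) : InL x := ⟨n, h⟩

theorem InL.neg {x : ℤ} (h : InL x) : InL (-x) := by
  obtain ⟨n, hn⟩ := inL_iff.1 h
  exact (Ln.neg hn).inL

theorem InL.split {x : ℤ} (h : InL x) (a : ℕ) :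
    ∃ y c, Ln a y ∧ InL c ∧ x = y + 4 ^ a * c := by
  obtain ⟨n, hn⟩ := inL_iff.1 h
  have h2 : Ln (a + n) x := hn.mono (Nat.le_add_left n a)
  obtain ⟨y, c, hy, hc, hx⟩ := ln_add.1 h2
  exact ⟨y, c, hy, hc.inL, hx⟩

theorem InL.join {a : ℕ} {y c : ℤ} (hy : Ln a y) (hc : InL c) : InL (y + 4 ^ a * c) := by
  obtain ⟨n, hn⟩ := inL_iff.1 hc
  exact (ln_add.2 ⟨y, c, hy, hn, rfl⟩ : Ln (a + n) _).inL

theorem ln_one {x : ℤ} : Ln 1 x ↔ Dig x := by
  rw [ln_succ]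
  constructor
  · rintro ⟨e, y, he, hy, rfl⟩
    rw [ln_zero] at hy; subst hy; simpa using he
  · intro h; exact ⟨x, 0, h, ln_zero.2 rfl, by ring⟩

/-- leading digit of a positive element -/
theorem Ln.lead {n : ℕ} : ∀ {x : ℤ}, Ln n x → 0 < x →
    ∃ j, j < n ∧ Ln (j + 1) x ∧ 2 * 4 ^ j + 1 ≤ 3 * x := by
  induction n with
  | zero => intro x h hx; rw [ln_zero] at h; omega
  | succ n ih =>
    intro x h hx
    obtain ⟨y, c, hy, hc, rfl⟩ := ln_add.1 h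
    rw [ln_one] at hc
    have hb := hy.bound
    have h4 : (0 : ℤ) < 4 ^ n := by positivity
    rcases hc with rfl | rfl | rfl
    · exfalso; linarith [hb.1]
    · have hx' : 0 < y := by simpa using hx
      obtain ⟨j, hj, h1, h2⟩ := ih hy hx'
      refine ⟨j, by omega, ?_, ?_⟩
      · simpa using h1
      · simpa using h2
    · exact ⟨n, by omega, h, by linarith [hb.2]⟩

theorem InL.lead {x : ℤ} (h : InL x) (hx : 0 < x) :
    ∃ j, Ln (j + 1) x ∧ 2 * 4 ^ j + 1 ≤ 3 * x := by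
  obtain ⟨n, hn⟩ := inL_iff.1 h
  obtain ⟨j, _, h1, h2⟩ := hn.lead hx
  exact ⟨j, h1, h2⟩

/-- gap: no element of `L` between `(4^N-1)/3` and `(2*4^N+1)/3`. -/
theorem InL.gap {x : ℤ} (h : InL x) {N : ℕ} (hx : 4 ^ N - 1 < 3 * x) :
    2 * 4 ^ N + 1 ≤ 3 * x := by
  obtain ⟨y, c, hy, hc, rfl⟩ := h.split N
  have hb := hy.bound
  have h4 : (0 : ℤ) < 4 ^ N := by positivity
  have hc1 : 0 < c := by
    by_contra hcon
    have : 4 ^ N * c ≤ 0 := mul_nonpos_of_nonneg_of_nonpos h4.le (by omega)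
    linarith [hb.1]
  have : (4 : ℤ) ^ N * 1 ≤ 4 ^ N * c := mul_le_mul_of_nonneg_left (by omega) h4.le
  linarith [hb.2]

end Pool.Agent.Lib.MP_c52340_nt
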