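import Mathlib
import Pool.Agent.Lib.MP_c52340_nt.Defs
import Pool.Agent.Lib.MP_c52340_nt.Basic

/-!
Explicit upper bound for the least multiplier.

Carries: if `k` has no multiplier below `4^n` then the sums `k X + Y` with `X, Y` having
base-4 digits in `{0,1}` are all different.  We follow the set `C` of carries of all pairs
`(X, Y)` with `k X + Y` in one residue class modulo `4^i`; its size never decreases along a
good choice of digits, and it must increase after at most `v_2(|C|) + 1` steps because of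
a divisibility by cyclotomic polynomials.
-/

namespace Pool.Agent.Lib.MP_c52340_nt

open Finset Polynomial

/-- naturals with `n` base-4 digits, all in `{0,1}` -/
def Lam : ℕ → Finset ℕ
  | 0 => {0}
  | n + 1 => (range 2 ×ˢ Lam n).image (fun t => t.1 + 4 * t.2)

theorem mem_lam_succ {n x : ℕ} : x ∈ Lam (n + 1) ↔ ∃ b < 2, ∃ y ∈ Lam n, x = b + 4 * y := by
  simp only [Lam, mem_image, mem_product, mem_range, Prod.exists]
  constructor
  · rintro ⟨b, y, ⟨hb, hy⟩, rfl⟩; exact ⟨b, hb, y, hy, rfl⟩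
  · rintro ⟨b, hb, y, hy, rfl⟩; exact ⟨b, y, ⟨hb, hy⟩, rfl⟩

theorem zero_mem_lam (n : ℕ) : 0 ∈ Lam n := by
  induction n with
  | zero => simp [Lam]
  | succ n ih => exact mem_lam_succ.2 ⟨0, by norm_num, 0, ih, rfl⟩

theorem card_lam (n : ℕ) : (Lam n).card = 2 ^ n := by
  induction n with
  | zero => simp [Lam]
  | succ n ih =>
    rw [Lam, card_image_of_injOn, card_product, ih, card_range, pow_succ]
    · ring
    · rintro ⟨a, x⟩ hx ⟨b, y⟩ hy h
      simp only [coe_product, Set.mem_prod, mem_coe, mem_range] at hx hy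
      simp only at h
      ext <;> simp <;> omega

theorem lam_bound {n : ℕ} : ∀ {x : ℕ}, x ∈ Lam n → 3 * x + 1 ≤ 4 ^ n := by
  induction n with
  | zero => intro x hx; simp [Lam] at hx; subst hx; simp
  | succ n ih =>
    intro x hx
    obtain ⟨b, hb, y, hy, rfl⟩ := mem_lam_succ.1 hx
    have := ih hy
    rw [pow_succ]; omega

/-- differences of elements of `Lam n` have digits in `{-1,0,1}` -/
theorem lam_sub {n : ℕ} : ∀ {x y : ℕ}, x ∈ Lam n → y ∈ Lam n → Ln n ((x : ℤ) - y) := by
  induction n with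
  | zero =>
    intro x y hx hy
    simp [Lam] at hx hy; subst hx; subst hy
    simpa using ln_zero_mem 0
  | succ n ih =>
    intro x y hx hy
    obtain ⟨a, ha, x', hx', rfl⟩ := mem_lam_succ.1 hx
    obtain ⟨b, hb, y', hy', rfl⟩ := mem_lam_succ.1 hy
    refine ln_succ.2 ⟨(a : ℤ) - b, (x' : ℤ) - y', ?_, ih hx' hy', by push_cast; ring⟩
    unfold Dig; omega

/-- all sums `c + k X + Y` are different -/
def Dir (k j l : ℕ) (C : Finset ℕ) : Prop :=
  ∀ c ∈ C, ∀ c' ∈ C, ∀ X ∈ Lam j, ∀ X' ∈ Lam j, ∀ Y ∈ Lam l, ∀ Y' ∈ Lam l,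
    c + k * X + Y = c' + k * X' + Y' → c = c' ∧ X = X' ∧ Y = Y'

/-- one digit sums -/
def sums (k : ℕ) (C : Finset ℕ) : Finset ℕ :=
  (C ×ˢ range 2 ×ˢ range 2).image (fun t => t.1 + k * t.2.1 + t.2.2)

/-- the carries after one more digit `e` -/
def child (k : ℕ) (C : Finset ℕ) (e : ℕ) : Finset ℕ :=
  ((sums k C).filter (fun s => s % 4 = e)).image (fun s => s / 4)

theorem mem_sums {k s : ℕ} {C : Finset ℕ} :
    s ∈ sums k C ↔ ∃ c ∈ C, ∃ x < 2, ∃ y < 2, s = c + k * x + y := by
  simp only [sums, mem_image, mem_product, mem_range, Prod.exists]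
  constructor
  · rintro ⟨c, x, y, ⟨hc, hx, hy⟩, rfl⟩; exact ⟨c, hc, x, hx, y, hy, rfl⟩
  · rintro ⟨c, hc, x, hx, y, hy, rfl⟩; exact ⟨c, x, y, ⟨hc, hx, hy⟩, rfl⟩

theorem mem_child {k e c' : ℕ} (he : e < 4) {C : Finset ℕ} :
    c' ∈ child k C e ↔ ∃ c ∈ C, ∃ x < 2, ∃ y < 2, 4 * c' + e = c + k * x + y := by
  simp only [child, mem_image, mem_filter, mem_sums]
  constructor
  · rintro ⟨s, ⟨⟨c, hc, x, hx, y, hy, rfl⟩, h2⟩, rfl⟩
    exact ⟨c, hc, x, hx, y, hy, by omega⟩
  · rintro ⟨c, hc, x, hx, y, hy, h⟩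
    exact ⟨4 * c' + e, ⟨⟨c, hc, x, hx, y, hy, h⟩, by omega⟩, by omega⟩

theorem Dir.child {k j l : ℕ} {C : Finset ℕ} (h : Dir k (j + 1) (l + 1) C) {e : ℕ}
    (he : e < 4) : Dir k j l (child k C e) := by
  intro c hc c' hc' X hX X' hX' Y hY Y' hY' heq
  obtain ⟨d, hd, x, hx, y, hy, h1⟩ := (mem_child he).1 hc
  obtain ⟨d', hd', x', hx', y', hy', h2⟩ := (mem_child he).1 hc'
  have := h d hd d' hd' (x + 4 * X) (mem_lam_succ.2 ⟨x, hx, X, hX, rfl⟩)
    (x' + 4 * X') (mem_lam_succ.2 ⟨x', hx', X', hX', rfl⟩)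
    (y + 4 * Y) (mem_lam_succ.2 ⟨y, hy, Y, hY, rfl⟩)
    (y' + 4 * Y') (mem_lam_succ.2 ⟨y', hy', Y', hY', rfl⟩) (by
      have e1 : d + k * (x + 4 * X) + (y + 4 * Y) = (d + k * x + y) + 4 * (k * X + Y) := by ring
      have e2 : d' + k * (x' + 4 * X') + (y' + 4 * Y') =
        (d' + k * x' + y') + 4 * (k * X' + Y') := by ring
      rw [e1, e2, ← h1, ← h2]; omega)
  obtain ⟨rfl, h3, h4⟩ := this
  have hx2 : x = x' := by omega
  have hy2 : y = y' := by omega
  subst hx2; subst hy2
  refine ⟨by omega, by omega, by omega⟩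

theorem sums_inj {k j l : ℕ} {C : Finset ℕ} (h : Dir k (j + 1) (l + 1) C) :
    Set.InjOn (fun t : ℕ × ℕ × ℕ => t.1 + k * t.2.1 + t.2.2)
      (C ×ˢ range 2 ×ˢ range 2 : Finset (ℕ × ℕ × ℕ)) := by
  rintro ⟨c, x, y⟩ h1 ⟨c', x', y'⟩ h2 heq
  simp only [mem_coe, mem_product, mem_range] at h1 h2
  simp only at heq
  have mem : ∀ {n z : ℕ}, z < 2 → z ∈ Lam (n + 1) := fun {n z} hz =>
    mem_lam_succ.2 ⟨z, hz, 0, zero_mem_lam n, by ring⟩
  obtain ⟨a, b, d⟩ := h c h1.1 c' h2.1 x (mem h1.2.1) x' (mem h2.2.1) y (mem h1.2.2) y'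
    (mem h2.2.2) heq
  simp [a, b, d]

theorem card_sums {k j l : ℕ} {C : Finset ℕ} (h : Dir k (j + 1) (l + 1) C) :
    (sums k C).card = 4 * C.card := by
  rw [sums, card_image_of_injOn (sums_inj h)]
  simp [card_product]; ring

theorem child_inj (k e : ℕ) (C : Finset ℕ) :
    Set.InjOn (fun s => s / 4) ((sums k C).filter (fun s => s % 4 = e) : Finset ℕ) := by
  intro a ha b hb hab
  simp only [coe_filter, Set.mem_setOf_eq] at ha hb
  simp only at hab
  omega

theorem sum_card_child {k j l : ℕ} {C : Finset ℕ} (h : Dir k (j + 1) (l + 1) C) :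
    ∑ e ∈ range 4, (child k C e).card = 4 * C.card := by
  rw [← card_sums h, card_eq_sum_card_fiberwise (s := sums k C) (t := range 4)
    (f := fun s => s % 4)]
  · apply sum_congr rfl
    intro e _
    rw [child, card_image_of_injOn (child_inj k e C)]
  · intro s _
    simp only [coe_range, Set.mem_Iio]
    omega

/-- exponential sum of a finite set -/
noncomputable def expSum (z : ℂ) (C : Finset ℕ) : ℂ := ∑ c ∈ C, z ^ c

theorem expSum_child {k j l : ℕ} {C : Finset ℕ} (h : Dir k (j + 1) (l + 1) C) (z : ℂ) :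
    expSum z C * ((1 + z ^ k) * (1 + z)) =
      ∑ e ∈ range 4, z ^ e * expSum (z ^ 4) (child k C e) := by
  have h1 : ∑ s ∈ sums k C, z ^ s = expSum z C * ((1 + z ^ k) * (1 + z)) := by
    rw [sums, sum_image (sums_inj h), sum_product, expSum, sum_mul]
    apply sum_congr rfl
    intro c _
    rw [sum_product]
    simp [sum_range_succ, pow_add]
    ring
  rw [← h1, ← sum_fiberwise_of_maps_to (s := sums k C) (t := range 4) (g := fun s => s % 4)]
  · apply sum_congr rfl
    intro e _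
    rw [child, expSum, sum_image (child_inj k e C), mul_sum]
    apply sum_congr rfl
    intro s hs
    rw [mem_filter] at hs
    rw [← pow_mul, ← pow_add]
    congr 1
    omega
  · intro s _
    rw [mem_range]; omega

/-- descendants -/
def Desc (k : ℕ) : ℕ → Finset ℕ → Finset ℕ → Prop
  | 0, C, C' => C' = C
  | n + 1, C, C' => ∃ e < 4, Desc k n (child k C e) C'

/-- some descendant at depth `n` has at least `N` elements -/
def Reach (k n : ℕ) (C : Finset ℕ) (N : ℕ) : Prop := ∃ C', Desc k n C C' ∧ N ≤ C'.card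

theorem Desc.trans {k a b : ℕ} : ∀ {C C' C'' : Finset ℕ}, Desc k a C C' → Desc k b C' C'' →
    Desc k (a + b) C C'' := by
  induction a with
  | zero => intro C C' C'' h1 h2; cases h1; simpa using h2
  | succ a ih =>
    intro C C' C'' h1 h2
    obtain ⟨e, he, h1⟩ := h1
    rw [show a + 1 + b = (a + b) + 1 by ring]
    exact ⟨e, he, ih h1 h2⟩

theorem Dir.desc {k a j l : ℕ} : ∀ {C C' : Finset ℕ}, Dir k (a + j) (a + l) C →
    Desc k a C C' → Dir k j l C' := by
  induction a with
  | zero => intro C C' h1 h2; cases h2; simpa using h1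
  | succ a ih =>
    intro C C' h1 h2
    obtain ⟨e, he, h2⟩ := h2
    rw [show a + 1 + j = (a + j) + 1 by ring, show a + 1 + l = (a + l) + 1 by ring] at h1
    exact ih (h1.child he) h2

theorem Desc.bound {k a : ℕ} : ∀ {C C' : Finset ℕ}, (∀ c ∈ C, 3 * c ≤ k + 1) →
    Desc k a C C' → ∀ c ∈ C', 3 * c ≤ k + 1 := by
  induction a with
  | zero => intro C C' h1 h2; cases h2; exact h1
  | succ a ih =>
    intro C C' h1 h2
    obtain ⟨e, he, h2⟩ := h2
    refine ih ?_ h2
    intro c' hc'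
    obtain ⟨c, hc, x, hx, y, hy, h⟩ := (mem_child he).1 hc'
    have := h1 c hc
    have hkx : k * x ≤ k := by
      calc k * x ≤ k * 1 := Nat.mul_le_mul_left k (by omega)
        _ = k := by ring
    omega

theorem exists_child {k j l : ℕ} {C : Finset ℕ} (h : Dir k (j + 1) (l + 1) C) :
    ∃ e < 4, C.card ≤ (child k C e).card := by
  by_contra hcon
  push Not at hcon
  have h1 := sum_card_child h
  have h2 : ∑ e ∈ range 4, (child k C e).card < ∑ e ∈ range 4, C.card := by
    apply sum_lt_sum_of_nonempty (by simp)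
    intro e he
    exact hcon e (mem_range.1 he)
  simp at h2
  omega

theorem Reach.succ {k n : ℕ} {C : Finset ℕ} {N : ℕ} (h : Reach k n C N) {j l : ℕ}
    (hD : Dir k (n + (j + 1)) (n + (l + 1)) C) : Reach k (n + 1) C N := by
  obtain ⟨C', h1, h2⟩ := h
  have hD' := hD.desc h1
  obtain ⟨e, he, h3⟩ := exists_child hD'
  exact ⟨child k C' e, h1.trans ⟨e, he, rfl⟩, h2.trans h3⟩

theorem Reach.add {k n : ℕ} {C : Finset ℕ} {N : ℕ} (h : Reach k n C N) :
    ∀ (i : ℕ) {j l : ℕ}, Dir k (n + (i + j)) (n + (i + l)) C → Reach k (n + i) C N := by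
  intro i
  induction i with
  | zero => intro j l _; exact h
  | succ i ih =>
    intro j l hD
    have h1 : Reach k (n + i) C N := by
      apply ih (j := j + 1) (l := l + 1)
      convert hD using 1 <;> ring
    have := h1.succ (j := j) (l := l) (by convert hD using 1 <;> ring)
    exact this

theorem four_pow_pos (i : ℕ) : 0 < 4 ^ i := by positivity

theorem prim_ne_neg_one {i : ℕ} {z : ℂ} (hz : IsPrimitiveRoot z (4 ^ (i + 1))) : 1 + z ≠ 0 := by
  intro h
  have hz1 : z = -1 := by linear_combination h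
  have h2 : z ^ 2 = 1 := by rw [hz1]; norm_num
  have := hz.dvd_of_pow_eq_one 2 h2
  have h4 : 4 ∣ 2 := (dvd_pow_self 4 (by omega)).trans this
  omega

/-- no growth for `t` steps forces zeros at the primitive `4^i`-th roots of unity -/
theorem zeros {k : ℕ} (hk : Odd k) (t : ℕ) : ∀ {C : Finset ℕ} {j l : ℕ},
    Dir k (t + j) (t + l) C → ¬ Reach k t C (C.card + 1) →
    ∀ i < t, ∀ z : ℂ, IsPrimitiveRoot z (4 ^ (i + 1)) → expSum z C = 0 := by
  induction t with
  | zero => intro C j l _ _ i hi; omega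
  | succ t ih =>
    intro C j l hD hR i hi z hz
    have hD0 : Dir k ((t + j) + 1) ((t + l) + 1) C := by convert hD using 1 <;> ring
    have hDc : ∀ e < 4, Dir k (t + j) (t + l) (child k C e) := fun e he => hD0.child he
    have hRc : ∀ e < 4, ¬ Reach k t (child k C e) (C.card + 1) := by
      intro e he hr
      obtain ⟨C', h1, h2⟩ := hr
      exact hR ⟨C', ⟨e, he, h1⟩, h2⟩
    have hle : ∀ e < 4, (child k C e).card ≤ C.card := by
      intro e he
      by_contra hcon
      push Not at hcon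
      have h0 : Reach k 0 (child k C e) (C.card + 1) := ⟨_, rfl, hcon⟩
      apply hRc e he
      have := h0.add t (j := j) (l := l) (by simpa using hDc e he)
      simpa using this
    have hsum := sum_card_child hD0
    have heq : ∀ e < 4, (child k C e).card = C.card := by
      simp only [sum_range_succ, sum_range_zero] at hsum
      have a0 := hle 0 (by norm_num)
      have a1 := hle 1 (by norm_num)
      have a2 := hle 2 (by norm_num)
      have a3 := hle 3 (by norm_num)
      intro e he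
      interval_cases e <;> omega
    have hid := expSum_child hD0 z
    have hzk : IsPrimitiveRoot (z ^ k) (4 ^ (i + 1)) := by
      apply hz.pow_of_coprime
      have : Nat.Coprime k 4 := by
        have := hk.coprime_two_right
        exact Nat.Coprime.mul_right this this
      exact this.pow_right _
    have hne : (1 + z ^ k) * (1 + z) ≠ 0 :=
      mul_ne_zero (prim_ne_neg_one hzk) (prim_ne_neg_one hz)
    have hzero : ∑ e ∈ range 4, z ^ e * expSum (z ^ 4) (child k C e) = 0 := by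
      cases i with
      | zero =>
        have hz4 : z ^ 4 = 1 := by simpa using hz.pow_eq_one
        have hc : ∀ e ∈ range 4, z ^ e * expSum (z ^ 4) (child k C e) = z ^ e * C.card := by
          intro e he
          rw [hz4, expSum]
          simp [heq e (mem_range.1 he)]
        rw [sum_congr rfl hc, ← sum_mul]
        have hg := hz.geom_sum_eq_zero (by norm_num)
        have : ∑ e ∈ range 4, z ^ e = 0 := by simpa using hg
        rw [this, zero_mul]
      | succ i =>
        have hz4 : IsPrimitiveRoot (z ^ 4) (4 ^ (i + 1)) := by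
          apply hz.pow (four_pow_pos _)
          rw [pow_succ]; ring
        apply sum_eq_zero
        intro e he
        have he' := mem_range.1 he
        rw [ih (hDc e he') (by rw [heq e he']; exact hRc e he') i (by omega) _ hz4, mul_zero]
    rw [hzero] at hid
    exact (mul_eq_zero.1 hid).resolve_right hne

/-- zeros at all primitive `4^i`-th roots, `1 ≤ i ≤ t`, force `2^t ∣ |C|`. -/
theorem two_pow_dvd {t : ℕ} {C : Finset ℕ}
    (h : ∀ i < t, ∀ z : ℂ, IsPrimitiveRoot z (4 ^ (i + 1)) → expSum z C = 0) :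
    2 ^ t ∣ C.card := by
  set S : ℤ[X] := ∑ c ∈ C, X ^ c with hS
  have h1 : ∀ i ∈ range t, cyclotomic (4 ^ (i + 1)) ℤ ∣ S := by
    intro i hi
    have hpos : 0 < 4 ^ (i + 1) := by positivity
    have hz := Complex.isPrimitiveRoot_exp (4 ^ (i + 1)) hpos.ne'
    rw [cyclotomic_eq_minpoly hz hpos]
    apply minpoly.isIntegrallyClosed_dvd (hz.isIntegral hpos)
    have := h i (mem_range.1 hi) _ hz
    rw [hS, map_sum]
    simpa [expSum] using this
  have h2 : ∏ i ∈ range t, cyclotomic (4 ^ (i + 1)) ℤ ∣ S := by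
    rw [← Polynomial.map_dvd_map (Int.castRingHom ℚ) Int.cast_injective
      (monic_prod_of_monic _ _ fun i _ => cyclotomic.monic _ _), Polynomial.map_prod]
    apply Finset.prod_dvd_of_coprime
    · intro a _ b _ hab
      simp only [Function.onFun, map_cyclotomic]
      apply cyclotomic.isCoprime_rat
      intro h4
      apply hab
      have := Nat.pow_right_injective (le_refl 2 |>.trans (by norm_num : 2 ≤ 4)) h4
      omega
    · intro i hi
      exact Polynomial.map_dvd _ (h1 i hi)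
  have h3 : eval 1 (∏ i ∈ range t, cyclotomic (4 ^ (i + 1)) ℤ) ∣ eval 1 S :=
    (Polynomial.evalRingHom (1 : ℤ)).map_dvd h2
  have h4 : eval 1 (∏ i ∈ range t, cyclotomic (4 ^ (i + 1)) ℤ) = 2 ^ t := by
    rw [eval_prod]
    have : ∀ i ∈ range t, eval 1 (cyclotomic (4 ^ (i + 1)) ℤ) = 2 := by
      intro i _
      haveI : Fact (Nat.Prime 2) := ⟨Nat.prime_two⟩
      have e : 4 ^ (i + 1) = 2 ^ ((2 * i + 1) + 1) := by
        rw [show 2 * i + 1 + 1 = 2 * (i + 1) by ring, pow_mul]; norm_num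
      rw [e, eval_one_cyclotomic_prime_pow]
      norm_num
    rw [prod_congr rfl this]
    simp
  have h5 : eval 1 S = (C.card : ℤ) := by
    rw [hS, eval_finset_sum]; simp
  rw [h4, h5] at h3
  exact_mod_cast h3

theorem grow {k : ℕ} (hk : Odd k) {C : Finset ℕ} {t j l : ℕ} (ht : ¬ 2 ^ (t + 1) ∣ C.card)
    (hD : Dir k ((t + 1) + j) ((t + 1) + l) C) : Reach k (t + 1) C (C.card + 1) := by
  by_contra hcon
  exact ht (two_pow_dvd (zeros hk (t + 1) hD hcon))

theorem main_growth {k : ℕ} (hk : Odd k) (N : ℕ) : ∀ {j l : ℕ},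
    Dir k ((padicValNat 2 N.factorial + N) + j) ((padicValNat 2 N.factorial + N) + l) {0} →
    Reach k (padicValNat 2 N.factorial + N) {0} (N + 1) := by
  induction N with
  | zero =>
    intro j l _
    have h : padicValNat 2 (Nat.factorial 0) + 0 = 0 := by simp
    rw [h]
    exact ⟨{0}, rfl, by simp⟩
  | succ N ih =>
    intro j l hD
    haveI : Fact (Nat.Prime 2) := ⟨Nat.prime_two⟩
    have hv : padicValNat 2 (N + 1).factorial =
        padicValNat 2 (N + 1) + padicValNat 2 N.factorial := by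
      rw [Nat.factorial_succ, padicValNat.mul (by omega) (Nat.factorial_ne_zero N)]
    set a := padicValNat 2 N.factorial + N with ha
    set t := padicValNat 2 (N + 1) with ht
    have hsum : padicValNat 2 (N + 1).factorial + (N + 1) = a + (t + 1) := by omega
    rw [hsum] at hD ⊢
    have hD1 : Dir k (a + ((t + 1) + j)) (a + ((t + 1) + l)) {0} := by
      convert hD using 1 <;> ring
    have hI := ih (j := (t + 1) + j) (l := (t + 1) + l) hD1
    obtain ⟨C', h1, h2⟩ := hI
    have hD2 := hD1.desc h1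
    by_cases hc : N + 2 ≤ C'.card
    · have h0 : Reach k 0 C' (N + 2) := ⟨C', rfl, hc⟩
      have := h0.add (t + 1) (j := j) (l := l) (by simpa using hD2)
      obtain ⟨C'', h3, h4⟩ := this
      exact ⟨C'', h1.trans (by simpa using h3), h4⟩
    · have hcard : C'.card = N + 1 := by omega
      have hnd : ¬ 2 ^ (t + 1) ∣ C'.card := by
        rw [hcard, ht]
        exact pow_succ_padicValNat_not_dvd (by omega)
      obtain ⟨C'', h3, h4⟩ := grow hk hnd hD2
      exact ⟨C'', h1.trans h3, by omega⟩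

theorem padic_fact_lt {N : ℕ} (hN : 1 ≤ N) : padicValNat 2 N.factorial + 1 ≤ N := by
  have h := sub_one_mul_padicValNat_factorial (p := 2) N
  have hd : 1 ≤ (Nat.digits 2 N).sum := by
    by_contra hcon
    have h0 : (Nat.digits 2 N).sum = 0 := by omega
    have : N = 0 := by
      have hmod := Nat.ofDigits_digits 2 N
      have hall : ∀ d ∈ Nat.digits 2 N, d = 0 := by
        simpa [List.sum_eq_zero_iff] using h0
      rw [← hmod]
      have : ∀ l : List ℕ, (∀ d ∈ l, d = 0) → Nat.ofDigits 2 l = 0 := by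
        intro l
        induction l with
        | nil => intro _; simp
        | cons a l ih =>
          intro hl
          rw [Nat.ofDigits_cons, hl a (by simp), ih (fun d hd => hl d (by simp [hd]))]
      exact this _ hall
    omega
  omega

/-- if `k` is odd and `3 (N+1) 2^s > k + 4^s + 3` then `k` has a multiplier below `4^(2N-1)` -/
theorem exists_small {k : ℕ} (hk : Odd k) {N s : ℕ} (hN : 1 ≤ N)
    (hs : k + 4 ^ s + 3 < 3 * ((N + 1) * 2 ^ s)) :
    ∃ m : ℤ, IsMultiplier k m ∧ m < 4 ^ (2 * N - 1) := by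
  set n := padicValNat 2 N.factorial + N with hn
  have hn1 : n ≤ 2 * N - 1 := by
    have := padic_fact_lt hN; omega
  by_cases hD : Dir k (n + 0) (n + s) {0}
  · exfalso
    obtain ⟨C, h1, h2⟩ := main_growth hk N hD
    have hD' := hD.desc h1
    have hb : ∀ c ∈ C, 3 * c ≤ k + 1 := Desc.bound (C := {0}) (by simp) h1
    have hinj : Set.InjOn (fun t : ℕ × ℕ => t.1 + t.2) (C ×ˢ Lam s : Finset (ℕ × ℕ)) := by
      rintro ⟨c, z⟩ hc ⟨c', z'⟩ hc' heq
      simp only [mem_coe, mem_product] at hc hc'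
      simp only at heq
      obtain ⟨a, _, b⟩ := hD' c hc.1 c' hc'.1 0 (zero_mem_lam 0) 0 (zero_mem_lam 0) z hc.2 z'
        hc'.2 (by omega)
      simp [a, b]
    have hcard := card_image_of_injOn hinj
    rw [card_product, card_lam] at hcard
    have hsub : (C ×ˢ Lam s).image (fun t => t.1 + t.2) ⊆ range ((k + 4 ^ s) / 3 + 1) := by
      intro x hx
      rw [mem_image] at hx
      obtain ⟨⟨c, z⟩, hcz, rfl⟩ := hx
      rw [mem_product] at hcz
      have b1 := hb c hcz.1
      have b2 := lam_bound hcz.2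
      rw [mem_range]
      simp only
      omega
    have hle := card_le_card hsub
    rw [hcard, card_range] at hle
    have : (N + 1) * 2 ^ s ≤ C.card * 2 ^ s := Nat.mul_le_mul_right _ h2
    omega
  · unfold Dir at hD
    push Not at hD
    obtain ⟨c, hc, c', hc', X, hX, X', hX', Y, hY, Y', hY', heq, hne⟩ := hD
    rw [mem_singleton] at hc hc'
    subst hc; subst hc'
    have hX0 : Lam (n + 0) = Lam n := rfl
    rw [hX0] at hX hX'
    have hXX : X ≠ X' := by
      intro h
      subst h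
      exact hne rfl rfl (by omega)
    have key : (k : ℤ) * ((X : ℤ) - X') = (Y' : ℤ) - Y := by
      have : ((0 + k * X + Y : ℕ) : ℤ) = ((0 + k * X' + Y' : ℕ) : ℤ) := by rw [heq]
      push_cast at this
      linarith
    have hpow : (4 : ℤ) ^ n ≤ 4 ^ (2 * N - 1) := pow_le_pow_right₀ (by norm_num) hn1
    have hb1 := (lam_sub hX hX').bound
    rcases lt_or_gt_of_ne hXX with h | h
    · refine ⟨(X' : ℤ) - X, ⟨by omega, (lam_sub hX' hX).inL, ?_⟩, ?_⟩
      · have : (k : ℤ) * ((X' : ℤ) - X) = (Y : ℤ) - Y' := by linarith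
        rw [this]; exact (lam_sub hY hY').inL
      · have : (0 : ℤ) < (X' : ℤ) - X := by omega
        linarith [hb1.2]
    · refine ⟨(X : ℤ) - X', ⟨by omega, (lam_sub hX hX').inL, ?_⟩, ?_⟩
      · rw [key]; exact (lam_sub hY' hY).inL
      · have : (0 : ℤ) < (X : ℤ) - X' := by omega
        linarith [hb1.1]

theorem bound_nat {k : ℕ} (hk : Odd k) (h3 : 3 ≤ k) :
    ∃ (m : ℤ) (u : ℕ), IsMultiplier k m ∧ m < 4 ^ u ∧ u ^ 2 < 4 * k := by
  set s := Nat.log 4 (2 * k) with hs
  have h1 : 4 ^ s ≤ 2 * k := Nat.pow_log_le_self 4 (by omega)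
  have h2 : 2 * k < 4 ^ (s + 1) := Nat.lt_pow_succ_log_self (by norm_num) _
  have hs1 : 1 ≤ s := by
    by_contra hcon
    have : s = 0 := by omega
    rw [this] at h2
    omega
  set a := 2 ^ s with ha
  have h4 : 4 ^ s = a ^ 2 := by rw [ha, ← pow_mul, mul_comm, pow_mul]; norm_num
  rw [h4] at h1
  rw [pow_succ, h4] at h2
  have ha2 : 2 ≤ a := by
    calc 2 = 2 ^ 1 := by norm_num
      _ ≤ 2 ^ s := Nat.pow_le_pow_right (by norm_num) hs1
  set N := (k + a ^ 2 + 3) / (3 * a) with hN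
  have hN1 : 3 * a * N ≤ k + a ^ 2 + 3 := Nat.mul_div_le _ _
  have hN2 : k + a ^ 2 + 3 < 3 * a * (N + 1) := by
    have := Nat.lt_div_mul_add (a := k + a ^ 2 + 3) (b := 3 * a) (by omega)
    have e : 3 * a * (N + 1) = N * (3 * a) + 3 * a := by ring
    rw [e]; exact this
  have hNpos : 1 ≤ N := by
    rw [hN, Nat.one_le_div_iff (by omega)]
    nlinarith [sq_nonneg ((a : ℤ) - 2)]
  obtain ⟨m, hm, hlt⟩ := exists_small hk hNpos (s := s) (by
    rw [h4, ← ha]
    calc k + a ^ 2 + 3 < 3 * a * (N + 1) := hN2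
      _ = 3 * ((N + 1) * a) := by ring)
  refine ⟨m, 2 * N - 1, hm, hlt, ?_⟩
  obtain ⟨N', hN'⟩ : ∃ N', N = N' + 1 := ⟨N - 1, by omega⟩
  have hu : 2 * N - 1 = 2 * N' + 1 := by omega
  rw [hu]
  set u := 2 * N' + 1 with hudef
  have hau : 3 * a * u ≤ 2 * k + 2 * a ^ 2 := by
    have : 3 * a * u + 3 * a = 2 * (3 * a * N) := by rw [hudef, hN']; ring
    omega
  have hsq : (3 * a * u) ^ 2 ≤ (2 * k + 2 * a ^ 2) ^ 2 := Nat.pow_le_pow_left hau 2
  have hka : (2 * k + 2 * a ^ 2) ^ 2 ≤ 24 * (a ^ 2 * k) := by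
    have e1 : k * k ≤ (2 * a ^ 2) * k := Nat.mul_le_mul_right k (by omega)
    have e2 : a ^ 2 * a ^ 2 ≤ (2 * k) * a ^ 2 := Nat.mul_le_mul_right _ h1
    nlinarith
  have hpos : 0 < a ^ 2 * k := by positivity
  have h9 : 9 * a ^ 2 * u ^ 2 < 9 * a ^ 2 * (4 * k) := by
    have e3 : (3 * a * u) ^ 2 = 9 * a ^ 2 * u ^ 2 := by ring
    have e4 : 9 * a ^ 2 * (4 * k) = 36 * (a ^ 2 * k) := by ring
    rw [e4, ← e3]
    omega
  exact lt_of_mul_lt_mul_left h9 (by positivity)

theorem IsMultiplier.neg_left {k m : ℤ} (h : IsMultiplier k m) : IsMultiplier (-k) m := by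
  refine ⟨h.1, h.2.1, ?_⟩
  rw [neg_mul]; exact h.2.2.neg

theorem bound_real (k : ℤ) (hk : Odd k) (h3 : 3 ≤ |k|) :
    ∃ m : ℤ, IsMultiplier k m ∧ (m : ℝ) < (16 : ℝ) ^ Real.sqrt |(k : ℝ)| := by
  have hnat : ∃ m : ℤ, IsMultiplier |k| m ∧ (m : ℝ) < (16 : ℝ) ^ Real.sqrt |(k : ℝ)| := by
    obtain ⟨K, hK⟩ := Int.eq_ofNat_of_zero_le (abs_nonneg k)
    have hKodd : Odd K := by
      have h1 : Odd |k| := by
        rcases abs_choice k with h | h <;> rw [h]
        · exact hk
        · exact hk.neg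
      rw [hK] at h1
      exact_mod_cast h1
    have hK3 : 3 ≤ K := by omega
    obtain ⟨m, u, hm, hlt, hu⟩ := bound_nat hKodd hK3
    refine ⟨m, by rw [hK]; exact hm, ?_⟩
    have hKr : |(k : ℝ)| = (K : ℝ) := by
      have : ((|k| : ℤ) : ℝ) = ((K : ℤ) : ℝ) := by rw [hK]
      rw [Int.cast_abs] at this
      simpa using this
    rw [hKr]
    have hus : (u : ℝ) < 2 * Real.sqrt K := by
      have h0 : (u : ℝ) ^ 2 < (2 * Real.sqrt K) ^ 2 := by
        rw [mul_pow, Real.sq_sqrt (by positivity)]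
        have : ((u ^ 2 : ℕ) : ℝ) < ((4 * K : ℕ) : ℝ) := by exact_mod_cast hu
        push_cast at this
        linarith
      exact lt_of_pow_lt_pow_left₀ 2 (by positivity) h0
    have hm1 : (m : ℝ) < (4 : ℝ) ^ u := by exact_mod_cast hlt
    have h16 : (16 : ℝ) ^ Real.sqrt K = (4 : ℝ) ^ (2 * Real.sqrt K) := by
      rw [Real.rpow_mul (by norm_num)]
      norm_num
    rw [h16]
    refine hm1.trans ?_
    rw [← Real.rpow_natCast]
    exact Real.rpow_lt_rpow_of_exponent_lt (by norm_num) hus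
  obtain ⟨m, hm, hlt⟩ := hnat
  rcases abs_choice k with h | h
  · rw [h] at hm; exact ⟨m, hm, hlt⟩
  · rw [h] at hm
    refine ⟨m, ?_, hlt⟩
    have h5 := hm.neg_left
    rwa [neg_neg] at h5

end Pool.Agent.Lib.MP_c52340_nt
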