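import Pool.Agent.Lib.MP_c52340_nt.Contract
import Mathlib.Analysis.Complex.ExponentialBounds

/-! # From the strong Hall property of the block relation to connectivity in few steps -/

namespace C52C

open Finset
open scoped Classical

variable {W J : Type} [Fintype J]

/-- One block step: drop the `r` low digits `y`, keep `X` (of length `m`), append `E`. -/
def BStep (T : ℕ → Finset W) (cat : ℕ → ℕ → W → W → W) (r m : ℕ)
    (R : W → W × J → W × J → Prop) (t t' : W × J) : Prop :=
  ∃ X ∈ T m, ∃ y ∈ T r, ∃ E ∈ T r,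
    t.1 = cat r m y X ∧ t'.1 = cat m r X E ∧ R X (y, t.2) (E, t'.2)

/-- Paths of a given length. -/
def Reach {α : Type} (S : α → α → Prop) : ℕ → α → α → Prop
  | 0, t, t' => t = t'
  | n + 1, t, t' => ∃ t'', Reach S n t t'' ∧ S t'' t'

theorem Reach.trans {α : Type} {S : α → α → Prop} {a b : ℕ} {t u v : α}
    (h1 : Reach S a t u) (h2 : Reach S b u v) : Reach S (a + b) t v := by
  induction b generalizing v with
  | zero =>
    have : u = v := h2
    subst this
    exact h1
  | succ b ih =>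
    obtain ⟨w, hw, hwv⟩ := h2
    exact ⟨w, ih hw, hwv⟩

theorem Reach.split {α : Type} {S : α → α → Prop} {a b : ℕ} {t v : α}
    (h : Reach S (a + b) t v) : ∃ u, Reach S a t u ∧ Reach S b u v := by
  induction b generalizing v with
  | zero => exact ⟨v, h, rfl⟩
  | succ b ih =>
    obtain ⟨w, hw, hwv⟩ := h
    obtain ⟨u, h1, h2⟩ := ih hw
    exact ⟨u, h1, w, h2, hwv⟩

theorem Reach.head {α : Type} {S : α → α → Prop} {n : ℕ} {t u v : α}
    (h1 : S t u) (h2 : Reach S n u v) : Reach S (n + 1) t v := by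
  have h3 : Reach S 1 t u := ⟨t, rfl, h1⟩
  have := h3.trans h2
  rwa [add_comm] at this

theorem Reach.rev {α : Type} {S : α → α → Prop} {n : ℕ} {t v : α}
    (h : Reach S n t v) : Reach (fun a b => S b a) n v t := by
  induction n generalizing v with
  | zero => exact (show t = v from h).symm
  | succ n ih =>
    obtain ⟨w, hw, hwv⟩ := h
    exact Reach.head (S := fun a b => S b a) hwv (ih hw)

theorem Reach.mono {α : Type} {S S' : α → α → Prop} (hS : ∀ a b, S a b → S' a b) {n : ℕ}
    {t v : α} (h : Reach S n t v) : Reach S' n t v := by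
  induction n generalizing v with
  | zero => exact h
  | succ n ih =>
    obtain ⟨w, hw, hwv⟩ := h
    exact ⟨w, ih hw, hS _ _ hwv⟩

/-- The points reached from a set in `n` steps. -/
def It {α : Type} (S : α → α → Prop) (P : α → Prop) (n : ℕ) (v : α) : Prop :=
  ∃ t, P t ∧ Reach S n t v

theorem It.add {α : Type} {S : α → α → Prop} {P : α → Prop} {a b : ℕ} {v : α}
    (h : It S (It S P a) b v) : It S P (a + b) v := by
  obtain ⟨t, ⟨u, hu, h1⟩, h2⟩ := h
  exact ⟨u, hu, h1.trans h2⟩

/-- Successors inside the block alphabet. -/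
noncomputable def nbr (T : ℕ → Finset W) (r : ℕ) (R : W → W × J → W × J → Prop) (X : W)
    (D : Finset (W × J)) : Finset (W × J) :=
  (T r ×ˢ (univ : Finset J)).filter (fun e => ∃ d ∈ D, R X d e)

/-- The local inequality. -/
def LI (T : ℕ → Finset W) (r m : ℕ) (R : W → W × J → W × J → Prop) (Mr β : ℝ) : Prop :=
  ∀ X ∈ T m, ∀ D ⊆ T r ×ˢ (univ : Finset J),
    Mr ^ (1 - β) * (D.card : ℝ) ^ β ≤ ((nbr T r R X D).card : ℝ)

/-- The number of tokens over `T l` in a set. -/
noncomputable def cnt (T : ℕ → Finset W) (l : ℕ) (P : W × J → Prop) : ℝ :=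
  ∑ x ∈ T l, (((univ : Finset J).filter (fun j => P (x, j))).card : ℝ)

theorem cnt_eq (T : ℕ → Finset W) (l : ℕ) (P : W × J → Prop) :
    cnt T l P = (((T l ×ˢ (univ : Finset J)).filter P).card : ℝ) := by
  unfold cnt
  rw [Finset.card_eq_sum_ones, Finset.sum_filter, Finset.sum_product]
  push_cast
  apply Finset.sum_congr rfl
  intro x _
  rw [Finset.card_eq_sum_ones, Finset.sum_filter]
  push_cast
  rfl

theorem cnt_mono (T : ℕ → Finset W) (l : ℕ) {P Q : W × J → Prop}
    (h : ∀ t, P t → Q t) : cnt T l P ≤ cnt T l Q := by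
  unfold cnt
  apply Finset.sum_le_sum
  intro x _
  exact_mod_cast Finset.card_le_card (fun j hj => by
    rw [Finset.mem_filter] at hj ⊢
    exact ⟨hj.1, h _ hj.2⟩)

theorem cnt_nonneg (T : ℕ → Finset W) (l : ℕ) (P : W × J → Prop) : 0 ≤ cnt T l P :=
  Finset.sum_nonneg fun _ _ => Nat.cast_nonneg _

variable {h : ℕ} {T : ℕ → Finset W} {cat : ℕ → ℕ → W → W → W}

/-- Contraction, set form. -/
theorem contractSet (H : Cat h T cat) (hh : 0 < h) (hJ : 0 < Fintype.card J) {α : ℝ}
    (hα : 1 ≤ α) (r m n p : ℕ) (hm : 0 < m) (hpr : p ≤ r) (hl : r + m = n * r + p)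
    (R : W → W × J → W × J → Prop)
    (hLI : LI T r m R ((Fintype.card J : ℝ) * (h : ℝ) ^ r) (1 / α)) (P : W × J → Prop) :
    ((Fintype.card J : ℝ) * (h : ℝ) ^ (r + m)) ^ (α - 1) * cnt T (r + m) P ≤
      (cnt T (r + m) (It (BStep T cat r m R) P (n + 1))) ^ α := by
  set S := BStep T cat r m R with hS
  set f : ℕ → W → ℝ := fun i x =>
    (((univ : Finset J).filter (fun j => It S P i (x, j))).card : ℝ) with hf
  have hJr : (0 : ℝ) < (Fintype.card J : ℝ) := by exact_mod_cast hJ
  have key := contractFun H hh hα hJr r m n p hm hpr hl f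
    (fun i x => Nat.cast_nonneg _)
    (fun i x => by
      have h9 : ((univ : Finset J).filter (fun j => It S P i (x, j))).card ≤ Fintype.card J :=
        Finset.card_le_univ _
      show (((univ : Finset J).filter (fun j => It S P i (x, j))).card : ℝ) ≤ _
      exact_mod_cast h9)
    (by
      intro i _ X hX
      set D : Finset (W × J) := (T r ×ˢ (univ : Finset J)).filter
        (fun d => It S P i (cat r m d.1 X, d.2)) with hD
      have h1 := hLI X hX D (Finset.filter_subset _ _)
      have h2 : (D.card : ℝ) = ∑ y ∈ T r, f i (cat r m y X) := by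
        rw [hD, Finset.card_eq_sum_ones, Finset.sum_filter, Finset.sum_product]
        push_cast
        apply Finset.sum_congr rfl
        intro x _
        rw [hf]
        dsimp only
        rw [Finset.card_eq_sum_ones, Finset.sum_filter]
        push_cast
        rfl
      have h3 : ((nbr T r R X D).card : ℝ) ≤ ∑ E ∈ T r, f (i + 1) (cat m r X E) := by
        have h4 : ((nbr T r R X D).card : ℝ) ≤ (((T r ×ˢ (univ : Finset J)).filter
            (fun e => It S P (i + 1) (cat m r X e.1, e.2))).card : ℝ) := by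
          have : nbr T r R X D ⊆ (T r ×ˢ (univ : Finset J)).filter
              (fun e => It S P (i + 1) (cat m r X e.1, e.2)) := by
            intro e he
            unfold nbr at he
            rw [Finset.mem_filter] at he ⊢
            refine ⟨he.1, ?_⟩
            obtain ⟨d, hd, hR⟩ := he.2
            rw [hD, Finset.mem_filter] at hd
            obtain ⟨hd1, t, ht, hr⟩ := hd
            rw [Finset.mem_product] at hd1
            have he1 := (Finset.mem_product.mp he.1).1
            exact ⟨t, ht, (cat r m d.1 X, d.2), hr, X, hX, d.1, hd1.1, e.1, he1, rfl, rfl, hR⟩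
          exact_mod_cast Finset.card_le_card this
        refine h4.trans (le_of_eq ?_)
        rw [Finset.card_eq_sum_ones, Finset.sum_filter, Finset.sum_product]
        push_cast
        apply Finset.sum_congr rfl
        intro x _
        rw [hf]
        dsimp only
        rw [Finset.card_eq_sum_ones, Finset.sum_filter]
        push_cast
        rfl
      rw [h2] at h1
      exact h1.trans h3)
  refine le_trans (le_of_eq ?_) key
  congr 1
  unfold cnt
  apply Finset.sum_congr rfl
  intro x _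
  rw [hf]
  dsimp only
  congr 2
  ext j
  simp only [Finset.mem_filter, Finset.mem_univ, true_and]
  constructor
  · intro hj
    exact ⟨_, hj, rfl⟩
  · rintro ⟨t, ht, h1⟩
    have : t = (x, j) := h1
    rw [← this]
    exact ht

/-- The density after `k` passes. -/
theorem passes (H : Cat h T cat) (hh : 0 < h) (hJ : 0 < Fintype.card J) {α : ℝ}
    (hα : 1 ≤ α) (r m n p : ℕ) (hm : 0 < m) (hpr : p ≤ r) (hl : r + m = n * r + p)
    (R : W → W × J → W × J → Prop)
    (hLI : LI T r m R ((Fintype.card J : ℝ) * (h : ℝ) ^ r) (1 / α)) (P : W × J → Prop) (k : ℕ) :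
    (cnt T (r + m) P / ((Fintype.card J : ℝ) * (h : ℝ) ^ (r + m))) ^ ((1 / α) ^ k) ≤
      cnt T (r + m) (It (BStep T cat r m R) P (k * (n + 1))) /
        ((Fintype.card J : ℝ) * (h : ℝ) ^ (r + m)) := by
  have hα0 : 0 < α := by linarith
  have hM : 0 < (Fintype.card J : ℝ) * (h : ℝ) ^ (r + m) := by
    have : (0 : ℝ) < (Fintype.card J : ℝ) := by exact_mod_cast hJ
    positivity
  set Mt := (Fintype.card J : ℝ) * (h : ℝ) ^ (r + m) with hMt
  induction k with
  | zero =>
    rw [pow_zero, Real.rpow_one]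
    apply div_le_div_of_nonneg_right _ hM.le
    apply cnt_mono
    intro t ht
    rw [Nat.zero_mul]
    exact ⟨t, ht, rfl⟩
  | succ k ih =>
    set Q := It (BStep T cat r m R) P (k * (n + 1)) with hQ
    have h1 := contractSet H hh hJ hα r m n p hm hpr hl R hLI Q
    rw [← hMt] at h1
    have h2 : cnt T (r + m) (It (BStep T cat r m R) Q (n + 1)) ≤
        cnt T (r + m) (It (BStep T cat r m R) P ((k + 1) * (n + 1))) := by
      apply cnt_mono
      intro t ht
      have := It.add ht
      have e : (k + 1) * (n + 1) = k * (n + 1) + (n + 1) := by ring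
      rw [e]
      exact this
    set c' := cnt T (r + m) (It (BStep T cat r m R) Q (n + 1)) with hc'
    have hc'0 : 0 ≤ c' := cnt_nonneg _ _ _
    have hQ0 : 0 ≤ cnt T (r + m) Q := cnt_nonneg _ _ _
    have h3 : (cnt T (r + m) Q / Mt) ^ (1 / α) ≤ c' / Mt := by
      have h4 : cnt T (r + m) Q / Mt ≤ (c' / Mt) ^ α := by
        rw [Real.div_rpow hc'0 hM.le, div_le_div_iff₀ hM (Real.rpow_pos_of_pos hM _)]
        have e : Mt ^ α = Mt ^ (α - 1) * Mt := by
          rw [Real.rpow_sub_one hM.ne']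
          field_simp
        rw [e]
        calc cnt T (r + m) Q * (Mt ^ (α - 1) * Mt)
            = (Mt ^ (α - 1) * cnt T (r + m) Q) * Mt := by ring
          _ ≤ c' ^ α * Mt := mul_le_mul_of_nonneg_right h1 hM.le
      have h5 : 0 ≤ c' / Mt := div_nonneg hc'0 hM.le
      have h6 := Real.rpow_le_rpow (div_nonneg hQ0 hM.le) h4 (by positivity : 0 ≤ 1 / α)
      refine h6.trans (le_of_eq ?_)
      rw [← Real.rpow_mul h5]
      have e2 : α * (1 / α) = 1 := by field_simp
      rw [e2, Real.rpow_one]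
    have hP0 : 0 ≤ cnt T (r + m) P / Mt := div_nonneg (cnt_nonneg _ _ _) hM.le
    calc (cnt T (r + m) P / Mt) ^ ((1 / α) ^ (k + 1))
        = ((cnt T (r + m) P / Mt) ^ ((1 / α) ^ k)) ^ (1 / α) := by
          rw [← Real.rpow_mul hP0, pow_succ]
      _ ≤ (cnt T (r + m) Q / Mt) ^ (1 / α) :=
          Real.rpow_le_rpow (Real.rpow_nonneg hP0 _) ih (by positivity)
      _ ≤ c' / Mt := h3
      _ ≤ _ := div_le_div_of_nonneg_right h2 hM.le

/-- Strong Hall property of the block relation over every kept part. -/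
def BSH (T : ℕ → Finset W) (r m : ℕ) (R : W → W × J → W × J → Prop) : Prop :=
  ∀ X ∈ T m, ∀ D ⊆ T r ×ˢ (univ : Finset J), D.Nonempty → D ≠ T r ×ˢ (univ : Finset J) →
    D.card + 1 ≤ (nbr T r R X D).card

theorem nbr_sub (T : ℕ → Finset W) (r : ℕ) (R : W → W × J → W × J → Prop) (X : W)
    (D : Finset (W × J)) : nbr T r R X D ⊆ T r ×ˢ (univ : Finset J) :=
  Finset.filter_subset _ _

theorem nbr_mono (T : ℕ → Finset W) (r : ℕ) (R : W → W × J → W × J → Prop) (X : W)
    {D D' : Finset (W × J)} (h : D ⊆ D') : nbr T r R X D ⊆ nbr T r R X D' := by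
  intro e he
  unfold nbr at he ⊢
  rw [Finset.mem_filter] at he ⊢
  obtain ⟨h1, d, hd, h2⟩ := he
  exact ⟨h1, d, h hd, h2⟩

/-- Under `BSH` everything has everything as successors. -/
theorem BSH.full {T : ℕ → Finset W} {r m : ℕ} {R : W → W × J → W × J → Prop}
    (hB : BSH T r m R) (h2 : 2 ≤ (T r ×ˢ (univ : Finset J)).card) {X : W} (hX : X ∈ T m) :
    nbr T r R X (T r ×ˢ (univ : Finset J)) = T r ×ˢ (univ : Finset J) := by
  obtain ⟨a, ha⟩ : (T r ×ˢ (univ : Finset J)).Nonempty := by
    rw [← Finset.card_pos]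
    omega
  have hc : ((T r ×ˢ (univ : Finset J)).erase a).card = (T r ×ˢ (univ : Finset J)).card - 1 :=
    Finset.card_erase_of_mem ha
  have h3 := hB X hX ((T r ×ˢ (univ : Finset J)).erase a) (Finset.erase_subset _ _)
    (by rw [← Finset.card_pos]; omega)
    (by
      intro hE
      rw [hE] at hc
      omega)
  have h4 := Finset.card_le_card (nbr_mono T r R X (Finset.erase_subset a (T r ×ˢ (univ : Finset J))))
  apply Finset.eq_of_subset_of_card_le (nbr_sub _ _ _ _ _)
  omega

/-- The backward strong Hall property. -/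
theorem BSH.back {T : ℕ → Finset W} {r m : ℕ} {R : W → W × J → W × J → Prop}
    (hB : BSH T r m R) (h2 : 2 ≤ (T r ×ˢ (univ : Finset J)).card) :
    BSH T r m (fun X d e => R X e d) := by
  intro X hX D' hD' hne hnf
  by_contra hcon
  set F := T r ×ˢ (univ : Finset J) with hF
  set P := nbr T r (fun X d e => R X e d) X D' with hP
  have hPle : P.card ≤ D'.card := by omega
  have hD'lt : D'.card < F.card := by
    apply Finset.card_lt_card
    exact Finset.ssubset_iff_subset_ne.mpr ⟨hD', hnf⟩
  have hPF : P ⊆ F := nbr_sub _ _ _ _ _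
  have hdisj : ∀ e ∈ nbr T r R X (F \ P), e ∉ D' := by
    intro e he heD
    unfold nbr at he
    rw [Finset.mem_filter] at he
    obtain ⟨he1, d, hd, hR⟩ := he
    rw [Finset.mem_sdiff] at hd
    apply hd.2
    rw [hP]
    unfold nbr
    rw [Finset.mem_filter]
    exact ⟨hd.1, e, heD, hR⟩
  have hsub : nbr T r R X (F \ P) ⊆ F \ D' := by
    intro e he
    rw [Finset.mem_sdiff]
    exact ⟨nbr_sub _ _ _ _ _ he, hdisj e he⟩
  have hc1 : (F \ P).card = F.card - P.card := Finset.card_sdiff_of_subset hPF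
  have hc2 : (F \ D').card = F.card - D'.card := Finset.card_sdiff_of_subset hD'
  have hc3 := Finset.card_le_card hsub
  have hne1 : (F \ P).Nonempty := by
    rw [← Finset.card_pos]
    omega
  by_cases hPe : P = ∅
  · rw [hPe, Finset.sdiff_empty, hB.full h2 hX] at hsub
    have h4 : F.card ≤ (F \ D').card := Finset.card_le_card hsub
    have h5 : 0 < D'.card := Finset.card_pos.mpr hne
    omega
  · have hnf2 : F \ P ≠ F := by
      intro h6
      have h7 : 0 < P.card := Finset.card_pos.mpr (Finset.nonempty_iff_ne_empty.mpr hPe)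
      have h8 := congrArg Finset.card h6
      have h9 := Finset.card_le_card hPF
      omega
    have := hB X hX (F \ P) Finset.sdiff_subset hne1 hnf2
    omega

/-- The local inequality from the strong Hall property, with exponent `1 - 1/M`. -/
theorem BSH.li {T : ℕ → Finset W} {r m : ℕ} {R : W → W × J → W × J → Prop}
    (hB : BSH T r m R) (h2 : 2 ≤ (T r ×ˢ (univ : Finset J)).card) {Mr : ℝ}
    (hM : Mr = ((T r ×ˢ (univ : Finset J)).card : ℝ)) :
    LI T r m R Mr (1 - 1 / Mr) := by
  intro X hX D hD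
  have hM2 : (2 : ℝ) ≤ Mr := by
    rw [hM]
    exact_mod_cast h2
  have hM0 : 0 < Mr := by linarith
  have hb : 0 < 1 - 1 / Mr := by
    have : 1 / Mr ≤ 1 / 2 := one_div_le_one_div_of_le (by norm_num) hM2
    linarith
  have e1 : 1 - (1 - 1 / Mr) = 1 / Mr := by ring
  rw [e1]
  have hAM := Real.geom_mean_le_arith_mean2_weighted (w₁ := 1 / Mr) (w₂ := 1 - 1 / Mr)
    (p₁ := Mr) (p₂ := (D.card : ℝ)) (by positivity) hb.le hM0.le (Nat.cast_nonneg _) (by ring)
  rcases D.eq_empty_or_nonempty with h0 | h0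
  · rw [h0]
    simp only [Finset.card_empty, Nat.cast_zero]
    rw [Real.zero_rpow hb.ne', mul_zero]
    exact Nat.cast_nonneg _
  · by_cases hf : D = T r ×ˢ (univ : Finset J)
    · rw [hf, hB.full h2 hX, ← hM, ← Real.rpow_add hM0]
      have e2 : 1 / Mr + (1 - 1 / Mr) = 1 := by ring
      rw [e2, Real.rpow_one]
    · have h3 := hB X hX D hD h0 hf
      have h4 : (D.card : ℝ) + 1 ≤ ((nbr T r R X D).card : ℝ) := by exact_mod_cast h3
      have e3 : 1 / Mr * Mr = 1 := by field_simp
      have h5 : (1 - 1 / Mr) * (D.card : ℝ) ≤ (D.card : ℝ) := by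
        have h6 : 0 ≤ 1 / Mr * (D.card : ℝ) := by positivity
        linarith
      linarith

omit [Fintype J] in
theorem bstep_mirror {T : ℕ → Finset W} {cat : ℕ → ℕ → W → W → W} {r m : ℕ}
    {R : W → W × J → W × J → Prop} (a b : W × J) :
    BStep T (fun a b y X => cat b a X y) r m (fun X d e => R X e d) a b ↔
      BStep T cat r m R b a := by
  constructor
  · rintro ⟨X, hX, y, hy, E, hE, h1, h2, h3⟩
    exact ⟨X, hX, E, hE, y, hy, h2, h1, h3⟩
  · rintro ⟨X, hX, y, hy, E, hE, h1, h2, h3⟩
    exact ⟨X, hX, E, hE, y, hy, h2, h1, h3⟩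

theorem cnt_ge_one {T : ℕ → Finset W} {l : ℕ} {t : W × J} (ht : t.1 ∈ T l)
    {P : W × J → Prop} (hP : P t) : 1 ≤ cnt T l P := by
  rw [cnt_eq]
  have h1 : t ∈ (T l ×ˢ (univ : Finset J)).filter P := by
    rw [Finset.mem_filter, Finset.mem_product]
    exact ⟨⟨ht, Finset.mem_univ _⟩, hP⟩
  have h2 : 1 ≤ ((T l ×ˢ (univ : Finset J)).filter P).card := Finset.card_pos.mpr ⟨t, h1⟩
  exact_mod_cast h2

/-- After enough passes the density exceeds one half. -/
theorem half {Mt β : ℝ} (hMt : 1 < Mt) {k : ℕ} (hk : β ^ k * Real.log Mt < Real.log 2) :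
    1 / 2 < (1 / Mt) ^ (β ^ k) := by
  have hM0 : 0 < Mt := by linarith
  rw [Real.div_rpow zero_le_one hM0.le, Real.one_rpow]
  have h1 : Mt ^ (β ^ k) < 2 := by
    rw [← Real.log_lt_log_iff (Real.rpow_pos_of_pos hM0 _) (by norm_num),
      Real.log_rpow hM0]
    exact hk
  exact one_div_lt_one_div_of_lt (Real.rpow_pos_of_pos hM0 _) h1

/-- The number of passes. -/
theorem passes_enough {Mr Lg : ℝ} (hM : 1 < Mr) (hL : 0 < Lg) {k : ℕ}
    (hk : Mr * (1 + Real.log Lg) ≤ (k : ℝ)) : (1 - 1 / Mr) ^ k * Lg < Real.log 2 := by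
  have hM0 : 0 < Mr := by linarith
  have h0 : 0 ≤ 1 - 1 / Mr := by
    have : 1 / Mr ≤ 1 := by
      rw [div_le_one hM0]
      exact hM.le
    linarith
  have h1 : 1 - 1 / Mr ≤ Real.exp (-(1 / Mr)) := by
    have := Real.add_one_le_exp (-(1 / Mr))
    linarith
  have h2 : (1 - 1 / Mr) ^ k ≤ Real.exp (-(1 + Real.log Lg)) := by
    refine (pow_le_pow_left₀ h0 h1 k).trans ?_
    rw [← Real.exp_nat_mul]
    apply Real.exp_le_exp.mpr
    have h3 : 1 + Real.log Lg ≤ (k : ℝ) * (1 / Mr) := by
      rw [mul_one_div, le_div_iff₀ hM0]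
      linarith
    linarith
  have h3 : Real.exp (-(1 + Real.log Lg)) * Lg = Real.exp (-1) := by
    rw [neg_add, Real.exp_add, Real.exp_neg (Real.log Lg), Real.exp_log hL]
    field_simp
  have h4 : Real.exp (-1) < Real.log 2 := by
    have h5 : (2.7182818283 : ℝ) < Real.exp 1 := Real.exp_one_gt_d9
    have h6 : (0.6931471803 : ℝ) < Real.log 2 := Real.log_two_gt_d9
    rw [Real.exp_neg]
    have h7 : (Real.exp 1)⁻¹ < (2.7182818283 : ℝ)⁻¹ :=
      (inv_lt_inv₀ (by positivity) (by norm_num)).mpr h5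
    have h8 : (2.7182818283 : ℝ)⁻¹ < 0.5 := by norm_num
    linarith
  calc (1 - 1 / Mr) ^ k * Lg ≤ Real.exp (-(1 + Real.log Lg)) * Lg :=
        mul_le_mul_of_nonneg_right h2 hL.le
    _ = Real.exp (-1) := h3
    _ < Real.log 2 := h4

/-- **Connectivity.**  Under the strong Hall property, any two tokens over `T (r + m)` are joined
by a path of exactly `2 k (n + 1)` block steps, where `r + m = n r + p`, `p ≤ r`, and
`M (1 + log log (|J| h^l)) ≤ k`, `M = |J| h^r`. -/
theorem connect (H : Cat h T cat) (hh : 2 ≤ h) (hJ : 0 < Fintype.card J)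
    (r m n p k : ℕ) (hr : 0 < r) (hm : 0 < m) (hpr : p ≤ r) (hl : r + m = n * r + p)
    (R : W → W × J → W × J → Prop) (hB : BSH T r m R)
    (hk : ((Fintype.card J : ℝ) * (h : ℝ) ^ r) *
      (1 + Real.log (Real.log ((Fintype.card J : ℝ) * (h : ℝ) ^ (r + m)))) ≤ (k : ℝ))
    {t t' : W × J} (ht : t.1 ∈ T (r + m)) (ht' : t'.1 ∈ T (r + m)) :
    Reach (BStep T cat r m R) (2 * (k * (n + 1))) t t' := by
  have hJ1 : (1 : ℝ) ≤ (Fintype.card J : ℝ) := by exact_mod_cast hJ
  have hh1 : (2 : ℝ) ≤ (h : ℝ) := by exact_mod_cast hh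
  set Mr := (Fintype.card J : ℝ) * (h : ℝ) ^ r with hMr
  set Mt := (Fintype.card J : ℝ) * (h : ℝ) ^ (r + m) with hMt
  have hpw : ∀ a : ℕ, 0 < a → (2 : ℝ) ≤ (h : ℝ) ^ a := by
    intro a ha
    calc (2 : ℝ) ≤ (h : ℝ) ^ 1 := by rw [pow_one]; exact hh1
      _ ≤ (h : ℝ) ^ a := pow_le_pow_right₀ (by linarith) ha
  have hMr2 : 2 ≤ Mr := by
    have := hpw r hr
    rw [hMr]
    nlinarith
  have hMt2 : 2 ≤ Mt := by
    have := hpw (r + m) (by omega)
    rw [hMt]
    nlinarith
  have hcardr : Mr = ((T r ×ˢ (univ : Finset J)).card : ℝ) := by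
    rw [Finset.card_product, H.card r, Finset.card_univ, hMr]
    push_cast
    ring
  have h2 : 2 ≤ (T r ×ˢ (univ : Finset J)).card := by
    rw [hcardr] at hMr2
    exact_mod_cast hMr2
  have hMr0 : 0 < Mr := by linarith
  set α := 1 / (1 - 1 / Mr) with hαdef
  have hb1 : 1 / Mr ≤ 1 / 2 := one_div_le_one_div_of_le (by norm_num) hMr2
  have hb0 : 0 < 1 / Mr := by positivity
  have hα : 1 ≤ α := by
    rw [hαdef, le_div_iff₀ (by linarith)]
    linarith
  have hαi : 1 / α = 1 - 1 / Mr := by
    rw [hαdef, one_div_one_div]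
  have hLgpos : 0 < Real.log Mt := Real.log_pos (by linarith)
  have hpk : (1 - 1 / Mr) ^ k * Real.log Mt < Real.log 2 :=
    passes_enough (by linarith) hLgpos hk
  have hhalf : 1 / 2 < (1 / Mt) ^ ((1 / α) ^ k) := by
    rw [hαi]
    exact half (by linarith) hpk
  have hMt0 : 0 < Mt := by linarith
  have hexp : 0 ≤ (1 / α) ^ k := by positivity
  -- forward
  have hF : Mt / 2 < cnt T (r + m)
      (It (BStep T cat r m R) (fun u => u = t) (k * (n + 1))) := by
    have h3 := passes H (by omega) hJ hα r m n p hm hpr hl R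
      (by rw [hαi]; exact hB.li h2 hcardr) (fun u => u = t) k
    rw [← hMt] at h3
    have h4 : (1 / Mt) ^ ((1 / α) ^ k) ≤
        (cnt T (r + m) (fun u => u = t) / Mt) ^ ((1 / α) ^ k) := by
      apply Real.rpow_le_rpow (by positivity) _ hexp
      exact div_le_div_of_nonneg_right (cnt_ge_one ht rfl) hMt0.le
    have h5 := hhalf.trans_le (h4.trans h3)
    rw [lt_div_iff₀ hMt0] at h5
    linarith
  -- backward
  have hG : Mt / 2 < cnt T (r + m)
      (It (BStep T (fun a b y X => cat b a X y) r m (fun X d e => R X e d))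
        (fun u => u = t') (k * (n + 1))) := by
    have h3 := passes H.mirror (by omega) hJ hα r m n p hm hpr hl (fun X d e => R X e d)
      (by rw [hαi]; exact (hB.back h2).li h2 hcardr) (fun u => u = t') k
    rw [← hMt] at h3
    have h4 : (1 / Mt) ^ ((1 / α) ^ k) ≤
        (cnt T (r + m) (fun u => u = t') / Mt) ^ ((1 / α) ^ k) := by
      apply Real.rpow_le_rpow (by positivity) _ hexp
      exact div_le_div_of_nonneg_right (cnt_ge_one ht' rfl) hMt0.le
    have h5 := hhalf.trans_le (h4.trans h3)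
    rw [lt_div_iff₀ hMt0] at h5
    linarith
  rw [cnt_eq] at hF hG
  set F := (T (r + m) ×ˢ (univ : Finset J)).filter
    (It (BStep T cat r m R) (fun u => u = t) (k * (n + 1))) with hFdef
  set G := (T (r + m) ×ˢ (univ : Finset J)).filter
    (It (BStep T (fun a b y X => cat b a X y) r m (fun X d e => R X e d))
        (fun u => u = t') (k * (n + 1))) with hGdef
  have hFG : (F ∩ G).Nonempty := by
    rw [Finset.nonempty_iff_ne_empty]
    intro he
    have hdis : Disjoint F G := Finset.disjoint_iff_inter_eq_empty.mpr he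
    have hun : (F ∪ G).card = F.card + G.card := Finset.card_union_of_disjoint hdis
    have hle : (F ∪ G).card ≤ (T (r + m) ×ˢ (univ : Finset J)).card := by
      apply Finset.card_le_card
      exact Finset.union_subset (Finset.filter_subset _ _) (Finset.filter_subset _ _)
    have hle2 : ((F.card : ℝ) + (G.card : ℝ)) ≤ Mt := by
      have h9 : ((T (r + m) ×ˢ (univ : Finset J)).card : ℝ) = Mt := by
        rw [Finset.card_product, H.card (r + m), Finset.card_univ, hMt]
        push_cast
        ring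
      rw [← h9]
      rw [hun] at hle
      exact_mod_cast hle
    linarith
  obtain ⟨u, hu⟩ := hFG
  rw [Finset.mem_inter, hFdef, hGdef, Finset.mem_filter, Finset.mem_filter] at hu
  obtain ⟨⟨_, a, ha, h1⟩, _, b, hb, h3⟩ := hu
  subst ha
  subst hb
  have h4 := (Reach.mono (fun x y hxy => (bstep_mirror x y).mp hxy) h3).rev
  have h5 := h1.trans h4
  rw [two_mul]
  exact h5

end C52C
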