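import Mathlib.Analysis.MeanInequalities
import Mathlib.Analysis.MeanInequalitiesPow
import Mathlib.Analysis.SpecialFunctions.Pow.Real
import Mathlib.Analysis.SpecialFunctions.Log.Basic

/-! # The abstract contraction theorem (text c52_text.md, section 4)

Words are elements of `T l`, concatenation of a word of length `a` (low digits) and a word of
length `b` is `cat a b`.  One block step drops the `r` low digits and appends `r` new digits.
The local inequality for the block relation over every kept part tensorises (Minkowski). -/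

namespace C52C

open Finset

/-- Words with concatenation: `T a` is the set of words of length `a` over `h` letters. -/
structure Cat {W : Type} (h : ℕ) (T : ℕ → Finset W) (cat : ℕ → ℕ → W → W → W) : Prop where
  sum : ∀ (a b : ℕ) (g : W → ℝ),
    ∑ x ∈ T (a + b), g x = ∑ y ∈ T a, ∑ X ∈ T b, g (cat a b y X)
  assoc : ∀ (a b c : ℕ) (u v w : W),
    cat a (b + c) u (cat b c v w) = cat (a + b) c (cat a b u v) w
  card : ∀ a, (T a).card = h ^ a

/-- The mirror image. -/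
theorem Cat.mirror {W : Type} {h : ℕ} {T : ℕ → Finset W} {cat : ℕ → ℕ → W → W → W}
    (H : Cat h T cat) : Cat h T (fun a b y X => cat b a X y) where
  sum := by
    intro a b g
    rw [add_comm a b, H.sum b a g, Finset.sum_comm]
  assoc := by
    intro a b c u v w
    have := H.assoc c b a w v u
    rw [add_comm b c, add_comm a b]
    exact this.symm
  card := H.card

theorem Cat.mem {W : Type} {h : ℕ} {T : ℕ → Finset W} {cat : ℕ → ℕ → W → W → W}
    (H : Cat h T cat) {a b : ℕ} {y X : W} (hy : y ∈ T a) (hX : X ∈ T b) :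
    cat a b y X ∈ T (a + b) := by
  classical
  by_contra hn
  have h1 := H.sum a b (fun x => if x ∈ T (a + b) then 0 else 1)
  have h2 : ∑ x ∈ T (a + b), (fun x => if x ∈ T (a + b) then (0 : ℝ) else 1) x = 0 := by
    apply Finset.sum_eq_zero
    intro x hx
    simp [hx]
  rw [h2] at h1
  have h3 : (1 : ℝ) ≤ ∑ y ∈ T a, ∑ X ∈ T b,
      (fun x => if x ∈ T (a + b) then (0 : ℝ) else 1) (cat a b y X) := by
    have hnn : ∀ y ∈ T a, 0 ≤ ∑ X ∈ T b,
        (fun x => if x ∈ T (a + b) then (0 : ℝ) else 1) (cat a b y X) := by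
      intro y _
      apply Finset.sum_nonneg
      intro X _
      dsimp only
      split_ifs <;> norm_num
    have hnn2 : ∀ X ∈ T b, 0 ≤
        (fun x => if x ∈ T (a + b) then (0 : ℝ) else 1) (cat a b y X) := by
      intro X _
      dsimp only
      split_ifs <;> norm_num
    have h4 := Finset.single_le_sum hnn hy
    have h5 := Finset.single_le_sum hnn2 hX
    have h6 : (fun x => if x ∈ T (a + b) then (0 : ℝ) else 1) (cat a b y X) = 1 := by
      dsimp only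
      rw [if_neg hn]
    rw [h6] at h5
    exact h5.trans h4
  linarith

/-- Minkowski's inequality for a finite family of vectors. -/
theorem mink {ι κ : Type*} (s : Finset ι) (t : Finset κ) (a : ι → κ → ℝ)
    (ha : ∀ i ∈ s, ∀ j ∈ t, 0 ≤ a i j) {p : ℝ} (hp : 1 ≤ p) :
    (∑ i ∈ s, (∑ j ∈ t, a i j) ^ p) ^ (1 / p) ≤ ∑ j ∈ t, (∑ i ∈ s, (a i j) ^ p) ^ (1 / p) := by
  classical
  induction t using Finset.induction_on with
  | empty =>
    have hp0 : p ≠ 0 := by positivity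
    simp only [Finset.sum_empty]
    rw [Real.zero_rpow hp0]
    simp only [Finset.sum_const_zero]
    rw [Real.zero_rpow (by positivity)]
  | insert j t hj ih =>
    rw [Finset.sum_insert hj]
    have h1 : ∀ i ∈ s, 0 ≤ a i j := fun i hi => ha i hi j (Finset.mem_insert_self j t)
    have h2 : ∀ i ∈ s, 0 ≤ ∑ j ∈ t, a i j := fun i hi =>
      Finset.sum_nonneg fun k hk => ha i hi k (Finset.mem_insert_of_mem hk)
    have h3 := Real.Lp_add_le_of_nonneg s hp h1 h2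
    have h4 := ih (fun i hi k hk => ha i hi k (Finset.mem_insert_of_mem hk))
    have h5 : ∑ i ∈ s, (∑ k ∈ insert j t, a i k) ^ p
        = ∑ i ∈ s, (a i j + ∑ k ∈ t, a i k) ^ p := by
      apply Finset.sum_congr rfl
      intro i _
      rw [Finset.sum_insert hj]
    rw [h5]
    linarith

/-- The one-step inequality. -/
theorem stepIneq {ι κ : Type*} (U : Finset ι) (Z : Finset κ) (f : ι → κ → ℝ) (N : κ → ℝ)
    {α Jr : ℝ} (hα : 1 ≤ α) (hJ : 0 < Jr)
    (hf : ∀ u ∈ U, ∀ z ∈ Z, 0 ≤ f u z) (hfJ : ∀ u ∈ U, ∀ z ∈ Z, f u z ≤ Jr)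
    (hN : ∀ z ∈ Z, (Jr * (U.card : ℝ)) ^ (1 - 1 / α) * (∑ u ∈ U, f u z) ^ (1 / α) ≤ N z) :
    (U.card : ℝ) ^ (α - 1) * ∑ u ∈ U, (∑ z ∈ Z, f u z) ^ α ≤ (∑ z ∈ Z, N z) ^ α := by
  have hα0 : 0 < α := by linarith
  have hU0 : (0 : ℝ) ≤ (U.card : ℝ) := Nat.cast_nonneg _
  have key : ∀ z ∈ Z, (U.card : ℝ) ^ (1 - 1 / α) * (∑ u ∈ U, (f u z) ^ α) ^ (1 / α) ≤ N z := by
    intro z hz
    have hS0 : 0 ≤ ∑ u ∈ U, f u z := Finset.sum_nonneg fun u hu => hf u hu z hz
    have h1 : ∀ u ∈ U, (f u z) ^ α ≤ Jr ^ (α - 1) * f u z := by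
      intro u hu
      rcases (hf u hu z hz).eq_or_lt with h0 | h0
      · rw [← h0, Real.zero_rpow hα0.ne']
        simp
      · have h2 : (f u z) ^ α = (f u z) ^ (α - 1) * f u z := by
          rw [Real.rpow_sub_one h0.ne']
          field_simp
        rw [h2]
        apply mul_le_mul_of_nonneg_right _ h0.le
        exact Real.rpow_le_rpow h0.le (hfJ u hu z hz) (by linarith)
    have h2 : ∑ u ∈ U, (f u z) ^ α ≤ Jr ^ (α - 1) * ∑ u ∈ U, f u z := by
      rw [Finset.mul_sum]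
      exact Finset.sum_le_sum h1
    have h3 : 0 ≤ ∑ u ∈ U, (f u z) ^ α :=
      Finset.sum_nonneg fun u hu => Real.rpow_nonneg (hf u hu z hz) _
    have h4 : (∑ u ∈ U, (f u z) ^ α) ^ (1 / α)
        ≤ Jr ^ (1 - 1 / α) * (∑ u ∈ U, f u z) ^ (1 / α) := by
      refine (Real.rpow_le_rpow h3 h2 (by positivity)).trans (le_of_eq ?_)
      rw [Real.mul_rpow (Real.rpow_nonneg hJ.le _) hS0, ← Real.rpow_mul hJ.le]
      congr 2
      field_simp
    refine le_trans ?_ (hN z hz)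
    rw [Real.mul_rpow hJ.le hU0]
    have h5 : 0 ≤ (U.card : ℝ) ^ (1 - 1 / α) := Real.rpow_nonneg hU0 _
    calc (U.card : ℝ) ^ (1 - 1 / α) * (∑ u ∈ U, (f u z) ^ α) ^ (1 / α)
        ≤ (U.card : ℝ) ^ (1 - 1 / α) * (Jr ^ (1 - 1 / α) * (∑ u ∈ U, f u z) ^ (1 / α)) :=
          mul_le_mul_of_nonneg_left h4 h5
      _ = Jr ^ (1 - 1 / α) * (U.card : ℝ) ^ (1 - 1 / α) * (∑ u ∈ U, f u z) ^ (1 / α) := by ring
  have hM := mink U Z f hf hα
  have hT0 : 0 ≤ ∑ u ∈ U, (∑ z ∈ Z, f u z) ^ α :=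
    Finset.sum_nonneg fun u hu => Real.rpow_nonneg (Finset.sum_nonneg fun z hz => hf u hu z hz) _
  have h5 : 0 ≤ (U.card : ℝ) ^ (1 - 1 / α) := Real.rpow_nonneg hU0 _
  have h6 : (U.card : ℝ) ^ (1 - 1 / α) * (∑ u ∈ U, (∑ z ∈ Z, f u z) ^ α) ^ (1 / α)
      ≤ ∑ z ∈ Z, N z := by
    calc (U.card : ℝ) ^ (1 - 1 / α) * (∑ u ∈ U, (∑ z ∈ Z, f u z) ^ α) ^ (1 / α)
        ≤ (U.card : ℝ) ^ (1 - 1 / α) * ∑ z ∈ Z, (∑ u ∈ U, (f u z) ^ α) ^ (1 / α) :=
          mul_le_mul_of_nonneg_left hM h5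
      _ = ∑ z ∈ Z, (U.card : ℝ) ^ (1 - 1 / α) * (∑ u ∈ U, (f u z) ^ α) ^ (1 / α) := by
          rw [Finset.mul_sum]
      _ ≤ ∑ z ∈ Z, N z := Finset.sum_le_sum key
  have h7 : 0 ≤ (U.card : ℝ) ^ (1 - 1 / α) * (∑ u ∈ U, (∑ z ∈ Z, f u z) ^ α) ^ (1 / α) :=
    mul_nonneg h5 (Real.rpow_nonneg hT0 _)
  refine le_trans (le_of_eq ?_) (Real.rpow_le_rpow h7 h6 hα0.le)
  rw [Real.mul_rpow h5 (Real.rpow_nonneg hT0 _), ← Real.rpow_mul hU0, ← Real.rpow_mul hT0]
  have e1 : (1 - 1 / α) * α = α - 1 := by field_simp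
  have e2 : 1 / α * α = 1 := by field_simp
  rw [e1, e2, Real.rpow_one]

section fun_form

variable {W : Type} {h : ℕ} {T : ℕ → Finset W} {cat : ℕ → ℕ → W → W → W}

/-- Stage `s + 1` of the contraction. -/
theorem contractStage (H : Cat h T cat) {α Jr : ℝ} (hα : 1 ≤ α) (hJ : 0 < Jr)
    (r m n : ℕ)
    (f : ℕ → W → ℝ) (hf : ∀ i x, 0 ≤ f i x) (hfJ : ∀ i x, f i x ≤ Jr)
    (hstep : ∀ i ≤ n, ∀ X ∈ T m, (Jr * ((h : ℝ) ^ r)) ^ (1 - 1 / α) *
      (∑ y ∈ T r, f i (cat r m y X)) ^ (1 / α) ≤ ∑ E ∈ T r, f (i + 1) (cat m r X E)) :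
    ∀ s, s < n → ∀ q, r + m = (s + 1) * r + q →
      (Jr * (h : ℝ) ^ ((s + 1) * r)) ^ (α - 1) * ∑ x ∈ T (r + m), f 0 x ≤
        ∑ v ∈ T q, (∑ z ∈ T ((s + 1) * r), f (s + 1) (cat q ((s + 1) * r) v z)) ^ α := by
  have hα0 : 0 < α := by linarith
  have hh0 : ∀ a : ℕ, (0 : ℝ) ≤ (h : ℝ) ^ a := fun a => by positivity
  have hcard : ∀ a, ((T a).card : ℝ) = (h : ℝ) ^ a := by
    intro a
    rw [H.card a]
    push_cast
    rfl
  intro s
  induction s with
  | zero =>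
    intro hs q hq
    have hqm : q = m := by
      have : (0 + 1) * r = r := by ring
      omega
    subst hqm
    have e0 : (0 + 1) * r = r := by ring
    rw [e0]
    have h1 : ∀ X ∈ T q, (Jr * (h : ℝ) ^ r) ^ (α - 1) * ∑ y ∈ T r, f 0 (cat r q y X) ≤
        (∑ z ∈ T r, f (0 + 1) (cat q r X z)) ^ α := by
      intro X hX
      have h2 := hstep 0 (Nat.zero_le _) X hX
      have hS0 : 0 ≤ ∑ y ∈ T r, f 0 (cat r q y X) := Finset.sum_nonneg fun y _ => hf 0 _
      have hb : 0 ≤ Jr * (h : ℝ) ^ r := mul_nonneg hJ.le (hh0 r)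
      have h3 : 0 ≤ (Jr * (h : ℝ) ^ r) ^ (1 - 1 / α) *
          (∑ y ∈ T r, f 0 (cat r q y X)) ^ (1 / α) :=
        mul_nonneg (Real.rpow_nonneg hb _) (Real.rpow_nonneg hS0 _)
      refine le_trans (le_of_eq ?_) (Real.rpow_le_rpow h3 h2 hα0.le)
      rw [Real.mul_rpow (Real.rpow_nonneg hb _) (Real.rpow_nonneg hS0 _),
        ← Real.rpow_mul hb, ← Real.rpow_mul hS0]
      have e1 : (1 - 1 / α) * α = α - 1 := by field_simp
      have e2 : 1 / α * α = 1 := by field_simp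
      rw [e1, e2, Real.rpow_one]
    calc (Jr * (h : ℝ) ^ r) ^ (α - 1) * ∑ x ∈ T (r + q), f 0 x
        = (Jr * (h : ℝ) ^ r) ^ (α - 1) * ∑ X ∈ T q, ∑ y ∈ T r, f 0 (cat r q y X) := by
          rw [H.sum r q, Finset.sum_comm]
      _ = ∑ X ∈ T q, (Jr * (h : ℝ) ^ r) ^ (α - 1) * ∑ y ∈ T r, f 0 (cat r q y X) := by
          rw [Finset.mul_sum]
      _ ≤ _ := Finset.sum_le_sum h1
  | succ s ih =>
    intro hs q hq
    have hm : m = q + (s + 1) * r := by
      have : (s + 1 + 1) * r = r + (s + 1) * r := by ring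
      omega
    have ih' := ih (by omega) (r + q) (by rw [hm]; ring)
    set a := (s + 1) * r with ha
    have ea : (s + 1 + 1) * r = a + r := by rw [ha]; ring
    rw [ea]
    have h1 : ∀ v ∈ T q, ((h : ℝ) ^ r) ^ (α - 1) *
        ∑ u ∈ T r, (∑ z ∈ T a, f (s + 1) (cat (r + q) a (cat r q u v) z)) ^ α ≤
        (∑ z ∈ T (a + r), f (s + 1 + 1) (cat q (a + r) v z)) ^ α := by
      intro v hv
      have h2 : ∑ z ∈ T (a + r), f (s + 1 + 1) (cat q (a + r) v z)
          = ∑ z ∈ T a, ∑ E ∈ T r, f (s + 1 + 1) (cat m r (cat q a v z) E) := by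
        rw [H.sum a r]
        apply Finset.sum_congr rfl
        intro z _
        apply Finset.sum_congr rfl
        intro E _
        rw [H.assoc q a r v z E, ← hm]
      rw [h2]
      have h3 := stepIneq (T r) (T a) (fun u z => f (s + 1) (cat r m u (cat q a v z)))
        (fun z => ∑ E ∈ T r, f (s + 1 + 1) (cat m r (cat q a v z) E)) hα hJ
        (fun u _ z _ => hf _ _) (fun u _ z _ => hfJ _ _) (by
          intro z hz
          have hX : cat q a v z ∈ T m := by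
            rw [hm]
            exact H.mem hv hz
          have := hstep (s + 1) (by omega) (cat q a v z) hX
          rw [hcard]
          exact this)
      rw [hcard] at h3
      refine le_trans (le_of_eq ?_) h3
      congr 1
      apply Finset.sum_congr rfl
      intro u _
      congr 1
      apply Finset.sum_congr rfl
      intro z _
      have h4 := H.assoc r q a u v z
      rw [← hm] at h4
      rw [h4]
    have h2 := Finset.sum_le_sum h1
    rw [← Finset.mul_sum, Finset.sum_comm,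
      ← H.sum r q (fun w => (∑ z ∈ T a, f (s + 1) (cat (r + q) a w z)) ^ α)] at h2
    refine le_trans ?_ h2
    have h3 : 0 ≤ ((h : ℝ) ^ r) ^ (α - 1) := Real.rpow_nonneg (hh0 r) _
    refine le_trans (le_of_eq ?_) (mul_le_mul_of_nonneg_left ih' h3)
    rw [← mul_assoc, ← Real.mul_rpow (hh0 r) (mul_nonneg hJ.le (hh0 a)), pow_add]
    congr 2
    ring

/-- The contraction theorem, function form: `n + 1` block steps, `l = r + m = n r + p`. -/
theorem contractFun (H : Cat h T cat) (hh : 0 < h) {α Jr : ℝ} (hα : 1 ≤ α) (hJ : 0 < Jr)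
    (r m n p : ℕ) (hm : 0 < m) (hpr : p ≤ r) (hl : r + m = n * r + p)
    (f : ℕ → W → ℝ) (hf : ∀ i x, 0 ≤ f i x) (hfJ : ∀ i x, f i x ≤ Jr)
    (hstep : ∀ i ≤ n, ∀ X ∈ T m, (Jr * ((h : ℝ) ^ r)) ^ (1 - 1 / α) *
      (∑ y ∈ T r, f i (cat r m y X)) ^ (1 / α) ≤ ∑ E ∈ T r, f (i + 1) (cat m r X E)) :
    (Jr * (h : ℝ) ^ (r + m)) ^ (α - 1) * ∑ x ∈ T (r + m), f 0 x ≤
      (∑ x ∈ T (r + m), f (n + 1) x) ^ α := by
  have hα0 : 0 < α := by linarith
  have hh0 : ∀ a : ℕ, (0 : ℝ) ≤ (h : ℝ) ^ a := fun a => by positivity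
  have hcard : ∀ a, ((T a).card : ℝ) = (h : ℝ) ^ a := by
    intro a
    rw [H.card a]
    push_cast
    rfl
  obtain ⟨n', rfl⟩ : ∃ n', n = n' + 1 := by
    cases n with
    | zero => omega
    | succ n' => exact ⟨n', rfl⟩
  obtain ⟨s, hs⟩ := Nat.exists_eq_add_of_le hpr
  have hnr : (n' + 1) * r = s + m := by omega
  have h0 := contractStage H hα hJ r m (n' + 1) f hf hfJ hstep n' (by omega) p hl
  rw [hnr] at h0
  -- the counts
  have h1 : ∀ v ∈ T p, (∑ z ∈ T (s + m), f (n' + 1) (cat p (s + m) v z)) ^ α ≤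
      ((h : ℝ) ^ s) ^ (α - 1) *
        ∑ z ∈ T s, (∑ X ∈ T m, f (n' + 1) (cat r m (cat p s v z) X)) ^ α := by
    intro v _
    have h2 : ∑ z ∈ T (s + m), f (n' + 1) (cat p (s + m) v z) =
        ∑ z ∈ T s, ∑ X ∈ T m, f (n' + 1) (cat r m (cat p s v z) X) := by
      rw [H.sum s m]
      apply Finset.sum_congr rfl
      intro z _
      apply Finset.sum_congr rfl
      intro X _
      rw [H.assoc p s m v z X, ← hs]
    rw [h2]
    have h3 := Real.rpow_sum_le_const_mul_sum_rpow_of_nonneg (s := T s)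
      (f := fun z => ∑ X ∈ T m, f (n' + 1) (cat r m (cat p s v z) X)) hα
      (fun z _ => Finset.sum_nonneg fun X _ => hf _ _)
    rw [hcard] at h3
    exact h3
  have h2 := Finset.sum_le_sum h1
  rw [← Finset.mul_sum,
    ← H.sum p s (fun u => (∑ X ∈ T m, f (n' + 1) (cat r m u X)) ^ α), ← hs] at h2
  have h3 := stepIneq (T r) (T m) (fun u X => f (n' + 1) (cat r m u X))
    (fun X => ∑ E ∈ T r, f (n' + 1 + 1) (cat m r X E)) hα hJ
    (fun u _ z _ => hf _ _) (fun u _ z _ => hfJ _ _) (by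
      intro z hz
      have := hstep (n' + 1) le_rfl z hz
      rw [hcard]
      exact this)
  rw [hcard] at h3
  have h4 : ∑ X ∈ T m, ∑ E ∈ T r, f (n' + 1 + 1) (cat m r X E)
      = ∑ x ∈ T (r + m), f (n' + 1 + 1) x := by
    rw [add_comm r m, H.sum m r]
  rw [h4] at h3
  have hs1 : 0 < ((h : ℝ) ^ s) ^ (α - 1) := by
    apply Real.rpow_pos_of_pos
    positivity
  have hr1 : 0 ≤ ((h : ℝ) ^ r) ^ (α - 1) := Real.rpow_nonneg (hh0 r) _
  have h5 := mul_le_mul_of_nonneg_left (h0.trans h2) hr1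
  have h6 : ((h : ℝ) ^ r) ^ (α - 1) * ((Jr * (h : ℝ) ^ (s + m)) ^ (α - 1) *
      ∑ x ∈ T (r + m), f 0 x) = ((h : ℝ) ^ s) ^ (α - 1) *
      ((Jr * (h : ℝ) ^ (r + m)) ^ (α - 1) * ∑ x ∈ T (r + m), f 0 x) := by
    rw [← mul_assoc, ← mul_assoc, ← Real.mul_rpow (hh0 r) (mul_nonneg hJ.le (hh0 _)),
      ← Real.mul_rpow (hh0 s) (mul_nonneg hJ.le (hh0 _))]
    congr 2
    rw [pow_add, pow_add]
    ring
  rw [h6] at h5
  have h7 : ((h : ℝ) ^ r) ^ (α - 1) * (((h : ℝ) ^ s) ^ (α - 1) *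
      ∑ x ∈ T r, (∑ X ∈ T m, f (n' + 1) (cat r m x X)) ^ α) ≤
      ((h : ℝ) ^ s) ^ (α - 1) * (∑ x ∈ T (r + m), f (n' + 1 + 1) x) ^ α := by
    calc _ = ((h : ℝ) ^ s) ^ (α - 1) * (((h : ℝ) ^ r) ^ (α - 1) *
        ∑ x ∈ T r, (∑ X ∈ T m, f (n' + 1) (cat r m x X)) ^ α) := by ring
      _ ≤ _ := mul_le_mul_of_nonneg_left h3 hs1.le
  exact le_of_mul_le_mul_left (h5.trans h7) hs1

end fun_form

end C52C
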