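import Mathlib
import Pool.Agent.Lib.MP_c52340_nt.Defs
import Pool.Agent.Lib.MP_c52340_nt.Basic

namespace Pool.Agent.Lib.MP_c52340_nt

theorem pow4_mod3 (p : ℕ) : ∃ P' : ℤ, (4 : ℤ) ^ p = 3 * P' + 1 := by
  induction p with
  | zero => exact ⟨0, by norm_num⟩
  | succ p ih => obtain ⟨P', h⟩ := ih; exact ⟨4 * P' + 1, by rw [pow_succ, h]; ring⟩

/-- residues mod 16 of elements of `L` -/
theorem InL.mod16 {x : ℤ} (h : InL x) :
    ∃ f0 f1 z : ℤ, Dig f0 ∧ Dig f1 ∧ x = f0 + 4 * f1 + 16 * z := by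
  obtain ⟨y, c, hy, _, rfl⟩ := h.split 2
  obtain ⟨e, y', he, hy', rfl⟩ := ln_succ.1 hy
  rw [ln_one] at hy'
  exact ⟨e, y', c, he, hy', by norm_num⟩

/-- the common part: if `m` has a decomposition `m = y + T c` (`T = 4^t`, `t ≤ p`) and
`k m ∈ L` where `k = 32 * 4^p + 5`, then `5 c + γ` is, modulo 16, the residue of an element
of `L` for some `γ ∈ {-1,0,1}`. -/
theorem carry5 {p t : ℕ} (htp : t ≤ p) {m y c : ℤ} (hy : Ln t y) (hm : m = y + 4 ^ t * c)
    (hr : InL ((32 * 4 ^ p + 5) * m)) :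
    ∃ γ r' M : ℤ, Dig γ ∧ InL r' ∧ r' = 5 * c + γ + 32 * M := by
  obtain ⟨ρ, r', hρ, hr', hsplit⟩ := hr.split t
  obtain ⟨e, rfl⟩ := Nat.exists_eq_add_of_le htp
  have hT : (0 : ℤ) < 4 ^ t := by positivity
  set T : ℤ := 4 ^ t with hTdef
  have hb1 := hy.bound
  have hb2 := hρ.bound
  rw [← hTdef] at hb1 hb2
  have key : 5 * y - ρ = T * (r' - 5 * c - 32 * (4 ^ e * m)) := by
    have : (32 * 4 ^ (t + e) + 5) * m = ρ + T * r' := hsplit
    rw [pow_add, ← hTdef] at this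
    have h5 : 5 * m = 5 * y + 5 * (T * c) := by rw [hm]; ring
    linear_combination this - h5
  refine ⟨r' - 5 * c - 32 * (4 ^ e * m), r', 4 ^ e * m, ?_, hr', by ring⟩
  generalize r' - 5 * c - 32 * (4 ^ e * m) = g at key
  have h1 : T * g < T * 2 := by rw [← key]; linarith [hb1.1, hb2.2]
  have h2 : T * (-2) < T * g := by rw [← key]; linarith [hb1.2, hb2.1]
  have h3 := lt_of_mul_lt_mul_left h1 hT.le
  have h4 := lt_of_mul_lt_mul_left h2 hT.le
  unfold Dig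
  omega

theorem lower {p' : ℕ} {m : ℤ} (hm0 : 0 < m) (hm : InL m)
    (hr : InL ((32 * 4 ^ (p' + 1) + 5) * m)) :
    64 * 4 ^ (p' + 1) * 4 ^ (p' + 1) - 7 * 4 ^ (p' + 1) + 3 ≤ 3 * m := by
  set p := p' + 1 with hp
  obtain ⟨j, hLj, hj⟩ := hm.lead hm0
  set P : ℤ := 4 ^ p with hP
  have hP4 : P = 4 * 4 ^ p' := by rw [hP, hp, pow_succ]; ring
  have hP'pos : (0 : ℤ) < 4 ^ p' := by positivity
  have hPpos : (4 : ℤ) ≤ P := by rw [hP4]; linarith
  -- the gap for r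
  have hq : (0 : ℤ) < 4 ^ j := by positivity
  set q : ℤ := 4 ^ j with hqdef
  have hbm := hLj.bound
  have h4j : (4 : ℤ) ^ (j + 1) = 4 * q := by rw [pow_succ, hqdef]; ring
  rw [h4j] at hbm
  have hN : (4 : ℤ) ^ (p + j + 3) = 64 * (P * q) := by rw [pow_add, pow_add, hP, hqdef]; ring
  have hmul : (32 * P + 5) * (2 * q + 1) ≤ (32 * P + 5) * (3 * m) :=
    mul_le_mul_of_nonneg_left hj (by linarith)
  have hPq : 0 < P * q := by positivity
  have hgap : 2 * 4 ^ (p + j + 3) + 1 ≤ 3 * ((32 * P + 5) * m) := by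
    apply hr.gap
    rw [hN]
    have : 3 * ((32 * P + 5) * m) = (32 * P + 5) * (3 * m) := by ring
    rw [this]
    have x1 : (32 * P + 5) * (2 * q + 1) = 64 * (P * q) + 32 * P + 10 * q + 5 := by ring
    linarith
  rw [hN] at hgap
  -- w
  obtain ⟨w, hw⟩ : ∃ w : ℤ, w = 4 * q - 1 - 3 * m := ⟨_, rfl⟩
  have hw0 : 0 ≤ w := by linarith [hbm.1]
  have hw1 : w * (32 * P + 5) ≤ 20 * q - 32 * P - 6 := by
    have : 3 * ((32 * P + 5) * m) = (32 * P + 5) * (4 * q - 1 - w) := by rw [hw]; ring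
    rw [this] at hgap
    have x1 : (32 * P + 5) * (4 * q - 1 - w) =
      128 * (P * q) - 32 * P + 20 * q - 5 - w * (32 * P + 5) := by ring
    linarith
  have hwnn : 0 ≤ w * (32 * P + 5) := by positivity
  -- j ≥ p + 1
  have hjp : p + 1 ≤ j := by
    by_contra hcon
    have hjle : j ≤ p := by omega
    have : q ≤ P := pow_le_pow_right₀ (by norm_num) hjle
    linarith
  by_cases hA : 2 * p + 3 ≤ j
  · have h1 : (4 : ℤ) ^ (2 * p + 3) ≤ q := pow_le_pow_right₀ (by norm_num) hA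
    have h2 : (4 : ℤ) ^ (2 * p + 3) = 64 * (P * P) := by
      rw [pow_add, two_mul, pow_add, hP]; ring
    have h3 : 64 * P * P = 64 * (P * P) := by ring
    have h4 : 0 < P * P := by positivity
    rw [h3]; linarith
  obtain ⟨t, rfl⟩ := Nat.exists_eq_add_of_le hjp
  have htp : t ≤ p + 1 := by omega
  have hT : (0 : ℤ) < 4 ^ t := by positivity
  set T : ℤ := 4 ^ t with hTdef
  have hqT : q = 4 * P * T := by rw [hqdef, pow_add, pow_add, hP, hTdef]; ring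
  -- split m at t
  obtain ⟨y, c, hy, hc, hmsplit⟩ := hm.split t
  rw [← hTdef] at hmsplit
  have hby := hy.bound
  rw [← hTdef] at hby
  have hw2 : 2 * w ≤ 5 * T := by
    -- w * 32 P ≤ 80 P T
    have h1 : w * (32 * P) ≤ 80 * P * T := by
      have x1 : w * (32 * P + 5) = w * (32 * P) + 5 * w := by ring
      have x2 : 20 * (4 * P * T) = 80 * P * T := by ring
      rw [hqT] at hw1
      linarith
    have h2 : 16 * P * (2 * w) ≤ 16 * P * (5 * T) := by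
      have x1 : 16 * P * (2 * w) = w * (32 * P) := by ring
      have x2 : 16 * P * (5 * T) = 80 * P * T := by ring
      linarith
    exact le_of_mul_le_mul_left h2 (by linarith)
  obtain ⟨P3, hP3⟩ := pow4_mod3 p
  rw [← hP] at hP3
  have h3c : 3 * c = 16 * P - 1 := by
    have e1 : T * (3 * c) = 16 * (P * T) - 1 - w - 3 * y := by
      have : 3 * m = 4 * q - 1 - w := by rw [hw]; ring
      rw [hqT] at this
      have e : T * (3 * c) = 3 * m - 3 * y := by rw [hmsplit]; ring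
      rw [e, this]; ring
    have x1 : T * (16 * P + 1) = 16 * (P * T) + T := by ring
    have x2 : T * (16 * P - 4) = 16 * (P * T) - 4 * T := by ring
    have u1 : T * (3 * c) < T * (16 * P + 1) := by rw [e1, x1]; linarith [hby.2]
    have u2 : T * (16 * P - 4) < T * (3 * c) := by rw [e1, x2]; linarith [hby.1]
    have v1 := lt_of_mul_lt_mul_left u1 hT.le
    have v2 := lt_of_mul_lt_mul_left u2 hT.le
    omega
  by_cases htp2 : t ≤ p
  · -- contradiction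
    exfalso
    obtain ⟨γ, r', M, hγ, hr', he⟩ := carry5 htp2 hy hmsplit hr
    obtain ⟨f0, f1, z, hf0, hf1, hz⟩ := hr'.mod16
    unfold Dig at *
    omega
  have htp3 : t = p + 1 := by omega
  subst htp3
  have hT4 : T = 4 * P := by rw [hTdef, pow_succ, hP]; ring
  have hm3 : 3 * m = 64 * P * P - 4 * P + 3 * y := by
    have : 3 * m = 3 * y + T * (3 * c) := by rw [hmsplit]; ring
    rw [this, h3c, hT4]; ring
  suffices hsuff : -P + 1 ≤ y by rw [hm3]; linarith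
  by_contra hcon
  have hyP : y ≤ -P := by omega
  -- split y at p
  obtain ⟨w', e, hw', he, hysplit⟩ := ln_add.1 hy
  rw [ln_one] at he
  rw [← hP] at hysplit
  have hbw := hw'.bound
  rw [← hP] at hbw
  have he1 : e = -1 := by
    unfold Dig at he
    rcases he with rfl | rfl | rfl
    · rfl
    · exfalso; linarith [hbw.2]
    · exfalso; linarith [hbw.2]
  subst he1
  have hyw : y = w' - P := by rw [hysplit]; ring
  have hw'0 : w' ≤ 0 := by linarith
  -- split r at p + 2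
  obtain ⟨r0, r1, hr0, hr1, hrs⟩ := hr.split (p + 2)
  have h16 : (4 : ℤ) ^ (p + 2) = 16 * P := by rw [pow_add, hP]; ring
  have hbr0 := hr0.bound
  rw [h16] at hrs hbr0
  obtain ⟨J, hJ⟩ : ∃ J : ℤ, c = 1 + 4 * J := ⟨(c - 1) / 4, by omega⟩
  have hm5 : 5 * m = 15 * P + 5 * w' + 16 * P * (5 * J) := by
    rw [hmsplit, hT4, hJ, hyw]; ring
  have hγ : 15 * P + 5 * w' - r0 = 16 * P * (r1 - 5 * J - 2 * m) := by
    linear_combination hrs - hm5
  have hγ1 : r1 - 5 * J - 2 * m = 1 := by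
    generalize r1 - 5 * J - 2 * m = g at hγ
    have a1 : 16 * P * g < 16 * P * 2 := by rw [← hγ]; linarith [hbr0.2]
    have a2 : 16 * P * 0 < 16 * P * g := by rw [← hγ]; linarith [hbr0.1, hbw.2]
    have b1 := lt_of_mul_lt_mul_left a1 (by linarith)
    have b2 := lt_of_mul_lt_mul_left a2 (by linarith)
    omega
  rw [hγ1] at hγ
  have hr0e : r0 = 5 * w' - P := by linarith
  have h3J : 3 * J = 4 * P - 1 := by omega
  have h3r1 : 3 * r1 = 128 * P * P + 6 * P + 6 * w' - 2 := by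
    have : 3 * r1 = 5 * (3 * J) + 2 * (3 * m) + 3 := by linarith
    rw [this, h3J, hm3, hyw]; ring
  -- split r1 at p
  obtain ⟨y1, c1, hy1, _, hr1s⟩ := hr1.split p
  rw [← hP] at hr1s
  have hby1 := hy1.bound
  rw [← hP] at hby1
  have h3c1 : 3 * c1 = 128 * P + 4 := by
    have e1 : P * (3 * c1) = 128 * P * P + 6 * P + 6 * w' - 2 - 3 * y1 := by
      rw [← h3r1, hr1s]; ring
    have x1 : P * (128 * P + 7) = 128 * P * P + 7 * P := by ring
    have x2 : P * (128 * P + 3) = 128 * P * P + 3 * P := by ring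
    have u1 : P * (3 * c1) < P * (128 * P + 7) := by rw [e1, x1]; linarith [hby1.2]
    have u2 : P * (128 * P + 3) < P * (3 * c1) := by rw [e1, x2]; linarith [hby1.1, hbw.2]
    have v1 := lt_of_mul_lt_mul_left u1 (by linarith)
    have v2 := lt_of_mul_lt_mul_left u2 (by linarith)
    omega
  have h3y1 : 3 * y1 = 2 * P + 6 * w' - 2 := by
    have e1 : P * (3 * c1) = 128 * P * P + 6 * P + 6 * w' - 2 - 3 * y1 := by
      rw [← h3r1, hr1s]; ring
    rw [h3c1] at e1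
    linarith
  have hw6 : 6 * w' ≤ -P + 1 := by linarith [hby1.1]
  -- split w' at p'
  obtain ⟨w2, e2, hw2', he2, hws⟩ := ln_add.1 (hw' : Ln (p' + 1) w')
  rw [ln_one] at he2
  have hbw2 := hw2'.bound
  have he21 : e2 = -1 := by
    unfold Dig at he2
    rcases he2 with rfl | rfl | rfl
    · rfl
    · exfalso; linarith [hbw2.2]
    · exfalso; linarith [hbw2.2]
  subst he21
  -- split r0 at p'
  obtain ⟨ρ, z, hρ, hz, hr0s⟩ := hr0.inL.split p'
  have hbρ := hρ.bound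
  have hz9 : 5 * w2 - ρ = 4 ^ p' * (z + 9) := by
    have h1 : ρ + 4 ^ p' * z = 5 * (w2 + 4 ^ p' * (-1)) - 4 * 4 ^ p' := by
      rw [← hr0s, hr0e, hws, hP4]
    linear_combination -h1
  have hz1 : -1 ≤ z + 9 ∧ z + 9 ≤ 1 := by
    generalize z + 9 = g at hz9
    have a1 : 4 ^ p' * g < 4 ^ p' * 2 := by rw [← hz9]; linarith [hbρ.2, hbw2.1]
    have a2 : (4 : ℤ) ^ p' * (-2) < 4 ^ p' * g := by rw [← hz9]; linarith [hbρ.1, hbw2.2]
    have b1 := lt_of_mul_lt_mul_left a1 hP'pos.le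
    have b2 := lt_of_mul_lt_mul_left a2 hP'pos.le
    omega
  obtain ⟨f0, f1, z', hf0, hf1, hzz⟩ := hz.mod16
  unfold Dig at hf0 hf1
  omega

theorem ln_sub_pow (n : ℕ) : Ln (n + 1) (1 - 4 ^ n) := by
  cases n with
  | zero => simpa using ln_zero_mem 1
  | succ n =>
    refine ln_add.2 ⟨1, -1, ?_, ln_one.2 (Or.inl rfl), by ring⟩
    exact (ln_one.2 (Or.inr (Or.inr rfl))).mono (by omega)

theorem ln_sum (n : ℕ) : Ln n (∑ i ∈ Finset.range n, (4 : ℤ) ^ i) :=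
  ⟨fun _ => 1, fun _ => Or.inr (Or.inr rfl), by simp⟩

theorem ln_neg_sum (n : ℕ) : Ln n (-∑ i ∈ Finset.range n, (4 : ℤ) ^ i) := (ln_sum n).neg

/-- `a - ∑_{i ≤ n} 4^i` for `a ∈ {0,1,2}` -/
theorem ln_neg_sum_add (n : ℕ) {a : ℤ} (ha : Dig (a - 1)) :
    Ln (n + 1) (a - ∑ i ∈ Finset.range (n + 1), (4 : ℤ) ^ i) := by
  refine ln_succ.2 ⟨a - 1, -∑ i ∈ Finset.range n, (4 : ℤ) ^ i, ha, ln_neg_sum n, ?_⟩
  rw [Finset.sum_range_succ']
  simp only [pow_zero, pow_succ]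
  rw [← Finset.sum_mul]
  ring

theorem three_sum (n : ℕ) : 3 * ∑ i ∈ Finset.range n, (4 : ℤ) ^ i = 4 ^ n - 1 := by
  induction n with
  | zero => simp
  | succ n ih => rw [Finset.sum_range_succ, mul_add, ih, pow_succ]; ring

theorem upper (p' : ℕ) :
    IsMultiplier (32 * 4 ^ (p' + 1) + 5)
      (4 ^ (p' + 2) * ∑ i ∈ Finset.range (p' + 3), (4 : ℤ) ^ i - 4 ^ (p' + 1) + 1) := by
  have hS := three_sum (p' + 3)
  have hP'pos : (0 : ℤ) < 4 ^ p' := by positivity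
  set Q : ℤ := 4 ^ p' with hQ
  have e1 : (4 : ℤ) ^ (p' + 1) = 4 * Q := by rw [pow_succ, hQ]; ring
  have e2 : (4 : ℤ) ^ (p' + 2) = 16 * Q := by rw [pow_add, hQ]; ring
  have e3 : (4 : ℤ) ^ (p' + 3) = 64 * Q := by rw [pow_add, hQ]; ring
  refine ⟨?_, ?_, ?_⟩
  · rw [e3] at hS
    rw [e1, e2]
    nlinarith
  · have h := InL.join (ln_sub_pow (p' + 1)) (ln_sum (p' + 3)).inL
    have : 4 ^ (p' + 2) * ∑ i ∈ Finset.range (p' + 3), (4 : ℤ) ^ i - 4 ^ (p' + 1) + 1 =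
      1 - 4 ^ (p' + 1) + 4 ^ (p' + 1 + 1) * ∑ i ∈ Finset.range (p' + 3), (4 : ℤ) ^ i := by
      rw [show p' + 1 + 1 = p' + 2 by ring]; ring
    rw [this]; exact h
  · -- k m = r0 + 16 P r1
    have hr0 : Ln (p' + 3) (5 - 4 ^ (p' + 1)) := by
      have h := ln_succ.2 ⟨1, 1 - 4 ^ p', Or.inr (Or.inr rfl), ln_sub_pow p', rfl⟩
      have e : (5 : ℤ) - 4 ^ (p' + 1) = 1 + 4 * (1 - 4 ^ p') := by rw [pow_succ]; ring
      rw [e]
      exact h.mono (by omega)
    have hy1 : Ln (p' + 1) (1 - ∑ i ∈ Finset.range (p' + 1), (4 : ℤ) ^ i) :=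
      ln_neg_sum_add p' (Or.inr (Or.inl (by norm_num)))
    have hc1 : Ln ((p' + 4) + 1)
        (2 - ∑ i ∈ Finset.range (p' + 4), (4 : ℤ) ^ i + 4 ^ (p' + 4) * 1) := by
      refine ln_add.2 ⟨2 - ∑ i ∈ Finset.range (p' + 4), (4 : ℤ) ^ i, 1, ?_,
        ln_one.2 (Or.inr (Or.inr rfl)), rfl⟩
      exact ln_neg_sum_add (p' + 3) (Or.inr (Or.inr (by norm_num)))
    have h := InL.join hr0 (InL.join hy1 hc1.inL)
    convert h using 1
    have s1 := three_sum (p' + 1)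
    have s4 := three_sum (p' + 4)
    have e4 : (4 : ℤ) ^ (p' + 4) = 256 * Q := by rw [pow_add, hQ]; ring
    rw [e1] at s1
    rw [e4] at s4
    rw [e3] at hS
    rw [e1, e2, e3, e4]
    set S1 := ∑ i ∈ Finset.range (p' + 1), (4 : ℤ) ^ i
    set S3 := ∑ i ∈ Finset.range (p' + 3), (4 : ℤ) ^ i
    set S4 := ∑ i ∈ Finset.range (p' + 4), (4 : ℤ) ^ i
    have : (3 : ℤ) * ((32 * (4 * Q) + 5) * (16 * Q * S3 - 4 * Q + 1)) =
        3 * (5 - 4 * Q + 64 * Q * (1 - S1 + 4 * Q * (2 - S4 + 256 * Q * 1))) := by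
      have : S3 = S3 := rfl
      linear_combination (32 * (4 * Q) + 5) * 16 * Q * hS + 64 * Q * s1 + 256 * Q * Q * s4
    linarith

/-- exact least multiplier of `2 * 4^s + 5`, `s ≥ 3`. -/
theorem isLeast (s : ℕ) (hs : 3 ≤ s) :
    IsLeast {m : ℤ | IsMultiplier (2 * 4 ^ s + 5) m}
      (4 ^ (s - 1) * ∑ i ∈ Finset.range s, (4 : ℤ) ^ i - 4 ^ (s - 2) + 1) := by
  obtain ⟨p', rfl⟩ := Nat.exists_eq_add_of_le hs
  have k1 : (2 : ℤ) * 4 ^ (3 + p') + 5 = 32 * 4 ^ (p' + 1) + 5 := by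
    rw [pow_add, pow_succ]; ring
  have a1 : 3 + p' - 1 = p' + 2 := by omega
  have a2 : 3 + p' - 2 = p' + 1 := by omega
  rw [k1, a1, a2, add_comm 3 p']
  refine ⟨upper p', ?_⟩
  intro m hm
  have h := lower hm.1 hm.2.1 hm.2.2
  have hS := three_sum (p' + 3)
  have e2 : (4 : ℤ) ^ (p' + 2) = 4 * 4 ^ (p' + 1) := by rw [pow_succ _ (p' + 1)]; ring
  have e3 : (4 : ℤ) ^ (p' + 3) = 16 * 4 ^ (p' + 1) := by
    rw [pow_succ _ (p' + 2), e2]; ring
  rw [e3] at hS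
  rw [e2]
  set P : ℤ := 4 ^ (p' + 1)
  set S := ∑ i ∈ Finset.range (p' + 3), (4 : ℤ) ^ i
  have : 3 * (4 * P * S - P + 1) = 64 * P * P - 7 * P + 3 := by
    linear_combination 4 * P * hS
  linarith

end Pool.Agent.Lib.MP_c52340_nt
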