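import Pool.Agent.Lib.MP_c52340_nt.TokG

/-! # Gluing two one-digit steps: tight cuts which are pure give a strict two-digit block -/

namespace C52C

open Finset Pool.Agent.Lib.MP_c52340_nt Pool.Agent.Lib.MP_c52340_nt.Tok
open scoped Classical

variable {J : Type} [Fintype J]

/-- a union of classes `{y} × J` -/
def Pure (D : Finset (ℤ × J)) : Prop :=
  ∀ y ∈ T4 1, (∀ j, (y, j) ∈ D) ∨ (∀ j, (y, j) ∉ D)

theorem card_rows {S : Finset (ℤ × J)} (hS : S ⊆ T4 1 ×ˢ (univ : Finset J)) :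
    S.card = ∑ c ∈ T4 1, ∑ j : J, if (c, j) ∈ S then 1 else 0 := by
  rw [← Finset.sum_product' (T4 1) (univ : Finset J) (fun c j => if (c, j) ∈ S then 1 else 0),
    ← Finset.sum_filter, Finset.card_eq_sum_ones]
  apply Finset.sum_congr _ (fun _ _ => rfl)
  ext p
  rw [Finset.mem_filter]
  exact ⟨fun h => ⟨hS h, h⟩, fun h => h.2⟩

theorem card_two {S : Finset (ℤ × J)} (hS : S ⊆ T4 2 ×ˢ (univ : Finset J)) :
    S.card = ∑ c ∈ T4 1, ∑ e ∈ T4 1, ∑ j : J, if (c + 4 ^ 1 * e, j) ∈ S then 1 else 0 := by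
  rw [← T4_sum 1 1 (fun x => ∑ j : J, if (x, j) ∈ S then 1 else 0),
    ← Finset.sum_product' (T4 (1 + 1)) (univ : Finset J) (fun c j => if (c, j) ∈ S then 1 else 0),
    ← Finset.sum_filter, Finset.card_eq_sum_ones]
  apply Finset.sum_congr _ (fun _ _ => rfl)
  ext p
  rw [Finset.mem_filter]
  exact ⟨fun h => ⟨hS h, h⟩, fun h => h.2⟩

theorem card_filter_rows (S : Finset (ℤ × J)) (P : ℤ → J → Prop) (g : ℤ → J → ℕ)
    (hS : ∀ p : ℤ × J, p ∈ S ↔ p ∈ T4 1 ×ˢ (univ : Finset J) ∧ P p.1 p.2)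
    (hg1 : ∀ c j, P c j → g c j = 1) (hg0 : ∀ c j, ¬ P c j → g c j = 0) :
    S.card = ∑ c ∈ T4 1, ∑ j : J, g c j := by
  have h1 : S = (T4 1 ×ˢ (univ : Finset J)).filter (fun p => P p.1 p.2) := by
    ext p
    rw [Finset.mem_filter]
    exact hS p
  rw [h1, Finset.card_eq_sum_ones, Finset.sum_filter, Finset.sum_product]
  apply Finset.sum_congr rfl
  intro c _
  apply Finset.sum_congr rfl
  intro j _
  by_cases h : P c j
  · rw [if_pos h, hg1 c j h]
  · rw [if_neg h, hg0 c j h]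

/-- one-digit strict Hall up to pure tight cuts in bad contexts, and a good context in every
column, give two-digit strict Hall -/
theorem glue {k : ℤ} {q : ℤ → J → ℤ} {m : ℕ} (Bad : ℤ → Prop)
    (hJ : 2 ≤ Fintype.card J)
    (H1 : ∀ X ∈ T4 (m + 1), ∀ D ⊆ T4 1 ×ˢ (univ : Finset J), D.Nonempty →
      D ≠ T4 1 ×ˢ (univ : Finset J) →
      D.card + 1 ≤ (nbr T4 1 (RbG k q 1 (m + 1)) X D).card ∨
      (Bad X ∧ D.card ≤ (nbr T4 1 (RbG k q 1 (m + 1)) X D).card ∧ Pure D ∧
        ¬ Pure (nbr T4 1 (RbG k q 1 (m + 1)) X D)))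
    (H2 : ∀ X ∈ T4 m, ∃ c ∈ T4 1, ¬ Bad (X + 4 ^ m * c)) :
    BSH T4 2 m (RbG k q 2 m) := by
  set N : ℤ → Finset (ℤ × J) → Finset (ℤ × J) := nbr T4 1 (RbG k q 1 (m + 1)) with hN
  have hNsub : ∀ X D, N X D ⊆ T4 1 ×ˢ (univ : Finset J) := fun X D => nbr_sub _ _ _ _ _
  have hT1 : (T4 1).card = 3 := T4_card 1
  have hFc : (T4 1 ×ˢ (univ : Finset J)).card = 3 * Fintype.card J := by
    rw [Finset.card_product, hT1, Finset.card_univ]
  -- everything has everything as successors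
  have hfull : ∀ X ∈ T4 (m + 1), N X (T4 1 ×ˢ (univ : Finset J)) = T4 1 ×ˢ (univ : Finset J) := by
    intro X hX
    obtain ⟨j0, j1, hj⟩ := Fintype.exists_pair_of_one_lt_card (show 1 < Fintype.card J by omega)
    have h0 : (0 : ℤ) ∈ T4 1 := zero_mem_T4 1
    set F := T4 1 ×ˢ (univ : Finset J) with hF
    have hm0 : ((0, j0) : ℤ × J) ∈ F := Finset.mem_product.mpr ⟨h0, Finset.mem_univ _⟩
    have hm1 : ((0, j1) : ℤ × J) ∈ F := Finset.mem_product.mpr ⟨h0, Finset.mem_univ _⟩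
    have hc : (F.erase (0, j0)).card = F.card - 1 := Finset.card_erase_of_mem hm0
    have hne : (F.erase (0, j0)).Nonempty := ⟨(0, j1), by
      rw [Finset.mem_erase]
      exact ⟨fun h => hj (Prod.mk.inj h).2.symm, hm1⟩⟩
    have hnf : F.erase (0, j0) ≠ F := by
      intro h
      have : ((0, j0) : ℤ × J) ∈ F.erase (0, j0) := by rw [h]; exact hm0
      exact (Finset.notMem_erase _ _) this
    have h1 := H1 X hX (F.erase (0, j0)) (Finset.erase_subset _ _) hne hnf
    have h2 : F.card ≤ (N X (F.erase (0, j0))).card := by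
      rcases h1 with h1 | ⟨_, _, hp, _⟩
      · rw [hc] at h1
        omega
      · exfalso
        rcases hp 0 h0 with hp | hp
        · exact (Finset.notMem_erase _ _) (hp j0)
        · apply hp j1
          rw [Finset.mem_erase]
          exact ⟨fun h => hj (Prod.mk.inj h).2.symm, hm1⟩
    have h3 := Finset.card_le_card (nbr_mono T4 1 (RbG k q 1 (m + 1)) X
      (Finset.erase_subset (0, j0) F))
    exact Finset.eq_of_subset_of_card_le (hNsub _ _) (h2.trans h3)
  -- weak Hall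
  have hweak : ∀ X ∈ T4 (m + 1), ∀ D ⊆ T4 1 ×ˢ (univ : Finset J), D.card ≤ (N X D).card := by
    intro X hX D hD
    rcases D.eq_empty_or_nonempty with h0 | h0
    · rw [h0]; simp
    · by_cases hf : D = T4 1 ×ˢ (univ : Finset J)
      · rw [hf, hfull X hX]
      · rcases H1 X hX D hD h0 hf with h | h
        · exact (Nat.le_succ _).trans h
        · exact h.2.1
  intro X hX D hD hne hnf
  by_contra hcon
  -- rows
  set row : ℤ → Finset (ℤ × J) := fun y1 =>
    (T4 1 ×ˢ (univ : Finset J)).filter (fun p => (p.1 + 4 ^ 1 * y1, p.2) ∈ D) with hrow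
  have hrowsub : ∀ y1, row y1 ⊆ T4 1 ×ˢ (univ : Finset J) := fun y1 => Finset.filter_subset _ _
  have hX1 : ∀ y1 ∈ T4 1, y1 + 4 ^ 1 * X ∈ T4 (m + 1) := by
    intro y1 hy
    rw [add_comm m 1]
    exact T4_add hy hX
  have hX2 : ∀ c ∈ T4 1, X + 4 ^ m * c ∈ T4 (m + 1) := fun c hc => T4_add hX hc
  have hDcard : D.card = ∑ y1 ∈ T4 1, (row y1).card := by
    rw [card_two hD, Finset.sum_comm]
    apply Finset.sum_congr rfl
    intro y1 _
    exact (card_filter_rows (row y1) (fun c j => (c + 4 ^ 1 * y1, j) ∈ D) _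
      (fun p => Finset.mem_filter)
      (fun c j h => if_pos h) (fun c j h => if_neg h)).symm
  -- columns
  set col : ℤ → Finset (ℤ × J) := fun c =>
    (T4 1 ×ˢ (univ : Finset J)).filter (fun p => (c, p.2) ∈ N (p.1 + 4 ^ 1 * X) (row p.1)) with hcol
  have hcolsub : ∀ c, col c ⊆ T4 1 ×ˢ (univ : Finset J) := fun c => Finset.filter_subset _ _
  have hBcard : ∑ c ∈ T4 1, (col c).card = ∑ y1 ∈ T4 1, (N (y1 + 4 ^ 1 * X) (row y1)).card := by
    have e1 : ∀ c ∈ T4 1, (col c).card =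
        ∑ y1 ∈ T4 1, ∑ j : J, if (c, j) ∈ N (y1 + 4 ^ 1 * X) (row y1) then 1 else 0 := by
      intro c _
      exact card_filter_rows (col c) (fun y1 j => (c, j) ∈ N (y1 + 4 ^ 1 * X) (row y1)) _
        (fun p => Finset.mem_filter)
        (fun c j h => if_pos h) (fun c j h => if_neg h)
    rw [Finset.sum_congr rfl e1, Finset.sum_comm]
    apply Finset.sum_congr rfl
    intro y1 _
    exact (card_rows (hNsub _ _)).symm
  -- the successors in two steps
  have hlow : ∑ c ∈ T4 1, (N (X + 4 ^ m * c) (col c)).card ≤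
      (nbr T4 2 (RbG k q 2 m) X D).card := by
    rw [card_two (nbr_sub _ _ _ _ _)]
    apply Finset.sum_le_sum
    intro c hc
    rw [card_rows (hNsub _ _)]
    apply Finset.sum_le_sum
    intro e he
    apply Finset.sum_le_sum
    intro j _
    by_cases h1 : (e, j) ∈ N (X + 4 ^ m * c) (col c)
    · rw [if_pos h1, if_pos]
      rw [hN] at h1
      unfold nbr at h1 ⊢
      rw [Finset.mem_filter] at h1 ⊢
      refine ⟨Finset.mem_product.mpr ⟨T4_add hc he, Finset.mem_univ _⟩, ?_⟩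
      obtain ⟨_, ⟨y1, j'⟩, hd, hR2⟩ := h1
      rw [hcol, Finset.mem_filter, Finset.mem_product] at hd
      obtain ⟨⟨hy1, _⟩, hd2⟩ := hd
      simp only at hd2 hy1
      rw [hN] at hd2
      unfold nbr at hd2
      rw [Finset.mem_filter] at hd2
      obtain ⟨_, ⟨y0, j''⟩, hd3, hR1⟩ := hd2
      rw [hrow, Finset.mem_filter, Finset.mem_product] at hd3
      obtain ⟨⟨hy0, _⟩, hd4⟩ := hd3
      refine ⟨_, hd4, ?_⟩
      unfold RbG at hR1 hR2 ⊢
      simp only at hR1 hR2 hy0 ⊢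
      have h3 : (2 : ℕ) = 1 + 1 := rfl
      rw [h3]
      refine ln_add.2 ⟨_, _, hR1, hR2, ?_⟩
      have e1 : y1 + 4 ^ 1 * X + 4 ^ (m + 1) * c = y1 + 4 ^ 1 * (X + 4 ^ m * c) := by ring
      have e2 : X + 4 ^ m * (c + 4 ^ 1 * e) = X + 4 ^ m * c + 4 ^ (m + 1) * e := by ring
      have e3 : y0 + 4 ^ 1 * y1 + 4 ^ (1 + 1) * X = y0 + 4 ^ 1 * (y1 + 4 ^ 1 * X) := by ring
      rw [e1, e2, e3]
      ring
    · rw [if_neg h1]
      exact Nat.zero_le _
  -- all inequalities are equalities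
  have hr1 : ∀ y1 ∈ T4 1, (row y1).card ≤ (N (y1 + 4 ^ 1 * X) (row y1)).card :=
    fun y1 hy => hweak _ (hX1 y1 hy) _ (hrowsub y1)
  have hc1 : ∀ c ∈ T4 1, (col c).card ≤ (N (X + 4 ^ m * c) (col c)).card :=
    fun c hc => hweak _ (hX2 c hc) _ (hcolsub c)
  have hs1 := Finset.sum_le_sum hr1
  have hs2 := Finset.sum_le_sum hc1
  have hrt : ∀ y1 ∈ T4 1, (row y1).card = (N (y1 + 4 ^ 1 * X) (row y1)).card := by
    apply (Finset.sum_eq_sum_iff_of_le hr1).mp
    omega
  have hct : ∀ c ∈ T4 1, (col c).card = (N (X + 4 ^ m * c) (col c)).card := by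
    apply (Finset.sum_eq_sum_iff_of_le hc1).mp
    omega
  by_cases hA : ∃ y1 ∈ T4 1, (row y1).Nonempty ∧ row y1 ≠ T4 1 ×ˢ (univ : Finset J)
  · obtain ⟨y1, hy1, hne1, hnf1⟩ := hA
    rcases H1 _ (hX1 y1 hy1) _ (hrowsub y1) hne1 hnf1 with h | ⟨_, _, _, hnp⟩
    · have := hrt y1 hy1
      omega
    · unfold Pure at hnp
      push Not at hnp
      obtain ⟨c, hc, ⟨j0, hj0⟩, ⟨j1, hj1⟩⟩ := hnp
      have hin : ((y1, j1) : ℤ × J) ∈ col c := by
        rw [hcol, Finset.mem_filter, Finset.mem_product]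
        exact ⟨⟨hy1, Finset.mem_univ _⟩, hj1⟩
      have hout : ((y1, j0) : ℤ × J) ∉ col c := by
        rw [hcol, Finset.mem_filter]
        rintro ⟨_, h⟩
        exact hj0 h
      have hcne : (col c).Nonempty := ⟨_, hin⟩
      have hcnf : col c ≠ T4 1 ×ˢ (univ : Finset J) := by
        intro h
        apply hout
        rw [h]
        exact Finset.mem_product.mpr ⟨hy1, Finset.mem_univ _⟩
      rcases H1 _ (hX2 c hc) _ (hcolsub c) hcne hcnf with h | ⟨_, _, hp, _⟩
      · have := hct c hc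
        omega
      · rcases hp y1 hy1 with h | h
        · exact hout (h j0)
        · exact h j1 hin
  · push Not at hA
    -- all rows empty or full
    obtain ⟨c, hc, hbad⟩ := H2 X hX
    obtain ⟨⟨x, j⟩, hxj⟩ := hne
    have hx := (Finset.mem_product.mp (hD hxj)).1
    obtain ⟨y0, hy0, y1, hy1, rfl⟩ := T4_split (a := 1) (b := 1) hx
    have hrne : (row y1).Nonempty := ⟨(y0, j), by
      rw [hrow, Finset.mem_filter, Finset.mem_product]
      exact ⟨⟨hy0, Finset.mem_univ _⟩, hxj⟩⟩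
    have hrf := hA y1 hy1 hrne
    have hcne : ((y1, j) : ℤ × J) ∈ col c := by
      rw [hcol, Finset.mem_filter, Finset.mem_product]
      refine ⟨⟨hy1, Finset.mem_univ _⟩, ?_⟩
      simp only
      rw [hrf, hfull _ (hX1 y1 hy1)]
      exact Finset.mem_product.mpr ⟨hc, Finset.mem_univ _⟩
    -- an empty row
    obtain ⟨⟨x', j'⟩, hx'1, hx'2⟩ : ∃ p ∈ T4 2 ×ˢ (univ : Finset J), p ∉ D := by
      by_contra h
      push Not at h
      exact hnf (Finset.Subset.antisymm hD h)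
    have hx' := (Finset.mem_product.mp hx'1).1
    obtain ⟨z0, hz0, z1, hz1, rfl⟩ := T4_split (a := 1) (b := 1) hx'
    have hre : row z1 = ∅ := by
      by_contra h
      have h2 := hA z1 hz1 (Finset.nonempty_iff_ne_empty.mpr h)
      apply hx'2
      have h3 : ((z0, j') : ℤ × J) ∈ row z1 := by
        rw [h2]
        exact Finset.mem_product.mpr ⟨hz0, Finset.mem_univ _⟩
      rw [hrow, Finset.mem_filter] at h3
      exact h3.2
    have hcnf : ((z1, j') : ℤ × J) ∉ col c := by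
      rw [hcol, Finset.mem_filter]
      rintro ⟨_, h⟩
      simp only at h
      rw [hre, hN] at h
      unfold nbr at h
      rw [Finset.mem_filter] at h
      obtain ⟨_, d, hd, _⟩ := h
      exact (Finset.notMem_empty _) hd
    rcases H1 _ (hX2 c hc) _ (hcolsub c) ⟨_, hcne⟩ (by
        intro h
        apply hcnf
        rw [h]
        exact Finset.mem_product.mpr ⟨hz1, Finset.mem_univ _⟩) with h | ⟨hb, _⟩
    · have := hct c hc
      omega
    · exact hbad hb

end C52C
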