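import Mathlib

/-!
Strong Hall property of the relation `|n b - s a| ≤ 1` between two families of integers from cut
inequalities, with one exceptional place `q0` where two cuts may be tight.
-/

set_option autoImplicit false

namespace Pool.Agent.Lib.MP_c52340_nt.Near

/-- sorted enumeration -/
theorem exists_mono {α : Type} [Fintype α] {M : ℕ} (hM : Fintype.card α = M) (s : α → ℤ) :
    ∃ e : Fin M ≃ α, Monotone (fun i => s (e i)) := by
  classical
  let e0 : Fin M ≃ α := (Fintype.equivFinOfCardEq hM).symm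
  refine ⟨(Tuple.sort (fun i => s (e0 i))).trans e0, ?_⟩
  exact Tuple.monotone_sort (fun i => s (e0 i))

theorem card_le_of_mono {α : Type} [Fintype α] {M : ℕ} (e : Fin M ≃ α) (s : α → ℤ) (q : ℤ)
    (j : ℕ) (hj : ∀ i : Fin M, j ≤ i.1 → q < s (e i)) :
    (Finset.univ.filter (fun a => s a ≤ q)).card ≤ j := by
  classical
  have h : Finset.univ.filter (fun a => s a ≤ q) ⊆
      (Finset.univ.filter (fun i : Fin M => i.1 < j)).map e.toEmbedding := by
    intro a ha
    rw [Finset.mem_filter] at ha
    rw [Finset.mem_map]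
    refine ⟨e.symm a, ?_, by simp⟩
    rw [Finset.mem_filter]
    refine ⟨Finset.mem_univ _, ?_⟩
    by_contra hc
    have := hj (e.symm a) (by omega)
    rw [Equiv.apply_symm_apply] at this
    omega
  refine (Finset.card_le_card h).trans ?_
  rw [Finset.card_map]
  calc (Finset.univ.filter (fun i : Fin M => i.1 < j)).card
      = ((Finset.univ.filter (fun i : Fin M => i.1 < j)).map Fin.valEmbedding).card := by
        rw [Finset.card_map]
    _ ≤ (Finset.range j).card := by
        apply Finset.card_le_card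
        intro x hx
        rw [Finset.mem_map] at hx
        obtain ⟨i, hi, rfl⟩ := hx
        rw [Finset.mem_filter] at hi
        exact Finset.mem_range.2 hi.2
    _ = j := Finset.card_range j

theorem le_card_of_mono {α : Type} [Fintype α] {M : ℕ} (e : Fin M ≃ α) (s : α → ℤ) (q : ℤ)
    (j : ℕ) (hjM : j ≤ M) (hj : ∀ i : Fin M, i.1 < j → s (e i) ≤ q) :
    j ≤ (Finset.univ.filter (fun a => s a ≤ q)).card := by
  classical
  have h : (Finset.univ.map (Fin.castLEEmb hjM)).map e.toEmbedding ⊆
      Finset.univ.filter (fun a => s a ≤ q) := by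
    intro a ha
    rw [Finset.mem_map] at ha
    obtain ⟨i, hi, rfl⟩ := ha
    rw [Finset.mem_map] at hi
    obtain ⟨i', _, rfl⟩ := hi
    rw [Finset.mem_filter]
    exact ⟨Finset.mem_univ _, hj _ i'.2⟩
  have h2 := Finset.card_le_card h
  rw [Finset.card_map, Finset.card_map, Finset.card_univ, Fintype.card_fin] at h2
  exact h2

/-- a nonempty proper subset of a path without boundary edge outside the edge `g - 1, g` is an
initial or a final segment -/
theorem boundary_or {M : ℕ} (g : ℕ) (I : Finset (Fin M)) (hI : I.Nonempty)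
    (hI' : I ≠ Finset.univ) :
    (∃ i ∈ I, ∃ j : Fin M, j ∉ I ∧
      ((j.1 = i.1 + 1 ∧ i.1 + 1 ≠ g) ∨ (i.1 = j.1 + 1 ∧ i.1 ≠ g))) ∨
    (∀ i, i ∈ I ↔ i.1 < g) ∨ (∀ i, i ∈ I ↔ g ≤ i.1) := by
  by_cases hc : ∃ i ∈ I, ∃ j : Fin M, j ∉ I ∧
      ((j.1 = i.1 + 1 ∧ i.1 + 1 ≠ g) ∨ (i.1 = j.1 + 1 ∧ i.1 ≠ g))
  · exact Or.inl hc
  right
  push Not at hc
  have hup : ∀ i0 ∈ I, ∀ n : ℕ, ∀ h : i0.1 + n < M, (g ≤ i0.1 ∨ i0.1 + n < g) →
      (⟨i0.1 + n, h⟩ : Fin M) ∈ I := by
    intro i0 hi0 n
    induction n with
    | zero => intro h _; exact hi0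
    | succ n ih =>
      intro h hg
      by_contra hn
      have h1 := ih (by omega) (by omega)
      have h2 := (hc _ h1 _ hn).1
      simp only at h2
      have := h2 (by omega)
      omega
  have hdn : ∀ i0 ∈ I, ∀ n : ℕ, ∀ h : n ≤ i0.1, (i0.1 < g ∨ g ≤ i0.1 - n) →
      (⟨i0.1 - n, by omega⟩ : Fin M) ∈ I := by
    intro i0 hi0 n
    induction n with
    | zero => intro h _; exact hi0
    | succ n ih =>
      intro h hg
      by_contra hn
      have h1 := ih (by omega) (by omega)
      have h2 := (hc _ h1 _ hn).2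
      simp only at h2
      have := h2 (by omega)
      omega
  have hlow : ∀ i0 ∈ I, i0.1 < g → ∀ j : Fin M, j.1 < g → j ∈ I := by
    intro i0 hi0 hg j hj
    rcases le_total i0.1 j.1 with h | h
    · have := hup i0 hi0 (j.1 - i0.1) (by omega) (by omega)
      have h2 : (⟨i0.1 + (j.1 - i0.1), by omega⟩ : Fin M) = j := by
        apply Fin.ext; simp; omega
      rwa [h2] at this
    · have := hdn i0 hi0 (i0.1 - j.1) (by omega) (by omega)
      have h2 : (⟨i0.1 - (i0.1 - j.1), by omega⟩ : Fin M) = j := by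
        apply Fin.ext; simp; omega
      rwa [h2] at this
  have hhigh : ∀ i0 ∈ I, g ≤ i0.1 → ∀ j : Fin M, g ≤ j.1 → j ∈ I := by
    intro i0 hi0 hg j hj
    rcases le_total i0.1 j.1 with h | h
    · have := hup i0 hi0 (j.1 - i0.1) (by omega) (by omega)
      have h2 : (⟨i0.1 + (j.1 - i0.1), by omega⟩ : Fin M) = j := by
        apply Fin.ext; simp; omega
      rwa [h2] at this
    · have := hdn i0 hi0 (i0.1 - j.1) (by omega) (by omega)
      have h2 : (⟨i0.1 - (i0.1 - j.1), by omega⟩ : Fin M) = j := by
        apply Fin.ext; simp; omega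
      rwa [h2] at this
  obtain ⟨i0, hi0⟩ := hI
  rcases Nat.lt_or_ge i0.1 g with hg | hg
  · left
    intro i
    constructor
    · intro hi
      by_contra hcon
      apply hI'
      ext j
      simp only [Finset.mem_univ, iff_true]
      rcases Nat.lt_or_ge j.1 g with hj | hj
      · exact hlow i0 hi0 hg j hj
      · exact hhigh i hi (by omega) j hj
    · intro hi
      exact hlow i0 hi0 hg i hi
  · right
    intro i
    constructor
    · intro hi
      by_contra hcon
      apply hI'
      ext j
      simp only [Finset.mem_univ, iff_true]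
      rcases Nat.lt_or_ge j.1 g with hj | hj
      · exact hlow i hi (by omega) j hj
      · exact hhigh i0 hi0 hg j hj
    · intro hi
      exact hhigh i0 hi0 hg i hi

/-- strong Hall from cut inequalities, strict except possibly around `q0` -/
theorem hall_gap {α β : Type} [Fintype α] [Fintype β] {M : ℕ} (hα : Fintype.card α = M)
    (hβ : Fintype.card β = M) (s : α → ℤ) (n : β → ℤ) (FS FD : ℤ → ℕ)
    (hFS : ∀ q, (Finset.univ.filter (fun a => s a ≤ q)).card = FS q)
    (hFD : ∀ q, (Finset.univ.filter (fun b => n b ≤ q)).card = FD q) (q0 : ℤ)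
    (h1 : ∀ q, FS q = M → M ≤ FD (q + 1)) (h2 : ∀ q, FS q = 0 → FD (q - 1) = 0)
    (h3 : ∀ q, 0 < FS q → FS q < M → FS q ≤ FD (q + 1) ∧ FD (q - 1) ≤ FS q)
    (h3' : ∀ q, 0 < FS q → FS q < M → q ≠ q0 → FS q < FD (q + 1))
    (h3'' : ∀ q, 0 < FS q → FS q < M → q ≠ q0 + 1 → FD (q - 1) < FS q)
    (h4 : FS (q0 + 1) = FS q0)
    (D : Finset α) (hD : D.Nonempty) (hD' : D ≠ Finset.univ) (P : α → β → Prop)
    (hP : ∀ a b, |n b - s a| ≤ 1 → P a b) (N : Finset β) (hN : ∀ b, (∃ a ∈ D, P a b) → b ∈ N) :
    D.card + 1 ≤ N.card ∨ (D.card ≤ N.card ∧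
      ((∀ a, a ∈ D ↔ s a ≤ q0) ∨ (∀ a, a ∈ D ↔ q0 < s a))) := by
  classical
  obtain ⟨e, he⟩ := exists_mono hα s
  obtain ⟨f, hf⟩ := exists_mono hβ n
  have hFSM : ∀ q, FS q ≤ M := by
    intro q
    rw [← hFS, ← hα, ← Finset.card_univ]
    exact Finset.card_filter_le _ _
  -- counting facts
  have a1 : ∀ (i : Fin M) (q : ℤ), n (f i) ≤ q → i.1 + 1 ≤ FD q := by
    intro i q hq
    rw [← hFD]
    apply le_card_of_mono f n _ _ (by omega)
    intro i' hi'
    have : n (f i') ≤ n (f i) := hf (Fin.le_def.2 (by omega))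
    omega
  have a2 : ∀ (i : Fin M) (q : ℤ), q < s (e i) → FS q ≤ i.1 := by
    intro i q hq
    rw [← hFS]
    apply card_le_of_mono e s
    intro i' hi'
    have : s (e i) ≤ s (e i') := he (Fin.le_def.2 hi')
    omega
  have a3 : ∀ (i : Fin M) (q : ℤ), q < n (f i) → FD q ≤ i.1 := by
    intro i q hq
    rw [← hFD]
    apply card_le_of_mono f n
    intro i' hi'
    have : n (f i) ≤ n (f i') := hf (Fin.le_def.2 hi')
    omega
  have a4 : ∀ (i : Fin M) (q : ℤ), s (e i) ≤ q → i.1 + 1 ≤ FS q := by
    intro i q hq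
    rw [← hFS]
    apply le_card_of_mono e s _ _ (by omega)
    intro i' hi'
    have : s (e i') ≤ s (e i) := he (Fin.le_def.2 (by omega))
    omega
  -- diagonal
  have hdl : ∀ i : Fin M, s (e i) - 1 ≤ n (f i) := by
    intro i
    by_contra hc
    push Not at hc
    have b1 := a1 i (s (e i) - 1 - 1) (by omega)
    have b2 := a2 i (s (e i) - 1) (by omega)
    rcases Nat.eq_zero_or_pos (FS (s (e i) - 1)) with h0 | h0
    · have := h2 _ h0
      omega
    · have := (h3 _ h0 (by omega)).2
      omega
  have hdu : ∀ i : Fin M, n (f i) ≤ s (e i) + 1 := by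
    intro i
    by_contra hc
    push Not at hc
    have b1 := a3 i (s (e i) + 1) (by omega)
    have b2 := a4 i (s (e i)) le_rfl
    rcases Nat.lt_or_ge (FS (s (e i))) M with h0 | h0
    · have := (h3 _ (by omega) h0).1
      omega
    · have := h1 _ (le_antisymm (hFSM _) h0)
      omega
  have hup : ∀ i j : Fin M, j.1 = i.1 + 1 → i.1 + 1 ≠ FS q0 → |n (f j) - s (e i)| ≤ 1 := by
    intro i j hij hg
    have c1 := hdl i
    have c2 : n (f i) ≤ n (f j) := hf (Fin.le_def.2 (by omega))
    have c3 : n (f j) ≤ s (e i) + 1 := by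
      by_contra hc
      push Not at hc
      have b1 := a3 j (s (e i) + 1) (by omega)
      have b2 := a4 i (s (e i)) le_rfl
      rcases Nat.lt_or_ge (FS (s (e i))) M with h0 | h0
      · by_cases hq : s (e i) = q0
        · have := (h3 _ (by omega) h0).1
          rw [hq] at this b1 b2
          omega
        · have := h3' _ (by omega) h0 hq
          omega
      · have := h1 _ (le_antisymm (hFSM _) h0)
        omega
    rw [abs_le]
    omega
  have hdn : ∀ i j : Fin M, i.1 = j.1 + 1 → i.1 ≠ FS q0 → |n (f j) - s (e i)| ≤ 1 := by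
    intro i j hij hg
    have c1 := hdu i
    have c2 : n (f j) ≤ n (f i) := hf (Fin.le_def.2 (by omega))
    have c3 : s (e i) - 1 ≤ n (f j) := by
      by_contra hc
      push Not at hc
      have b1 := a1 j (s (e i) - 1 - 1) (by omega)
      have b2 := a2 i (s (e i) - 1) (by omega)
      rcases Nat.eq_zero_or_pos (FS (s (e i) - 1)) with h0 | h0
      · have := h2 _ h0
        omega
      · by_cases hq : s (e i) - 1 = q0 + 1
        · have := (h3 _ h0 (by omega)).2
          rw [hq] at this b1 b2
          rw [h4] at b2 this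
          omega
        · have := h3'' _ h0 (by omega) hq
          omega
    rw [abs_le]
    omega
  -- the index set
  set I : Finset (Fin M) := D.map e.symm.toEmbedding with hI
  have hIc : I.card = D.card := Finset.card_map _
  have hIne : I.Nonempty := by
    rw [← Finset.card_pos, hIc]; exact Finset.card_pos.2 hD
  have hmem : ∀ i, i ∈ I ↔ e i ∈ D := by
    intro i
    rw [hI, Finset.mem_map]
    constructor
    · rintro ⟨a, ha, rfl⟩
      simpa using ha
    · intro h
      exact ⟨e i, h, by simp⟩
  have hIu : I ≠ Finset.univ := by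
    intro h
    apply hD'
    ext a
    simp only [Finset.mem_univ, iff_true]
    have : e.symm a ∈ I := by rw [h]; exact Finset.mem_univ _
    rw [hmem] at this
    simpa using this
  have hdiag : ∀ i ∈ I, f i ∈ N := by
    intro i hi
    apply hN
    refine ⟨e i, (hmem i).1 hi, hP _ _ ?_⟩
    have := hdl i
    have := hdu i
    rw [abs_le]
    omega
  have hweak : D.card ≤ N.card := by
    have hsub : I.map f.toEmbedding ⊆ N := by
      intro b hb
      rw [Finset.mem_map] at hb
      obtain ⟨x, hx, rfl⟩ := hb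
      exact hdiag x hx
    have hcard := Finset.card_le_card hsub
    rw [Finset.card_map, hIc] at hcard
    exact hcard
  rcases boundary_or (FS q0) I hIne hIu with ⟨i, hi, j, hj, hij⟩ | h | h
  · left
    have hadj : |n (f j) - s (e i)| ≤ 1 := by
      rcases hij with ⟨x1, x2⟩ | ⟨x1, x2⟩
      · exact hup i j x1 x2
      · exact hdn i j x1 x2
    have hsub : (insert j I).map f.toEmbedding ⊆ N := by
      intro b hb
      rw [Finset.mem_map] at hb
      obtain ⟨x, hx, rfl⟩ := hb
      rw [Finset.mem_insert] at hx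
      rcases hx with rfl | hx
      · exact hN _ ⟨e i, (hmem i).1 hi, hP _ _ hadj⟩
      · exact hdiag x hx
    have hcard := Finset.card_le_card hsub
    rw [Finset.card_map, Finset.card_insert_of_notMem hj, hIc] at hcard
    exact hcard
  · right
    refine ⟨hweak, Or.inl ?_⟩
    intro a
    have h5 := h (e.symm a)
    rw [hmem, Equiv.apply_symm_apply] at h5
    rw [h5]
    constructor
    · intro h6
      by_contra hc
      push Not at hc
      have := a2 (e.symm a) q0 (by rw [Equiv.apply_symm_apply]; exact hc)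
      omega
    · intro h6
      have := a4 (e.symm a) q0 (by rw [Equiv.apply_symm_apply]; exact h6)
      omega
  · right
    refine ⟨hweak, Or.inr ?_⟩
    intro a
    have h5 := h (e.symm a)
    rw [hmem, Equiv.apply_symm_apply] at h5
    rw [h5]
    constructor
    · intro h6
      by_contra hc
      push Not at hc
      have := a4 (e.symm a) q0 (by rw [Equiv.apply_symm_apply]; exact hc)
      omega
    · intro h6
      have := a2 (e.symm a) q0 (by rw [Equiv.apply_symm_apply]; exact h6)
      omega

end Pool.Agent.Lib.MP_c52340_nt.Near
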