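import Pool.Agent.Lib.MP_c52340_nt.Contract

/-! # The integers with `n` base-4 digits in `{-1,0,1}` -/

namespace C52C

open Finset

/-- Integers `Σ_{i<n} d_i 4^i` with digits in `{-1,0,1}`. -/
def T4 : ℕ → Finset ℤ
  | 0 => {0}
  | n + 1 => T4 n ∪ ((T4 n).image (fun x => x + 4 ^ n) ∪ (T4 n).image (fun x => x - 4 ^ n))

theorem T4_abs (n : ℕ) : ∀ x ∈ T4 n, 3 * |x| ≤ 4 ^ n - 1 := by
  induction n with
  | zero =>
    intro x hx
    have : x = 0 := by simpa [T4] using hx
    subst this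
    norm_num
  | succ n ih =>
    intro x hx
    have h4 : (0 : ℤ) < 4 ^ n := by positivity
    have e4 : (4 : ℤ) ^ (n + 1) = 4 * 4 ^ n := by ring
    simp only [T4, Finset.mem_union, Finset.mem_image] at hx
    rcases hx with hx | ⟨y, hy, rfl⟩ | ⟨y, hy, rfl⟩
    · have := ih x hx
      rw [e4]
      linarith
    · have := ih y hy
      have h2 : |y + 4 ^ n| ≤ |y| + 4 ^ n := by
        refine (abs_add_le _ _).trans ?_
        rw [abs_of_pos h4]
      rw [e4]
      linarith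
    · have := ih y hy
      have h2 : |y - 4 ^ n| ≤ |y| + 4 ^ n := by
        refine (abs_sub _ _).trans ?_
        rw [abs_of_pos h4]
      rw [e4]
      linarith

theorem T4_disj1 (n : ℕ) :
    Disjoint (T4 n) ((T4 n).image (fun x => x + 4 ^ n) ∪ (T4 n).image (fun x => x - 4 ^ n)) := by
  rw [Finset.disjoint_left]
  intro x hx hx2
  have h1 := T4_abs n x hx
  have h4 : (0 : ℤ) < 4 ^ n := by positivity
  rw [Finset.mem_union, Finset.mem_image, Finset.mem_image] at hx2
  rcases hx2 with ⟨y, hy, rfl⟩ | ⟨y, hy, rfl⟩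
  · have h2 := T4_abs n y hy
    have := abs_le.mp (show |y| ≤ |y| from le_rfl)
    have := abs_le.mp (show |y + 4 ^ n| ≤ |y + 4 ^ n| from le_rfl)
    omega
  · have h2 := T4_abs n y hy
    have := abs_le.mp (show |y| ≤ |y| from le_rfl)
    have := abs_le.mp (show |y - 4 ^ n| ≤ |y - 4 ^ n| from le_rfl)
    omega

theorem T4_disj2 (n : ℕ) :
    Disjoint ((T4 n).image (fun x => x + 4 ^ n)) ((T4 n).image (fun x => x - 4 ^ n)) := by
  rw [Finset.disjoint_left]
  intro x hx hx2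
  have h4 : (0 : ℤ) < 4 ^ n := by positivity
  rw [Finset.mem_image] at hx hx2
  obtain ⟨y, hy, rfl⟩ := hx
  obtain ⟨z, hz, hyz⟩ := hx2
  have h1 := T4_abs n y hy
  have h2 := T4_abs n z hz
  have := abs_le.mp (show |y| ≤ |y| from le_rfl)
  have := abs_le.mp (show |z| ≤ |z| from le_rfl)
  have hyz' : z - 4 ^ n = y + 4 ^ n := hyz
  omega

theorem T4_sum_succ {M : Type*} [AddCommMonoid M] (n : ℕ) (g : ℤ → M) :
    ∑ x ∈ T4 (n + 1), g x =
      ∑ x ∈ T4 n, (g x + (g (x + 4 ^ n) + g (x - 4 ^ n))) := by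
  show ∑ x ∈ T4 n ∪ ((T4 n).image (fun x => x + 4 ^ n) ∪ (T4 n).image (fun x => x - 4 ^ n)), g x
    = _
  rw [Finset.sum_union (T4_disj1 n), Finset.sum_union (T4_disj2 n),
    Finset.sum_image (fun x _ y _ h => by simpa using h),
    Finset.sum_image (fun x _ y _ h => by simpa using h), Finset.sum_add_distrib,
    Finset.sum_add_distrib]

theorem T4_sum {M : Type*} [AddCommMonoid M] (a b : ℕ) (g : ℤ → M) :
    ∑ x ∈ T4 (a + b), g x = ∑ y ∈ T4 a, ∑ X ∈ T4 b, g (y + 4 ^ a * X) := by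
  induction b generalizing g with
  | zero => simp [T4]
  | succ b ih =>
    rw [← add_assoc, T4_sum_succ, ih]
    apply Finset.sum_congr rfl
    intro y _
    rw [T4_sum_succ]
    apply Finset.sum_congr rfl
    intro X _
    have e1 : y + 4 ^ a * X + 4 ^ (a + b) = y + 4 ^ a * (X + 4 ^ b) := by ring
    have e2 : y + 4 ^ a * X - 4 ^ (a + b) = y + 4 ^ a * (X - 4 ^ b) := by ring
    rw [e1, e2]

theorem T4_card (n : ℕ) : (T4 n).card = 3 ^ n := by
  induction n with
  | zero => simp [T4]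
  | succ n ih =>
    rw [Finset.card_eq_sum_ones, T4_sum_succ]
    simp only [Finset.sum_const, smul_eq_mul]
    rw [ih]
    ring

/-- Concatenation of words as integers. -/
def cat4 (a : ℕ) (_b : ℕ) (y X : ℤ) : ℤ := y + 4 ^ a * X

theorem T4_Cat : Cat 3 T4 cat4 where
  sum := fun a b g => T4_sum a b g
  assoc := by
    intro a b c u v w
    unfold cat4
    ring
  card := T4_card

theorem mem_T4_succ {n : ℕ} {x : ℤ} :
    x ∈ T4 (n + 1) ↔ ∃ y ∈ T4 n, ∃ e : ℤ, (e = -1 ∨ e = 0 ∨ e = 1) ∧ x = y + e * 4 ^ n := by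
  show x ∈ T4 n ∪ ((T4 n).image (fun x => x + 4 ^ n) ∪ (T4 n).image (fun x => x - 4 ^ n)) ↔ _
  rw [Finset.mem_union, Finset.mem_union, Finset.mem_image, Finset.mem_image]
  constructor
  · rintro (h | ⟨y, hy, rfl⟩ | ⟨y, hy, rfl⟩)
    · exact ⟨x, h, 0, by simp, by ring⟩
    · exact ⟨y, hy, 1, by simp, by ring⟩
    · exact ⟨y, hy, -1, by simp, by ring⟩
  · rintro ⟨y, hy, e, rfl | rfl | rfl, rfl⟩
    · right; right
      exact ⟨y, hy, by ring⟩
    · left
      have : y + 0 * 4 ^ n = y := by ring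
      rw [this]
      exact hy
    · right; left
      exact ⟨y, hy, by ring⟩

theorem mem_T4 {n : ℕ} {x : ℤ} :
    x ∈ T4 n ↔ ∃ d : ℕ → ℤ, (∀ i, d i = -1 ∨ d i = 0 ∨ d i = 1) ∧
      x = ∑ i ∈ Finset.range n, d i * 4 ^ i := by
  induction n generalizing x with
  | zero =>
    constructor
    · intro hx
      have : x = 0 := by simpa [T4] using hx
      exact ⟨fun _ => 0, fun _ => by simp, by simp [this]⟩
    · rintro ⟨d, _, rfl⟩
      simp [T4]
  | succ n ih =>
    rw [mem_T4_succ]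
    constructor
    · rintro ⟨y, hy, e, he, rfl⟩
      obtain ⟨d, hd, rfl⟩ := ih.mp hy
      refine ⟨fun i => if i = n then e else d i, ?_, ?_⟩
      · intro i
        dsimp only
        split_ifs
        · exact he
        · exact hd i
      · rw [Finset.sum_range_succ]
        simp only [if_true]
        congr 1
        apply Finset.sum_congr rfl
        intro i hi
        rw [Finset.mem_range] at hi
        rw [if_neg (by omega)]
    · rintro ⟨d, hd, rfl⟩
      exact ⟨_, ih.mpr ⟨d, hd, rfl⟩, d n, hd n, by rw [Finset.sum_range_succ]⟩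

theorem T4_neg {n : ℕ} {x : ℤ} (hx : x ∈ T4 n) : -x ∈ T4 n := by
  obtain ⟨d, hd, rfl⟩ := mem_T4.mp hx
  refine mem_T4.mpr ⟨fun i => - d i, fun i => ?_, ?_⟩
  · dsimp only
    rcases hd i with h | h | h <;> rw [h] <;> simp
  · rw [← Finset.sum_neg_distrib]
    apply Finset.sum_congr rfl
    intro i _
    ring

theorem T4_add {a b : ℕ} {y X : ℤ} (hy : y ∈ T4 a) (hX : X ∈ T4 b) :
    y + 4 ^ a * X ∈ T4 (a + b) := T4_Cat.mem hy hX

theorem T4_split {a b : ℕ} {x : ℤ} (hx : x ∈ T4 (a + b)) :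
    ∃ y ∈ T4 a, ∃ X ∈ T4 b, x = y + 4 ^ a * X := by
  by_contra hcon
  push Not at hcon
  have h1 := T4_sum a b (fun z => if z = x then (1 : ℕ) else 0)
  rw [Finset.sum_ite_eq' (T4 (a + b)) x (fun _ => (1 : ℕ)), if_pos hx] at h1
  have h2 : ∑ y ∈ T4 a, ∑ X ∈ T4 b, (fun z => if z = x then (1 : ℕ) else 0) (y + 4 ^ a * X) = 0 := by
    apply Finset.sum_eq_zero
    intro y hy
    apply Finset.sum_eq_zero
    intro X hX
    dsimp only
    rw [if_neg]
    exact fun h => hcon y hy X hX h.symm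
  rw [h2] at h1
  exact one_ne_zero h1

theorem zero_mem_T4 (n : ℕ) : (0 : ℤ) ∈ T4 n :=
  mem_T4.mpr ⟨fun _ => 0, fun _ => by simp, by simp⟩

end C52C
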