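import Mathlib
import Pool.Agent.Lib.MP_c52340_nt.Basic

/-!
Tokens, part 1: real steps `q ↦ (q + k * η + θ) / 4` and the closing of a path.

* `RE k n E q q'`: `n` real steps lead from the state `q` to the state `q'`, and the digits
  used on the side of `k` form `E`.
-/

set_option autoImplicit false

namespace Pool.Agent.Lib.MP_c52340_nt.Tok

open Pool.Agent.Lib.MP_c52340_nt

/-- `n` real steps from `q` to `q'` with digits `E` on the side of `k` -/
def RE (k : ℤ) (n : ℕ) (E q q' : ℤ) : Prop :=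
  Ln n E ∧ ∃ T, Ln n T ∧ 4 ^ n * q' = q + k * E + T

theorem RE.refl (k q : ℤ) : RE k 0 0 q q :=
  ⟨ln_zero.2 rfl, 0, ln_zero.2 rfl, by ring⟩

theorem RE.trans {k E F q q' q'' : ℤ} {n m : ℕ} (h : RE k n E q q') (h' : RE k m F q' q'') :
    RE k (n + m) (E + 4 ^ n * F) q q'' := by
  obtain ⟨hE, T, hT, h1⟩ := h
  obtain ⟨hF, S, hS, h2⟩ := h'
  refine ⟨ln_add.2 ⟨E, F, hE, hF, rfl⟩, T + 4 ^ n * S, ln_add.2 ⟨T, S, hT, hS, rfl⟩, ?_⟩
  rw [pow_add]
  linear_combination (4 : ℤ) ^ n * h2 + h1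

/-- a nonzero element of `L` with at most `n` digits is not divisible by `4 ^ n` -/
theorem Ln.eq_zero_of {n : ℕ} {E F : ℤ} (hE : Ln n E) (h : E + 4 ^ n * F = 0) : E = 0 ∧ F = 0 := by
  have hb := hE.bound
  have h4 : (0 : ℤ) < 4 ^ n := by positivity
  have hF : F = 0 := by
    by_contra hF
    rcases lt_or_gt_of_ne hF with hF | hF
    · have : (4 : ℤ) ^ n * F ≤ 4 ^ n * (-1) := mul_le_mul_of_nonneg_left (by omega) h4.le
      nlinarith [hb.1]
    · have : (4 : ℤ) ^ n * 1 ≤ 4 ^ n * F := mul_le_mul_of_nonneg_left (by omega) h4.le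
      nlinarith [hb.2]
  subst hF
  exact ⟨by simpa using h, rfl⟩

/-- `(0.1)`: a closed real path through `0` with `E ≠ 0` gives a multiplier -/
theorem mult_of_RE {k E : ℤ} {n : ℕ} (h : RE k n E 0 0) (hE : E ≠ 0) :
    ∃ m : ℤ, 0 < m ∧ m < 4 ^ n ∧ InL m ∧ InL (k * m) := by
  obtain ⟨h1, T, hT, h2⟩ := h
  have h3 : k * E = -T := by linarith
  have hb := h1.bound
  have h4 : (0 : ℤ) < 4 ^ n := by positivity
  rcases lt_or_gt_of_ne hE with h0 | h0
  · refine ⟨-E, by omega, by linarith [hb.2], h1.neg.inL, ?_⟩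
    rw [show k * -E = T by rw [mul_neg, h3, neg_neg]]
    exact hT.inL
  · refine ⟨E, h0, by linarith [hb.1], h1.inL, ?_⟩
    rw [h3]
    exact hT.neg.inL

/-- closing: `0 → q → 0` -/
theorem mult_of_RE_RE {k E F q : ℤ} {n m : ℕ} (h : RE k n E 0 q) (h' : RE k m F q 0)
    (hE : E ≠ 0) : ∃ x : ℤ, 0 < x ∧ x < 4 ^ (n + m) ∧ InL x ∧ InL (k * x) := by
  refine mult_of_RE (h.trans h') ?_
  intro h0
  exact hE (Ln.eq_zero_of h.1 h0).1

/-- the invariant of a path of tokens: `x + 4 ^ l * E = Y + 4 ^ s * x'`, `Y` with `s` digits;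
starting at `x = 0`, `E = 0` forces `x' = 0` -/
theorem eq_zero_of_inv {l s : ℕ} {E Y x' : ℤ} (hY : Ln s Y) (h : 4 ^ l * E = Y + 4 ^ s * x')
    (hE : E = 0) : x' = 0 := by
  subst hE
  rw [mul_zero] at h
  exact (Ln.eq_zero_of hY h.symm).2

end Pool.Agent.Lib.MP_c52340_nt.Tok
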