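import Mathlib
import Pool.Agent.Lib.MP_c52340_nt.Tok1
import Pool.Agent.Lib.MP_c52340_nt.Connect
import Pool.Agent.Lib.MP_c52340_nt.T4

/-!
Tokens, part 2: the state of a token, block steps, the local relation over a real context.

* `stq κ ρ x = ⌊κ * x + ρ + 1/2⌋` is the state of the token `x` with offset `ρ`.
* `Rb k κ ρ r m X (y, j) (E, j')`: the block step `(y + 4 ^ r * X, j) → (X + 4 ^ m * E, j')`
  over the kept part `X`; here `l = r + m` and `κ = k / 4 ^ l`.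
* `Lo k κ ρ r a (y, j) (E, j')`: the same relation in terms of the real context `a = κ * 4 ^ r * X`.
-/

set_option autoImplicit false

namespace Pool.Agent.Lib.MP_c52340_nt.Tok

open Pool.Agent.Lib.MP_c52340_nt

/-- the state of the token `x` with offset `ρ` -/
noncomputable def stq (κ ρ : ℝ) (x : ℤ) : ℤ := ⌊κ * x + ρ + 1 / 2⌋

/-- supply: state of the token with dropped part `y` in the context `a` -/
noncomputable def sup (κ ρ a : ℝ) (y : ℤ) : ℤ := ⌊a + κ * y + ρ + 1 / 2⌋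

/-- demand: `4 ^ r * state - k * E` for the token with new part `E` in the context `a` -/
noncomputable def dem (k : ℤ) (r : ℕ) (ρ a : ℝ) (E : ℤ) : ℤ :=
  4 ^ r * ⌊(a + k * E) / 4 ^ r + ρ + 1 / 2⌋ - k * E

variable {J : Type}

/-- block step over the kept part `X` -/
def Rb (k : ℤ) (κ : ℝ) (ρ : J → ℝ) (r m : ℕ) (X : ℤ) (s t : ℤ × J) : Prop :=
  Ln r (4 ^ r * stq κ (ρ t.2) (X + 4 ^ m * t.1) - k * t.1 - stq κ (ρ s.2) (s.1 + 4 ^ r * X))

/-- local relation in the context `a` -/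
def Lo (k : ℤ) (κ : ℝ) (ρ : J → ℝ) (r : ℕ) (a : ℝ) (s t : ℤ × J) : Prop :=
  Ln r (dem k r (ρ t.2) a t.1 - sup κ (ρ s.2) a s.1)

theorem Rb_iff_Lo {k : ℤ} {κ : ℝ} {ρ : J → ℝ} {r m : ℕ} (hκ : κ * 4 ^ (r + m) = k) (X : ℤ)
    (s t : ℤ × J) : Rb k κ ρ r m X s t ↔ Lo k κ ρ r (κ * 4 ^ r * X) s t := by
  unfold Rb Lo dem sup stq
  have h4 : (4 : ℝ) ^ r ≠ 0 := by positivity
  have h1 : κ * ((X + 4 ^ m * t.1 : ℤ) : ℝ) + ρ t.2 + 1 / 2 =
      (κ * 4 ^ r * X + k * t.1) / 4 ^ r + ρ t.2 + 1 / 2 := by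
    rw [← hκ, pow_add]
    push_cast
    field_simp
  have h2 : κ * ((s.1 + 4 ^ r * X : ℤ) : ℝ) + ρ s.2 + 1 / 2 =
      κ * 4 ^ r * X + κ * s.1 + ρ s.2 + 1 / 2 := by
    push_cast
    ring
  rw [h1, h2]

theorem Rb.step {k : ℤ} {κ : ℝ} {ρ : J → ℝ} {r m : ℕ} {X : ℤ} {s t : ℤ × J}
    (h : Rb k κ ρ r m X s t) (ht : Ln r t.1) :
    RE k r t.1 (stq κ (ρ s.2) (s.1 + 4 ^ r * X)) (stq κ (ρ t.2) (X + 4 ^ m * t.1)) := by
  refine ⟨ht, _, h, ?_⟩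
  ring

/-- a path of block steps is a real path; with the invariant `x + 4 ^ l * E = Y + 4 ^ (i r) * x'` -/
theorem reach_real {k : ℤ} {κ : ℝ} {ρ : J → ℝ} {r m : ℕ} {s : ℤ × J} :
    ∀ (i : ℕ) {t : ℤ × J}, C52C.Reach (C52C.BStep C52C.T4 C52C.cat4 r m (Rb k κ ρ r m)) i s t →
      ∃ E Y : ℤ, RE k (i * r) E (stq κ (ρ s.2) s.1) (stq κ (ρ t.2) t.1) ∧ Ln (i * r) Y ∧
        s.1 + 4 ^ (r + m) * E = Y + 4 ^ (i * r) * t.1
  | 0, t, h => by
    have h : s = t := h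
    subst h
    refine ⟨0, 0, ?_, ?_, ?_⟩
    · rw [zero_mul]; exact RE.refl _ _
    · rw [zero_mul]; exact ln_zero.2 rfl
    · simp
  | i + 1, t, h => by
    obtain ⟨u, h1, X, hX, y, hy, F, hF, hu, ht, hR⟩ := h
    obtain ⟨E, Y, hE, hY, hinv⟩ := reach_real i h1
    have hF' : Ln r F := C52C.mem_T4.1 hF
    have hy' : Ln r y := C52C.mem_T4.1 hy
    unfold C52C.cat4 at hu ht
    have h2 := Rb.step (t := (F, t.2)) hR hF'
    simp only at h2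
    rw [← hu, ← ht] at h2
    refine ⟨E + 4 ^ (i * r) * F, Y + 4 ^ (i * r) * y, ?_, ?_, ?_⟩
    · rw [show (i + 1) * r = i * r + r by ring]
      exact hE.trans h2
    · rw [show (i + 1) * r = i * r + r by ring]
      exact ln_add.2 ⟨Y, y, hY, hy', rfl⟩
    · have h3 : (4 : ℤ) ^ ((i + 1) * r) = 4 ^ (i * r) * 4 ^ r := by
        rw [← pow_add]; congr 1; ring
      rw [h3, ht]
      rw [hu] at hinv
      rw [pow_add] at hinv ⊢
      linear_combination hinv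

/-- closing of section 5: a path of tokens `0 → x → 0` with `x ≠ 0` gives a multiplier -/
theorem mult_of_reach {k : ℤ} {κ : ℝ} {ρ : J → ℝ} {r m i i' : ℕ} {j j' j'' : J} {x : ℤ}
    (h0 : stq κ (ρ j) 0 = 0) (h0' : stq κ (ρ j'') 0 = 0)
    (h : C52C.Reach (C52C.BStep C52C.T4 C52C.cat4 r m (Rb k κ ρ r m)) i (0, j) (x, j'))
    (h' : C52C.Reach (C52C.BStep C52C.T4 C52C.cat4 r m (Rb k κ ρ r m)) i' (x, j') (0, j''))
    (hx : x ≠ 0) :
    ∃ z : ℤ, 0 < z ∧ z < 4 ^ (i * r + i' * r) ∧ InL z ∧ InL (k * z) := by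
  obtain ⟨E, Y, hE, hY, hinv⟩ := reach_real i h
  obtain ⟨F, Z, hF, _, _⟩ := reach_real i' h'
  simp only at hE hinv hF
  rw [h0] at hE
  rw [h0'] at hF
  refine mult_of_RE_RE hE hF ?_
  intro h1
  rw [zero_add] at hinv
  exact hx (eq_zero_of_inv hY hinv h1)

theorem stq_zero {κ ρ : ℝ} (h1 : -1 / 2 ≤ ρ) (h2 : ρ < 1 / 2) : stq κ ρ 0 = 0 := by
  unfold stq
  rw [Int.floor_eq_iff]
  push_cast
  constructor <;> linarith

/-- The local strong Hall property in every real context `a`. -/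
def LocBSH [Fintype J] (k : ℤ) (κ : ℝ) (ρ : J → ℝ) (r : ℕ) : Prop :=
  ∀ a : ℝ, ∀ D ⊆ C52C.T4 r ×ˢ (Finset.univ : Finset J), D.Nonempty →
    D ≠ C52C.T4 r ×ˢ (Finset.univ : Finset J) →
    D.card + 1 ≤ (C52C.nbr C52C.T4 r (fun _ => Lo k κ ρ r a) (0 : ℤ) D).card

theorem BSH_of_LocBSH [Fintype J] {k : ℤ} {κ : ℝ} {ρ : J → ℝ} {r m : ℕ}
    (hκ : κ * 4 ^ (r + m) = k) (h : LocBSH k κ ρ r) :
    C52C.BSH C52C.T4 r m (Rb k κ ρ r m) := by
  intro X _ D hD hne hnf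
  have h1 := h (κ * 4 ^ r * X) D hD hne hnf
  have h2 : C52C.nbr C52C.T4 r (Rb k κ ρ r m) X D =
      C52C.nbr C52C.T4 r (fun _ => Lo k κ ρ r (κ * 4 ^ r * X)) (0 : ℤ) D := by
    classical
    ext e
    unfold C52C.nbr
    simp only [Finset.mem_filter]
    constructor
    · rintro ⟨he, d, hd, hR⟩
      exact ⟨he, d, hd, (Rb_iff_Lo hκ X d e).1 hR⟩
    · rintro ⟨he, d, hd, hR⟩
      exact ⟨he, d, hd, (Rb_iff_Lo hκ X d e).2 hR⟩
  rw [h2]
  exact h1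

end Pool.Agent.Lib.MP_c52340_nt.Tok
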