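import Mathlib
import Pool.Agent.Lib.MP_c52340_nt.Tok2

/-!
The local strong Hall property for one-digit steps with several offsets and letters.

* `hall_of_cuts`: a bipartite relation `|n b - s a| ≤ 1` between two families of integers has the
  strong Hall property as soon as the counting functions satisfy the strict cut inequalities.
* `LocBSHW`: the local strong Hall property for the letters `d : Fin h → ℤ`.
* `locBSHW_of_chk`: a finite certificate for all `κ` in a cell `[K / N, (K + 1) / N)`.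
-/

set_option autoImplicit false

namespace Pool.Agent.Lib.MP_c52340_nt.LocA

open Pool.Agent.Lib.MP_c52340_nt.Tok

/-- sorted enumeration -/
theorem exists_mono {α : Type} [Fintype α] {M : ℕ} (hM : Fintype.card α = M) (s : α → ℤ) :
    ∃ e : Fin M ≃ α, Monotone (fun i => s (e i)) := by
  classical
  let e0 : Fin M ≃ α := (Fintype.equivFinOfCardEq hM).symm
  refine ⟨(Tuple.sort (fun i => s (e0 i))).trans e0, ?_⟩
  exact Tuple.monotone_sort (fun i => s (e0 i))

theorem card_le_of_mono {α : Type} [Fintype α] {M : ℕ} (e : Fin M ≃ α) (s : α → ℤ) (q : ℤ)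
    (j : ℕ) (hj : ∀ i : Fin M, j ≤ i.1 → q < s (e i)) :
    (Finset.univ.filter (fun a => s a ≤ q)).card ≤ j := by
  classical
  have h : Finset.univ.filter (fun a => s a ≤ q) ⊆
      (Finset.univ.filter (fun i : Fin M => i.1 < j)).map e.toEmbedding := by
    intro a ha
    rw [Finset.mem_filter] at ha
    rw [Finset.mem_map]
    refine ⟨e.symm a, ?_, by simp⟩
    rw [Finset.mem_filter]
    refine ⟨Finset.mem_univ _, ?_⟩
    by_contra hc
    have := hj (e.symm a) (by omega)
    rw [Equiv.apply_symm_apply] at this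
    omega
  refine (Finset.card_le_card h).trans ?_
  rw [Finset.card_map]
  calc (Finset.univ.filter (fun i : Fin M => i.1 < j)).card
      = ((Finset.univ.filter (fun i : Fin M => i.1 < j)).map Fin.valEmbedding).card := by
        rw [Finset.card_map]
    _ ≤ (Finset.range j).card := by
        apply Finset.card_le_card
        intro x hx
        rw [Finset.mem_map] at hx
        obtain ⟨i, hi, rfl⟩ := hx
        rw [Finset.mem_filter] at hi
        exact Finset.mem_range.2 hi.2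
    _ = j := Finset.card_range j

theorem le_card_of_mono {α : Type} [Fintype α] {M : ℕ} (e : Fin M ≃ α) (s : α → ℤ) (q : ℤ)
    (j : ℕ) (hjM : j ≤ M) (hj : ∀ i : Fin M, i.1 < j → s (e i) ≤ q) :
    j ≤ (Finset.univ.filter (fun a => s a ≤ q)).card := by
  classical
  have h : (Finset.univ.map (Fin.castLEEmb hjM)).map e.toEmbedding ⊆
      Finset.univ.filter (fun a => s a ≤ q) := by
    intro a ha
    rw [Finset.mem_map] at ha
    obtain ⟨i, hi, rfl⟩ := ha
    rw [Finset.mem_map] at hi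
    obtain ⟨i', _, rfl⟩ := hi
    rw [Finset.mem_filter]
    exact ⟨Finset.mem_univ _, hj _ i'.2⟩
  have h2 := Finset.card_le_card h
  rw [Finset.card_map, Finset.card_map, Finset.card_univ, Fintype.card_fin] at h2
  exact h2

/-- a nonempty proper subset of a path has a boundary edge -/
theorem exists_boundary {M : ℕ} (I : Finset (Fin M)) (hI : I.Nonempty) (hI' : I ≠ Finset.univ) :
    ∃ i ∈ I, ∃ j : Fin M, j ∉ I ∧ (j.1 ≤ i.1 + 1 ∧ i.1 ≤ j.1 + 1) := by
  by_contra hc
  push Not at hc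
  apply hI'
  obtain ⟨i0, hi0⟩ := hI
  have hup : ∀ n : ℕ, ∀ h : i0.1 + n < M, (⟨i0.1 + n, h⟩ : Fin M) ∈ I := by
    intro n
    induction n with
    | zero => intro h; exact hi0
    | succ n ih =>
      intro h
      by_contra hn
      have h1 := ih (by omega)
      have := hc _ h1 _ hn (by simp; omega)
      simp at this
      omega
  have hdn : ∀ n : ℕ, ∀ h : n ≤ i0.1, (⟨i0.1 - n, by omega⟩ : Fin M) ∈ I := by
    intro n
    induction n with
    | zero => intro h; exact hi0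
    | succ n ih =>
      intro h
      by_contra hn
      have h1 := ih (by omega)
      have := hc _ h1 _ hn (by simp; omega)
      simp at this
      omega
  ext j
  simp only [Finset.mem_univ, iff_true]
  rcases le_total i0.1 j.1 with h | h
  · have := hup (j.1 - i0.1) (by omega)
    have h2 : (⟨i0.1 + (j.1 - i0.1), by omega⟩ : Fin M) = j := by
      apply Fin.ext; simp; omega
    rwa [h2] at this
  · have := hdn (i0.1 - j.1) (by omega)
    have h2 : (⟨i0.1 - (i0.1 - j.1), by omega⟩ : Fin M) = j := by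
      apply Fin.ext; simp; omega
    rwa [h2] at this

/-- strong Hall from strict cut inequalities -/
theorem hall_of_cuts {α β : Type} [Fintype α] [Fintype β] {M : ℕ} (hα : Fintype.card α = M)
    (hβ : Fintype.card β = M) (s : α → ℤ) (n : β → ℤ) (FS FD : ℤ → ℕ)
    (hFS : ∀ q, (Finset.univ.filter (fun a => s a ≤ q)).card = FS q)
    (hFD : ∀ q, (Finset.univ.filter (fun b => n b ≤ q)).card = FD q)
    (h1 : ∀ q, FS q = M → M ≤ FD (q + 1)) (h2 : ∀ q, FS q = 0 → FD (q - 1) = 0)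
    (h3 : ∀ q, 0 < FS q → FS q < M → FS q < FD (q + 1) ∧ FD (q - 1) < FS q)
    (D : Finset α) (hD : D.Nonempty) (hD' : D ≠ Finset.univ) (P : α → β → Prop)
    (hP : ∀ a b, |n b - s a| ≤ 1 → P a b) (N : Finset β) (hN : ∀ b, (∃ a ∈ D, P a b) → b ∈ N) :
    D.card + 1 ≤ N.card := by
  classical
  obtain ⟨e, he⟩ := exists_mono hα s
  obtain ⟨f, hf⟩ := exists_mono hβ n
  have hFSM : ∀ q, FS q ≤ M := by
    intro q
    rw [← hFS, ← hα, ← Finset.card_univ]
    exact Finset.card_filter_le _ _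
  -- adjacency
  have hadj : ∀ i j : Fin M, j.1 ≤ i.1 + 1 → i.1 ≤ j.1 + 1 → |n (f j) - s (e i)| ≤ 1 := by
    intro i j hji hij
    rw [abs_le]
    constructor
    · -- n (f j) ≥ s (e i) - 1
      by_contra hc
      push Not at hc
      have a1 : j.1 + 1 ≤ FD ((s (e i) - 1) - 1) := by
        rw [← hFD]
        apply le_card_of_mono f n _ _ (by omega)
        intro i' hi'
        have : n (f i') ≤ n (f j) := hf (Fin.le_def.2 (by omega))
        omega
      have a2 : FS (s (e i) - 1) ≤ i.1 := by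
        rw [← hFS]
        apply card_le_of_mono e s
        intro i' hi'
        have : s (e i) ≤ s (e i') := he (Fin.le_def.2 hi')
        omega
      rcases Nat.eq_zero_or_pos (FS (s (e i) - 1)) with h0 | h0
      · have := h2 _ h0
        omega
      · have := (h3 _ h0 (by omega)).2
        omega
    · by_contra hc
      push Not at hc
      have a1 : FD (s (e i) + 1) ≤ j.1 := by
        rw [← hFD]
        apply card_le_of_mono f n
        intro i' hi'
        have : n (f j) ≤ n (f i') := hf (Fin.le_def.2 hi')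
        omega
      have a2 : i.1 + 1 ≤ FS (s (e i)) := by
        rw [← hFS]
        apply le_card_of_mono e s _ _ (by omega)
        intro i' hi'
        exact he (Fin.le_def.2 (by omega))
      rcases Nat.lt_or_ge (FS (s (e i))) M with h0 | h0
      · have := (h3 _ (by omega) h0).1
        omega
      · have := h1 _ (le_antisymm (hFSM _) h0)
        omega
  -- the index set
  set I : Finset (Fin M) := D.map e.symm.toEmbedding with hI
  have hIc : I.card = D.card := Finset.card_map _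
  have hIne : I.Nonempty := by
    rw [← Finset.card_pos, hIc]; exact Finset.card_pos.2 hD
  have hmem : ∀ i, i ∈ I ↔ e i ∈ D := by
    intro i
    rw [hI, Finset.mem_map]
    constructor
    · rintro ⟨a, ha, rfl⟩
      simpa using ha
    · intro h
      exact ⟨e i, h, by simp⟩
  have hIu : I ≠ Finset.univ := by
    intro h
    apply hD'
    ext a
    simp only [Finset.mem_univ, iff_true]
    have : e.symm a ∈ I := by rw [h]; exact Finset.mem_univ _
    rw [hmem] at this
    simpa using this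
  obtain ⟨i, hi, j, hj, hj1, hj2⟩ := exists_boundary I hIne hIu
  have hsub : (insert j I).map f.toEmbedding ⊆ N := by
    intro b hb
    rw [Finset.mem_map] at hb
    obtain ⟨x, hx, rfl⟩ := hb
    apply hN
    rw [Finset.mem_insert] at hx
    rcases hx with rfl | hx
    · exact ⟨e i, (hmem i).1 hi, hP _ _ (hadj i x hj1 hj2)⟩
    · exact ⟨e x, (hmem x).1 hx, hP _ _ (hadj x x (by omega) (by omega))⟩
  have hcard := Finset.card_le_card hsub
  rw [Finset.card_map, Finset.card_insert_of_notMem hj, hIc] at hcard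
  exact hcard

/-! ### the local relation for letters -/

section letters

variable {h nJ : ℕ}

/-- one-digit local relation between letter tokens -/
def LoW {J : Type} (k : ℤ) (κ : ℝ) (ρ : J → ℝ) (d : Fin h → ℤ) (a : ℝ) (s t : Fin h × J) : Prop :=
  |dem k 1 (ρ t.2) a (d t.1) - sup κ (ρ s.2) a (d s.1)| ≤ 1

open Classical in
/-- local strong Hall property for letter tokens -/
def LocBSHW {J : Type} [Fintype J] (k : ℤ) (κ : ℝ) (ρ : J → ℝ) (d : Fin h → ℤ) : Prop :=
  ∀ a : ℝ, ∀ D : Finset (Fin h × J), D.Nonempty → D ≠ Finset.univ →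
    D.card + 1 ≤ (Finset.univ.filter (fun t : Fin h × J => ∃ s ∈ D, LoW k κ ρ d a s t)).card

/-- number of offsets `r < t` -/
def cnt (R : List ℤ) (t : ℤ) : ℕ := (R.map fun r => if r < t then 1 else 0).sum

/-- number of offsets with `4 r < t` -/
def cnt4 (R : List ℤ) (t : ℤ) : ℕ := (R.map fun r => if 4 * r < t then 1 else 0).sum

theorem cnt_eq (R : List ℤ) (t : ℤ) :
    cnt R t = ∑ j : Fin R.length, if R[j] < t then 1 else 0 := by
  unfold cnt
  exact (Fin.sum_univ_fun_getElem R (fun r => if r < t then 1 else 0)).symm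

theorem cnt4_eq (R : List ℤ) (t : ℤ) :
    cnt4 R t = ∑ j : Fin R.length, if 4 * R[j] < t then 1 else 0 := by
  unfold cnt4
  exact (Fin.sum_univ_fun_getElem R (fun r => if 4 * r < t then 1 else 0)).symm

/-- supply count -/
def fs (R : List ℤ) (w0 w1 : ℕ) (H u D1 D2 : ℤ) : ℕ :=
  w0 * cnt R (H - u) + w1 * cnt R (H - u - D1) + w1 * cnt R (H - u + D2)

/-- demand count, `v = N * (q + 2) - A` -/
def fd (R : List ℤ) (w0 w1 : ℕ) (N v q : ℤ) : ℕ :=
  w0 * cnt4 R (v - N * (q % 4)) + w1 * cnt4 R (v - N * ((q + 1) % 4)) +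
    w1 * cnt4 R (v - N * ((q + 3) % 4))

/-- one case of the certificate; `u = A - N * q` -/
def chk (R : List ℤ) (w0 w1 : ℕ) (N H u q D1 D2 : ℤ) : Bool :=
  let M := (w0 + 2 * w1) * R.length
  let F := fs R w0 w1 H u D1 D2
  let up := fd R w0 w1 N (3 * N - u) (q + 1)
  let dn := fd R w0 w1 N (N - u) (q + 3)
  if F = 0 then dn == 0 else if F = M then decide (M ≤ up) else decide (F < up) && decide (dn < F)

/-- the certificate -/
def chkAll (R : List ℤ) (w0 w1 : ℕ) (N H K L : ℤ) (T : ℕ) : Bool :=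
  (List.range T).all fun i => (List.range 4).all fun q =>
    chk R w0 w1 N H ((i : ℤ) - L) q K K && chk R w0 w1 N H ((i : ℤ) - L) q K (K + 1) &&
    chk R w0 w1 N H ((i : ℤ) - L) q (K + 1) K && chk R w0 w1 N H ((i : ℤ) - L) q (K + 1) (K + 1)


theorem sup_le_iff {H : ℤ} (hH : 0 < H) (κ a : ℝ) (r v q : ℤ) :
    sup κ ((r : ℝ) / (2 * H)) a v ≤ q ↔
      r < 2 * H * (q + 1) - H - ⌊2 * (H : ℝ) * (a + κ * v)⌋ := by
  have hHr : (0 : ℝ) < H := by exact_mod_cast hH
  have e1 : sup κ ((r : ℝ) / (2 * H)) a v ≤ q ↔ a + κ * v + (r : ℝ) / (2 * H) + 1 / 2 < (q : ℝ) + 1 := by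
    unfold sup
    rw [← Int.lt_add_one_iff, Int.floor_lt]
    push_cast
    rfl
  have e2 : (r < 2 * H * (q + 1) - H - ⌊2 * (H : ℝ) * (a + κ * v)⌋) ↔
      2 * (H : ℝ) * (a + κ * v) < 2 * H * (q + 1) - H - r := by
    have e3 : (r < 2 * H * (q + 1) - H - ⌊2 * (H : ℝ) * (a + κ * v)⌋) ↔
        ⌊2 * (H : ℝ) * (a + κ * v)⌋ < 2 * H * (q + 1) - H - r := by
      constructor <;> intro h <;> linarith
    rw [e3, Int.floor_lt]
    push_cast
    rfl
  rw [e1, e2]
  have e4 : 2 * (H : ℝ) * (a + κ * v + (r : ℝ) / (2 * H) + 1 / 2) =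
      2 * (H : ℝ) * (a + κ * v) + r + H := by
    field_simp
  constructor
  · intro h
    have := mul_lt_mul_of_pos_left h (show (0 : ℝ) < 2 * H by positivity)
    rw [e4] at this
    linarith
  · intro h
    have h5 : 2 * (H : ℝ) * (a + κ * v + (r : ℝ) / (2 * H) + 1 / 2) < 2 * H * ((q : ℝ) + 1) := by
      rw [e4]; linarith
    exact lt_of_mul_lt_mul_left h5 (by positivity)

theorem dem_le_iff {H : ℤ} (hH : 0 < H) (k : ℤ) (a : ℝ) (r v q : ℤ) :
    dem k 1 ((r : ℝ) / (2 * H)) a v ≤ q ↔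
      4 * r < 2 * H * (q + 2) - ⌊2 * (H : ℝ) * a⌋ - 2 * H * ((q + k * v) % 4) := by
  have hHr : (0 : ℝ) < H := by exact_mod_cast hH
  set g : ℤ := (q + k * v) / 4 with hg
  have hge : q + k * v = 4 * g + (q + k * v) % 4 := by rw [hg]; omega
  have hm0 : 0 ≤ (q + k * v) % 4 := by omega
  have hm1 : (q + k * v) % 4 < 4 := by omega
  have e1 : dem k 1 ((r : ℝ) / (2 * H)) a v ≤ q ↔
      (a + k * v) / 4 + (r : ℝ) / (2 * H) + 1 / 2 < (g : ℝ) + 1 := by
    unfold dem
    have e0 : (4 ^ 1 * ⌊(a + (k : ℝ) * v) / 4 ^ 1 + (r : ℝ) / (2 * H) + 1 / 2⌋ - k * v ≤ q) ↔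
        ⌊(a + (k : ℝ) * v) / 4 ^ 1 + (r : ℝ) / (2 * H) + 1 / 2⌋ < g + 1 := by
      rw [pow_one]
      constructor
      · intro h; omega
      · intro h; omega
    rw [e0, Int.floor_lt]
    push_cast
    rw [pow_one]
  have e2 : (4 * r < 2 * H * (q + 2) - ⌊2 * (H : ℝ) * a⌋ - 2 * H * ((q + k * v) % 4)) ↔
      2 * (H : ℝ) * a < 2 * H * (4 * g + 4 - k * v - 2) - 4 * r := by
    have e3 : (4 * r < 2 * H * (q + 2) - ⌊2 * (H : ℝ) * a⌋ - 2 * H * ((q + k * v) % 4)) ↔
        ⌊2 * (H : ℝ) * a⌋ < 2 * H * (4 * g + 4 - k * v - 2) - 4 * r := by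
      have h6 : 2 * H * (q + 2) - 2 * H * ((q + k * v) % 4) = 2 * H * (4 * g + 4 - k * v - 2) := by
        have : q + 2 - (q + k * v) % 4 = 4 * g + 4 - k * v - 2 := by omega
        rw [← this]; ring
      constructor <;> intro h <;> linarith
    rw [e3, Int.floor_lt]
    push_cast
    rfl
  rw [e1, e2]
  have e4 : 8 * (H : ℝ) * ((a + k * v) / 4 + (r : ℝ) / (2 * H) + 1 / 2) =
      2 * H * (a + k * v) + 4 * r + 4 * H := by
    field_simp
    ring
  constructor
  · intro h
    have := mul_lt_mul_of_pos_left h (show (0 : ℝ) < 8 * H by positivity)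
    rw [e4] at this
    linarith
  · intro h
    have h5 : 8 * (H : ℝ) * ((a + k * v) / 4 + (r : ℝ) / (2 * H) + 1 / 2) < 8 * H * ((g : ℝ) + 1) := by
      rw [e4]; linarith
    exact lt_of_mul_lt_mul_left h5 (by positivity)

theorem card_filter_prod {α β : Type} [Fintype α] [Fintype β] (P : α × β → Prop) [DecidablePred P] :
    (Finset.univ.filter P).card = ∑ y : α, ∑ j : β, if P (y, j) then 1 else 0 := by
  rw [Finset.card_filter, Fintype.sum_prod_type]

theorem cnt_zero (R : List ℤ) (Rm t : ℤ) (hR : ∀ r ∈ R, |r| ≤ Rm) (ht : t ≤ -Rm) : cnt R t = 0 := by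
  rw [cnt_eq]
  apply Finset.sum_eq_zero
  intro j _
  have h1 := hR R[j] (List.getElem_mem _)
  rw [abs_le] at h1
  rw [if_neg (by omega)]

theorem cnt_full (R : List ℤ) (Rm t : ℤ) (hR : ∀ r ∈ R, |r| ≤ Rm) (ht : Rm < t) :
    cnt R t = R.length := by
  rw [cnt_eq]
  have : ∀ j : Fin R.length, (if R[j] < t then 1 else 0) = 1 := by
    intro j
    have h1 := hR R[j] (List.getElem_mem _)
    rw [abs_le] at h1
    rw [if_pos (by omega)]
  simp only [this]
  simp

theorem cnt4_zero (R : List ℤ) (Rm t : ℤ) (hR : ∀ r ∈ R, |r| ≤ Rm) (ht : t ≤ -4 * Rm) :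
    cnt4 R t = 0 := by
  rw [cnt4_eq]
  apply Finset.sum_eq_zero
  intro j _
  have h1 := hR R[j] (List.getElem_mem _)
  rw [abs_le] at h1
  rw [if_neg (by omega)]

theorem cnt4_full (R : List ℤ) (Rm t : ℤ) (hR : ∀ r ∈ R, |r| ≤ Rm) (ht : 4 * Rm < t) :
    cnt4 R t = R.length := by
  rw [cnt4_eq]
  have : ∀ j : Fin R.length, (if 4 * R[j] < t then 1 else 0) = 1 := by
    intro j
    have h1 := hR R[j] (List.getElem_mem _)
    rw [abs_le] at h1
    rw [if_pos (by omega)]
  simp only [this]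
  simp

theorem fd_congr (R : List ℤ) (w0 w1 : ℕ) (N v q q' : ℤ) (h : q % 4 = q' % 4) :
    fd R w0 w1 N v q = fd R w0 w1 N v q' := by
  unfold fd
  have h1 : (q + 1) % 4 = (q' + 1) % 4 := by omega
  have h2 : (q + 3) % 4 = (q' + 3) % 4 := by omega
  rw [h, h1, h2]

/-- what a case of the certificate means -/
def Good (R : List ℤ) (w0 w1 : ℕ) (N H u q D1 D2 : ℤ) : Prop :=
  (fs R w0 w1 H u D1 D2 = (w0 + 2 * w1) * R.length →
    (w0 + 2 * w1) * R.length ≤ fd R w0 w1 N (3 * N - u) (q + 1)) ∧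
  (fs R w0 w1 H u D1 D2 = 0 → fd R w0 w1 N (N - u) (q + 3) = 0) ∧
  (0 < fs R w0 w1 H u D1 D2 → fs R w0 w1 H u D1 D2 < (w0 + 2 * w1) * R.length →
    fs R w0 w1 H u D1 D2 < fd R w0 w1 N (3 * N - u) (q + 1) ∧
      fd R w0 w1 N (N - u) (q + 3) < fs R w0 w1 H u D1 D2)

theorem good_of_chk (R : List ℤ) (w0 w1 : ℕ) (N H u q D1 D2 : ℤ)
    (hM : 0 < (w0 + 2 * w1) * R.length)
    (h : chk R w0 w1 N H u q D1 D2 = true) : Good R w0 w1 N H u q D1 D2 := by
  unfold chk at h
  simp only at h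
  unfold Good
  split_ifs at h with h1 h2
  · have h3 : fd R w0 w1 N (N - u) (q + 3) = 0 := by simpa using h
    refine ⟨fun h4 => ?_, fun _ => h3, fun h4 => ?_⟩
    · omega
    · omega
  · have h3 : (w0 + 2 * w1) * R.length ≤ fd R w0 w1 N (3 * N - u) (q + 1) := by simpa using h
    exact ⟨fun _ => h3, fun h4 => absurd h4 h1, fun _ h4 => absurd h2 h4.ne⟩
  · have h3 : fs R w0 w1 H u D1 D2 < fd R w0 w1 N (3 * N - u) (q + 1) ∧
        fd R w0 w1 N (N - u) (q + 3) < fs R w0 w1 H u D1 D2 := by simpa using h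
    exact ⟨fun h4 => absurd h4 h2, fun h4 => absurd h4 h1, fun _ _ => h3⟩

theorem good_all (R : List ℤ) (w0 w1 : ℕ) (H K L Rm : ℤ) (T : ℕ) (hH : 0 < H) (hK : 0 ≤ K)
    (hM : 0 < (w0 + 2 * w1) * R.length)
    (hR : ∀ r ∈ R, |r| ≤ Rm) (hL1 : 4 * Rm ≤ L) (hL2 : Rm + K < H + L)
    (hT1 : H + K + 1 + Rm ≤ T - L) (hT2 : 2 * H + 4 * Rm ≤ T - L)
    (hc : chkAll R w0 w1 (2 * H) H K L T = true) (u q D1 D2 : ℤ)
    (hD1 : D1 = K ∨ D1 = K + 1) (hD2 : D2 = K ∨ D2 = K + 1) :
    Good R w0 w1 (2 * H) H u q D1 D2 := by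
  have hq0 : 0 ≤ q % 4 := by omega
  have hq1 : q % 4 < 4 := by omega
  -- reduce to q % 4
  suffices hs : Good R w0 w1 (2 * H) H u (q % 4) D1 D2 by
    unfold Good at hs ⊢
    rw [fd_congr R w0 w1 (2 * H) (3 * (2 * H) - u) (q + 1) (q % 4 + 1) (by omega),
      fd_congr R w0 w1 (2 * H) ((2 * H) - u) (q + 3) (q % 4 + 3) (by omega)]
    exact hs
  by_cases hlo : u < -L
  · -- everything full
    have hfs : fs R w0 w1 H u D1 D2 = (w0 + 2 * w1) * R.length := by
      unfold fs
      rw [cnt_full R Rm _ hR (by omega), cnt_full R Rm _ hR (by omega),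
        cnt_full R Rm _ hR (by omega)]
      ring
    have hup : fd R w0 w1 (2 * H) (3 * (2 * H) - u) (q % 4 + 1) = (w0 + 2 * w1) * R.length := by
      unfold fd
      have hb : ∀ e : ℤ, e ≤ 3 → 4 * Rm < 3 * (2 * H) - u - 2 * H * e := by
        intro e he
        have : 2 * H * e ≤ 2 * H * 3 := mul_le_mul_of_nonneg_left he (by omega)
        omega
      rw [cnt4_full R Rm _ hR (hb _ (by omega)), cnt4_full R Rm _ hR (hb _ (by omega)),
        cnt4_full R Rm _ hR (hb _ (by omega))]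
      ring
    refine ⟨fun _ => by rw [hup], fun h => ?_, fun _ h => ?_⟩
    · omega
    · omega
  by_cases hhi : (T : ℤ) - L ≤ u
  · have hfs : fs R w0 w1 H u D1 D2 = 0 := by
      unfold fs
      rw [cnt_zero R Rm _ hR (by omega), cnt_zero R Rm _ hR (by omega),
        cnt_zero R Rm _ hR (by omega)]
      ring
    have hdn : fd R w0 w1 (2 * H) (2 * H - u) (q % 4 + 3) = 0 := by
      unfold fd
      have hb : ∀ e : ℤ, 0 ≤ e → 2 * H - u - 2 * H * e ≤ -4 * Rm := by
        intro e he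
        have : 0 ≤ 2 * H * e := by positivity
        omega
      rw [cnt4_zero R Rm _ hR (hb _ (by omega)), cnt4_zero R Rm _ hR (hb _ (by omega)),
        cnt4_zero R Rm _ hR (hb _ (by omega))]
      ring
    refine ⟨fun h => ?_, fun _ => hdn, fun h _ => ?_⟩
    · omega
    · omega
  -- the certificate
  have hi : ((u + L).toNat : ℤ) = u + L := Int.toNat_of_nonneg (by omega)
  have hqn : ((q % 4).toNat : ℤ) = q % 4 := Int.toNat_of_nonneg hq0
  unfold chkAll at hc
  rw [List.all_eq_true] at hc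
  have h1 := hc (u + L).toNat (List.mem_range.2 (by omega))
  rw [List.all_eq_true] at h1
  have h2 := h1 (q % 4).toNat (List.mem_range.2 (by omega))
  rw [hi, hqn, show u + L - L = u by ring] at h2
  simp only [Bool.and_eq_true] at h2
  obtain ⟨⟨⟨c1, c2⟩, c3⟩, c4⟩ := h2
  apply good_of_chk _ _ _ _ _ _ _ _ _ hM
  rcases hD1 with rfl | rfl <;> rcases hD2 with rfl | rfl <;> assumption

/-- **The cell theorem.** -/
theorem locBSHW_of_chk (d : Fin h → ℤ) (w0 w1 : ℕ)
    (hd : ∀ f : ℤ → ℕ, ∑ y, f (d y) = w0 * f 0 + w1 * f 1 + w1 * f (-1))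
    (R : List ℤ) (H K L Rm : ℤ) (T : ℕ) (hH : 0 < H) (hK : 0 ≤ K)
    (hM : 0 < (w0 + 2 * w1) * R.length)
    (hR : ∀ r ∈ R, |r| ≤ Rm) (hL1 : 4 * Rm ≤ L) (hL2 : Rm + K < H + L)
    (hT1 : H + K + 1 + Rm ≤ T - L) (hT2 : 2 * H + 4 * Rm ≤ T - L)
    (hc : chkAll R w0 w1 (2 * H) H K L T = true)
    (k : ℤ) (hk : k % 2 = 1) (κ : ℝ) (h1 : (K : ℝ) ≤ 2 * H * κ) (h2 : 2 * H * κ < K + 1) :
    LocBSHW (J := Fin R.length) k κ (fun j : Fin R.length => (R[j] : ℝ) / (2 * H)) d := by
  classical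
  have hHr : (0 : ℝ) < H := by exact_mod_cast hH
  intro a D hD hD'
  set A : ℤ := ⌊2 * (H : ℝ) * a⌋ with hA
  set B : ℤ := ⌊2 * (H : ℝ) * (a + κ)⌋ with hB
  set C : ℤ := ⌊2 * (H : ℝ) * (a - κ)⌋ with hC
  have hA1 : (A : ℝ) ≤ 2 * H * a := Int.floor_le _
  have hA2 : 2 * (H : ℝ) * a < A + 1 := Int.lt_floor_add_one _
  have hD1 : B - A = K ∨ B - A = K + 1 := by
    have b1 : A + K ≤ B := by
      rw [hB, Int.le_floor]; push_cast; nlinarith
    have b2 : B < A + K + 2 := by
      rw [hB, Int.floor_lt]; push_cast; nlinarith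
    omega
  have hD2 : A - C = K ∨ A - C = K + 1 := by
    have b1 : A - K - 1 ≤ C := by
      rw [hC, Int.le_floor]; push_cast; nlinarith
    have b2 : C < A - K + 1 := by
      rw [hC, Int.floor_lt]; push_cast; nlinarith
    omega
  have hcard : Fintype.card (Fin h × Fin R.length) = (w0 + 2 * w1) * R.length := by
    have h3 := hd (fun _ => 1)
    simp only [Finset.sum_const, Finset.card_univ, Fintype.card_fin, smul_eq_mul, mul_one] at h3
    rw [Fintype.card_prod, Fintype.card_fin, Fintype.card_fin, h3]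
    ring
  refine hall_of_cuts (M := (w0 + 2 * w1) * R.length) hcard hcard
    (fun s : Fin h × Fin R.length => sup κ ((R[s.2] : ℝ) / (2 * H)) a (d s.1))
    (fun t : Fin h × Fin R.length => dem k 1 ((R[t.2] : ℝ) / (2 * H)) a (d t.1))
    (fun q => fs R w0 w1 H (A - 2 * H * q) (B - A) (A - C))
    (fun q => fd R w0 w1 (2 * H) (2 * H * (q + 2) - A) q) ?_ ?_ ?_ ?_ ?_ D hD hD'
    (fun s t => LoW k κ (fun j : Fin R.length => (R[j] : ℝ) / (2 * H)) d a s t) ?_ _ ?_
  · -- supplies
    intro q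
    rw [card_filter_prod]
    have e1 : ∀ (y : Fin h) (j : Fin R.length),
        (if sup κ ((R[j] : ℝ) / (2 * H)) a (d y) ≤ q then 1 else 0) =
        (if R[j] < 2 * H * (q + 1) - H - ⌊2 * (H : ℝ) * (a + κ * (d y : ℤ))⌋ then 1 else 0) := by
      intro y j
      simp only [sup_le_iff hH]
    simp only [e1]
    have e2 := hd (fun v => ∑ j : Fin R.length,
      (if R[j] < 2 * H * (q + 1) - H - ⌊2 * (H : ℝ) * (a + κ * (v : ℤ))⌋ then 1 else 0))
    rw [e2]
    simp only [← cnt_eq]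
    unfold fs
    have f0 : ⌊2 * (H : ℝ) * (a + κ * ((0 : ℤ) : ℝ))⌋ = A := by rw [hA]; congr 1; push_cast; ring
    have f1 : ⌊2 * (H : ℝ) * (a + κ * ((1 : ℤ) : ℝ))⌋ = B := by rw [hB]; congr 1; push_cast; ring
    have f2 : ⌊2 * (H : ℝ) * (a + κ * ((-1 : ℤ) : ℝ))⌋ = C := by rw [hC]; congr 1; push_cast; ring
    rw [f0, f1, f2]
    have g0 : 2 * H * (q + 1) - H - A = H - (A - 2 * H * q) := by ring
    have g1 : 2 * H * (q + 1) - H - B = H - (A - 2 * H * q) - (B - A) := by ring
    have g2 : 2 * H * (q + 1) - H - C = H - (A - 2 * H * q) + (A - C) := by ring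
    rw [g0, g1, g2]
  · -- demands
    intro q
    rw [card_filter_prod]
    have e1 : ∀ (y : Fin h) (j : Fin R.length),
        (if dem k 1 ((R[j] : ℝ) / (2 * H)) a (d y) ≤ q then 1 else 0) =
        (if 4 * R[j] < 2 * H * (q + 2) - A - 2 * H * ((q + k * (d y)) % 4) then 1 else 0) := by
      intro y j
      simp only [dem_le_iff hH, hA]
    simp only [e1]
    have e2 := hd (fun v => ∑ j : Fin R.length,
      (if 4 * R[j] < 2 * H * (q + 2) - A - 2 * H * ((q + k * v) % 4) then 1 else 0))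
    rw [e2]
    simp only [← cnt4_eq]
    unfold fd
    have g0 : (q + k * 0) % 4 = q % 4 := by rw [mul_zero, add_zero]
    rw [g0]
    rcases (show k % 4 = 1 ∨ k % 4 = 3 by omega) with hk4 | hk4
    · have g1 : (q + k * 1) % 4 = (q + 1) % 4 := by omega
      have g2 : (q + k * -1) % 4 = (q + 3) % 4 := by omega
      rw [g1, g2]
    · have g1 : (q + k * 1) % 4 = (q + 3) % 4 := by omega
      have g2 : (q + k * -1) % 4 = (q + 1) % 4 := by omega
      rw [g1, g2]
      ring
  · -- full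
    intro q hq
    have hg := (good_all R w0 w1 H K L Rm T hH hK hM hR hL1 hL2 hT1 hT2 hc (A - 2 * H * q) q
      (B - A) (A - C) hD1 hD2).1 hq
    have e3 : 2 * H * (q + 1 + 2) - A = 3 * (2 * H) - (A - 2 * H * q) := by ring
    rw [e3]
    exact hg
  · intro q hq
    have hg := (good_all R w0 w1 H K L Rm T hH hK hM hR hL1 hL2 hT1 hT2 hc (A - 2 * H * q) q
      (B - A) (A - C) hD1 hD2).2.1 hq
    have e3 : 2 * H * (q - 1 + 2) - A = 2 * H - (A - 2 * H * q) := by ring
    rw [e3, fd_congr R w0 w1 (2 * H) _ (q - 1) (q + 3) (by omega)]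
    exact hg
  · intro q hq0 hqM
    have hg := (good_all R w0 w1 H K L Rm T hH hK hM hR hL1 hL2 hT1 hT2 hc (A - 2 * H * q) q
      (B - A) (A - C) hD1 hD2).2.2 hq0 hqM
    have e3 : 2 * H * (q + 1 + 2) - A = 3 * (2 * H) - (A - 2 * H * q) := by ring
    have e4 : 2 * H * (q - 1 + 2) - A = 2 * H - (A - 2 * H * q) := by ring
    rw [e3, e4, fd_congr R w0 w1 (2 * H) _ (q - 1) (q + 3) (by omega)]
    exact hg
  · intro s t hst
    exact hst
  · intro t ht
    rw [Finset.mem_filter]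
    exact ⟨Finset.mem_univ _, ht⟩

end letters

end Pool.Agent.Lib.MP_c52340_nt.LocA
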