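import Mathlib
import Pool.Agent.Lib.MP_c52340_nt.Tok2
import Pool.Agent.Lib.MP_c52340_nt.Bound

/-!
Tokens, part 3: the local strong Hall property gives a multiplier below `k ^ (C * log (log k))`.
-/

set_option autoImplicit false

namespace Pool.Agent.Lib.MP_c52340_nt.Tok

open Pool.Agent.Lib.MP_c52340_nt

/-- The local strong Hall property gives a multiplier below `4 ^ (8 K l)`, `l = r + m`,
`K ≥ M (1 + log log (|J| 3 ^ l))`, `M = |J| 3 ^ r`. -/
theorem mult_of_LocBSH {J : Type} [Fintype J] {k : ℤ} {κ : ℝ} {ρ : J → ℝ} {r m K : ℕ}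
    (hr : 0 < r) (hm : 0 < m) (hκ : κ * 4 ^ (r + m) = k) (h : LocBSH k κ ρ r) (j0 : J)
    (h1 : -1 / 2 ≤ ρ j0) (h2 : ρ j0 < 1 / 2)
    (hK : ((Fintype.card J : ℝ) * (3 : ℝ) ^ r) *
      (1 + Real.log (Real.log ((Fintype.card J : ℝ) * (3 : ℝ) ^ (r + m)))) ≤ (K : ℝ)) :
    ∃ z : ℤ, 0 < z ∧ z < 4 ^ (8 * K * (r + m)) ∧ InL z ∧ InL (k * z) := by
  have hJ : 0 < Fintype.card J := Fintype.card_pos_iff.2 ⟨j0⟩
  have hl : r + m = ((r + m) / r) * r + (r + m) % r := by
    have := Nat.div_add_mod (r + m) r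
    rw [mul_comm] at this
    omega
  have hp : (r + m) % r ≤ r := (Nat.mod_lt _ hr).le
  have hB := BSH_of_LocBSH hκ h
  have hc : ∀ t t' : ℤ × J, t.1 ∈ C52C.T4 (r + m) → t'.1 ∈ C52C.T4 (r + m) →
      C52C.Reach (C52C.BStep C52C.T4 C52C.cat4 r m (Rb k κ ρ r m))
        (2 * (K * ((r + m) / r + 1))) t t' := by
    intro t t' ht ht'
    exact C52C.connect C52C.T4_Cat (by norm_num) hJ r m ((r + m) / r) ((r + m) % r) K hr hm hp hl
      (Rb k κ ρ r m) hB (by push_cast; exact hK) ht ht'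
  have h0m : ((0, j0) : ℤ × J).1 ∈ C52C.T4 (r + m) := C52C.zero_mem_T4 _
  have h1m : ((1, j0) : ℤ × J).1 ∈ C52C.T4 (r + m) := by
    refine C52C.mem_T4.2 ⟨fun i => if i = 0 then 1 else 0, ?_, ?_⟩
    · intro i
      by_cases hi : i = 0 <;> simp [hi]
    · have h3 : 0 < r + m := by omega
      obtain ⟨s, hs⟩ := Nat.exists_eq_succ_of_ne_zero (by omega : r + m ≠ 0)
      rw [hs, Finset.sum_range_succ']
      simp
  have hz := stq_zero (κ := κ) h1 h2
  obtain ⟨z, hz0, hz1, hz2, hz3⟩ := mult_of_reach hz hz (hc _ _ h0m h1m) (hc _ _ h1m h0m) one_ne_zero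
  refine ⟨z, hz0, hz1.trans_le ?_, hz2, hz3⟩
  refine pow_le_pow_right₀ (by norm_num) ?_
  have h4 : ((r + m) / r) * r ≤ r + m := Nat.div_mul_le_self _ _
  have h5 : ((r + m) / r + 1) * r ≤ 2 * (r + m) := by
    rw [add_mul, one_mul]; omega
  calc 2 * (K * ((r + m) / r + 1)) * r + 2 * (K * ((r + m) / r + 1)) * r
      = 4 * K * (((r + m) / r + 1) * r) := by ring
    _ ≤ 4 * K * (2 * (r + m)) := Nat.mul_le_mul_left _ h5
    _ = 8 * K * (r + m) := by ring

theorem log_three_gt : (1.09 : ℝ) < Real.log 3 := by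
  have h1 : Real.exp 1 < 2.7182818286 := Real.exp_one_lt_d9
  have h3 : Real.log 3 = 1 + Real.log (3 / Real.exp 1) := by
    rw [Real.log_div (by norm_num) (Real.exp_pos 1).ne', Real.log_exp]; ring
  have h4 := Real.one_sub_inv_le_log_of_pos (show 0 < 3 / Real.exp 1 by positivity)
  rw [h3]
  have h5 : (3 / Real.exp 1)⁻¹ < 0.9061 := by
    rw [inv_div]
    linarith
  linarith

theorem loglog_pos {x : ℝ} (hx : 3 ≤ x) : (0.08 : ℝ) < Real.log (Real.log x) := by
  have h0 := log_three_gt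
  have h1 : Real.log 3 ≤ Real.log x := Real.log_le_log (by norm_num) hx
  have h2 : (1.09 : ℝ) < Real.log x := by linarith
  have h3 : Real.log 1.09 ≤ Real.log (Real.log x) := Real.log_le_log (by norm_num) h2.le
  have h4 := Real.one_sub_inv_le_log_of_pos (show (0 : ℝ) < 1.09 by norm_num)
  norm_num at h4 h3 ⊢
  linarith

/-- **Quasi-polynomial bound.**  `C` depends only on the number of offsets and on the block
length. -/
theorem quasi (N r : ℕ) (hr : 0 < r) :
    ∃ C : ℝ, 0 < C ∧ ∀ (J : Type) [Fintype J], Fintype.card J ≤ N →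
      ∀ (k : ℤ) (m : ℕ) (ρ : J → ℝ) (j0 : J), 3 ≤ k → 0 < m →
        (4 : ℝ) ^ (r + m) ≤ 4 * k →
        LocBSH k (k / 4 ^ (r + m)) ρ r → -1 / 2 ≤ ρ j0 → ρ j0 < 1 / 2 →
        ∃ z : ℤ, 0 < z ∧ (z : ℝ) ≤ (k : ℝ) ^ (C * Real.log (Real.log k)) ∧
          InL z ∧ InL (k * z) := by
  set M : ℝ := (N : ℝ) * 3 ^ r with hM
  have hM0 : 0 ≤ M := by positivity
  set A : ℝ := M * (4 + N) + 1 with hA
  refine ⟨24 * (M + A * 20), by positivity, ?_⟩
  intro J _ hJN k m ρ j0 hk hm hl hB h1 h2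
  have hk3 : (3 : ℝ) ≤ k := by exact_mod_cast hk
  have hk0 : (0 : ℝ) < k := by linarith
  have hJ : 0 < Fintype.card J := Fintype.card_pos_iff.2 ⟨j0⟩
  have hJ1 : (1 : ℝ) ≤ Fintype.card J := by exact_mod_cast hJ
  have hJN' : (Fintype.card J : ℝ) ≤ N := by exact_mod_cast hJN
  have hN1 : (1 : ℝ) ≤ N := hJ1.trans hJN'
  set LL := Real.log (Real.log k) with hLL
  have hLLp : (0.08 : ℝ) < LL := loglog_pos hk3
  have hlogk : (1.09 : ℝ) < Real.log k :=
    log_three_gt.trans_le (Real.log_le_log (by norm_num) hk3)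
  set l : ℕ := r + m with hldef
  have hl2 : 2 ≤ l := by omega
  have hlr : (2 : ℝ) ≤ l := by exact_mod_cast hl2
  -- `l ≤ 3 log k`
  have hl4 : (l : ℝ) * Real.log 4 ≤ 3 * Real.log k := by
    have h3 : Real.log ((4 : ℝ) ^ l) ≤ Real.log (4 * k) := Real.log_le_log (by positivity) hl
    rw [Real.log_pow] at h3
    have h4 : Real.log (4 * k) ≤ 3 * Real.log k := by
      have h5 : (4 : ℝ) * k ≤ (k : ℝ) ^ 3 := by nlinarith [mul_pos hk0 hk0]
      have h6 := Real.log_le_log (by positivity) h5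
      rw [Real.log_pow] at h6
      push_cast at h6
      exact h6
    linarith
  have hlog4 : (1 : ℝ) < Real.log 4 := by
    have h5 : Real.log 3 < Real.log 4 := Real.log_lt_log (by norm_num) (by norm_num)
    linarith [log_three_gt]
  have hl3 : (l : ℝ) ≤ 3 * Real.log k := by nlinarith
  -- the number of passes
  have hMt : Real.log (Real.log ((Fintype.card J : ℝ) * (3 : ℝ) ^ l)) ≤ N + 3 + LL := by
    have h3 : Real.log ((Fintype.card J : ℝ) * (3 : ℝ) ^ l) ≤ (N + 2) * (3 * Real.log k) := by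
      rw [Real.log_mul (by positivity) (by positivity), Real.log_pow]
      have h4 : Real.log (Fintype.card J : ℝ) ≤ N := by
        have := Real.log_le_sub_one_of_pos (show (0 : ℝ) < Fintype.card J by linarith)
        linarith
      have h5 : Real.log 3 < 2 := by
        have := Real.log_lt_log (by norm_num) (show (3 : ℝ) < 4 by norm_num)
        have h6 : Real.log 4 = 2 * Real.log 2 := by
          rw [show (4 : ℝ) = 2 ^ 2 by norm_num, Real.log_pow]; norm_num
        have h7 := Real.log_two_lt_d9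
        linarith
      have h8 : (l : ℝ) * Real.log 3 ≤ 2 * (3 * Real.log k) := by nlinarith
      nlinarith
    have hpos : 0 < Real.log ((Fintype.card J : ℝ) * (3 : ℝ) ^ l) := by
      apply Real.log_pos
      have h4 : (3 : ℝ) ^ 1 ≤ (3 : ℝ) ^ l := pow_le_pow_right₀ (by norm_num) (by omega)
      nlinarith
    have h6 := Real.log_le_log hpos h3
    have h7 : Real.log ((N + 2) * (3 * Real.log k)) = Real.log (3 * (N + 2)) + LL := by
      rw [show ((N : ℝ) + 2) * (3 * Real.log k) = (3 * (N + 2)) * Real.log k by ring,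
        Real.log_mul (by positivity) (by positivity)]
    have h8 : Real.log (3 * ((N : ℝ) + 2)) ≤ N + 3 := by
      rw [Real.log_mul (by norm_num) (by positivity)]
      have h9 := Real.log_le_sub_one_of_pos (show (0 : ℝ) < (N : ℝ) + 2 by linarith)
      have h10 : Real.log 3 < 2 := by
        have := Real.log_lt_log (by norm_num) (show (3 : ℝ) < 4 by norm_num)
        have h6 : Real.log 4 = 2 * Real.log 2 := by
          rw [show (4 : ℝ) = 2 ^ 2 by norm_num, Real.log_pow]; norm_num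
        have h7 := Real.log_two_lt_d9
        linarith
      linarith
    linarith
  set K : ℕ := ⌈M * (N + 4 + LL)⌉₊ with hK
  have hKge : M * (N + 4 + LL) ≤ K := Nat.le_ceil _
  have hKle : (K : ℝ) ≤ M * (N + 4 + LL) + 1 := by
    have := Nat.ceil_lt_add_one (show 0 ≤ M * (N + 4 + LL) by positivity)
    exact this.le
  have hK' : ((Fintype.card J : ℝ) * (3 : ℝ) ^ r) *
      (1 + Real.log (Real.log ((Fintype.card J : ℝ) * (3 : ℝ) ^ (r + m)))) ≤ (K : ℝ) := by
    rw [← hldef]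
    refine le_trans ?_ hKge
    have h3 : (Fintype.card J : ℝ) * (3 : ℝ) ^ r ≤ M := by
      rw [hM]; exact mul_le_mul_of_nonneg_right hJN' (by positivity)
    have h4 : 1 + Real.log (Real.log ((Fintype.card J : ℝ) * (3 : ℝ) ^ l)) ≤ N + 4 + LL := by
      linarith
    calc _ ≤ ((Fintype.card J : ℝ) * (3 : ℝ) ^ r) * (N + 4 + LL) :=
          mul_le_mul_of_nonneg_left h4 (by positivity)
      _ ≤ M * (N + 4 + LL) := mul_le_mul_of_nonneg_right h3 (by positivity)
  obtain ⟨z, hz0, hz1, hz2, hz3⟩ := mult_of_LocBSH hr hm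
    (by rw [div_mul_cancel₀]; positivity) hB j0 h1 h2 hK'
  refine ⟨z, hz0, ?_, hz2, hz3⟩
  have hz1' : (z : ℝ) ≤ (4 : ℝ) ^ (8 * K * l) := by
    have : (z : ℝ) < ((4 ^ (8 * K * (r + m)) : ℤ) : ℝ) := by exact_mod_cast hz1
    push_cast at this
    exact this.le
  refine hz1'.trans ?_
  have hlogz : Real.log ((4 : ℝ) ^ (8 * K * l)) ≤
      (24 * (M + A * 20)) * LL * Real.log k := by
    rw [Real.log_pow]
    push_cast
    have h3 : (8 * (K : ℝ) * l) * Real.log 4 ≤ 24 * K * Real.log k := by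
      have : (0 : ℝ) ≤ K := Nat.cast_nonneg _
      nlinarith
    have h4 : (K : ℝ) ≤ (M + A * 20) * LL := by
      have h5 : A ≤ A * 20 * LL := by
        have hA0 : 0 ≤ A := by positivity
        nlinarith
      calc (K : ℝ) ≤ M * (N + 4 + LL) + 1 := hKle
        _ = M * LL + A := by rw [hA]; ring
        _ ≤ M * LL + A * 20 * LL := by linarith
        _ = _ := by ring
    calc (8 * (K : ℝ) * l) * Real.log 4 ≤ 24 * K * Real.log k := h3
      _ ≤ 24 * ((M + A * 20) * LL) * Real.log k := by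
          apply mul_le_mul_of_nonneg_right _ (by linarith)
          linarith
      _ = _ := by ring
  rw [Real.rpow_def_of_pos hk0, ← Real.exp_log (show (0 : ℝ) < 4 ^ (8 * K * l) by positivity)]
  apply Real.exp_le_exp.2
  refine hlogz.trans (le_of_eq ?_)
  ring

end Pool.Agent.Lib.MP_c52340_nt.Tok
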