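import Mathlib
import Pool.Agent.Lib.MP_c52340_nt.Tok3

/-!
Tokens with an arbitrary state function `q : ℤ → J → ℤ` (digits uniform, words = integers in `T4 l`).
-/

set_option autoImplicit false

namespace Pool.Agent.Lib.MP_c52340_nt.Tok

open Pool.Agent.Lib.MP_c52340_nt

variable {J : Type}

/-- block step over the kept part `X` for the state function `q`: the real steps lead from the
state of the token `(y + 4 ^ r * X, j)` to the state of the token `(X + 4 ^ m * E, j')` -/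
def RbG (k : ℤ) (q : ℤ → J → ℤ) (r m : ℕ) (X : ℤ) (s t : ℤ × J) : Prop :=
  Ln r (4 ^ r * q (X + 4 ^ m * t.1) t.2 - k * t.1 - q (s.1 + 4 ^ r * X) s.2)

/-- a path of block steps is a real path; with the invariant `x + 4 ^ l * E = Y + 4 ^ (i r) * x'` -/
theorem reach_realG {k : ℤ} {q : ℤ → J → ℤ} {r m : ℕ} {s : ℤ × J} :
    ∀ (i : ℕ) {t : ℤ × J}, C52C.Reach (C52C.BStep C52C.T4 C52C.cat4 r m (RbG k q r m)) i s t →
      ∃ E Y : ℤ, RE k (i * r) E (q s.1 s.2) (q t.1 t.2) ∧ Ln (i * r) Y ∧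
        s.1 + 4 ^ (r + m) * E = Y + 4 ^ (i * r) * t.1
  | 0, t, h => by
    have h : s = t := h
    subst h
    refine ⟨0, 0, ?_, ?_, ?_⟩
    · rw [zero_mul]; exact RE.refl _ _
    · rw [zero_mul]; exact ln_zero.2 rfl
    · simp
  | i + 1, t, h => by
    obtain ⟨u, h1, X, hX, y, hy, F, hF, hu, ht, hR⟩ := h
    obtain ⟨E, Y, hE, hY, hinv⟩ := reach_realG i h1
    have hF' : Ln r F := C52C.mem_T4.1 hF
    have hy' : Ln r y := C52C.mem_T4.1 hy
    unfold C52C.cat4 at hu ht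
    have h2 : RE k r F (q u.1 u.2) (q t.1 t.2) := by
      refine ⟨hF', _, hR, ?_⟩
      simp only
      rw [← hu, ← ht]
      ring
    refine ⟨E + 4 ^ (i * r) * F, Y + 4 ^ (i * r) * y, ?_, ?_, ?_⟩
    · rw [show (i + 1) * r = i * r + r by ring]
      exact hE.trans h2
    · rw [show (i + 1) * r = i * r + r by ring]
      exact ln_add.2 ⟨Y, y, hY, hy', rfl⟩
    · have h3 : (4 : ℤ) ^ ((i + 1) * r) = 4 ^ (i * r) * 4 ^ r := by
        rw [← pow_add]; congr 1; ring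
      rw [h3, ht]
      rw [hu] at hinv
      rw [pow_add] at hinv ⊢
      linear_combination hinv

/-- The strong Hall property for an arbitrary state function gives a multiplier below
`4 ^ (8 K l)`, `l = r + m`, `K ≥ M (1 + log log (|J| 3 ^ l))`, `M = |J| 3 ^ r`. -/
theorem mult_of_BSHG [Fintype J] {k : ℤ} {q : ℤ → J → ℤ} {r m K : ℕ}
    (hr : 0 < r) (hm : 0 < m) (hB : C52C.BSH C52C.T4 r m (RbG k q r m)) (j0 : J)
    (hq : q 0 j0 = 0)
    (hK : ((Fintype.card J : ℝ) * (3 : ℝ) ^ r) *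
      (1 + Real.log (Real.log ((Fintype.card J : ℝ) * (3 : ℝ) ^ (r + m)))) ≤ (K : ℝ)) :
    ∃ z : ℤ, 0 < z ∧ z < 4 ^ (8 * K * (r + m)) ∧ InL z ∧ InL (k * z) := by
  have hJ : 0 < Fintype.card J := Fintype.card_pos_iff.2 ⟨j0⟩
  have hl : r + m = ((r + m) / r) * r + (r + m) % r := by
    have := Nat.div_add_mod (r + m) r
    rw [mul_comm] at this
    omega
  have hp : (r + m) % r ≤ r := (Nat.mod_lt _ hr).le
  have hc : ∀ t t' : ℤ × J, t.1 ∈ C52C.T4 (r + m) → t'.1 ∈ C52C.T4 (r + m) →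
      C52C.Reach (C52C.BStep C52C.T4 C52C.cat4 r m (RbG k q r m))
        (2 * (K * ((r + m) / r + 1))) t t' := by
    intro t t' ht ht'
    exact C52C.connect C52C.T4_Cat (by norm_num) hJ r m ((r + m) / r) ((r + m) % r) K hr hm hp hl
      (RbG k q r m) hB (by push_cast; exact hK) ht ht'
  have h0m : ((0, j0) : ℤ × J).1 ∈ C52C.T4 (r + m) := C52C.zero_mem_T4 _
  have h1m : ((1, j0) : ℤ × J).1 ∈ C52C.T4 (r + m) := by
    refine C52C.mem_T4.2 ⟨fun i => if i = 0 then 1 else 0, ?_, ?_⟩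
    · intro i
      by_cases hi : i = 0 <;> simp [hi]
    · have h3 : 0 < r + m := by omega
      obtain ⟨s, hs⟩ := Nat.exists_eq_succ_of_ne_zero (by omega : r + m ≠ 0)
      rw [hs, Finset.sum_range_succ']
      simp
  obtain ⟨E, Y, hE, hY, hinv⟩ := reach_realG _ (hc _ _ h0m h1m)
  obtain ⟨F, Z, hF, _, _⟩ := reach_realG _ (hc _ _ h1m h0m)
  simp only at hE hinv hF
  rw [hq] at hE hF
  rw [zero_add] at hinv
  obtain ⟨z, hz0, hz1, hz2, hz3⟩ := mult_of_RE_RE hE hF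
    (fun hE0 => one_ne_zero (eq_zero_of_inv hY hinv hE0))
  refine ⟨z, hz0, hz1.trans_le ?_, hz2, hz3⟩
  refine pow_le_pow_right₀ (by norm_num) ?_
  have h4 : ((r + m) / r) * r ≤ r + m := Nat.div_mul_le_self _ _
  have h5 : ((r + m) / r + 1) * r ≤ 2 * (r + m) := by
    rw [add_mul, one_mul]; omega
  calc 2 * (K * ((r + m) / r + 1)) * r + 2 * (K * ((r + m) / r + 1)) * r
      = 4 * K * (((r + m) / r + 1) * r) := by ring
    _ ≤ 4 * K * (2 * (r + m)) := Nat.mul_le_mul_left _ h5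
    _ = 8 * K * (r + m) := by ring

end Pool.Agent.Lib.MP_c52340_nt.Tok
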