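import Mathlib
import Pool.Agent.Lib.MP_c52340_nt.TokG
import Pool.Agent.Lib.MP_c52340_nt.LocA

/-!
# The one-digit law for `κ` just below `2`

`κ = 2 - e`, `0 < e ≤ 1 / 5`.  The letters are `Fin (2 G)`, `G = K + 3`, and the value of the token
`(x, j)` is `⌈κ x⌉` or `⌈κ x⌉ - 1`, the second one for the first `H(⌈κ x⌉ - κ x)` letters.  The
profile `H` is not monotone; it increases by one letter along the orbit of `x ↦ 4 x - e`, so the
number of letters is of the order of `log (1 / e)`.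
-/

set_option autoImplicit false

namespace C52M

/-- number of letters with value at most `q`: `h` letters have the value `N - δ`, the others `N` -/
def cf (J h : ℕ) (N q δ : ℤ) : ℕ := if N ≤ q then J else if N - δ ≤ q then h else 0

/-- strict cut inequalities -/
def Cut (M : ℕ) (FS FD : ℤ → ℕ) : Prop :=
  ∀ q, (FS q = M → M ≤ FD (q + 1)) ∧ (FS q = 0 → FD (q - 1) = 0) ∧
    (0 < FS q → FS q < M → FS q < FD (q + 1) ∧ FD (q - 1) < FS q)

/-- the numbers of the demands -/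
def AA (J hf af ag hg : ℕ) (i : ℤ) : ℕ :=
  if i = 0 then hf else if i = 1 then af else if i = 2 then J - ag else J - hg

def FDt (J hf af ag hg : ℕ) (i1 i2 i3 d : ℤ) : ℕ :=
  cf J (AA J hf af ag hg i1) i1 d 4 + cf J (AA J hf af ag hg i2) i2 d 4 +
    cf J (AA J hf af ag hg i3) i3 d 4

def FSt (J p0 p1 p2 : ℕ) (n1 n2 d : ℤ) : ℕ :=
  cf J p0 0 d 1 + cf J p1 n1 d 1 + cf J p2 n2 d 1

theorem cut_small {J hf af ag hg p0 p1 p2 : ℕ} {n1 n2 i1 i2 i3 d : ℤ} (hd : d ≤ -5)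
    (hn1 : 0 ≤ n1) (hn2 : -2 ≤ n2) (h1 : 0 ≤ i1) (h2 : 0 ≤ i2) (h3 : 0 ≤ i3) :
    FSt J p0 p1 p2 n1 n2 d = 0 ∧ FDt J hf af ag hg i1 i2 i3 (d - 1) = 0 := by
  constructor
  · unfold FSt cf
    rw [if_neg (by omega), if_neg (by omega), if_neg (by omega), if_neg (by omega),
      if_neg (by omega), if_neg (by omega)]
  · unfold FDt cf
    rw [if_neg (by omega), if_neg (by omega), if_neg (by omega), if_neg (by omega),
      if_neg (by omega), if_neg (by omega)]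

theorem cut_big {J hf af ag hg p0 p1 p2 : ℕ} {n1 n2 i1 i2 i3 d : ℤ} (hd : 3 ≤ d)
    (hn1 : n1 ≤ 2) (hn2 : n2 ≤ 2) (h1 : i1 ≤ 3) (h2 : i2 ≤ 3) (h3 : i3 ≤ 3) :
    FSt J p0 p1 p2 n1 n2 d = 3 * J ∧ FDt J hf af ag hg i1 i2 i3 (d + 1) = 3 * J := by
  constructor
  · unfold FSt cf
    rw [if_pos (by omega), if_pos (by omega), if_pos (by omega)]
    ring
  · unfold FDt cf
    rw [if_pos (by omega), if_pos (by omega), if_pos (by omega)]
    ring

theorem cutC {G hf af ag hg tf tg u : ℕ} (hG : 5 ≤ G)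
    (f1 : hf + 1 ≤ G) (g1 : hg + 1 ≤ G) (f2 : hf + af + 1 ≤ 2 * G) (g2 : hg + ag + 1 ≤ 2 * G)
    (f3 : G ≤ af) (f3' : af ≤ G + 1) (g3 : G ≤ ag) (g3' : ag ≤ G + 1)
    (f4 : hf < tf ∨ (hf = 0 ∧ tf = 0)) (g4 : hg < tg ∨ (hg = 0 ∧ tg = 0))
    (f5 : hf < u) (f5' : 3 ≤ u) (g5 : hg + u < 2 * G) (g5' : 3 + u ≤ 2 * G)
    (f6 : tf < hf + G) (g6 : tg < hg + G) (f7 : tf + ag < hf + 2 * G) (g7 : tg + af < hg + 2 * G)
    (f8 : ag < hf + af) (g8 : af < hg + ag) (f9 : hf + af < u + ag)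
    (g9 : hg + ag + u < 2 * G + af)
    (i1 i2 i3 : ℤ) (hi : (i1 = 0 ∧ i2 = 1 ∧ i3 = 2) ∨ (i1 = 0 ∧ i2 = 1 ∧ i3 = 3) ∨
      (i1 = 0 ∧ i2 = 2 ∧ i3 = 3) ∨ (i1 = 1 ∧ i2 = 2 ∧ i3 = 3)) :
    Cut (3 * (2 * G)) (FSt (2 * G) u (2 * G - tg) tf 2 (-2))
      (FDt (2 * G) hf af ag hg i1 i2 i3) := by
  intro d
  by_cases hd1 : d ≤ -5
  · obtain ⟨a1, a2⟩ := cut_small (J := 2 * G) (hf := hf) (af := af) (ag := ag) (hg := hg)
      (p0 := u) (p1 := 2 * G - tg) (p2 := tf) (n1 := 2) (n2 := -2) (i1 := i1) (i2 := i2)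
      (i3 := i3) hd1 (by omega) (by omega) (by omega) (by omega) (by omega)
    rw [a1, a2]
    refine ⟨fun h => ?_, fun _ => rfl, fun h => ?_⟩ <;> omega
  by_cases hd2 : 3 ≤ d
  · obtain ⟨a1, a2⟩ := cut_big (J := 2 * G) (hf := hf) (af := af) (ag := ag) (hg := hg)
      (p0 := u) (p1 := 2 * G - tg) (p2 := tf) (n1 := 2) (n2 := -2) (i1 := i1) (i2 := i2)
      (i3 := i3) hd2 (by omega) (by omega) (by omega) (by omega) (by omega)
    rw [a1, a2]
    refine ⟨fun _ => le_rfl, fun h => ?_, fun h1 h2 => ?_⟩ <;> omega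
  push Not at hd1 hd2
  rcases hi with ⟨rfl, rfl, rfl⟩ | ⟨rfl, rfl, rfl⟩ | ⟨rfl, rfl, rfl⟩ | ⟨rfl, rfl, rfl⟩ <;>
  interval_cases d <;> norm_num [FSt, FDt, cf, AA] <;> omega

theorem cutL {G af hg tg u Q : ℕ} (hG : 5 ≤ G)
    (hu : u = 0 ∨ u = 2 ∨ u = 3) (hQ : Q = 0 ∨ Q = 2 ∨ Q = 3)
    (w1 : Q = 0 → af = G + 1) (w2 : u = 0 → af = G - 1) (a1 : G - 1 ≤ af) (a2 : af ≤ G + 1)
    (g1 : 2 ≤ hg) (g1' : hg + 1 ≤ G) (g4 : hg < tg) (g6 : tg < hg + G)
    (g7 : tg + af < hg + 2 * G)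
    (i1 i2 i3 : ℤ) (hi : (i1 = 0 ∧ i2 = 1 ∧ i3 = 2) ∨ (i1 = 0 ∧ i2 = 1 ∧ i3 = 3) ∨
      (i1 = 0 ∧ i2 = 2 ∧ i3 = 3) ∨ (i1 = 1 ∧ i2 = 2 ∧ i3 = 3)) :
    Cut (3 * (2 * G)) (FSt (2 * G) u (2 * G - tg) (2 * G - Q) 2 (-1))
      (FDt (2 * G) 0 af G hg i1 i2 i3) := by
  intro d
  by_cases hd1 : d ≤ -5
  · obtain ⟨a1, a2⟩ := cut_small (J := 2 * G) (hf := 0) (af := af) (ag := G) (hg := hg)
      (p0 := u) (p1 := 2 * G - tg) (p2 := 2 * G - Q) (n1 := 2) (n2 := -1) (i1 := i1) (i2 := i2)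
      (i3 := i3) hd1 (by omega) (by omega) (by omega) (by omega) (by omega)
    rw [a1, a2]
    refine ⟨fun h => ?_, fun _ => rfl, fun h => ?_⟩ <;> omega
  by_cases hd2 : 3 ≤ d
  · obtain ⟨a1, a2⟩ := cut_big (J := 2 * G) (hf := 0) (af := af) (ag := G) (hg := hg)
      (p0 := u) (p1 := 2 * G - tg) (p2 := 2 * G - Q) (n1 := 2) (n2 := -1) (i1 := i1) (i2 := i2)
      (i3 := i3) hd2 (by omega) (by omega) (by omega) (by omega) (by omega)
    rw [a1, a2]
    refine ⟨fun _ => le_rfl, fun h => ?_, fun h1 h2 => ?_⟩ <;> omega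
  push Not at hd1 hd2
  rcases hi with ⟨rfl, rfl, rfl⟩ | ⟨rfl, rfl, rfl⟩ | ⟨rfl, rfl, rfl⟩ | ⟨rfl, rfl, rfl⟩ <;>
  interval_cases d <;> norm_num [FSt, FDt, cf, AA] <;> omega

theorem cutR {G ag hf tf u Q : ℕ} (hG : 5 ≤ G) (hul : u ≤ 2 * G)
    (hu : 2 * G - u = 0 ∨ 2 * G - u = 2 ∨ 2 * G - u = 3) (hQ : Q = 0 ∨ Q = 2 ∨ Q = 3)
    (w1 : Q = 0 → ag = G + 1) (w2 : 2 * G - u = 0 → ag = G - 1) (a1 : G - 1 ≤ ag)
    (a2 : ag ≤ G + 1)
    (g1 : 2 ≤ hf) (g1' : hf + 1 ≤ G) (g4 : hf < tf) (g6 : tf < hf + G)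
    (g7 : tf + ag < hf + 2 * G)
    (i1 i2 i3 : ℤ) (hi : (i1 = 0 ∧ i2 = 1 ∧ i3 = 2) ∨ (i1 = 0 ∧ i2 = 1 ∧ i3 = 3) ∨
      (i1 = 0 ∧ i2 = 2 ∧ i3 = 3) ∨ (i1 = 1 ∧ i2 = 2 ∧ i3 = 3)) :
    Cut (3 * (2 * G)) (FSt (2 * G) u Q tf 1 (-2))
      (FDt (2 * G) hf G ag 0 i1 i2 i3) := by
  intro d
  by_cases hd1 : d ≤ -5
  · obtain ⟨a1, a2⟩ := cut_small (J := 2 * G) (hf := hf) (af := G) (ag := ag) (hg := 0)
      (p0 := u) (p1 := Q) (p2 := tf) (n1 := 1) (n2 := -2) (i1 := i1) (i2 := i2)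
      (i3 := i3) hd1 (by omega) (by omega) (by omega) (by omega) (by omega)
    rw [a1, a2]
    refine ⟨fun h => ?_, fun _ => rfl, fun h => ?_⟩ <;> omega
  by_cases hd2 : 3 ≤ d
  · obtain ⟨a1, a2⟩ := cut_big (J := 2 * G) (hf := hf) (af := G) (ag := ag) (hg := 0)
      (p0 := u) (p1 := Q) (p2 := tf) (n1 := 1) (n2 := -2) (i1 := i1) (i2 := i2)
      (i3 := i3) hd2 (by omega) (by omega) (by omega) (by omega) (by omega)
    rw [a1, a2]
    refine ⟨fun _ => le_rfl, fun h => ?_, fun h1 h2 => ?_⟩ <;> omega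
  push Not at hd1 hd2
  rcases hi with ⟨rfl, rfl, rfl⟩ | ⟨rfl, rfl, rfl⟩ | ⟨rfl, rfl, rfl⟩ | ⟨rfl, rfl, rfl⟩ <;>
  interval_cases d <;> norm_num [FSt, FDt, cf, AA] <;> omega


open Finset

/-! ### the profile -/

noncomputable def bb (e : ℝ) (i : ℕ) : ℝ := e * (1 / 3 + 4 ^ i / 15)

noncomputable def cn (e : ℝ) (K : ℕ) (x : ℝ) : ℕ := ((range K).filter (fun i => bb e i ≤ x)).card

noncomputable def hh (e : ℝ) (K : ℕ) (x : ℝ) : ℕ :=
  if x < 3 / 16 + e / 4 then (if cn e K x = 0 then 0 else cn e K x + 1)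
  else if x < 1 / 4 + e / 10 then K + 2
  else if x < 1 / 4 + 3 * e / 20 then K + 3
  else if x < 1 / 4 + 2 * e / 5 then K + 4
  else K + 3

noncomputable def HH (e : ℝ) (K : ℕ) (t : ℝ) : ℕ :=
  if t ≤ 1 / 2 then hh e K t else 2 * (K + 3) - hh e K (1 - t)

structure Par (e : ℝ) (K : ℕ) : Prop where
  e0 : 0 < e
  e1 : e ≤ 1 / 5
  hK : 2 ≤ K
  lo : ∀ i < K, bb e i < 3 / 16 + e / 4
  hi : 3 / 16 + e / 4 ≤ bb e K

variable {e : ℝ} {K : ℕ}

theorem bb_zero (e : ℝ) : bb e 0 = 2 * e / 5 := by unfold bb; norm_num; ring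

theorem bb_one (e : ℝ) : bb e 1 = 3 * e / 5 := by unfold bb; norm_num; ring

theorem bb_two (e : ℝ) : bb e 2 = 7 * e / 5 := by unfold bb; norm_num; ring

theorem bb_succ (e : ℝ) (i : ℕ) : bb e (i + 1) = 4 * bb e i - e := by
  unfold bb; rw [pow_succ]; ring

theorem bb_mono (he : 0 ≤ e) {i j : ℕ} (h : i ≤ j) : bb e i ≤ bb e j := by
  unfold bb
  apply mul_le_mul_of_nonneg_left _ he
  have : (4 : ℝ) ^ i ≤ 4 ^ j := pow_le_pow_right₀ (by norm_num) h
  linarith

theorem cn_le (e : ℝ) (K : ℕ) (x : ℝ) : cn e K x ≤ K := by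
  unfold cn
  exact (card_filter_le _ _).trans (card_range K).le

theorem cn_mono (e : ℝ) (K : ℕ) {x y : ℝ} (h : x ≤ y) : cn e K x ≤ cn e K y := by
  unfold cn
  apply card_le_card
  intro i hi
  rw [mem_filter] at hi ⊢
  exact ⟨hi.1, hi.2.trans h⟩

theorem cn_zero (hp : Par e K) {x : ℝ} (hx : x < 2 * e / 5) : cn e K x = 0 := by
  unfold cn
  rw [card_eq_zero, filter_eq_empty_iff]
  intro i _ h
  have := bb_mono hp.e0.le (Nat.zero_le i)
  rw [bb_zero] at this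
  linarith

theorem cn_pos (hp : Par e K) {x : ℝ} (hx : 2 * e / 5 ≤ x) : 1 ≤ cn e K x := by
  unfold cn
  rw [Nat.one_le_iff_ne_zero, ← pos_iff_ne_zero, card_pos]
  refine ⟨0, ?_⟩
  rw [mem_filter, mem_range, bb_zero]
  exact ⟨by have := hp.hK; omega, hx⟩

theorem cn_two (hp : Par e K) {x : ℝ} (hx : 3 * e / 5 ≤ x) : 2 ≤ cn e K x := by
  unfold cn
  have h0 := hp.e0
  have hK := hp.hK
  have : ({0, 1} : Finset ℕ) ⊆ (range K).filter (fun i => bb e i ≤ x) := by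
    intro i hi
    rw [mem_insert, mem_singleton] at hi
    rw [mem_filter, mem_range]
    rcases hi with rfl | rfl
    · exact ⟨by omega, by rw [bb_zero]; linarith⟩
    · exact ⟨by omega, by rw [bb_one]; linarith⟩
  exact (by decide : 2 ≤ ({0, 1} : Finset ℕ).card).trans (card_le_card this)

theorem cn_le_one (hp : Par e K) {x : ℝ} (hx : x < 3 * e / 5) : cn e K x ≤ 1 := by
  unfold cn
  have : (range K).filter (fun i => bb e i ≤ x) ⊆ range 1 := by
    intro i hi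
    rw [mem_filter, mem_range] at hi
    rw [mem_range]
    by_contra hc
    push Not at hc
    have := bb_mono hp.e0.le hc
    rw [bb_one] at this
    linarith [hi.2]
  exact (card_le_card this).trans (card_range 1).le

theorem cn_le_two (hp : Par e K) {x : ℝ} (hx : x < 7 * e / 5) : cn e K x ≤ 2 := by
  unfold cn
  have : (range K).filter (fun i => bb e i ≤ x) ⊆ range 2 := by
    intro i hi
    rw [mem_filter, mem_range] at hi
    rw [mem_range]
    by_contra hc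
    push Not at hc
    have := bb_mono hp.e0.le hc
    rw [bb_two] at this
    linarith [hi.2]
  exact (card_le_card this).trans (card_range 2).le

theorem cn_chain (hp : Par e K) {x t : ℝ} (hx : 2 * e / 5 ≤ x) (ht : 4 * x - e ≤ t)
    (htw : t < 3 / 16 + e / 4) : cn e K x + 1 ≤ cn e K t := by
  have h0 := hp.e0
  have hK := hp.hK
  unfold cn
  set S := (range K).filter (fun i => bb e i ≤ x) with hS
  have h1 : (S.image Nat.succ).card = S.card := card_image_of_injective _ Nat.succ_injective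
  have h2 : 0 ∉ S.image Nat.succ := by
    intro h
    rw [mem_image] at h
    obtain ⟨i, _, hi⟩ := h
    exact (Nat.succ_ne_zero i) hi
  have h3 : insert 0 (S.image Nat.succ) ⊆ (range K).filter (fun i => bb e i ≤ t) := by
    intro i hi
    rw [mem_insert, mem_image] at hi
    rw [mem_filter, mem_range]
    rcases hi with rfl | ⟨i, hi, rfl⟩
    · exact ⟨by omega, by rw [bb_zero]; linarith⟩
    · rw [hS, mem_filter, mem_range] at hi
      have h4 : bb e (i + 1) ≤ t := by rw [bb_succ]; linarith [hi.2]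
      refine ⟨?_, h4⟩
      by_contra hc
      have h5 : i + 1 = K := by
        rw [Nat.succ_eq_add_one] at hc
        omega
      rw [h5] at h4
      linarith [hp.hi]
  calc S.card + 1 = (insert 0 (S.image Nat.succ)).card := by
        rw [card_insert_of_notMem h2, h1]
    _ ≤ _ := card_le_card h3

/-! ### values of the profile -/

theorem hh_zero (hp : Par e K) {x : ℝ} (hx : x < 2 * e / 5) : hh e K x = 0 := by
  have h1 := hp.e1
  have h0 := hp.e0
  unfold hh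
  rw [if_pos (by linarith), cn_zero hp hx, if_pos rfl]

theorem hh_mid (hp : Par e K) {x : ℝ} (hx : 2 * e / 5 ≤ x) (hw : x < 3 / 16 + e / 4) :
    hh e K x = cn e K x + 1 := by
  have := cn_pos hp hx
  unfold hh
  rw [if_pos hw, if_neg (by omega)]

theorem hh_w (_hp : Par e K) {x : ℝ} (hx : 3 / 16 + e / 4 ≤ x) (hw : x < 1 / 4 + e / 10) :
    hh e K x = K + 2 := by
  unfold hh
  rw [if_neg (by linarith), if_pos hw]

theorem hh_b1 (hp : Par e K) {x : ℝ} (hx : 1 / 4 + e / 10 ≤ x) (hw : x < 1 / 4 + 3 * e / 20) :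
    hh e K x = K + 3 := by
  have h1 := hp.e1
  have h0 := hp.e0
  unfold hh
  rw [if_neg (by linarith), if_neg (by linarith), if_pos hw]

theorem hh_b2 (hp : Par e K) {x : ℝ} (hx : 1 / 4 + 3 * e / 20 ≤ x) (hw : x < 1 / 4 + 2 * e / 5) :
    hh e K x = K + 4 := by
  have h1 := hp.e1
  have h0 := hp.e0
  unfold hh
  rw [if_neg (by linarith), if_neg (by linarith), if_neg (by linarith), if_pos hw]

theorem hh_b3 (hp : Par e K) {x : ℝ} (hx : 1 / 4 + 2 * e / 5 ≤ x) :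
    hh e K x = K + 3 := by
  have h1 := hp.e1
  have h0 := hp.e0
  unfold hh
  rw [if_neg (by linarith), if_neg (by linarith), if_neg (by linarith), if_neg (by linarith)]

theorem hh_up (e : ℝ) (K : ℕ) {x : ℝ} (hx : 3 / 16 + e / 4 ≤ x) : K + 2 ≤ hh e K x := by
  unfold hh
  rw [if_neg (by linarith)]
  split_ifs <;> omega

theorem hh_le (e : ℝ) (K : ℕ) (x : ℝ) : hh e K x ≤ K + 4 := by
  have := cn_le e K x
  unfold hh
  split_ifs <;> omega

/-- below `1 / 4 + e / 10` -/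
theorem hh_le2 (e : ℝ) (K : ℕ) {x : ℝ} (hx : x < 1 / 4 + e / 10) : hh e K x ≤ K + 2 := by
  have := cn_le e K x
  unfold hh
  rw [if_pos hx]
  split_ifs <;> omega

theorem hh_three (hp : Par e K) {x : ℝ} (hx : 3 * e / 5 ≤ x) : 3 ≤ hh e K x := by
  have h0 := hp.e0
  by_cases hw : x < 3 / 16 + e / 4
  · rw [hh_mid hp (by linarith) hw]
    have := cn_two hp hx
    omega
  · have := hh_up e K (not_lt.1 hw)
    have := hp.hK
    omega

theorem hh_two (hp : Par e K) {x : ℝ} (hx : 2 * e / 5 ≤ x) : 2 ≤ hh e K x := by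
  by_cases hw : x < 3 / 16 + e / 4
  · rw [hh_mid hp hx hw]
    have := cn_pos hp hx
    omega
  · have := hh_up e K (not_lt.1 hw)
    have := hp.hK
    omega

theorem HH_le (e : ℝ) (K : ℕ) (t : ℝ) : HH e K t ≤ 2 * (K + 3) := by
  unfold HH
  split_ifs
  · have := hh_le e K t; omega
  · omega

theorem HH_symm (hp : Par e K) (t : ℝ) : HH e K (1 - t) + HH e K t = 2 * (K + 3) := by
  have h1 := hp.e1
  have h0 := hp.e0
  have hl := hh_le e K t
  have hl' := hh_le e K (1 - t)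
  rcases lt_trichotomy t (1 / 2) with h | h | h
  · unfold HH
    rw [if_neg (by linarith), if_pos h.le, sub_sub_cancel]
    omega
  · unfold HH
    rw [h, if_pos (by norm_num), if_pos le_rfl, hh_b3 hp (by linarith), hh_b3 hp (by linarith)]
    omega
  · unfold HH
    rw [if_pos (by linarith), if_neg (by linarith)]
    omega

theorem HH_lo (e : ℝ) (K : ℕ) {t : ℝ} (h : t ≤ 1 / 2) : HH e K t = hh e K t := by
  unfold HH; rw [if_pos h]

theorem HH_hi (e : ℝ) (K : ℕ) {t : ℝ} (h : 1 / 2 < t) :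
    HH e K t = 2 * (K + 3) - hh e K (1 - t) := by
  unfold HH; rw [if_neg (not_le.2 h)]

theorem HH_up (e : ℝ) (K : ℕ) {t : ℝ} (h : 3 / 16 + e / 4 ≤ t) : K + 2 ≤ HH e K t := by
  rcases le_or_gt t (1 / 2) with h1 | h1
  · rw [HH_lo e K h1]; exact hh_up e K h
  · rw [HH_hi e K h1]
    have := hh_le e K (1 - t)
    omega

theorem HH_34 (hp : Par e K) {t : ℝ} (h : 3 / 4 ≤ t) : K + 4 ≤ HH e K t := by
  have h0 := hp.e0
  rw [HH_hi e K (by linarith)]
  have := hh_le2 e K (x := 1 - t) (by linarith)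
  omega

theorem HH_lt34 (hp : Par e K) {t : ℝ} (h : t < 3 / 4) : HH e K t ≤ K + 4 := by
  have h0 := hp.e0
  have h1 := hp.e1
  rcases le_or_gt t (1 / 2) with h1 | h1
  · rw [HH_lo e K h1]; exact hh_le e K t
  · rw [HH_hi e K h1]
    have := hh_up e K (x := 1 - t) (by linarith)
    omega

theorem HH_34' (hp : Par e K) {t : ℝ} (h : 3 / 4 ≤ t) (h' : t ≤ 1 - e) :
    HH e K t + 3 ≤ 2 * (K + 3) := by
  have h0 := hp.e0
  rw [HH_hi e K (by linarith)]
  have := hh_three hp (x := 1 - t) (by linarith)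
  have := hh_le e K (1 - t)
  omega

theorem HH_three (hp : Par e K) {t : ℝ} (h : 3 * e / 5 ≤ t) : 3 ≤ HH e K t := by
  rcases le_or_gt t (1 / 2) with h1 | h1
  · rw [HH_lo e K h1]; exact hh_three hp h
  · have := HH_up e K (t := t) (by linarith [hp.e1])
    have := hp.hK
    omega

/-! ### the facts used in the cuts -/

theorem fac1 (hp : Par e K) {x : ℝ} (hx : x ≤ 1 / 4) : hh e K x + 1 ≤ K + 3 := by
  have := hh_le2 e K (x := x) (by linarith [hp.e0])
  omega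

/-- `G ≤ h(1/4 + x) ≤ G + 1` for `x ≥ e / 4` -/
theorem fac3 (hp : Par e K) {x : ℝ} (hx : e / 4 ≤ x) :
    K + 3 ≤ hh e K (1 / 4 + x) ∧ hh e K (1 / 4 + x) ≤ K + 4 := by
  have h0 := hp.e0
  by_cases h : x < 2 * e / 5
  · rw [hh_b2 hp (by linarith) (by linarith)]; omega
  · rw [hh_b3 hp (by linarith)]; omega

theorem fac2 (hp : Par e K) {x : ℝ} (hx : e / 4 ≤ x) (hx' : x ≤ 1 / 4) :
    hh e K x + hh e K (1 / 4 + x) + 1 ≤ 2 * (K + 3) := by
  have h0 := hp.e0
  have hK := hp.hK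
  by_cases h : x < 2 * e / 5
  · rw [hh_b2 hp (x := 1 / 4 + x) (by linarith) (by linarith), hh_zero hp h]; omega
  · rw [hh_b3 hp (x := 1 / 4 + x) (by linarith)]
    have := fac1 hp hx'
    omega

theorem fac4 (hp : Par e K) {x : ℝ} (hx : e / 4 ≤ x) (hx' : x ≤ 1 / 4) :
    hh e K x < HH e K (4 * x - e) ∨ (hh e K x = 0 ∧ HH e K (4 * x - e) = 0) := by
  have h0 := hp.e0
  have h1 := hp.e1
  have hK := hp.hK
  by_cases h : x < 2 * e / 5
  · rw [hh_zero hp h]; omega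
  · push Not at h
    left
    by_cases hw : x < 3 / 16 + e / 4
    · rw [hh_mid hp h hw]
      by_cases ht : 4 * x - e < 3 / 16 + e / 4
      · rw [HH_lo e K (by linarith), hh_mid hp (by linarith) ht]
        have := cn_chain hp h le_rfl ht
        omega
      · have := HH_up e K (not_lt.1 ht)
        have := cn_le e K x
        omega
    · push Not at hw
      rw [hh_w hp hw (by linarith)]
      have := HH_34 hp (t := 4 * x - e) (by linarith)
      omega

theorem fac5 (hp : Par e K) {x : ℝ} (hx : e / 4 ≤ x) (hx' : x ≤ 1 / 4) :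
    hh e K x < HH e K (4 * x) := by
  have h0 := hp.e0
  have h1 := hp.e1
  have hK := hp.hK
  by_cases h : x < 2 * e / 5
  · rw [hh_zero hp h]
    have := HH_three hp (t := 4 * x) (by linarith)
    omega
  · push Not at h
    by_cases hw : x < 3 / 16 + e / 4
    · rw [hh_mid hp h hw]
      by_cases ht : 4 * x < 3 / 16 + e / 4
      · rw [HH_lo e K (by linarith), hh_mid hp (by linarith) ht]
        have := cn_chain hp h (show 4 * x - e ≤ 4 * x by linarith) ht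
        omega
      · have := HH_up e K (not_lt.1 ht)
        have := cn_le e K x
        omega
    · push Not at hw
      rw [hh_w hp hw (by linarith)]
      have := HH_34 hp (t := 4 * x) (by linarith)
      omega

theorem fac6 (hp : Par e K) {x : ℝ} (hx : e / 4 ≤ x) (hx' : x ≤ 1 / 4) :
    HH e K (4 * x - e) < hh e K x + (K + 3) := by
  have h0 := hp.e0
  have h1 := hp.e1
  have hK := hp.hK
  by_cases h : x < 2 * e / 5
  · rw [HH_lo e K (by linarith)]
    have h2 : hh e K (4 * x - e) ≤ K + 2 := hh_le2 e K (by linarith)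
    omega
  · push Not at h
    by_cases hw : x < 3 / 16 + e / 4
    · have h2 := hh_two hp h
      have := HH_lt34 hp (t := 4 * x - e) (by linarith)
      omega
    · push Not at hw
      rw [hh_w hp hw (by linarith)]
      have := HH_34' hp (t := 4 * x - e) (by linarith) (by linarith)
      omega

theorem fac7 (hp : Par e K) {x y : ℝ} (hx : e / 4 ≤ x) (hx' : x ≤ 1 / 4) (hxy : x + y = 1 / 4) :
    HH e K (4 * x - e) + hh e K (1 / 4 + y) < hh e K x + 2 * (K + 3) := by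
  have h0 := hp.e0
  have h1 := hp.e1
  have hK := hp.hK
  have hy := hh_le e K (1 / 4 + y)
  by_cases h : x < 2 * e / 5
  · rw [HH_lo e K (by linarith), hh_b3 hp (x := 1 / 4 + y) (by linarith)]
    have h2 : hh e K (4 * x - e) ≤ K + 2 := hh_le2 e K (by linarith)
    omega
  · push Not at h
    by_cases hw : x < 3 / 16 + e / 4
    · have h2 := HH_lt34 hp (t := 4 * x - e) (by linarith)
      by_cases h3 : x < 3 * e / 5
      · have h4 := hh_two hp h
        rw [hh_b3 hp (x := 1 / 4 + y) (by linarith)]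
        omega
      · have h4 := hh_three hp (not_lt.1 h3)
        omega
    · push Not at hw
      rw [hh_w hp hw (by linarith)]
      have := HH_34' hp (t := 4 * x - e) (by linarith) (by linarith)
      omega

theorem fac8 (hp : Par e K) {x y : ℝ} (hx : e / 4 ≤ x) (hx' : x ≤ 1 / 4) (hxy : x + y = 1 / 4) :
    hh e K (1 / 4 + y) < hh e K x + hh e K (1 / 4 + x) := by
  have h0 := hp.e0
  have h1 := hp.e1
  have hy := hh_le e K (1 / 4 + y)
  by_cases h : x < 2 * e / 5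
  · rw [hh_b2 hp (x := 1 / 4 + x) (by linarith) (by linarith),
      hh_b3 hp (x := 1 / 4 + y) (by linarith)]
    omega
  · push Not at h
    have h2 := hh_two hp h
    rw [hh_b3 hp (x := 1 / 4 + x) (by linarith)]
    omega

theorem fac9 (hp : Par e K) {x y : ℝ} (hx : e / 4 ≤ x) (hx' : x ≤ 1 / 4) (hy : e / 4 ≤ y)
    (hxy : x + y = 1 / 4) :
    hh e K x + hh e K (1 / 4 + x) < HH e K (4 * x) + hh e K (1 / 4 + y) := by
  have h0 := hp.e0
  have h1 := hp.e1
  have h2 := (fac3 hp hy).1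
  by_cases h : x < 2 * e / 5
  · rw [hh_b2 hp (x := 1 / 4 + x) (by linarith) (by linarith), hh_zero hp h]
    have := HH_three hp (t := 4 * x) (by linarith)
    omega
  · push Not at h
    have h3 := fac5 hp hx hx'
    rw [hh_b3 hp (x := 1 / 4 + x) (by linarith)]
    omega

/-- the values near `0` -/
theorem fac10 (hp : Par e K) {t : ℝ} (ht : t ≤ e) :
    hh e K t = 0 ∨ hh e K t = 2 ∨ hh e K t = 3 := by
  have h0 := hp.e0
  have h1 := hp.e1
  by_cases h : t < 2 * e / 5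
  · left; exact hh_zero hp h
  · push Not at h
    rw [hh_mid hp h (by linarith)]
    have := cn_pos hp h
    have := cn_le_two hp (x := t) (by linarith)
    omega

theorem fac11 (hp : Par e K) {t : ℝ} (ht : t ≤ e) (h : hh e K (e - t) = 0) :
    hh e K (1 / 4 + t / 4) = K + 4 := by
  have h0 := hp.e0
  have h1 : e - t < 2 * e / 5 := by
    by_contra hc
    have := hh_two hp (not_lt.1 hc)
    omega
  exact hh_b2 hp (by linarith) (by linarith)

theorem fac12 (hp : Par e K) {t : ℝ} (ht : 0 ≤ t) (h : hh e K t = 0) :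
    hh e K (1 / 4 + t / 4) = K + 2 := by
  have h0 := hp.e0
  have h2 := hp.e1
  have h1 : t < 2 * e / 5 := by
    by_contra hc
    have := hh_two hp (not_lt.1 hc)
    omega
  exact hh_w hp (by linarith) (by linarith)

end C52M
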