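import Mathlib
import Pool.Agent.Lib.MP_c52340_nt.Tok3

/-!
Tokens over a general alphabet.

`dg : Fin h → ℤ` gives the digit of a letter.  Words of length `a` are the numbers `x < h ^ a`
(base `h` expansion, low letters first); `val dg a x` is the integer `∑ 4 ^ i * dg (x_i)`.
With several letters for the digit `0` this gives windows with a non-uniform digit law.
-/

set_option autoImplicit false

namespace Pool.Agent.Lib.MP_c52340_nt.Tok

open Pool.Agent.Lib.MP_c52340_nt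

/-! ### Words as numbers -/

/-- words of length `a` over an alphabet with `h` letters -/
def Th (h : ℕ) (a : ℕ) : Finset ℕ := Finset.range (h ^ a)

/-- concatenation -/
def cath (h : ℕ) (a _b : ℕ) (y X : ℕ) : ℕ := y + h ^ a * X

theorem sum_range_mul' {M : Type*} [AddCommMonoid M] (g : ℕ → M) (m n : ℕ) :
    ∑ x ∈ Finset.range (m * n), g x =
      ∑ X ∈ Finset.range n, ∑ y ∈ Finset.range m, g (y + m * X) := by
  induction n with
  | zero => simp
  | succ n ih =>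
    rw [Nat.mul_succ, Finset.sum_range_add, ih, Finset.sum_range_succ]
    congr 1
    refine Finset.sum_congr rfl (fun y _ => ?_)
    rw [add_comm]

theorem Th_Cat (h : ℕ) : C52C.Cat h (Th h) (cath h) where
  sum := by
    intro a b g
    unfold Th cath
    rw [pow_add, sum_range_mul', Finset.sum_comm]
  assoc := by
    intro a b c u v w
    unfold cath
    rw [pow_add]
    ring
  card := by
    intro a
    unfold Th
    exact Finset.card_range _

/-- value of a word of length `n` -/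
def val {h : ℕ} (dg : ℕ → ℤ) : ℕ → ℕ → ℤ
  | 0, _ => 0
  | n + 1, x => dg (x % h) + 4 * val (h := h) dg n (x / h)

theorem val_Ln {h : ℕ} {dg : ℕ → ℤ} (hdg : ∀ c, Dig (dg c)) :
    ∀ (n x : ℕ), Ln n (val (h := h) dg n x)
  | 0, _ => ln_zero.2 rfl
  | n + 1, x => ln_succ.2 ⟨_, _, hdg _, val_Ln hdg n (x / h), rfl⟩

theorem val_cat {h : ℕ} (hh : 0 < h) (dg : ℕ → ℤ) :
    ∀ (a b y X : ℕ), y < h ^ a →
      val (h := h) dg (a + b) (y + h ^ a * X) =
        val (h := h) dg a y + 4 ^ a * val (h := h) dg b X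
  | 0, b, y, X, hy => by
    have : y = 0 := by simpa using hy
    subst this
    rw [Nat.zero_add]
    simp [val]
  | a + 1, b, y, X, hy => by
    have h1 : a + 1 + b = (a + b) + 1 := by ring
    have h2 : (y + h ^ (a + 1) * X) % h = y % h := by
      rw [show y + h ^ (a + 1) * X = y + h * (h ^ a * X) by ring, Nat.add_mul_mod_self_left]
    have h3 : (y + h ^ (a + 1) * X) / h = y / h + h ^ a * X := by
      rw [show y + h ^ (a + 1) * X = y + h * (h ^ a * X) by ring, Nat.add_mul_div_left _ _ hh]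
    have h4 : y / h < h ^ a := by
      rw [Nat.div_lt_iff_lt_mul hh]
      rw [pow_succ] at hy
      exact hy
    rw [h1]
    show dg ((y + h ^ (a + 1) * X) % h) + 4 * val (h := h) dg (a + b) ((y + h ^ (a + 1) * X) / h) =
      (dg (y % h) + 4 * val (h := h) dg a (y / h)) + 4 ^ (a + 1) * val (h := h) dg b X
    rw [h2, h3, val_cat hh dg a b (y / h) X h4, pow_succ]
    ring

theorem exists_val_zero {h : ℕ} {dg : ℕ → ℤ} {c0 : ℕ} (hc : c0 < h) (h0 : dg c0 = 0) :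
    ∀ n : ℕ, ∃ x, x < h ^ n ∧ val (h := h) dg n x = 0
  | 0 => ⟨0, by simp, rfl⟩
  | n + 1 => by
    obtain ⟨x, hx, hv⟩ := exists_val_zero hc h0 n
    have hh : 0 < h := by omega
    refine ⟨c0 + h * x, ?_, ?_⟩
    · calc c0 + h * x < h + h * x := by omega
        _ = h * (x + 1) := by ring
        _ ≤ h * h ^ n := Nat.mul_le_mul_left _ hx
        _ = h ^ (n + 1) := by ring
    · show dg ((c0 + h * x) % h) + 4 * val (h := h) dg n ((c0 + h * x) / h) = 0
      rw [Nat.add_mul_mod_self_left, Nat.mod_eq_of_lt hc, Nat.add_mul_div_left _ _ hh,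
        Nat.div_eq_of_lt hc, Nat.zero_add, hv, h0]
      ring

theorem exists_val_one {h : ℕ} {dg : ℕ → ℤ} {c0 c1 : ℕ} (hc : c0 < h) (h0 : dg c0 = 0)
    (hc1 : c1 < h) (h1 : dg c1 = 1) {n : ℕ} (hn : 0 < n) :
    ∃ x, x < h ^ n ∧ val (h := h) dg n x = 1 := by
  obtain ⟨m, rfl⟩ := Nat.exists_eq_succ_of_ne_zero hn.ne'
  obtain ⟨x, hx, hv⟩ := exists_val_zero hc h0 m
  have hh : 0 < h := by omega
  refine ⟨c1 + h * x, ?_, ?_⟩
  · calc c1 + h * x < h + h * x := by omega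
      _ = h * (x + 1) := by ring
      _ ≤ h * h ^ m := Nat.mul_le_mul_left _ hx
      _ = h ^ (m + 1) := by ring
  · show dg ((c1 + h * x) % h) + 4 * val (h := h) dg m ((c1 + h * x) / h) = 1
    rw [Nat.add_mul_mod_self_left, Nat.mod_eq_of_lt hc1, Nat.add_mul_div_left _ _ hh,
      Nat.div_eq_of_lt hc1, Nat.zero_add, hv, h1]
    ring

/-! ### Block steps -/

variable {J : Type}

/-- block step over the kept part `X` (a word of length `m`) -/
def RbA (h : ℕ) (dg : ℕ → ℤ) (k : ℤ) (κ : ℝ) (ρ : J → ℝ) (r m : ℕ) (X : ℕ) (s t : ℕ × J) : Prop :=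
  Ln r (4 ^ r * stq κ (ρ t.2) (val (h := h) dg m X + 4 ^ m * val (h := h) dg r t.1)
    - k * val (h := h) dg r t.1
    - stq κ (ρ s.2) (val (h := h) dg r s.1 + 4 ^ r * val (h := h) dg m X))

/-- local relation in the context `a` -/
def LoA (h : ℕ) (dg : ℕ → ℤ) (k : ℤ) (κ : ℝ) (ρ : J → ℝ) (r : ℕ) (a : ℝ) (s t : ℕ × J) : Prop :=
  Ln r (dem k r (ρ t.2) a (val (h := h) dg r t.1) - sup κ (ρ s.2) a (val (h := h) dg r s.1))

theorem RbA_iff_LoA {h : ℕ} {dg : ℕ → ℤ} {k : ℤ} {κ : ℝ} {ρ : J → ℝ} {r m : ℕ}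
    (hκ : κ * 4 ^ (r + m) = k) (X : ℕ) (s t : ℕ × J) :
    RbA h dg k κ ρ r m X s t ↔ LoA h dg k κ ρ r (κ * 4 ^ r * (val (h := h) dg m X : ℤ)) s t := by
  have h1 := Rb_iff_Lo (k := k) (κ := κ) (ρ := ρ) hκ (val (h := h) dg m X)
    (val (h := h) dg r s.1, s.2) (val (h := h) dg r t.1, t.2)
  exact h1

/-- a path of block steps is a real path; with the invariant `x + 4 ^ l * E = Y + 4 ^ (i r) * x'` -/
theorem reach_realA {h : ℕ} (hh : 0 < h) {dg : ℕ → ℤ} (hdg : ∀ c, Dig (dg c))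
    {k : ℤ} {κ : ℝ} {ρ : J → ℝ} {r m : ℕ} {s : ℕ × J} :
    ∀ (i : ℕ) {t : ℕ × J},
      C52C.Reach (C52C.BStep (Th h) (cath h) r m (RbA h dg k κ ρ r m)) i s t →
      ∃ E Y : ℤ, RE k (i * r) E (stq κ (ρ s.2) (val (h := h) dg (r + m) s.1))
          (stq κ (ρ t.2) (val (h := h) dg (r + m) t.1)) ∧ Ln (i * r) Y ∧
        val (h := h) dg (r + m) s.1 + 4 ^ (r + m) * E =
          Y + 4 ^ (i * r) * val (h := h) dg (r + m) t.1
  | 0, t, hst => by
    have hst : s = t := hst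
    subst hst
    refine ⟨0, 0, ?_, ?_, ?_⟩
    · rw [zero_mul]; exact RE.refl _ _
    · rw [zero_mul]; exact ln_zero.2 rfl
    · simp
  | i + 1, t, hst => by
    obtain ⟨u, h1, X, hX, y, hy, F, hF, hu, ht, hR⟩ := hst
    obtain ⟨E, Y, hE, hY, hinv⟩ := reach_realA hh hdg i h1
    unfold Th at hX hy hF
    rw [Finset.mem_range] at hX hy hF
    unfold cath at hu ht
    have hu' : val (h := h) dg (r + m) u.1 =
        val (h := h) dg r y + 4 ^ r * val (h := h) dg m X := by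
      rw [hu, val_cat hh dg r m y X hy]
    have ht' : val (h := h) dg (r + m) t.1 =
        val (h := h) dg m X + 4 ^ m * val (h := h) dg r F := by
      rw [ht, add_comm r m, val_cat hh dg m r X F hX]
    have hF' : Ln r (val (h := h) dg r F) := val_Ln hdg r F
    have hy' : Ln r (val (h := h) dg r y) := val_Ln hdg r y
    have h2 : RE k r (val (h := h) dg r F) (stq κ (ρ u.2) (val (h := h) dg (r + m) u.1))
        (stq κ (ρ t.2) (val (h := h) dg (r + m) t.1)) := by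
      refine ⟨hF', _, hR, ?_⟩
      simp only
      rw [← hu', ← ht']
      ring
    refine ⟨E + 4 ^ (i * r) * val (h := h) dg r F, Y + 4 ^ (i * r) * val (h := h) dg r y,
      ?_, ?_, ?_⟩
    · rw [show (i + 1) * r = i * r + r by ring]
      exact hE.trans h2
    · rw [show (i + 1) * r = i * r + r by ring]
      exact ln_add.2 ⟨Y, _, hY, hy', rfl⟩
    · have h3 : (4 : ℤ) ^ ((i + 1) * r) = 4 ^ (i * r) * 4 ^ r := by
        rw [← pow_add]; congr 1; ring
      rw [h3, ht']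
      rw [hu'] at hinv
      rw [pow_add] at hinv ⊢
      linear_combination hinv

/-- The local strong Hall property in every real context `a`. -/
def LocBSHA [Fintype J] (h : ℕ) (dg : ℕ → ℤ) (k : ℤ) (κ : ℝ) (ρ : J → ℝ) (r : ℕ) : Prop :=
  ∀ a : ℝ, ∀ D ⊆ Th h r ×ˢ (Finset.univ : Finset J), D.Nonempty →
    D ≠ Th h r ×ˢ (Finset.univ : Finset J) →
    D.card + 1 ≤ (C52C.nbr (Th h) r (fun _ => LoA h dg k κ ρ r a) (0 : ℕ) D).card

theorem BSH_of_LocBSHA [Fintype J] {h : ℕ} {dg : ℕ → ℤ} {k : ℤ} {κ : ℝ} {ρ : J → ℝ} {r m : ℕ}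
    (hκ : κ * 4 ^ (r + m) = k) (hL : LocBSHA h dg k κ ρ r) :
    C52C.BSH (Th h) r m (RbA h dg k κ ρ r m) := by
  intro X _ D hD hne hnf
  have h1 := hL (κ * 4 ^ r * (val (h := h) dg m X : ℤ)) D hD hne hnf
  have h2 : C52C.nbr (Th h) r (RbA h dg k κ ρ r m) X D =
      C52C.nbr (Th h) r
        (fun _ => LoA h dg k κ ρ r (κ * 4 ^ r * (val (h := h) dg m X : ℤ))) (0 : ℕ) D := by
    classical
    ext e
    unfold C52C.nbr
    simp only [Finset.mem_filter]
    constructor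
    · rintro ⟨he, d, hd, hR⟩
      exact ⟨he, d, hd, (RbA_iff_LoA hκ X d e).1 hR⟩
    · rintro ⟨he, d, hd, hR⟩
      exact ⟨he, d, hd, (RbA_iff_LoA hκ X d e).2 hR⟩
  rw [h2]
  exact h1

/-- `BSH` (from any source) gives a multiplier below `4 ^ (8 K l)`, `l = r + m`,
`K ≥ M (1 + log log (|J| h ^ l))`, `M = |J| h ^ r`. -/
theorem mult_of_BSHA {J : Type} [Fintype J] {h : ℕ} {dg : ℕ → ℤ} (hdg : ∀ c, Dig (dg c))
    {c0 c1 : ℕ} (hc0 : c0 < h) (h0 : dg c0 = 0) (hc1 : c1 < h) (hd1 : dg c1 = 1)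
    {k : ℤ} {κ : ℝ} {ρ : J → ℝ} {r m K : ℕ}
    (hr : 0 < r) (hm : 0 < m)
    (hB : C52C.BSH (Th h) r m (RbA h dg k κ ρ r m)) (j0 : J)
    (h1 : -1 / 2 ≤ ρ j0) (h2 : ρ j0 < 1 / 2)
    (hK : ((Fintype.card J : ℝ) * (h : ℝ) ^ r) *
      (1 + Real.log (Real.log ((Fintype.card J : ℝ) * (h : ℝ) ^ (r + m)))) ≤ (K : ℝ)) :
    ∃ z : ℤ, 0 < z ∧ z < 4 ^ (8 * K * (r + m)) ∧ InL z ∧ InL (k * z) := by
  have hJ : 0 < Fintype.card J := Fintype.card_pos_iff.2 ⟨j0⟩
  have hne : c0 ≠ c1 := by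
    rintro rfl
    rw [h0] at hd1
    omega
  have hh2 : 2 ≤ h := by omega
  have hh : 0 < h := by omega
  have hl : r + m = ((r + m) / r) * r + (r + m) % r := by
    have := Nat.div_add_mod (r + m) r
    rw [mul_comm] at this
    omega
  have hp : (r + m) % r ≤ r := (Nat.mod_lt _ hr).le
  have hc : ∀ t t' : ℕ × J, t.1 ∈ Th h (r + m) → t'.1 ∈ Th h (r + m) →
      C52C.Reach (C52C.BStep (Th h) (cath h) r m (RbA h dg k κ ρ r m))
        (2 * (K * ((r + m) / r + 1))) t t' := by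
    intro t t' ht ht'
    exact C52C.connect (Th_Cat h) hh2 hJ r m ((r + m) / r) ((r + m) % r) K hr hm hp hl
      (RbA h dg k κ ρ r m) hB hK ht ht'
  obtain ⟨x0, hx0, hv0⟩ := exists_val_zero (dg := dg) hc0 h0 (r + m)
  obtain ⟨x1, hx1, hv1⟩ := exists_val_one (dg := dg) hc0 h0 hc1 hd1 (n := r + m) (by omega)
  have hm0 : ((x0, j0) : ℕ × J).1 ∈ Th h (r + m) := Finset.mem_range.2 hx0
  have hm1 : ((x1, j0) : ℕ × J).1 ∈ Th h (r + m) := Finset.mem_range.2 hx1
  obtain ⟨E, Y, hE, hY, hinv⟩ := reach_realA hh hdg _ (hc _ _ hm0 hm1)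
  obtain ⟨F, Z, hF, _, _⟩ := reach_realA hh hdg _ (hc _ _ hm1 hm0)
  simp only at hE hinv hF
  have hz := stq_zero (κ := κ) h1 h2
  rw [hv0, hz] at hE hF
  rw [hv0, hv1, zero_add] at hinv
  obtain ⟨z, hz0, hz1, hz2, hz3⟩ := mult_of_RE_RE hE hF
    (fun hE0 => one_ne_zero (eq_zero_of_inv hY hinv hE0))
  refine ⟨z, hz0, hz1.trans_le ?_, hz2, hz3⟩
  refine pow_le_pow_right₀ (by norm_num) ?_
  have h4 : ((r + m) / r) * r ≤ r + m := Nat.div_mul_le_self _ _
  have h5 : ((r + m) / r + 1) * r ≤ 2 * (r + m) := by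
    rw [add_mul, one_mul]; omega
  calc 2 * (K * ((r + m) / r + 1)) * r + 2 * (K * ((r + m) / r + 1)) * r
      = 4 * K * (((r + m) / r + 1) * r) := by ring
    _ ≤ 4 * K * (2 * (r + m)) := Nat.mul_le_mul_left _ h5
    _ = 8 * K * (r + m) := by ring

end Pool.Agent.Lib.MP_c52340_nt.Tok
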