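import Mathlib
import Pool.Agent.Lib.MP_c52340_nt.TokA

/-!
One-digit blocks, letters as elements of `Fin h`.
-/

set_option autoImplicit false

namespace Pool.Agent.Lib.MP_c52340_nt.Tok

open Pool.Agent.Lib.MP_c52340_nt

/-- extension of a digit map from `Fin h` to all numbers -/
def extd {h : ℕ} (d : Fin h → ℤ) (n : ℕ) : ℤ := if hn : n < h then d ⟨n, hn⟩ else 0

theorem extd_val {h : ℕ} (d : Fin h → ℤ) (c : Fin h) : extd d c.val = d c := by
  unfold extd
  rw [dif_pos c.2]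

theorem extd_dig {h : ℕ} {d : Fin h → ℤ} (hd : ∀ c, Dig (d c)) (n : ℕ) : Dig (extd d n) := by
  unfold extd
  split
  · exact hd _
  · exact Or.inr (Or.inl rfl)

theorem val_one {h : ℕ} (hh : 0 < h) (dg : ℕ → ℤ) {x : ℕ} (hx : x < h) :
    val (h := h) dg 1 x = dg x := by
  show dg (x % h) + 4 * val (h := h) dg 0 (x / h) = dg x
  rw [Nat.mod_eq_of_lt hx]
  simp [val]

variable {J : Type}

/-- The strong Hall property for letters in `Fin h`, one digit, every real context. -/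
def LocW [Fintype J] {h : ℕ} (k : ℤ) (κ : ℝ) (ρ : J → ℝ) (d : Fin h → ℤ) : Prop :=
  ∀ a : ℝ, ∀ D N : Finset (Fin h × J), D.Nonempty → D ≠ Finset.univ →
    (∀ t, t ∈ N ↔ ∃ s ∈ D, |dem k 1 (ρ t.2) a (d t.1) - sup κ (ρ s.2) a (d s.1)| ≤ 1) →
    D.card + 1 ≤ N.card

theorem dig_iff_abs {x : ℤ} : Dig x ↔ |x| ≤ 1 := by
  unfold Dig
  rw [abs_le]
  omega

theorem BSH_of_LocW [Fintype J] {h : ℕ} {d : Fin h → ℤ}
    {k : ℤ} {κ : ℝ} {ρ : J → ℝ} {m : ℕ} (hκ : κ * 4 ^ (1 + m) = k) (H : LocW k κ ρ d) :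
    C52C.BSH (Th h) 1 m (RbA h (extd d) k κ ρ 1 m) := by
  classical
  intro X _ D hD hne hnf
  rcases Nat.eq_zero_or_pos h with hh | hh
  · exfalso
    subst hh
    obtain ⟨x, hx⟩ := hne
    have := hD hx
    rw [Finset.mem_product] at this
    simp [Th] at this
  have hmem : ∀ x : ℕ × J, x ∈ Th h 1 ×ˢ (Finset.univ : Finset J) ↔ x.1 < h := by
    intro x
    rw [Finset.mem_product]
    simp [Th]
  set f : Fin h × J ↪ ℕ × J := ⟨fun p => (p.1.val, p.2), by
    rintro ⟨a, b⟩ ⟨c, e⟩ hac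
    simp only [Prod.mk.injEq] at hac
    exact Prod.ext (Fin.ext hac.1) hac.2⟩ with hf
  set a : ℝ := κ * 4 ^ 1 * (val (h := h) (extd d) m X : ℤ) with ha
  set D' : Finset (Fin h × J) := Finset.univ.filter (fun p => f p ∈ D) with hD'
  have hDD : D = D'.map f := by
    ext x
    rw [Finset.mem_map]
    constructor
    · intro hx
      have hx1 := (hmem x).1 (hD hx)
      refine ⟨(⟨x.1, hx1⟩, x.2), ?_, rfl⟩
      rw [hD', Finset.mem_filter]
      exact ⟨Finset.mem_univ _, hx⟩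
    · rintro ⟨p, hp, rfl⟩
      rw [hD', Finset.mem_filter] at hp
      exact hp.2
  have hcard : D.card = D'.card := by rw [hDD, Finset.card_map]
  have hne' : D'.Nonempty := by
    rw [← Finset.card_pos, ← hcard, Finset.card_pos]
    exact hne
  have hnf' : D' ≠ Finset.univ := by
    intro h1
    apply hnf
    apply Finset.Subset.antisymm hD
    intro x hx
    have hx1 := (hmem x).1 hx
    rw [hDD, Finset.mem_map]
    refine ⟨(⟨x.1, hx1⟩, x.2), ?_, rfl⟩
    rw [h1]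
    exact Finset.mem_univ _
  set N : Finset (Fin h × J) := Finset.univ.filter (fun t => ∃ s ∈ D',
    |dem k 1 (ρ t.2) a (d t.1) - sup κ (ρ s.2) a (d s.1)| ≤ 1) with hN
  have h1 := H a D' N hne' hnf' (by
    intro t
    rw [hN, Finset.mem_filter]
    exact ⟨fun h => h.2, fun h => ⟨Finset.mem_univ _, h⟩⟩)
  have h2 : N.map f ⊆ C52C.nbr (Th h) 1 (RbA h (extd d) k κ ρ 1 m) X D := by
    intro x hx
    rw [Finset.mem_map] at hx
    obtain ⟨t, ht, rfl⟩ := hx
    rw [hN, Finset.mem_filter] at ht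
    obtain ⟨_, s, hs, hst⟩ := ht
    unfold C52C.nbr
    simp only [Finset.mem_filter]
    refine ⟨(hmem _).2 t.1.2, f s, ?_, ?_⟩
    · rw [hDD]
      exact Finset.mem_map_of_mem f hs
    · rw [RbA_iff_LoA hκ X (f s) (f t)]
      unfold LoA
      rw [ln_one, dig_iff_abs]
      show |dem k 1 (ρ t.2) a (val (h := h) (extd d) 1 t.1.val)
        - sup κ (ρ s.2) a (val (h := h) (extd d) 1 s.1.val)| ≤ 1
      rw [val_one hh _ t.1.2, val_one hh _ s.1.2, extd_val, extd_val]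
      exact hst
  have h3 := Finset.card_le_card h2
  rw [Finset.card_map] at h3
  omega

/-- one-digit blocks over a general alphabet: explicit bound -/
theorem mult_of_LocW [Fintype J] {h : ℕ} {d : Fin h → ℤ} (hd : ∀ c, Dig (d c))
    {c0 c1 : Fin h} (h0 : d c0 = 0) (hd1 : d c1 = 1)
    {k : ℤ} {κ : ℝ} {ρ : J → ℝ} {m K : ℕ} (hm : 0 < m) (hκ : κ * 4 ^ (1 + m) = k)
    (H : LocW k κ ρ d) (j0 : J) (h1 : -1 / 2 ≤ ρ j0) (h2 : ρ j0 < 1 / 2)
    (hK : ((Fintype.card J : ℝ) * (h : ℝ) ^ 1) *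
      (1 + Real.log (Real.log ((Fintype.card J : ℝ) * (h : ℝ) ^ (1 + m)))) ≤ (K : ℝ)) :
    ∃ z : ℤ, 0 < z ∧ z < 4 ^ (8 * K * (1 + m)) ∧ InL z ∧ InL (k * z) :=
  mult_of_BSHA (dg := extd d) (extd_dig hd) c0.2 (by rw [extd_val]; exact h0) c1.2
    (by rw [extd_val]; exact hd1) one_pos hm (BSH_of_LocW hκ H) j0 h1 h2 hK

end Pool.Agent.Lib.MP_c52340_nt.Tok
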