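import Mathlib
import Pool.Agent.Lib.MP_c52340_nt.TokW
import Pool.Agent.Lib.MP_c52340_nt.TokG

/-!
Final counting.  `Good A k G`: the multiplier argument works with at most `A * G` tokens, an
alphabet of at most `13` letters and block length at most `2`.
-/

set_option autoImplicit false

namespace Pool.Agent.Lib.MP_c52340_nt.Tok

open Pool.Agent.Lib.MP_c52340_nt

/-- the multiplier argument works for `k` with at most `A * G` tokens -/
def Good (A : ℝ) (k : ℤ) (G : ℝ) : Prop :=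
  ∃ c h r l : ℕ, 1 ≤ c ∧ (c : ℝ) ≤ A * G ∧ 3 ≤ h ∧ h ≤ 13 ∧ r ≤ 2 ∧ 1 ≤ l ∧ (4 : ℝ) ^ l ≤ 4 * k ∧
    ∀ K : ℕ, ((c : ℝ) * (h : ℝ) ^ r) * (1 + Real.log (Real.log ((c : ℝ) * (h : ℝ) ^ l))) ≤ (K : ℝ) →
      ∃ z : ℤ, 0 < z ∧ z < 4 ^ (8 * K * l) ∧ InL z ∧ InL (k * z)

theorem Good_of_LocBSH {J : Type} [Fintype J] {A G : ℝ} {k : ℤ} {κ : ℝ} {ρ : J → ℝ} {r m : ℕ}
    (hr : 0 < r) (hr2 : r ≤ 2) (hm : 0 < m) (hκ : κ * 4 ^ (r + m) = k) (hκ1 : 1 / 4 ≤ κ)
    (H : LocBSH k κ ρ r) (j0 : J) (h1 : -1 / 2 ≤ ρ j0) (h2 : ρ j0 < 1 / 2)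
    (hJ : (Fintype.card J : ℝ) ≤ A * G) : Good A k G := by
  refine ⟨Fintype.card J, 3, r, r + m, Fintype.card_pos_iff.2 ⟨j0⟩, hJ, le_rfl, by norm_num, hr2,
    by omega, ?_, ?_⟩
  · rw [← hκ]
    have : (0 : ℝ) < 4 ^ (r + m) := by positivity
    nlinarith
  · intro K hK
    push_cast at hK
    exact mult_of_LocBSH hr hm hκ H j0 h1 h2 hK

theorem Good_of_LocW {J : Type} [Fintype J] {h : ℕ} {d : Fin h → ℤ} (hd : ∀ c, Dig (d c))
    {c0 c1 : Fin h} (h0 : d c0 = 0) (hd1 : d c1 = 1) (hh3 : 3 ≤ h) (hh : h ≤ 13)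
    {A G : ℝ} {k : ℤ} {κ : ℝ} {ρ : J → ℝ} {m : ℕ} (hm : 0 < m) (hκ : κ * 4 ^ (1 + m) = k)
    (hκ1 : 1 / 4 ≤ κ)
    (H : LocW k κ ρ d) (j0 : J) (h1 : -1 / 2 ≤ ρ j0) (h2 : ρ j0 < 1 / 2)
    (hJ : (Fintype.card J : ℝ) ≤ A * G) : Good A k G := by
  refine ⟨Fintype.card J, h, 1, 1 + m, Fintype.card_pos_iff.2 ⟨j0⟩, hJ, hh3, hh, by norm_num,
    by omega, ?_, ?_⟩
  · rw [← hκ]
    have : (0 : ℝ) < 4 ^ (1 + m) := by positivity
    nlinarith
  · intro K hK
    exact mult_of_LocW hd h0 hd1 hm hκ H j0 h1 h2 hK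

theorem Good_of_BSHG {J : Type} [Fintype J] {A G : ℝ} {k : ℤ} {κ : ℝ} {q : ℤ → J → ℤ} {r m : ℕ}
    (hr : 0 < r) (hr2 : r ≤ 2) (hm : 0 < m) (hκ : κ * 4 ^ (r + m) = k) (hκ1 : 1 / 4 ≤ κ)
    (hB : C52C.BSH C52C.T4 r m (RbG k q r m)) (j0 : J) (hq : q 0 j0 = 0)
    (hJ : (Fintype.card J : ℝ) ≤ A * G) : Good A k G := by
  refine ⟨Fintype.card J, 3, r, r + m, Fintype.card_pos_iff.2 ⟨j0⟩, hJ, le_rfl, by norm_num, hr2,
    by omega, ?_, ?_⟩
  · rw [← hκ]
    have : (0 : ℝ) < 4 ^ (r + m) := by positivity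
    nlinarith
  · intro K hK
    push_cast at hK
    exact mult_of_BSHG hr hm hB j0 hq hK

/-- the size of the multiplier, counted -/
theorem mult_of_Good (A : ℝ) (hA : 0 < A) : ∃ C : ℝ, 0 < C ∧ ∀ (k : ℤ) (G : ℝ), 3 ≤ k → 1 ≤ G →
    G ≤ 1 + Real.log k → Good A k G →
    ∃ z : ℤ, 0 < z ∧ (z : ℝ) ≤ Real.exp (C * G * Real.log k * Real.log (Real.log k)) ∧
      InL z ∧ InL (k * z) := by
  set B : ℝ := Real.log (2 * A + 9) with hB
  have hB0 : 0 < B := Real.log_pos (by linarith)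
  set M : ℝ := A * 169 with hM
  have hM0 : 0 < M := by positivity
  set D : ℝ := M + 20 * (M * (1 + B) + 1) with hD
  have hD0 : 0 < D := by positivity
  refine ⟨24 * D, by positivity, ?_⟩
  intro k G hk hG1 hG2 hGood
  obtain ⟨c, h, r, l, hc1, hcA, hh3, hh13, hr2, hl1, hl, hmul⟩ := hGood
  have hk3 : (3 : ℝ) ≤ k := by exact_mod_cast hk
  have hk0 : (0 : ℝ) < k := by linarith
  have hc1r : (1 : ℝ) ≤ c := by exact_mod_cast hc1
  have hh3r : (3 : ℝ) ≤ h := by exact_mod_cast hh3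
  have hh13r : (h : ℝ) ≤ 13 := by exact_mod_cast hh13
  have hlr : (1 : ℝ) ≤ l := by exact_mod_cast hl1
  set LL := Real.log (Real.log k) with hLL
  have hLLp : (0.08 : ℝ) < LL := loglog_pos hk3
  have hlogk : (1.09 : ℝ) < Real.log k :=
    log_three_gt.trans_le (Real.log_le_log (by norm_num) hk3)
  have hlog4 : (1 : ℝ) < Real.log 4 := by
    have h5 : Real.log 3 < Real.log 4 := Real.log_lt_log (by norm_num) (by norm_num)
    linarith [log_three_gt]
  -- `l log 4 ≤ 3 log k`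
  have hl4 : (l : ℝ) * Real.log 4 ≤ 3 * Real.log k := by
    have h3 : Real.log ((4 : ℝ) ^ l) ≤ Real.log (4 * k) := Real.log_le_log (by positivity) hl
    rw [Real.log_pow] at h3
    have h4 : Real.log (4 * k) ≤ 3 * Real.log k := by
      have h5 : (4 : ℝ) * k ≤ (k : ℝ) ^ 3 := by nlinarith [mul_pos hk0 hk0]
      have h6 := Real.log_le_log (by positivity) h5
      rw [Real.log_pow] at h6
      push_cast at h6
      exact h6
    linarith
  -- `log log (c h ^ l) ≤ B + LL`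
  have hMt : Real.log (Real.log ((c : ℝ) * (h : ℝ) ^ l)) ≤ B + LL := by
    have h13 : Real.log h ≤ 3 * Real.log 4 := by
      have h6 := Real.log_le_log (show (0 : ℝ) < h by linarith)
        (show (h : ℝ) ≤ 4 ^ 3 by norm_num; linarith)
      rw [Real.log_pow] at h6
      push_cast at h6
      exact h6
    have h3 : Real.log ((c : ℝ) * (h : ℝ) ^ l) ≤ (2 * A + 9) * Real.log k := by
      rw [Real.log_mul (by positivity) (by positivity), Real.log_pow]
      have h4 : Real.log (c : ℝ) ≤ 2 * A * Real.log k := by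
        have h5 := Real.log_le_sub_one_of_pos (show (0 : ℝ) < c by linarith)
        have h6 : A * G ≤ A * (2 * Real.log k) := mul_le_mul_of_nonneg_left (by linarith) hA.le
        nlinarith
      have h8 : (l : ℝ) * Real.log h ≤ 9 * Real.log k := by
        have h9 : (l : ℝ) * Real.log h ≤ l * (3 * Real.log 4) :=
          mul_le_mul_of_nonneg_left h13 (by positivity)
        nlinarith
      nlinarith
    have hpos : 0 < Real.log ((c : ℝ) * (h : ℝ) ^ l) := by
      apply Real.log_pos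
      have h4 : (h : ℝ) ^ 1 ≤ (h : ℝ) ^ l := pow_le_pow_right₀ (by linarith) hl1
      nlinarith
    have h6 := Real.log_le_log hpos h3
    have h7 : Real.log ((2 * A + 9) * Real.log k) = B + LL :=
      Real.log_mul (by positivity) (by positivity)
    linarith
  set K : ℕ := ⌈M * G * (1 + B + LL)⌉₊ with hK
  have hKge : M * G * (1 + B + LL) ≤ K := Nat.le_ceil _
  have hKle : (K : ℝ) ≤ M * G * (1 + B + LL) + 1 := by
    have := Nat.ceil_lt_add_one (show 0 ≤ M * G * (1 + B + LL) by positivity)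
    exact this.le
  obtain ⟨z, hz0, hz1, hz2, hz3⟩ := hmul K (by
    refine le_trans ?_ hKge
    have h3 : (h : ℝ) ^ r ≤ 169 := by
      calc (h : ℝ) ^ r ≤ h ^ 2 := pow_le_pow_right₀ (by linarith) hr2
        _ ≤ 13 ^ 2 := pow_le_pow_left₀ (by linarith) hh13r 2
        _ = 169 := by norm_num
    have h4 : (c : ℝ) * (h : ℝ) ^ r ≤ M * G := by
      calc (c : ℝ) * (h : ℝ) ^ r ≤ (A * G) * 169 :=
            mul_le_mul hcA h3 (by positivity) (by positivity)
        _ = M * G := by rw [hM]; ring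
    have h5 : 1 + Real.log (Real.log ((c : ℝ) * (h : ℝ) ^ l)) ≤ 1 + B + LL := by linarith
    calc _ ≤ ((c : ℝ) * (h : ℝ) ^ r) * (1 + B + LL) :=
          mul_le_mul_of_nonneg_left h5 (by positivity)
      _ ≤ M * G * (1 + B + LL) := mul_le_mul_of_nonneg_right h4 (by positivity))
  refine ⟨z, hz0, ?_, hz2, hz3⟩
  have hz1' : (z : ℝ) ≤ (4 : ℝ) ^ (8 * K * l) := by
    have : (z : ℝ) < ((4 ^ (8 * K * l) : ℤ) : ℝ) := by exact_mod_cast hz1
    push_cast at this
    exact this.le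
  refine hz1'.trans ?_
  rw [← Real.exp_log (show (0 : ℝ) < 4 ^ (8 * K * l) by positivity)]
  apply Real.exp_le_exp.2
  rw [Real.log_pow]
  push_cast
  have h3 : (8 * (K : ℝ) * l) * Real.log 4 ≤ 24 * K * Real.log k := by
    have : (0 : ℝ) ≤ K := Nat.cast_nonneg _
    nlinarith
  have h4 : (K : ℝ) ≤ D * G * LL := by
    have h5 : M * G * (1 + B) + 1 ≤ (M * (1 + B) + 1) * G := by nlinarith
    have h6 : (M * (1 + B) + 1) * G ≤ 20 * (M * (1 + B) + 1) * G * LL := by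
      have h7 : 0 ≤ (M * (1 + B) + 1) * G := by positivity
      nlinarith
    calc (K : ℝ) ≤ M * G * (1 + B + LL) + 1 := hKle
      _ = M * G * LL + (M * G * (1 + B) + 1) := by ring
      _ ≤ M * G * LL + 20 * (M * (1 + B) + 1) * G * LL := by linarith
      _ = D * G * LL := by rw [hD]; ring
  calc (8 * (K : ℝ) * l) * Real.log 4 ≤ 24 * K * Real.log k := h3
    _ ≤ 24 * (D * G * LL) * Real.log k := by
        apply mul_le_mul_of_nonneg_right _ (by linarith)
        linarith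
    _ = 24 * D * G * Real.log k * LL := by ring

/-- the finitely many small `k` -/
theorem mult_small (N : ℤ) : ∃ C : ℝ, 0 < C ∧ ∀ (k : ℤ) (G : ℝ), Odd k → 3 ≤ k → k ≤ N → 1 ≤ G →
    ∃ z : ℤ, 0 < z ∧ (z : ℝ) ≤ Real.exp (C * G * Real.log k * Real.log (Real.log k)) ∧
      InL z ∧ InL (k * z) := by
  set B : ℝ := Real.sqrt N * Real.log 16 with hB
  have h16 : 0 < Real.log 16 := Real.log_pos (by norm_num)
  have hB0 : 0 ≤ B := by positivity
  refine ⟨20 * B + 1, by positivity, ?_⟩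
  intro k G hodd hk hkN hG
  have hk3 : (3 : ℝ) ≤ k := by exact_mod_cast hk
  have hk0 : (0 : ℝ) < k := by linarith
  obtain ⟨z, ⟨hz0, hz1, hz2⟩, hz⟩ := bound_real k hodd (by rw [abs_of_nonneg (by omega)]; exact hk)
  refine ⟨z, hz0, ?_, hz1, hz2⟩
  refine hz.le.trans ?_
  have hlog := log_three_gt.trans_le (Real.log_le_log (by norm_num) hk3)
  have hLL := loglog_pos hk3
  rw [Real.rpow_def_of_pos (by norm_num)]
  apply Real.exp_le_exp.2
  rw [abs_of_pos hk0]
  set LL := Real.log (Real.log k) with hLLd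
  have h1 : Real.sqrt k ≤ Real.sqrt N := by
    apply Real.sqrt_le_sqrt
    exact_mod_cast hkN
  have h2 : Real.log 16 * Real.sqrt k ≤ B := by
    rw [hB]
    nlinarith
  refine h2.trans ?_
  have h3 : B ≤ (20 * B + 1) * LL := by nlinarith
  have h5 : 0 ≤ (20 * B + 1) * LL := by positivity
  have h4 : (20 * B + 1) * LL ≤ Real.log k * ((20 * B + 1) * LL) := by nlinarith
  have h6 : Real.log k * ((20 * B + 1) * LL) ≤ G * (Real.log k * ((20 * B + 1) * LL)) := by
    have : 0 ≤ Real.log k * ((20 * B + 1) * LL) := by positivity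
    nlinarith
  calc B ≤ G * (Real.log k * ((20 * B + 1) * LL)) := by linarith
    _ = (20 * B + 1) * G * Real.log k * LL := by ring

theorem Good.mono {A A' : ℝ} {k : ℤ} {G G' : ℝ} (h : Good A k G) (hle : A * G ≤ A' * G') :
    Good A' k G' := by
  obtain ⟨c, hh, r, l, h1, h2, h3⟩ := h
  exact ⟨c, hh, r, l, h1, h2.trans hle, h3⟩

/-- the scale `4 ^ l` with `0.825 ≤ k / 4 ^ l < 3.3` -/
theorem exists_scale {k : ℤ} (hk : 1 ≤ k) :
    ∃ l : ℕ, (0.825 : ℝ) ≤ k / 4 ^ l ∧ (k : ℝ) / 4 ^ l < 3.3 := by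
  obtain ⟨K, rfl⟩ := Int.eq_ofNat_of_zero_le (by omega : 0 ≤ k)
  have hK : 1 ≤ K := by exact_mod_cast hk
  set n := 40 * K / 33 with hn
  have hn1 : n ≠ 0 := by omega
  refine ⟨Nat.log 4 n, ?_, ?_⟩
  · have h1 : 4 ^ Nat.log 4 n ≤ n := Nat.pow_log_le_self 4 hn1
    have h2 : 33 * 4 ^ Nat.log 4 n ≤ 40 * K := by omega
    have h3 : (33 : ℝ) * 4 ^ Nat.log 4 n ≤ 40 * K := by exact_mod_cast h2
    rw [le_div_iff₀ (by positivity)]
    push_cast
    norm_num at h3 ⊢
    linarith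
  · have h1 : n < 4 ^ (Nat.log 4 n + 1) := Nat.lt_pow_succ_log_self (by norm_num) _
    have h2 : 40 * K < 33 * 4 ^ (Nat.log 4 n + 1) := by omega
    have h3 : (40 : ℝ) * K < 33 * 4 ^ (Nat.log 4 n + 1) := by exact_mod_cast h2
    rw [div_lt_iff₀ (by positivity)]
    rw [pow_succ] at h3
    push_cast
    norm_num at h3 ⊢
    linarith

/-- **Final assembly.**  If `Good` holds at every large odd `k`, with
`1 + |log |κ - 2||` times `A` tokens, `κ = k / 4 ^ l` in `[0.825, 3.3)`, then every odd `k`,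
`|k| ≥ 3`, has a multiplier `≤ exp (C G log |k| log log |k|)`, where `G ≥ 1` is such that `|k|` is
at relative distance at least `exp (-G)` from every `2 * 4 ^ l`. -/
theorem final_of_Good (A : ℝ) (hA : 0 < A) (N0 : ℤ)
    (H : ∀ (k : ℤ) (l : ℕ), Odd k → N0 < k → (0.825 : ℝ) ≤ k / 4 ^ l → (k : ℝ) / 4 ^ l < 3.3 →
      Good A k (1 + abs (Real.log |(k : ℝ) / 4 ^ l - 2|))) :
    ∃ C : ℝ, 0 < C ∧ ∀ (k : ℤ) (G : ℝ), Odd k → 3 ≤ |k| → 1 ≤ G →
      (∀ l : ℕ, |(k : ℝ)| * Real.exp (-G) ≤ abs (|(k : ℝ)| - 2 * 4 ^ l)) →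
      ∃ m : ℤ, IsMultiplier k m ∧
        (m : ℝ) ≤ Real.exp (C * G * Real.log |(k : ℝ)| * Real.log (Real.log |(k : ℝ)|)) := by
  obtain ⟨C₁, hC₁, h₁⟩ := mult_of_Good (A * 3) (by positivity)
  obtain ⟨C₂, hC₂, h₂⟩ := mult_small (max N0 3)
  refine ⟨max C₁ C₂, lt_max_of_lt_left hC₁, ?_⟩
  have key : ∀ (k : ℤ) (G : ℝ), Odd k → 3 ≤ k → 1 ≤ G →
      (∀ l : ℕ, (k : ℝ) * Real.exp (-G) ≤ |(k : ℝ) - 2 * 4 ^ l|) → ∃ z : ℤ, 0 < z ∧
      (z : ℝ) ≤ Real.exp (max C₁ C₂ * G * Real.log k * Real.log (Real.log k)) ∧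
        InL z ∧ InL (k * z) := by
    intro k G hodd hk hG hd
    have hk3 : (3 : ℝ) ≤ k := by exact_mod_cast hk
    have hk0 : (0 : ℝ) < k := by linarith
    have hLL := loglog_pos hk3
    have hlog := log_three_gt.trans_le (Real.log_le_log (by norm_num) hk3)
    have hmono : ∀ C G' : ℝ, 0 < C → C ≤ max C₁ C₂ → 0 ≤ G' → G' ≤ G →
        Real.exp (C * G' * Real.log k * Real.log (Real.log k)) ≤
          Real.exp (max C₁ C₂ * G * Real.log k * Real.log (Real.log k)) := by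
      intro C G' hC0 hC hG'0 hG'
      apply Real.exp_le_exp.2
      apply mul_le_mul_of_nonneg_right _ (by linarith)
      apply mul_le_mul_of_nonneg_right _ (by linarith)
      exact mul_le_mul hC hG' hG'0 (hC0.le.trans hC)
    by_cases hsmall : k ≤ max N0 3
    · obtain ⟨z, hz0, hz1, hz2⟩ := h₂ k G hodd hk hsmall hG
      exact ⟨z, hz0, hz1.trans (hmono _ G hC₂ (le_max_right _ _) (by linarith) le_rfl), hz2⟩
    · push Not at hsmall
      have hN0 : N0 < k := lt_of_le_of_lt (le_max_left _ _) hsmall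
      obtain ⟨l, hl1, hl2⟩ := exists_scale (show 1 ≤ k by omega)
      set G' := min G (1 + Real.log k) with hG'
      have hG'1 : 1 ≤ G' := le_min hG (by linarith)
      have hG'2 : G' ≤ 1 + Real.log k := min_le_right _ _
      have hd' : (k : ℝ) * Real.exp (-G') ≤ |(k : ℝ) - 2 * 4 ^ l| := by
        rcases min_choice G (1 + Real.log k) with h | h
        · rw [hG', h]; exact hd l
        · rw [hG', h, neg_add, Real.exp_add, Real.exp_neg (Real.log k), Real.exp_log hk0]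
          have h5 : (k : ℝ) * (Real.exp (-1) * (k : ℝ)⁻¹) = Real.exp (-1) := by
            field_simp
          rw [h5]
          have h6 : Real.exp (-1) ≤ 1 := by
            rw [Real.exp_le_one_iff]; norm_num
          have h7 : k - 2 * 4 ^ l ≠ 0 := by
            intro h8
            have h9 : k = 2 * 4 ^ l := by linarith
            rw [h9] at hodd
            exact (Int.not_odd_iff_even.2 ⟨4 ^ l, by ring⟩) hodd
          have h8 : (1 : ℤ) ≤ |k - 2 * 4 ^ l| := Int.one_le_abs h7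
          have h9 : (1 : ℝ) ≤ |(k : ℝ) - 2 * 4 ^ l| := by exact_mod_cast h8
          linarith
      set κ : ℝ := (k : ℝ) / 4 ^ l with hκ
      have h4l : (0 : ℝ) < 4 ^ l := by positivity
      have hkκ : (k : ℝ) = κ * 4 ^ l := by rw [hκ, div_mul_cancel₀]; exact h4l.ne'
      have h5 : κ * Real.exp (-G') ≤ |κ - 2| := by
        rw [hkκ, show κ * 4 ^ l - 2 * 4 ^ l = (κ - 2) * 4 ^ l by ring, abs_mul,
          abs_of_pos h4l] at hd'
        have h6 : κ * Real.exp (-G') * 4 ^ l ≤ |κ - 2| * 4 ^ l := by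
          calc _ = κ * 4 ^ l * Real.exp (-G') := by ring
            _ ≤ _ := hd'
        exact le_of_mul_le_mul_right h6 h4l
      have h6 : Real.exp (-G' - 1) ≤ |κ - 2| := by
        have h7 : Real.exp (-1) ≤ κ := by
          have h8 : Real.exp (-1) < 0.3678794412 := Real.exp_neg_one_lt_d9
          linarith
        rw [sub_eq_add_neg, Real.exp_add]
        calc Real.exp (-G') * Real.exp (-1) ≤ Real.exp (-G') * κ :=
              mul_le_mul_of_nonneg_left h7 (Real.exp_pos _).le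
          _ = κ * Real.exp (-G') := by ring
          _ ≤ _ := h5
      have hpos : 0 < |κ - 2| := (Real.exp_pos _).trans_le h6
      have h7 : -G' - 1 ≤ Real.log |κ - 2| := (Real.le_log_iff_exp_le hpos).2 h6
      have h8 : Real.log |κ - 2| ≤ 1 := by
        have h9 : |κ - 2| ≤ 2 := by rw [abs_le]; constructor <;> linarith
        have h10 := Real.log_le_sub_one_of_pos hpos
        linarith
      have h9 : 1 + abs (Real.log |κ - 2|) ≤ 3 * G' := by
        have h10 : abs (Real.log |κ - 2|) ≤ G' + 1 := by rw [abs_le]; constructor <;> linarith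
        linarith
      have hgood := (H k l hodd hN0 hl1 hl2).mono (A' := A * 3) (G' := G')
        (by rw [mul_assoc]; exact mul_le_mul_of_nonneg_left h9 hA.le)
      obtain ⟨z, hz0, hz1, hz2⟩ := h₁ k G' hk hG'1 hG'2 hgood
      exact ⟨z, hz0, hz1.trans (hmono _ G' hC₁ (le_max_left _ _) (by linarith) (min_le_left _ _)),
        hz2⟩
  intro k G hodd hk hG hd
  have hodd' : Odd |k| := by
    rcases abs_choice k with h | h <;> rw [h]
    · exact hodd
    · exact hodd.neg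
  obtain ⟨z, hz0, hz1, hz2, hz3⟩ := key |k| G hodd' hk hG (by
    intro l
    rw [Int.cast_abs]
    exact hd l)
  refine ⟨z, ⟨hz0, hz2, ?_⟩, ?_⟩
  · rcases abs_choice k with h | h
    · rw [h] at hz3; exact hz3
    · rw [h] at hz3
      have := hz3.neg
      rw [show -(-k * z) = k * z by ring] at this
      exact this
  · rw [Int.cast_abs] at hz1
    exact hz1

/-- the same for all odd `k` without a distance parameter -/
theorem final_all {C : ℝ}
    (H : ∀ (k : ℤ) (G : ℝ), Odd k → 3 ≤ |k| → 1 ≤ G →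
      (∀ l : ℕ, |(k : ℝ)| * Real.exp (-G) ≤ abs (|(k : ℝ)| - 2 * 4 ^ l)) →
      ∃ m : ℤ, IsMultiplier k m ∧
        (m : ℝ) ≤ Real.exp (C * G * Real.log |(k : ℝ)| * Real.log (Real.log |(k : ℝ)|)))
    (k : ℤ) (hodd : Odd k) (hk : 3 ≤ |k|) :
    ∃ m : ℤ, IsMultiplier k m ∧
      (m : ℝ) ≤ Real.exp (C * Real.log |(k : ℝ)| ^ 2 * Real.log (Real.log |(k : ℝ)|)) := by
  have hk3 : (3 : ℝ) ≤ |(k : ℝ)| := by
    rw [← Int.cast_abs]; exact_mod_cast hk
  have hlog := log_three_gt.trans_le (Real.log_le_log (by norm_num) hk3)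
  obtain ⟨m, hm, hm2⟩ := H k (Real.log |(k : ℝ)|) hodd hk (by linarith) (by
    intro l
    rw [Real.exp_neg, Real.exp_log (by linarith), mul_inv_cancel₀ (by linarith)]
    have hodd' : Odd |k| := by
      rcases abs_choice k with h | h <;> rw [h]
      · exact hodd
      · exact hodd.neg
    have h7 : |k| - 2 * 4 ^ l ≠ 0 := by
      intro h8
      have h9 : |k| = 2 * 4 ^ l := by linarith
      rw [h9] at hodd'
      exact (Int.not_odd_iff_even.2 ⟨4 ^ l, by ring⟩) hodd'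
    have h8 : (1 : ℤ) ≤ abs (|k| - 2 * 4 ^ l) := Int.one_le_abs h7
    rw [← Int.cast_abs]
    exact_mod_cast h8)
  refine ⟨m, hm, hm2.trans (le_of_eq ?_)⟩
  ring_nf

end Pool.Agent.Lib.MP_c52340_nt.Tok
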