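import Mathlib
import Pool.Agent.Lib.MP_c52340_nt.LawM0
import Pool.Agent.Lib.MP_c52340_nt.TokF

/-!
# The one-digit law for `κ` just below `2`: the strict Hall property
-/

set_option autoImplicit false

namespace C52M

open Finset C52C Pool.Agent.Lib.MP_c52340_nt Pool.Agent.Lib.MP_c52340_nt.Tok
open scoped Classical

/-! ### from cuts to the Hall property over `T4 1` -/

theorem T4_one : T4 1 = {0, 1, -1} := by decide

theorem hall_fin {n M : ℕ} (hM : M = 3 * n) (s t : ℤ × Fin n → ℤ) (FS FD : ℤ → ℕ)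
    (hFS : ∀ q, ∑ c ∈ T4 1, (univ.filter (fun j : Fin n => s (c, j) ≤ q)).card = FS q)
    (hFD : ∀ q, ∑ c ∈ T4 1, (univ.filter (fun j : Fin n => t (c, j) ≤ q)).card = FD q)
    (hc : Cut M FS FD) (D N : Finset (ℤ × Fin n)) (hD : D ⊆ T4 1 ×ˢ (univ : Finset (Fin n)))
    (hne : D.Nonempty) (hnf : D ≠ T4 1 ×ˢ (univ : Finset (Fin n)))
    (hNs : N ⊆ T4 1 ×ˢ (univ : Finset (Fin n)))
    (hN : ∀ b ∈ T4 1 ×ˢ (univ : Finset (Fin n)), (∃ a ∈ D, |t b - s a| ≤ 1) → b ∈ N) :
    D.card + 1 ≤ N.card := by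
  have hcard : Fintype.card (T4 1 ×ˢ (univ : Finset (Fin n)) : Finset (ℤ × Fin n)) = M := by
    rw [Fintype.card_coe, card_product, T4_card, card_univ, Fintype.card_fin, hM]
    norm_num
  have hcount : ∀ (f : ℤ × Fin n → ℤ) (q : ℤ),
      (univ.filter (fun a : (T4 1 ×ˢ (univ : Finset (Fin n)) : Finset (ℤ × Fin n)) =>
        f a.1 ≤ q)).card = ∑ c ∈ T4 1, (univ.filter (fun j : Fin n => f (c, j) ≤ q)).card := by
    intro f q
    have h1 : (univ.filter (fun a : (T4 1 ×ˢ (univ : Finset (Fin n)) : Finset (ℤ × Fin n)) =>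
        f a.1 ≤ q)).card = ((T4 1 ×ˢ (univ : Finset (Fin n))).filter (fun a => f a ≤ q)).card := by
      rw [← card_map (Function.Embedding.subtype _)]
      congr 1
      ext a
      simp only [mem_map, mem_filter, mem_univ, true_and, Function.Embedding.coe_subtype]
      constructor
      · rintro ⟨b, hb, rfl⟩
        exact ⟨b.2, hb⟩
      · rintro ⟨h, h'⟩
        exact ⟨⟨a, h⟩, h', rfl⟩
    rw [h1, card_filter, sum_product]
    apply sum_congr rfl
    intro c _
    rw [card_filter]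
  have hD1 : (D.subtype (fun a => a ∈ T4 1 ×ˢ (univ : Finset (Fin n)))).card = D.card := by
    rw [card_subtype, filter_true_of_mem (fun a ha => hD ha)]
  have hN1 : (N.subtype (fun a => a ∈ T4 1 ×ˢ (univ : Finset (Fin n)))).card = N.card := by
    rw [card_subtype, filter_true_of_mem (fun a ha => hNs ha)]
  rw [← hD1, ← hN1]
  refine LocA.hall_of_cuts hcard hcard (fun a => s a.1) (fun b => t b.1) FS FD
    (fun q => (hcount s q).trans (hFS q)) (fun q => (hcount t q).trans (hFD q))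
    (fun q => (hc q).1) (fun q => (hc q).2.1) (fun q => (hc q).2.2)
    (D.subtype (fun a => a ∈ T4 1 ×ˢ (univ : Finset (Fin n)))) ?_ ?_
    (fun a b => |t b.1 - s a.1| ≤ 1) (fun a b h => h) _ ?_
  · obtain ⟨a, ha⟩ := hne
    exact ⟨⟨a, hD ha⟩, by rw [mem_subtype]; exact ha⟩
  · intro h
    apply hnf
    apply Subset.antisymm hD
    intro a ha
    have : (⟨a, ha⟩ : {x // x ∈ T4 1 ×ˢ (univ : Finset (Fin n))}) ∈
        D.subtype (fun a => a ∈ T4 1 ×ˢ (univ : Finset (Fin n))) := by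
      rw [h]; exact mem_univ _
    rw [mem_subtype] at this
    exact this
  · rintro ⟨b, hb⟩ ⟨a, ha, h⟩
    rw [mem_subtype] at ha ⊢
    exact hN b hb ⟨a.1, ha, h⟩

/-! ### the states -/

/-- the value of the token `(x, j)` -/
noncomputable def qq (κ e : ℝ) (K : ℕ) (x : ℤ) (j : Fin (2 * (K + 3))) : ℤ :=
  ⌈κ * x⌉ - if j.1 < HH e K (⌈κ * x⌉ - κ * x) then 1 else 0

theorem cnt_qq {κ e : ℝ} {K : ℕ} {x N : ℤ} {u : ℝ} (hx : κ * x = N - u) (h0 : 0 ≤ u) (h1 : u < 1)
    (δ c q : ℤ) (hδ : 0 < δ) :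
    (univ.filter (fun j : Fin (2 * (K + 3)) => δ * qq κ e K x j - c ≤ q)).card =
      cf (2 * (K + 3)) (HH e K u) (δ * N - c) q δ := by
  have hN : ⌈κ * x⌉ = N := by
    rw [Int.ceil_eq_iff]
    constructor <;> linarith
  have hu : (N : ℝ) - κ * x = u := by rw [hx]; ring
  have hq : ∀ j : Fin (2 * (K + 3)), qq κ e K x j = N - if j.1 < HH e K u then 1 else 0 := by
    intro j
    unfold qq
    rw [hN, hu]
  unfold cf
  by_cases hA : δ * N - c ≤ q
  · rw [if_pos hA]
    rw [filter_true_of_mem, card_univ, Fintype.card_fin]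
    intro j _
    rw [hq j]
    split_ifs
    · have : δ * (N - 1) = δ * N - δ := by ring
      omega
    · have : δ * (N - 0) = δ * N := by ring
      omega
  · rw [if_neg hA]
    by_cases hB : δ * N - c - δ ≤ q
    · rw [if_pos hB]
      have h2 : (univ.filter (fun j : Fin (2 * (K + 3)) => δ * qq κ e K x j - c ≤ q)) =
          univ.filter (fun j : Fin (2 * (K + 3)) => j.1 < HH e K u) := by
        apply filter_congr
        intro j _
        rw [hq j]
        split_ifs with h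
        · have : δ * (N - 1) = δ * N - δ := by ring
          simp only [h, iff_true]
          omega
        · have : δ * (N - 0) = δ * N := by ring
          simp only [h, iff_false]
          omega
      rw [h2, Fin.card_filter_val_lt]
      exact min_eq_right (HH_le e K u)
    · rw [if_neg hB, card_eq_zero, filter_eq_empty_iff]
      intro j _
      rw [hq j]
      split_ifs
      · have : δ * (N - 1) = δ * N - δ := by ring
        omega
      · have : δ * (N - 0) = δ * N := by ring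
        omega

theorem cf_shift (J h : ℕ) (N q δ n : ℤ) : cf J h (n + N) q δ = cf J h N (q - n) δ := by
  unfold cf
  have h1 : (n + N ≤ q) ↔ (N ≤ q - n) := by omega
  have h2 : (n + N - δ ≤ q) ↔ (N - δ ≤ q - n) := by omega
  simp only [h1, h2]

theorem Cut.shift {M : ℕ} {FS FD : ℤ → ℕ} (h : Cut M FS FD) (n : ℤ) :
    Cut M (fun q => FS (q - n)) (fun q => FD (q - n)) := by
  intro q
  have := h (q - n)
  rw [show q - n + 1 = q + 1 - n by ring, show q - n - 1 = q - 1 - n by ring] at this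
  exact this


theorem sum_T4_one (g : ℤ → ℕ) : ∑ c ∈ T4 1, g c = g 0 + g 1 + g (-1) := by
  rw [T4_one, sum_insert (by decide), sum_insert (by decide), sum_singleton]
  ring

/-- the demands -/
theorem demands {e κ : ℝ} {K m : ℕ} (hp : Par e K) {k : ℤ} (hk : k % 2 = 1)
    (hkm : κ * 4 ^ (m + 1) = k) (X n0 : ℤ) (φ : ℝ) (ha : 4 * (κ * X) = n0 - φ) (h0 : 0 ≤ φ)
    (h1 : φ < 1) :
    ∃ i1 i2 i3 : ℤ, ((i1 = 0 ∧ i2 = 1 ∧ i3 = 2) ∨ (i1 = 0 ∧ i2 = 1 ∧ i3 = 3) ∨
      (i1 = 0 ∧ i2 = 2 ∧ i3 = 3) ∨ (i1 = 1 ∧ i2 = 2 ∧ i3 = 3)) ∧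
      ∀ q : ℤ, ∑ c ∈ T4 1, (univ.filter (fun j : Fin (2 * (K + 3)) =>
        4 * qq κ e K (X + 4 ^ m * c) j - k * c ≤ q)).card =
        FDt (2 * (K + 3)) (hh e K (φ / 4)) (hh e K (1 / 4 + φ / 4))
          (hh e K (1 / 4 + (1 / 4 - φ / 4))) (hh e K (1 / 4 - φ / 4)) i1 i2 i3 (q - n0) := by
  set J := 2 * (K + 3) with hJ
  set A : ℤ → ℕ := AA J (hh e K (φ / 4)) (hh e K (1 / 4 + φ / 4))
          (hh e K (1 / 4 + (1 / 4 - φ / 4))) (hh e K (1 / 4 - φ / 4)) with hA
  have hkm' : κ * 4 ^ m = k / 4 := by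
    rw [pow_succ] at hkm
    linarith
  have hAv : ∀ i : ℤ, 0 ≤ i → i < 4 → HH e K ((i + φ) / 4) = A i := by
    intro i hi0 hi4
    rw [hA]
    unfold AA
    interval_cases i
    · rw [if_pos rfl, ← HH_lo e K (by linarith)]
      congr 1
      push_cast
      ring
    · rw [if_neg (by norm_num), if_pos rfl, ← HH_lo e K (by linarith)]
      congr 1
      push_cast
      ring
    · rw [if_neg (by norm_num), if_neg (by norm_num), if_pos rfl, ← HH_lo e K (by linarith)]
      have h2 := HH_symm hp ((((2 : ℤ) : ℝ) + φ) / 4)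
      rw [show 1 - (((2 : ℤ) : ℝ) + φ) / 4 = 1 / 4 + (1 / 4 - φ / 4) by push_cast; ring] at h2
      omega
    · rw [if_neg (by norm_num), if_neg (by norm_num), if_neg (by norm_num),
        ← HH_lo e K (by linarith)]
      have h2 := HH_symm hp ((((3 : ℤ) : ℝ) + φ) / 4)
      rw [show 1 - (((3 : ℤ) : ℝ) + φ) / 4 = 1 / 4 - φ / 4 by push_cast; ring] at h2
      omega
  have hE : ∀ (E i q : ℤ), 0 ≤ i → i < 4 → (n0 + k * E + i) % 4 = 0 →
      (univ.filter (fun j : Fin (2 * (K + 3)) =>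
        4 * qq κ e K (X + 4 ^ m * E) j - k * E ≤ q)).card = cf J (A i) i (q - n0) 4 := by
    intro E i q hi0 hi4 hi
    obtain ⟨N, hN⟩ : ∃ N : ℤ, n0 + k * E + i = 4 * N := ⟨(n0 + k * E + i) / 4, by omega⟩
    have hN' : (n0 : ℝ) + k * E + i = 4 * N := by exact_mod_cast hN
    have hi0' : (0 : ℝ) ≤ i := by exact_mod_cast hi0
    have hi3' : (i : ℝ) ≤ 3 := by exact_mod_cast (by omega : i ≤ 3)
    have hx : κ * ((X + 4 ^ m * E : ℤ) : ℝ) = N - (i + φ) / 4 := by
      push_cast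
      have : κ * (X + 4 ^ m * E) = κ * X + κ * 4 ^ m * E := by ring
      rw [this, hkm']
      linarith
    rw [cnt_qq hx (by linarith) (by linarith) 4 (k * E) q (by norm_num),
      show 4 * N - k * E = n0 + i by linarith, cf_shift, hAv i hi0 hi4]
  have hsum : ∀ i0 i1 i2 : ℤ, 0 ≤ i0 → i0 < 4 → 0 ≤ i1 → i1 < 4 → 0 ≤ i2 → i2 < 4 →
      (n0 + i0) % 4 = 0 → (n0 + k + i1) % 4 = 0 → (n0 - k + i2) % 4 = 0 →
      ∀ q : ℤ, ∑ c ∈ T4 1, (univ.filter (fun j : Fin (2 * (K + 3)) =>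
        4 * qq κ e K (X + 4 ^ m * c) j - k * c ≤ q)).card =
        cf J (A i0) i0 (q - n0) 4 + cf J (A i1) i1 (q - n0) 4 + cf J (A i2) i2 (q - n0) 4 := by
    intro i0 i1 i2 a1 a2 a3 a4 a5 a6 b0 b1 b2 q
    rw [sum_T4_one, hE 0 i0 q a1 a2 (by rw [mul_zero, add_zero]; exact b0),
      hE 1 i1 q a3 a4 (by rw [mul_one]; exact b1),
      hE (-1) i2 q a5 a6 (by rw [mul_neg_one]; exact b2)]
  have hn : n0 % 4 = 0 ∨ n0 % 4 = 1 ∨ n0 % 4 = 2 ∨ n0 % 4 = 3 := by omega
  have hk4 : k % 4 = 1 ∨ k % 4 = 3 := by omega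
  unfold FDt
  rcases hn with hn | hn | hn | hn
  · refine ⟨0, 1, 3, Or.inr (Or.inl ⟨rfl, rfl, rfl⟩), ?_⟩
    intro q
    rcases hk4 with hk4 | hk4
    · rw [hsum 0 3 1 (by norm_num) (by norm_num) (by norm_num) (by norm_num) (by norm_num)
        (by norm_num) (by omega) (by omega) (by omega)]
      ring
    · rw [hsum 0 1 3 (by norm_num) (by norm_num) (by norm_num) (by norm_num) (by norm_num)
        (by norm_num) (by omega) (by omega) (by omega)]
  · refine ⟨0, 2, 3, Or.inr (Or.inr (Or.inl ⟨rfl, rfl, rfl⟩)), ?_⟩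
    intro q
    rcases hk4 with hk4 | hk4
    · rw [hsum 3 2 0 (by norm_num) (by norm_num) (by norm_num) (by norm_num) (by norm_num)
        (by norm_num) (by omega) (by omega) (by omega)]
      ring
    · rw [hsum 3 0 2 (by norm_num) (by norm_num) (by norm_num) (by norm_num) (by norm_num)
        (by norm_num) (by omega) (by omega) (by omega)]
      ring
  · refine ⟨1, 2, 3, Or.inr (Or.inr (Or.inr ⟨rfl, rfl, rfl⟩)), ?_⟩
    intro q
    rcases hk4 with hk4 | hk4
    · rw [hsum 2 1 3 (by norm_num) (by norm_num) (by norm_num) (by norm_num) (by norm_num)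
        (by norm_num) (by omega) (by omega) (by omega)]
      ring
    · rw [hsum 2 3 1 (by norm_num) (by norm_num) (by norm_num) (by norm_num) (by norm_num)
        (by norm_num) (by omega) (by omega) (by omega)]
      ring
  · refine ⟨0, 1, 2, Or.inl ⟨rfl, rfl, rfl⟩, ?_⟩
    intro q
    rcases hk4 with hk4 | hk4
    · rw [hsum 1 0 2 (by norm_num) (by norm_num) (by norm_num) (by norm_num) (by norm_num)
        (by norm_num) (by omega) (by omega) (by omega)]
      ring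
    · rw [hsum 1 2 0 (by norm_num) (by norm_num) (by norm_num) (by norm_num) (by norm_num)
        (by norm_num) (by omega) (by omega) (by omega)]
      ring

/-- the supplies -/
theorem supplies {e κ : ℝ} {K : ℕ} (X n0 n1 n2 : ℤ) (φ u1 u2 : ℝ)
    (ha : 4 * (κ * X) = n0 - φ) (h0 : 0 ≤ φ) (h1 : φ < 1)
    (hu1 : n0 - φ + κ = n0 + n1 - u1) (h10 : 0 ≤ u1) (h11 : u1 < 1)
    (hu2 : n0 - φ - κ = n0 + n2 - u2) (h20 : 0 ≤ u2) (h21 : u2 < 1) (q : ℤ) :
    ∑ c ∈ T4 1, (univ.filter (fun j : Fin (2 * (K + 3)) =>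
        qq κ e K (c + 4 ^ 1 * X) j ≤ q)).card =
      FSt (2 * (K + 3)) (HH e K φ) (HH e K u1) (HH e K u2) n1 n2 (q - n0) := by
  have hE : ∀ (E n : ℤ) (u : ℝ), κ * E + 4 * (κ * X) = n0 + n - u → 0 ≤ u → u < 1 →
      (univ.filter (fun j : Fin (2 * (K + 3)) => qq κ e K (E + 4 ^ 1 * X) j ≤ q)).card =
        cf (2 * (K + 3)) (HH e K u) n (q - n0) 1 := by
    intro E n u hu hu0 hu1
    have hx : κ * ((E + 4 ^ 1 * X : ℤ) : ℝ) = ((n0 + n : ℤ) : ℝ) - u := by
      push_cast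
      linarith
    have := cnt_qq (e := e) (K := K) hx hu0 hu1 1 0 q (by norm_num)
    simp only [one_mul, sub_zero] at this
    rw [this, cf_shift]
  unfold FSt
  rw [sum_T4_one, hE 0 0 φ (by push_cast; linarith) h0 h1,
    hE 1 n1 u1 (by push_cast; linarith) h10 h11,
    hE (-1) n2 u2 (by push_cast; linarith) h20 h21]

theorem bsh_law {e κ : ℝ} {K m : ℕ} (hp : Par e K) (hκ : κ = 2 - e) {k : ℤ} (hk : k % 2 = 1)
    (hkm : κ * 4 ^ (m + 1) = k) : BSH T4 1 m (RbG k (qq κ e K) 1 m) := by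
  intro X _ D hD hne hnf
  have h0 := hp.e0
  have h1 := hp.e1
  have hK := hp.hK
  set n0 : ℤ := ⌈4 * (κ * X)⌉ with hn0
  set φ : ℝ := n0 - 4 * (κ * X) with hφ
  have hφ0 : 0 ≤ φ := by rw [hφ]; linarith [Int.le_ceil (4 * (κ * X))]
  have hφ1 : φ < 1 := by rw [hφ]; linarith [Int.ceil_lt_add_one (4 * (κ * X))]
  have ha : 4 * (κ * X) = n0 - φ := by rw [hφ]; ring
  obtain ⟨i1, i2, i3, hi, hFD⟩ := demands hp hk hkm X n0 φ ha hφ0 hφ1
  set f : ℝ := φ / 4 with hf
  set g : ℝ := 1 / 4 - f with hg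
  have e4f : 4 * f = φ := by rw [hf]; ring
  have e4g : 4 * g = 1 - φ := by rw [hg, hf]; ring
  have hfg : f + g = 1 / 4 := by rw [hg]; ring
  have hgf : g + f = 1 / 4 := by rw [hg]; ring
  have hf4 : f ≤ 1 / 4 := by linarith
  have hg4 : g ≤ 1 / 4 := by linarith
  have key : ∀ FS : ℤ → ℕ, (∀ q : ℤ, ∑ c ∈ T4 1, (univ.filter (fun j : Fin (2 * (K + 3)) =>
        qq κ e K (c + 4 ^ 1 * X) j ≤ q)).card = FS (q - n0)) →
      Cut (3 * (2 * (K + 3))) FS (FDt (2 * (K + 3)) (hh e K f) (hh e K (1 / 4 + f))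
          (hh e K (1 / 4 + g)) (hh e K g) i1 i2 i3) →
      D.card + 1 ≤ (nbr T4 1 (RbG k (qq κ e K) 1 m) X D).card := by
    intro FS hFS hcut
    refine hall_fin rfl (fun p => qq κ e K (p.1 + 4 ^ 1 * X) p.2)
      (fun p => 4 * qq κ e K (X + 4 ^ m * p.1) p.2 - k * p.1) (fun q => FS (q - n0))
      (fun q => FDt (2 * (K + 3)) (hh e K f) (hh e K (1 / 4 + f))
          (hh e K (1 / 4 + g)) (hh e K g) i1 i2 i3 (q - n0)) hFS hFD (hcut.shift n0) D _ hD hne hnf
      (nbr_sub _ _ _ _ _) ?_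
    rintro b hb ⟨a, ha', hab⟩
    unfold nbr
    rw [mem_filter]
    refine ⟨hb, a, ha', ?_⟩
    unfold RbG
    rw [ln_one, dig_iff_abs, pow_one]
    rw [pow_one] at hab
    exact hab
  have ssym := HH_symm hp φ
  have ue : HH e K (1 - φ) = HH e K (4 * g) := by rw [e4g]
  rcases lt_or_ge φ e with hc | hc
  · -- `φ < e`
    have ef : hh e K f = 0 := hh_zero hp (by linarith)
    have eg : hh e K (1 / 4 + g) = K + 3 := hh_b3 hp (by linarith)
    have eQ := HH_symm hp (e - φ)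
    rw [show 1 - (e - φ) = φ - e + 1 by ring, HH_lo e K (t := e - φ) (by linarith)] at eQ
    have et := HH_symm hp (4 * g - e)
    rw [show 1 - (4 * g - e) = φ + e by rw [e4g]; ring] at et
    refine key (FSt (2 * (K + 3)) (HH e K φ) (HH e K (φ + e)) (HH e K (φ - e + 1)) 2 (-1))
      (supplies X n0 2 (-1) φ (φ + e) (φ - e + 1) ha hφ0 hφ1 (by rw [hκ]; push_cast; ring)
        (by linarith) (by linarith) (by rw [hκ]; push_cast; ring) (by linarith) (by linarith)) ?_
    have hge : e / 4 ≤ g := by linarith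
    have f4 := fac4 hp hge hg4
    have f2 := hh_two hp (x := g) (by linarith)
    rw [ef, eg, show HH e K (φ + e) = 2 * (K + 3) - HH e K (4 * g - e) by omega,
      show HH e K (φ - e + 1) = 2 * (K + 3) - hh e K (e - φ) by omega, HH_lo e K (t := φ) (by linarith)]
    refine cutL (by omega) (fac10 hp hc.le) (fac10 hp (by linarith)) ?_ ?_ ?_ ?_ f2
      (fac1 hp hg4) (by omega) (fac6 hp hge hg4) (fac7 hp hge hg4 hgf) i1 i2 i3 hi
    · intro h
      have := fac11 hp hc.le h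
      rw [← hf] at this
      omega
    · intro h
      have := fac12 hp hφ0 h
      rw [← hf] at this
      omega
    · have := hh_up e K (x := 1 / 4 + f) (by linarith)
      omega
    · have := hh_le e K (1 / 4 + f)
      omega
  · have ef' : HH e K (φ - e) = HH e K (4 * f - e) := by rw [e4f]
    have hfe : e / 4 ≤ f := by linarith
    rcases lt_or_ge (φ + e) 1 with hc2 | hc2
    · have et := HH_symm hp (4 * g - e)
      rw [show 1 - (4 * g - e) = φ + e by rw [e4g]; ring] at et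
      have hge : e / 4 ≤ g := by linarith
      refine key (FSt (2 * (K + 3)) (HH e K φ) (HH e K (φ + e)) (HH e K (φ - e)) 2 (-2))
        (supplies X n0 2 (-2) φ (φ + e) (φ - e) ha hφ0 hφ1 (by rw [hκ]; push_cast; ring)
          (by linarith) (by linarith) (by rw [hκ]; push_cast; ring) (by linarith)
          (by linarith)) ?_
      rw [show HH e K (φ + e) = 2 * (K + 3) - HH e K (4 * g - e) by omega, ef']
      have t1 := fac5 hp hfe hf4
      rw [e4f] at t1
      have t2 := fac5 hp hge hg4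
      rw [← ue] at t2
      have t3 := HH_three hp (t := φ) (by linarith)
      have t4 := HH_three hp (t := 1 - φ) (by linarith)
      have t5 := fac9 hp hfe hf4 hge hfg
      rw [e4f] at t5
      have t6 := fac9 hp hge hg4 hfe hgf
      rw [← ue] at t6
      exact cutC (by omega) (fac1 hp hf4) (fac1 hp hg4) (fac2 hp hfe hf4) (fac2 hp hge hg4)
        (fac3 hp hfe).1 (fac3 hp hfe).2 (fac3 hp hge).1 (fac3 hp hge).2 (fac4 hp hfe hf4)
        (fac4 hp hge hg4) t1 t3 (by omega) (by omega) (fac6 hp hfe hf4) (fac6 hp hge hg4)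
        (fac7 hp hfe hf4 hfg) (fac7 hp hge hg4 hgf) (fac8 hp hfe hf4 hfg) (fac8 hp hge hg4 hgf)
        t5 (by omega) i1 i2 i3 hi
    · -- `1 ≤ φ + e`
      have eg : hh e K g = 0 := hh_zero hp (by linarith)
      have efc : hh e K (1 / 4 + f) = K + 3 := hh_b3 hp (by linarith)
      refine key (FSt (2 * (K + 3)) (HH e K φ) (HH e K (φ + e - 1)) (HH e K (φ - e)) 1 (-2))
        (supplies X n0 1 (-2) φ (φ + e - 1) (φ - e) ha hφ0 hφ1 (by rw [hκ]; push_cast; ring)
          (by linarith) (by linarith) (by rw [hκ]; push_cast; ring) (by linarith)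
          (by linarith)) ?_
      rw [eg, efc, ef', HH_lo e K (t := φ + e - 1) (by linarith)]
      have f4 := fac4 hp hfe hf4
      have f2 := hh_two hp (x := f) (by linarith)
      have u1 : 2 * (K + 3) - HH e K φ = hh e K (1 - φ) := by
        rw [← HH_lo e K (t := 1 - φ) (by linarith)]
        omega
      have gφ : 1 / 4 + (1 - φ) / 4 = 1 / 4 + g := by rw [← e4g]; ring
      refine cutR (by omega) (HH_le e K φ) (by rw [u1]; exact fac10 hp (by linarith))
        (fac10 hp (by linarith)) ?_ ?_ ?_ ?_ f2 (fac1 hp hf4) (by omega) (fac6 hp hfe hf4)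
        (fac7 hp hfe hf4 hfg) i1 i2 i3 hi
      · intro h
        have h2 := fac11 hp (t := 1 - φ) (by linarith)
          (by rw [show e - (1 - φ) = φ + e - 1 by ring]; exact h)
        rw [gφ] at h2
        omega
      · intro h
        rw [u1] at h
        have h2 := fac12 hp (t := 1 - φ) (by linarith) h
        rw [gφ] at h2
        omega
      · have := hh_up e K (x := 1 / 4 + g) (by linarith)
        omega
      · have := hh_le e K (1 / 4 + g)
        omega

/-! ### the number of letters -/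

theorem exists_par {e : ℝ} (he0 : 0 < e) (he1 : e ≤ 1 / 5) :
    ∃ K : ℕ, Par e K ∧ (K : ℝ) ≤ 2 + |Real.log e| := by
  have hex : ∃ i : ℕ, 3 / 16 + e / 4 ≤ bb e i := by
    obtain ⟨n, hn⟩ := pow_unbounded_of_one_lt (15 * (3 / 16 + e / 4) / e) (by norm_num : (1 : ℝ) < 4)
    refine ⟨n, ?_⟩
    rw [div_lt_iff₀ he0] at hn
    unfold bb
    nlinarith
  set K := Nat.find hex with hKdef
  have hlo : ∀ i < K, bb e i < 3 / 16 + e / 4 := fun i hi => not_le.1 (Nat.find_min hex hi)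
  have hhi : 3 / 16 + e / 4 ≤ bb e K := Nat.find_spec hex
  have hK : 2 ≤ K := by
    by_contra hc
    have h2 := bb_mono he0.le (show K ≤ 1 by omega)
    rw [bb_one] at h2
    linarith
  refine ⟨K, ⟨he0, he1, hK, hlo, hhi⟩, ?_⟩
  clear_value K
  obtain ⟨i, rfl⟩ : ∃ i, K = i + 2 := ⟨K - 2, by omega⟩
  have h3 := hlo (i + 1) (by omega)
  have h4 : (4 : ℝ) ^ i * e < 1 := by
    unfold bb at h3
    rw [pow_succ] at h3
    have : (0 : ℝ) < 4 ^ i := by positivity
    nlinarith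
  have h5 : (i : ℝ) * Real.log 4 + Real.log e < 0 := by
    rw [← Real.log_pow, ← Real.log_mul (by positivity) he0.ne']
    exact Real.log_neg (by positivity) h4
  have h6 : 1 ≤ Real.log 4 := by
    rw [show (4 : ℝ) = 2 ^ 2 by norm_num, Real.log_pow]
    have := Real.log_two_gt_d9
    push_cast
    linarith
  have h7 : (i : ℝ) ≤ i * Real.log 4 := by
    have : (0 : ℝ) ≤ i := Nat.cast_nonneg i
    nlinarith
  have h8 : -Real.log e ≤ |Real.log e| := neg_le_abs _
  push_cast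
  linarith

/-- the law for `9 / 5 ≤ κ < 2` -/
theorem lawM {k : ℤ} (hk : k % 2 = 1) {κ : ℝ} {m : ℕ} (hkm : κ * 4 ^ (m + 1) = k)
    (h1 : 9 / 5 ≤ κ) (h2 : κ < 2) :
    ∃ (n : ℕ) (q : ℤ → Fin n → ℤ) (j0 : Fin n), q 0 j0 = 0 ∧ BSH T4 1 m (RbG k q 1 m) ∧
      (n : ℝ) ≤ 10 * (1 + abs (Real.log |κ - 2|)) := by
  obtain ⟨K, hp, hK⟩ := exists_par (e := 2 - κ) (by linarith) (by linarith)
  refine ⟨2 * (K + 3), qq κ (2 - κ) K, ⟨0, by omega⟩, ?_,
    bsh_law hp (by ring) hk hkm, ?_⟩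
  · unfold qq
    have : HH (2 - κ) K 0 = 0 := by
      rw [HH_lo _ _ (by norm_num)]
      exact hh_zero hp (by linarith)
    simp [this]
  · rw [abs_sub_comm κ 2, abs_of_pos (show 0 < 2 - κ by linarith)]
    push_cast
    have := abs_nonneg (Real.log (2 - κ))
    linarith

/-- `k / 4 ^ l` in `[9 / 5, 2)` -/
theorem good_M {k : ℤ} (hk : Odd k) {l : ℕ} (hl : 2 ≤ l) (h1 : (9 / 5 : ℝ) ≤ k / 4 ^ l)
    (h2 : (k : ℝ) / 4 ^ l < 2) : Good 10 k (1 + abs (Real.log |(k : ℝ) / 4 ^ l - 2|)) := by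
  have hkm : (k : ℝ) / 4 ^ l * 4 ^ (l - 1 + 1) = k := by
    rw [show l - 1 + 1 = l by omega, div_mul_cancel₀]
    positivity
  obtain ⟨n, q, j0, hq, hB, hn⟩ := lawM (Int.odd_iff.1 hk) hkm h1 h2
  refine Good_of_BSHG (κ := (k : ℝ) / 4 ^ l) (r := 1) (m := l - 1) one_pos (by norm_num)
    (by omega) ?_ (by linarith) hB j0 hq ?_
  · rw [add_comm 1 (l - 1)]
    exact hkm
  · rw [Fintype.card_fin]
    exact hn

end C52M
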