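import Pool.Agent.Lib.MP_c52340_nt.Loc2DA
import Pool.Agent.Lib.MP_c52340_nt.Loc2DB
import Pool.Agent.Lib.MP_c52340_nt.Loc2DD

/-!
The local strong Hall property with block length `2` on explicit ranges of `κ`.

* `locA2`: `κ ∈ [2.035, 2.48]`, offsets `±5/14, ±1/2`
* `locB2`: `κ ∈ [2.47, 2.515]`, offsets `±2/5, ±1/2`
* `locD2`: `κ ∈ [1.79, 1.87]`, offsets `±1/4, ±3/8`
* `Off2`: the same with the offsets hidden.
-/

set_option autoImplicit false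

namespace Pool.Agent.Lib.MP_c52340_nt.Loc2

open Pool.Agent.Lib.MP_c52340_nt Pool.Agent.Lib.MP_c52340_nt.Tok Finset

theorem locA2 {k : ℤ} (hk : k % 2 = 1) {κ : ℝ} (h1 : 407 / 200 ≤ κ) (h2 : κ ≤ 62 / 25) :
    LocBSH k κ FA.ρ 2 :=
  loc_of_chk (D := 22400) FA_ok rfl (by norm_num) rfl rfl dA1_ok dA3_ok dA5_ok dA7_ok hk
    (by push_cast; linarith) (by push_cast; linarith)

theorem locB2 {k : ℤ} (hk : k % 2 = 1) {κ : ℝ} (h1 : 247 / 100 ≤ κ) (h2 : κ ≤ 503 / 200) :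
    LocBSH k κ FB.ρ 2 :=
  loc_of_chk (D := 32000) FB_ok rfl (by norm_num) rfl rfl dB1_ok dB3_ok dB5_ok dB7_ok hk
    (by push_cast; linarith) (by push_cast; linarith)

theorem locD2 {k : ℤ} (hk : k % 2 = 1) {κ : ℝ} (h1 : 179 / 100 ≤ κ) (h2 : κ ≤ 187 / 100) :
    LocBSH k κ FD.ρ 2 :=
  loc_of_chk (D := 25600) FD_ok rfl (by norm_num) rfl rfl dD1_ok dD3_ok dD5_ok dD7_ok hk
    (by push_cast; linarith) (by push_cast; linarith)

/-- some family of at most four offsets has the local strong Hall property with block length `2` -/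
def Off2 (k : ℤ) (κ : ℝ) : Prop :=
  ∃ n : ℕ, 0 < n ∧ n ≤ 4 ∧ ∃ (ρ : Fin n → ℝ) (j0 : Fin n), -1 / 2 ≤ ρ j0 ∧ ρ j0 < 1 / 2 ∧
    LocBSH k κ ρ 2

theorem off2_of {F : Fam} (hF : F.Ok) (hn : F.n1 + 1 ≤ 4) (j0 : Fin (F.n1 + 1))
    (hj : fld 8 F.cT j0 < F.N) {k : ℤ} {κ : ℝ} (h : LocBSH k κ F.ρ 2) : Off2 k κ := by
  have hN : (0 : ℝ) < F.N := by exact_mod_cast hF.hN
  have h1 : (0 : ℝ) ≤ (fld 8 F.cT j0 : ℝ) / F.N := by positivity
  have h2 : (fld 8 F.cT j0 : ℝ) / F.N < 1 := by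
    rw [div_lt_one hN]
    exact_mod_cast hj
  refine ⟨F.n1 + 1, Nat.succ_pos _, hn, F.ρ, j0, ?_, ?_, h⟩
  · unfold Fam.ρ
    linarith
  · unfold Fam.ρ
    linarith

theorem off2_A {k : ℤ} (hk : k % 2 = 1) {κ : ℝ} (h1 : 407 / 200 ≤ κ) (h2 : κ ≤ 503 / 200) :
    Off2 k κ := by
  rcases le_total κ (62 / 25) with h | h
  · exact off2_of FA_ok (by decide +kernel) ⟨1, by decide +kernel⟩ (by decide +kernel)
      (locA2 hk h1 h)
  · exact off2_of FB_ok (by decide +kernel) ⟨1, by decide +kernel⟩ (by decide +kernel)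
      (locB2 hk (by linarith) h2)

theorem off2_D {k : ℤ} (hk : k % 2 = 1) {κ : ℝ} (h1 : 179 / 100 ≤ κ) (h2 : κ ≤ 187 / 100) :
    Off2 k κ :=
  off2_of FD_ok (by decide +kernel) ⟨1, by decide +kernel⟩ (by decide +kernel) (locD2 hk h1 h2)

end Pool.Agent.Lib.MP_c52340_nt.Loc2
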