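import Mathlib
import Pool.Agent.Lib.MP_c52340_nt.Tok2

/-!
Local strong Hall property, part A: one context, Hamiltonian cycles, reductions.

* `SH k κ ρ r a`: the local strong Hall property in the context `a`.
* `SH_of_cycle`: a cyclic list `s_0, d_0, s_1, d_1, …` through all supplies and all demands, each
  `s_t` being related to `d_t` and to `d_(t-1)`, gives `SH`.
* `SH_shift`, `SH_congr`, `SH_neg`: the context only matters modulo `4 ^ r`, so does `k`, and
  `-k` has the same property as `k`.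
-/

set_option autoImplicit false

namespace Pool.Agent.Lib.MP_c52340_nt.Loc2

open Pool.Agent.Lib.MP_c52340_nt Pool.Agent.Lib.MP_c52340_nt.Tok Finset

/-- the local strong Hall property in the context `a` -/
def SH {J : Type} [Fintype J] (k : ℤ) (κ : ℝ) (ρ : J → ℝ) (r : ℕ) (a : ℝ) : Prop :=
  ∀ D ⊆ C52C.T4 r ×ˢ (Finset.univ : Finset J), D.Nonempty →
    D ≠ C52C.T4 r ×ˢ (Finset.univ : Finset J) →
    D.card + 1 ≤ (C52C.nbr C52C.T4 r (fun _ => Lo k κ ρ r a) (0 : ℤ) D).card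

theorem LocBSH_of_SH {J : Type} [Fintype J] {k : ℤ} {κ : ℝ} {ρ : J → ℝ} {r : ℕ}
    (h : ∀ a, SH k κ ρ r a) : LocBSH k κ ρ r := fun a => h a

/-- a set of indices modulo `m` closed under predecessors is everything -/
theorem closed_pred {m : ℕ} {P : ℕ → Prop} (hP : ∀ t < m, P ((t + 1) % m) → P t)
    {t0 : ℕ} (h0 : t0 < m) (ht0 : P t0) : ∀ t < m, P t := by
  have down : ∀ u < m, P u → ∀ t ≤ u, P t := by
    intro u hu hPu t ht
    induction u with
    | zero =>
      have : t = 0 := by omega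
      rw [this]
      exact hPu
    | succ u ih =>
      rcases Nat.lt_or_ge t (u + 1) with h | h
      · refine ih (by omega) (hP u (by omega) ?_) (by omega)
        rw [Nat.mod_eq_of_lt hu]
        exact hPu
      · have : t = u + 1 := by omega
        rw [this]
        exact hPu
  have hP0 : P 0 := down t0 h0 ht0 0 (Nat.zero_le _)
  have hPl : P (m - 1) := by
    refine hP (m - 1) (by omega) ?_
    rw [Nat.sub_add_cancel (by omega), Nat.mod_self]
    exact hP0
  intro t ht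
  exact down (m - 1) (by omega) hPl t (by omega)

theorem SH_of_cycle {J : Type} [Fintype J] {k : ℤ} {κ : ℝ} {ρ : J → ℝ} {r : ℕ} {a : ℝ}
    (m : ℕ) (s d : ℕ → ℤ × J)
    (hcard : (C52C.T4 r ×ˢ (Finset.univ : Finset J)).card = m)
    (hs : ∀ x ∈ C52C.T4 r ×ˢ (Finset.univ : Finset J), ∃ t < m, s t = x)
    (hd : ∀ x ∈ C52C.T4 r ×ˢ (Finset.univ : Finset J), ∃ t < m, d t = x)
    (hd' : ∀ t < m, d t ∈ C52C.T4 r ×ˢ (Finset.univ : Finset J))
    (h1 : ∀ t < m, Lo k κ ρ r a (s t) (d t))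
    (h2 : ∀ t < m, Lo k κ ρ r a (s t) (d ((t + m - 1) % m))) : SH k κ ρ r a := by
  classical
  intro D hD hne hnf
  set A := (range m).filter (fun t => s t ∈ D) with hA
  set B := (range m).filter (fun t => s t ∈ D ∨ s ((t + 1) % m) ∈ D) with hB
  have hAB : A ⊆ B := by
    intro t ht
    rw [hA, mem_filter] at ht
    rw [hB, mem_filter]
    exact ⟨ht.1, Or.inl ht.2⟩
  have hDA : D ⊆ A.image s := by
    intro x hx
    obtain ⟨t, ht, rfl⟩ := hs x (hD hx)
    exact mem_image_of_mem _ (by rw [hA, mem_filter, mem_range]; exact ⟨ht, hx⟩)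
  have hcD : D.card ≤ A.card := (card_le_card hDA).trans card_image_le
  have hlt : A.card + 1 ≤ B.card := by
    have : A ≠ B := by
      intro hAB'
      have hcl : ∀ t < m, s ((t + 1) % m) ∈ D → s t ∈ D := by
        intro t ht h
        have : t ∈ A := by
          rw [hAB', hB, mem_filter, mem_range]
          exact ⟨ht, Or.inr h⟩
        rw [hA, mem_filter] at this
        exact this.2
      obtain ⟨x, hx⟩ := hne
      obtain ⟨t0, ht0, h0⟩ := hs x (hD hx)
      have hall := closed_pred (P := fun t => s t ∈ D) hcl ht0 (by rw [h0]; exact hx)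
      apply hnf
      apply Subset.antisymm hD
      intro y hy
      obtain ⟨t, ht, rfl⟩ := hs y hy
      exact hall t ht
    exact Finset.card_lt_card (lt_of_le_of_ne hAB this)
  have himg : B.image d ⊆ C52C.nbr C52C.T4 r (fun _ => Lo k κ ρ r a) (0 : ℤ) D := by
    intro e he
    rw [mem_image] at he
    obtain ⟨t, ht, rfl⟩ := he
    rw [hB, mem_filter, mem_range] at ht
    unfold C52C.nbr
    rw [mem_filter]
    refine ⟨hd' t ht.1, ?_⟩
    rcases ht.2 with h | h
    · exact ⟨s t, h, h1 t ht.1⟩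
    · refine ⟨s ((t + 1) % m), h, ?_⟩
      have h3 := h2 ((t + 1) % m) (Nat.mod_lt _ (by omega))
      have h4 : ((t + 1) % m + m - 1) % m = t := by
        rcases Nat.lt_or_ge (t + 1) m with h5 | h5
        · rw [Nat.mod_eq_of_lt h5, show t + 1 + m - 1 = t + m by omega, Nat.add_mod_right,
            Nat.mod_eq_of_lt ht.1]
        · have h6 : t + 1 = m := by omega
          rw [h6, Nat.mod_self, Nat.zero_add, Nat.mod_eq_of_lt (by omega)]
          omega
      rw [h4] at h3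
      exact h3
  have hinj : Set.InjOn d (range m : Finset ℕ) := by
    have hsub : C52C.T4 r ×ˢ (Finset.univ : Finset J) ⊆ (range m).image d := by
      intro x hx
      obtain ⟨t, ht, rfl⟩ := hd x hx
      exact mem_image_of_mem _ (mem_range.2 ht)
    have hc := card_le_card hsub
    rw [hcard] at hc
    apply Finset.injOn_of_card_image_eq
    apply le_antisymm
    · exact card_image_le
    · rw [card_range]
      exact hc
  have hcB : (B.image d).card = B.card := by
    apply card_image_of_injOn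
    apply hinj.mono
    intro t ht
    have ht' : t ∈ B := ht
    rw [hB, mem_filter] at ht'
    exact ht'.1
  have := card_le_card himg
  omega

/-! ### Reductions -/

theorem sup_shift (κ ρ a : ℝ) (y z : ℤ) (R : ℤ) :
    Tok.sup κ ρ (a + R * z) y = Tok.sup κ ρ a y + R * z := by
  unfold Tok.sup
  rw [show a + R * z + κ * y + ρ + 1 / 2 = (a + κ * y + ρ + 1 / 2) + ((R * z : ℤ) : ℝ) by
    push_cast; ring]
  rw [Int.floor_add_intCast]

theorem dem_shift (k : ℤ) (r : ℕ) (ρ a : ℝ) (E z : ℤ) :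
    dem k r ρ (a + ((4 ^ r : ℤ) : ℝ) * z) E = dem k r ρ a E + 4 ^ r * z := by
  unfold dem
  have h4 : (4 : ℝ) ^ r ≠ 0 := by positivity
  rw [show (a + ((4 ^ r : ℤ) : ℝ) * z + k * E) / 4 ^ r + ρ + 1 / 2 =
      ((a + k * E) / 4 ^ r + ρ + 1 / 2) + (z : ℝ) by push_cast; field_simp; ring]
  rw [Int.floor_add_intCast]
  ring

theorem SH_shift {J : Type} [Fintype J] {k : ℤ} {κ : ℝ} {ρ : J → ℝ} {r : ℕ} {a : ℝ} (z : ℤ)
    (h : SH k κ ρ r (a + ((4 ^ r : ℤ) : ℝ) * z)) : SH k κ ρ r a := by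
  have h1 : (fun _ : ℤ => Lo k κ ρ r (a + ((4 ^ r : ℤ) : ℝ) * z)) =
      (fun _ : ℤ => Lo k κ ρ r a) := by
    funext _ s t
    unfold Lo
    rw [dem_shift, sup_shift]
    congr 1
    ring
  unfold SH at h
  rw [h1] at h
  exact h

theorem dem_congr {k k' : ℤ} {r : ℕ} (u : ℤ) (h : k = k' + 4 ^ r * u) (ρ a : ℝ) (E : ℤ) :
    dem k r ρ a E = dem k' r ρ a E := by
  unfold dem
  have h4 : (4 : ℝ) ^ r ≠ 0 := by positivity
  subst h
  rw [show (a + ((k' + 4 ^ r * u : ℤ) : ℝ) * E) / 4 ^ r + ρ + 1 / 2 =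
      ((a + k' * E) / 4 ^ r + ρ + 1 / 2) + ((u * E : ℤ) : ℝ) by push_cast; field_simp; ring]
  rw [Int.floor_add_intCast]
  ring

theorem SH_congr {J : Type} [Fintype J] {k k' : ℤ} {κ : ℝ} {ρ : J → ℝ} {r : ℕ} {a : ℝ} (u : ℤ)
    (hk : k = k' + 4 ^ r * u) (h : SH k' κ ρ r a) : SH k κ ρ r a := by
  have h1 : (fun _ : ℤ => Lo k' κ ρ r a) = (fun _ : ℤ => Lo k κ ρ r a) := by
    funext _ s t
    unfold Lo
    rw [dem_congr u hk]
  unfold SH at h
  rw [h1] at h
  exact h

theorem dem_neg (k : ℤ) (r : ℕ) (ρ a : ℝ) (E : ℤ) : dem (-k) r ρ a E = dem k r ρ a (-E) := by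
  unfold dem
  have h1 : ((-k : ℤ) : ℝ) * (E : ℝ) = (k : ℝ) * ((-E : ℤ) : ℝ) := by push_cast; ring
  have h2 : -k * E = k * -E := by ring
  rw [h1, h2]

theorem neg_mem_T4 {r : ℕ} {x : ℤ} (h : x ∈ C52C.T4 r) : -x ∈ C52C.T4 r := by
  rw [C52C.mem_T4] at h ⊢
  have h' : Ln r x := h
  exact h'.neg

theorem SH_neg {J : Type} [Fintype J] {k : ℤ} {κ : ℝ} {ρ : J → ℝ} {r : ℕ} {a : ℝ}
    (h : SH k κ ρ r a) : SH (-k) κ ρ r a := by
  classical
  intro D hD hne hnf
  have h1 := h D hD hne hnf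
  refine h1.trans (le_of_eq ?_)
  unfold C52C.nbr
  refine Finset.card_nbij' (fun e => (-e.1, e.2)) (fun e => (-e.1, e.2)) ?_ ?_ ?_ ?_
  · rintro ⟨E, j⟩ he
    simp only [coe_filter, mem_product, mem_univ, and_true, Set.mem_ofPred_eq] at he ⊢
    refine ⟨neg_mem_T4 he.1, ?_⟩
    obtain ⟨d, hd, hR⟩ := he.2
    refine ⟨d, hd, ?_⟩
    unfold Lo at hR ⊢
    simp only at hR ⊢
    rw [dem_neg, neg_neg]
    exact hR
  · rintro ⟨E, j⟩ he
    simp only [coe_filter, mem_product, mem_univ, and_true, Set.mem_ofPred_eq] at he ⊢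
    refine ⟨neg_mem_T4 he.1, ?_⟩
    obtain ⟨d, hd, hR⟩ := he.2
    refine ⟨d, hd, ?_⟩
    unfold Lo at hR ⊢
    simp only at hR ⊢
    rw [dem_neg] at hR
    exact hR
  · rintro ⟨E, j⟩ _
    simp
  · rintro ⟨E, j⟩ _
    simp

end Pool.Agent.Lib.MP_c52340_nt.Loc2
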