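import Mathlib
import Pool.Agent.Lib.MP_c52340_nt.Loc2A

/-!
Local strong Hall property, part B: a checker on natural numbers and its soundness.

A rectangle is `a0 ≤ D a < a1`, `k0 ≤ D κ ≤ k1`.  A certificate is a tree: rectangles are halved
(`sA`, `sK`), below that the state of one token (and of its class) is split into its two possible
values, and a leaf contains a Hamiltonian cycle of edges which are valid on the whole rectangle.
-/

set_option autoImplicit false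

namespace Pool.Agent.Lib.MP_c52340_nt.Loc2

open Pool.Agent.Lib.MP_c52340_nt Pool.Agent.Lib.MP_c52340_nt.Tok Finset

/-! ### Kernel friendly primitives -/

/-- field `i` of width `b` in a packed table -/
def fld (b T i : Nat) : Nat := Nat.mod (Nat.shiftRight T (Nat.mul b i)) (Nat.pow 2 b)

/-- test a bit -/
def tb (B x : Nat) : Bool := Nat.beq (Nat.land (Nat.shiftRight B x) 1) 1

theorem tb_eq (B x : Nat) : tb B x = Nat.testBit B x := by
  unfold tb
  rw [Nat.testBit_eq_decide_div_mod_eq]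
  have h1 : Nat.land (Nat.shiftRight B x) 1 = (B >>> x) &&& 1 := rfl
  rw [h1, Nat.and_one_is_mod, Nat.shiftRight_eq_div_pow]
  by_cases h : B / 2 ^ x % 2 = 1
  · rw [h]; rfl
  · have h2 : B / 2 ^ x % 2 = 0 := by omega
    rw [h2]; rfl

/-- evaluate the argument first -/
def frc (n : Nat) (f : Nat → Bool) : Bool :=
  Nat.rec (motive := fun _ => Bool) (f 0) (fun n _ => f (Nat.succ n)) n

theorem frc_eq (n : Nat) (f : Nat → Bool) : frc n f = f n := by
  cases n <;> rfl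

/-- bounded quantifier -/
def allB (f : Nat → Bool) (n : Nat) : Bool :=
  Nat.rec (motive := fun _ => Bool) true (fun n ih => and (f n) ih) n

theorem allB_spec {f : Nat → Bool} {n : Nat} (h : allB f n = true) : ∀ t < n, f t = true := by
  induction n with
  | zero => intro t ht; omega
  | succ n ih =>
    have h' : and (f n) (allB f n) = true := h
    rw [Bool.and_eq_true] at h'
    intro t ht
    rcases Nat.lt_or_ge t n with h1 | h1
    · exact ih h'.2 t h1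
    · have : t = n := by omega
      rw [this]
      exact h'.1

/-- the set of values as a bit mask -/
def covB (f : Nat → Nat) (n : Nat) : Nat :=
  Nat.rec (motive := fun _ => Nat) 0 (fun n ih => Nat.lor ih (Nat.pow 2 (f n))) n

theorem covB_spec {f : Nat → Nat} {n i : Nat} :
    (covB f n).testBit i = true ↔ ∃ t < n, f t = i := by
  induction n with
  | zero =>
    have : covB f 0 = 0 := rfl
    rw [this]
    simp
  | succ n ih =>
    have h1 : covB f (n + 1) = covB f n ||| 2 ^ f n := rfl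
    rw [h1, Nat.testBit_or, Bool.or_eq_true, ih, Nat.testBit_two_pow]
    constructor
    · rintro (⟨t, ht, h⟩ | h)
      · exact ⟨t, by omega, h⟩
      · exact ⟨n, by omega, of_decide_eq_true h⟩
    · rintro ⟨t, ht, h⟩
      rcases Nat.lt_or_ge t n with h2 | h2
      · exact Or.inl ⟨t, h2, h⟩
      · right
        have : t = n := by omega
        rw [this] at h
        exact decide_eq_true h

/-- lower bound of the state -/
def lo (D a0 k0 k1 e c : Nat) : Nat :=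
  cond (Nat.ble 32 e)
    (Nat.div (Nat.add (Nat.add a0 (Nat.mul k0 (Nat.sub e 32))) c) D)
    (Nat.div (Nat.sub (Nat.add a0 c) (Nat.mul k1 (Nat.sub 32 e))) D)

/-- upper bound of the state -/
def hi (D a1 k0 k1 e c : Nat) : Nat :=
  cond (Nat.ble 32 e)
    (Nat.div (Nat.sub (Nat.add (Nat.add a1 (Nat.mul k1 (Nat.sub e 32))) c) 1) D)
    (Nat.div (Nat.sub (Nat.sub (Nat.add a1 c) (Nat.mul k0 (Nat.sub 32 e))) 1) D)

theorem le_floor_div {X D : ℕ} (hD : 0 < D) {v : ℝ} (h : (X : ℝ) ≤ D * v) :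
    ((X / D : ℕ) : ℤ) ≤ ⌊v⌋ := by
  rw [Int.le_floor]
  have h1 : (X / D) * D ≤ X := Nat.div_mul_le_self X D
  have h2 : ((X / D : ℕ) : ℝ) * D ≤ X := by exact_mod_cast h1
  have hD' : (0 : ℝ) < D := by exact_mod_cast hD
  have h3 : ((X / D : ℕ) : ℝ) * D ≤ v * D := by rw [mul_comm v]; exact h2.trans h
  have := le_of_mul_le_mul_right h3 hD'
  exact_mod_cast this

theorem floor_le_div {X D : ℕ} (hD : 0 < D) {v : ℝ} (h : D * v < (X : ℝ)) :
    ⌊v⌋ ≤ (((X - 1) / D : ℕ) : ℤ) := by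
  have hD' : (0 : ℝ) < D := by exact_mod_cast hD
  rcases le_or_gt ⌊v⌋ 0 with h0 | h0
  · exact h0.trans (Int.natCast_nonneg _)
  · have h1 : (⌊v⌋ : ℝ) * D < X := by
      have := Int.floor_le v
      nlinarith
    have h2 : ⌊v⌋ * (D : ℤ) < (X : ℤ) := by exact_mod_cast h1
    have h3 : 0 < ⌊v⌋ * (D : ℤ) := mul_pos h0 (by exact_mod_cast hD)
    have hX : 1 ≤ X := by omega
    rw [Int.natCast_ediv]
    apply Int.le_ediv_of_mul_le (by exact_mod_cast hD)
    push_cast [hX]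
    omega

theorem lo_le {D a0 k0 k1 e c : ℕ} {a κ x : ℝ} (hD : 0 < D) (ha : (a0 : ℝ) ≤ D * a)
    (hk0 : (k0 : ℝ) ≤ D * κ) (hk1 : D * κ ≤ (k1 : ℝ)) (hc : (c : ℝ) = D * x)
    (hpos : k1 * (32 - e) ≤ a0) :
    ((lo D a0 k0 k1 e c : ℕ) : ℤ) ≤ ⌊a + κ * (((e : ℤ) - 32 : ℤ) : ℝ) + x⌋ := by
  unfold lo
  cases he : Nat.ble 32 e
  · rw [cond_false]
    have he' : e < 32 := by
      by_contra h
      rw [Nat.ble_eq_true_of_le (by omega)] at he
      cases he
    show (((a0 + c - k1 * (32 - e)) / D : ℕ) : ℤ) ≤ _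
    apply le_floor_div hD
    have h1 : ((32 - e : ℕ) : ℝ) = 32 - (e : ℝ) := by
      rw [Nat.cast_sub (by omega)]; norm_num
    have h0 : (0 : ℝ) ≤ 32 - (e : ℝ) := by rw [← h1]; positivity
    have h2 : ((a0 + c - k1 * (32 - e) : ℕ) : ℝ) = a0 + c - k1 * (32 - (e : ℝ)) := by
      rw [Nat.cast_sub (by omega)]
      push_cast [h1]
      ring
    rw [h2, hc]
    have h3 := mul_le_mul_of_nonneg_right hk1 h0
    push_cast
    nlinarith
  · rw [cond_true]
    have he' : 32 ≤ e := Nat.le_of_ble_eq_true he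
    show (((a0 + k0 * (e - 32) + c) / D : ℕ) : ℤ) ≤ _
    apply le_floor_div hD
    have h1 : ((e - 32 : ℕ) : ℝ) = (e : ℝ) - 32 := by
      rw [Nat.cast_sub he']; norm_num
    have h0 : (0 : ℝ) ≤ (e : ℝ) - 32 := by rw [← h1]; positivity
    have h3 := mul_le_mul_of_nonneg_right hk0 h0
    push_cast [h1]
    rw [hc]
    nlinarith

theorem le_hi {D a0 a1 k0 k1 e c : ℕ} {a κ x : ℝ} (hD : 0 < D) (ha0 : (a0 : ℝ) ≤ D * a)
    (ha : D * a < (a1 : ℝ))
    (hk0 : (k0 : ℝ) ≤ D * κ) (hk1 : D * κ ≤ (k1 : ℝ)) (hc : (c : ℝ) = D * x)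
    (hpos : k1 * (32 - e) ≤ a0) :
    ⌊a + κ * (((e : ℤ) - 32 : ℤ) : ℝ) + x⌋ ≤ ((hi D a1 k0 k1 e c : ℕ) : ℤ) := by
  unfold hi
  cases he : Nat.ble 32 e
  · rw [cond_false]
    have he' : e < 32 := by
      by_contra h
      rw [Nat.ble_eq_true_of_le (by omega)] at he
      cases he
    show _ ≤ (((a1 + c - k0 * (32 - e) - 1) / D : ℕ) : ℤ)
    apply floor_le_div hD
    have h1 : ((32 - e : ℕ) : ℝ) = 32 - (e : ℝ) := by
      rw [Nat.cast_sub (by omega)]; norm_num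
    have h0 : (0 : ℝ) ≤ 32 - (e : ℝ) := by rw [← h1]; positivity
    have h01 : k0 ≤ k1 := by exact_mod_cast hk0.trans hk1
    have ha01 : a0 ≤ a1 := by
      have : (a0 : ℝ) < a1 := lt_of_le_of_lt ha0 ha
      exact_mod_cast this.le
    have h5 : k0 * (32 - e) ≤ k1 * (32 - e) := Nat.mul_le_mul_right _ h01
    have h2 : ((a1 + c - k0 * (32 - e) : ℕ) : ℝ) = a1 + c - k0 * (32 - (e : ℝ)) := by
      rw [Nat.cast_sub (by omega)]
      push_cast [h1]
      ring
    rw [h2, hc]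
    have h3 := mul_le_mul_of_nonneg_right hk0 h0
    push_cast
    nlinarith
  · rw [cond_true]
    have he' : 32 ≤ e := Nat.le_of_ble_eq_true he
    show _ ≤ (((a1 + k1 * (e - 32) + c - 1) / D : ℕ) : ℤ)
    apply floor_le_div hD
    have h1 : ((e - 32 : ℕ) : ℝ) = (e : ℝ) - 32 := by
      rw [Nat.cast_sub he']; norm_num
    have h0 : (0 : ℝ) ≤ (e : ℝ) - 32 := by rw [← h1]; positivity
    have h3 := mul_le_mul_of_nonneg_right hk1 h0
    push_cast [h1]
    rw [hc]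
    nlinarith

/-! ### Families -/

/-- A family of offsets: block length `r`, denominator `N`, offsets `C_j / N - 1/2` for
`j < n1 + 1`; `eT` lists the elements of `T4 r` (plus 32), `cT` the numerators `C_j`; `kT` the
classes of offsets modulo `1`; `tm` the bit mask of `T4 r` shifted by `off`. -/
structure Fam where
  r : Nat
  N : Nat
  n1 : Nat
  n3 : Nat
  m : Nat
  pm : Nat
  off : Nat
  tm : Nat
  w : Nat
  R : Nat
  eT : Nat
  cT : Nat
  kT : Nat

namespace Fam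

/-- code of the digit part of the token `i` -/
def e (F : Fam) (i : Nat) : Nat := fld 8 F.eT (Nat.div i (Nat.succ F.n1))

/-- numerator of the offset of the token `i` -/
def c (F : Fam) (i : Nat) : Nat := fld 8 F.cT (Nat.mod i (Nat.succ F.n1))

/-- the offsets -/
noncomputable def ρ (F : Fam) (j : Fin (F.n1 + 1)) : ℝ := (fld 8 F.cT j : ℝ) / F.N - 1 / 2

/-- the token with number `i` -/
def tok (F : Fam) (i : Nat) : ℤ × Fin (F.n1 + 1) :=
  ((F.e i : ℤ) - 32, ⟨i % (F.n1 + 1), Nat.mod_lt _ (Nat.succ_pos _)⟩)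

/-- class of the token `i` -/
def cls (F : Fam) (i : Nat) : Nat :=
  Nat.shiftLeft (fld (Nat.succ F.n1) F.kT (Nat.mod i (Nat.succ F.n1)))
    (Nat.mul (Nat.succ F.n1) (Nat.div i (Nat.succ F.n1)))

/-- what has to be true of the tables -/
structure Ok (F : Fam) : Prop where
  hN : 0 < F.N
  hR : F.R = 4 ^ F.r
  hm : F.m = 3 ^ F.r * (F.n1 + 1)
  he : ∀ i < 3 ^ F.r, ((fld 8 F.eT i : ℕ) : ℤ) - 32 ∈ C52C.T4 F.r ∧ 32 - fld 8 F.eT i ≤ F.pm
  he' : ∀ x ∈ C52C.T4 F.r, ∃ i < 3 ^ F.r, ((fld 8 F.eT i : ℕ) : ℤ) - 32 = x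
  htm : ∀ x, F.tm.testBit x = true → Ln F.r ((x : ℤ) - F.off)
  hcls : ∀ i < F.m, ∀ i' < F.m, (F.cls i).testBit i' = true →
    F.e i' = F.e i ∧ ∃ z : ℤ, (F.c i' : ℤ) = F.c i + F.N * z

variable {F : Fam}

theorem sup_tok (κ a : ℝ) (i : Nat) :
    Tok.sup κ (F.ρ (F.tok i).2) a (F.tok i).1 =
      ⌊a + κ * (((F.e i : ℤ) - 32 : ℤ) : ℝ) + (F.c i : ℝ) / F.N⌋ := by
  unfold Tok.sup ρ tok
  congr 1
  show a + κ * (((F.e i : ℤ) - 32 : ℤ) : ℝ) + ((fld 8 F.cT (i % (F.n1 + 1)) : ℝ) / F.N - 1 / 2)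
    + 1 / 2 = a + κ * (((F.e i : ℤ) - 32 : ℤ) : ℝ) + (F.c i : ℝ) / F.N
  unfold c
  show a + κ * (((F.e i : ℤ) - 32 : ℤ) : ℝ) + ((fld 8 F.cT (i % (F.n1 + 1)) : ℝ) / F.N - 1 / 2)
    + 1 / 2 = a + κ * (((F.e i : ℤ) - 32 : ℤ) : ℝ) + (fld 8 F.cT (i % (F.n1 + 1)) : ℝ) / F.N
  ring

theorem tok_mem (h : F.Ok) {i : Nat} (hi : i < F.m) :
    F.tok i ∈ C52C.T4 F.r ×ˢ (Finset.univ : Finset (Fin (F.n1 + 1))) := by
  rw [mem_product]
  refine ⟨?_, mem_univ _⟩
  have h1 : i / (F.n1 + 1) < 3 ^ F.r := by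
    rw [Nat.div_lt_iff_lt_mul (Nat.succ_pos _), ← h.hm]
    exact hi
  exact (h.he _ h1).1

theorem tok_surj (h : F.Ok) (x : ℤ × Fin (F.n1 + 1))
    (hx : x ∈ C52C.T4 F.r ×ˢ (Finset.univ : Finset (Fin (F.n1 + 1)))) :
    ∃ i < F.m, F.tok i = x := by
  rw [mem_product] at hx
  obtain ⟨i, hi, he⟩ := h.he' x.1 hx.1
  refine ⟨i * (F.n1 + 1) + x.2, ?_, ?_⟩
  · rw [h.hm]
    calc i * (F.n1 + 1) + x.2 < i * (F.n1 + 1) + (F.n1 + 1) := by
          have := x.2.2
          omega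
      _ = (i + 1) * (F.n1 + 1) := by ring
      _ ≤ 3 ^ F.r * (F.n1 + 1) := Nat.mul_le_mul_right _ hi
  · have h1 : (i * (F.n1 + 1) + (x.2 : ℕ)) / (F.n1 + 1) = i := by
      rw [Nat.add_comm, Nat.add_mul_div_right _ _ (Nat.succ_pos _), Nat.div_eq_of_lt x.2.2,
        Nat.zero_add]
    have h2 : (i * (F.n1 + 1) + (x.2 : ℕ)) % (F.n1 + 1) = x.2 := by
      rw [Nat.add_comm, Nat.add_mul_mod_self_right, Nat.mod_eq_of_lt x.2.2]
    unfold tok e
    apply Prod.ext
    · show ((fld 8 F.eT ((i * (F.n1 + 1) + (x.2 : ℕ)) / (F.n1 + 1)) : ℕ) : ℤ) - 32 = x.1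
      rw [h1]
      exact he
    · apply Fin.ext
      exact h2

theorem pm_le (h : F.Ok) {i : Nat} (hi : i < F.m) : 32 - F.e i ≤ F.pm := by
  have h1 : i / (F.n1 + 1) < 3 ^ F.r := by
    rw [Nat.div_lt_iff_lt_mul (Nat.succ_pos _), ← h.hm]
    exact hi
  exact (h.he _ h1).2

end Fam

/-! ### The checker -/

/-- admissible coded demands for the token `i` on the rectangle -/
def row (tm L H flo fhi i : Nat) : Nat :=
  cond (tb flo i) (Nat.shiftLeft tm L)
    (cond (tb fhi i) (Nat.shiftLeft tm H)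
      (cond (Nat.ble H (Nat.succ L)) (Nat.land (Nat.shiftLeft tm L) (Nat.shiftLeft tm H)) 0))

/-- certificates below a rectangle -/
inductive Tt where
  | leaf (c : Nat) : Tt
  | sT (i : Nat) (l r : Tt) : Tt

/-- certificates -/
inductive Tr where
  | tk (t : Tt) : Tr
  | sA (x : Nat) (l r : Tr) : Tr
  | sK (x : Nat) (l r : Tr) : Tr

/-- check of one vertex of the cycle -/
def edge (F : Fam) (Dq D a0 a1 k0 k1 flo fhi nt c t : Nat) : Bool :=
  frc (fld F.w c (Nat.mul 2 t)) fun i =>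
    frc (row F.tm (lo D a0 k0 k1 (F.e i) (Nat.mul (F.c i) Dq))
      (hi D a1 k0 k1 (F.e i) (Nat.mul (F.c i) Dq)) flo fhi i) fun B =>
      and (tb B (fld 8 nt (fld F.w c (Nat.succ (Nat.mul 2 t)))))
        (tb B (fld 8 nt (fld F.w c (Nat.succ (Nat.mul 2
          (Nat.mod (Nat.sub (Nat.add t F.m) 1) F.m))))))

/-- check of a leaf -/
def chkLeaf (F : Fam) (Dq D a0 a1 k0 k1 flo fhi nt c : Nat) : Bool :=
  and (Nat.beq (covB (fun t => fld F.w c (Nat.mul 2 t)) F.m) (Nat.sub (Nat.pow 2 F.m) 1))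
    (and (Nat.beq (covB (fun t => fld F.w c (Nat.succ (Nat.mul 2 t))) F.m)
      (Nat.sub (Nat.pow 2 F.m) 1))
      (allB (edge F Dq D a0 a1 k0 k1 flo fhi nt c) F.m))

/-- check of the lower part of a certificate -/
def chkT (F : Fam) (Dq D a0 a1 k0 k1 nt : Nat) : Tt → Nat → Nat → Bool
  | .leaf c, flo, fhi => chkLeaf F Dq D a0 a1 k0 k1 flo fhi nt c
  | .sT i l r, flo, fhi =>
    and (and (Nat.ble (Nat.succ i) F.m) (Nat.ble (hi D a1 k0 k1 (F.e i) (Nat.mul (F.c i) Dq))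
      (Nat.succ (lo D a0 k0 k1 (F.e i) (Nat.mul (F.c i) Dq)))))
      (and (chkT F Dq D a0 a1 k0 k1 nt l (Nat.lor flo (F.cls i)) fhi)
        (chkT F Dq D a0 a1 k0 k1 nt r flo (Nat.lor fhi (F.cls i))))

/-- check of a certificate -/
def chkR (F : Fam) (Dq D nt : Nat) : Tr → Nat → Nat → Nat → Nat → Bool
  | .tk t, a0, a1, k0, k1 => chkT F Dq D a0 a1 k0 k1 nt t 0 0
  | .sA x l r, a0, a1, k0, k1 =>
    and (Nat.ble a0 x) (and (chkR F Dq D nt l a0 x k0 k1) (chkR F Dq D nt r x a1 k0 k1))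
  | .sK x l r, a0, a1, k0, k1 =>
    and (Nat.ble x k1) (and (chkR F Dq D nt l a0 a1 k0 x) (chkR F Dq D nt r a0 a1 x k1))

/-- check of the table of demands -/
def chkD (F : Fam) (Dq D kk a0 a1 nt i : Nat) : Bool :=
  frc (F.e i) fun e => frc (Nat.mul (Nat.mul (F.c i) Dq) F.R) fun c =>
    cond (Nat.ble 32 e)
      (frc (Nat.div (Nat.add (Nat.add a0 (Nat.mul (Nat.mul kk (Nat.sub e 32)) D)) c)
          (Nat.mul F.R D)) fun f =>
        and (Nat.beq (Nat.div (Nat.sub (Nat.add (Nat.add a1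
            (Nat.mul (Nat.mul kk (Nat.sub e 32)) D)) c) 1) (Nat.mul F.R D)) f)
          (Nat.beq (Nat.add (fld 8 nt i) (Nat.mul kk (Nat.sub e 32)))
            (Nat.add (Nat.mul F.R f) F.off)))
      (and (Nat.ble (Nat.mul (Nat.mul kk (Nat.sub 32 e)) D) a0)
        (frc (Nat.div (Nat.sub (Nat.add a0 c) (Nat.mul (Nat.mul kk (Nat.sub 32 e)) D))
            (Nat.mul F.R D)) fun f =>
          and (Nat.beq (Nat.div (Nat.sub (Nat.sub (Nat.add a1 c)
              (Nat.mul (Nat.mul kk (Nat.sub 32 e)) D)) 1) (Nat.mul F.R D)) f)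
            (Nat.beq (fld 8 nt i) (Nat.add (Nat.add (Nat.mul F.R f) F.off)
              (Nat.mul kk (Nat.sub 32 e))))))

/-- check of a list of cells -/
def chkL (F : Fam) (Dq D kk k0 k1 Z : Nat) : List (Nat × Nat × Tr) → Nat → Bool
  | [], A => Nat.beq A Z
  | (w, nt, t) :: l, A =>
    frc (Nat.mul A Dq) fun a0 => frc (Nat.mul (Nat.add A w) Dq) fun a1 =>
      and (and (Nat.ble (Nat.mul k1 F.pm) a0) (allB (chkD F Dq D kk a0 a1 nt) F.m))
        (and (chkR F Dq D nt t a0 a1 k0 k1) (chkL F Dq D kk k0 k1 Z l (Nat.add A w)))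

end Pool.Agent.Lib.MP_c52340_nt.Loc2
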