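import Mathlib
import Pool.Agent.Lib.MP_c52340_nt.Loc2B

/-!
Local strong Hall property, part C: soundness of the checker.
-/

set_option autoImplicit false

namespace Pool.Agent.Lib.MP_c52340_nt.Loc2

open Pool.Agent.Lib.MP_c52340_nt Pool.Agent.Lib.MP_c52340_nt.Tok Finset

/-- the point `(a, κ)` lies in the rectangle -/
structure InR (F : Fam) (Dq D a0 a1 k0 k1 : ℕ) (a κ : ℝ) : Prop where
  hDq : 0 < Dq
  hD : D = F.N * Dq
  ha0 : (a0 : ℝ) ≤ D * a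
  ha1 : D * a < (a1 : ℝ)
  hk0 : (k0 : ℝ) ≤ D * κ
  hk1 : D * κ ≤ (k1 : ℝ)
  hp : k1 * F.pm ≤ a0

/-- state of the token `i` -/
noncomputable def st (F : Fam) (κ a : ℝ) (i : ℕ) : ℤ :=
  ⌊a + κ * (((F.e i : ℤ) - 32 : ℤ) : ℝ) + (F.c i : ℝ) / F.N⌋

/-- coded demand of the token `i` -/
def DemOk (F : Fam) (k : ℤ) (a : ℝ) (nt : ℕ) : Prop :=
  ∀ i < F.m, dem k F.r (F.ρ (F.tok i).2) a (F.tok i).1 + F.off = (fld 8 nt i : ℕ)

section

variable {F : Fam} {Dq D a0 a1 k0 k1 : ℕ} {a κ : ℝ}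

theorem InR.D_pos (hF : F.Ok) (h : InR F Dq D a0 a1 k0 k1 a κ) : 0 < D := by
  rw [h.hD]; exact Nat.mul_pos hF.hN h.hDq

theorem InR.hc (hF : F.Ok) (h : InR F Dq D a0 a1 k0 k1 a κ) (n : ℕ) :
    ((n * Dq : ℕ) : ℝ) = D * ((n : ℝ) / F.N) := by
  have hN : (F.N : ℝ) ≠ 0 := by exact_mod_cast hF.hN.ne'
  rw [h.hD]
  push_cast
  field_simp

theorem InR.hpos (hF : F.Ok) (h : InR F Dq D a0 a1 k0 k1 a κ) {i : ℕ} (hi : i < F.m) :
    k1 * (32 - F.e i) ≤ a0 :=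
  (Nat.mul_le_mul_left _ (Fam.pm_le hF hi)).trans h.hp

theorem InR.lo (hF : F.Ok) (h : InR F Dq D a0 a1 k0 k1 a κ) {i : ℕ} (hi : i < F.m) :
    ((lo D a0 k0 k1 (F.e i) (Nat.mul (F.c i) Dq) : ℕ) : ℤ) ≤ st F κ a i :=
  lo_le (h.D_pos hF) h.ha0 h.hk0 h.hk1 (h.hc hF _) (h.hpos hF hi)

theorem InR.hi (hF : F.Ok) (h : InR F Dq D a0 a1 k0 k1 a κ) {i : ℕ} (hi' : i < F.m) :
    st F κ a i ≤ ((hi D a1 k0 k1 (F.e i) (Nat.mul (F.c i) Dq) : ℕ) : ℤ) :=
  le_hi (h.D_pos hF) h.ha0 h.ha1 h.hk0 h.hk1 (h.hc hF _) (h.hpos hF hi')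

theorem row_sound {tm L H flo fhi i x : ℕ} {q : ℤ} (h : tb (row tm L H flo fhi i) x = true)
    (hL : (L : ℤ) ≤ q) (hH : q ≤ (H : ℤ)) (h1 : flo.testBit i = true → q = L)
    (h2 : fhi.testBit i = true → q = H) : ∃ q' : ℕ, q = q' ∧ q' ≤ x ∧ tm.testBit (x - q') = true := by
  have key : ∀ Q : ℕ, (tm <<< Q).testBit x = true → q = Q →
      ∃ q' : ℕ, q = q' ∧ q' ≤ x ∧ tm.testBit (x - q') = true := by
    intro Q hQ hq
    rw [Nat.testBit_shiftLeft, Bool.and_eq_true, decide_eq_true_eq] at hQ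
    exact ⟨Q, hq, hQ.1, hQ.2⟩
  unfold row at h
  rw [tb_eq] at h
  cases hb : tb flo i
  · rw [hb, cond_false] at h
    cases hb2 : tb fhi i
    · rw [hb2, cond_false] at h
      cases hb3 : Nat.ble H (Nat.succ L)
      · rw [hb3, cond_false] at h
        simp at h
      · rw [hb3, cond_true] at h
        have hle : H ≤ L + 1 := Nat.le_of_ble_eq_true hb3
        have h' : ((tm <<< L) &&& (tm <<< H)).testBit x = true := h
        rw [Nat.testBit_and, Bool.and_eq_true] at h'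
        have : q = L ∨ q = H := by omega
        rcases this with h3 | h3
        · exact key L h'.1 h3
        · exact key H h'.2 h3
    · rw [hb2, cond_true] at h
      rw [tb_eq] at hb2
      exact key H h (h2 hb2)
  · rw [hb, cond_true] at h
    rw [tb_eq] at hb
    exact key L h (h1 hb)

/-- the forced states -/
structure Forced (F : Fam) (Dq D a0 a1 k0 k1 : ℕ) (a κ : ℝ) (flo fhi : ℕ) : Prop where
  h1 : ∀ i < F.m, flo.testBit i = true →
    st F κ a i = (lo D a0 k0 k1 (F.e i) (Nat.mul (F.c i) Dq) : ℕ)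
  h2 : ∀ i < F.m, fhi.testBit i = true →
    st F κ a i = (hi D a1 k0 k1 (F.e i) (Nat.mul (F.c i) Dq) : ℕ)

theorem edge_sound (hF : F.Ok) (h : InR F Dq D a0 a1 k0 k1 a κ) {k : ℤ} {nt flo fhi c t : ℕ}
    (hf : Forced F Dq D a0 a1 k0 k1 a κ flo fhi) (hd : DemOk F k a nt)
    (he : edge F Dq D a0 a1 k0 k1 flo fhi nt c t = true)
    (hi1 : fld F.w c (2 * t) < F.m) (hi2 : fld F.w c (2 * t + 1) < F.m)
    (hi3 : fld F.w c (2 * ((t + F.m - 1) % F.m) + 1) < F.m) :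
    Lo k κ F.ρ F.r a (F.tok (fld F.w c (2 * t))) (F.tok (fld F.w c (2 * t + 1))) ∧
    Lo k κ F.ρ F.r a (F.tok (fld F.w c (2 * t)))
      (F.tok (fld F.w c (2 * ((t + F.m - 1) % F.m) + 1))) := by
  unfold edge at he
  rw [frc_eq, frc_eq, Bool.and_eq_true] at he
  have key : ∀ i i' : ℕ, i < F.m → i' < F.m →
      tb (row F.tm (lo D a0 k0 k1 (F.e i) (Nat.mul (F.c i) Dq))
        (hi D a1 k0 k1 (F.e i) (Nat.mul (F.c i) Dq)) flo fhi i) (fld 8 nt i') = true →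
      Lo k κ F.ρ F.r a (F.tok i) (F.tok i') := by
    intro i i' hi hi' hb
    obtain ⟨q, hq, hq1, hq2⟩ := row_sound hb (h.lo hF hi) (h.hi hF hi) (hf.h1 i hi) (hf.h2 i hi)
    unfold Lo
    rw [Fam.sup_tok]
    have hst : ⌊a + κ * (((F.e i : ℤ) - 32 : ℤ) : ℝ) + (F.c i : ℝ) / F.N⌋ = st F κ a i := rfl
    rw [hst, hq]
    have h3 := hF.htm _ hq2
    have h4 := hd i' hi'
    have h5 : dem k F.r (F.ρ (F.tok i').2) a (F.tok i').1 - (q : ℤ) =
        ((fld 8 nt i' - q : ℕ) : ℤ) - F.off := by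
      rw [Nat.cast_sub hq1]
      linarith
    rw [h5]
    exact h3
  exact ⟨key _ _ hi1 hi2 he.1, key _ _ hi1 hi3 he.2⟩

theorem chkLeaf_sound (hF : F.Ok) (h : InR F Dq D a0 a1 k0 k1 a κ) {k : ℤ} {nt flo fhi c : ℕ}
    (hf : Forced F Dq D a0 a1 k0 k1 a κ flo fhi) (hd : DemOk F k a nt)
    (he : chkLeaf F Dq D a0 a1 k0 k1 flo fhi nt c = true) : SH k κ F.ρ F.r a := by
  unfold chkLeaf at he
  rw [Bool.and_eq_true, Bool.and_eq_true] at he
  obtain ⟨c1, c2, c3⟩ := he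
  have c1' := Nat.eq_of_beq_eq_true c1
  have c2' := Nat.eq_of_beq_eq_true c2
  have hm : ∀ x : ℕ, (2 ^ F.m - 1).testBit x = decide (x < F.m) := Nat.testBit_two_pow_sub_one F.m
  have s1 : ∀ i < F.m, ∃ t < F.m, fld F.w c (2 * t) = i := by
    intro i hi
    have : (covB (fun t => fld F.w c (Nat.mul 2 t)) F.m).testBit i = true := by
      rw [c1']
      exact (hm i).trans (decide_eq_true hi)
    exact covB_spec.1 this
  have s2 : ∀ i < F.m, ∃ t < F.m, fld F.w c (2 * t + 1) = i := by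
    intro i hi
    have : (covB (fun t => fld F.w c (Nat.succ (Nat.mul 2 t))) F.m).testBit i = true := by
      rw [c2']
      exact (hm i).trans (decide_eq_true hi)
    exact covB_spec.1 this
  have t1 : ∀ t < F.m, fld F.w c (2 * t) < F.m := by
    intro t ht
    have h1 : (covB (fun t => fld F.w c (Nat.mul 2 t)) F.m).testBit (fld F.w c (2 * t)) = true :=
      covB_spec.2 ⟨t, ht, rfl⟩
    rw [c1'] at h1
    exact of_decide_eq_true ((hm _).symm.trans h1)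
  have t2 : ∀ t < F.m, fld F.w c (2 * t + 1) < F.m := by
    intro t ht
    have h1 : (covB (fun t => fld F.w c (Nat.succ (Nat.mul 2 t))) F.m).testBit
        (fld F.w c (2 * t + 1)) = true := covB_spec.2 ⟨t, ht, rfl⟩
    rw [c2'] at h1
    exact of_decide_eq_true ((hm _).symm.trans h1)
  have hall := allB_spec c3
  have hed : ∀ t < F.m, _ := fun t ht =>
    edge_sound hF h hf hd (hall t ht) (t1 t ht) (t2 t ht)
      (t2 _ (Nat.mod_lt _ (by omega)))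
  refine SH_of_cycle F.m (fun t => F.tok (fld F.w c (2 * t)))
    (fun t => F.tok (fld F.w c (2 * t + 1))) ?_ ?_ ?_ ?_ ?_ ?_
  · rw [card_product, C52C.T4_card, card_univ, Fintype.card_fin, hF.hm]
  · intro x hx
    obtain ⟨i, hi, rfl⟩ := Fam.tok_surj hF x hx
    obtain ⟨t, ht, h1⟩ := s1 i hi
    exact ⟨t, ht, by rw [h1]⟩
  · intro x hx
    obtain ⟨i, hi, rfl⟩ := Fam.tok_surj hF x hx
    obtain ⟨t, ht, h1⟩ := s2 i hi
    exact ⟨t, ht, by rw [h1]⟩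
  · intro t ht
    exact Fam.tok_mem hF (t2 t ht)
  · intro t ht
    exact (hed t ht).1
  · intro t ht
    exact (hed t ht).2

theorem div_add_mul' {X D : ℕ} (hD : 0 < D) {Y : ℕ} {z : ℤ} (h : (Y : ℤ) = X + D * z) :
    ((Y / D : ℕ) : ℤ) = ((X / D : ℕ) : ℤ) + z := by
  rw [Int.natCast_ediv, Int.natCast_ediv, h]
  exact Int.add_mul_ediv_left _ _ (by exact_mod_cast hD.ne')

theorem lo_shift (hF : F.Ok) (h : InR F Dq D a0 a1 k0 k1 a κ) {i i' : ℕ} (hi : i < F.m)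
    (he : F.e i' = F.e i) {z : ℤ} (hc : (F.c i' : ℤ) = F.c i + F.N * z) :
    ((lo D a0 k0 k1 (F.e i') (Nat.mul (F.c i') Dq) : ℕ) : ℤ) =
      (lo D a0 k0 k1 (F.e i) (Nat.mul (F.c i) Dq) : ℕ) + z := by
  have hpos := h.hpos hF hi
  have hcc : ((F.c i' * Dq : ℕ) : ℤ) = ((F.c i * Dq : ℕ) : ℤ) + D * z := by
    rw [h.hD]; push_cast; rw [hc]; ring
  unfold lo
  rw [he]
  cases Nat.ble 32 (F.e i)
  · rw [cond_false, cond_false]
    show (((a0 + F.c i' * Dq - k1 * (32 - F.e i)) / D : ℕ) : ℤ) =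
      (((a0 + F.c i * Dq - k1 * (32 - F.e i)) / D : ℕ) : ℤ) + z
    apply div_add_mul' (h.D_pos hF)
    rw [Nat.cast_sub (by omega), Nat.cast_sub (by omega), Nat.cast_add, Nat.cast_add, hcc]
    ring
  · rw [cond_true, cond_true]
    show (((a0 + k0 * (F.e i - 32) + F.c i' * Dq) / D : ℕ) : ℤ) =
      (((a0 + k0 * (F.e i - 32) + F.c i * Dq) / D : ℕ) : ℤ) + z
    apply div_add_mul' (h.D_pos hF)
    rw [Nat.cast_add, Nat.cast_add _ (F.c i * Dq), hcc]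
    ring

theorem hi_shift (hF : F.Ok) (h : InR F Dq D a0 a1 k0 k1 a κ) {i i' : ℕ} (hi' : i < F.m)
    (he : F.e i' = F.e i) {z : ℤ} (hc : (F.c i' : ℤ) = F.c i + F.N * z) :
    ((hi D a1 k0 k1 (F.e i') (Nat.mul (F.c i') Dq) : ℕ) : ℤ) =
      (hi D a1 k0 k1 (F.e i) (Nat.mul (F.c i) Dq) : ℕ) + z := by
  have hpos := h.hpos hF hi'
  have hcc : ((F.c i' * Dq : ℕ) : ℤ) = ((F.c i * Dq : ℕ) : ℤ) + D * z := by
    rw [h.hD]; push_cast; rw [hc]; ring
  have h01 : k0 ≤ k1 := by exact_mod_cast h.hk0.trans h.hk1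
  have ha01 : a0 < a1 := by
    have : (a0 : ℝ) < a1 := lt_of_le_of_lt h.ha0 h.ha1
    exact_mod_cast this
  have h5 : k0 * (32 - F.e i) ≤ k1 * (32 - F.e i) := Nat.mul_le_mul_right _ h01
  unfold hi
  rw [he]
  cases Nat.ble 32 (F.e i)
  · rw [cond_false, cond_false]
    show (((a1 + F.c i' * Dq - k0 * (32 - F.e i) - 1) / D : ℕ) : ℤ) =
      (((a1 + F.c i * Dq - k0 * (32 - F.e i) - 1) / D : ℕ) : ℤ) + z
    apply div_add_mul' (h.D_pos hF)
    rw [Nat.cast_sub (by omega), Nat.cast_sub (by omega), Nat.cast_sub (by omega),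
      Nat.cast_sub (by omega), Nat.cast_add, Nat.cast_add, hcc]
    ring
  · rw [cond_true, cond_true]
    show (((a1 + k1 * (F.e i - 32) + F.c i' * Dq - 1) / D : ℕ) : ℤ) =
      (((a1 + k1 * (F.e i - 32) + F.c i * Dq - 1) / D : ℕ) : ℤ) + z
    apply div_add_mul' (h.D_pos hF)
    rw [Nat.cast_sub (by omega), Nat.cast_sub (by omega), Nat.cast_add,
      Nat.cast_add _ (F.c i * Dq), hcc]
    ring

theorem st_shift (hF : F.Ok) {i i' : ℕ} (he : F.e i' = F.e i) {z : ℤ}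
    (hc : (F.c i' : ℤ) = F.c i + F.N * z) : st F κ a i' = st F κ a i + z := by
  unfold st
  have hN : (F.N : ℝ) ≠ 0 := by exact_mod_cast hF.hN.ne'
  have hc' : (F.c i' : ℝ) = F.c i + F.N * z := by exact_mod_cast hc
  have h1 : ((F.c i : ℝ) + F.N * z) / F.N = (F.c i : ℝ) / F.N + z := by
    rw [add_div, mul_div_cancel_left₀ _ hN]
  rw [he, hc', h1, ← add_assoc, Int.floor_add_intCast]

theorem chkT_sound (hF : F.Ok) (h : InR F Dq D a0 a1 k0 k1 a κ) {k : ℤ} {nt : ℕ}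
    (hd : DemOk F k a nt) (t : Tt) : ∀ flo fhi : ℕ,
    Forced F Dq D a0 a1 k0 k1 a κ flo fhi → chkT F Dq D a0 a1 k0 k1 nt t flo fhi = true →
    SH k κ F.ρ F.r a := by
  induction t with
  | leaf c =>
    intro flo fhi hf he
    exact chkLeaf_sound hF h hf hd he
  | sT i l r ihl ihr =>
    intro flo fhi hf he
    unfold chkT at he
    rw [Bool.and_eq_true, Bool.and_eq_true, Bool.and_eq_true] at he
    obtain ⟨⟨c1, c2⟩, c3, c4⟩ := he
    have hi1 : i < F.m := Nat.le_of_ble_eq_true c1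
    have hle : hi D a1 k0 k1 (F.e i) (Nat.mul (F.c i) Dq) ≤
      lo D a0 k0 k1 (F.e i) (Nat.mul (F.c i) Dq) + 1 := Nat.le_of_ble_eq_true c2
    have b1 := h.lo hF hi1
    have b2 := h.hi hF hi1
    have hor : st F κ a i = (lo D a0 k0 k1 (F.e i) (Nat.mul (F.c i) Dq) : ℕ) ∨
      st F κ a i = (hi D a1 k0 k1 (F.e i) (Nat.mul (F.c i) Dq) : ℕ) := by omega
    rcases hor with hl | hr
    · refine ihl _ _ ⟨?_, hf.h2⟩ c3
      intro i' hi' hb
      have hb' : (flo ||| F.cls i).testBit i' = true := hb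
      rw [Nat.testBit_or, Bool.or_eq_true] at hb'
      rcases hb' with hb' | hb'
      · exact hf.h1 i' hi' hb'
      · obtain ⟨he, z, hc⟩ := hF.hcls i hi1 i' hi' hb'
        rw [st_shift hF he hc, lo_shift hF h hi1 he hc, hl]
    · refine ihr _ _ ⟨hf.h1, ?_⟩ c4
      intro i' hi' hb
      have hb' : (fhi ||| F.cls i).testBit i' = true := hb
      rw [Nat.testBit_or, Bool.or_eq_true] at hb'
      rcases hb' with hb' | hb'
      · exact hf.h2 i' hi' hb'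
      · obtain ⟨he, z, hc⟩ := hF.hcls i hi1 i' hi' hb'
        rw [st_shift hF he hc, hi_shift hF h hi1 he hc, hr]

end

theorem chkR_sound {F : Fam} {Dq D : ℕ} {a κ : ℝ} (hF : F.Ok) {k : ℤ} {nt : ℕ}
    (hd : DemOk F k a nt) (t : Tr) : ∀ a0 a1 k0 k1 : ℕ, InR F Dq D a0 a1 k0 k1 a κ →
    chkR F Dq D nt t a0 a1 k0 k1 = true → SH k κ F.ρ F.r a := by
  induction t with
  | tk t =>
    intro a0 a1 k0 k1 h he
    refine chkT_sound hF h hd t 0 0 ⟨?_, ?_⟩ he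
    · intro i _ hb
      simp at hb
    · intro i _ hb
      simp at hb
  | sA x l r ihl ihr =>
    intro a0 a1 k0 k1 h he
    unfold chkR at he
    rw [Bool.and_eq_true, Bool.and_eq_true] at he
    obtain ⟨c1, c2, c3⟩ := he
    have hx : a0 ≤ x := Nat.le_of_ble_eq_true c1
    rcases lt_or_ge (D * a) (x : ℝ) with h1 | h1
    · exact ihl _ _ _ _ ⟨h.hDq, h.hD, h.ha0, h1, h.hk0, h.hk1, h.hp⟩ c2
    · exact ihr _ _ _ _ ⟨h.hDq, h.hD, h1, h.ha1, h.hk0, h.hk1, h.hp.trans hx⟩ c3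
  | sK x l r ihl ihr =>
    intro a0 a1 k0 k1 h he
    unfold chkR at he
    rw [Bool.and_eq_true, Bool.and_eq_true] at he
    obtain ⟨c1, c2, c3⟩ := he
    have hx : x ≤ k1 := Nat.le_of_ble_eq_true c1
    rcases le_total (D * κ) (x : ℝ) with h1 | h1
    · exact ihl _ _ _ _ ⟨h.hDq, h.hD, h.ha0, h.ha1, h.hk0, h1,
        (Nat.mul_le_mul_right _ hx).trans h.hp⟩ c2
    · exact ihr _ _ _ _ ⟨h.hDq, h.hD, h.ha0, h.ha1, h1, h.hk1, h.hp⟩ c3

theorem chkD_sound {F : Fam} {Dq D kk a0 a1 nt i : ℕ} {a : ℝ} (hF : F.Ok) (hDq : 0 < Dq)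
    (hD : D = F.N * Dq) (ha0 : (a0 : ℝ) ≤ D * a) (ha1 : D * a < (a1 : ℝ))
    (h : chkD F Dq D kk a0 a1 nt i = true) :
    dem kk F.r (F.ρ (F.tok i).2) a (F.tok i).1 + F.off = (fld 8 nt i : ℕ) := by
  have hDp : 0 < D := by rw [hD]; exact Nat.mul_pos hF.hN hDq
  have hRp : 0 < F.R := by rw [hF.hR]; positivity
  have hRD : 0 < F.R * D := Nat.mul_pos hRp hDp
  have hN : (F.N : ℝ) ≠ 0 := by exact_mod_cast hF.hN.ne'
  have hRr : (F.R : ℝ) = 4 ^ F.r := by rw [hF.hR]; push_cast; ring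
  have hR0 : (F.R : ℝ) ≠ 0 := by exact_mod_cast hRp.ne'
  have hdem : dem kk F.r (F.ρ (F.tok i).2) a (F.tok i).1 =
      F.R * ⌊(a + (kk : ℝ) * (((F.e i : ℤ) - 32 : ℤ) : ℝ)) / F.R + (F.c i : ℝ) / F.N⌋
        - kk * ((F.e i : ℤ) - 32) := by
    unfold dem Fam.ρ Fam.tok
    show 4 ^ F.r * ⌊(a + ((kk : ℤ) : ℝ) * (((F.e i : ℤ) - 32 : ℤ) : ℝ)) / 4 ^ F.r +
      ((fld 8 F.cT (i % (F.n1 + 1)) : ℝ) / F.N - 1 / 2) + 1 / 2⌋ - kk * ((F.e i : ℤ) - 32) = _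
    have h1 : (4 : ℤ) ^ F.r = F.R := by rw [hF.hR]; push_cast; ring
    rw [h1, hRr]
    have h2 : F.c i = fld 8 F.cT (i % (F.n1 + 1)) := rfl
    rw [h2]
    have h3 : (a + ((kk : ℤ) : ℝ) * (((F.e i : ℤ) - 32 : ℤ) : ℝ)) / 4 ^ F.r +
        ((fld 8 F.cT (i % (F.n1 + 1)) : ℝ) / F.N - 1 / 2) + 1 / 2 =
        (a + (kk : ℝ) * (((F.e i : ℤ) - 32 : ℤ) : ℝ)) / 4 ^ F.r +
        (fld 8 F.cT (i % (F.n1 + 1)) : ℝ) / F.N := by
      push_cast
      ring
    rw [h3]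
  rw [hdem]
  unfold chkD at h
  rw [frc_eq, frc_eq] at h
  have hcR : ((F.c i * Dq * F.R : ℕ) : ℝ) = F.R * (D * ((F.c i : ℝ) / F.N)) := by
    rw [hD]
    push_cast
    field_simp
  set w : ℝ := (a + (kk : ℝ) * (((F.e i : ℤ) - 32 : ℤ) : ℝ)) / F.R + (F.c i : ℝ) / F.N with hw
  have hRw : ((F.R * D : ℕ) : ℝ) * w =
      D * a + kk * (((F.e i : ℤ) - 32 : ℤ) : ℝ) * D + ((F.c i * Dq * F.R : ℕ) : ℝ) := by
    rw [hcR, hw]
    push_cast
    field_simp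
  cases he : Nat.ble 32 (F.e i)
  · rw [he, cond_false, Bool.and_eq_true, frc_eq, Bool.and_eq_true] at h
    have he' : F.e i < 32 := by
      by_contra hcon
      rw [Nat.ble_eq_true_of_le (by omega)] at he
      cases he
    obtain ⟨c0, c1, c2⟩ := h
    have c0' : kk * (32 - F.e i) * D ≤ a0 := Nat.le_of_ble_eq_true c0
    have c1' : (a1 + F.c i * Dq * F.R - kk * (32 - F.e i) * D - 1) / (F.R * D) =
      (a0 + F.c i * Dq * F.R - kk * (32 - F.e i) * D) / (F.R * D) := Nat.eq_of_beq_eq_true c1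
    have c2' : fld 8 nt i = F.R * ((a0 + F.c i * Dq * F.R - kk * (32 - F.e i) * D) / (F.R * D)) +
      F.off + kk * (32 - F.e i) := Nat.eq_of_beq_eq_true c2
    have ha01 : a0 ≤ a1 := by
      have : (a0 : ℝ) < a1 := lt_of_le_of_lt ha0 ha1
      exact_mod_cast this.le
    have h1 : ((32 - F.e i : ℕ) : ℝ) = 32 - (F.e i : ℝ) := by
      rw [Nat.cast_sub (by omega)]; norm_num
    have h1' : ((32 - F.e i : ℕ) : ℤ) = 32 - (F.e i : ℤ) := by
      rw [Nat.cast_sub (by omega)]; norm_num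
    have f1 : (((a0 + F.c i * Dq * F.R - kk * (32 - F.e i) * D) / (F.R * D) : ℕ) : ℤ) ≤ ⌊w⌋ := by
      apply le_floor_div hRD
      rw [hRw, Nat.cast_sub (by omega), Nat.cast_add, Nat.cast_mul _ D, Nat.cast_mul kk, h1]
      push_cast
      linarith
    have f2 : ⌊w⌋ ≤
        (((a1 + F.c i * Dq * F.R - kk * (32 - F.e i) * D - 1) / (F.R * D) : ℕ) : ℤ) := by
      apply floor_le_div hRD
      rw [hRw, Nat.cast_sub (by omega), Nat.cast_add, Nat.cast_mul _ D, Nat.cast_mul kk, h1]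
      push_cast
      linarith
    rw [c1'] at f2
    have f3 := le_antisymm f2 f1
    rw [f3, c2']
    push_cast [h1']
    ring
  · rw [he, cond_true, frc_eq, Bool.and_eq_true] at h
    have he' : 32 ≤ F.e i := Nat.le_of_ble_eq_true he
    obtain ⟨c1, c2⟩ := h
    have c1' : (a1 + kk * (F.e i - 32) * D + F.c i * Dq * F.R - 1) / (F.R * D) =
      (a0 + kk * (F.e i - 32) * D + F.c i * Dq * F.R) / (F.R * D) := Nat.eq_of_beq_eq_true c1
    have c2' : fld 8 nt i + kk * (F.e i - 32) =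
      F.R * ((a0 + kk * (F.e i - 32) * D + F.c i * Dq * F.R) / (F.R * D)) + F.off :=
      Nat.eq_of_beq_eq_true c2
    have h1 : ((F.e i - 32 : ℕ) : ℝ) = (F.e i : ℝ) - 32 := by
      rw [Nat.cast_sub he']; norm_num
    have h1' : ((F.e i - 32 : ℕ) : ℤ) = (F.e i : ℤ) - 32 := by
      rw [Nat.cast_sub he']; norm_num
    have f1 : (((a0 + kk * (F.e i - 32) * D + F.c i * Dq * F.R) / (F.R * D) : ℕ) : ℤ) ≤ ⌊w⌋ := by
      apply le_floor_div hRD
      rw [hRw, Nat.cast_add, Nat.cast_add, Nat.cast_mul _ D, Nat.cast_mul kk, h1]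
      push_cast
      linarith
    have f2 : ⌊w⌋ ≤
        (((a1 + kk * (F.e i - 32) * D + F.c i * Dq * F.R - 1) / (F.R * D) : ℕ) : ℤ) := by
      apply floor_le_div hRD
      rw [hRw, Nat.cast_add, Nat.cast_add, Nat.cast_mul _ D, Nat.cast_mul kk, h1]
      push_cast
      linarith
    rw [c1'] at f2
    have f3 := le_antisymm f2 f1
    rw [f3]
    have c3 : ((fld 8 nt i : ℕ) : ℤ) + kk * ((F.e i : ℤ) - 32) =
      F.R * (((a0 + kk * (F.e i - 32) * D + F.c i * Dq * F.R) / (F.R * D) : ℕ) : ℤ) + F.off := by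
      rw [← h1']
      exact_mod_cast c2'
    linarith

theorem chkL_sound {F : Fam} {Dq D kk k0 k1 Z : ℕ} {a κ : ℝ} (hF : F.Ok) (hDq : 0 < Dq)
    (hD : D = F.N * Dq) (hk0 : (k0 : ℝ) ≤ D * κ) (hk1 : D * κ ≤ (k1 : ℝ))
    (l : List (ℕ × ℕ × Tr)) : ∀ A : ℕ, chkL F Dq D kk k0 k1 Z l A = true →
    ((A * Dq : ℕ) : ℝ) ≤ D * a → D * a < ((Z * Dq : ℕ) : ℝ) → SH kk κ F.ρ F.r a := by
  induction l with
  | nil =>
    intro A h h1 h2
    have hA : A = Z := Nat.eq_of_beq_eq_true h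
    rw [hA] at h1
    exact absurd (lt_of_le_of_lt h1 h2) (lt_irrefl _)
  | cons x l ih =>
    obtain ⟨w, nt, t⟩ := x
    intro A h h1 h2
    unfold chkL at h
    rw [frc_eq, frc_eq, Bool.and_eq_true, Bool.and_eq_true, Bool.and_eq_true] at h
    obtain ⟨⟨c1, c2⟩, c3, c4⟩ := h
    rcases lt_or_ge (D * a) (((A + w) * Dq : ℕ) : ℝ) with h3 | h3
    · have hin : InR F Dq D (A * Dq) ((A + w) * Dq) k0 k1 a κ :=
        ⟨hDq, hD, h1, h3, hk0, hk1, Nat.le_of_ble_eq_true c1⟩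
      refine chkR_sound hF ?_ t _ _ _ _ hin c3
      intro i hi
      exact chkD_sound hF hDq hD h1 h3 (allB_spec c2 i hi)
    · exact ih (A + w) c4 h3 h2

/-- A complete certificate for one residue class of `k`. -/
theorem SH_of_chkL {F : Fam} {Dq D kk k0 k1 Z A : ℕ} {κ : ℝ} (hF : F.Ok) (hDq : 0 < Dq)
    (hD : D = F.N * Dq) (hk0 : (k0 : ℝ) ≤ D * κ) (hk1 : D * κ ≤ (k1 : ℝ))
    (hZ : Z = A + F.R * F.N) {l : List (ℕ × ℕ × Tr)}
    (h : chkL F Dq D kk k0 k1 Z l A = true) (a : ℝ) : SH kk κ F.ρ F.r a := by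
  have hDp : 0 < D := by rw [hD]; exact Nat.mul_pos hF.hN hDq
  have hRp : 0 < F.R := by rw [hF.hR]; positivity
  have hN : (0 : ℝ) < F.N := by exact_mod_cast hF.hN
  have hR : (0 : ℝ) < F.R := by exact_mod_cast hRp
  have hRr : ((4 ^ F.r : ℤ) : ℝ) = F.R := by rw [hF.hR]; push_cast; ring
  set z : ℤ := -⌊(a - (A : ℝ) / F.N) / F.R⌋ with hz
  have h1 := Int.floor_le ((a - (A : ℝ) / F.N) / F.R)
  have h2 := Int.lt_floor_add_one ((a - (A : ℝ) / F.N) / F.R)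
  have hzr : (⌊(a - (A : ℝ) / F.N) / F.R⌋ : ℝ) = -(z : ℝ) := by rw [hz]; push_cast; ring
  rw [hzr] at h1 h2
  rw [le_div_iff₀ hR] at h1
  rw [div_lt_iff₀ hR] at h2
  refine SH_shift (z := z) ?_
  rw [hRr]
  have hDr : (D : ℝ) = F.N * Dq := by rw [hD]; push_cast; ring
  have hDq' : (0 : ℝ) < Dq := by exact_mod_cast hDq
  refine chkL_sound hF hDq hD hk0 hk1 l A h ?_ ?_
  · have h3 : (A : ℝ) / F.N ≤ a + F.R * z := by linarith
    rw [div_le_iff₀ hN] at h3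
    rw [hDr]
    push_cast
    nlinarith
  · have h3 : a + F.R * z < (A : ℝ) / F.N + F.R := by linarith
    have h4 : (a + F.R * z) * F.N < A + F.R * F.N := by
      have h5 := mul_lt_mul_of_pos_right h3 hN
      have h6 : ((A : ℝ) / F.N + F.R) * F.N = A + F.R * F.N := by
        rw [add_mul, div_mul_cancel₀ _ hN.ne']
      rwa [h6] at h5
    rw [hDr, hZ]
    push_cast
    nlinarith

end Pool.Agent.Lib.MP_c52340_nt.Loc2
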