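import Pool.Agent.Lib.MP_c52340_nt.Loc2C

/-!
Local strong Hall property, part F: the families of offsets with block length `2`.
-/

set_option autoImplicit false

namespace Pool.Agent.Lib.MP_c52340_nt.Loc2

open Pool.Agent.Lib.MP_c52340_nt Pool.Agent.Lib.MP_c52340_nt.Tok Finset

/-- the family with block length `2`, denominator `N`, `n1 + 1` offsets -/
def fam2 (N n1 w cT kT : Nat) : Fam where
  r := 2
  N := N
  n1 := n1
  n3 := 9
  m := 9 * (n1 + 1)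
  pm := 5
  off := 5
  tm := 1911
  w := w
  R := 16
  eT := 27 + 28 * 2 ^ 8 + 29 * 2 ^ 16 + 31 * 2 ^ 24 + 32 * 2 ^ 32 + 33 * 2 ^ 40 + 35 * 2 ^ 48 +
    36 * 2 ^ 56 + 37 * 2 ^ 64
  cT := cT
  kT := kT

/-- check of the classes -/
def clsOk (F : Fam) : Bool :=
  allB (fun i => allB (fun i' => cond (tb (F.cls i) i')
    (and (Nat.beq (F.e i') (F.e i)) (Nat.beq (Nat.mod (F.c i') F.N) (Nat.mod (F.c i) F.N))) true)
    F.m) F.m

theorem T4_two : C52C.T4 2 = ({-5, -4, -3, -1, 0, 1, 3, 4, 5} : Finset ℤ) := by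
  decide +kernel

theorem fam2_ok {N n1 w cT kT : Nat} (hN : 0 < N) (hc : clsOk (fam2 N n1 w cT kT) = true) :
    (fam2 N n1 w cT kT).Ok where
  hN := hN
  hR := rfl
  hm := rfl
  he := by
    have : ∀ i < 9, (((fld 8 (27 + 28 * 2 ^ 8 + 29 * 2 ^ 16 + 31 * 2 ^ 24 + 32 * 2 ^ 32 +
        33 * 2 ^ 40 + 35 * 2 ^ 48 + 36 * 2 ^ 56 + 37 * 2 ^ 64) i : ℕ) : ℤ) - 32 ∈
        ({-5, -4, -3, -1, 0, 1, 3, 4, 5} : Finset ℤ)) ∧
        32 - (fld 8 (27 + 28 * 2 ^ 8 + 29 * 2 ^ 16 + 31 * 2 ^ 24 + 32 * 2 ^ 32 +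
        33 * 2 ^ 40 + 35 * 2 ^ 48 + 36 * 2 ^ 56 + 37 * 2 ^ 64) i) ≤ 5 := by decide +kernel
    intro i hi
    have h2 := this i hi
    rw [← T4_two] at h2
    exact h2
  he' := by
    have : ∀ x ∈ ({-5, -4, -3, -1, 0, 1, 3, 4, 5} : Finset ℤ), ∃ i < 9,
        ((fld 8 (27 + 28 * 2 ^ 8 + 29 * 2 ^ 16 + 31 * 2 ^ 24 + 32 * 2 ^ 32 +
        33 * 2 ^ 40 + 35 * 2 ^ 48 + 36 * 2 ^ 56 + 37 * 2 ^ 64) i : ℕ) : ℤ) - 32 = x := by
      decide +kernel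
    intro x hx
    have hx' : x ∈ C52C.T4 2 := hx
    rw [T4_two] at hx'
    exact this x hx'
  htm := by
    have key : ∀ x < 11, Nat.testBit 1911 x = true →
        ((x : ℤ) - 5) ∈ ({-5, -4, -3, -1, 0, 1, 3, 4, 5} : Finset ℤ) := by decide +kernel
    intro x hx
    have hx' : Nat.testBit 1911 x = true := hx
    have hlt : x < 11 := by
      by_contra hcon
      rw [Nat.testBit_lt_two_pow (lt_of_lt_of_le (by norm_num : 1911 < 2 ^ 11)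
        (Nat.pow_le_pow_right (by norm_num) (by omega)))] at hx'
      cases hx'
    have h1 := key x hlt hx'
    rw [← T4_two, C52C.mem_T4] at h1
    exact h1
  hcls := by
    intro i hi i' hi' hb
    have h1 := allB_spec (allB_spec hc i hi) i' hi'
    rw [tb_eq, hb, cond_true, Bool.and_eq_true] at h1
    refine ⟨Nat.eq_of_beq_eq_true h1.1, ?_⟩
    have h2 : (fam2 N n1 w cT kT).c i' % N = (fam2 N n1 w cT kT).c i % N :=
      Nat.eq_of_beq_eq_true h1.2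
    have h3 : (fam2 N n1 w cT kT).c i ≡ (fam2 N n1 w cT kT).c i' [MOD N] := h2.symm
    obtain ⟨z, hz⟩ := (Nat.modEq_iff_dvd.1 h3)
    refine ⟨z, ?_⟩
    have h4 : ((fam2 N n1 w cT kT).N : ℤ) = (N : ℤ) := rfl
    rw [h4]
    linarith

/-- offsets `±5/14, ±1/2` -/
def FA : Fam := fam2 7 3 6 (0 + 1 * 2 ^ 8 + 6 * 2 ^ 16 + 7 * 2 ^ 24)
  (9 + 2 * 2 ^ 4 + 4 * 2 ^ 8 + 9 * 2 ^ 12)

/-- offsets `±2/5, ±1/2` -/
def FB : Fam := fam2 10 3 6 (0 + 1 * 2 ^ 8 + 9 * 2 ^ 16 + 10 * 2 ^ 24)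
  (9 + 2 * 2 ^ 4 + 4 * 2 ^ 8 + 9 * 2 ^ 12)

/-- offsets `±1/4, ±3/8` -/
def FD : Fam := fam2 8 3 6 (1 + 2 * 2 ^ 8 + 6 * 2 ^ 16 + 7 * 2 ^ 24)
  (1 + 2 * 2 ^ 4 + 4 * 2 ^ 8 + 8 * 2 ^ 12)

theorem FA_ok : FA.Ok := fam2_ok (by norm_num) (by decide +kernel)
theorem FB_ok : FB.Ok := fam2_ok (by norm_num) (by decide +kernel)
theorem FD_ok : FD.Ok := fam2_ok (by norm_num) (by decide +kernel)

/-- Complete certificates for the residues `1, 3, 5, 7` give the local property for all odd `k`. -/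
theorem loc_of_chk {F : Fam} (hF : F.Ok) (hr : F.r = 2) {Dq D k0 k1 Z A : ℕ} (hDq : 0 < Dq)
    (hD : D = F.N * Dq) (hZ : Z = A + F.R * F.N) {l1 l3 l5 l7 : List (ℕ × ℕ × Tr)}
    (h1 : chkL F Dq D 1 k0 k1 Z l1 A = true) (h3 : chkL F Dq D 3 k0 k1 Z l3 A = true)
    (h5 : chkL F Dq D 5 k0 k1 Z l5 A = true) (h7 : chkL F Dq D 7 k0 k1 Z l7 A = true)
    {k : ℤ} (hk : k % 2 = 1) {κ : ℝ} (hk0 : (k0 : ℝ) ≤ D * κ) (hk1 : D * κ ≤ (k1 : ℝ)) :
    LocBSH k κ F.ρ 2 := by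
  intro a
  have H : SH k κ F.ρ F.r a := by
    have key : ∀ kk : ℕ, ∀ l : List (ℕ × ℕ × Tr), chkL F Dq D kk k0 k1 Z l A = true →
        (k % 16 = kk ∨ (-k) % 16 = kk) → SH k κ F.ρ F.r a := by
      intro kk l h hkk
      have hs := SH_of_chkL hF hDq hD hk0 hk1 hZ h a
      rcases hkk with hkk | hkk
      · refine SH_congr (k / 16) ?_ hs
        rw [hr]
        have := Int.emod_add_mul_ediv k 16
        rw [hkk] at this
        norm_num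
        linarith
      · refine SH_congr (-((-k) / 16)) ?_ (SH_neg hs)
        rw [hr]
        have := Int.emod_add_mul_ediv (-k) 16
        rw [hkk] at this
        norm_num
        linarith
    have hcases : k % 16 = (1 : ℕ) ∨ (-k) % 16 = (1 : ℕ) ∨ k % 16 = (3 : ℕ) ∨
        (-k) % 16 = (3 : ℕ) ∨ k % 16 = (5 : ℕ) ∨ (-k) % 16 = (5 : ℕ) ∨ k % 16 = (7 : ℕ) ∨
        (-k) % 16 = (7 : ℕ) := by omega
    rcases hcases with h | h | h | h | h | h | h | h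
    · exact key 1 l1 h1 (Or.inl h)
    · exact key 1 l1 h1 (Or.inr h)
    · exact key 3 l3 h3 (Or.inl h)
    · exact key 3 l3 h3 (Or.inr h)
    · exact key 5 l5 h5 (Or.inl h)
    · exact key 5 l5 h5 (Or.inr h)
    · exact key 7 l7 h7 (Or.inl h)
    · exact key 7 l7 h7 (Or.inr h)
  unfold SH at H
  rw [hr] at H
  exact H

end Pool.Agent.Lib.MP_c52340_nt.Loc2
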