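import Mathlib
import Pool.Agent.Lib.MP_c52340_nt.LocA

/-!
One-digit local certificates (part 1).
-/

set_option autoImplicit false

namespace Pool.Agent.Lib.MP_c52340_nt.LocA

open Pool.Agent.Lib.MP_c52340_nt.Tok

/-- the three letters `0, 1, -1` -/
def d3 : Fin 3 → ℤ := fun y => if y.1 < 1 then 0 else if y.1 < 2 then 1 else -1

/-- thirteen letters, five for `0`, four for `1` and four for `-1` -/
def d13 : Fin 13 → ℤ := fun y => if y.1 < 5 then 0 else if y.1 < 9 then 1 else -1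

theorem hd3 (f : ℤ → ℕ) : ∑ y, f (d3 y) = 1 * f 0 + 1 * f 1 + 1 * f (-1) := by
  simp [Fin.sum_univ_succ, d3]
  ring

theorem hd13 (f : ℤ → ℕ) : ∑ y, f (d13 y) = 5 * f 0 + 4 * f 1 + 4 * f (-1) := by
  simp [Fin.sum_univ_succ, d13]
  ring

/-- at most six offsets in `(-1/2, 1/2)` with the local strong Hall property -/
def Off {h : ℕ} (k : ℤ) (κ : ℝ) (d : Fin h → ℤ) : Prop :=
  ∃ n : ℕ, 0 < n ∧ n ≤ 6 ∧ ∃ ρ : Fin n → ℝ, (∀ j, -1 / 2 < ρ j ∧ ρ j < 1 / 2) ∧ LocBSHW k κ ρ d

theorem off_of_chk {h : ℕ} (d : Fin h → ℤ) (w0 w1 : ℕ)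
    (hd : ∀ f : ℤ → ℕ, ∑ y, f (d y) = w0 * f 0 + w1 * f 1 + w1 * f (-1))
    (R : List ℤ) (H K L Rm : ℤ) (T : ℕ) (hH : Rm < H) (hK : 0 ≤ K) (hRl : 0 < R.length)
    (hRl' : R.length ≤ 6) (hM : 0 < (w0 + 2 * w1) * R.length) (hRm : 0 ≤ Rm)
    (hR : ∀ r ∈ R, |r| ≤ Rm) (hL1 : 4 * Rm ≤ L) (hL2 : Rm + K < H + L)
    (hT1 : H + K + 1 + Rm ≤ T - L) (hT2 : 2 * H + 4 * Rm ≤ T - L)
    (hc : chkAll R w0 w1 (2 * H) H K L T = true)
    (k : ℤ) (hk : k % 2 = 1) (κ : ℝ) (h1 : (K : ℝ) ≤ 2 * H * κ) (h2 : 2 * H * κ < K + 1) :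
    Off k κ d := by
  have hHp : 0 < H := by omega
  have hHr : (0 : ℝ) < H := by exact_mod_cast hHp
  refine ⟨R.length, hRl, hRl', fun j : Fin R.length => (R[j] : ℝ) / (2 * H), ?_,
    locBSHW_of_chk d w0 w1 hd R H K L Rm T hHp hK hM hR hL1 hL2 hT1 hT2 hc k hk κ h1 h2⟩
  intro j
  have h3 := hR R[j] (List.getElem_mem _)
  rw [abs_le] at h3
  have h4 : (R[j] : ℝ) < H := by exact_mod_cast (show R[j] < H by omega)
  have h5 : -(H : ℝ) < R[j] := by exact_mod_cast (show -H < R[j] by omega)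
  constructor
  · rw [lt_div_iff₀ (by positivity)]
    linarith
  · rw [div_lt_iff₀ (by positivity)]
    linarith

theorem cell_40_33 (k : ℤ) (hk : k % 2 = 1) (κ : ℝ) (h1 : (33 : ℝ) ≤ 40 * κ) (h2 : 40 * κ < 34) :
    Off k κ d3 :=
  off_of_chk d3 1 1 hd3 [0, 3, -3, 4, -4] 20 33 18 4 76 (by norm_num) (by norm_num) (by decide) (by decide)
    (by decide) (by norm_num) (by decide) (by norm_num) (by norm_num) (by norm_num) (by norm_num)
    (by decide +kernel) k hk κ (by push_cast; linarith) (by push_cast; linarith)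

theorem cell_20_17 (k : ℤ) (hk : k % 2 = 1) (κ : ℝ) (h1 : (17 : ℝ) ≤ 20 * κ) (h2 : 20 * κ < 18) :
    Off k κ d3 :=
  off_of_chk d3 1 1 hd3 [1, -1, 2, -2] 10 17 10 2 40 (by norm_num) (by norm_num) (by decide) (by decide)
    (by decide) (by norm_num) (by decide) (by norm_num) (by norm_num) (by norm_num) (by norm_num)
    (by decide +kernel) k hk κ (by push_cast; linarith) (by push_cast; linarith)

theorem cell_20_18 (k : ℤ) (hk : k % 2 = 1) (κ : ℝ) (h1 : (18 : ℝ) ≤ 20 * κ) (h2 : 20 * κ < 19) :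
    Off k κ d3 :=
  off_of_chk d3 1 1 hd3 [0, 2, -2] 10 18 11 2 42 (by norm_num) (by norm_num) (by decide) (by decide)
    (by decide) (by norm_num) (by decide) (by norm_num) (by norm_num) (by norm_num) (by norm_num)
    (by decide +kernel) k hk κ (by push_cast; linarith) (by push_cast; linarith)

theorem cell_20_19 (k : ℤ) (hk : k % 2 = 1) (κ : ℝ) (h1 : (19 : ℝ) ≤ 20 * κ) (h2 : 20 * κ < 20) :
    Off k κ d3 :=
  off_of_chk d3 1 1 hd3 [0, 2, -2] 10 19 12 2 44 (by norm_num) (by norm_num) (by decide) (by decide)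
    (by decide) (by norm_num) (by decide) (by norm_num) (by norm_num) (by norm_num) (by norm_num)
    (by decide +kernel) k hk κ (by push_cast; linarith) (by push_cast; linarith)

theorem cell_20_20 (k : ℤ) (hk : k % 2 = 1) (κ : ℝ) (h1 : (20 : ℝ) ≤ 20 * κ) (h2 : 20 * κ < 21) :
    Off k κ d3 :=
  off_of_chk d3 1 1 hd3 [0, 2, -2, 3, -3] 10 20 14 3 48 (by norm_num) (by norm_num) (by decide) (by decide)
    (by decide) (by norm_num) (by decide) (by norm_num) (by norm_num) (by norm_num) (by norm_num)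
    (by decide +kernel) k hk κ (by push_cast; linarith) (by push_cast; linarith)

theorem cell_20_21 (k : ℤ) (hk : k % 2 = 1) (κ : ℝ) (h1 : (21 : ℝ) ≤ 20 * κ) (h2 : 20 * κ < 22) :
    Off k κ d13 :=
  off_of_chk d13 5 4 hd13 [1, -1, 3, -3] 10 21 15 3 50 (by norm_num) (by norm_num) (by decide) (by decide)
    (by decide) (by norm_num) (by decide) (by norm_num) (by norm_num) (by norm_num) (by norm_num)
    (by decide +kernel) k hk κ (by push_cast; linarith) (by push_cast; linarith)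

theorem cell_20_22 (k : ℤ) (hk : k % 2 = 1) (κ : ℝ) (h1 : (22 : ℝ) ≤ 20 * κ) (h2 : 20 * κ < 23) :
    Off k κ d13 :=
  off_of_chk d13 5 4 hd13 [1, -1, 3, -3] 10 22 16 3 52 (by norm_num) (by norm_num) (by decide) (by decide)
    (by decide) (by norm_num) (by decide) (by norm_num) (by norm_num) (by norm_num) (by norm_num)
    (by decide +kernel) k hk κ (by push_cast; linarith) (by push_cast; linarith)

theorem cell_20_23 (k : ℤ) (hk : k % 2 = 1) (κ : ℝ) (h1 : (23 : ℝ) ≤ 20 * κ) (h2 : 20 * κ < 24) :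
    Off k κ d13 :=
  off_of_chk d13 5 4 hd13 [0, 3, -3, 4, -4] 10 23 18 4 56 (by norm_num) (by norm_num) (by decide) (by decide)
    (by decide) (by norm_num) (by decide) (by norm_num) (by norm_num) (by norm_num) (by norm_num)
    (by decide +kernel) k hk κ (by push_cast; linarith) (by push_cast; linarith)

theorem cell_20_24 (k : ℤ) (hk : k % 2 = 1) (κ : ℝ) (h1 : (24 : ℝ) ≤ 20 * κ) (h2 : 20 * κ < 25) :
    Off k κ d13 :=
  off_of_chk d13 5 4 hd13 [0, 2, -2, 4, -4] 10 24 19 4 58 (by norm_num) (by norm_num) (by decide) (by decide)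
    (by decide) (by norm_num) (by decide) (by norm_num) (by norm_num) (by norm_num) (by norm_num)
    (by decide +kernel) k hk κ (by push_cast; linarith) (by push_cast; linarith)

theorem cell_20_25 (k : ℤ) (hk : k % 2 = 1) (κ : ℝ) (h1 : (25 : ℝ) ≤ 20 * κ) (h2 : 20 * κ < 26) :
    Off k κ d13 :=
  off_of_chk d13 5 4 hd13 [0, 2, -2, 4, -4] 10 25 20 4 60 (by norm_num) (by norm_num) (by decide) (by decide)
    (by decide) (by norm_num) (by decide) (by norm_num) (by norm_num) (by norm_num) (by norm_num)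
    (by decide +kernel) k hk κ (by push_cast; linarith) (by push_cast; linarith)

theorem cell_20_26 (k : ℤ) (hk : k % 2 = 1) (κ : ℝ) (h1 : (26 : ℝ) ≤ 20 * κ) (h2 : 20 * κ < 27) :
    Off k κ d13 :=
  off_of_chk d13 5 4 hd13 [2, -2, 4, -4, 5, -5] 10 26 22 5 64 (by norm_num) (by norm_num) (by decide) (by decide)
    (by decide) (by norm_num) (by decide) (by norm_num) (by norm_num) (by norm_num) (by norm_num)
    (by decide +kernel) k hk κ (by push_cast; linarith) (by push_cast; linarith)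

theorem cell_24_32 (k : ℤ) (hk : k % 2 = 1) (κ : ℝ) (h1 : (32 : ℝ) ≤ 24 * κ) (h2 : 24 * κ < 33) :
    Off k κ d13 :=
  off_of_chk d13 5 4 hd13 [2, -2, 5, -5, 6, -6] 12 32 27 6 78 (by norm_num) (by norm_num) (by decide) (by decide)
    (by decide) (by norm_num) (by decide) (by norm_num) (by norm_num) (by norm_num) (by norm_num)
    (by decide +kernel) k hk κ (by push_cast; linarith) (by push_cast; linarith)

theorem cell_24_33 (k : ℤ) (hk : k % 2 = 1) (κ : ℝ) (h1 : (33 : ℝ) ≤ 24 * κ) (h2 : 24 * κ < 34) :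
    Off k κ d13 :=
  off_of_chk d13 5 4 hd13 [2, -2, 5, -5, 6, -6] 12 33 28 6 80 (by norm_num) (by norm_num) (by decide) (by decide)
    (by decide) (by norm_num) (by decide) (by norm_num) (by norm_num) (by norm_num) (by norm_num)
    (by decide +kernel) k hk κ (by push_cast; linarith) (by push_cast; linarith)

theorem cell_24_34 (k : ℤ) (hk : k % 2 = 1) (κ : ℝ) (h1 : (34 : ℝ) ≤ 24 * κ) (h2 : 24 * κ < 35) :
    Off k κ d13 :=
  off_of_chk d13 5 4 hd13 [2, -2, 6, -6, 7, -7] 12 34 30 7 84 (by norm_num) (by norm_num) (by decide) (by decide)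
    (by decide) (by norm_num) (by decide) (by norm_num) (by norm_num) (by norm_num) (by norm_num)
    (by decide +kernel) k hk κ (by push_cast; linarith) (by push_cast; linarith)

end Pool.Agent.Lib.MP_c52340_nt.LocA
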