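import Mathlib
import Pool.Agent.Lib.MP_c52340_nt.LocA1

/-!
One-digit local certificates (part 2).
-/

set_option autoImplicit false

namespace Pool.Agent.Lib.MP_c52340_nt.LocA

open Pool.Agent.Lib.MP_c52340_nt.Tok

theorem cell_32_46 (k : ℤ) (hk : k % 2 = 1) (κ : ℝ) (h1 : (46 : ℝ) ≤ 32 * κ) (h2 : 32 * κ < 47) :
    Off k κ d13 :=
  off_of_chk d13 5 4 hd13 [2, -2, 7, -7, 9, -9] 16 46 40 9 112 (by norm_num) (by norm_num) (by decide) (by decide)
    (by decide) (by norm_num) (by decide) (by norm_num) (by norm_num) (by norm_num) (by norm_num)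
    (by decide +kernel) k hk κ (by push_cast; linarith) (by push_cast; linarith)

theorem cell_32_47 (k : ℤ) (hk : k % 2 = 1) (κ : ℝ) (h1 : (47 : ℝ) ≤ 32 * κ) (h2 : 32 * κ < 48) :
    Off k κ d13 :=
  off_of_chk d13 5 4 hd13 [2, -2, 7, -7, 9, -9] 16 47 41 9 114 (by norm_num) (by norm_num) (by decide) (by decide)
    (by decide) (by norm_num) (by decide) (by norm_num) (by norm_num) (by norm_num) (by norm_num)
    (by decide +kernel) k hk κ (by push_cast; linarith) (by push_cast; linarith)

theorem cell_32_48 (k : ℤ) (hk : k % 2 = 1) (κ : ℝ) (h1 : (48 : ℝ) ≤ 32 * κ) (h2 : 32 * κ < 49) :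
    Off k κ d13 :=
  off_of_chk d13 5 4 hd13 [2, -2, 7, -7, 9, -9] 16 48 42 9 116 (by norm_num) (by norm_num) (by decide) (by decide)
    (by decide) (by norm_num) (by decide) (by norm_num) (by norm_num) (by norm_num) (by norm_num)
    (by decide +kernel) k hk κ (by push_cast; linarith) (by push_cast; linarith)

theorem cell_32_49 (k : ℤ) (hk : k % 2 = 1) (κ : ℝ) (h1 : (49 : ℝ) ≤ 32 * κ) (h2 : 32 * κ < 50) :
    Off k κ d13 :=
  off_of_chk d13 5 4 hd13 [6, -6, 7, -7, 10, -10] 16 49 44 10 120 (by norm_num) (by norm_num) (by decide) (by decide)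
    (by decide) (by norm_num) (by decide) (by norm_num) (by norm_num) (by norm_num) (by norm_num)
    (by decide +kernel) k hk κ (by push_cast; linarith) (by push_cast; linarith)

theorem cell_24_37 (k : ℤ) (hk : k % 2 = 1) (κ : ℝ) (h1 : (37 : ℝ) ≤ 24 * κ) (h2 : 24 * κ < 38) :
    Off k κ d13 :=
  off_of_chk d13 5 4 hd13 [5, -5, 7, -7, 8, -8] 12 37 34 8 92 (by norm_num) (by norm_num) (by decide) (by decide)
    (by decide) (by norm_num) (by decide) (by norm_num) (by norm_num) (by norm_num) (by norm_num)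
    (by decide +kernel) k hk κ (by push_cast; linarith) (by push_cast; linarith)

theorem cell_24_38 (k : ℤ) (hk : k % 2 = 1) (κ : ℝ) (h1 : (38 : ℝ) ≤ 24 * κ) (h2 : 24 * κ < 39) :
    Off k κ d13 :=
  off_of_chk d13 5 4 hd13 [5, -5, 6, -6, 8, -8] 12 38 35 8 94 (by norm_num) (by norm_num) (by decide) (by decide)
    (by decide) (by norm_num) (by decide) (by norm_num) (by norm_num) (by norm_num) (by norm_num)
    (by decide +kernel) k hk κ (by push_cast; linarith) (by push_cast; linarith)

end Pool.Agent.Lib.MP_c52340_nt.LocA
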