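import Mathlib
import Pool.Agent.Lib.MP_c52340_nt.LocA1

/-!
One-digit local certificates (part 3).
-/

set_option autoImplicit false

namespace Pool.Agent.Lib.MP_c52340_nt.LocA

open Pool.Agent.Lib.MP_c52340_nt.Tok

theorem cell_28_45 (k : ℤ) (hk : k % 2 = 1) (κ : ℝ) (h1 : (45 : ℝ) ≤ 28 * κ) (h2 : 28 * κ < 46) :
    Off k κ d13 :=
  off_of_chk d13 5 4 hd13 [6, -6, 9, -9, 10, -10] 14 45 42 10 112 (by norm_num) (by norm_num) (by decide) (by decide)
    (by decide) (by norm_num) (by decide) (by norm_num) (by norm_num) (by norm_num) (by norm_num)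
    (by decide +kernel) k hk κ (by push_cast; linarith) (by push_cast; linarith)

theorem cell_28_46 (k : ℤ) (hk : k % 2 = 1) (κ : ℝ) (h1 : (46 : ℝ) ≤ 28 * κ) (h2 : 28 * κ < 47) :
    Off k κ d13 :=
  off_of_chk d13 5 4 hd13 [6, -6, 8, -8, 10, -10] 14 46 43 10 114 (by norm_num) (by norm_num) (by decide) (by decide)
    (by decide) (by norm_num) (by decide) (by norm_num) (by norm_num) (by norm_num) (by norm_num)
    (by decide +kernel) k hk κ (by push_cast; linarith) (by push_cast; linarith)

theorem cell_28_47 (k : ℤ) (hk : k % 2 = 1) (κ : ℝ) (h1 : (47 : ℝ) ≤ 28 * κ) (h2 : 28 * κ < 48) :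
    Off k κ d13 :=
  off_of_chk d13 5 4 hd13 [6, -6, 7, -7, 10, -10] 14 47 44 10 116 (by norm_num) (by norm_num) (by decide) (by decide)
    (by decide) (by norm_num) (by decide) (by norm_num) (by norm_num) (by norm_num) (by norm_num)
    (by decide +kernel) k hk κ (by push_cast; linarith) (by push_cast; linarith)

theorem cell_28_48 (k : ℤ) (hk : k % 2 = 1) (κ : ℝ) (h1 : (48 : ℝ) ≤ 28 * κ) (h2 : 28 * κ < 49) :
    Off k κ d13 :=
  off_of_chk d13 5 4 hd13 [6, -6, 10, -10, 11, -11] 14 48 46 11 120 (by norm_num) (by norm_num) (by decide) (by decide)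
    (by decide) (by norm_num) (by decide) (by norm_num) (by norm_num) (by norm_num) (by norm_num)
    (by decide +kernel) k hk κ (by push_cast; linarith) (by push_cast; linarith)

theorem cell_40_70 (k : ℤ) (hk : k % 2 = 1) (κ : ℝ) (h1 : (70 : ℝ) ≤ 40 * κ) (h2 : 40 * κ < 71) :
    Off k κ d13 :=
  off_of_chk d13 5 4 hd13 [9, -9, 14, -14, 16, -16] 20 70 67 16 174 (by norm_num) (by norm_num) (by decide) (by decide)
    (by decide) (by norm_num) (by decide) (by norm_num) (by norm_num) (by norm_num) (by norm_num)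
    (by decide +kernel) k hk κ (by push_cast; linarith) (by push_cast; linarith)

theorem cell_40_71 (k : ℤ) (hk : k % 2 = 1) (κ : ℝ) (h1 : (71 : ℝ) ≤ 40 * κ) (h2 : 40 * κ < 72) :
    Off k κ d13 :=
  off_of_chk d13 5 4 hd13 [9, -9, 13, -13, 16, -16] 20 71 68 16 176 (by norm_num) (by norm_num) (by decide) (by decide)
    (by decide) (by norm_num) (by decide) (by norm_num) (by norm_num) (by norm_num) (by norm_num)
    (by decide +kernel) k hk κ (by push_cast; linarith) (by push_cast; linarith)

end Pool.Agent.Lib.MP_c52340_nt.LocA
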