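import Mathlib
import Pool.Agent.Lib.MP_c52340_nt.LocA1
import Pool.Agent.Lib.MP_c52340_nt.LocA2
import Pool.Agent.Lib.MP_c52340_nt.LocA3

/-!
One-digit local certificates: all `κ` in `[33/40, 9/5)`.
-/

set_option autoImplicit false

namespace Pool.Agent.Lib.MP_c52340_nt.LocA

theorem off_lo (k : ℤ) (hk : k % 2 = 1) (κ : ℝ) (h1 : 33 / 40 ≤ κ) (h2 : κ < 21 / 20) :
    Off k κ d3 := by
  rcases lt_or_ge κ (34 / 40) with h | h
  · exact cell_40_33 k hk κ (by linarith) (by linarith)
  rcases lt_or_ge κ (18 / 20) with h | h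
  · exact cell_20_17 k hk κ (by linarith) (by linarith)
  rcases lt_or_ge κ (19 / 20) with h | h
  · exact cell_20_18 k hk κ (by linarith) (by linarith)
  rcases lt_or_ge κ (20 / 20) with h | h
  · exact cell_20_19 k hk κ (by linarith) (by linarith)
  exact cell_20_20 k hk κ (by linarith) (by linarith)

theorem off_hi (k : ℤ) (hk : k % 2 = 1) (κ : ℝ) (h1 : 21 / 20 ≤ κ) (h2 : κ < 9 / 5) :
    Off k κ d13 := by
  rcases lt_or_ge κ (22 / 20) with h | h
  · exact cell_20_21 k hk κ (by linarith) (by linarith)
  rcases lt_or_ge κ (23 / 20) with h | h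
  · exact cell_20_22 k hk κ (by linarith) (by linarith)
  rcases lt_or_ge κ (24 / 20) with h | h
  · exact cell_20_23 k hk κ (by linarith) (by linarith)
  rcases lt_or_ge κ (25 / 20) with h | h
  · exact cell_20_24 k hk κ (by linarith) (by linarith)
  rcases lt_or_ge κ (26 / 20) with h | h
  · exact cell_20_25 k hk κ (by linarith) (by linarith)
  rcases lt_or_ge κ (27 / 20) with h | h
  · exact cell_20_26 k hk κ (by linarith) (by linarith)
  rcases lt_or_ge κ (33 / 24) with h | h
  · exact cell_24_32 k hk κ (by linarith) (by linarith)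
  rcases lt_or_ge κ (34 / 24) with h | h
  · exact cell_24_33 k hk κ (by linarith) (by linarith)
  rcases lt_or_ge κ (35 / 24) with h | h
  · exact cell_24_34 k hk κ (by linarith) (by linarith)
  rcases lt_or_ge κ (47 / 32) with h | h
  · exact cell_32_46 k hk κ (by linarith) (by linarith)
  rcases lt_or_ge κ (48 / 32) with h | h
  · exact cell_32_47 k hk κ (by linarith) (by linarith)
  rcases lt_or_ge κ (49 / 32) with h | h
  · exact cell_32_48 k hk κ (by linarith) (by linarith)
  rcases lt_or_ge κ (50 / 32) with h | h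
  · exact cell_32_49 k hk κ (by linarith) (by linarith)
  rcases lt_or_ge κ (38 / 24) with h | h
  · exact cell_24_37 k hk κ (by linarith) (by linarith)
  rcases lt_or_ge κ (39 / 24) with h | h
  · exact cell_24_38 k hk κ (by linarith) (by linarith)
  rcases lt_or_ge κ (46 / 28) with h | h
  · exact cell_28_45 k hk κ (by linarith) (by linarith)
  rcases lt_or_ge κ (47 / 28) with h | h
  · exact cell_28_46 k hk κ (by linarith) (by linarith)
  rcases lt_or_ge κ (48 / 28) with h | h
  · exact cell_28_47 k hk κ (by linarith) (by linarith)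
  rcases lt_or_ge κ (49 / 28) with h | h
  · exact cell_28_48 k hk κ (by linarith) (by linarith)
  rcases lt_or_ge κ (71 / 40) with h | h
  · exact cell_40_70 k hk κ (by linarith) (by linarith)
  exact cell_40_71 k hk κ (by linarith) (by linarith)

end Pool.Agent.Lib.MP_c52340_nt.LocA
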