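import Mathlib.Data.Int.Basic
import Pool.Agent.Lib.MP_c52340_nt.LocBTab

/-! # The vectors of supplies occurring for `κ` in `[5/8, 7/8]` are in the table -/

namespace C52B

/-- the pair condition -/
def pr (dy x y : ℤ) : Bool := decide (8 * (y - x - 1) < 7 * dy) && decide (5 * dy < 8 * (y - x + 1))

/-- the code of a vector -/
def encv (a b c d e f g h i : ℤ) : ℕ :=
  (a + 8).toNat + 16 * ((b + 8).toNat + 16 * ((c + 8).toNat + 16 * ((d + 8).toNat +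
    16 * ((e + 8).toNat + 16 * ((f + 8).toNat + 16 * ((g + 8).toNat + 16 * ((h + 8).toNat +
    16 * (i + 8).toNat)))))))

/-- all vectors satisfying the pair conditions are in the table -/
def ph1 : Bool :=
  [(-4 : ℤ), -3, -2].all fun u0 =>
  [(-3 : ℤ), -2].all fun u1 => !(pr 1 u0 u1) ||
  [(-3 : ℤ), -2, -1].all fun u2 => !(pr 2 u0 u2 && pr 1 u1 u2) ||
  [(-1 : ℤ), 0].all fun u3 => !(pr 4 u0 u3 && pr 3 u1 u3 && pr 2 u2 u3) ||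
  [(0 : ℤ), 1].all fun u4 => !(pr 5 u0 u4 && pr 4 u1 u4 && pr 3 u2 u4 && pr 1 u3 u4) ||
  [(1 : ℤ), 2].all fun u5 => !(pr 6 u0 u5 && pr 5 u1 u5 && pr 4 u2 u5 && pr 2 u3 u5 && pr 1 u4 u5) ||
  [(2 : ℤ), 3, 4].all fun u6 => !(pr 8 u0 u6 && pr 7 u1 u6 && pr 6 u2 u6 && pr 4 u3 u6 && pr 3 u4 u6 && pr 2 u5 u6) ||
  [(3 : ℤ), 4].all fun u7 => !(pr 9 u0 u7 && pr 8 u1 u7 && pr 7 u2 u7 && pr 5 u3 u7 && pr 4 u4 u7 && pr 3 u5 u7 && pr 1 u6 u7) ||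
  [(3 : ℤ), 4, 5].all fun u8 => !(pr 10 u0 u8 && pr 9 u1 u8 && pr 8 u2 u8 && pr 6 u3 u8 && pr 5 u4 u8 && pr 4 u5 u8 && pr 2 u6 u8 && pr 1 u7 u8) ||
  (tab.map Prod.fst).contains (encv u0 u1 u2 u3 u4 u5 u6 u7 u8)

theorem ph1_true : ph1 = true := by decide +kernel

theorem phase1 {u0 u1 u2 u3 u4 u5 u6 u7 u8 : ℤ}
    (h0 : u0 ∈ [(-4 : ℤ), -3, -2])
    (h1 : u1 ∈ [(-3 : ℤ), -2])
    (h2 : u2 ∈ [(-3 : ℤ), -2, -1])
    (h3 : u3 ∈ [(-1 : ℤ), 0])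
    (h4 : u4 ∈ [(0 : ℤ), 1])
    (h5 : u5 ∈ [(1 : ℤ), 2])
    (h6 : u6 ∈ [(2 : ℤ), 3, 4])
    (h7 : u7 ∈ [(3 : ℤ), 4])
    (h8 : u8 ∈ [(3 : ℤ), 4, 5])
    (p1 : (pr 1 u0 u1) = true)
    (p2 : (pr 2 u0 u2 && pr 1 u1 u2) = true)
    (p3 : (pr 4 u0 u3 && pr 3 u1 u3 && pr 2 u2 u3) = true)
    (p4 : (pr 5 u0 u4 && pr 4 u1 u4 && pr 3 u2 u4 && pr 1 u3 u4) = true)
    (p5 : (pr 6 u0 u5 && pr 5 u1 u5 && pr 4 u2 u5 && pr 2 u3 u5 && pr 1 u4 u5) = true)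
    (p6 : (pr 8 u0 u6 && pr 7 u1 u6 && pr 6 u2 u6 && pr 4 u3 u6 && pr 3 u4 u6 && pr 2 u5 u6) = true)
    (p7 : (pr 9 u0 u7 && pr 8 u1 u7 && pr 7 u2 u7 && pr 5 u3 u7 && pr 4 u4 u7 && pr 3 u5 u7 && pr 1 u6 u7) = true)
    (p8 : (pr 10 u0 u8 && pr 9 u1 u8 && pr 8 u2 u8 && pr 6 u3 u8 && pr 5 u4 u8 && pr 4 u5 u8 && pr 2 u6 u8 && pr 1 u7 u8) = true) :
    encv u0 u1 u2 u3 u4 u5 u6 u7 u8 ∈ tab.map Prod.fst := by
  have h := ph1_true
  unfold ph1 at h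
  have h := List.all_eq_true.mp h _ h0
  have h := List.all_eq_true.mp h _ h1
  rw [p1] at h
  simp only [Bool.not_true, Bool.false_or] at h
  have h := List.all_eq_true.mp h _ h2
  rw [p2] at h
  simp only [Bool.not_true, Bool.false_or] at h
  have h := List.all_eq_true.mp h _ h3
  rw [p3] at h
  simp only [Bool.not_true, Bool.false_or] at h
  have h := List.all_eq_true.mp h _ h4
  rw [p4] at h
  simp only [Bool.not_true, Bool.false_or] at h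
  have h := List.all_eq_true.mp h _ h5
  rw [p5] at h
  simp only [Bool.not_true, Bool.false_or] at h
  have h := List.all_eq_true.mp h _ h6
  rw [p6] at h
  simp only [Bool.not_true, Bool.false_or] at h
  have h := List.all_eq_true.mp h _ h7
  rw [p7] at h
  simp only [Bool.not_true, Bool.false_or] at h
  have h := List.all_eq_true.mp h _ h8
  rw [p8] at h
  simp only [Bool.not_true, Bool.false_or] at h
  exact List.contains_iff_mem.mp h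

end C52B
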