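import Pool.Agent.Lib.MP_c52340_nt.LocBChk
import Pool.Agent.Lib.MP_c52340_nt.LocBPh
import Pool.Agent.Lib.MP_c52340_nt.Tok2

/-! # The local strong Hall property for `κ` in `[5/8, 7/8]`, block length 2, one token per word -/

namespace C52B

open Finset Pool.Agent.Lib.MP_c52340_nt Pool.Agent.Lib.MP_c52340_nt.Tok

theorem closed_all (Q : Fin 9 → Prop) (h : ∀ i, Q (i + 1) → Q i) (i : Fin 9) (hi : Q i) :
    ∀ j, Q j := by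
  have h0 : Q 1 → Q 0 := h 0
  have h1 : Q 2 → Q 1 := h 1
  have h2 : Q 3 → Q 2 := h 2
  have h3 : Q 4 → Q 3 := h 3
  have h4 : Q 5 → Q 4 := h 4
  have h5 : Q 6 → Q 5 := h 5
  have h6 : Q 7 → Q 6 := h 6
  have h7 : Q 8 → Q 7 := h 7
  have h8 : Q 0 → Q 8 := h 8
  have a0 : Q 0 := by
    fin_cases i
    · exact hi
    · exact h0 hi
    · exact h0 (h1 hi)
    · exact h0 (h1 (h2 hi))
    · exact h0 (h1 (h2 (h3 hi)))
    · exact h0 (h1 (h2 (h3 (h4 hi))))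
    · exact h0 (h1 (h2 (h3 (h4 (h5 hi)))))
    · exact h0 (h1 (h2 (h3 (h4 (h5 (h6 hi))))))
    · exact h0 (h1 (h2 (h3 (h4 (h5 (h6 (h7 hi)))))))
  have a8 := h8 a0
  have a7 := h7 a8
  have a6 := h6 a7
  have a5 := h5 a6
  have a4 := h4 a5
  have a3 := h3 a4
  have a2 := h2 a3
  have a1 := h1 a2
  intro j
  fin_cases j <;> assumption

/-- A Hamiltonian cycle gives the strong Hall property. -/
theorem hall_cycle {A B : Type} (F : Finset A) (G : Finset B)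
    (R : A → B → Prop) (y : Fin 9 → A) (e : Fin 9 → B)
    (hyS : ∀ a ∈ F, ∃ i, y i = a) (hyI : Function.Injective y)
    (heI : Function.Injective e) (heG : ∀ i, e i ∈ G)
    (h1 : ∀ i, R (y i) (e i)) (h2 : ∀ i, R (y (i + 1)) (e i)) {D : Finset A} (hD : D ⊆ F)
    (hne : D.Nonempty) (hnf : D ≠ F) {N : Finset B}
    (hN : ∀ b ∈ G, (∃ d ∈ D, R d b) → b ∈ N) : D.card + 1 ≤ N.card := by
  classical
  set I := (univ : Finset (Fin 9)).filter (fun i => y i ∈ D) with hI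
  set K := (univ : Finset (Fin 9)).filter (fun i => y i ∈ D ∨ y (i + 1) ∈ D) with hK
  have hDI : D.card = I.card := by
    have : D = I.image y := by
      ext a
      rw [Finset.mem_image]
      constructor
      · intro ha
        obtain ⟨i, hi⟩ := hyS a (hD ha)
        refine ⟨i, ?_, hi⟩
        rw [hI, Finset.mem_filter]
        exact ⟨Finset.mem_univ _, by rw [hi]; exact ha⟩
      · rintro ⟨i, hi, rfl⟩
        rw [hI, Finset.mem_filter] at hi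
        exact hi.2
    rw [this, Finset.card_image_of_injective _ hyI]
  have hIK : I ⊆ K := by
    intro i hi
    rw [hI, Finset.mem_filter] at hi
    rw [hK, Finset.mem_filter]
    exact ⟨hi.1, Or.inl hi.2⟩
  have hKN : K.card ≤ N.card := by
    rw [← Finset.card_image_of_injective K heI]
    apply Finset.card_le_card
    intro b hb
    rw [Finset.mem_image] at hb
    obtain ⟨i, hi, rfl⟩ := hb
    rw [hK, Finset.mem_filter] at hi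
    rcases hi.2 with h | h
    · exact hN _ (heG i) ⟨_, h, h1 i⟩
    · exact hN _ (heG i) ⟨_, h, h2 i⟩
  by_contra hcon
  have hKI : K = I := by
    symm
    apply Finset.eq_of_subset_of_card_le hIK
    omega
  have hcl : ∀ i, y (i + 1) ∈ D → y i ∈ D := by
    intro i hi
    have : i ∈ K := by
      rw [hK, Finset.mem_filter]
      exact ⟨Finset.mem_univ _, Or.inr hi⟩
    rw [hKI, hI, Finset.mem_filter] at this
    exact this.2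
  obtain ⟨a, ha⟩ := hne
  obtain ⟨i, hi⟩ := hyS a (hD ha)
  have hall := closed_all (fun i => y i ∈ D) hcl i (by rw [hi]; exact ha)
  apply hnf
  apply Finset.Subset.antisymm hD
  intro b hb
  obtain ⟨j, rfl⟩ := hyS b hb
  exact hall j

/-- the elements of `T4 2` -/
def Yv (i : ℕ) : ℤ := (yv i : ℤ) - 5

theorem T4_two : C52C.T4 2 = {-5, -4, -3, -1, 0, 1, 3, 4, 5} := by decide

theorem Yv_mem : ∀ i < 9, Yv i ∈ C52C.T4 2 := by decide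

theorem Yv_surj : ∀ a ∈ C52C.T4 2, ∃ i < 9, Yv i = a := by decide

theorem Yv_inj : ∀ i < 9, ∀ j < 9, Yv i = Yv j → i = j := by decide

theorem mask_ok : ∀ n < 32, Nat.testBit 3913728 n = true → ((n : ℤ) - 16) ∈ C52C.T4 2 := by
  decide +kernel

theorem perm9_surj {f : ℕ → ℕ} (h : perm9 f = true) : ∀ i < 9, ∃ j < 9, f j = i := by
  unfold perm9 at h
  have h := Nat.eq_of_beq_eq_true h
  intro i hi
  have h1 : Nat.testBit 511 i = true := by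
    have : ∀ i < 9, Nat.testBit 511 i = true := by decide
    exact this i hi
  rw [← h] at h1
  simp only [Nat.testBit_or, Nat.one_shiftLeft, Nat.testBit_two_pow, Bool.or_eq_true,
    decide_eq_true_eq] at h1
  rcases h1 with (((((((h1 | h1) | h1) | h1) | h1) | h1) | h1) | h1) | h1
  · exact ⟨0, by norm_num, h1⟩
  · exact ⟨1, by norm_num, h1⟩
  · exact ⟨2, by norm_num, h1⟩
  · exact ⟨3, by norm_num, h1⟩
  · exact ⟨4, by norm_num, h1⟩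
  · exact ⟨5, by norm_num, h1⟩
  · exact ⟨6, by norm_num, h1⟩
  · exact ⟨7, by norm_num, h1⟩
  · exact ⟨8, by norm_num, h1⟩

theorem yc_lt (c j : ℕ) : yc c j < 9 := by
  unfold yc
  split
  · norm_num
  · exact Nat.mod_lt _ (by norm_num)

theorem ec_lt (c j : ℕ) : ec c j < 9 := Nat.mod_lt _ (by norm_num)

/-- a surjection of `Fin 9` given by `f` is a bijection -/
theorem perm9_bij {f : ℕ → ℕ} (hf : ∀ j, f j < 9) (h : perm9 f = true) :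
    Function.Bijective (fun i : Fin 9 => (⟨f i.1, hf i.1⟩ : Fin 9)) := by
  rw [Finite.injective_iff_bijective.symm, Finite.injective_iff_surjective]
  intro i
  obtain ⟨j, hj, h1⟩ := perm9_surj h i.1 i.2
  exact ⟨⟨j, hj⟩, Fin.ext h1⟩

/-- real floors satisfy the pair condition -/
theorem pr_real {f κ : ℝ} (h1 : 5 / 8 ≤ κ) (h2 : κ ≤ 7 / 8) {y z : ℤ} (hyz : z < y) :
    pr (y - z) ⌊f + κ * z + 1 / 2⌋ ⌊f + κ * y + 1 / 2⌋ = true := by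
  have a1 := Int.floor_le (f + κ * z + 1 / 2)
  have a2 := Int.lt_floor_add_one (f + κ * z + 1 / 2)
  have b1 := Int.floor_le (f + κ * y + 1 / 2)
  have b2 := Int.lt_floor_add_one (f + κ * y + 1 / 2)
  set u := ⌊f + κ * z + 1 / 2⌋
  set v := ⌊f + κ * y + 1 / 2⌋
  have hd : (0 : ℝ) < ((y - z : ℤ) : ℝ) := by
    exact_mod_cast sub_pos.mpr hyz
  have hd2 : ((y - z : ℤ) : ℝ) = (y : ℝ) - z := by push_cast; ring
  have k1 : 5 / 8 * ((y - z : ℤ) : ℝ) ≤ κ * ((y - z : ℤ) : ℝ) :=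
    mul_le_mul_of_nonneg_right h1 hd.le
  have k2 : κ * ((y - z : ℤ) : ℝ) ≤ 7 / 8 * ((y - z : ℤ) : ℝ) :=
    mul_le_mul_of_nonneg_right h2 hd.le
  have e : κ * ((y - z : ℤ) : ℝ) = κ * y - κ * z := by rw [hd2]; ring
  unfold pr
  rw [Bool.and_eq_true, decide_eq_true_eq, decide_eq_true_eq]
  constructor
  · have : ((8 * (v - u - 1) : ℤ) : ℝ) < ((7 * (y - z) : ℤ) : ℝ) := by
      push_cast
      push_cast at k1 k2 e
      linarith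
    exact_mod_cast this
  · have : ((5 * (y - z) : ℤ) : ℝ) < ((8 * (v - u + 1) : ℤ) : ℝ) := by
      push_cast
      push_cast at k1 k2 e
      linarith
    exact_mod_cast this

theorem dg_zero {a q : ℕ} (ha : a < 16) : dg (a + 16 * q) 0 = a := by
  unfold dg
  rw [Nat.mul_zero, Nat.shiftRight_zero]
  omega

theorem dg_succ {a q i : ℕ} (ha : a < 16) : dg (a + 16 * q) (i + 1) = dg q i := by
  unfold dg
  rw [Nat.shiftRight_eq_div_pow, Nat.shiftRight_eq_div_pow]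
  have h1 : 2 ^ (4 * (i + 1)) = 16 * 2 ^ (4 * i) := by
    rw [show 4 * (i + 1) = 4 + 4 * i by ring, pow_add]
    norm_num
  rw [h1, ← Nat.div_div_eq_div_mul]
  have h2 : (a + 16 * q) / 16 = q := by omega
  rw [h2]

theorem dg_last {a : ℕ} (ha : a < 16) : dg a 0 = a := by
  unfold dg
  rw [Nat.mul_zero, Nat.shiftRight_zero]
  omega

/-- the demand -/
theorem dem_eq (k : ℤ) (a : ℝ) (E : ℤ) :
    dem k 2 0 a E = ⌊a⌋ + 8 - (⌊a⌋ + k * E + 8) % 16 := by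
  unfold dem
  have h1 : ⌊(a + k * E) / 4 ^ 2 + 0 + 1 / 2⌋ = (⌊a⌋ + k * E + 8) / 16 := by
    rw [Int.floor_eq_iff]
    have ha := Int.floor_le a
    have hb := Int.lt_floor_add_one a
    have hc : 16 * ((⌊a⌋ + k * E + 8) / 16) + (⌊a⌋ + k * E + 8) % 16 = ⌊a⌋ + k * E + 8 :=
      Int.mul_ediv_add_emod _ _
    have hd := Int.emod_nonneg (⌊a⌋ + k * E + 8) (show (16 : ℤ) ≠ 0 by norm_num)
    have he := Int.emod_lt_of_pos (⌊a⌋ + k * E + 8) (show (0 : ℤ) < 16 by norm_num)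
    set q := (⌊a⌋ + k * E + 8) / 16
    set m := (⌊a⌋ + k * E + 8) % 16
    have hc' : 16 * (q : ℝ) + (m : ℝ) = (⌊a⌋ : ℝ) + k * E + 8 := by exact_mod_cast hc
    have hd' : (0 : ℝ) ≤ (m : ℝ) := by exact_mod_cast hd
    have he' : (m : ℝ) ≤ 15 := by
      have : m ≤ 15 := by omega
      exact_mod_cast this
    constructor
    · linarith
    · linarith
  rw [h1]
  have hc : 16 * ((⌊a⌋ + k * E + 8) / 16) + (⌊a⌋ + k * E + 8) % 16 = ⌊a⌋ + k * E + 8 :=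
    Int.mul_ediv_add_emod _ _
  linarith

theorem sup_eq (κ a : ℝ) (y : ℤ) :
    Tok.sup κ 0 a y = ⌊a⌋ + ⌊Int.fract a + κ * y + 1 / 2⌋ := by
  unfold Tok.sup
  have h1 : a + κ * y + 0 + 1 / 2 = (⌊a⌋ : ℝ) + (Int.fract a + κ * y + 1 / 2) := by
    rw [← Int.self_sub_floor]
    ring
  rw [h1, Int.floor_intCast_add]

/-- soundness of the adjacency test -/
theorem adj_sound {k : ℤ} {κ a : ℝ} {p y e : ℕ}
    (hp : dg p y = (⌊Int.fract a + κ * (Yv y : ℤ) + 1 / 2⌋ + 8).toNat)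
    (hu0 : -7 ≤ ⌊Int.fract a + κ * (Yv y : ℤ) + 1 / 2⌋)
    (hu1 : ⌊Int.fract a + κ * (Yv y : ℤ) + 1 / 2⌋ ≤ 7)
    (h : adj (k % 16).toNat (⌊a⌋ % 16).toNat p y e = true) (s t : Fin 1) :
    Lo k κ (fun _ : Fin 1 => (0 : ℝ)) 2 a (Yv y, s) (Yv e, t) := by
  unfold Lo
  simp only
  rw [dem_eq, sup_eq]
  unfold adj at h
  set u := ⌊Int.fract a + κ * (Yv y : ℤ) + 1 / 2⌋ with hu
  set kn := (k % 16).toNat with hkn
  set an := (⌊a⌋ % 16).toNat with han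
  have hk0 := Int.emod_nonneg k (show (16 : ℤ) ≠ 0 by norm_num)
  have hk1 := Int.emod_lt_of_pos k (show (0 : ℤ) < 16 by norm_num)
  have ha0 := Int.emod_nonneg ⌊a⌋ (show (16 : ℤ) ≠ 0 by norm_num)
  have ha1 := Int.emod_lt_of_pos ⌊a⌋ (show (0 : ℤ) < 16 by norm_num)
  have hknz : (kn : ℤ) = k % 16 := by omega
  have hanz : (an : ℤ) = ⌊a⌋ % 16 := by omega
  have hkn15 : kn ≤ 15 := by omega
  have hT : (((an + 88 + kn * yv e - 5 * kn) % 16 : ℕ) : ℤ) = (⌊a⌋ + k * Yv e + 8) % 16 := by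
    rw [Int.natCast_mod, Nat.cast_sub (by omega)]
    push_cast
    rw [hknz, hanz]
    unfold Yv
    have e1 : ⌊a⌋ % 16 + 88 + k % 16 * (yv e : ℤ) - 5 * (k % 16) =
        ⌊a⌋ % 16 + 88 + k % 16 * ((yv e : ℤ) - 5) := by ring
    rw [e1]
    have e2 : ⌊a⌋ + k * ((yv e : ℤ) - 5) + 8 =
        ⌊a⌋ % 16 + 88 + k % 16 * ((yv e : ℤ) - 5) +
          16 * (⌊a⌋ / 16 + k / 16 * ((yv e : ℤ) - 5) - 5) := by
      have f1 := Int.mul_ediv_add_emod ⌊a⌋ 16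
      have f2 := Int.mul_ediv_add_emod k 16
      linear_combination (-1 : ℤ) * f1 - ((yv e : ℤ) - 5) * f2
    rw [e2, Int.add_mul_emod_self_left]
  set Tm := (an + 88 + kn * yv e - 5 * kn) % 16 with hTm
  have hTm1 : Tm < 16 := Nat.mod_lt _ (by norm_num)
  have hdg : dg p y ≤ 15 := by omega
  have hdg1 : 1 ≤ dg p y := by omega
  have hm := mask_ok (32 - Tm - dg p y) (by omega) h
  have e3 : (((32 - Tm - dg p y : ℕ) : ℤ) - 16) = 8 - (Tm : ℤ) - u := by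
    have : ((dg p y : ℕ) : ℤ) = u + 8 := by
      rw [hp]
      omega
    omega
  rw [e3, hT] at hm
  have e4 : ⌊a⌋ + 8 - (⌊a⌋ + k * Yv e + 8) % 16 - (⌊a⌋ + u) =
      8 - (⌊a⌋ + k * Yv e + 8) % 16 - u := by ring
  rw [e4]
  exact C52C.mem_T4.1 hm

set_option maxHeartbeats 2000000 in
theorem digits {f κ : ℝ} (hf0 : 0 ≤ f) (hf1 : f < 1) (h1 : 5 / 8 ≤ κ) (h2 : κ ≤ 7 / 8) :
    ∃ x ∈ tab, ∀ i < 9, dg x.1 i = (⌊f + κ * (Yv i : ℤ) + 1 / 2⌋ + 8).toNat ∧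
      -7 ≤ ⌊f + κ * (Yv i : ℤ) + 1 / 2⌋ ∧ ⌊f + κ * (Yv i : ℤ) + 1 / 2⌋ ≤ 7 := by
  have r0 : ⌊f + κ * ((-5 : ℤ) : ℝ) + 1 / 2⌋ ∈ [(-4 : ℤ), -3, -2] := by
    have a1 := Int.floor_le (f + κ * ((-5 : ℤ) : ℝ) + 1 / 2)
    have a2 := Int.lt_floor_add_one (f + κ * ((-5 : ℤ) : ℝ) + 1 / 2)
    set u := ⌊f + κ * ((-5 : ℤ) : ℝ) + 1 / 2⌋
    push_cast at a1 a2
    have b1 : -4 - 1 < u := by
      have : ((-4 - 1 : ℤ) : ℝ) < (u : ℝ) := by push_cast; linarith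
      exact_mod_cast this
    have b2 : u < -2 + 1 := by
      have : (u : ℝ) < ((-2 + 1 : ℤ) : ℝ) := by push_cast; linarith
      exact_mod_cast this
    have b3 : u = -4 ∨ u = -3 ∨ u = -2 := by omega
    simpa using b3
  have r1 : ⌊f + κ * ((-4 : ℤ) : ℝ) + 1 / 2⌋ ∈ [(-3 : ℤ), -2] := by
    have a1 := Int.floor_le (f + κ * ((-4 : ℤ) : ℝ) + 1 / 2)
    have a2 := Int.lt_floor_add_one (f + κ * ((-4 : ℤ) : ℝ) + 1 / 2)
    set u := ⌊f + κ * ((-4 : ℤ) : ℝ) + 1 / 2⌋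
    push_cast at a1 a2
    have b1 : -3 - 1 < u := by
      have : ((-3 - 1 : ℤ) : ℝ) < (u : ℝ) := by push_cast; linarith
      exact_mod_cast this
    have b2 : u < -2 + 1 := by
      have : (u : ℝ) < ((-2 + 1 : ℤ) : ℝ) := by push_cast; linarith
      exact_mod_cast this
    have b3 : u = -3 ∨ u = -2 := by omega
    simpa using b3
  have r2 : ⌊f + κ * ((-3 : ℤ) : ℝ) + 1 / 2⌋ ∈ [(-3 : ℤ), -2, -1] := by
    have a1 := Int.floor_le (f + κ * ((-3 : ℤ) : ℝ) + 1 / 2)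
    have a2 := Int.lt_floor_add_one (f + κ * ((-3 : ℤ) : ℝ) + 1 / 2)
    set u := ⌊f + κ * ((-3 : ℤ) : ℝ) + 1 / 2⌋
    push_cast at a1 a2
    have b1 : -3 - 1 < u := by
      have : ((-3 - 1 : ℤ) : ℝ) < (u : ℝ) := by push_cast; linarith
      exact_mod_cast this
    have b2 : u < -1 + 1 := by
      have : (u : ℝ) < ((-1 + 1 : ℤ) : ℝ) := by push_cast; linarith
      exact_mod_cast this
    have b3 : u = -3 ∨ u = -2 ∨ u = -1 := by omega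
    simpa using b3
  have r3 : ⌊f + κ * ((-1 : ℤ) : ℝ) + 1 / 2⌋ ∈ [(-1 : ℤ), 0] := by
    have a1 := Int.floor_le (f + κ * ((-1 : ℤ) : ℝ) + 1 / 2)
    have a2 := Int.lt_floor_add_one (f + κ * ((-1 : ℤ) : ℝ) + 1 / 2)
    set u := ⌊f + κ * ((-1 : ℤ) : ℝ) + 1 / 2⌋
    push_cast at a1 a2
    have b1 : -1 - 1 < u := by
      have : ((-1 - 1 : ℤ) : ℝ) < (u : ℝ) := by push_cast; linarith
      exact_mod_cast this
    have b2 : u < 0 + 1 := by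
      have : (u : ℝ) < ((0 + 1 : ℤ) : ℝ) := by push_cast; linarith
      exact_mod_cast this
    have b3 : u = -1 ∨ u = 0 := by omega
    simpa using b3
  have r4 : ⌊f + κ * ((0 : ℤ) : ℝ) + 1 / 2⌋ ∈ [(0 : ℤ), 1] := by
    have a1 := Int.floor_le (f + κ * ((0 : ℤ) : ℝ) + 1 / 2)
    have a2 := Int.lt_floor_add_one (f + κ * ((0 : ℤ) : ℝ) + 1 / 2)
    set u := ⌊f + κ * ((0 : ℤ) : ℝ) + 1 / 2⌋
    push_cast at a1 a2
    have b1 : 0 - 1 < u := by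
      have : ((0 - 1 : ℤ) : ℝ) < (u : ℝ) := by push_cast; linarith
      exact_mod_cast this
    have b2 : u < 1 + 1 := by
      have : (u : ℝ) < ((1 + 1 : ℤ) : ℝ) := by push_cast; linarith
      exact_mod_cast this
    have b3 : u = 0 ∨ u = 1 := by omega
    simpa using b3
  have r5 : ⌊f + κ * ((1 : ℤ) : ℝ) + 1 / 2⌋ ∈ [(1 : ℤ), 2] := by
    have a1 := Int.floor_le (f + κ * ((1 : ℤ) : ℝ) + 1 / 2)
    have a2 := Int.lt_floor_add_one (f + κ * ((1 : ℤ) : ℝ) + 1 / 2)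
    set u := ⌊f + κ * ((1 : ℤ) : ℝ) + 1 / 2⌋
    push_cast at a1 a2
    have b1 : 1 - 1 < u := by
      have : ((1 - 1 : ℤ) : ℝ) < (u : ℝ) := by push_cast; linarith
      exact_mod_cast this
    have b2 : u < 2 + 1 := by
      have : (u : ℝ) < ((2 + 1 : ℤ) : ℝ) := by push_cast; linarith
      exact_mod_cast this
    have b3 : u = 1 ∨ u = 2 := by omega
    simpa using b3
  have r6 : ⌊f + κ * ((3 : ℤ) : ℝ) + 1 / 2⌋ ∈ [(2 : ℤ), 3, 4] := by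
    have a1 := Int.floor_le (f + κ * ((3 : ℤ) : ℝ) + 1 / 2)
    have a2 := Int.lt_floor_add_one (f + κ * ((3 : ℤ) : ℝ) + 1 / 2)
    set u := ⌊f + κ * ((3 : ℤ) : ℝ) + 1 / 2⌋
    push_cast at a1 a2
    have b1 : 2 - 1 < u := by
      have : ((2 - 1 : ℤ) : ℝ) < (u : ℝ) := by push_cast; linarith
      exact_mod_cast this
    have b2 : u < 4 + 1 := by
      have : (u : ℝ) < ((4 + 1 : ℤ) : ℝ) := by push_cast; linarith
      exact_mod_cast this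
    have b3 : u = 2 ∨ u = 3 ∨ u = 4 := by omega
    simpa using b3
  have r7 : ⌊f + κ * ((4 : ℤ) : ℝ) + 1 / 2⌋ ∈ [(3 : ℤ), 4] := by
    have a1 := Int.floor_le (f + κ * ((4 : ℤ) : ℝ) + 1 / 2)
    have a2 := Int.lt_floor_add_one (f + κ * ((4 : ℤ) : ℝ) + 1 / 2)
    set u := ⌊f + κ * ((4 : ℤ) : ℝ) + 1 / 2⌋
    push_cast at a1 a2
    have b1 : 3 - 1 < u := by
      have : ((3 - 1 : ℤ) : ℝ) < (u : ℝ) := by push_cast; linarith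
      exact_mod_cast this
    have b2 : u < 4 + 1 := by
      have : (u : ℝ) < ((4 + 1 : ℤ) : ℝ) := by push_cast; linarith
      exact_mod_cast this
    have b3 : u = 3 ∨ u = 4 := by omega
    simpa using b3
  have r8 : ⌊f + κ * ((5 : ℤ) : ℝ) + 1 / 2⌋ ∈ [(3 : ℤ), 4, 5] := by
    have a1 := Int.floor_le (f + κ * ((5 : ℤ) : ℝ) + 1 / 2)
    have a2 := Int.lt_floor_add_one (f + κ * ((5 : ℤ) : ℝ) + 1 / 2)
    set u := ⌊f + κ * ((5 : ℤ) : ℝ) + 1 / 2⌋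
    push_cast at a1 a2
    have b1 : 3 - 1 < u := by
      have : ((3 - 1 : ℤ) : ℝ) < (u : ℝ) := by push_cast; linarith
      exact_mod_cast this
    have b2 : u < 5 + 1 := by
      have : (u : ℝ) < ((5 + 1 : ℤ) : ℝ) := by push_cast; linarith
      exact_mod_cast this
    have b3 : u = 3 ∨ u = 4 ∨ u = 5 := by omega
    simpa using b3
  have hmem := phase1 r0 r1 r2 r3 r4 r5 r6 r7 r8
    (by
      have c : pr 1 ⌊f + κ * ((-5 : ℤ) : ℝ) + 1 / 2⌋ ⌊f + κ * ((-4 : ℤ) : ℝ) + 1 / 2⌋ = true := 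
        pr_real h1 h2 (f := f) (show (-5 : ℤ) < -4 by norm_num)
      simpa only [Bool.and_eq_true, and_assoc] using c)
    (by
      have c : pr 2 ⌊f + κ * ((-5 : ℤ) : ℝ) + 1 / 2⌋ ⌊f + κ * ((-3 : ℤ) : ℝ) + 1 / 2⌋ = true ∧ pr 1 ⌊f + κ * ((-4 : ℤ) : ℝ) + 1 / 2⌋ ⌊f + κ * ((-3 : ℤ) : ℝ) + 1 / 2⌋ = true := 
        ⟨pr_real h1 h2 (f := f) (show (-5 : ℤ) < -3 by norm_num), pr_real h1 h2 (f := f) (show (-4 : ℤ) < -3 by norm_num)⟩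
      simpa only [Bool.and_eq_true, and_assoc] using c)
    (by
      have c : pr 4 ⌊f + κ * ((-5 : ℤ) : ℝ) + 1 / 2⌋ ⌊f + κ * ((-1 : ℤ) : ℝ) + 1 / 2⌋ = true ∧ pr 3 ⌊f + κ * ((-4 : ℤ) : ℝ) + 1 / 2⌋ ⌊f + κ * ((-1 : ℤ) : ℝ) + 1 / 2⌋ = true ∧ pr 2 ⌊f + κ * ((-3 : ℤ) : ℝ) + 1 / 2⌋ ⌊f + κ * ((-1 : ℤ) : ℝ) + 1 / 2⌋ = true := 
        ⟨pr_real h1 h2 (f := f) (show (-5 : ℤ) < -1 by norm_num), pr_real h1 h2 (f := f) (show (-4 : ℤ) < -1 by norm_num), pr_real h1 h2 (f := f) (show (-3 : ℤ) < -1 by norm_num)⟩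
      simpa only [Bool.and_eq_true, and_assoc] using c)
    (by
      have c : pr 5 ⌊f + κ * ((-5 : ℤ) : ℝ) + 1 / 2⌋ ⌊f + κ * ((0 : ℤ) : ℝ) + 1 / 2⌋ = true ∧ pr 4 ⌊f + κ * ((-4 : ℤ) : ℝ) + 1 / 2⌋ ⌊f + κ * ((0 : ℤ) : ℝ) + 1 / 2⌋ = true ∧ pr 3 ⌊f + κ * ((-3 : ℤ) : ℝ) + 1 / 2⌋ ⌊f + κ * ((0 : ℤ) : ℝ) + 1 / 2⌋ = true ∧ pr 1 ⌊f + κ * ((-1 : ℤ) : ℝ) + 1 / 2⌋ ⌊f + κ * ((0 : ℤ) : ℝ) + 1 / 2⌋ = true := 
        ⟨pr_real h1 h2 (f := f) (show (-5 : ℤ) < 0 by norm_num), pr_real h1 h2 (f := f) (show (-4 : ℤ) < 0 by norm_num), pr_real h1 h2 (f := f) (show (-3 : ℤ) < 0 by norm_num), pr_real h1 h2 (f := f) (show (-1 : ℤ) < 0 by norm_num)⟩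
      simpa only [Bool.and_eq_true, and_assoc] using c)
    (by
      have c : pr 6 ⌊f + κ * ((-5 : ℤ) : ℝ) + 1 / 2⌋ ⌊f + κ * ((1 : ℤ) : ℝ) + 1 / 2⌋ = true ∧ pr 5 ⌊f + κ * ((-4 : ℤ) : ℝ) + 1 / 2⌋ ⌊f + κ * ((1 : ℤ) : ℝ) + 1 / 2⌋ = true ∧ pr 4 ⌊f + κ * ((-3 : ℤ) : ℝ) + 1 / 2⌋ ⌊f + κ * ((1 : ℤ) : ℝ) + 1 / 2⌋ = true ∧ pr 2 ⌊f + κ * ((-1 : ℤ) : ℝ) + 1 / 2⌋ ⌊f + κ * ((1 : ℤ) : ℝ) + 1 / 2⌋ = true ∧ pr 1 ⌊f + κ * ((0 : ℤ) : ℝ) + 1 / 2⌋ ⌊f + κ * ((1 : ℤ) : ℝ) + 1 / 2⌋ = true := 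
        ⟨pr_real h1 h2 (f := f) (show (-5 : ℤ) < 1 by norm_num), pr_real h1 h2 (f := f) (show (-4 : ℤ) < 1 by norm_num), pr_real h1 h2 (f := f) (show (-3 : ℤ) < 1 by norm_num), pr_real h1 h2 (f := f) (show (-1 : ℤ) < 1 by norm_num), pr_real h1 h2 (f := f) (show (0 : ℤ) < 1 by norm_num)⟩
      simpa only [Bool.and_eq_true, and_assoc] using c)
    (by
      have c : pr 8 ⌊f + κ * ((-5 : ℤ) : ℝ) + 1 / 2⌋ ⌊f + κ * ((3 : ℤ) : ℝ) + 1 / 2⌋ = true ∧ pr 7 ⌊f + κ * ((-4 : ℤ) : ℝ) + 1 / 2⌋ ⌊f + κ * ((3 : ℤ) : ℝ) + 1 / 2⌋ = true ∧ pr 6 ⌊f + κ * ((-3 : ℤ) : ℝ) + 1 / 2⌋ ⌊f + κ * ((3 : ℤ) : ℝ) + 1 / 2⌋ = true ∧ pr 4 ⌊f + κ * ((-1 : ℤ) : ℝ) + 1 / 2⌋ ⌊f + κ * ((3 : ℤ) : ℝ) + 1 / 2⌋ = true ∧ pr 3 ⌊f + κ * ((0 : ℤ) : ℝ) + 1 / 2⌋ ⌊f + κ * ((3 : ℤ) : ℝ) + 1 / 2⌋ = true ∧ pr 2 ⌊f + κ * ((1 : ℤ) : ℝ) + 1 / 2⌋ ⌊f + κ * ((3 : ℤ) : ℝ) + 1 / 2⌋ = true := 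
        ⟨pr_real h1 h2 (f := f) (show (-5 : ℤ) < 3 by norm_num), pr_real h1 h2 (f := f) (show (-4 : ℤ) < 3 by norm_num), pr_real h1 h2 (f := f) (show (-3 : ℤ) < 3 by norm_num), pr_real h1 h2 (f := f) (show (-1 : ℤ) < 3 by norm_num), pr_real h1 h2 (f := f) (show (0 : ℤ) < 3 by norm_num), pr_real h1 h2 (f := f) (show (1 : ℤ) < 3 by norm_num)⟩
      simpa only [Bool.and_eq_true, and_assoc] using c)
    (by
      have c : pr 9 ⌊f + κ * ((-5 : ℤ) : ℝ) + 1 / 2⌋ ⌊f + κ * ((4 : ℤ) : ℝ) + 1 / 2⌋ = true ∧ pr 8 ⌊f + κ * ((-4 : ℤ) : ℝ) + 1 / 2⌋ ⌊f + κ * ((4 : ℤ) : ℝ) + 1 / 2⌋ = true ∧ pr 7 ⌊f + κ * ((-3 : ℤ) : ℝ) + 1 / 2⌋ ⌊f + κ * ((4 : ℤ) : ℝ) + 1 / 2⌋ = true ∧ pr 5 ⌊f + κ * ((-1 : ℤ) : ℝ) + 1 / 2⌋ ⌊f + κ * ((4 : ℤ) : ℝ) + 1 / 2⌋ = true ∧ pr 4 ⌊f + κ * ((0 : ℤ) : ℝ) + 1 / 2⌋ ⌊f + κ * ((4 : ℤ) : ℝ) + 1 / 2⌋ = true ∧ pr 3 ⌊f + κ * ((1 : ℤ) : ℝ) + 1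 / 2⌋ ⌊f + κ * ((4 : ℤ) : ℝ) + 1 / 2⌋ = true ∧ pr 1 ⌊f + κ * ((3 : ℤ) : ℝ) + 1 / 2⌋ ⌊f + κ * ((4 : ℤ) : ℝ) + 1 / 2⌋ = true := 
        ⟨pr_real h1 h2 (f := f) (show (-5 : ℤ) < 4 by norm_num), pr_real h1 h2 (f := f) (show (-4 : ℤ) < 4 by norm_num), pr_real h1 h2 (f := f) (show (-3 : ℤ) < 4 by norm_num), pr_real h1 h2 (f := f) (show (-1 : ℤ) < 4 by norm_num), pr_real h1 h2 (f := f) (show (0 : ℤ) < 4 by norm_num), pr_real h1 h2 (f := f) (show (1 : ℤ) < 4 by norm_num), pr_real h1 h2 (f := f) (show (3 : ℤ) < 4 by norm_num)⟩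
      simpa only [Bool.and_eq_true, and_assoc] using c)
    (by
      have c : pr 10 ⌊f + κ * ((-5 : ℤ) : ℝ) + 1 / 2⌋ ⌊f + κ * ((5 : ℤ) : ℝ) + 1 / 2⌋ = true ∧ pr 9 ⌊f + κ * ((-4 : ℤ) : ℝ) + 1 / 2⌋ ⌊f + κ * ((5 : ℤ) : ℝ) + 1 / 2⌋ = true ∧ pr 8 ⌊f + κ * ((-3 : ℤ) : ℝ) + 1 / 2⌋ ⌊f + κ * ((5 : ℤ) : ℝ) + 1 / 2⌋ = true ∧ pr 6 ⌊f + κ * ((-1 : ℤ) : ℝ) + 1 / 2⌋ ⌊f + κ * ((5 : ℤ) : ℝ) + 1 / 2⌋ = true ∧ pr 5 ⌊f + κ * ((0 : ℤ) : ℝ) + 1 / 2⌋ ⌊f + κ * ((5 : ℤ) : ℝ) + 1 / 2⌋ = true ∧ pr 4 ⌊f + κ * ((1 : ℤ) : ℝ) + 1 / 2⌋ ⌊f + κ * ((5 : ℤ) : ℝ) + 1 / 2⌋ = true ∧ pr 2 ⌊f + κ * ((3 : ℤ) : ℝ) + 1 / 2⌋ ⌊f + κ * ((5 : ℤ) : ℝ) + 1 / 2⌋ = true ∧ pr 1 ⌊f + κ * ((4 : ℤ) : ℝ) + 1 / 2⌋ ⌊f + κ * ((5 : ℤ) : ℝ) + 1 / 2⌋ = true := 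
        ⟨pr_real h1 h2 (f := f) (show (-5 : ℤ) < 5 by norm_num), pr_real h1 h2 (f := f) (show (-4 : ℤ) < 5 by norm_num), pr_real h1 h2 (f := f) (show (-3 : ℤ) < 5 by norm_num), pr_real h1 h2 (f := f) (show (-1 : ℤ) < 5 by norm_num), pr_real h1 h2 (f := f) (show (0 : ℤ) < 5 by norm_num), pr_real h1 h2 (f := f) (show (1 : ℤ) < 5 by norm_num), pr_real h1 h2 (f := f) (show (3 : ℤ) < 5 by norm_num), pr_real h1 h2 (f := f) (show (4 : ℤ) < 5 by norm_num)⟩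
      simpa only [Bool.and_eq_true, and_assoc] using c)
  obtain ⟨x, hx, hxe⟩ := List.mem_map.mp hmem
  refine ⟨x, hx, ?_⟩
  intro i hi
  rw [hxe]
  unfold encv
  simp only [List.mem_cons, List.not_mem_nil, or_false] at r0 r1 r2 r3 r4 r5 r6 r7 r8
  have y0 : Yv 0 = -5 := by decide
  have y1 : Yv 1 = -4 := by decide
  have y2 : Yv 2 = -3 := by decide
  have y3 : Yv 3 = -1 := by decide
  have y4 : Yv 4 = 0 := by decide
  have y5 : Yv 5 = 1 := by decide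
  have y6 : Yv 6 = 3 := by decide
  have y7 : Yv 7 = 4 := by decide
  have y8 : Yv 8 = 5 := by decide
  set v0 := ⌊f + κ * ((-5 : ℤ) : ℝ) + 1 / 2⌋
  set v1 := ⌊f + κ * ((-4 : ℤ) : ℝ) + 1 / 2⌋
  set v2 := ⌊f + κ * ((-3 : ℤ) : ℝ) + 1 / 2⌋
  set v3 := ⌊f + κ * ((-1 : ℤ) : ℝ) + 1 / 2⌋
  set v4 := ⌊f + κ * ((0 : ℤ) : ℝ) + 1 / 2⌋
  set v5 := ⌊f + κ * ((1 : ℤ) : ℝ) + 1 / 2⌋
  set v6 := ⌊f + κ * ((3 : ℤ) : ℝ) + 1 / 2⌋
  set v7 := ⌊f + κ * ((4 : ℤ) : ℝ) + 1 / 2⌋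
  set v8 := ⌊f + κ * ((5 : ℤ) : ℝ) + 1 / 2⌋
  have l0 : (v0 + 8).toNat < 16 := by omega
  have l1 : (v1 + 8).toNat < 16 := by omega
  have l2 : (v2 + 8).toNat < 16 := by omega
  have l3 : (v3 + 8).toNat < 16 := by omega
  have l4 : (v4 + 8).toNat < 16 := by omega
  have l5 : (v5 + 8).toNat < 16 := by omega
  have l6 : (v6 + 8).toNat < 16 := by omega
  have l7 : (v7 + 8).toNat < 16 := by omega
  have l8 : (v8 + 8).toNat < 16 := by omega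
  obtain rfl | rfl | rfl | rfl | rfl | rfl | rfl | rfl | rfl : i = 0 ∨ i = 1 ∨ i = 2 ∨ i = 3 ∨
      i = 4 ∨ i = 5 ∨ i = 6 ∨ i = 7 ∨ i = 8 := by omega
  · rw [y0]
    refine ⟨dg_zero l0, ?_, ?_⟩ <;> omega
  · rw [y1]
    refine ⟨(dg_succ l0).trans (dg_zero l1), ?_, ?_⟩ <;> omega
  · rw [y2]
    refine ⟨((dg_succ l0).trans (dg_succ l1)).trans (dg_zero l2), ?_, ?_⟩ <;> omega
  · rw [y3]
    refine ⟨(((dg_succ l0).trans (dg_succ l1)).trans (dg_succ l2)).trans (dg_zero l3),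
      ?_, ?_⟩ <;> omega
  · rw [y4]
    refine ⟨((((dg_succ l0).trans (dg_succ l1)).trans (dg_succ l2)).trans (dg_succ l3)).trans
      (dg_zero l4), ?_, ?_⟩ <;> omega
  · rw [y5]
    refine ⟨(((((dg_succ l0).trans (dg_succ l1)).trans (dg_succ l2)).trans (dg_succ l3)).trans
      (dg_succ l4)).trans (dg_zero l5), ?_, ?_⟩ <;> omega
  · rw [y6]
    refine ⟨((((((dg_succ l0).trans (dg_succ l1)).trans (dg_succ l2)).trans (dg_succ l3)).trans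
      (dg_succ l4)).trans (dg_succ l5)).trans (dg_zero l6), ?_, ?_⟩ <;> omega
  · rw [y7]
    refine ⟨(((((((dg_succ l0).trans (dg_succ l1)).trans (dg_succ l2)).trans (dg_succ l3)).trans
      (dg_succ l4)).trans (dg_succ l5)).trans (dg_succ l6)).trans (dg_zero l7), ?_, ?_⟩ <;> omega
  · rw [y8]
    refine ⟨((((((((dg_succ l0).trans (dg_succ l1)).trans (dg_succ l2)).trans (dg_succ l3)).trans
      (dg_succ l4)).trans (dg_succ l5)).trans (dg_succ l6)).trans (dg_succ l7)).trans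
      (dg_last l8), ?_, ?_⟩ <;> omega

theorem locB {k : ℤ} (hk : k % 2 = 1) {κ : ℝ} (h1 : 5 / 8 ≤ κ) (h2 : κ ≤ 7 / 8) :
    LocBSH k κ (fun _ : Fin 1 => (0 : ℝ)) 2 := by
  intro a D hD hne hnf
  have hf0 := Int.fract_nonneg a
  have hf1 := Int.fract_lt_one a
  set f := Int.fract a with hf
  obtain ⟨x, hx, hdig⟩ := digits hf0 hf1 h1 h2
  have hkm0 := Int.emod_nonneg k (show (16 : ℤ) ≠ 0 by norm_num)
  have hkm1 := Int.emod_lt_of_pos k (show (0 : ℤ) < 16 by norm_num)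
  have ham0 := Int.emod_nonneg ⌊a⌋ (show (16 : ℤ) ≠ 0 by norm_num)
  have ham1 := Int.emod_lt_of_pos ⌊a⌋ (show (0 : ℤ) < 16 by norm_num)
  obtain ⟨c, hc⟩ := chkAll x hx ((k % 16).toNat / 2) (by omega) (⌊a⌋ % 16).toNat (by omega)
  have hkk : 2 * ((k % 16).toNat / 2) + 1 = (k % 16).toNat := by omega
  rw [hkk] at hc
  unfold chk at hc
  rw [Bool.and_eq_true, Bool.and_eq_true] at hc
  obtain ⟨⟨hpy, hpe⟩, hadj⟩ := hc
  have hadj := List.all_eq_true.mp hadj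
  -- the edges
  have hedge : ∀ (i : Fin 9) (yy : ℕ), yy < 9 →
      adj (k % 16).toNat (⌊a⌋ % 16).toNat x.1 yy (ec c i.1) = true →
      Lo k κ (fun _ : Fin 1 => (0 : ℝ)) 2 a (Yv yy, 0) (Yv (ec c i.1), 0) := by
    intro i yy hyy h
    obtain ⟨g1, g2, g3⟩ := hdig yy hyy
    exact adj_sound g1 g2 g3 h 0 0
  have hyb := perm9_bij (yc_lt c) hpy
  have heb := perm9_bij (ec_lt c) hpe
  refine hall_cycle (C52C.T4 2 ×ˢ (Finset.univ : Finset (Fin 1)))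
    (C52C.T4 2 ×ˢ (Finset.univ : Finset (Fin 1))) (Lo k κ (fun _ : Fin 1 => (0 : ℝ)) 2 a)
    (fun i => (Yv (yc c i.1), 0)) (fun i => (Yv (ec c i.1), 0)) ?_ ?_ ?_ ?_ ?_ ?_ hD hne hnf ?_
  · rintro ⟨a1, a2⟩ ha
    rw [Finset.mem_product] at ha
    obtain ⟨n, hn, hn2⟩ := Yv_surj a1 ha.1
    obtain ⟨j, hj, hj2⟩ := perm9_surj hpy n hn
    refine ⟨⟨j, hj⟩, ?_⟩
    have : a2 = 0 := Subsingleton.elim _ _
    rw [this]
    simp only [hj2, hn2]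
  · intro i j hij
    have h3 : Yv (yc c i.1) = Yv (yc c j.1) := (Prod.mk.inj hij).1
    have h4 := Yv_inj _ (yc_lt c i.1) _ (yc_lt c j.1) h3
    exact hyb.1 (Fin.ext h4)
  · intro i j hij
    have h3 : Yv (ec c i.1) = Yv (ec c j.1) := (Prod.mk.inj hij).1
    have h4 := Yv_inj _ (ec_lt c i.1) _ (ec_lt c j.1) h3
    exact heb.1 (Fin.ext h4)
  · intro i
    rw [Finset.mem_product]
    exact ⟨Yv_mem _ (ec_lt c i.1), Finset.mem_univ _⟩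
  · intro i
    have h3 := hadj i.1 (List.mem_range.mpr i.2)
    rw [Bool.and_eq_true] at h3
    exact hedge i _ (yc_lt c _) h3.1
  · intro i
    have h3 := hadj i.1 (List.mem_range.mpr i.2)
    rw [Bool.and_eq_true] at h3
    have h4 : (i + 1 : Fin 9).1 = (i.1 + 1) % 9 := by
      rw [Fin.val_add]
      rfl
    show Lo k κ (fun _ : Fin 1 => (0 : ℝ)) 2 a (Yv (yc c (i + 1 : Fin 9).1), 0) _
    rw [h4]
    exact hedge i _ (yc_lt c _) h3.2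
  · intro b hb hR
    classical
    unfold C52C.nbr
    simp only [Finset.mem_filter]
    exact ⟨hb, hR⟩

end C52B
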