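import Pool.Agent.Lib.MP_c52340_nt.LocBTab

/-! # The kernel check of the certificates of `LocBTab` -/

namespace C52B

/-- nibble `i` of `p` -/
def dg (p i : ℕ) : ℕ := (p >>> (4 * i)) % 16

/-- value plus 5 of the `i`-th element of `T4 2` -/
def yv (i : ℕ) : ℕ := dg 0xA98654210 i

/-- adjacency of supply `y` and demand `e` (indices), context residue `i0`, multiplier `k` -/
def adj (k i0 p y e : ℕ) : Bool :=
  Nat.testBit 3913728 (32 - (i0 + 88 + k * yv e - 5 * k) % 16 - dg p y)

/-- `j`-th supply index of a certificate -/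
def yc (c j : ℕ) : ℕ := match j with
  | 0 => 0
  | j + 1 => (c / 9 ^ (2 * j + 1)) % 9

/-- `j`-th demand index of a certificate -/
def ec (c j : ℕ) : ℕ := (c / 9 ^ (2 * j)) % 9

/-- the union of the bits of `f 0, …, f 8` is everything -/
def perm9 (f : ℕ → ℕ) : Bool :=
  Nat.beq ((1 <<< f 0) ||| (1 <<< f 1) ||| (1 <<< f 2) ||| (1 <<< f 3) ||| (1 <<< f 4) |||
    (1 <<< f 5) ||| (1 <<< f 6) ||| (1 <<< f 7) ||| (1 <<< f 8)) 511

/-- one certificate -/
def chk (k i0 p c : ℕ) : Bool :=
  perm9 (yc c) && perm9 (ec c) &&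
  (List.range 9).all (fun j => adj k i0 p (yc c j) (ec c j) &&
    adj k i0 p (yc c ((j + 1) % 9)) (ec c j))

/-- one row -/
def chkRow (x : ℕ × List ℕ) : Bool :=
  (List.range 8).all (fun kk => (List.range 16).all (fun i0 =>
    chk (2 * kk + 1) i0 x.1 ((x.2.getD kk 0 / (9 ^ 17) ^ i0) % 9 ^ 17)))

theorem chk0 : tab0.all chkRow = true := by decide +kernel
theorem chk1 : tab1.all chkRow = true := by decide +kernel
theorem chk2 : tab2.all chkRow = true := by decide +kernel
theorem chk3 : tab3.all chkRow = true := by decide +kernel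

theorem chkAll : ∀ x ∈ tab, ∀ kk < 8, ∀ i0 < 16, ∃ c, chk (2 * kk + 1) i0 x.1 c = true := by
  have h : tab.all chkRow = true := by
    unfold tab
    rw [List.all_append, List.all_append, List.all_append, chk0, chk1, chk2, chk3]
    rfl
  intro x hx kk hk i0 hi
  have h1 := List.all_eq_true.mp h x hx
  unfold chkRow at h1
  have h2 := List.all_eq_true.mp h1 kk (List.mem_range.mpr hk)
  have h3 := List.all_eq_true.mp h2 i0 (List.mem_range.mpr hi)
  exact ⟨_, h3⟩

end C52B
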