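import Pool.Agent.Lib.MP_c52340_nt.N2Def

/-!
# Growth for two-token systems: counting lemmas
-/

set_option autoImplicit false

namespace Pool.Agent.Lib.MP_c52340_nt.Near2

open Pool.Agent.Lib.MP_c52340_nt Pool.Agent.Lib.MP_c52340_nt.Tok C52C
open scoped Classical

/-- tokens with `r` digits -/
noncomputable def Om (r : ℕ) : Finset (ℤ × Bool) := T4 r ×ˢ (Finset.univ : Finset Bool)

theorem mem_Om {r : ℕ} {t : ℤ × Bool} : t ∈ Om r ↔ t.1 ∈ T4 r := by
  unfold Om; simp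

theorem Om_card (r : ℕ) : (Om r).card = 2 * 3 ^ r := by
  unfold Om
  rw [Finset.card_product, T4_card]
  simp [mul_comm]

/-- uniqueness of the decomposition -/
theorem T4_inj {a b : ℕ} {y y' X X' : ℤ} (hy : y ∈ T4 a) (hX : X ∈ T4 b) (hy' : y' ∈ T4 a)
    (hX' : X' ∈ T4 b) (h : y + 4 ^ a * X = y' + 4 ^ a * X') : y = y' ∧ X = X' := by
  have h1 := T4_abs a y hy
  have h2 := T4_abs a y' hy'
  have h4 : (0 : ℤ) < 4 ^ a := by positivity
  have hXX : X = X' := by
    by_contra hne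
    have h5 : 4 ^ a * (X - X') = y' - y := by linarith
    have h6 : |4 ^ a * (X - X')| = |y' - y| := by rw [h5]
    rw [abs_mul, abs_of_pos h4] at h6
    have h7 : 1 ≤ |X - X'| := Int.one_le_abs (sub_ne_zero.2 hne)
    have h8 : |y' - y| ≤ |y'| + |y| := abs_sub _ _
    nlinarith
  subst hXX
  exact ⟨by linarith, rfl⟩

/-- the part of `A` with the high part `E` over the low part `X` -/
noncomputable def hiF (r m : ℕ) (A : Finset (ℤ × Bool)) (X : ℤ) : Finset (ℤ × Bool) :=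
  (Om r).filter (fun p => (X + 4 ^ m * p.1, p.2) ∈ A)

/-- the part of `A` with the low part `y` under the high part `X` -/
noncomputable def loF (r : ℕ) (A : Finset (ℤ × Bool)) (X : ℤ) : Finset (ℤ × Bool) :=
  (Om r).filter (fun p => (p.1 + 4 ^ r * X, p.2) ∈ A)

theorem mem_hiF {r m : ℕ} {A : Finset (ℤ × Bool)} {X : ℤ} {p : ℤ × Bool} :
    p ∈ hiF r m A X ↔ p.1 ∈ T4 r ∧ (X + 4 ^ m * p.1, p.2) ∈ A := by
  unfold hiF; rw [Finset.mem_filter, mem_Om]

theorem mem_loF {r : ℕ} {A : Finset (ℤ × Bool)} {X : ℤ} {p : ℤ × Bool} :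
    p ∈ loF r A X ↔ p.1 ∈ T4 r ∧ (p.1 + 4 ^ r * X, p.2) ∈ A := by
  unfold loF; rw [Finset.mem_filter, mem_Om]

theorem hiF_sub {r m : ℕ} {A : Finset (ℤ × Bool)} {X : ℤ} : hiF r m A X ⊆ Om r :=
  Finset.filter_subset _ _

theorem loF_sub {r : ℕ} {A : Finset (ℤ × Bool)} {X : ℤ} : loF r A X ⊆ Om r :=
  Finset.filter_subset _ _

theorem card_Om_filter (r : ℕ) (p : ℤ × Bool → Prop) [DecidablePred p] :
    ((Om r).filter p).card = ∑ x ∈ T4 r, ∑ b : Bool, if p (x, b) then 1 else 0 := by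
  rw [Finset.card_filter, Om, Finset.sum_product]

theorem card_of_sub {l : ℕ} {A : Finset (ℤ × Bool)} (hA : A ⊆ Om l) :
    A.card = ∑ x ∈ T4 l, ∑ b : Bool, if (x, b) ∈ A then 1 else 0 := by
  rw [← card_Om_filter l (fun p => p ∈ A)]
  congr 1
  ext p
  rw [Finset.mem_filter]
  exact ⟨fun h => ⟨hA h, h⟩, fun h => h.2⟩

theorem card_hiF {r m : ℕ} {A : Finset (ℤ × Bool)} (hA : A ⊆ Om (m + r)) :
    A.card = ∑ X ∈ T4 m, (hiF r m A X).card := by
  rw [card_of_sub hA, T4_sum]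
  refine Finset.sum_congr rfl (fun X _ => ?_)
  unfold hiF
  rw [card_Om_filter]

theorem card_loF {r m : ℕ} {A : Finset (ℤ × Bool)} (hA : A ⊆ Om (r + m)) :
    A.card = ∑ X ∈ T4 m, (loF r A X).card := by
  rw [card_of_sub hA, T4_sum, Finset.sum_comm]
  refine Finset.sum_congr rfl (fun X _ => ?_)
  unfold loF
  rw [card_Om_filter]

/-- supplies with an edge to `D` -/
noncomputable def nbB (r : ℕ) (R : ℤ × Bool → ℤ × Bool → Prop) (D : Finset (ℤ × Bool)) :
    Finset (ℤ × Bool) :=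
  (Om r).filter (fun s => ∃ t ∈ D, R s t)

/-- demands with an edge from `S` -/
noncomputable def nbF (r : ℕ) (R : ℤ × Bool → ℤ × Bool → Prop) (S : Finset (ℤ × Bool)) :
    Finset (ℤ × Bool) :=
  (Om r).filter (fun t => ∃ s ∈ S, R s t)

theorem nbB_sub {r : ℕ} {R : ℤ × Bool → ℤ × Bool → Prop} {D : Finset (ℤ × Bool)} :
    nbB r R D ⊆ Om r := Finset.filter_subset _ _

theorem nbF_sub {r : ℕ} {R : ℤ × Bool → ℤ × Bool → Prop} {D : Finset (ℤ × Bool)} :
    nbF r R D ⊆ Om r := Finset.filter_subset _ _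

/-- backward neighbours of the complement of the forward neighbours -/
theorem nbB_compl {r : ℕ} {R : ℤ × Bool → ℤ × Bool → Prop} {S : Finset (ℤ × Bool)}
    (hS : S ⊆ Om r) :
    (nbB r R (Om r \ nbF r R S)).card + S.card ≤ (Om r).card := by
  have h1 : nbB r R (Om r \ nbF r R S) ⊆ Om r \ S := by
    intro s hs
    unfold nbB at hs
    rw [Finset.mem_filter] at hs
    obtain ⟨hs, t, ht, hR⟩ := hs
    rw [Finset.mem_sdiff] at ht ⊢
    refine ⟨hs, fun h => ht.2 ?_⟩
    unfold nbF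
    rw [Finset.mem_filter]
    exact ⟨ht.1, s, h, hR⟩
  have h2 := Finset.card_le_card h1
  rw [Finset.card_sdiff_of_subset hS] at h2
  have h3 := Finset.card_le_card hS
  omega

/-- Hall forwards from Hall backwards -/
theorem hallF {r : ℕ} {R : ℤ × Bool → ℤ × Bool → Prop}
    (h : ∀ D ⊆ Om r, D.card ≤ (nbB r R D).card) {S : Finset (ℤ × Bool)} (hS : S ⊆ Om r) :
    S.card ≤ (nbF r R S).card := by
  have h1 := nbB_compl (R := R) hS
  have h2 := h _ (Finset.sdiff_subset (s := Om r) (t := nbF r R S))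
  rw [Finset.card_sdiff_of_subset nbF_sub] at h2
  have h3 := Finset.card_le_card (nbF_sub (r := r) (R := R) (D := S))
  omega

/-- the dual of the pair closure -/
theorem pairF {r : ℕ} {R : ℤ × Bool → ℤ × Bool → Prop}
    (h : ∀ D ⊆ Om r, D.card ≤ (nbB r R D).card)
    (hp : ∀ D ⊆ Om r, (∃ E ∈ T4 r, ∀ b : Bool, (E, b) ∈ D) → (nbB r R D).card ≤ D.card →
      D = Om r)
    {S : Finset (ℤ × Bool)} (hS : S ⊆ Om r) (hne : S.Nonempty)
    (hle : (nbF r R S).card ≤ S.card) {E : ℤ} (hE : E ∈ T4 r) :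
    ∃ b : Bool, (E, b) ∈ nbF r R S := by
  by_contra hcon
  push Not at hcon
  have h1 := nbB_compl (R := R) hS
  have h3 := Finset.card_le_card (nbF_sub (r := r) (R := R) (D := S))
  have h4 : (Om r \ nbF r R S) = Om r := by
    apply hp _ Finset.sdiff_subset
    · refine ⟨E, hE, fun b => ?_⟩
      rw [Finset.mem_sdiff, mem_Om]
      exact ⟨hE, hcon b⟩
    · rw [Finset.card_sdiff_of_subset nbF_sub]
      omega
  have h5 : (nbF r R S).card = 0 := by
    have h6 := congrArg Finset.card h4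
    rw [Finset.card_sdiff_of_subset nbF_sub] at h6
    have h7 : 0 < (Om r).card := by rw [Om_card]; positivity
    omega
  have h6 := hallF h hS
  have h7 := Finset.card_pos.2 hne
  omega

end Pool.Agent.Lib.MP_c52340_nt.Near2
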