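import Pool.Agent.Lib.MP_c52340_nt.N2A

/-!
# Growth for two-token systems: backward sequences, full contexts
-/

set_option autoImplicit false

namespace Pool.Agent.Lib.MP_c52340_nt.Near2

open Pool.Agent.Lib.MP_c52340_nt Pool.Agent.Lib.MP_c52340_nt.Tok C52C
open scoped Classical

/-- local hypotheses on a two-token system with words of length `n + 2` -/
structure Loc (n : ℕ) (R1 R2 : ℤ → ℤ × Bool → ℤ × Bool → Prop) : Prop where
  hall1 : ∀ X ∈ T4 (n + 1), ∀ D ⊆ Om 1, D.card ≤ (nbB 1 (R1 X) D).card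
  hall2 : ∀ X ∈ T4 n, ∀ D ⊆ Om 2, D.card ≤ (nbB 2 (R2 X) D).card
  pair : ∀ X ∈ T4 n, ∀ D ⊆ Om 2, (∃ E ∈ T4 2, ∀ b : Bool, (E, b) ∈ D) →
    (nbB 2 (R2 X) D).card ≤ D.card → D = Om 2

/-- a sequence of sets of tokens closed under one- and two-digit backward steps -/
structure BSeq (n : ℕ) (R1 R2 : ℤ → ℤ × Bool → ℤ × Bool → Prop)
    (U : ℕ → Finset (ℤ × Bool)) : Prop where
  sub : ∀ t, U t ⊆ Om (n + 2)
  one : ∀ t, ∀ X ∈ T4 (n + 1), ∀ s ∈ Om 1, ∀ e ∈ Om 1, R1 X s e →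
    (X + 4 ^ (n + 1) * e.1, e.2) ∈ U t → (s.1 + 4 ^ 1 * X, s.2) ∈ U (t + 1)
  two : ∀ t, ∀ X ∈ T4 n, ∀ s ∈ Om 2, ∀ e ∈ Om 2, R2 X s e →
    (X + 4 ^ n * e.1, e.2) ∈ U t → (s.1 + 4 ^ 2 * X, s.2) ∈ U (t + 2)

variable {n : ℕ} {R1 R2 : ℤ → ℤ × Bool → ℤ × Bool → Prop} {U : ℕ → Finset (ℤ × Bool)}

/-- full contexts -/
noncomputable def Full (n : ℕ) (A : Finset (ℤ × Bool)) : Finset ℤ :=
  (T4 n).filter (fun X => hiF 2 n A X = Om 2)

/-- bad contexts -/
noncomputable def Bad (n : ℕ) (A : Finset (ℤ × Bool)) : Finset ℤ :=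
  (T4 n).filter (fun X => (∃ E ∈ T4 2, ∀ b : Bool, (E, b) ∈ hiF 2 n A X) ∧ hiF 2 n A X ≠ Om 2)

/-- paired words -/
noncomputable def Pw (n : ℕ) (A : Finset (ℤ × Bool)) : Finset ℤ :=
  (T4 (n + 2)).filter (fun x => ∀ b : Bool, (x, b) ∈ A)

theorem BSeq.nb2_sub (H : BSeq n R1 R2 U) (t : ℕ) {X : ℤ} (hX : X ∈ T4 n) :
    nbB 2 (R2 X) (hiF 2 n (U t) X) ⊆ loF 2 (U (t + 2)) X := by
  intro s hs
  unfold nbB at hs
  rw [Finset.mem_filter] at hs
  obtain ⟨hs, e, he, hR⟩ := hs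
  rw [mem_hiF] at he
  rw [mem_loF]
  exact ⟨mem_Om.1 hs, H.two t X hX s hs e (mem_Om.2 he.1) hR he.2⟩

theorem BSeq.nb1_sub (H : BSeq n R1 R2 U) (t : ℕ) {X : ℤ} (hX : X ∈ T4 (n + 1)) :
    nbB 1 (R1 X) (hiF 1 (n + 1) (U t) X) ⊆ loF 1 (U (t + 1)) X := by
  intro s hs
  unfold nbB at hs
  rw [Finset.mem_filter] at hs
  obtain ⟨hs, e, he, hR⟩ := hs
  rw [mem_hiF] at he
  rw [mem_loF]
  exact ⟨mem_Om.1 hs, H.one t X hX s hs e (mem_Om.2 he.1) hR he.2⟩

/-- the number of bad contexts is bounded by the growth -/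
theorem BSeq.bad_le (H : BSeq n R1 R2 U) (L : Loc n R1 R2) (t : ℕ) :
    (U t).card + (Bad n (U t)).card ≤ (U (t + 2)).card := by
  rw [card_hiF (r := 2) (m := n) (H.sub t),
    card_loF (r := 2) (m := n) (by rw [add_comm 2 n]; exact H.sub (t + 2)),
    Bad, Finset.card_filter, ← Finset.sum_add_distrib]
  refine Finset.sum_le_sum (fun X hX => ?_)
  have h1 := Finset.card_le_card (H.nb2_sub t hX)
  have h2 := L.hall2 X hX _ (hiF_sub (r := 2) (m := n) (A := U t) (X := X))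
  split_ifs with h
  · have h3 : ¬ (nbB 2 (R2 X) (hiF 2 n (U t) X)).card ≤ (hiF 2 n (U t) X).card := fun h4 =>
      h.2 (L.pair X hX _ hiF_sub h.1 h4)
    omega
  · omega

theorem BSeq.mono2 (H : BSeq n R1 R2 U) (L : Loc n R1 R2) (t : ℕ) :
    (U t).card ≤ (U (t + 2)).card := (Nat.le_add_right _ _).trans (H.bad_le L t)

theorem BSeq.mono1 (H : BSeq n R1 R2 U) (L : Loc n R1 R2) (t : ℕ) :
    (U t).card ≤ (U (t + 1)).card := by
  rw [card_hiF (r := 1) (m := n + 1) (H.sub t),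
    card_loF (r := 1) (m := n + 1) (by rw [add_comm 1 (n + 1)]; exact H.sub (t + 1))]
  refine Finset.sum_le_sum (fun X hX => ?_)
  exact (L.hall1 X hX _ hiF_sub).trans (Finset.card_le_card (H.nb1_sub t hX))

theorem BSeq.mono (H : BSeq n R1 R2 U) (L : Loc n R1 R2) {s t : ℕ} (h : s ≤ t) :
    (U s).card ≤ (U t).card := by
  obtain ⟨d, rfl⟩ := Nat.exists_eq_add_of_le h
  induction d with
  | zero => exact le_rfl
  | succ d ih => exact (ih (by omega)).trans (H.mono1 L (s + d))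

/-- telescoping, one parity -/
theorem BSeq.sum_bad (H : BSeq n R1 R2 U) (L : Loc n R1 R2) (t : ℕ) : ∀ j : ℕ,
    (U t).card + ∑ i ∈ Finset.range j, (Bad n (U (t + 2 * i))).card ≤ (U (t + 2 * j)).card
  | 0 => by simp
  | j + 1 => by
    rw [Finset.sum_range_succ, ← add_assoc]
    have h1 := H.sum_bad L t j
    have h2 := H.bad_le L (t + 2 * j)
    have h3 : t + 2 * (j + 1) = t + 2 * j + 2 := by ring
    rw [h3]
    omega

/-- telescoping, both parities -/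
theorem BSeq.sum_bad' (H : BSeq n R1 R2 U) (L : Loc n R1 R2) : ∀ j : ℕ,
    (U 0).card + (U 1).card + ∑ i ∈ Finset.range j, (Bad n (U i)).card ≤
      (U j).card + (U (j + 1)).card
  | 0 => by simp
  | j + 1 => by
    rw [Finset.sum_range_succ, ← add_assoc]
    have h1 := H.sum_bad' L j
    have h2 := H.bad_le L j
    have h3 : (U (j + 2)).card = (U (j + 1 + 1)).card := rfl
    omega

theorem BSeq.full_lo (H : BSeq n R1 R2 U) (L : Loc n R1 R2) {t : ℕ} {X : ℤ}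
    (hX : X ∈ Full n (U t)) {y : ℤ} (hy : y ∈ T4 2) (b : Bool) :
    (y + 4 ^ 2 * X, b) ∈ U (t + 2) := by
  unfold Full at hX
  rw [Finset.mem_filter] at hX
  have h1 := L.hall2 X hX.1 (Om 2) subset_rfl
  have h2 : nbB 2 (R2 X) (Om 2) = Om 2 :=
    Finset.eq_of_subset_of_card_le nbB_sub h1
  have h3 := H.nb2_sub t hX.1
  rw [hX.2, h2] at h3
  have h4 : ((y, b) : ℤ × Bool) ∈ Om 2 := mem_Om.2 hy
  exact (mem_loF.1 (h3 h4)).2

theorem BSeq.full_one (H : BSeq n R1 R2 U) (L : Loc n R1 R2) {t : ℕ} {X : ℤ}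
    (hX : X ∈ Full n (U t)) {e w : ℤ} (he : e ∈ T4 1) (hw : w ∈ T4 1) (b : Bool) :
    (w + 4 ^ 1 * (X + 4 ^ n * e), b) ∈ U (t + 1) := by
  unfold Full at hX
  rw [Finset.mem_filter] at hX
  have hX' : X + 4 ^ n * e ∈ T4 (n + 1) := T4_add hX.1 he
  have h1 := L.hall1 _ hX' (Om 1) subset_rfl
  have h2 : nbB 1 (R1 (X + 4 ^ n * e)) (Om 1) = Om 1 :=
    Finset.eq_of_subset_of_card_le nbB_sub h1
  have h3 := H.nb1_sub t hX'
  have h4 : hiF 1 (n + 1) (U t) (X + 4 ^ n * e) = Om 1 := by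
    apply Finset.Subset.antisymm hiF_sub
    intro p hp
    rw [mem_hiF]
    rw [mem_Om] at hp
    refine ⟨hp, ?_⟩
    have h5 : ((e + 4 ^ 1 * p.1, p.2) : ℤ × Bool) ∈ Om 2 := mem_Om.2 (T4_add he hp)
    rw [← hX.2, mem_hiF] at h5
    have h6 : X + 4 ^ n * e + 4 ^ (n + 1) * p.1 = X + 4 ^ n * (e + 4 ^ 1 * p.1) := by ring
    rw [h6]
    exact h5.2
  rw [h4, h2] at h3
  have h5 : ((w, b) : ℤ × Bool) ∈ Om 1 := mem_Om.2 hw
  exact (mem_loF.1 (h3 h5)).2

/-- a context with a paired word is full or bad -/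
theorem full_or_bad {A : Finset (ℤ × Bool)} {X E : ℤ} (hX : X ∈ T4 n) (hE : E ∈ T4 2)
    (h : ∀ b : Bool, (X + 4 ^ n * E, b) ∈ A) : X ∈ Full n A ∨ X ∈ Bad n A := by
  unfold Full Bad
  by_cases h1 : hiF 2 n A X = Om 2
  · left
    rw [Finset.mem_filter]
    exact ⟨hX, h1⟩
  · right
    rw [Finset.mem_filter]
    exact ⟨hX, ⟨E, hE, fun b => mem_hiF.2 ⟨hE, h b⟩⟩, h1⟩

theorem Full_sub {A : Finset (ℤ × Bool)} : Full n A ⊆ T4 n := Finset.filter_subset _ _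

theorem Bad_sub {A : Finset (ℤ × Bool)} : Bad n A ⊆ T4 n := Finset.filter_subset _ _

theorem full_card_le {A : Finset (ℤ × Bool)} (hA : A ⊆ Om (n + 2)) :
    18 * (Full n A).card ≤ A.card := by
  rw [card_hiF (r := 2) (m := n) hA, mul_comm, ← smul_eq_mul, ← Finset.sum_const]
  refine (Finset.sum_le_sum (fun X hX => ?_)).trans
    (Finset.sum_le_sum_of_subset (Full_sub (n := n) (A := A)))
  unfold Full at hX
  rw [Finset.mem_filter] at hX
  rw [hX.2, Om_card]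
  norm_num

theorem pw_card {A : Finset (ℤ × Bool)} :
    (Pw n A).card ≤ 9 * ((Full n A).card + (Bad n A).card) := by
  have h1 : Pw n A ⊆ ((Full n A ∪ Bad n A) ×ˢ T4 2).image (fun p => p.1 + 4 ^ n * p.2) := by
    intro x hx
    unfold Pw at hx
    rw [Finset.mem_filter] at hx
    obtain ⟨X, hX, E, hE, rfl⟩ := T4_split hx.1
    rw [Finset.mem_image]
    refine ⟨(X, E), ?_, rfl⟩
    rw [Finset.mem_product, Finset.mem_union]
    exact ⟨full_or_bad hX hE hx.2, hE⟩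
  have h2 := Finset.card_le_card h1
  have h3 := h2.trans Finset.card_image_le
  rw [Finset.card_product, T4_card] at h3
  have h4 := Finset.card_union_le (Full n A) (Bad n A)
  calc (Pw n A).card ≤ _ := h3
    _ ≤ ((Full n A).card + (Bad n A).card) * 3 ^ 2 := Nat.mul_le_mul_right _ h4
    _ = _ := by ring

/-! ### The chain -/

/-- words of length `n + 2 j` with the top window full at time `t` and the lowest window full
at time `t + 2 j` -/
def HcP (n : ℕ) (U : ℕ → Finset (ℤ × Bool)) (t j : ℕ) (Z : ℤ) : Prop :=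
  (∃ X ∈ Full n (U (t + 2 * j)), ∃ R ∈ T4 (2 * j),
    Z = X + 4 ^ n * R) ∧ ∃ Y ∈ T4 (2 * j), ∃ X0 ∈ Full n (U t), Z = Y + 4 ^ (2 * j) * X0

/-- the finite set of the words of `HcP` -/
noncomputable def Hc (n : ℕ) (U : ℕ → Finset (ℤ × Bool)) (t j : ℕ) : Finset ℤ :=
  (T4 (n + 2 * j)).filter (HcP n U t j)

theorem mem_Hc {t j : ℕ} {Z : ℤ} : Z ∈ Hc n U t j ↔ Z ∈ T4 (n + 2 * j) ∧
    (∃ X ∈ Full n (U (t + 2 * j)), ∃ R ∈ T4 (2 * j),
    Z = X + 4 ^ n * R) ∧ ∃ Y ∈ T4 (2 * j), ∃ X0 ∈ Full n (U t), Z = Y + 4 ^ (2 * j) * X0 := by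
  unfold Hc
  rw [Finset.mem_filter]
  exact Iff.rfl

theorem Hc_zero (t : ℕ) : (Full n (U t)).card ≤ (Hc n U t 0).card := by
  apply Finset.card_le_card
  intro X hX
  rw [mem_Hc]
  refine ⟨by simpa using Full_sub hX, ⟨X, by simpa using hX, 0, zero_mem_T4 _, by ring⟩,
    0, zero_mem_T4 _, X, hX, by ring⟩

theorem Hc_succ (H : BSeq n R1 R2 U) (L : Loc n R1 R2) (t j : ℕ) :
    9 * (Hc n U t j).card ≤ (Hc n U t (j + 1)).card +
      9 ^ (j + 1) * (Bad n (U (t + 2 + 2 * j))).card := by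
  have h1 : (T4 2 ×ˢ Hc n U t j).image (fun p => p.1 + 4 ^ 2 * p.2) ⊆
      Hc n U t (j + 1) ∪ ((Bad n (U (t + 2 + 2 * j))) ×ˢ T4 (2 * (j + 1))).image
        (fun p => p.1 + 4 ^ n * p.2) := by
    intro x hx
    rw [Finset.mem_image] at hx
    obtain ⟨⟨y, Z⟩, hp, rfl⟩ := hx
    rw [Finset.mem_product] at hp
    obtain ⟨hy, hZ⟩ := hp
    simp only at hy hZ ⊢
    rw [mem_Hc] at hZ
    obtain ⟨hZT, ⟨X, hX, R, hR, hZ1⟩, Y, hY, X0, hX0, hZ2⟩ := hZ
    have hXn : X ∈ T4 n := Full_sub hX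
    have h2 : y + 4 ^ 2 * X ∈ T4 (n + 2) := by
      rw [add_comm n 2]; exact T4_add hy hXn
    obtain ⟨X', hX', E, hE, h3⟩ := T4_split h2
    have h4 : ∀ b : Bool, (X' + 4 ^ n * E, b) ∈ U (t + 2 + 2 * j) := by
      intro b
      rw [← h3, show t + 2 + 2 * j = t + 2 * j + 2 by ring]
      exact H.full_lo L hX hy b
    have hR' : E + 4 ^ 2 * R ∈ T4 (2 * (j + 1)) := by
      rw [show 2 * (j + 1) = 2 + 2 * j by ring]; exact T4_add hE hR
    have h5 : y + 4 ^ 2 * Z = X' + 4 ^ n * (E + 4 ^ 2 * R) := by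
      rw [hZ1]
      linear_combination h3
    rw [Finset.mem_union]
    rcases full_or_bad hX' hE h4 with h6 | h6
    · left
      rw [mem_Hc]
      refine ⟨?_, ⟨X', ?_, _, hR', h5⟩, y + 4 ^ 2 * Y, ?_, X0, hX0, ?_⟩
      · rw [show n + 2 * (j + 1) = 2 + (n + 2 * j) by ring]
        exact T4_add hy hZT
      · rw [show t + 2 * (j + 1) = t + 2 + 2 * j by ring]
        exact h6
      · rw [show 2 * (j + 1) = 2 + 2 * j by ring]
        exact T4_add hy hY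
      · rw [hZ2, show 2 * (j + 1) = 2 + 2 * j by ring, pow_add]
        ring
    · right
      rw [Finset.mem_image]
      refine ⟨(X', E + 4 ^ 2 * R), ?_, h5.symm⟩
      rw [Finset.mem_product]
      exact ⟨h6, hR'⟩
  have h2 : ((T4 2 ×ˢ Hc n U t j).image (fun p => p.1 + 4 ^ 2 * p.2)).card =
      9 * (Hc n U t j).card := by
    rw [Finset.card_image_of_injOn, Finset.card_product, T4_card]
    · norm_num
    · rintro ⟨y, Z⟩ hp ⟨y', Z'⟩ hp' h
      rw [Finset.mem_coe, Finset.mem_product] at hp hp'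
      simp only at hp hp' h
      have hZ : Z ∈ T4 (n + 2 * j) := (mem_Hc.1 hp.2).1
      have hZ' : Z' ∈ T4 (n + 2 * j) := (mem_Hc.1 hp'.2).1
      obtain ⟨h3, h4⟩ := T4_inj hp.1 hZ hp'.1 hZ' h
      rw [h3, h4]
  rw [← h2]
  refine (Finset.card_le_card h1).trans ((Finset.card_union_le _ _).trans ?_)
  refine Nat.add_le_add_left (Finset.card_image_le.trans ?_) _
  rw [Finset.card_product, T4_card, mul_comm, pow_mul]
  norm_num

theorem Hc_chain (H : BSeq n R1 R2 U) (L : Loc n R1 R2) (t : ℕ) : ∀ j : ℕ,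
    9 ^ j * (Full n (U t)).card ≤ (Hc n U t j).card +
      9 ^ j * ∑ i ∈ Finset.range j, (Bad n (U (t + 2 + 2 * i))).card
  | 0 => by simpa using Hc_zero (n := n) (U := U) t
  | j + 1 => by
    have h1 := Hc_chain H L t j
    have h2 := Hc_succ H L t j
    rw [Finset.sum_range_succ]
    calc 9 ^ (j + 1) * (Full n (U t)).card = 9 * (9 ^ j * (Full n (U t)).card) := by ring
      _ ≤ 9 * ((Hc n U t j).card +
          9 ^ j * ∑ i ∈ Finset.range j, (Bad n (U (t + 2 + 2 * i))).card) :=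
          Nat.mul_le_mul_left _ h1
      _ = 9 * (Hc n U t j).card +
          9 ^ (j + 1) * ∑ i ∈ Finset.range j, (Bad n (U (t + 2 + 2 * i))).card := by ring
      _ ≤ (Hc n U t (j + 1)).card + 9 ^ (j + 1) * (Bad n (U (t + 2 + 2 * j))).card +
          9 ^ (j + 1) * ∑ i ∈ Finset.range j, (Bad n (U (t + 2 + 2 * i))).card :=
          Nat.add_le_add_right h2 _
      _ = _ := by ring

theorem Hc_last (t : ℕ) :
    (Hc n U t n).card ≤ 3 ^ n * ((Full n (U t)).card * (Full n (U (t + 2 * n))).card) := by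
  have h1 : Hc n U t n ⊆ (T4 n ×ˢ (Full n (U t) ×ˢ Full n (U (t + 2 * n)))).image
      (fun p => (p.2.2 + 4 ^ n * p.1) + 4 ^ (2 * n) * p.2.1) := by
    intro Z hZ
    rw [mem_Hc] at hZ
    obtain ⟨hZT, ⟨X, hX, R, hR, hZ1⟩, Y, hY, X0, hX0, hZ2⟩ := hZ
    rw [Finset.mem_image]
    rw [two_mul] at hY
    obtain ⟨X', hX', R', hR', hY'⟩ := T4_split hY
    have h2 : X + 4 ^ n * R = X' + 4 ^ n * (R' + 4 ^ n * X0) := by
      rw [← hZ1, hZ2, hY', two_mul, pow_add]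
      ring
    have h3 : R' + 4 ^ n * X0 ∈ T4 (n + n) := T4_add hR' (Full_sub hX0)
    obtain ⟨h4, h5⟩ := T4_inj (b := n + n) (Full_sub hX) (by rw [← two_mul]; exact hR) hX' h3 h2
    refine ⟨(R', X0, X), ?_, ?_⟩
    · rw [Finset.mem_product, Finset.mem_product]
      exact ⟨hR', hX0, hX⟩
    · simp only
      rw [hZ2, hY', h4]
  have h2 := (Finset.card_le_card h1).trans Finset.card_image_le
  rw [Finset.card_product, Finset.card_product, T4_card] at h2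
  exact h2

/-- few full contexts -/
theorem full_bound (H : BSeq n R1 R2 U) (L : Loc n R1 R2) (t : ℕ) {Δ : ℕ}
    (h1 : 20 * (U (t + 2 * n)).card < 19 * (Om (n + 2)).card)
    (h2 : (U (t + 2 + 2 * n)).card ≤ (U (t + 2)).card + Δ) :
    (Full n (U t)).card ≤ 20 * Δ := by
  have h3 := Hc_chain H L t n
  have h4 := Hc_last (n := n) (U := U) t
  have h5 := H.sum_bad L (t + 2) n
  have h6 := full_card_le (H.sub (t + 2 * n))
  rw [Om_card] at h1
  have h7 : 20 * (Full n (U (t + 2 * n))).card ≤ 19 * 3 ^ n := by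
    have : (3 : ℕ) ^ (n + 2) = 9 * 3 ^ n := by ring
    rw [this] at h1
    omega
  have h8 : ∑ i ∈ Finset.range n, (Bad n (U (t + 2 + 2 * i))).card ≤ Δ := by omega
  set τ := (Full n (U t)).card with hτ
  set f := (Full n (U (t + 2 * n))).card with hf
  set S := ∑ i ∈ Finset.range n, (Bad n (U (t + 2 + 2 * i))).card with hS
  have h9 : (9 : ℕ) ^ n = 3 ^ n * 3 ^ n := by
    rw [← mul_pow]
    norm_num
  have h10 : 20 * (9 ^ n * τ) ≤ 19 * (9 ^ n * τ) + 20 * (9 ^ n * Δ) := by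
    calc 20 * (9 ^ n * τ) ≤ 20 * ((Hc n U t n).card + 9 ^ n * S) := Nat.mul_le_mul_left _ h3
      _ ≤ 20 * (3 ^ n * (τ * f) + 9 ^ n * Δ) :=
          Nat.mul_le_mul_left _ (Nat.add_le_add h4 (Nat.mul_le_mul_left _ h8))
      _ = 3 ^ n * τ * (20 * f) + 20 * (9 ^ n * Δ) := by ring
      _ ≤ 3 ^ n * τ * (19 * 3 ^ n) + 20 * (9 ^ n * Δ) :=
          Nat.add_le_add_right (Nat.mul_le_mul_left _ h7) _
      _ = 19 * (9 ^ n * τ) + 20 * (9 ^ n * Δ) := by rw [h9]; ring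
  have h11 : 9 ^ n * τ ≤ 9 ^ n * (20 * Δ) := by
    have : 9 ^ n * (20 * Δ) = 20 * (9 ^ n * Δ) := by ring
    omega
  exact Nat.le_of_mul_le_mul_left h11 (by positivity)

end Pool.Agent.Lib.MP_c52340_nt.Near2
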