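import Pool.Agent.Lib.MP_c52340_nt.N2B

/-!
# Growth for two-token systems: the backward growth theorem
-/

set_option autoImplicit false

namespace Pool.Agent.Lib.MP_c52340_nt.Near2

open Pool.Agent.Lib.MP_c52340_nt Pool.Agent.Lib.MP_c52340_nt.Tok C52C
open scoped Classical

/-- one token step -/
def S1 (n : ℕ) (R1 : ℤ → ℤ × Bool → ℤ × Bool → Prop) (s t : ℤ × Bool) : Prop :=
  ∃ X ∈ T4 (n + 1), ∃ y ∈ T4 1, ∃ E ∈ T4 1, s.1 = y + 4 ^ 1 * X ∧ t.1 = X + 4 ^ (n + 1) * E ∧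
    R1 X (y, s.2) (E, t.2)

/-- frozen tokens -/
def Fz (n : ℕ) (R1 : ℤ → ℤ × Bool → ℤ × Bool → Prop) (t : ℤ × Bool) : Prop :=
  ∀ X ∈ T4 (n + 1), ∀ E ∈ T4 1, t.1 = X + 4 ^ (n + 1) * E → ∀ w ∈ T4 1,
    ¬ ∀ b : Bool, R1 X (w, b) (E, t.2)

/-- no long frozen backward chains -/
def NF (n : ℕ) (R1 : ℤ → ℤ × Bool → ℤ × Bool → Prop) : Prop :=
  ¬ ∃ z : ℕ → ℤ × Bool, (∀ i ≤ n + 2, S1 n R1 (z (i + 1)) (z i)) ∧ ∀ i ≤ n + 3, Fz n R1 (z i)

variable {n : ℕ} {R1 R2 : ℤ → ℤ × Bool → ℤ × Bool → Prop} {U : ℕ → Finset (ℤ × Bool)}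

theorem S1.mem {s t : ℤ × Bool} (h : S1 n R1 s t) : s ∈ Om (n + 2) ∧ t ∈ Om (n + 2) := by
  obtain ⟨X, hX, y, hy, E, hE, h1, h2, _⟩ := h
  rw [mem_Om, mem_Om, h1, h2]
  refine ⟨?_, T4_add hX hE⟩
  rw [show n + 2 = 1 + (n + 1) by ring]
  exact T4_add hy hX

theorem BSeq.step (H : BSeq n R1 R2 U) {t : ℕ} {s z : ℤ × Bool} (h : S1 n R1 s z)
    (hz : z ∈ U t) : s ∈ U (t + 1) := by
  obtain ⟨X, hX, y, hy, E, hE, h1, h2, hR⟩ := h
  have h3 := H.one t X hX (y, s.2) (mem_Om.2 hy) (E, z.2) (mem_Om.2 hE) hR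
    (by simp only; rw [← h2]; exact hz)
  simp only at h3
  rw [← h1] at h3
  exact h3

/-- the one-step matching -/
theorem exists_match (L : Loc n R1 R2) : ∃ m : ℤ × Bool → ℤ × Bool,
    Set.InjOn m (Om (n + 2) : Set (ℤ × Bool)) ∧ ∀ z ∈ Om (n + 2), S1 n R1 (m z) z := by
  set tt : {z // z ∈ Om (n + 2)} → Finset (ℤ × Bool) :=
    fun z => (Om (n + 2)).filter (fun s => S1 n R1 s z.1) with htt
  have hall : ∀ s : Finset {z // z ∈ Om (n + 2)}, s.card ≤ (s.biUnion tt).card := by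
    intro s
    set A : Finset (ℤ × Bool) := s.map (Function.Embedding.subtype _) with hA
    have hAs : A ⊆ Om (n + 2) := by
      intro z hz
      rw [hA, Finset.mem_map] at hz
      obtain ⟨w, _, rfl⟩ := hz
      exact w.2
    have hcard : s.card = A.card := by rw [hA, Finset.card_map]
    have hB : s.biUnion tt ⊆ Om (n + 2) := by
      intro z hz
      rw [Finset.mem_biUnion] at hz
      obtain ⟨w, _, hw⟩ := hz
      rw [htt] at hw
      exact (Finset.mem_filter.1 hw).1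
    rw [hcard, card_hiF (r := 1) (m := n + 1) hAs,
      card_loF (r := 1) (m := n + 1) (by rw [add_comm 1 (n + 1)]; exact hB)]
    refine Finset.sum_le_sum (fun X hX => ?_)
    refine (L.hall1 X hX _ hiF_sub).trans (Finset.card_le_card ?_)
    intro p hp
    unfold nbB at hp
    rw [Finset.mem_filter] at hp
    obtain ⟨hp, e, he, hR⟩ := hp
    rw [mem_hiF] at he
    rw [mem_loF, Finset.mem_biUnion]
    refine ⟨mem_Om.1 hp, ?_⟩
    have h1 := he.2
    rw [hA, Finset.mem_map] at h1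
    obtain ⟨w, hw, hw2⟩ := h1
    refine ⟨w, hw, ?_⟩
    rw [htt]
    refine Finset.mem_filter.2 ?_
    have hS : S1 n R1 (p.1 + 4 ^ 1 * X, p.2) w.1 := by
      have h2 : w.1 = (X + 4 ^ (n + 1) * e.1, e.2) := hw2
      rw [h2]
      exact ⟨X, hX, p.1, mem_Om.1 hp, e.1, he.1, rfl, rfl, hR⟩
    exact ⟨hS.mem.1, hS⟩
  obtain ⟨f, hf1, hf2⟩ := (Finset.all_card_le_biUnion_card_iff_exists_injective tt).1 hall
  refine ⟨fun z => if h : z ∈ Om (n + 2) then f ⟨z, h⟩ else z, ?_, ?_⟩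
  · intro z hz w hw h
    rw [Finset.mem_coe] at hz hw
    simp only [dif_pos hz, dif_pos hw] at h
    have := hf1 h
    exact congrArg Subtype.val this
  · intro z hz
    simp only [dif_pos hz]
    have h1 := hf2 ⟨z, hz⟩
    rw [htt] at h1
    exact (Finset.mem_filter.1 h1).2

theorem mem_Pw {A : Finset (ℤ × Bool)} {x : ℤ} :
    x ∈ Pw n A ↔ x ∈ T4 (n + 2) ∧ ∀ b : Bool, (x, b) ∈ A := by
  unfold Pw
  rw [Finset.mem_filter]

/-- tokens over paired words -/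
noncomputable def Qt (n : ℕ) (A : Finset (ℤ × Bool)) : Finset (ℤ × Bool) :=
  Pw n A ×ˢ (Finset.univ : Finset Bool)

/-- tokens over full contexts -/
noncomputable def Qf (n : ℕ) (A : Finset (ℤ × Bool)) : Finset (ℤ × Bool) :=
  ((Full n A ×ˢ T4 2).image (fun p => p.1 + 4 ^ n * p.2)) ×ˢ (Finset.univ : Finset Bool)

/-- unpaired tokens which are not frozen -/
noncomputable def Nt (n : ℕ) (R1 : ℤ → ℤ × Bool → ℤ × Bool → Prop) (A : Finset (ℤ × Bool)) :
    Finset (ℤ × Bool) :=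
  A.filter (fun z => z.1 ∉ Pw n A ∧ ¬ Fz n R1 z)

/-- one-step contexts with an unpaired token which is not frozen -/
noncomputable def Ac (n : ℕ) (R1 : ℤ → ℤ × Bool → ℤ × Bool → Prop) (A : Finset (ℤ × Bool)) :
    Finset ℤ :=
  (T4 (n + 1)).filter (fun X => ∃ z ∈ Nt n R1 A, ∃ E ∈ T4 1, z.1 = X + 4 ^ (n + 1) * E)

theorem mem_Qt {A : Finset (ℤ × Bool)} {z : ℤ × Bool} : z ∈ Qt n A ↔ z.1 ∈ Pw n A := by
  unfold Qt; simp

theorem mem_Qf {A : Finset (ℤ × Bool)} {z : ℤ × Bool} :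
    z ∈ Qf n A ↔ ∃ X ∈ Full n A, ∃ E ∈ T4 2, z.1 = X + 4 ^ n * E := by
  unfold Qf
  rw [Finset.mem_product, Finset.mem_image]
  constructor
  · rintro ⟨⟨p, hp, h⟩, _⟩
    rw [Finset.mem_product] at hp
    exact ⟨p.1, hp.1, p.2, hp.2, h.symm⟩
  · rintro ⟨X, hX, E, hE, h⟩
    exact ⟨⟨(X, E), Finset.mem_product.2 ⟨hX, hE⟩, h.symm⟩, Finset.mem_univ _⟩

theorem mem_Nt {A : Finset (ℤ × Bool)} {z : ℤ × Bool} :
    z ∈ Nt n R1 A ↔ z ∈ A ∧ z.1 ∉ Pw n A ∧ ¬ Fz n R1 z := by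
  unfold Nt; rw [Finset.mem_filter]

theorem card_Qt {A : Finset (ℤ × Bool)} : (Qt n A).card = 2 * (Pw n A).card := by
  unfold Qt
  rw [Finset.card_product]
  simp [mul_comm]

theorem card_Qf {A : Finset (ℤ × Bool)} : (Qf n A).card = 18 * (Full n A).card := by
  unfold Qf
  rw [Finset.card_product, Finset.card_image_of_injOn, Finset.card_product, T4_card]
  · simp only [Finset.card_univ, Fintype.card_bool]
    ring
  · rintro ⟨y, Z⟩ hp ⟨y', Z'⟩ hp' h
    rw [Finset.mem_coe, Finset.mem_product] at hp hp'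
    simp only at hp hp' h
    obtain ⟨h3, h4⟩ := T4_inj (Full_sub hp.1) hp.2 (Full_sub hp'.1) hp'.2 h
    rw [h3, h4]

theorem Qt_le {A : Finset (ℤ × Bool)} :
    (Qt n A).card ≤ (Qf n A).card + 18 * (Bad n A).card := by
  rw [card_Qt, card_Qf]
  have := pw_card (n := n) (A := A)
  omega

theorem full_all {A : Finset (ℤ × Bool)} {X : ℤ} (hX : X ∈ Full n A) {E : ℤ} (hE : E ∈ T4 2)
    (b : Bool) : (X + 4 ^ n * E, b) ∈ A := by
  unfold Full at hX
  rw [Finset.mem_filter] at hX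
  have h1 : ((E, b) : ℤ × Bool) ∈ Om 2 := mem_Om.2 hE
  rw [← hX.2, mem_hiF] at h1
  exact h1.2

theorem Qf_sub {A : Finset (ℤ × Bool)} : Qf n A ⊆ Qt n A := by
  intro z hz
  rw [mem_Qf] at hz
  obtain ⟨X, hX, E, hE, h⟩ := hz
  rw [mem_Qt, mem_Pw, h]
  exact ⟨T4_add (Full_sub hX) hE, fun b => full_all hX hE b⟩

/-- the one-digit context of a token over a full context -/
theorem ctx_of {X E X' E' : ℤ} (hX : X ∈ T4 n) (hE : E ∈ T4 2) (hX' : X' ∈ T4 (n + 1))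
    (hE' : E' ∈ T4 1) (h : X + 4 ^ n * E = X' + 4 ^ (n + 1) * E') :
    ∃ e ∈ T4 1, X' = X + 4 ^ n * e := by
  have hE2 : E ∈ T4 (1 + 1) := hE
  obtain ⟨e, he, E1, hE1, rfl⟩ := T4_split hE2
  refine ⟨e, he, ?_⟩
  have h1 : X' + 4 ^ (n + 1) * E' = (X + 4 ^ n * e) + 4 ^ (n + 1) * E1 := by
    rw [← h]; ring
  exact (T4_inj hX' hE' (T4_add hX he) hE1 h1).1

theorem Nt_le {A : Finset (ℤ × Bool)} (hA : A ⊆ Om (n + 2)) :
    (Nt n R1 A).card ≤ 3 * (Ac n R1 A).card := by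
  have h1 : (Nt n R1 A).card = ((Nt n R1 A).image Prod.fst).card := by
    rw [Finset.card_image_of_injOn]
    rintro ⟨x, b⟩ hz ⟨x', b'⟩ hz' h
    rw [Finset.mem_coe, mem_Nt] at hz hz'
    simp only at h
    subst h
    by_contra hne
    have hbb : b ≠ b' := fun hb => hne (by rw [hb])
    apply hz.2.1
    rw [mem_Pw]
    refine ⟨mem_Om.1 (hA hz.1), fun c => ?_⟩
    rcases Bool.eq_or_eq_not c b with h | h
    · rw [h]; exact hz.1
    · have : c = b' := by
        rw [h]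
        cases b <;> cases b' <;> simp_all
      rw [this]; exact hz'.1
  rw [h1]
  have h2 : (Nt n R1 A).image Prod.fst ⊆
      (Ac n R1 A ×ˢ T4 1).image (fun p => p.1 + 4 ^ (n + 1) * p.2) := by
    intro x hx
    rw [Finset.mem_image] at hx
    obtain ⟨z, hz, rfl⟩ := hx
    have h3 := mem_Om.1 (hA (mem_Nt.1 hz).1)
    obtain ⟨X, hX, E, hE, h4⟩ := T4_split (a := n + 1) (b := 1) h3
    rw [Finset.mem_image]
    refine ⟨(X, E), ?_, h4.symm⟩
    rw [Finset.mem_product]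
    refine ⟨?_, hE⟩
    unfold Ac
    rw [Finset.mem_filter]
    exact ⟨hX, z, hz, E, hE, h4⟩
  refine (Finset.card_le_card h2).trans (Finset.card_image_le.trans ?_)
  rw [Finset.card_product, T4_card, mul_comm]
  norm_num

/-- inflow into the paired tokens -/
theorem inflow (H : BSeq n R1 R2 U) (L : Loc n R1 R2) {m : ℤ × Bool → ℤ × Bool}
    (hm1 : Set.InjOn m (Om (n + 2) : Set (ℤ × Bool)))
    (hm2 : ∀ z ∈ Om (n + 2), S1 n R1 (m z) z) (t : ℕ) :
    (Qf n (U t)).card + 2 * (Ac n R1 (U t)).card ≤ (Qt n (U (t + 1))).card := by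
  -- doubled words
  have hw : ∀ X : ℤ, ∃ w : ℤ, X ∈ Ac n R1 (U t) →
      w ∈ T4 1 ∧ ∀ b : Bool, (w + 4 ^ 1 * X, b) ∈ U (t + 1) := by
    intro X
    by_cases hX : X ∈ Ac n R1 (U t)
    · have hX1 := hX
      unfold Ac at hX1
      rw [Finset.mem_filter] at hX1
      obtain ⟨hXT, z, hz, E, hE, hzE⟩ := hX1
      rw [mem_Nt] at hz
      have h1 := hz.2.2
      unfold Fz at h1
      push Not at h1
      obtain ⟨X1, hX1, E1, hE1, h2, w, hw, h3⟩ := h1
      obtain ⟨h4, h5⟩ := T4_inj hXT hE hX1 hE1 (hzE.symm.trans h2)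
      subst h4
      subst h5
      refine ⟨w, fun _ => ⟨hw, fun b => ?_⟩⟩
      apply H.step (z := z) _ hz.1
      exact ⟨X, hXT, w, hw, E, hE, rfl, hzE, h3 b⟩
    · exact ⟨0, fun h => absurd h hX⟩
  choose w hw using hw
  set B1 : Finset (ℤ × Bool) := (Qf n (U t)).image m with hB1
  set B2 : Finset (ℤ × Bool) :=
    (Ac n R1 (U t) ×ˢ (Finset.univ : Finset Bool)).image (fun p => (w p.1 + 4 ^ 1 * p.1, p.2))
    with hB2
  have hQO : Qf n (U t) ⊆ Om (n + 2) := by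
    intro z hz
    have := Qf_sub hz
    rw [mem_Qt, mem_Pw] at this
    exact mem_Om.2 this.1
  have hc1 : B1.card = (Qf n (U t)).card := by
    rw [hB1]
    apply Finset.card_image_of_injOn
    exact hm1.mono (by exact_mod_cast hQO)
  have hAT : ∀ X ∈ Ac n R1 (U t), X ∈ T4 (n + 1) := fun X hX => by
    unfold Ac at hX
    exact (Finset.mem_filter.1 hX).1
  have hc2 : B2.card = 2 * (Ac n R1 (U t)).card := by
    rw [hB2, Finset.card_image_of_injOn, Finset.card_product]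
    · simp [mul_comm]
    · rintro ⟨X, b⟩ hp ⟨X', b'⟩ hp' h
      rw [Finset.mem_coe, Finset.mem_product] at hp hp'
      simp only [Prod.mk.injEq] at h hp hp'
      obtain ⟨_, h3⟩ := T4_inj (hw X hp.1).1 (hAT X hp.1) (hw X' hp'.1).1 (hAT X' hp'.1) h.1
      rw [h3, h.2]
  have hdisj : Disjoint B1 B2 := by
    rw [Finset.disjoint_left]
    intro s hs1 hs2
    rw [hB1, Finset.mem_image] at hs1
    rw [hB2, Finset.mem_image] at hs2
    obtain ⟨z, hz, hzs⟩ := hs1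
    obtain ⟨⟨X, b⟩, hX, hXs⟩ := hs2
    rw [Finset.mem_product] at hX
    have hXA := hX.1
    simp only at hXA hXs
    obtain ⟨X', hX', y, hy, E', hE', h1, h2, hR⟩ := hm2 z (hQO hz)
    rw [hzs, ← hXs] at h1
    simp only at h1
    obtain ⟨_, h3⟩ := T4_inj (hw X hXA).1 (hAT X hXA) hy hX' h1
    subst h3
    rw [mem_Qf] at hz
    obtain ⟨X0, hX0, E0, hE0, hz0⟩ := hz
    obtain ⟨e, he, h4⟩ := ctx_of (Full_sub hX0) hE0 hX' hE' (hz0.symm.trans h2)
    unfold Ac at hXA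
    rw [Finset.mem_filter] at hXA
    obtain ⟨_, z', hz', E, hE, hzE⟩ := hXA
    rw [mem_Nt] at hz'
    apply hz'.2.1
    rw [mem_Pw]
    refine ⟨?_, fun c => ?_⟩
    · rw [hzE]; exact T4_add hX' hE
    · have h5 : z'.1 = X0 + 4 ^ n * (e + 4 ^ 1 * E) := by
        rw [hzE, h4]; ring
      rw [h5]
      exact full_all hX0 (T4_add he hE) c
  have hsub : B1 ∪ B2 ⊆ Qt n (U (t + 1)) := by
    intro s hs
    rw [Finset.mem_union] at hs
    rcases hs with hs | hs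
    · rw [hB1, Finset.mem_image] at hs
      obtain ⟨z, hz, rfl⟩ := hs
      obtain ⟨X', hX', y, hy, E', hE', h1, h2, hR⟩ := hm2 z (hQO hz)
      rw [mem_Qf] at hz
      obtain ⟨X0, hX0, E0, hE0, hz0⟩ := hz
      obtain ⟨e, he, h4⟩ := ctx_of (Full_sub hX0) hE0 hX' hE' (hz0.symm.trans h2)
      rw [mem_Qt, mem_Pw, h1, h4]
      refine ⟨?_, fun b => H.full_one L hX0 he hy b⟩
      rw [← h4, show n + 2 = 1 + (n + 1) by ring]
      exact T4_add hy hX'
    · rw [hB2, Finset.mem_image] at hs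
      obtain ⟨⟨X, b⟩, hX, rfl⟩ := hs
      rw [Finset.mem_product] at hX
      rw [mem_Qt, mem_Pw]
      refine ⟨?_, fun c => (hw X hX.1).2 c⟩
      simp only
      rw [show n + 2 = 1 + (n + 1) by ring]
      exact T4_add (hw X hX.1).1 (hAT X hX.1)
  have h1 := Finset.card_le_card hsub
  rw [Finset.card_union_of_disjoint hdisj, hc1, hc2] at h1
  exact h1

/-- tokens of `U t` which have a frozen and unpaired history -/
noncomputable def St (n : ℕ) (R1 : ℤ → ℤ × Bool → ℤ × Bool → Prop)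
    (U : ℕ → Finset (ℤ × Bool)) (m : ℤ × Bool → ℤ × Bool) : ℕ → Finset (ℤ × Bool)
  | 0 => (U 0) \ (Qt n (U 0) ∪ Nt n R1 (U 0))
  | t + 1 => ((St n R1 U m t).image m) \ (Qt n (U (t + 1)) ∪ Nt n R1 (U (t + 1)))

theorem St_spec (H : BSeq n R1 R2 U) {m : ℤ × Bool → ℤ × Bool}
    (hm2 : ∀ z ∈ Om (n + 2), S1 n R1 (m z) z) : ∀ t : ℕ, ∀ z ∈ St n R1 U m t,
      z ∈ U t ∧ z ∉ Qt n (U t) ∧ Fz n R1 z
  | 0, z, hz => by
    have hz : z ∈ (U 0) \ (Qt n (U 0) ∪ Nt n R1 (U 0)) := hz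
    rw [Finset.mem_sdiff, Finset.mem_union, not_or] at hz
    refine ⟨hz.1, hz.2.1, ?_⟩
    by_contra hf
    apply hz.2.2
    rw [mem_Nt]
    rw [mem_Qt] at hz
    exact ⟨hz.1, hz.2.1, hf⟩
  | t + 1, z, hz => by
    have hz : z ∈ ((St n R1 U m t).image m) \ (Qt n (U (t + 1)) ∪ Nt n R1 (U (t + 1))) := hz
    rw [Finset.mem_sdiff, Finset.mem_union, not_or, Finset.mem_image] at hz
    obtain ⟨⟨y, hy, hyz⟩, h1, h2⟩ := hz
    have h3 := St_spec H hm2 t y hy
    have h4 : z ∈ U (t + 1) := by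
      rw [← hyz]
      exact H.step (hm2 y (H.sub t h3.1)) h3.1
    refine ⟨h4, h1, ?_⟩
    by_contra hf
    apply h2
    rw [mem_Nt]
    rw [mem_Qt] at h1
    exact ⟨h4, h1, hf⟩

theorem St_path (H : BSeq n R1 R2 U) {m : ℤ × Bool → ℤ × Bool}
    (hm2 : ∀ z ∈ Om (n + 2), S1 n R1 (m z) z) : ∀ t : ℕ, ∀ z ∈ St n R1 U m t,
      ∃ p : ℕ → ℤ × Bool, p t = z ∧ (∀ i < t, S1 n R1 (p (i + 1)) (p i)) ∧
        ∀ i ≤ t, Fz n R1 (p i)
  | 0, z, hz => ⟨fun _ => z, rfl, fun i hi => absurd hi (Nat.not_lt_zero i), fun i _ =>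
      (St_spec H hm2 0 z hz).2.2⟩
  | t + 1, z, hz => by
    have h0 := St_spec H hm2 (t + 1) z hz
    have hz : z ∈ ((St n R1 U m t).image m) \ (Qt n (U (t + 1)) ∪ Nt n R1 (U (t + 1))) := hz
    rw [Finset.mem_sdiff, Finset.mem_image] at hz
    obtain ⟨⟨y, hy, hyz⟩, _⟩ := hz
    obtain ⟨p, hp1, hp2, hp3⟩ := St_path H hm2 t y hy
    have h3 := St_spec H hm2 t y hy
    refine ⟨fun i => if i = t + 1 then z else p i, by simp, ?_, ?_⟩
    · intro i hi
      simp only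
      rw [if_neg (by omega : i ≠ t + 1)]
      by_cases h : i = t
      · subst h
        rw [if_pos rfl, hp1, ← hyz]
        exact hm2 y (H.sub _ h3.1)
      · rw [if_neg (by omega)]
        exact hp2 i (by omega)
    · intro i hi
      simp only
      split_ifs with h
      · exact h0.2.2
      · exact hp3 i (by omega)

theorem St_zero (H : BSeq n R1 R2 U) (m : ℤ × Bool → ℤ × Bool) :
    (U 0).card ≤ (St n R1 U m 0).card + (Qt n (U 0)).card + (Nt n R1 (U 0)).card := by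
  show (U 0).card ≤ ((U 0) \ (Qt n (U 0) ∪ Nt n R1 (U 0))).card + _ + _
  have h1 := Finset.le_card_sdiff (Qt n (U 0) ∪ Nt n R1 (U 0)) (U 0)
  have h2 := Finset.card_union_le (Qt n (U 0)) (Nt n R1 (U 0))
  omega

theorem St_succ (H : BSeq n R1 R2 U) (L : Loc n R1 R2) {m : ℤ × Bool → ℤ × Bool}
    (hm1 : Set.InjOn m (Om (n + 2) : Set (ℤ × Bool)))
    (hm2 : ∀ z ∈ Om (n + 2), S1 n R1 (m z) z) (t : ℕ) :
    (St n R1 U m t).card + (Qf n (U t)).card ≤ (St n R1 U m (t + 1)).card +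
      (Qt n (U (t + 1))).card + (Nt n R1 (U (t + 1))).card := by
  have hQO : Qf n (U t) ⊆ Om (n + 2) := by
    intro z hz
    have := Qf_sub hz
    rw [mem_Qt, mem_Pw] at this
    exact mem_Om.2 this.1
  have hSO : St n R1 U m t ⊆ Om (n + 2) := fun z hz => H.sub t (St_spec H hm2 t z hz).1
  have hdisj : Disjoint (St n R1 U m t) (Qf n (U t)) := by
    rw [Finset.disjoint_left]
    intro z hz hz'
    exact (St_spec H hm2 t z hz).2.1 (Qf_sub hz')
  have hUO : ((St n R1 U m t ∪ Qf n (U t) : Finset (ℤ × Bool)) : Set (ℤ × Bool)) ⊆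
      (Om (n + 2) : Set (ℤ × Bool)) := by
    exact_mod_cast Finset.union_subset hSO hQO
  have hc : (St n R1 U m t).card + (Qf n (U t)).card =
      ((St n R1 U m t ∪ Qf n (U t)).image m).card := by
    rw [Finset.card_image_of_injOn (hm1.mono hUO), Finset.card_union_of_disjoint hdisj]
  have hQ : (Qf n (U t)).image m ⊆ Qt n (U (t + 1)) := by
    intro s hs
    rw [Finset.mem_image] at hs
    obtain ⟨z, hz, rfl⟩ := hs
    obtain ⟨X', hX', y, hy, E', hE', h1, h2, hR⟩ := hm2 z (hQO hz)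
    rw [mem_Qf] at hz
    obtain ⟨X0, hX0, E0, hE0, hz0⟩ := hz
    obtain ⟨e, he, h4⟩ := ctx_of (Full_sub hX0) hE0 hX' hE' (hz0.symm.trans h2)
    rw [mem_Qt, mem_Pw, h1, h4]
    refine ⟨?_, fun b => H.full_one L hX0 he hy b⟩
    rw [← h4, show n + 2 = 1 + (n + 1) by ring]
    exact T4_add hy hX'
  have hsub : (St n R1 U m t ∪ Qf n (U t)).image m ⊆
      St n R1 U m (t + 1) ∪ (Qt n (U (t + 1)) ∪ Nt n R1 (U (t + 1))) := by
    rw [Finset.image_union]
    apply Finset.union_subset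
    · intro s hs
      by_cases h : s ∈ Qt n (U (t + 1)) ∪ Nt n R1 (U (t + 1))
      · exact Finset.mem_union_right _ h
      · apply Finset.mem_union_left
        show s ∈ ((St n R1 U m t).image m) \ (Qt n (U (t + 1)) ∪ Nt n R1 (U (t + 1)))
        rw [Finset.mem_sdiff]
        exact ⟨hs, h⟩
    · intro s hs
      exact Finset.mem_union_right _ (Finset.mem_union_left _ (hQ hs))
  rw [hc]
  have h1 := Finset.card_le_card hsub
  have h2 := Finset.card_union_le (St n R1 U m (t + 1)) (Qt n (U (t + 1)) ∪ Nt n R1 (U (t + 1)))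
  have h3 := Finset.card_union_le (Qt n (U (t + 1))) (Nt n R1 (U (t + 1)))
  omega

/-- sum over the inflow -/
theorem sum_Nt (H : BSeq n R1 R2 U) (L : Loc n R1 R2) {m : ℤ × Bool → ℤ × Bool}
    (hm1 : Set.InjOn m (Om (n + 2) : Set (ℤ × Bool)))
    (hm2 : ∀ z ∈ Om (n + 2), S1 n R1 (m z) z) : ∀ j : ℕ,
    2 * ∑ i ∈ Finset.range j, (Nt n R1 (U i)).card ≤
      3 * (Qt n (U j)).card + 54 * ∑ i ∈ Finset.range j, (Bad n (U i)).card
  | 0 => by simp
  | j + 1 => by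
    have h1 := sum_Nt H L hm1 hm2 j
    have h2 := inflow H L hm1 hm2 j
    have h3 := Nt_le (R1 := R1) (H.sub j)
    have h4 := Qt_le (n := n) (A := U j)
    rw [Finset.sum_range_succ, Finset.sum_range_succ]
    omega

theorem sum_St (H : BSeq n R1 R2 U) (L : Loc n R1 R2) {m : ℤ × Bool → ℤ × Bool}
    (hm1 : Set.InjOn m (Om (n + 2) : Set (ℤ × Bool)))
    (hm2 : ∀ z ∈ Om (n + 2), S1 n R1 (m z) z) : ∀ j : ℕ,
    (U 0).card ≤ (St n R1 U m j).card + (Qt n (U j)).card +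
      18 * ∑ i ∈ Finset.range j, (Bad n (U i)).card +
      ∑ i ∈ Finset.range (j + 1), (Nt n R1 (U i)).card
  | 0 => by
    have := St_zero H m
    simpa using this
  | j + 1 => by
    have h1 := sum_St H L hm1 hm2 j
    have h2 := St_succ H L hm1 hm2 j
    have h4 := Qt_le (n := n) (A := U j)
    rw [Finset.sum_range_succ _ (j + 1), Finset.sum_range_succ (fun i => (Bad n (U i)).card)]
    omega

/-- **Backward growth.** -/
theorem back_growth (H : BSeq n R1 R2 U) (L : Loc n R1 R2) (hNF : NF n R1) :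
    19 * (Om (n + 2)).card ≤ 20 * (U (3 * n + 6)).card ∨
      1036 * (U 0).card ≤ 1035 * (U (3 * n + 6)).card := by
  by_contra hcon
  push Not at hcon
  obtain ⟨hc1, hc2⟩ := hcon
  obtain ⟨m, hm1, hm2⟩ := exists_match L
  obtain ⟨Δ, hΔ⟩ := Nat.exists_eq_add_of_le (H.mono L (Nat.zero_le (3 * n + 6)))
  have hlt : 1035 * Δ < (U 0).card := by omega
  -- bounds at the times used
  have hq : ∀ t ≤ n + 4, (Qt n (U t)).card ≤ 378 * Δ := by
    intro t ht
    have h1 : (Full n (U t)).card ≤ 20 * Δ := by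
      apply full_bound H L t
      · have := H.mono L (show t + 2 * n ≤ 3 * n + 6 by omega)
        omega
      · have h2 := H.mono L (show t + 2 + 2 * n ≤ 3 * n + 6 by omega)
        have h3 := H.mono L (show 0 ≤ t + 2 by omega)
        omega
    have h2 : (Bad n (U t)).card ≤ Δ := by
      have h3 := H.bad_le L t
      have h4 := H.mono L (show t + 2 ≤ 3 * n + 6 by omega)
      have h5 := H.mono L (show 0 ≤ t by omega)
      omega
    have h3 := pw_card (n := n) (A := U t)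
    rw [card_Qt]
    omega
  have hb : ∀ j ≤ n + 4, ∑ i ∈ Finset.range j, (Bad n (U i)).card ≤ 2 * Δ := by
    intro j hj
    have h1 := H.sum_bad' L j
    have h2 := H.mono L (show j ≤ 3 * n + 6 by omega)
    have h3 := H.mono L (show j + 1 ≤ 3 * n + 6 by omega)
    have h4 := H.mono L (show 0 ≤ 1 by omega)
    omega
  have h1 := sum_Nt H L hm1 hm2 (n + 4)
  have h2 := sum_St H L hm1 hm2 (n + 3)
  have h3 := hq (n + 4) le_rfl
  have h4 := hq (n + 3) (by omega)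
  have h5 := hb (n + 4) le_rfl
  have h6 := hb (n + 3) (by omega)
  have h7 : 0 < (St n R1 U m (n + 3)).card := by
    have h8 : n + 3 + 1 = n + 4 := by ring
    rw [h8] at h2
    omega
  obtain ⟨z, hz⟩ := Finset.card_pos.1 h7
  obtain ⟨p, _, hp2, hp3⟩ := St_path H hm2 (n + 3) z hz
  exact hNF ⟨p, fun i hi => hp2 i (by omega), hp3⟩

end Pool.Agent.Lib.MP_c52340_nt.Near2
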