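import Pool.Agent.Lib.MP_c52340_nt.N2C

/-!
# Growth for two-token systems: the forward growth theorem
-/

set_option autoImplicit false

namespace Pool.Agent.Lib.MP_c52340_nt.Near2

open Pool.Agent.Lib.MP_c52340_nt Pool.Agent.Lib.MP_c52340_nt.Tok C52C
open scoped Classical

/-- a sequence of sets of tokens closed under two-digit forward steps -/
structure FSeq (n : ℕ) (R2 : ℤ → ℤ × Bool → ℤ × Bool → Prop)
    (A : ℕ → Finset (ℤ × Bool)) : Prop where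
  sub : ∀ t, A t ⊆ Om (n + 2)
  two : ∀ t, ∀ X ∈ T4 n, ∀ s ∈ Om 2, ∀ e ∈ Om 2, R2 X s e →
    (s.1 + 4 ^ 2 * X, s.2) ∈ A t → (X + 4 ^ n * e.1, e.2) ∈ A (t + 2)

variable {n : ℕ} {R1 R2 : ℤ → ℤ × Bool → ℤ × Bool → Prop} {A : ℕ → Finset (ℤ × Bool)}

/-- words present in a set of tokens -/
noncomputable def Rw (A : Finset (ℤ × Bool)) : Finset ℤ := A.image Prod.fst

theorem mem_Rw {A : Finset (ℤ × Bool)} {x : ℤ} : x ∈ Rw A ↔ ∃ b : Bool, (x, b) ∈ A := by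
  unfold Rw
  rw [Finset.mem_image]
  constructor
  · rintro ⟨⟨y, b⟩, h, rfl⟩
    exact ⟨b, h⟩
  · rintro ⟨b, h⟩
    exact ⟨(x, b), h, rfl⟩

theorem card_le_Rw (A : Finset (ℤ × Bool)) : A.card ≤ 2 * (Rw A).card := by
  have h1 : A ⊆ Rw A ×ˢ (Finset.univ : Finset Bool) := by
    rintro ⟨x, b⟩ h
    rw [Finset.mem_product]
    exact ⟨mem_Rw.2 ⟨b, h⟩, Finset.mem_univ _⟩
  have h2 := Finset.card_le_card h1
  rw [Finset.card_product] at h2
  simpa [mul_comm] using h2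

/-- contexts where the forward set grows -/
noncomputable def BadF (n : ℕ) (A B : Finset (ℤ × Bool)) : Finset ℤ :=
  (T4 n).filter (fun X => (∃ p : ℤ × Bool, p ∈ loF 2 A X) ∧
    ∃ E ∈ T4 2, ∀ b : Bool, (X + 4 ^ n * E, b) ∉ B)

theorem mem_BadF {A B : Finset (ℤ × Bool)} {X : ℤ} : X ∈ BadF n A B ↔ X ∈ T4 n ∧
    (∃ p : ℤ × Bool, p ∈ loF 2 A X) ∧ ∃ E ∈ T4 2, ∀ b : Bool, (X + 4 ^ n * E, b) ∉ B := by
  unfold BadF
  rw [Finset.mem_filter]

theorem FSeq.nbF_sub' (H : FSeq n R2 A) (t : ℕ) {X : ℤ} (hX : X ∈ T4 n) :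
    nbF 2 (R2 X) (loF 2 (A t) X) ⊆ hiF 2 n (A (t + 2)) X := by
  intro e he
  unfold nbF at he
  rw [Finset.mem_filter] at he
  obtain ⟨he, s, hs, hR⟩ := he
  rw [mem_loF] at hs
  rw [mem_hiF]
  exact ⟨mem_Om.1 he, H.two t X hX s (mem_Om.2 hs.1) e he hR hs.2⟩

theorem FSeq.bad_le (H : FSeq n R2 A) (L : Loc n R1 R2) (t : ℕ) :
    (A t).card + (BadF n (A t) (A (t + 2))).card ≤ (A (t + 2)).card := by
  rw [card_hiF (r := 2) (m := n) (H.sub (t + 2)),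
    card_loF (r := 2) (m := n) (by rw [add_comm 2 n]; exact H.sub t)]
  have hB : (BadF n (A t) (A (t + 2))).card =
      ∑ X ∈ T4 n, if (∃ p : ℤ × Bool, p ∈ loF 2 (A t) X) ∧
        ∃ E ∈ T4 2, ∀ b : Bool, (X + 4 ^ n * E, b) ∉ A (t + 2) then 1 else 0 := by
    unfold BadF
    rw [Finset.card_filter]
  rw [hB, ← Finset.sum_add_distrib]
  refine Finset.sum_le_sum (fun X hX => ?_)
  have h1 := Finset.card_le_card (H.nbF_sub' t hX)
  have h2 := hallF (L.hall2 X hX) (loF_sub (r := 2) (A := A t) (X := X))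
  split_ifs with h
  · have h3 : ¬ (nbF 2 (R2 X) (loF 2 (A t) X)).card ≤ (loF 2 (A t) X).card := by
      intro h4
      obtain ⟨⟨p, hp⟩, E, hE, hb⟩ := h
      obtain ⟨b, h5⟩ := pairF (L.hall2 X hX) (L.pair X hX) loF_sub ⟨p, hp⟩ h4 hE
      exact hb b (mem_hiF.1 (H.nbF_sub' t hX h5)).2
    omega
  · omega

theorem FSeq.sum_bad (H : FSeq n R2 A) (L : Loc n R1 R2) (t : ℕ) : ∀ j : ℕ,
    (A t).card + ∑ i ∈ Finset.range j, (BadF n (A (t + 2 * i)) (A (t + 2 * i + 2))).card ≤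
      (A (t + 2 * j)).card
  | 0 => by simp
  | j + 1 => by
    rw [Finset.sum_range_succ, ← add_assoc]
    have h1 := H.sum_bad L t j
    have h2 := H.bad_le L (t + 2 * j)
    have h3 : t + 2 * (j + 1) = t + 2 * j + 2 := by ring
    rw [h3]
    omega

/-! ### The chain -/

def HfP (n : ℕ) (A : ℕ → Finset (ℤ × Bool)) (t j : ℕ) (Z : ℤ) : Prop :=
  (∃ x ∈ Rw (A t), ∃ R ∈ T4 (2 * j), Z = x + 4 ^ (n + 2) * R) ∧
    ∃ Y ∈ T4 (2 * j), ∃ x' ∈ Rw (A (t + 2 * j)), Z = Y + 4 ^ (2 * j) * x'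

noncomputable def Hf (n : ℕ) (A : ℕ → Finset (ℤ × Bool)) (t j : ℕ) : Finset ℤ :=
  (T4 (n + 2 + 2 * j)).filter (HfP n A t j)

theorem mem_Hf {t j : ℕ} {Z : ℤ} : Z ∈ Hf n A t j ↔ Z ∈ T4 (n + 2 + 2 * j) ∧
    (∃ x ∈ Rw (A t), ∃ R ∈ T4 (2 * j), Z = x + 4 ^ (n + 2) * R) ∧
    ∃ Y ∈ T4 (2 * j), ∃ x' ∈ Rw (A (t + 2 * j)), Z = Y + 4 ^ (2 * j) * x' := by
  unfold Hf
  rw [Finset.mem_filter]
  exact Iff.rfl

theorem Rw_sub (H : FSeq n R2 A) {t : ℕ} {x : ℤ} (hx : x ∈ Rw (A t)) : x ∈ T4 (n + 2) := by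
  obtain ⟨b, hb⟩ := mem_Rw.1 hx
  exact mem_Om.1 (H.sub t hb)

theorem Hf_zero (H : FSeq n R2 A) (t : ℕ) : (Rw (A t)).card ≤ (Hf n A t 0).card := by
  apply Finset.card_le_card
  intro x hx
  rw [mem_Hf]
  refine ⟨by simpa using Rw_sub H hx, ⟨x, hx, 0, zero_mem_T4 _, by ring⟩,
    0, zero_mem_T4 _, x, by simpa using hx, by ring⟩

theorem Hf_succ (H : FSeq n R2 A) (t j : ℕ) :
    9 * (Hf n A t j).card ≤ (Hf n A t (j + 1)).card +
      9 ^ (j + 2) * (BadF n (A (t + 2 * j)) (A (t + 2 * j + 2))).card := by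
  have h1 : (T4 2 ×ˢ Hf n A t j).image (fun p => p.2 + 4 ^ (n + 2 + 2 * j) * p.1) ⊆
      Hf n A t (j + 1) ∪ (T4 (2 * (j + 1)) ×ˢ ((BadF n (A (t + 2 * j)) (A (t + 2 * j + 2))) ×ˢ
        T4 2)).image (fun p => p.1 + 4 ^ (2 * (j + 1)) * (p.2.1 + 4 ^ n * p.2.2)) := by
    intro z hz
    rw [Finset.mem_image] at hz
    obtain ⟨⟨E, Z⟩, hp, rfl⟩ := hz
    rw [Finset.mem_product] at hp
    obtain ⟨hE, hZ⟩ := hp
    simp only at hE hZ ⊢
    rw [mem_Hf] at hZ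
    obtain ⟨hZT, ⟨x, hx, R, hR, hZ1⟩, Y, hY, x', hx', hZ2⟩ := hZ
    have hx'T := Rw_sub H hx'
    rw [add_comm n 2] at hx'T
    obtain ⟨y, hy, X, hX, hxX⟩ := T4_split hx'T
    have hY' : Y + 4 ^ (2 * j) * y ∈ T4 (2 * (j + 1)) := by
      rw [show 2 * (j + 1) = 2 * j + 2 by ring]; exact T4_add hY hy
    have h5 : Z + 4 ^ (n + 2 + 2 * j) * E =
        (Y + 4 ^ (2 * j) * y) + 4 ^ (2 * (j + 1)) * (X + 4 ^ n * E) := by
      rw [hZ2, hxX, show n + 2 + 2 * j = n + 2 + (2 * j) by ring,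
        show 2 * (j + 1) = 2 * j + 2 by ring]
      simp only [pow_add]
      ring
    rw [Finset.mem_union]
    by_cases hB : X ∈ BadF n (A (t + 2 * j)) (A (t + 2 * j + 2))
    · right
      rw [Finset.mem_image]
      refine ⟨(Y + 4 ^ (2 * j) * y, X, E), ?_, h5.symm⟩
      rw [Finset.mem_product, Finset.mem_product]
      exact ⟨hY', hB, hE⟩
    · left
      rw [mem_Hf]
      refine ⟨?_, ⟨x, hx, R + 4 ^ (2 * j) * E, ?_, ?_⟩, Y + 4 ^ (2 * j) * y, hY', X + 4 ^ n * E,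
        ?_, h5⟩
      · rw [show n + 2 + 2 * (j + 1) = (n + 2 + 2 * j) + 2 by ring]
        exact T4_add hZT hE
      · rw [show 2 * (j + 1) = 2 * j + 2 by ring]
        exact T4_add hR hE
      · rw [hZ1, show n + 2 + 2 * j = n + 2 + (2 * j) by ring]
        simp only [pow_add]
        ring
      · rw [show t + 2 * (j + 1) = t + 2 * j + 2 by ring]
        by_contra hcon
        apply hB
        rw [mem_BadF]
        obtain ⟨b, hb⟩ := mem_Rw.1 hx'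
        refine ⟨hX, ⟨(y, b), mem_loF.2 ⟨hy, ?_⟩⟩, E, hE, fun c hc => hcon (mem_Rw.2 ⟨c, hc⟩)⟩
        simp only
        rw [← hxX]
        exact hb
  have h2 : ((T4 2 ×ˢ Hf n A t j).image (fun p => p.2 + 4 ^ (n + 2 + 2 * j) * p.1)).card =
      9 * (Hf n A t j).card := by
    rw [Finset.card_image_of_injOn, Finset.card_product, T4_card]
    · norm_num
    · rintro ⟨y, Z⟩ hp ⟨y', Z'⟩ hp' h
      rw [Finset.mem_coe, Finset.mem_product] at hp hp'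
      simp only at hp hp' h
      have hZ : Z ∈ T4 (n + 2 + 2 * j) := (mem_Hf.1 hp.2).1
      have hZ' : Z' ∈ T4 (n + 2 + 2 * j) := (mem_Hf.1 hp'.2).1
      obtain ⟨h3, h4⟩ := T4_inj hZ hp.1 hZ' hp'.1 h
      rw [h3, h4]
  rw [← h2]
  refine (Finset.card_le_card h1).trans ((Finset.card_union_le _ _).trans ?_)
  refine Nat.add_le_add_left (Finset.card_image_le.trans ?_) _
  rw [Finset.card_product, Finset.card_product, T4_card, T4_card]
  have : (3 : ℕ) ^ (2 * (j + 1)) = 9 ^ (j + 1) := by rw [pow_mul]; norm_num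
  rw [this]
  refine le_of_eq ?_
  ring

theorem Hf_chain (H : FSeq n R2 A) (t : ℕ) : ∀ j : ℕ,
    9 ^ j * (Rw (A t)).card ≤ (Hf n A t j).card +
      9 ^ (j + 1) * ∑ i ∈ Finset.range j, (BadF n (A (t + 2 * i)) (A (t + 2 * i + 2))).card
  | 0 => by simpa using Hf_zero H t
  | j + 1 => by
    have h1 := Hf_chain H t j
    have h2 := Hf_succ H t j
    rw [Finset.sum_range_succ]
    set S := ∑ i ∈ Finset.range j, (BadF n (A (t + 2 * i)) (A (t + 2 * i + 2))).card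
    calc 9 ^ (j + 1) * (Rw (A t)).card = 9 * (9 ^ j * (Rw (A t)).card) := by ring
      _ ≤ 9 * ((Hf n A t j).card + 9 ^ (j + 1) * S) := Nat.mul_le_mul_left _ h1
      _ = 9 * (Hf n A t j).card + 9 ^ (j + 2) * S := by ring
      _ ≤ (Hf n A t (j + 1)).card +
          9 ^ (j + 2) * (BadF n (A (t + 2 * j)) (A (t + 2 * j + 2))).card + 9 ^ (j + 2) * S :=
          Nat.add_le_add_right h2 _
      _ = _ := by ring

theorem Hf_last (H : FSeq n R2 A) (t : ℕ) :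
    (Hf n A t (n + 2)).card ≤
      3 ^ (n + 2) * ((Rw (A t)).card * (Rw (A (t + 2 * (n + 2)))).card) := by
  have h1 : Hf n A t (n + 2) ⊆ (T4 (n + 2) ×ˢ (Rw (A t) ×ˢ Rw (A (t + 2 * (n + 2))))).image
      (fun p => (p.2.1 + 4 ^ (n + 2) * p.1) + 4 ^ (2 * (n + 2)) * p.2.2) := by
    intro Z hZ
    rw [mem_Hf] at hZ
    obtain ⟨hZT, ⟨x, hx, R, hR, hZ1⟩, Y, hY, x', hx', hZ2⟩ := hZ
    rw [Finset.mem_image]
    rw [two_mul] at hY
    obtain ⟨y1, hy1, y2, hy2, hY'⟩ := T4_split hY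
    have h2 : x + 4 ^ (n + 2) * R = y1 + 4 ^ (n + 2) * (y2 + 4 ^ (n + 2) * x') := by
      rw [← hZ1, hZ2, hY', two_mul, pow_add]
      ring
    have h3 : y2 + 4 ^ (n + 2) * x' ∈ T4 ((n + 2) + (n + 2)) := T4_add hy2 (Rw_sub H hx')
    obtain ⟨h4, h5⟩ := T4_inj (b := (n + 2) + (n + 2)) (Rw_sub H hx)
      (by rw [← two_mul]; exact hR) hy1 h3 h2
    refine ⟨(y2, x, x'), ?_, ?_⟩
    · rw [Finset.mem_product, Finset.mem_product]
      exact ⟨hy2, hx, hx'⟩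
    · simp only
      rw [hZ2, hY', h4]
  have h2 := (Finset.card_le_card h1).trans Finset.card_image_le
  rw [Finset.card_product, Finset.card_product, T4_card] at h2
  exact h2

/-- **Forward growth.** -/
theorem fwd_growth (H : FSeq n R2 A) (L : Loc n R1 R2) :
    113 * 3 ^ (n + 2) ≤ 115 * (A (2 * (n + 2))).card ∨
      1036 * (A 0).card ≤ 1035 * (A (2 * (n + 2))).card := by
  by_contra hcon
  push Not at hcon
  obtain ⟨hc1, hc2⟩ := hcon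
  have h1 := Hf_chain H 0 (n + 2)
  have h2 := Hf_last H 0
  have h3 := H.sum_bad L 0 (n + 2)
  rw [zero_add] at h2 h3
  set ρ := (Rw (A 0)).card with hρ
  set f := (Rw (A (2 * (n + 2)))).card with hf
  set S := ∑ i ∈ Finset.range (n + 2), (BadF n (A (0 + 2 * i)) (A (0 + 2 * i + 2))).card with hS
  have h4 : f ≤ (A (2 * (n + 2))).card := Finset.card_image_le
  have h5 : (A 0).card ≤ 2 * ρ := card_le_Rw _
  have h6 : 1035 * S < 2 * ρ := by omega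
  have hρ0 : 0 < ρ := by omega
  have h9 : (9 : ℕ) ^ (n + 2) = 3 ^ (n + 2) * 3 ^ (n + 2) := by
    rw [← mul_pow]
    norm_num
  have h10 : 3 ^ (n + 2) * (3 ^ (n + 2) * ρ) ≤ 3 ^ (n + 2) * (ρ * f + 9 * 3 ^ (n + 2) * S) := by
    calc 3 ^ (n + 2) * (3 ^ (n + 2) * ρ) = 9 ^ (n + 2) * ρ := by rw [h9]; ring
      _ ≤ (Hf n A 0 (n + 2)).card + 9 ^ (n + 2 + 1) * S := h1
      _ ≤ 3 ^ (n + 2) * (ρ * f) + 9 ^ (n + 2 + 1) * S := Nat.add_le_add_right h2 _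
      _ = 3 ^ (n + 2) * (ρ * f + 9 * 3 ^ (n + 2) * S) := by rw [pow_succ 9 (n + 2), h9]; ring
  have h11 : 3 ^ (n + 2) * ρ ≤ ρ * f + 9 * 3 ^ (n + 2) * S :=
    Nat.le_of_mul_le_mul_left h10 (by positivity)
  have h12 : 115 * f < 113 * 3 ^ (n + 2) := by omega
  have h13 : ρ * (115 * f) < ρ * (113 * 3 ^ (n + 2)) := Nat.mul_lt_mul_of_pos_left h12 hρ0
  have h14 : 3 ^ (n + 2) * (1035 * S) ≤ 3 ^ (n + 2) * (2 * ρ) := Nat.mul_le_mul_left _ h6.le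
  nlinarith [h11, h13, h14]

end Pool.Agent.Lib.MP_c52340_nt.Near2
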