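import Pool.Agent.Lib.MP_c52340_nt.TokG

/-!
# `κ` near 2: definitions (interface of the rows G1-G4 of the note `c52_R4_47.md`)

`k = 2 * 4 ^ l + c`, `ε = c / 4 ^ l`.  Tokens are pairs `(x, b)`, `x ∈ T4 l`, `b : Bool`, with the
state `qn ε μ x b = 2 x + ⌊ε x + off μ b⌋`; `μ = 0` for `ε > 0`, `μ = - ε / 2` for `ε < 0`.
-/

set_option autoImplicit false

namespace Pool.Agent.Lib.MP_c52340_nt.Near2

open Pool.Agent.Lib.MP_c52340_nt Pool.Agent.Lib.MP_c52340_nt.Tok C52C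
open scoped Classical

/-- the two offsets -/
noncomputable def off (μ : ℝ) (b : Bool) : ℝ := if b then 1 - μ else μ

/-- the state of the token `(x, b)` -/
noncomputable def qn (ε μ : ℝ) (x : ℤ) (b : Bool) : ℤ := 2 * x + ⌊ε * x + off μ b⌋

/-- the local block relation: supply `s = (y, b)`, demand `t = (E, b')`, `F` = value of `ε x` for
`x = 4 ^ r X` (the kept part) -/
def LoN (r : ℕ) (c : ℤ) (ε μ F : ℝ) (s t : ℤ × Bool) : Prop :=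
  Ln r (4 ^ r * ⌊(F + c * t.1) / 4 ^ r + off μ t.2⌋ - ⌊F + ε * s.1 + off μ s.2⌋
    - c * t.1 - 2 * s.1)

/-- supplies with an edge to a demand in `D` -/
noncomputable def nbN (r : ℕ) (c : ℤ) (ε μ F : ℝ) (D : Finset (ℤ × Bool)) :
    Finset (ℤ × Bool) :=
  (T4 r ×ˢ (Finset.univ : Finset Bool)).filter (fun s => ∃ t ∈ D, LoN r c ε μ F s t)

/-- (A1), one digit: Hall's condition for every set of demands -/
def LocN1 (c : ℤ) (ε μ : ℝ) : Prop :=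
  ∀ F : ℝ, ∀ D ⊆ T4 1 ×ˢ (Finset.univ : Finset Bool), D.card ≤ (nbN 1 c ε μ F D).card

/-- (A1) + (F2), two digits -/
def LocN2 (c : ℤ) (ε μ : ℝ) : Prop :=
  ∀ F : ℝ, ∀ D ⊆ T4 2 ×ˢ (Finset.univ : Finset Bool),
    D.card ≤ (nbN 2 c ε μ F D).card ∧
    ((∃ E ∈ T4 2, ∀ b : Bool, (E, b) ∈ D) → (nbN 2 c ε μ F D).card ≤ D.card →
      D = T4 2 ×ˢ (Finset.univ : Finset Bool))

/-- one token step over the kept part `X ∈ T4 (n + 1)`, `l = n + 2` -/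
def Stp (k : ℤ) (q : ℤ → Bool → ℤ) (n : ℕ) (s t : ℤ × Bool) : Prop :=
  ∃ X ∈ T4 (n + 1), ∃ y ∈ T4 1, ∃ E ∈ T4 1, s.1 = y + 4 ^ 1 * X ∧ t.1 = X + 4 ^ (n + 1) * E ∧
    RbG k q 1 (n + 1) X (y, s.2) (E, t.2)

/-- a frozen token: no word has both of its tokens among the predecessors of `t` -/
def Frz (k : ℤ) (q : ℤ → Bool → ℤ) (n : ℕ) (t : ℤ × Bool) : Prop :=
  ∀ X ∈ T4 (n + 1), ∀ E ∈ T4 1, t.1 = X + 4 ^ (n + 1) * E → ∀ w ∈ T4 1,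
    ¬ ∀ b : Bool, RbG k q 1 (n + 1) X (w, b) (E, t.2)

/-- (A4): no backward path of tokens is frozen at the `n + 4` times `0, …, n + 3` (`= l + 1`) -/
def NoFrz (k : ℤ) (q : ℤ → Bool → ℤ) (n : ℕ) : Prop :=
  ¬ ∃ z : ℕ → ℤ × Bool, (∀ i ≤ n + 2, Stp k q n (z (i + 1)) (z i)) ∧
    ∀ i ≤ n + 3, Frz k q n (z i)

/-- the relation over the kept part `X` is the local relation with `F = 4 ^ r * ε * X` -/
theorem RbG_iff_LoN {k c : ℤ} {ε μ : ℝ} {r m : ℕ} (hk : k = 2 * 4 ^ (r + m) + c)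
    (hε : ε * 4 ^ (r + m) = c) (X : ℤ) (s t : ℤ × Bool) :
    RbG k (qn ε μ) r m X s t ↔ LoN r c ε μ (4 ^ r * ε * X) s t := by
  unfold RbG LoN qn
  have h4 : (4 : ℝ) ^ r ≠ 0 := by positivity
  have h1 : ε * ((X + 4 ^ m * t.1 : ℤ) : ℝ) + off μ t.2 =
      (4 ^ r * ε * X + c * t.1) / 4 ^ r + off μ t.2 := by
    rw [← hε, pow_add]
    push_cast
    field_simp
  have h2 : ε * ((s.1 + 4 ^ r * X : ℤ) : ℝ) + off μ s.2 =
      4 ^ r * ε * X + ε * s.1 + off μ s.2 := by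
    push_cast
    ring
  rw [h1, h2, hk, pow_add]
  have : 4 ^ r * (2 * (X + 4 ^ m * t.1) + ⌊(4 ^ r * ε * X + c * t.1) / 4 ^ r + off μ t.2⌋)
      - (2 * (4 ^ r * 4 ^ m) + c) * t.1
      - (2 * (s.1 + 4 ^ r * X) + ⌊4 ^ r * ε * X + ε * s.1 + off μ s.2⌋) =
      4 ^ r * ⌊(4 ^ r * ε * X + c * t.1) / 4 ^ r + off μ t.2⌋
      - ⌊4 ^ r * ε * X + ε * s.1 + off μ s.2⌋ - c * t.1 - 2 * s.1 := by ring
  rw [this]

end Pool.Agent.Lib.MP_c52340_nt.Near2
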