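import Pool.Agent.Lib.MP_c52340_nt.N2D

/-!
# Growth for two-token systems: closing
-/

set_option autoImplicit false

namespace Pool.Agent.Lib.MP_c52340_nt.Near2

open Pool.Agent.Lib.MP_c52340_nt Pool.Agent.Lib.MP_c52340_nt.Tok C52C
open scoped Classical

/-- a real path of `t` steps between tokens -/
def Pa (k : ℤ) (q : ℤ → Bool → ℤ) (n t : ℕ) (z u : ℤ × Bool) : Prop :=
  ∃ E Y : ℤ, RE k t E (q z.1 z.2) (q u.1 u.2) ∧ Ln t Y ∧
    z.1 + 4 ^ (n + 2) * E = Y + 4 ^ t * u.1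

variable {k : ℤ} {q : ℤ → Bool → ℤ} {n : ℕ}

theorem Pa.refl (z : ℤ × Bool) : Pa k q n 0 z z :=
  ⟨0, 0, RE.refl _ _, ln_zero.2 rfl, by ring⟩

theorem Pa.trans {s t : ℕ} {z u v : ℤ × Bool} (h : Pa k q n s z u) (h' : Pa k q n t u v) :
    Pa k q n (s + t) z v := by
  obtain ⟨E, Y, h1, h2, h3⟩ := h
  obtain ⟨E', Y', h1', h2', h3'⟩ := h'
  refine ⟨E + 4 ^ s * E', Y + 4 ^ s * Y', h1.trans h1', ln_add.2 ⟨Y, Y', h2, h2', rfl⟩, ?_⟩
  rw [pow_add]
  linear_combination h3 + 4 ^ s * h3'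

theorem Pa.block {r m : ℕ} (hl : r + m = n + 2) {X : ℤ} {s e : ℤ × Bool} (hs : s ∈ Om r)
    (he : e ∈ Om r) (hR : RbG k q r m X s e) :
    Pa k q n r (s.1 + 4 ^ r * X, s.2) (X + 4 ^ m * e.1, e.2) := by
  have hs1 : Ln r s.1 := mem_T4.1 (mem_Om.1 hs)
  have he1 : Ln r e.1 := mem_T4.1 (mem_Om.1 he)
  refine ⟨e.1, s.1, ⟨he1, _, hR, ?_⟩, hs1, ?_⟩
  · simp only
    ring
  · simp only
    rw [← hl, pow_add]
    ring

/-- backward sets -/
noncomputable def Bk (k : ℤ) (q : ℤ → Bool → ℤ) (n t : ℕ) (A : Finset (ℤ × Bool)) :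
    Finset (ℤ × Bool) :=
  (Om (n + 2)).filter (fun z => ∃ u : ℤ × Bool, u ∈ A ∧ Pa k q n t z u)

/-- forward sets -/
noncomputable def Fk (k : ℤ) (q : ℤ → Bool → ℤ) (n t : ℕ) (A : Finset (ℤ × Bool)) :
    Finset (ℤ × Bool) :=
  (Om (n + 2)).filter (fun u => ∃ z : ℤ × Bool, z ∈ A ∧ Pa k q n t z u)

theorem mem_Bk {t : ℕ} {A : Finset (ℤ × Bool)} {z : ℤ × Bool} :
    z ∈ Bk k q n t A ↔ z ∈ Om (n + 2) ∧ ∃ u : ℤ × Bool, u ∈ A ∧ Pa k q n t z u := by
  unfold Bk
  rw [Finset.mem_filter]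

theorem mem_Fk {t : ℕ} {A : Finset (ℤ × Bool)} {u : ℤ × Bool} :
    u ∈ Fk k q n t A ↔ u ∈ Om (n + 2) ∧ ∃ z : ℤ × Bool, z ∈ A ∧ Pa k q n t z u := by
  unfold Fk
  rw [Finset.mem_filter]

theorem Bk_BSeq (A : Finset (ℤ × Bool)) :
    BSeq n (RbG k q 1 (n + 1)) (RbG k q 2 n) (fun t => Bk k q n t A) where
  sub := fun t => Finset.filter_subset _ _
  one := by
    intro t X hX s hs e he hR hu
    rw [mem_Bk] at hu ⊢
    obtain ⟨h1, u, hu, h2⟩ := hu
    refine ⟨?_, u, hu, ?_⟩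
    · rw [mem_Om, show n + 2 = 1 + (n + 1) by ring]
      exact T4_add (mem_Om.1 hs) hX
    · rw [add_comm t 1]
      exact (Pa.block (by ring) hs he hR).trans h2
  two := by
    intro t X hX s hs e he hR hu
    rw [mem_Bk] at hu ⊢
    obtain ⟨h1, u, hu, h2⟩ := hu
    refine ⟨?_, u, hu, ?_⟩
    · rw [mem_Om, add_comm n 2]
      exact T4_add (mem_Om.1 hs) hX
    · rw [add_comm t 2]
      exact (Pa.block (by ring) hs he hR).trans h2

theorem Fk_FSeq (A : Finset (ℤ × Bool)) :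
    FSeq n (RbG k q 2 n) (fun t => Fk k q n t A) where
  sub := fun t => Finset.filter_subset _ _
  two := by
    intro t X hX s hs e he hR hu
    rw [mem_Fk] at hu ⊢
    obtain ⟨h1, u, hu, h2⟩ := hu
    refine ⟨?_, u, hu, ?_⟩
    · rw [mem_Om]
      exact T4_add hX (mem_Om.1 he)
    · exact h2.trans (Pa.block (by ring) hs he hR)

theorem Bk_Bk {s t : ℕ} {A : Finset (ℤ × Bool)} :
    Bk k q n s (Bk k q n t A) ⊆ Bk k q n (s + t) A := by
  intro z hz
  rw [mem_Bk] at hz ⊢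
  obtain ⟨h1, u, hu, h2⟩ := hz
  rw [mem_Bk] at hu
  obtain ⟨_, v, hv, h3⟩ := hu
  exact ⟨h1, v, hv, h2.trans h3⟩

theorem Fk_Fk {s t : ℕ} {A : Finset (ℤ × Bool)} :
    Fk k q n s (Fk k q n t A) ⊆ Fk k q n (t + s) A := by
  intro z hz
  rw [mem_Fk] at hz ⊢
  obtain ⟨h1, u, hu, h2⟩ := hz
  rw [mem_Fk] at hu
  obtain ⟨_, v, hv, h3⟩ := hu
  exact ⟨h1, v, hv, h3.trans h2⟩

theorem sub_Bk_zero {A : Finset (ℤ × Bool)} (hA : A ⊆ Om (n + 2)) : A ⊆ Bk k q n 0 A := by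
  intro z hz
  rw [mem_Bk]
  exact ⟨hA hz, z, hz, Pa.refl z⟩

theorem sub_Fk_zero {A : Finset (ℤ × Bool)} (hA : A ⊆ Om (n + 2)) : A ⊆ Fk k q n 0 A := by
  intro z hz
  rw [mem_Fk]
  exact ⟨hA hz, z, hz, Pa.refl z⟩

theorem back_iter (L : Loc n (RbG k q 1 (n + 1)) (RbG k q 2 n)) (hNF : NF n (RbG k q 1 (n + 1)))
    {A : Finset (ℤ × Bool)} (hA : A ⊆ Om (n + 2)) (hne : A.Nonempty) : ∀ j : ℕ,
    19 * (Om (n + 2)).card ≤ 20 * (Bk k q n (j * (3 * n + 6)) A).card ∨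
      1036 ^ j ≤ 1035 ^ j * (Bk k q n (j * (3 * n + 6)) A).card
  | 0 => by
    right
    rw [zero_mul]
    have h1 := Finset.card_le_card (sub_Bk_zero (k := k) (q := q) hA)
    have h2 := Finset.card_pos.2 hne
    simp only [pow_zero, one_mul]
    omega
  | j + 1 => by
    set V := Bk k q n (j * (3 * n + 6)) A with hV
    have hVO : V ⊆ Om (n + 2) := Finset.filter_subset _ _
    have h1 : (Bk k q n (3 * n + 6) V).card ≤ (Bk k q n ((j + 1) * (3 * n + 6)) A).card := by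
      apply Finset.card_le_card
      rw [show (j + 1) * (3 * n + 6) = (3 * n + 6) + j * (3 * n + 6) by ring]
      exact Bk_Bk
    have h2 : V.card ≤ (Bk k q n 0 V).card := Finset.card_le_card (sub_Bk_zero hVO)
    rcases back_iter L hNF hA hne j with h | h
    · left
      have h3 := (Bk_BSeq (k := k) (q := q) (n := n) V).mono L (Nat.zero_le (3 * n + 6))
      have h4 : (Bk k q n (j * (3 * n + 6)) A).card = V.card := rfl
      omega
    · rcases back_growth (Bk_BSeq (k := k) (q := q) (n := n) V) L hNF with h3 | h3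
      · left
        omega
      · right
        have h4 : 1036 * V.card ≤ 1035 * (Bk k q n ((j + 1) * (3 * n + 6)) A).card := by omega
        calc 1036 ^ (j + 1) = 1036 * 1036 ^ j := by ring
          _ ≤ 1036 * (1035 ^ j * V.card) := Nat.mul_le_mul_left _ h
          _ = 1035 ^ j * (1036 * V.card) := by ring
          _ ≤ 1035 ^ j * (1035 * (Bk k q n ((j + 1) * (3 * n + 6)) A).card) :=
              Nat.mul_le_mul_left _ h4
          _ = _ := by ring

theorem fwd_mono (L : Loc n (RbG k q 1 (n + 1)) (RbG k q 2 n)) (V : Finset (ℤ × Bool)) :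
    ∀ j : ℕ, (Fk k q n 0 V).card ≤ (Fk k q n (2 * j) V).card
  | 0 => le_rfl
  | j + 1 => by
    have h1 := fwd_mono L V j
    have h2 := (Fk_FSeq (k := k) (q := q) (n := n) V).bad_le L (2 * j)
    rw [show 2 * (j + 1) = 2 * j + 2 by ring]
    omega

theorem fwd_iter (L : Loc n (RbG k q 1 (n + 1)) (RbG k q 2 n))
    {A : Finset (ℤ × Bool)} (hA : A ⊆ Om (n + 2)) (hne : A.Nonempty) : ∀ j : ℕ,
    113 * 3 ^ (n + 2) ≤ 115 * (Fk k q n (j * (2 * (n + 2))) A).card ∨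
      1036 ^ j ≤ 1035 ^ j * (Fk k q n (j * (2 * (n + 2))) A).card
  | 0 => by
    right
    rw [zero_mul]
    have h1 := Finset.card_le_card (sub_Fk_zero (k := k) (q := q) hA)
    have h2 := Finset.card_pos.2 hne
    simp only [pow_zero, one_mul]
    omega
  | j + 1 => by
    set V := Fk k q n (j * (2 * (n + 2))) A with hV
    have hVO : V ⊆ Om (n + 2) := Finset.filter_subset _ _
    have h1 : (Fk k q n (2 * (n + 2)) V).card ≤ (Fk k q n ((j + 1) * (2 * (n + 2))) A).card := by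
      apply Finset.card_le_card
      rw [show (j + 1) * (2 * (n + 2)) = j * (2 * (n + 2)) + 2 * (n + 2) by ring]
      exact Fk_Fk
    have h2 : V.card ≤ (Fk k q n 0 V).card := Finset.card_le_card (sub_Fk_zero hVO)
    rcases fwd_iter L hA hne j with h | h
    · left
      have h3 := fwd_mono L V (n + 2)
      have h4 : (Fk k q n (j * (2 * (n + 2))) A).card = V.card := rfl
      omega
    · rcases fwd_growth (Fk_FSeq (k := k) (q := q) (n := n) V) L with h3 | h3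
      · left
        omega
      · right
        have h4 : 1036 * V.card ≤ 1035 * (Fk k q n ((j + 1) * (2 * (n + 2))) A).card := by omega
        calc 1036 ^ (j + 1) = 1036 * 1036 ^ j := by ring
          _ ≤ 1036 * (1035 ^ j * V.card) := Nat.mul_le_mul_left _ h
          _ = 1035 ^ j * (1036 * V.card) := by ring
          _ ≤ 1035 ^ j * (1035 * (Fk k q n ((j + 1) * (2 * (n + 2))) A).card) :=
              Nat.mul_le_mul_left _ h4
          _ = _ := by ring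

/-- the number of rounds -/
theorem rounds (n : ℕ) : 1035 ^ (2070 * (n + 3)) * (2 * 3 ^ (n + 2)) < 1036 ^ (2070 * (n + 3)) := by
  have h1 : (2 : ℝ) ≤ (1036 / 1035 : ℝ) ^ 1035 := by
    have := one_add_mul_le_pow (show (-2 : ℝ) ≤ 1 / 1035 by norm_num) 1035
    norm_num at this ⊢
    linarith
  have h2 : (4 : ℝ) ^ (n + 3) ≤ (1036 / 1035 : ℝ) ^ (2070 * (n + 3)) := by
    calc (4 : ℝ) ^ (n + 3) = 2 ^ (2 * (n + 3)) := by rw [pow_mul]; norm_num
      _ ≤ ((1036 / 1035 : ℝ) ^ 1035) ^ (2 * (n + 3)) := pow_le_pow_left₀ (by norm_num) h1 _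
      _ = (1036 / 1035 : ℝ) ^ (2070 * (n + 3)) := by
          rw [← pow_mul]
          congr 1
          ring
  have h3 : (2 : ℝ) * 3 ^ (n + 2) < 4 ^ (n + 3) := by
    have h4 : (3 : ℝ) ^ (n + 2) ≤ 4 ^ (n + 2) := pow_le_pow_left₀ (by norm_num) (by norm_num) _
    have h5 : (4 : ℝ) ^ (n + 3) = 4 * 4 ^ (n + 2) := by ring
    have h6 : (0 : ℝ) < 4 ^ (n + 2) := by positivity
    rw [h5]
    linarith
  have h4 : (2 : ℝ) * 3 ^ (n + 2) < 1036 ^ (2070 * (n + 3)) / 1035 ^ (2070 * (n + 3)) := by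
    rw [← div_pow]
    exact h3.trans_le h2
  rw [lt_div_iff₀ (by positivity)] at h4
  have h5 : ((1035 : ℝ)) ^ (2070 * (n + 3)) * (2 * 3 ^ (n + 2)) < 1036 ^ (2070 * (n + 3)) := by
    linarith
  exact_mod_cast h5

/-- **Closing.** -/
theorem mult_of_Loc (L : Loc n (RbG k q 1 (n + 1)) (RbG k q 2 n))
    (hNF : NF n (RbG k q 1 (n + 1))) {b0 : Bool} (hq : q 0 b0 = 0) :
    ∃ z : ℤ, 0 < z ∧ z < 4 ^ (15525 * (n + 2) ^ 2) ∧ InL z ∧ InL (k * z) := by
  set A : Finset (ℤ × Bool) := {(0, b0)} with hA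
  have hAO : A ⊆ Om (n + 2) := by
    rw [hA, Finset.singleton_subset_iff, mem_Om]
    exact zero_mem_T4 _
  have hAne : A.Nonempty := Finset.singleton_nonempty _
  set J := 2070 * (n + 3) with hJ
  set B := Bk k q n (J * (3 * n + 6)) A with hB
  set F := Fk k q n (J * (2 * (n + 2))) A with hF
  have hBO : B ⊆ Om (n + 2) := Finset.filter_subset _ _
  have hFO : F ⊆ Om (n + 2) := Finset.filter_subset _ _
  have hBc := Finset.card_le_card hBO
  have hFc := Finset.card_le_card hFO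
  have hOc := Om_card (n + 2)
  have hB1 : 19 * (Om (n + 2)).card ≤ 20 * B.card := by
    rcases back_iter L hNF hAO hAne J with h | h
    · exact h
    · exfalso
      have h1 := rounds n
      have h2 : 1035 ^ J * B.card ≤ 1035 ^ J * (2 * 3 ^ (n + 2)) :=
        Nat.mul_le_mul_left _ (hOc ▸ hBc)
      exact absurd (h.trans h2) (not_le.2 h1)
  have hF1 : 113 * 3 ^ (n + 2) ≤ 115 * F.card := by
    rcases fwd_iter L hAO hAne J with h | h
    · exact h
    · exfalso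
      have h1 := rounds n
      have h2 : 1035 ^ J * F.card ≤ 1035 ^ J * (2 * 3 ^ (n + 2)) :=
        Nat.mul_le_mul_left _ (hOc ▸ hFc)
      exact absurd (h.trans h2) (not_le.2 h1)
  have hcap : 2 < (F ∩ B).card := by
    have h1 := Finset.card_union_add_card_inter F B
    have h2 := Finset.card_le_card (Finset.union_subset hFO hBO)
    have h3 : 9 ≤ 3 ^ (n + 2) := by
      have : (3 : ℕ) ^ (n + 2) = 9 * 3 ^ n := by ring
      have h4 : 1 ≤ 3 ^ n := Nat.one_le_pow _ _ (by norm_num)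
      omega
    omega
  have hex : ∃ z ∈ F ∩ B, z.1 ≠ 0 := by
    by_contra hcon
    push Not at hcon
    have h1 : F ∩ B ⊆ ({(0, true), (0, false)} : Finset (ℤ × Bool)) := by
      rintro ⟨x, b⟩ hz
      have h2 := hcon _ hz
      simp only at h2
      subst h2
      cases b <;> simp
    have h2 := (Finset.card_le_card h1).trans (Finset.card_le_two)
    omega
  obtain ⟨z, hz, hz0⟩ := hex
  rw [Finset.mem_inter, hF, hB, mem_Fk, mem_Bk] at hz
  obtain ⟨⟨_, u, hu, E, Y, h1, h2, h3⟩, _, v, hv, E', Y', h1', h2', h3'⟩ := hz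
  rw [hA, Finset.mem_singleton] at hu hv
  subst hu
  subst hv
  simp only at h1 h1' h3
  rw [hq] at h1 h1'
  rw [zero_add] at h3
  obtain ⟨x, hx0, hx1, hx2, hx3⟩ := mult_of_RE_RE h1 h1'
    (fun hE0 => hz0 (eq_zero_of_inv h2 h3 hE0))
  refine ⟨x, hx0, hx1.trans_le ?_, hx2, hx3⟩
  refine pow_le_pow_right₀ (by norm_num) ?_
  rw [hJ]
  nlinarith

end Pool.Agent.Lib.MP_c52340_nt.Near2
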