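import Pool.Agent.Lib.MP_c52340_nt.N2E

/-!
# `κ` near 2: assembly from the local lemma and the lemma on frozen tokens
-/

set_option autoImplicit false

namespace Pool.Agent.Lib.MP_c52340_nt.Near2

open Pool.Agent.Lib.MP_c52340_nt Pool.Agent.Lib.MP_c52340_nt.Tok C52C
open scoped Classical

theorem nbB_eq_nbN {k c : ℤ} {ε μ : ℝ} {r m : ℕ} (hk : k = 2 * 4 ^ (r + m) + c)
    (hε : ε * 4 ^ (r + m) = c) (X : ℤ) (D : Finset (ℤ × Bool)) :
    nbB r (RbG k (qn ε μ) r m X) D = nbN r c ε μ (4 ^ r * ε * X) D := by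
  ext s
  unfold nbB nbN Om
  rw [Finset.mem_filter, Finset.mem_filter]
  refine and_congr_right (fun _ => exists_congr (fun t => and_congr_right (fun _ => ?_)))
  exact RbG_iff_LoN hk hε X s t

theorem Loc_of_LocN {n : ℕ} {k c : ℤ} {ε μ : ℝ} (hk : k = 2 * 4 ^ (n + 2) + c)
    (hε : ε * 4 ^ (n + 2) = c) (h1 : LocN1 c ε μ) (h2 : LocN2 c ε μ) :
    Loc n (RbG k (qn ε μ) 1 (n + 1)) (RbG k (qn ε μ) 2 n) := by
  have e1 : 1 + (n + 1) = n + 2 := by ring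
  have e2 : 2 + n = n + 2 := by ring
  have hk1 : k = 2 * 4 ^ (1 + (n + 1)) + c := by rw [e1]; exact hk
  have hk2 : k = 2 * 4 ^ (2 + n) + c := by rw [e2]; exact hk
  have hε1 : ε * 4 ^ (1 + (n + 1)) = c := by rw [e1]; exact hε
  have hε2 : ε * 4 ^ (2 + n) = c := by rw [e2]; exact hε
  refine ⟨?_, ?_, ?_⟩
  · intro X _ D hD
    rw [nbB_eq_nbN hk1 hε1]
    exact h1 _ D hD
  · intro X _ D hD
    rw [nbB_eq_nbN hk2 hε2]
    exact (h2 _ D hD).1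
  · intro X _ D hD hE hle
    rw [nbB_eq_nbN hk2 hε2] at hle
    exact (h2 _ D hD).2 hE hle

/-- the range of the parameters -/
def Par (ε μ : ℝ) : Prop := (0 < ε ∧ ε ≤ 1 / 21 ∧ μ = 0) ∨ (-(1 / 21) ≤ ε ∧ ε < 0 ∧ μ = -ε / 2)

theorem qn_zero {ε μ : ℝ} (h : Par ε μ) : qn ε μ 0 false = 0 := by
  unfold qn off
  have h1 : ⌊ε * ((0 : ℤ) : ℝ) + (if false = true then 1 - μ else μ)⌋ = 0 := by
    rw [Int.floor_eq_iff]
    rcases h with ⟨_, _, h⟩ | ⟨h1, h2, h⟩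
    · simp [h]
    · simp only [Int.cast_zero, mul_zero, zero_add, Bool.false_eq_true, if_false]
      constructor <;> linarith
  rw [h1]
  ring

/-- the local lemma (row G3) -/
def RowG3 : Prop := ∀ (c : ℤ) (ε μ : ℝ), Odd c → Par ε μ → LocN1 c ε μ ∧ LocN2 c ε μ

/-- the lemma on frozen tokens (row G4) -/
def RowG4 : Prop := ∀ (n : ℕ) (c k : ℤ) (ε μ : ℝ), k = 2 * 4 ^ (n + 2) + c →
  ε * 4 ^ (n + 2) = c → Odd c → Par ε μ → NoFrz k (qn ε μ) n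

/-- **Near 2.** -/
theorem near2 (g3 : RowG3) (g4 : RowG4) (k : ℤ) (l : ℕ) (hodd : Odd k) (hl : 2 ≤ l)
    (h : |k - 2 * 4 ^ l| * 21 ≤ 4 ^ l) :
    ∃ z : ℤ, 0 < z ∧ z < 4 ^ (15525 * l ^ 2) ∧ InL z ∧ InL (k * z) := by
  obtain ⟨n, rfl⟩ := Nat.exists_eq_add_of_le hl
  rw [add_comm 2 n] at *
  set c : ℤ := k - 2 * 4 ^ (n + 2) with hc
  have hk : k = 2 * 4 ^ (n + 2) + c := by rw [hc]; ring
  have hcodd : Odd c := by
    rw [hc]
    apply hodd.sub_even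
    exact even_two_mul _
  have hc0 : c ≠ 0 := by
    rintro h0
    rw [h0] at hcodd
    exact absurd hcodd (by decide)
  set ε : ℝ := (c : ℝ) / 4 ^ (n + 2) with hεd
  have h4 : (0 : ℝ) < 4 ^ (n + 2) := by positivity
  have hε : ε * 4 ^ (n + 2) = c := by rw [hεd]; field_simp
  have habs : |(c : ℝ)| * 21 ≤ 4 ^ (n + 2) := by exact_mod_cast h
  have hb : |ε| ≤ 1 / 21 := by
    rw [hεd, abs_div, abs_of_pos h4, div_le_iff₀ h4]
    linarith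
  rw [abs_le] at hb
  obtain ⟨μ, hpar⟩ : ∃ μ, Par ε μ := by
    rcases lt_or_gt_of_ne hc0 with h0 | h0
    · refine ⟨-ε / 2, Or.inr ⟨by linarith [hb.1], ?_, rfl⟩⟩
      rw [hεd]
      exact div_neg_of_neg_of_pos (by exact_mod_cast h0) h4
    · refine ⟨0, Or.inl ⟨?_, hb.2, rfl⟩⟩
      rw [hεd]
      exact div_pos (by exact_mod_cast h0) h4
  obtain ⟨l1, l2⟩ := g3 c ε μ hcodd hpar
  have hL := Loc_of_LocN hk hε l1 l2
  have hNF : NF n (RbG k (qn ε μ) 1 (n + 1)) := g4 n c k ε μ hk hε hcodd hpar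
  exact mult_of_Loc hL hNF (qn_zero hpar)

end Pool.Agent.Lib.MP_c52340_nt.Near2
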