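import Pool.Agent.Lib.MP_c52340_nt.N2Def

/-!
MP_c52340_nt, near two: frozen tokens (part G4 of the route of helper47).

`rho` is the centred excess of a token, a backward step sends `rho` to
`4 * rho - (2 + eps) * w - th` with `w, th` in `{-1, 0, 1}`.  A token is *frozen* if none of its
three predecessor words is doubled.  We show that no backward path of tokens is frozen at
all the times `0, ..., l + 1`.
-/

set_option autoImplicit false

namespace Pool.Agent.Lib.MP_c52340_nt.Near2.Froz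

open Pool.Agent.Lib.MP_c52340_nt Pool.Agent.Lib.MP_c52340_nt.Tok

/-- the parameter `lam * delta` of the token law: `0` for `eps > 0`, `-eps / 2` for `eps < 0` -/
noncomputable def ld (eps : ℝ) : ℝ := if 0 < eps then 0 else -eps / 2

/-- `w` is a doubled digit for the excess `r` -/
def Dbl (eps r : ℝ) (w : ℤ) : Prop :=
  -1 - ld eps < 4 * r - (2 + eps) * w ∧ 4 * r - (2 + eps) * w ≤ 1 + ld eps

/-- the excess `r` is frozen: no digit is doubled -/
def Frozen (eps r : ℝ) : Prop := ∀ w : ℤ, (w = -1 ∨ w = 0 ∨ w = 1) → ¬ Dbl eps r w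

/-- the range of the excess of a token -/
def Tk (eps r : ℝ) : Prop := -1 + ld eps < r ∧ r ≤ 1 - ld eps

/-- a backward step of the excess -/
def Stp (eps r r' : ℝ) : Prop :=
  ∃ w th : ℤ, (w = -1 ∨ w = 0 ∨ w = 1) ∧ (th = -1 ∨ th = 0 ∨ th = 1) ∧
    r' = 4 * r - (2 + eps) * w - th

theorem ld_pos {eps : ℝ} (h : 0 < eps) : ld eps = 0 := by
  unfold ld; rw [if_pos h]

theorem ld_neg {eps : ℝ} (h : eps < 0) : ld eps = -eps / 2 := by
  unfold ld; rw [if_neg (not_lt.mpr h.le)]

/-- for `eps > 0` a frozen excess is top, bottom or in one of the two gaps -/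
theorem frozen_pos {eps r : ℝ} (h : 0 < eps) (hf : Frozen eps r) :
    3 + eps < 4 * r ∨ 4 * r ≤ -3 - eps ∨ (1 < 4 * r ∧ 4 * r ≤ 1 + eps) ∨
      (-1 - eps < 4 * r ∧ 4 * r ≤ -1) := by
  have h0 := hf 0 (by right; left; rfl)
  have h1 := hf 1 (by right; right; rfl)
  have h2 := hf (-1) (by left; rfl)
  unfold Dbl at h0 h1 h2
  rw [ld_pos h] at h0 h1 h2
  push_cast at h0 h1 h2
  by_contra hc
  push Not at hc
  obtain ⟨c1, c2, c3, c4⟩ := hc
  rcases le_or_gt (4 * r) (-1 - eps) with h3 | h3
  · apply h2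
    constructor <;> linarith
  · rcases le_or_gt (4 * r) (-1) with h4 | h4
    · linarith [c4 h3]
    · rcases le_or_gt (4 * r) 1 with h5 | h5
      · apply h0
        constructor <;> linarith
      · have h6 := c3 h5
        apply h1
        constructor <;> linarith

/-- for `eps < 0` a frozen excess is top or bottom -/
theorem frozen_neg {eps r : ℝ} (h : eps < 0) (hf : Frozen eps r) :
    3 + eps / 2 < 4 * r ∨ 4 * r ≤ -3 - eps / 2 := by
  have h0 := hf 0 (by right; left; rfl)
  have h1 := hf 1 (by right; right; rfl)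
  have h2 := hf (-1) (by left; rfl)
  unfold Dbl at h0 h1 h2
  rw [ld_neg h] at h0 h1 h2
  push_cast at h0 h1 h2
  by_contra hc
  push Not at hc
  obtain ⟨c1, c2⟩ := hc
  rcases le_or_gt (4 * r) (-1) with h3 | h3
  · apply h2
    constructor <;> linarith
  · rcases le_or_gt (4 * r) 1 with h5 | h5
    · apply h0
      constructor <;> linarith
    · apply h1
      constructor <;> linarith

/-- the predecessor of a top excess -/
theorem top_step {eps r r' : ℝ} (he1 : -1 / 10 ≤ eps)
    (ht : 3 + eps < 4 * r) (hs : Stp eps r r') (hr' : r' ≤ 1) :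
    r' = 4 * r - (3 + eps) := by
  obtain ⟨w, th, hw, hth, rfl⟩ := hs
  rcases hw with rfl | rfl | rfl <;> rcases hth with rfl | rfl | rfl <;> push_cast at hr' ⊢ <;>
    linarith

/-- the predecessor of a bottom excess -/
theorem bot_step {eps r r' : ℝ} (he1 : -1 / 10 ≤ eps)
    (ht : 4 * r ≤ -3 - eps) (hs : Stp eps r r') (hr' : -1 < r') :
    r' = 4 * r + (3 + eps) := by
  obtain ⟨w, th, hw, hth, rfl⟩ := hs
  rcases hw with rfl | rfl | rfl <;> rcases hth with rfl | rfl | rfl <;> push_cast at hr' ⊢ <;>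
    linarith

/-- the predecessor of an excess in the upper gap is near zero -/
theorem gap_step {eps r r' : ℝ} (he : 0 < eps)
    (h1 : 1 < 4 * r) (h2 : 4 * r ≤ 1 + eps) (hs : Stp eps r r') (hr : -1 < r') (hr' : r' ≤ 1) :
    -eps ≤ r' ∧ r' ≤ eps := by
  obtain ⟨w, th, hw, hth, rfl⟩ := hs
  rcases hw with rfl | rfl | rfl <;> rcases hth with rfl | rfl | rfl <;>
    push_cast at hr hr' ⊢ <;> constructor <;> linarith

/-- the predecessor of an excess in the lower gap is near zero -/
theorem gap_step' {eps r r' : ℝ} (he : 0 < eps)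
    (h1 : -1 - eps < 4 * r) (h2 : 4 * r ≤ -1) (hs : Stp eps r r') (hr : -1 < r') (hr' : r' ≤ 1) :
    -eps ≤ r' ∧ r' ≤ eps := by
  obtain ⟨w, th, hw, hth, rfl⟩ := hs
  rcases hw with rfl | rfl | rfl <;> rcases hth with rfl | rfl | rfl <;>
    push_cast at hr hr' ⊢ <;> constructor <;> linarith

/-- an excess near zero is not frozen -/
theorem not_frozen_small {eps r : ℝ} (he2 : |eps| ≤ 1 / 10) (h1 : |r| ≤ 1 / 10) :
    ¬ Frozen eps r := by
  intro hf
  apply hf 0 (by right; left; rfl)
  unfold Dbl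
  rw [abs_le] at he2 h1
  have : 0 ≤ ld eps := by
    unfold ld
    split_ifs with h
    · exact le_rfl
    · linarith [not_lt.mp h]
  push_cast
  constructor <;> linarith

/-- the distance to the upper fixed point is multiplied by four along a run of top excesses -/
theorem top_run {eps : ℝ} {r : ℕ → ℝ} {n : ℕ}
    (hstep : ∀ i, i < n → r (i + 1) = 4 * r i - (3 + eps)) :
    ∀ i, i ≤ n → 1 + eps / 3 - r i = 4 ^ i * (1 + eps / 3 - r 0) := by
  intro i
  induction i with
  | zero => intro _; simp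
  | succ i ih =>
      intro hi
      rw [pow_succ, hstep i (by omega)]
      have := ih (by omega)
      linarith

/-- the distance to the lower fixed point is multiplied by four along a run of bottom excesses -/
theorem bot_run {eps : ℝ} {r : ℕ → ℝ} {n : ℕ}
    (hstep : ∀ i, i < n → r (i + 1) = 4 * r i + (3 + eps)) :
    ∀ i, i ≤ n → 1 + eps / 3 + r i = 4 ^ i * (1 + eps / 3 + r 0) := by
  intro i
  induction i with
  | zero => intro _; simp
  | succ i ih =>
      intro hi
      rw [pow_succ, hstep i (by omega)]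
      have := ih (by omega)
      linarith

/-- **(A4), positive case.** No backward path of tokens is frozen at all times `0, ..., l + 1`. -/
theorem no_run_pos {eps : ℝ} {l : ℕ} (he : 0 < eps) (he2 : eps ≤ 1 / 10)
    (hl : 1 ≤ 4 ^ l * eps) {r : ℕ → ℝ} (hT : ∀ i, i ≤ l + 1 → Tk eps (r i))
    (hS : ∀ i, i ≤ l → Stp eps (r i) (r (i + 1)))
    (hF : ∀ i, i ≤ l + 1 → Frozen eps (r i)) : False := by
  have hT' : ∀ i, i ≤ l + 1 → -1 < r i ∧ r i ≤ 1 := by
    intro i hi
    have := hT i hi
    unfold Tk at this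
    rw [ld_pos he] at this
    exact ⟨by linarith [this.1], by linarith [this.2]⟩
  have key : ∀ i, i ≤ l → 3 + eps < 4 * r i ∨ 4 * r i ≤ -3 - eps := by
    intro i hi
    rcases frozen_pos he (hF i (by omega)) with h | h | h | h
    · exact Or.inl h
    · exact Or.inr h
    · exfalso
      have h1 := gap_step he h.1 h.2 (hS i hi) (hT' (i + 1) (by omega)).1
        (hT' (i + 1) (by omega)).2
      refine not_frozen_small (eps := eps) (r := r (i + 1)) ?_ ?_ (hF (i + 1) (by omega))
      · rw [abs_le]; constructor <;> linarith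
      · rw [abs_le]; constructor <;> linarith [h1.1, h1.2]
    · exfalso
      have h1 := gap_step' he h.1 h.2 (hS i hi) (hT' (i + 1) (by omega)).1
        (hT' (i + 1) (by omega)).2
      refine not_frozen_small (eps := eps) (r := r (i + 1)) ?_ ?_ (hF (i + 1) (by omega))
      · rw [abs_le]; constructor <;> linarith
      · rw [abs_le]; constructor <;> linarith [h1.1, h1.2]
  rcases key 0 (by omega) with h0 | h0
  · have htop : ∀ i, i ≤ l → 3 + eps < 4 * r i := by
      intro i
      induction i with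
      | zero => intro _; exact h0
      | succ i ih =>
          intro hi
          rcases key (i + 1) hi with h | h
          · exact h
          · exfalso
            have h1 := top_step (by linarith) (ih (by omega)) (hS i (by omega))
              (hT' (i + 1) (by omega)).2
            have h2 := ih (by omega)
            linarith
    have hrun := top_run (eps := eps) (r := r) (n := l) (fun i hi =>
      top_step (by linarith) (htop i hi.le) (hS i hi.le) (hT' (i + 1) (by omega)).2) l le_rfl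
    have h1 := htop l le_rfl
    have h2 : eps / 3 ≤ 1 + eps / 3 - r 0 := by linarith [(hT' 0 (by omega)).2]
    have h3 : (4 : ℝ) ^ l * (eps / 3) ≤ 4 ^ l * (1 + eps / 3 - r 0) :=
      mul_le_mul_of_nonneg_left h2 (by positivity)
    nlinarith
  · have hbot : ∀ i, i ≤ l → 4 * r i ≤ -3 - eps := by
      intro i
      induction i with
      | zero => intro _; exact h0
      | succ i ih =>
          intro hi
          rcases key (i + 1) hi with h | h
          · exfalso
            have h1 := bot_step (by linarith) (ih (by omega)) (hS i (by omega))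
              (hT' (i + 1) (by omega)).1
            have h2 := ih (by omega)
            linarith
          · exact h
    have hrun := bot_run (eps := eps) (r := r) (n := l) (fun i hi =>
      bot_step (by linarith) (hbot i hi.le) (hS i hi.le) (hT' (i + 1) (by omega)).1) l le_rfl
    have h1 := hbot l le_rfl
    have h2 : eps / 3 ≤ 1 + eps / 3 + r 0 := by linarith [(hT' 0 (by omega)).1]
    have h3 : (4 : ℝ) ^ l * (eps / 3) ≤ 4 ^ l * (1 + eps / 3 + r 0) :=
      mul_le_mul_of_nonneg_left h2 (by positivity)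
    nlinarith

/-- **(A4), negative case.** No backward path of tokens is frozen at all times `0, ..., l + 1`. -/
theorem no_run_neg {eps : ℝ} {l : ℕ} (he : eps < 0) (he2 : -1 / 10 ≤ eps)
    (hl : 1 ≤ 4 ^ l * (-eps)) {r : ℕ → ℝ} (hT : ∀ i, i ≤ l + 1 → Tk eps (r i))
    (hS : ∀ i, i ≤ l → Stp eps (r i) (r (i + 1)))
    (hF : ∀ i, i ≤ l + 1 → Frozen eps (r i)) : False := by
  have hT' : ∀ i, i ≤ l + 1 → -1 - eps / 2 < r i ∧ r i ≤ 1 + eps / 2 := by
    intro i hi
    have := hT i hi
    unfold Tk at this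
    rw [ld_neg he] at this
    exact ⟨by linarith [this.1], by linarith [this.2]⟩
  have key : ∀ i, i ≤ l + 1 → 3 + eps / 2 < 4 * r i ∨ 4 * r i ≤ -3 - eps / 2 := by
    intro i hi
    exact frozen_neg he (hF i (by omega))
  rcases key 0 (by omega) with h0 | h0
  · have htop : ∀ i, i ≤ l + 1 → 3 + eps / 2 < 4 * r i := by
      intro i
      induction i with
      | zero => intro _; exact h0
      | succ i ih =>
          intro hi
          rcases key (i + 1) hi with h | h
          · exact h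
          · exfalso
            have h2 := ih (by omega)
            have h1 := top_step he2 (by linarith) (hS i (by omega))
              (by linarith [(hT' (i + 1) (by omega)).2])
            linarith
    have hrun := top_run (eps := eps) (r := r) (n := l + 1) (fun i hi =>
      top_step he2 (by linarith [htop i hi.le]) (hS i (by omega))
        (by linarith [(hT' (i + 1) (by omega)).2])) (l + 1) le_rfl
    have h1 := htop (l + 1) le_rfl
    have h2 : -eps / 6 ≤ 1 + eps / 3 - r 0 := by linarith [(hT' 0 (by omega)).2]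
    have h3 : (4 : ℝ) ^ (l + 1) * (-eps / 6) ≤ 4 ^ (l + 1) * (1 + eps / 3 - r 0) :=
      mul_le_mul_of_nonneg_left h2 (by positivity)
    rw [pow_succ] at h3 hrun
    nlinarith
  · have hbot : ∀ i, i ≤ l + 1 → 4 * r i ≤ -3 - eps / 2 := by
      intro i
      induction i with
      | zero => intro _; exact h0
      | succ i ih =>
          intro hi
          rcases key (i + 1) hi with h | h
          · exfalso
            have h2 := ih (by omega)
            have h1 := bot_step he2 (by linarith) (hS i (by omega))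
              (by linarith [(hT' (i + 1) (by omega)).1])
            linarith
          · exact h
    have hrun := bot_run (eps := eps) (r := r) (n := l + 1) (fun i hi =>
      bot_step he2 (by linarith [hbot i hi.le]) (hS i (by omega))
        (by linarith [(hT' (i + 1) (by omega)).1])) (l + 1) le_rfl
    have h1 := hbot (l + 1) le_rfl
    have h2 : -eps / 6 ≤ 1 + eps / 3 + r 0 := by linarith [(hT' 0 (by omega)).1]
    have h3 : (4 : ℝ) ^ (l + 1) * (-eps / 6) ≤ 4 ^ (l + 1) * (1 + eps / 3 + r 0) :=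
      mul_le_mul_of_nonneg_left h2 (by positivity)
    rw [pow_succ] at h3 hrun
    nlinarith

/-- **(A4).** No backward path of tokens is frozen at all times `0, ..., l + 1`. -/
theorem no_frozen_run {eps : ℝ} {l : ℕ} (he2 : |eps| ≤ 1 / 10) (hl : 1 ≤ 4 ^ l * |eps|)
    {r : ℕ → ℝ} (hT : ∀ i, i ≤ l + 1 → Tk eps (r i))
    (hS : ∀ i, i ≤ l → Stp eps (r i) (r (i + 1))) :
    ∃ i, i ≤ l + 1 ∧ ¬ Frozen eps (r i) := by
  by_contra hc
  push Not at hc
  rcases lt_trichotomy eps 0 with h | h | h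
  · rw [abs_of_neg h] at he2 hl
    exact no_run_neg h (by linarith) hl hT hS hc
  · rw [h] at hl
    simp at hl
    linarith
  · rw [abs_of_pos h] at he2 hl
    exact no_run_pos h he2 hl hT hS hc

/-- both states of a doubled word are predecessors -/
theorem dbl_floor {F μ : ℝ} {n : ℤ} (h1 : μ < 1 / 2)
    (h : -1 - μ < n - F ∧ n - F ≤ 1 + μ) (b : Bool) :
    |n - ⌊F + off μ b⌋| ≤ 1 := by
  have h2 : (⌊F + off μ b⌋ : ℝ) ≤ F + off μ b := Int.floor_le _
  have h3 : F + off μ b < ⌊F + off μ b⌋ + 1 := Int.lt_floor_add_one _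
  have h4 : ((⌊F + off μ b⌋ : ℤ) : ℝ) < (n + 2 : ℤ) := by
    push_cast
    unfold off at h2 ⊢
    cases b
    · simp only [Bool.false_eq_true, if_false] at h2 ⊢
      linarith [h.1, h.2]
    · simp only [if_true] at h2 ⊢
      linarith [h.1, h.2]
  have h5 : ((n - 2 : ℤ) : ℝ) < ((⌊F + off μ b⌋ : ℤ) : ℝ) := by
    push_cast
    unfold off at h3 ⊢
    cases b
    · simp only [Bool.false_eq_true, if_false] at h3 ⊢
      linarith [h.1, h.2]
    · simp only [if_true] at h3 ⊢
      linarith [h.1, h.2]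
  have h6 := Int.cast_lt.mp h4
  have h7 := Int.cast_lt.mp h5
  rw [abs_le]
  constructor <;> omega

/-- the excess of a token -/
noncomputable def exc (ε μ : ℝ) (z : ℤ × Bool) : ℝ := (qn ε μ z.1 z.2 : ℝ) - (2 + ε) * z.1

theorem exc_Tk {ε : ℝ} (he : |ε| ≤ 1 / 21) (z : ℤ × Bool) : Tk ε (exc ε (ld ε) z) := by
  obtain ⟨x, b⟩ := z
  rw [abs_le] at he
  have h0 : 0 ≤ ld ε ∧ ld ε < 1 / 2 := by
    unfold ld
    split_ifs with h
    · norm_num
    · constructor <;> linarith [not_lt.mp h, he.1]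
  have h2 : (⌊ε * x + off (ld ε) b⌋ : ℝ) ≤ ε * x + off (ld ε) b := Int.floor_le _
  have h3 : ε * x + off (ld ε) b < ⌊ε * x + off (ld ε) b⌋ + 1 := Int.lt_floor_add_one _
  unfold Tk exc qn
  push_cast
  unfold off at h2 h3 ⊢
  cases b
  · simp only [Bool.false_eq_true, if_false] at h2 h3 ⊢
    constructor <;> linarith [h0.1, h0.2]
  · simp only [if_true] at h2 h3 ⊢
    constructor <;> linarith [h0.1, h0.2]

/-- the backward excess over a block step of one digit -/
theorem exc_back {k c : ℤ} {ε μ : ℝ} {n : ℕ} (hk : k = 2 * 4 ^ (n + 2) + c)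
    (hε : ε * 4 ^ (n + 2) = c) (X E y : ℤ) (b b' : Bool) :
    exc ε μ (y + 4 ^ 1 * X, b) = 4 * exc ε μ (X + 4 ^ (n + 1) * E, b') - (2 + ε) * y
      - ((4 ^ 1 * qn ε μ (X + 4 ^ (n + 1) * E) b' - k * E
          - qn ε μ (y + 4 ^ 1 * X) b : ℤ) : ℝ) := by
  unfold exc
  have h1 : (k : ℝ) = (2 + ε) * 4 ^ (n + 2) := by
    rw [hk]; push_cast; rw [← hε]; ring
  push_cast
  rw [h1]
  ring

/-- one step of tokens is one step of the excess -/
theorem Stp_of {k c : ℤ} {ε μ : ℝ} {n : ℕ} (hk : k = 2 * 4 ^ (n + 2) + c)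
    (hε : ε * 4 ^ (n + 2) = c) {s t : ℤ × Bool} (h : Near2.Stp k (qn ε μ) n s t) :
    Stp ε (exc ε μ t) (exc ε μ s) := by
  obtain ⟨X, hX, y, hy, E, hE, hs, ht, hR⟩ := h
  unfold RbG at hR
  rw [ln_one] at hR
  have hy' : Dig y := ln_one.mp (C52C.mem_T4.1 hy)
  refine ⟨y, _, hy', hR, ?_⟩
  have h1 := exc_back (μ := μ) hk hε X E y s.2 t.2
  have h2 : s = (y + 4 ^ 1 * X, s.2) := by rw [← hs]
  have h3 : t = (X + 4 ^ (n + 1) * E, t.2) := by rw [← ht]
  rw [h2, h3]
  exact h1

/-- a frozen token has a frozen excess -/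
theorem Frozen_of {k c : ℤ} {ε : ℝ} {n : ℕ} (hk : k = 2 * 4 ^ (n + 2) + c)
    (hε : ε * 4 ^ (n + 2) = c) (he : |ε| ≤ 1 / 21) {t : ℤ × Bool}
    (hm : t.1 ∈ C52C.T4 ((n + 1) + 1)) (h : Frz k (qn ε (ld ε)) n t) :
    Frozen ε (exc ε (ld ε) t) := by
  obtain ⟨X, hX, E, hE, ht⟩ := C52C.T4_split hm
  intro w hw hD
  have hw' : w ∈ C52C.T4 1 := C52C.mem_T4.2 (ln_one.mpr hw)
  refine h X hX E hE ht w hw' ?_
  intro b
  unfold RbG
  have h0 : 0 ≤ ld ε ∧ ld ε < 1 / 2 := by
    rw [abs_le] at he
    unfold ld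
    split_ifs with h
    · norm_num
    · constructor <;> linarith [not_lt.mp h, he.1]
  have h3 : t = (X + 4 ^ (n + 1) * E, t.2) := by rw [← ht]
  have h1 : (k : ℝ) = (2 + ε) * 4 ^ (n + 2) := by
    rw [hk]; push_cast; rw [← hε]; ring
  unfold Dbl at hD
  rw [h3] at hD
  unfold exc at hD
  simp only at hD
  have h4 := dbl_floor (F := ε * ((w + 4 ^ 1 * X : ℤ) : ℝ)) (μ := ld ε)
    (n := 4 ^ 1 * qn ε (ld ε) (X + 4 ^ (n + 1) * E) t.2 - k * E - 2 * (w + 4 ^ 1 * X))
    h0.2 (by
      push_cast at hD ⊢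
      rw [h1]
      constructor
      · refine lt_of_lt_of_eq hD.1 ?_
        ring
      · refine le_of_eq_of_le ?_ hD.2
        ring) b
  rw [ln_one]
  have h5 : 4 ^ 1 * qn ε (ld ε) (X + 4 ^ (n + 1) * E) t.2 - k * E
      - qn ε (ld ε) (w + 4 ^ 1 * X) b = 4 ^ 1 * qn ε (ld ε) (X + 4 ^ (n + 1) * E) t.2 - k * E
        - 2 * (w + 4 ^ 1 * X) - ⌊ε * ((w + 4 ^ 1 * X : ℤ) : ℝ) + off (ld ε) b⌋ := by
    unfold qn
    ring
  simp only
  rw [h5]
  rw [abs_le] at h4
  unfold Dig
  omega

end Pool.Agent.Lib.MP_c52340_nt.Near2.Froz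

namespace Pool.Agent.Lib.MP_c52340_nt.Near2

/-- **G4.** No backward path of tokens is frozen at the `n + 4` times `0, ..., n + 3`. -/
theorem noFrz (n : ℕ) (c k : ℤ) (ε μ : ℝ) (hk : k = 2 * 4 ^ (n + 2) + c)
    (hε : ε * 4 ^ (n + 2) = c) (hc : c ≠ 0) (he : |ε| ≤ 1 / 21)
    (hμ : (0 < ε ∧ μ = 0) ∨ (ε < 0 ∧ μ = -ε / 2)) : NoFrz k (qn ε μ) n := by
  have hμ' : μ = Froz.ld ε := by
    rcases hμ with ⟨h, rfl⟩ | ⟨h, rfl⟩
    · rw [Froz.ld_pos h]
    · rw [Froz.ld_neg h]
  subst hμ'
  rintro ⟨z, hS, hF⟩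
  have hmem : ∀ i, i ≤ n + 3 → (z i).1 ∈ C52C.T4 ((n + 1) + 1) := by
    intro i hi
    rcases Nat.eq_zero_or_pos i with h0 | h0
    · obtain ⟨X, hX, y, hy, E, hE, hs, ht, hR⟩ := hS i (by omega)
      rw [ht]
      exact C52C.T4_add hX hE
    · obtain ⟨j, rfl⟩ := Nat.exists_eq_succ_of_ne_zero (by omega : i ≠ 0)
      obtain ⟨X, hX, y, hy, E, hE, hs, ht, hR⟩ := hS j (by omega)
      rw [Nat.succ_eq_add_one, hs, show n + 1 + 1 = 1 + (n + 1) by omega]
      exact C52C.T4_add hy hX
  have hl : 1 ≤ 4 ^ (n + 2) * |ε| := by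
    have h1 : |((c : ℤ) : ℝ)| = |ε| * 4 ^ (n + 2) := by
      rw [← hε, abs_mul, abs_of_pos (by positivity : (0 : ℝ) < 4 ^ (n + 2))]
    have h2 : (1 : ℝ) ≤ |((c : ℤ) : ℝ)| := by
      have := Int.one_le_abs hc
      rw [← Int.cast_abs]
      exact_mod_cast this
    linarith
  obtain ⟨i, hi, hnf⟩ := Froz.no_frozen_run (eps := ε) (l := n + 2)
    (r := fun i => Froz.exc ε (Froz.ld ε) (z i)) (by linarith) hl
    (fun i _ => Froz.exc_Tk he (z i))
    (fun i hi => Froz.Stp_of hk hε (hS i hi))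
  exact hnf (Froz.Frozen_of hk hε he (hmem i hi) (hF i hi))

end Pool.Agent.Lib.MP_c52340_nt.Near2
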