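import Pool.Agent.Lib.MP_c52340_nt.N2F
import Pool.Agent.Lib.MP_c52340_nt.N2L4

/-!
Row G3 of the route near two.
-/

set_option autoImplicit false

namespace Pool.Agent.Lib.MP_c52340_nt.Near2

/-- the local lemma (row G3) -/
theorem rowG3 : RowG3 := fun c ε μ hc h => Near2L.locN c hc ε μ h

end Pool.Agent.Lib.MP_c52340_nt.Near2
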