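import Pool.Agent.Lib.MP_c52340_nt.N2F
import Pool.Agent.Lib.MP_c52340_nt.N2Froz

/-!
Row G4 of the route near two.
-/

set_option autoImplicit false

namespace Pool.Agent.Lib.MP_c52340_nt.Near2

/-- the lemma on frozen tokens (row G4) -/
theorem rowG4 : RowG4 := by
  intro n c k ε μ hk hε hc hp
  refine noFrz n c k ε μ hk hε ?_ ?_ ?_
  · rintro rfl
    exact absurd hc (by decide)
  · rw [abs_le]
    rcases hp with ⟨h1, h2, _⟩ | ⟨h1, h2, _⟩
    · constructor <;> linarith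
    · constructor <;> linarith
  · rcases hp with ⟨h1, _, h3⟩ | ⟨_, h2, h3⟩
    · exact Or.inl ⟨h1, h3⟩
    · exact Or.inr ⟨h2, h3⟩

end Pool.Agent.Lib.MP_c52340_nt.Near2
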