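import Mathlib

/-!
# Local facts near `κ = 2`, part 1: the combinatorial certificate and the profile of floors

`core`: a bipartite graph on `N + N` vertices with a perfect matching `x i ~ y i`, a spanning
tree `x (p i) ~ y i` whose first `s` vertices form a path, and one back edge `x (s - 1) ~ y 0`.

`prof`: the values `⌊F + σ * u⌋` for `|u| ≤ B` in terms of two thresholds.
-/

set_option autoImplicit false

namespace Pool.Agent.Lib.MP_c52340_nt.Near2L

open Finset
open scoped Classical

theorem core_card {α β : Type} [DecidableEq α] [DecidableEq β] (N : ℕ) (x : ℕ → α) (y : ℕ → β) (A : Finset α) (B : Finset β)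
    (hA : A = (range N).image x) (hB : B = (range N).image y) (hAc : A.card = N)
    (hBc : B.card = N) (e : α → β → Prop) (h1 : ∀ i < N, e (x i) (y i)) (D : Finset α)
    (hD : D ⊆ A) : D.card ≤ (B.filter (fun v => ∃ u ∈ D, e u v)).card ∧
      ((B.filter (fun v => ∃ u ∈ D, e u v)).card ≤ D.card →
        ∀ i < N, ∀ j < N, x i ∈ D → e (x i) (y j) → x j ∈ D) := by
  have hxi : Set.InjOn x (range N : Finset ℕ) := by
    rw [← Finset.card_image_iff, ← hA, hAc, card_range]
  have hyi : Set.InjOn y (range N : Finset ℕ) := by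
    rw [← Finset.card_image_iff, ← hB, hBc, card_range]
  set I := (range N).filter (fun i => x i ∈ D) with hI
  have hD' : D = I.image x := by
    ext u
    rw [mem_image]
    constructor
    · intro hu
      have h2 := hD hu
      rw [hA, mem_image] at h2
      obtain ⟨i, hi, rfl⟩ := h2
      exact ⟨i, mem_filter.2 ⟨hi, hu⟩, rfl⟩
    · rintro ⟨i, hi, rfl⟩
      exact (mem_filter.1 hi).2
  have hIN : (I : Set ℕ) ⊆ (range N : Finset ℕ) := by
    intro i hi
    exact (mem_filter.1 hi).1
  have hc1 : D.card = I.card := by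
    rw [hD']
    exact Finset.card_image_of_injOn (hxi.mono hIN)
  have hc2 : (I.image y).card = I.card := Finset.card_image_of_injOn (hyi.mono hIN)
  have hsub : I.image y ⊆ B.filter (fun v => ∃ u ∈ D, e u v) := by
    intro v hv
    obtain ⟨i, hi, rfl⟩ := mem_image.1 hv
    have hi' := mem_filter.1 hi
    refine mem_filter.2 ⟨?_, x i, hi'.2, h1 i (mem_range.1 hi'.1)⟩
    rw [hB]
    exact mem_image_of_mem y hi'.1
  refine ⟨?_, ?_⟩
  · rw [hc1, ← hc2]
    exact card_le_card hsub
  · intro hle i hi j hj hiD hij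
    have heq : I.image y = B.filter (fun v => ∃ u ∈ D, e u v) := by
      refine Finset.eq_of_subset_of_card_le hsub ?_
      rw [hc2, ← hc1]
      exact hle
    have h3 : y j ∈ I.image y := by
      rw [heq]
      refine mem_filter.2 ⟨?_, x i, hiD, hij⟩
      rw [hB]
      exact mem_image_of_mem y (mem_range.2 hj)
    obtain ⟨j', hj', hjj⟩ := mem_image.1 h3
    have : j' = j := hyi (hIN hj') (mem_coe.2 (mem_range.2 hj)) hjj
    subst this
    exact (mem_filter.1 hj').2

theorem core {α β : Type} [DecidableEq α] [DecidableEq β] (N : ℕ) (x : ℕ → α) (y : ℕ → β) (A : Finset α) (B : Finset β)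
    (hA : A = (range N).image x) (hB : B = (range N).image y) (hAc : A.card = N)
    (hBc : B.card = N) (e : α → β → Prop) (h1 : ∀ i < N, e (x i) (y i)) (p : ℕ → ℕ)
    (h2 : ∀ i < N, 0 < i → p i < i ∧ e (x (p i)) (y i)) (s : ℕ) (hs0 : 0 < s) (hsN : s ≤ N)
    (h3 : ∀ i < s, 0 < i → p i + 1 = i) (h4 : e (x (s - 1)) (y 0)) (D : Finset α)
    (hD : D ⊆ A) : D.card ≤ (B.filter (fun v => ∃ u ∈ D, e u v)).card ∧
      ((B.filter (fun v => ∃ u ∈ D, e u v)).card ≤ D.card →
        ∀ i < s, x i ∈ D → D = A) := by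
  obtain ⟨hc, hcl⟩ := core_card N x y A B hA hB hAc hBc e h1 D hD
  refine ⟨hc, ?_⟩
  intro hle i hi hiD
  have hcl' := hcl hle
  have hup : ∀ d, i + d < s → x (i + d) ∈ D := by
    intro d
    induction d with
    | zero => intro _; exact hiD
    | succ d ih =>
      intro hd
      have h5 := ih (by omega)
      have h6 := h3 (i + (d + 1)) hd (by omega)
      have h7 := h2 (i + (d + 1)) (by omega) (by omega)
      have h8 : p (i + (d + 1)) = i + d := by omega
      rw [h8] at h7
      exact hcl' (i + d) (by omega) (i + (d + 1)) (by omega) h5 h7.2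
  have hlast : x (s - 1) ∈ D := by
    have := hup (s - 1 - i) (by omega)
    rwa [show i + (s - 1 - i) = s - 1 by omega] at this
  have h0 : x 0 ∈ D := hcl' (s - 1) (by omega) 0 (by omega) hlast h4
  have hall : ∀ j, j < N → x j ∈ D := by
    intro j
    induction j using Nat.strong_induction_on with
    | _ j ih =>
      intro hj
      rcases Nat.eq_zero_or_pos j with h9 | h9
      · rw [h9]; exact h0
      · obtain ⟨h10, h11⟩ := h2 j hj h9
        exact hcl' (p j) (by omega) j hj (ih (p j) h10 (by omega)) h11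
  apply Finset.Subset.antisymm hD
  intro u hu
  rw [hA, mem_image] at hu
  obtain ⟨j, hj, rfl⟩ := hu
  exact hall j (mem_range.1 hj)

/-- the profile with left threshold `a` and right threshold `c` -/
def psi (a c : ℕ) (u : ℤ) : ℤ := if (a : ℤ) ≤ -u then -1 else if (c : ℤ) ≤ u then 1 else 0

theorem prof (F σ : ℝ) (B : ℕ) (hσ : 0 < σ) (hB : 2 * B * σ < 1) :
    ∃ a c : ℕ, 1 ≤ a ∧ a ≤ B + 1 ∧ 1 ≤ c ∧ c ≤ B + 1 ∧ (a = B + 1 ∨ c = B + 1) ∧
      ∀ u : ℤ, |u| ≤ B → ⌊F + σ * u⌋ = ⌊F⌋ + psi a c u := by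
  set f := Int.fract F with hf
  have hf0 : 0 ≤ f := Int.fract_nonneg F
  have hf1 : f < 1 := Int.fract_lt_one F
  have hF : F = ⌊F⌋ + f := (Int.floor_add_fract F).symm
  have hBs : (B : ℝ) * σ < 1 / 2 := by linarith
  set a0 := ⌊f / σ⌋₊ + 1 with ha0
  set c0 := ⌈(1 - f) / σ⌉₊ with hc0
  have hc1 : 1 ≤ c0 := by
    rw [hc0, Nat.one_le_ceil_iff]
    exact div_pos (by linarith) hσ
  have ha : ∀ n : ℕ, a0 ≤ n ↔ f < σ * n := by
    intro n
    rw [ha0, Nat.succ_le_iff, Nat.floor_lt (div_nonneg hf0 hσ.le), div_lt_iff₀ hσ, mul_comm]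
  have hc : ∀ n : ℕ, c0 ≤ n ↔ 1 - f ≤ σ * n := by
    intro n
    rw [hc0, Nat.ceil_le, div_le_iff₀ hσ, mul_comm]
  refine ⟨min a0 (B + 1), min c0 (B + 1), ?_, min_le_right _ _, ?_, min_le_right _ _, ?_, ?_⟩
  · exact le_min (by omega) (by omega)
  · exact le_min hc1 (by omega)
  · by_contra hcon
    push Not at hcon
    have h1 : a0 ≤ B := by
      by_contra h
      exact hcon.1 (min_eq_right (by omega))
    have h2 : c0 ≤ B := by
      by_contra h
      exact hcon.2 (min_eq_right (by omega))
    have h3 := (ha B).1 h1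
    have h4 := (hc B).1 h2
    have h5 : σ * B = B * σ := mul_comm _ _
    linarith
  · intro u hu
    have hu1 : -(B : ℤ) ≤ u := (abs_le.1 hu).1
    have hu2 : u ≤ (B : ℤ) := (abs_le.1 hu).2
    have hu1' : -(B : ℝ) ≤ (u : ℝ) := by exact_mod_cast hu1
    have hu2' : (u : ℝ) ≤ (B : ℝ) := by exact_mod_cast hu2
    have hs1 : -(1 / 2 : ℝ) < σ * u := by
      have : σ * (-(B : ℝ)) ≤ σ * u := mul_le_mul_of_nonneg_left hu1' hσ.le
      linarith
    have hs2 : σ * u < (1 / 2 : ℝ) := by
      have : σ * u ≤ σ * (B : ℝ) := mul_le_mul_of_nonneg_left hu2' hσ.le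
      linarith
    unfold psi
    have key : ∀ z : ℤ, (z : ℝ) ≤ f + σ * u → f + σ * u < z + 1 →
        ⌊F + σ * u⌋ = ⌊F⌋ + z := by
      intro z h1 h2
      rw [Int.floor_eq_iff]
      push_cast
      constructor <;> linarith
    by_cases h1 : ((min a0 (B + 1) : ℕ) : ℤ) ≤ -u
    · rw [if_pos h1]
      obtain ⟨n, hn⟩ : ∃ n : ℕ, (n : ℤ) = -u := ⟨(-u).toNat, by
        rw [Int.toNat_of_nonneg]
        exact le_trans (Int.natCast_nonneg _) h1⟩
      rw [← hn] at h1
      have h1' : min a0 (B + 1) ≤ n := by exact_mod_cast h1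
      have hnB : n ≤ B := by
        have : (n : ℤ) ≤ B := by rw [hn]; linarith
        exact_mod_cast this
      have h2 : a0 ≤ n := by
        rcases min_le_iff.1 h1' with h | h
        · exact h
        · omega
      have h3 := (ha n).1 h2
      have h4 : (u : ℝ) = -(n : ℝ) := by
        have : (n : ℝ) = -(u : ℝ) := by exact_mod_cast hn
        linarith
      have h6 := key (-1)
      push_cast at h6
      refine h6 ?_ ?_
      · linarith
      · rw [h4]; linarith
    · rw [if_neg h1]
      by_cases h2 : ((min c0 (B + 1) : ℕ) : ℤ) ≤ u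
      · rw [if_pos h2]
        obtain ⟨n, hn⟩ : ∃ n : ℕ, (n : ℤ) = u := ⟨u.toNat, by
          rw [Int.toNat_of_nonneg]
          exact le_trans (Int.natCast_nonneg _) h2⟩
        rw [← hn] at h2
        have h1' : min c0 (B + 1) ≤ n := by exact_mod_cast h2
        have hnB : n ≤ B := by
          have : (n : ℤ) ≤ B := by rw [hn]; exact hu2
          exact_mod_cast this
        have h3 : c0 ≤ n := by
          rcases min_le_iff.1 h1' with h | h
          · exact h
          · omega
        have h4 := (hc n).1 h3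
        have h5 : (u : ℝ) = (n : ℝ) := by exact_mod_cast hn.symm
        have h6 := key 1
        push_cast at h6
        refine h6 ?_ ?_
        · rw [h5]; linarith
        · linarith
      · rw [if_neg h2]
        have h6 := key 0
        push_cast at h6
        rcases le_or_gt 0 u with h0 | h0
        · obtain ⟨n, hn⟩ : ∃ n : ℕ, (n : ℤ) = u := ⟨u.toNat, Int.toNat_of_nonneg h0⟩
          have h5 : (u : ℝ) = (n : ℝ) := by exact_mod_cast hn.symm
          have h7 : ¬ c0 ≤ n := by
            intro h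
            apply h2
            rw [← hn]
            exact_mod_cast le_trans (min_le_left _ _) h
          rw [hc] at h7
          have h8 : 0 ≤ σ * (u : ℝ) := mul_nonneg hσ.le (by exact_mod_cast h0)
          refine h6 ?_ ?_
          · linarith
          · rw [h5]; linarith
        · obtain ⟨n, hn⟩ : ∃ n : ℕ, (n : ℤ) = -u := ⟨(-u).toNat, Int.toNat_of_nonneg (by omega)⟩
          have h4 : (u : ℝ) = -(n : ℝ) := by
            have : (n : ℝ) = -(u : ℝ) := by exact_mod_cast hn
            linarith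
          have h7 : ¬ a0 ≤ n := by
            intro h
            apply h1
            rw [← hn]
            exact_mod_cast le_trans (min_le_left _ _) h
          rw [ha] at h7
          have h8 : σ * (u : ℝ) < 0 := mul_neg_of_pos_of_neg hσ (by exact_mod_cast h0)
          refine h6 ?_ ?_
          · rw [h4]; linarith
          · linarith

/-- a demand in terms of a floor -/
theorem dem_floor (r : ℕ) (G : ℝ) (c E : ℤ) :
    (4 : ℤ) ^ r * ⌊(G + c * E) / 4 ^ r⌋ - c * E = ⌊G⌋ - (⌊G⌋ + c * E) % 4 ^ r := by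
  have h1 : ⌊(G + c * E) / 4 ^ r⌋ = (⌊G⌋ + c * E) / 4 ^ r := by
    have h2 : ((4 : ℝ) ^ r) = ((4 ^ r : ℕ) : ℝ) := by push_cast; rfl
    rw [h2, Int.floor_div_natCast]
    have h3 : G + c * E = G + ((c * E : ℤ) : ℝ) := by push_cast; rfl
    rw [h3, Int.floor_add_intCast]
    push_cast
    rfl
  rw [h1]
  have := Int.mul_ediv_add_emod (⌊G⌋ + c * E) (4 ^ r)
  linarith

end Pool.Agent.Lib.MP_c52340_nt.Near2L
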