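import Pool.Agent.Lib.MP_c52340_nt.N2Def
import Pool.Agent.Lib.MP_c52340_nt.N2L1

/-!
# Local facts near `κ = 2`, part 2: the checker for two digits and its soundness

A type is `(m, β, γ)`: `m < 24` is the cell of the fractional part of `F` (`m < 9` for `ε > 0`),
`β = ⌊F⌋ mod 16`, `γ = c mod 16`.  Tokens of a fibre are numbered `i < 18`: word `i / 2`, sign
`i % 2`.  A certificate is a number in base 32: `s`, then the triples (supply, demand, parent).
-/

set_option autoImplicit false

namespace Pool.Agent.Lib.MP_c52340_nt.Near2L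

open Pool.Agent.Lib.MP_c52340_nt Pool.Agent.Lib.MP_c52340_nt.Tok C52C
open Pool.Agent.Lib.MP_c52340_nt.Near2
open Finset

/-! ### primitives -/

/-- field `i` of width `b` -/
def fld (b T i : Nat) : Nat := Nat.mod (Nat.shiftRight T (Nat.mul b i)) (Nat.pow 2 b)

/-- bit `x` of `B` -/
def tb (B x : Nat) : Bool := Nat.beq (Nat.mod (Nat.shiftRight B x) 2) 1

/-- bounded quantifier -/
def allB (f : Nat → Bool) (n : Nat) : Bool :=
  Nat.rec (motive := fun _ => Bool) true (fun n ih => and (f n) ih) n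

theorem allB_spec {f : Nat → Bool} {n : Nat} (h : allB f n = true) : ∀ t < n, f t = true := by
  induction n with
  | zero => intro t ht; omega
  | succ n ih =>
    have h' : and (f n) (allB f n) = true := h
    rw [Bool.and_eq_true] at h'
    intro t ht
    rcases Nat.lt_or_ge t n with h1 | h1
    · exact ih h'.2 t h1
    · have : t = n := by omega
      rw [this]
      exact h'.1

/-- the set of values as a bit mask -/
def cov (f : Nat → Nat) (n : Nat) : Nat :=
  Nat.rec (motive := fun _ => Nat) 0 (fun n ih => Nat.lor (Nat.shiftLeft 1 (f n)) ih) n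

theorem cov_spec {f : Nat → Nat} {n j : Nat} (h : Nat.testBit (cov f n) j = true) :
    ∃ i < n, f i = j := by
  induction n with
  | zero =>
    have : cov f 0 = 0 := rfl
    rw [this, Nat.zero_testBit] at h
    exact absurd h (by decide)
  | succ n ih =>
    have h' : cov f (n + 1) = (1 <<< f n) ||| cov f n := rfl
    rw [h', Nat.testBit_or, Bool.or_eq_true] at h
    rcases h with h | h
    · rw [Nat.testBit_shiftLeft] at h
      refine ⟨n, by omega, ?_⟩
      by_contra hne
      rw [Bool.and_eq_true, decide_eq_true_eq] at h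
      rcases Nat.lt_or_ge j (f n) with h1 | h1
      · omega
      · replace h := h.2
        obtain ⟨d, hd⟩ : ∃ d, j - f n = d + 1 := ⟨j - f n - 1, by omega⟩
        rw [hd] at h
        simp [Nat.testBit_succ] at h
    · obtain ⟨i, hi, h2⟩ := ih h
      exact ⟨i, by omega, h2⟩

theorem cov_full {f : Nat → Nat} {n N : Nat} (h : Nat.beq (cov f n) (2 ^ N - 1) = true) :
    ∀ j < N, ∃ i < n, f i = j := by
  intro j hj
  have h1 : cov f n = 2 ^ N - 1 := Nat.eq_of_beq_eq_true h
  apply cov_spec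
  rw [h1, Nat.testBit_two_pow_sub_one]
  simp [hj]

/-! ### tables -/

/-- the nine words, shifted by 5 -/
def YT : Nat := 0xa98654210

/-- the nine words modulo 16 -/
def ET : Nat := 0x54310fdcb

/-- allowed differences, shifted by 32 -/
def MK : Nat := 0x3bb8000000

/-- supplies -/
def ST : Nat := 0xd6f19b5e53845cf52d0931f5bc66d794e1173d4b424e7d6f19b5e53845cf52d293a35bc66d794e1173d6b4a8e8d6f19b5e53845cf5b12a3a35bc66d794e117bd6c4a8e8d6f19b5e538c5f05b12a3a35bc66d794e1173d4b424c7d6f19b5e53845cf52d0931f5ac66d794e1173d4b424c7ceb18b5e53845cf52d0931f3abe2d694e1173d4b424c7ceaf8ada53845cf52d0931f3abe2b694a1173d4b424c7ceaf8ada32841cf52d0931f7cc66d794e1173d4b424c7df33ab5e53845cf52d0931f7cceaf894e1173d4b424c7df33abe274845cf52d0931f5bc66d794e1173d4b424c7d6f19b5e53845cf52d0929b5bc66d794e1173d4b3a0a6d6f19b5e53845cf4a8e829b5bc66d794e116b92a3a0a6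

/-- left and right slack of the demands -/
def GT : Nat := 0xff01ff

/-- right slack of the demands -/
def HT : Nat := 0xfe0000

/-- word number `e` -/
def yv (e : Nat) : Int := (fld 4 YT e : Int) - 5

/-- supply `i` of cell `m`, relative to `⌊F⌋`, plus 16 -/
def sv (m i : Nat) : Nat := fld 5 ST (Nat.add (Nat.mul 18 m) i)

/-- demand `i`, relative to `⌊F⌋`, plus 16 -/
def dv (g h β γ i : Nat) : Nat :=
  cond (Nat.beq (Nat.mod i 2) 0)
    (Nat.sub (Nat.add 31 g) (Nat.mod (Nat.add (Nat.add β (Nat.add g 15))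
      (Nat.mul γ (fld 4 ET (Nat.div i 2)))) 16))
    (Nat.sub (Nat.add 16 h) (Nat.mod (Nat.add (Nat.add β h)
      (Nat.mul γ (fld 4 ET (Nat.div i 2)))) 16))

/-- edge test -/
def edg (n q : Nat) : Bool := tb MK (Nat.sub (Nat.add n 32) q)

/-- labels of a certificate -/
def lq (C i : Nat) : Nat := fld 5 C (Nat.add (Nat.mul 3 i) 1)

/-- labels of a certificate -/
def ln (C i : Nat) : Nat := fld 5 C (Nat.add (Nat.mul 3 i) 2)

/-- labels of a certificate -/
def lp (C i : Nat) : Nat := fld 5 C (Nat.add (Nat.mul 3 i) 3)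

/-- the combinatorial part of a certificate -/
def certOk (C : Nat) : Bool :=
  and (and (Nat.blt 0 (fld 5 C 0)) (Nat.ble (fld 5 C 0) 18))
  (and (allB (fun i => or (Nat.beq i 0) (and (Nat.blt (lp C i) i)
      (or (Nat.ble (fld 5 C 0) i) (Nat.beq (Nat.add (lp C i) 1) i)))) 18)
  (and (Nat.beq (cov (lq C) 18) (2 ^ 18 - 1))
  (and (Nat.beq (cov (ln C) 18) (2 ^ 18 - 1))
    (Nat.beq (cov (fun i => Nat.div (ln C i) 2) (fld 5 C 0)) (2 ^ 9 - 1)))))

/-- the edges of a certificate -/
def edgeOk (m g h β γ C : Nat) : Bool :=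
  and (allB (fun i => and (edg (dv g h β γ (ln C i)) (sv m (lq C i)))
    (or (Nat.beq i 0) (edg (dv g h β γ (ln C (lp C i))) (sv m (lq C i))))) 18)
  (edg (dv g h β γ (ln C (Nat.sub (fld 5 C 0) 1))) (sv m (lq C 0)))

/-- all cells for a residue pair -/
def chkRow (β γ : Nat) (row : List (Nat × Nat)) : Bool :=
  and (row.all (fun e => certOk e.2))
    (allB (fun m => row.any (fun e => and (tb e.1 m)
      (edgeOk m (fld 1 GT m) (fld 1 HT m) β γ e.2))) 24)

/-! ### soundness -/

/-- a good certificate for the type `(m, β, γ)` -/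
def Has (m β γ : Nat) : Prop := ∃ C, certOk C = true ∧
  edgeOk m (fld 1 GT m) (fld 1 HT m) β γ C = true

theorem chkRow_spec {β γ : Nat} {row : List (Nat × Nat)} (h : chkRow β γ row = true) :
    ∀ m < 24, Has m β γ := by
  unfold chkRow at h
  rw [Bool.and_eq_true, List.all_eq_true] at h
  intro m hm
  have h1 := allB_spec h.2 m hm
  rw [List.any_eq_true] at h1
  obtain ⟨e, he, h2⟩ := h1
  rw [Bool.and_eq_true] at h2
  exact ⟨e.2, h.1 e he, h2.2⟩

theorem tb_MK {x : Nat} (h : tb MK x = true) : x = 27 ∨ x = 28 ∨ x = 29 ∨ x = 31 ∨ x = 32 ∨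
    x = 33 ∨ x = 35 ∨ x = 36 ∨ x = 37 := by
  rcases Nat.lt_or_ge x 38 with h1 | h1
  · revert h
    revert x
    decide +kernel
  · exfalso
    unfold tb at h
    have h2 : MK < 2 ^ x := lt_of_lt_of_le (by decide +kernel : MK < 2 ^ 38)
      (Nat.pow_le_pow_right (by norm_num) h1)
    have h3 : Nat.shiftRight MK x = 0 := by
      have : MK >>> x = 0 := by
        rw [Nat.shiftRight_eq_div_pow]
        exact Nat.div_eq_of_lt h2
      exact this
    rw [h3] at h
    exact absurd h (by decide)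

theorem edg_Ln {n q : Nat} {N Q : Int} {b : Int} (hn : (n : Int) = N - b + 16)
    (hq : (q : Int) = Q - b + 16) (h : edg n q = true) : Ln 2 (N - Q) := by
  have h1 := tb_MK h
  have h2 : Nat.sub (Nat.add n 32) q = n + 32 - q := rfl
  rw [h2] at h1
  have h3 : N - Q = -5 ∨ N - Q = -4 ∨ N - Q = -3 ∨ N - Q = -1 ∨ N - Q = 0 ∨ N - Q = 1 ∨
      N - Q = 3 ∨ N - Q = 4 ∨ N - Q = 5 := by
    omega
  refine C52C.mem_T4.1 ?_
  rcases h3 with h | h | h | h | h | h | h | h | h <;> rw [h] <;> decide +kernel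

/-- token number `i` -/
def tok (i : Nat) : Int × Bool := (yv (i / 2), Nat.beq (i % 2) 0)

theorem full_eq : T4 2 ×ˢ (univ : Finset Bool) = (range 18).image tok := by
  decide +kernel

theorem full_card : (T4 2 ×ˢ (univ : Finset Bool)).card = 18 := by
  decide +kernel

theorem tok_word : ∀ E ∈ T4 2, ∃ e < 9, yv e = E := by
  decide +kernel

theorem yv_mod : ∀ e < 9, ∃ w : Int, yv e = (fld 4 ET e : Int) + 16 * w := by
  have h : ∀ e < 9, (yv e - (fld 4 ET e : Int)) % 16 = 0 := by decide +kernel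
  intro e he
  have := h e he
  exact ⟨(yv e - (fld 4 ET e : Int)) / 16, by omega⟩

/-- the integer behind demand `i` -/
def dz (g h b c : Int) (t : Int × Bool) : Int :=
  if t.2 then (b + g) + 16 - ((b + g) + c * t.1) % 16 else (b + h) - ((b + h) + c * t.1) % 16

theorem dv_spec {b c : Int} {β γ g h : Nat} (hb : b % 16 = β) (hc : c % 16 = γ) {i : Nat}
    (hi : i < 18) : ((dv g h β γ i : Nat) : Int) = dz ((g : Int) - 1) h b c (tok i) - b + 16 := by
  obtain ⟨w, hw⟩ := yv_mod (i / 2) (by omega)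
  obtain ⟨t, ht⟩ : ∃ t, b = 16 * t + β := ⟨b / 16, by omega⟩
  obtain ⟨u, hu⟩ : ∃ u, c = 16 * u + γ := ⟨c / 16, by omega⟩
  unfold dv dz tok
  have e1 : Nat.div i 2 = i / 2 := rfl
  have e2 : Nat.mod i 2 = i % 2 := rfl
  rw [e1, e2]
  set E := fld 4 ET (i / 2) with hE
  rcases Nat.mod_two_eq_zero_or_one i with h0 | h0
  · rw [h0]
    have h1 : Nat.beq 0 0 = true := rfl
    rw [h1]
    simp only [cond_true, if_true]
    have h2 : (b + ((g : Int) - 1)) + c * yv (i / 2) =
        ((β + (g + 15) + γ * E : Nat) : Int) + 16 * (t - 1 + u * yv (i / 2) + γ * w) := by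
      rw [hw, ht, hu]; push_cast; ring
    rw [h2, Int.add_mul_emod_self_left]
    have h3 : Nat.mod (Nat.add (Nat.add β (Nat.add g 15)) (Nat.mul γ E)) 16 =
        (β + (g + 15) + γ * E) % 16 := rfl
    rw [h3]
    have h4 : ((β + (g + 15) + γ * E) % 16 : Nat) < 16 := Nat.mod_lt _ (by norm_num)
    have h5 : Nat.sub (Nat.add 31 g) ((β + (g + 15) + γ * E) % 16) =
        31 + g - (β + (g + 15) + γ * E) % 16 := rfl
    rw [h5]
    omega
  · rw [h0]
    have h1 : Nat.beq 1 0 = false := rfl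
    rw [h1]
    simp only [cond_false]
    rw [if_neg (by decide)]
    have h2 : (b + (h : Int)) + c * yv (i / 2) =
        ((β + h + γ * E : Nat) : Int) + 16 * (t + u * yv (i / 2) + γ * w) := by
      rw [hw, ht, hu]; push_cast; ring
    rw [h2, Int.add_mul_emod_self_left]
    have h3 : Nat.mod (Nat.add (Nat.add β h) (Nat.mul γ E)) 16 = (β + h + γ * E) % 16 := rfl
    rw [h3]
    have h4 : ((β + h + γ * E) % 16 : Nat) < 16 := Nat.mod_lt _ (by norm_num)
    have h5 : Nat.sub (Nat.add 16 h) ((β + h + γ * E) % 16) = 16 + h - (β + h + γ * E) % 16 := rfl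
    rw [h5]
    omega

open scoped Classical in
/-- Hall and (F2) from a certificate, for any relation given by the integers `dz`, `sz` -/
theorem loc_of_has (A : Finset (Int × Bool)) (hA : A = (range 18).image tok) (hAc : A.card = 18)
    {m β γ : Nat} (H : Has m β γ) {b c : Int} (hb : b % 16 = β)
    (hc : c % 16 = γ) (R : Int × Bool → Int × Bool → Prop) (sz : Int × Bool → Int)
    (hs : ∀ i < 18, ((sv m i : Nat) : Int) = sz (tok i) - b + 16)
    (hR : ∀ s ∈ A, ∀ t ∈ A,
      Ln 2 (dz ((fld 1 GT m : Int) - 1) (fld 1 HT m) b c t - sz s) → R s t)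
    (D : Finset (Int × Bool)) (hD : D ⊆ A) :
    D.card ≤ (filter (fun s => ∃ t ∈ D, R s t) A).card ∧
    ((∃ e < 9, ∀ b : Bool, (yv e, b) ∈ D) →
      (filter (fun s => ∃ t ∈ D, R s t) A).card ≤ D.card → D = A) := by
  obtain ⟨C, hC, hE⟩ := H
  unfold certOk at hC
  simp only [Bool.and_eq_true] at hC
  obtain ⟨⟨hs0, hs18⟩, hp, hcq, hcn, hcw⟩ := hC
  unfold edgeOk at hE
  rw [Bool.and_eq_true] at hE
  obtain ⟨hE1, hE2⟩ := hE
  have hs0' : 0 < fld 5 C 0 := by
    have := Nat.le_of_ble_eq_true hs0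
    omega
  have hs18' : fld 5 C 0 ≤ 18 := Nat.le_of_ble_eq_true hs18
  have hq := cov_full hcq
  have hn := cov_full hcn
  have hw := cov_full hcw
  -- labels are below 18
  have inj_lt : ∀ f : Nat → Nat, (∀ j < 18, ∃ i < 18, f i = j) → ∀ i < 18, f i < 18 := by
    intro f hf i hi
    by_contra hge
    have h1 : (range 18) ⊆ ((range 18).erase i).image f := by
      intro j hj
      obtain ⟨i', hi', h2⟩ := hf j (mem_range.1 hj)
      refine mem_image.2 ⟨i', mem_erase.2 ⟨?_, mem_range.2 hi'⟩, h2⟩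
      rintro rfl
      have := mem_range.1 hj
      omega
    have h2 := card_le_card h1
    have h3 := card_image_le (s := (range 18).erase i) (f := f)
    rw [card_erase_of_mem (mem_range.2 hi)] at h3
    simp only [card_range] at h2 h3
    omega
  have hql := inj_lt _ hq
  have hnl := inj_lt _ hn
  have himg : ∀ f : Nat → Nat, (∀ j < 18, ∃ i < 18, f i = j) → (∀ i < 18, f i < 18) →
      A = (range 18).image (fun i => tok (f i)) := by
    intro f hf hf'
    rw [hA]
    ext u
    simp only [mem_image, mem_range]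
    constructor
    · rintro ⟨j, hj, rfl⟩
      obtain ⟨i, hi, h2⟩ := hf j hj
      exact ⟨i, hi, by rw [h2]⟩
    · rintro ⟨i, hi, rfl⟩
      exact ⟨f i, hf' i hi, rfl⟩
  have htokA : ∀ i < 18, tok i ∈ A := by
    intro i hi
    rw [hA]
    exact mem_image.2 ⟨i, mem_range.2 hi, rfl⟩
  have hedge : ∀ i < 18, ∀ j < 18, edg (dv (fld 1 GT m) (fld 1 HT m) β γ i) (sv m j) = true →
      R (tok j) (tok i) := by
    intro i hi j hj h
    refine hR _ (htokA j hj) _ (htokA i hi) ?_
    exact edg_Ln (dv_spec hb hc hi) (hs j hj) h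
  have hE1' := allB_spec hE1
  have hp' := allB_spec hp
  have hplt : ∀ i < 18, 0 < i → lp C i < i ∧ (fld 5 C 0 ≤ i ∨ lp C i + 1 = i) := by
    intro i hi h0
    have h1 := hp' i hi
    rw [Bool.or_eq_true] at h1
    rcases h1 with h1 | h1
    · have := Nat.eq_of_beq_eq_true h1
      omega
    · rw [Bool.and_eq_true, Bool.or_eq_true] at h1
      refine ⟨?_, ?_⟩
      · have := Nat.le_of_ble_eq_true h1.1
        omega
      · rcases h1.2 with h2 | h2
        · exact Or.inl (Nat.le_of_ble_eq_true h2)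
        · exact Or.inr (Nat.eq_of_beq_eq_true h2)
  obtain ⟨s, hs⟩ : ∃ s, s = fld 5 C 0 := ⟨_, rfl⟩
  rw [← hs] at hs0' hs18' hw hplt hE2
  have k1 : ∀ i < 18, R (tok (lq C i)) (tok (ln C i)) := by
    intro i hi
    have h1 := hE1' i hi
    rw [Bool.and_eq_true] at h1
    exact hedge (ln C i) (hnl i hi) (lq C i) (hql i hi) h1.1
  have k2 : ∀ i < 18, 0 < i → lp C i < i ∧ R (tok (lq C i)) (tok (ln C (lp C i))) := by
    intro i hi h0
    have h1 := hE1' i hi
    rw [Bool.and_eq_true, Bool.or_eq_true] at h1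
    have h2 := hplt i hi h0
    refine ⟨h2.1, ?_⟩
    rcases h1.2 with h3 | h3
    · have := Nat.eq_of_beq_eq_true h3
      omega
    · exact hedge (ln C (lp C i)) (hnl _ (by omega)) (lq C i) (hql i hi) h3
  have k3 : ∀ i < s, 0 < i → lp C i + 1 = i := by
    intro i hi h0
    have h2 := hplt i (by omega) h0
    omega
  have k4 : R (tok (lq C 0)) (tok (ln C (s - 1))) :=
    hedge (ln C (s - 1)) (hnl (s - 1) (by omega)) (lq C 0) (hql 0 (by norm_num)) hE2
  have hmain := core 18 (fun i => tok (ln C i)) (fun i => tok (lq C i)) A A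
    (himg _ hn hnl) (himg _ hq hql) hAc hAc (fun t s => R s t) k1 (lp C) k2 s hs0' hs18' k3 k4
    D hD
  refine ⟨?_, ?_⟩
  · exact hmain.1
  · rintro ⟨e, he, hED⟩ hle
    obtain ⟨i, hi, h1⟩ := hw e he
    refine hmain.2 hle i hi ?_
    show tok (ln C i) ∈ D
    have h2 : (ln C i) / 2 = e := h1
    have h3 : tok (ln C i) = (yv e, Nat.beq (ln C i % 2) 0) := by
      unfold tok
      rw [h2]
    rw [h3]
    exact hED _

end Pool.Agent.Lib.MP_c52340_nt.Near2L
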