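import Pool.Agent.Lib.MP_c52340_nt.N2L2

/-!
# Local facts near `κ = 2`, part 3: from reals to types, and the one-digit fibres
-/

set_option autoImplicit false

namespace Pool.Agent.Lib.MP_c52340_nt.Near2L

open Pool.Agent.Lib.MP_c52340_nt Pool.Agent.Lib.MP_c52340_nt.Tok C52C
open Pool.Agent.Lib.MP_c52340_nt.Near2
open Finset

/-! ### cells -/

/-- the cell for `ε > 0` -/
def mP (a c : Nat) : Nat :=
  if a ≤ 5 then (if a = 1 then 0 else if a ≤ 3 then 1 else a - 2)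
  else if c ≤ 5 then 5 + (if c = 1 then 0 else if c ≤ 3 then 1 else c - 2) else 4

/-- the cell for `ε < 0` -/
def mM (a c : Nat) : Nat :=
  if a ≤ 16 then 9 + (if a ≤ 11 then a / 2 else 6)
  else if c ≤ 16 then 17 + (if c ≤ 11 then c / 2 else 6) else 16

/-- the multiple of the step in the floor of supply `i` for `ε < 0` -/
def uM (y : Int) (b : Bool) : Int := if b then -(2 * y + 1) else 1 - 2 * y

/-- all threshold pairs with one of them equal to `B` -/
def swp (f : Nat → Nat → Bool) (B : Nat) : Bool :=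
  allB (fun a => and (f (a + 1) B) (f B (a + 1))) B

theorem swp_spec {f : Nat → Nat → Bool} {B a c : Nat} (h : swp f B = true) (ha : a < B + 1)
    (hc : c < B + 1) (ha1 : 1 ≤ a) (hc1 : 1 ≤ c) (hac : a = B ∨ c = B) : f a c = true := by
  rcases hac with h1 | h1
  · have h2 := allB_spec h (c - 1) (by omega)
    rw [Bool.and_eq_true] at h2
    rw [h1]
    have h3 := h2.2
    rwa [show c - 1 + 1 = c by omega] at h3
  · have h2 := allB_spec h (a - 1) (by omega)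
    rw [Bool.and_eq_true] at h2
    rw [h1]
    have h3 := h2.1
    rwa [show a - 1 + 1 = a by omega] at h3

/-- check of one cell for `ε > 0` -/
def ckP (a c : Nat) : Bool :=
  decide (mP a c < 24) && decide (fld 1 GT (mP a c) = 1) && decide (fld 1 HT (mP a c) = 0) &&
    allB (fun i => decide (((sv (mP a c) i : Nat) : Int) = 2 * (tok i).1 + psi a c (tok i).1 +
      (if (tok i).2 then 1 else 0) + 16)) 18

/-- check of one cell for `ε < 0` -/
def ckM (a c : Nat) : Bool :=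
  decide (mM a c < 24) && decide ((fld 1 GT (mM a c) : Int) - 1 = psi a c (-16)) &&
    decide ((fld 1 HT (mM a c) : Int) = psi a c 16) &&
    allB (fun i => decide (((sv (mM a c) i : Nat) : Int) = 2 * (tok i).1 +
      psi a c (uM (tok i).1 (tok i).2) + (if (tok i).2 then 1 else 0) + 16)) 18

theorem ckP_all : swp ckP 6 = true := by
  decide +kernel

theorem ckM_all : swp ckM 17 = true := by
  decide +kernel

theorem cellP {a c : Nat} (ha : a < 7) (hc : c < 7) (ha1 : 1 ≤ a) (hc1 : 1 ≤ c)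
    (hac : a = 6 ∨ c = 6) :
    mP a c < 24 ∧ fld 1 GT (mP a c) = 1 ∧ fld 1 HT (mP a c) = 0 ∧
    ∀ i < 18, ((sv (mP a c) i : Nat) : Int) = 2 * (tok i).1 + psi a c (tok i).1 +
      (if (tok i).2 then 1 else 0) + 16 := by
  have h := swp_spec ckP_all ha hc ha1 hc1 hac
  unfold ckP at h
  simp only [Bool.and_eq_true, decide_eq_true_eq] at h
  obtain ⟨⟨⟨h1, h2⟩, h3⟩, h4⟩ := h
  exact ⟨h1, h2, h3, fun i hi => of_decide_eq_true (allB_spec h4 i hi)⟩

theorem cellM {a c : Nat} (ha : a < 18) (hc : c < 18) (ha1 : 1 ≤ a) (hc1 : 1 ≤ c)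
    (hac : a = 17 ∨ c = 17) :
    mM a c < 24 ∧ (fld 1 GT (mM a c) : Int) - 1 = psi a c (-16) ∧
    (fld 1 HT (mM a c) : Int) = psi a c 16 ∧
    ∀ i < 18, ((sv (mM a c) i : Nat) : Int) = 2 * (tok i).1 +
      psi a c (uM (tok i).1 (tok i).2) + (if (tok i).2 then 1 else 0) + 16 := by
  have h := swp_spec ckM_all ha hc ha1 hc1 hac
  unfold ckM at h
  simp only [Bool.and_eq_true, decide_eq_true_eq] at h
  obtain ⟨⟨⟨h1, h2⟩, h3⟩, h4⟩ := h
  exact ⟨h1, h2, h3, fun i hi => of_decide_eq_true (allB_spec h4 i hi)⟩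

theorem tok_abs : ∀ i < 18, |(tok i).1| ≤ 5 ∧ |uM (tok i).1 (tok i).2| ≤ 16 := by
  decide +kernel

theorem demand_eq (r : ℕ) (F μ : ℝ) (c : Int) (t : Int × Bool) (g h : Int)
    (hg : ⌊F - 4 ^ r * μ⌋ = ⌊F⌋ + g) (hh : ⌊F + 4 ^ r * μ⌋ = ⌊F⌋ + h) :
    (4 : Int) ^ r * ⌊(F + c * t.1) / 4 ^ r + off μ t.2⌋ - c * t.1 =
      if t.2 then (⌊F⌋ + g) + 4 ^ r - ((⌊F⌋ + g) + c * t.1) % 4 ^ r
      else (⌊F⌋ + h) - ((⌊F⌋ + h) + c * t.1) % 4 ^ r := by
  have h4 : (4 : ℝ) ^ r ≠ 0 := by positivity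
  rcases t with ⟨E, _ | _⟩
  · have h1 : (F + c * E) / 4 ^ r + off μ false = ((F + 4 ^ r * μ) + c * E) / 4 ^ r := by
      unfold off
      simp only [Bool.false_eq_true, if_false]
      field_simp
      ring
    simp only [Bool.false_eq_true, if_false]
    rw [h1, dem_floor, hh]
  · have h1 : (F + c * E) / 4 ^ r + off μ true = ((F - 4 ^ r * μ) + c * E) / 4 ^ r + (1 : ℤ) := by
      unfold off
      simp only [if_true]
      push_cast
      field_simp
      ring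
    simp only [if_true]
    rw [h1, Int.floor_add_intCast, mul_add]
    have h2 := dem_floor r (F - 4 ^ r * μ) c E
    rw [hg] at h2
    linarith

theorem supply_P (F ε : ℝ) (s : Int × Bool) (z : Int) (h : ⌊F + ε * s.1⌋ = ⌊F⌋ + z) :
    ⌊F + ε * s.1 + off 0 s.2⌋ = ⌊F⌋ + z + (if s.2 then 1 else 0) := by
  rcases s with ⟨y, _ | _⟩
  · simp only [off, Bool.false_eq_true, if_false, add_zero]
    exact h
  · have h1 : F + ε * y + off 0 true = F + ε * y + ((1 : ℤ) : ℝ) := by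
      unfold off
      simp
    simp only [if_true] at h ⊢
    rw [h1, Int.floor_add_intCast, h]

theorem supply_M (F ε μ : ℝ) (hμ : μ = -ε / 2) (s : Int × Bool) (z : Int)
    (h : ⌊F + μ * (uM s.1 s.2 : Int)⌋ = ⌊F⌋ + z) :
    ⌊F + ε * s.1 + off μ s.2⌋ = ⌊F⌋ + z + (if s.2 then 1 else 0) := by
  have hε : ε = -2 * μ := by rw [hμ]; ring
  rcases s with ⟨y, _ | _⟩
  · simp only [uM, off, Bool.false_eq_true, if_false, add_zero] at h ⊢
    rw [← h, hε]
    congr 1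
    push_cast
    ring
  · simp only [uM, off, if_true] at h ⊢
    have h1 : F + ε * y + (1 - μ) = F + μ * ((-(2 * y + 1) : ℤ) : ℝ) + ((1 : ℤ) : ℝ) := by
      rw [hε]
      push_cast
      ring
    rw [h1, Int.floor_add_intCast, h]

/-- the side condition on `ε` and `μ` -/
def Side (ε μ : ℝ) : Prop :=
  (0 < ε ∧ ε ≤ 1 / 21 ∧ μ = 0) ∨ (-(1 / 21) ≤ ε ∧ ε < 0 ∧ μ = -ε / 2)

theorem locN2_of_has (H : ∀ m < 24, ∀ β < 16, ∀ γ < 16, γ % 2 = 1 → Has m β γ) (c : Int)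
    (hc : Odd c) (ε μ : ℝ) (hs : Side ε μ) : LocN2 c ε μ := by
  intro F D hD
  obtain ⟨β, hβ⟩ : ∃ β : ℕ, ⌊F⌋ % 16 = β := ⟨(⌊F⌋ % 16).toNat, by omega⟩
  obtain ⟨γ, hγ⟩ : ∃ γ : ℕ, c % 16 = γ := ⟨(c % 16).toNat, by omega⟩
  have hβ' : β < 16 := by omega
  have hγ' : γ < 16 := by omega
  have hγ1 : γ % 2 = 1 := by
    obtain ⟨d, hd⟩ := hc
    omega
  have key : ∀ m < 24, (∀ i < 18, ((sv m i : Nat) : Int) =
      (2 * (tok i).1 + ⌊F + ε * (tok i).1 + off μ (tok i).2⌋) - ⌊F⌋ + 16) →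
      ⌊F - 4 ^ 2 * μ⌋ = ⌊F⌋ + ((fld 1 GT m : Int) - 1) →
      ⌊F + 4 ^ 2 * μ⌋ = ⌊F⌋ + (fld 1 HT m : Int) →
      D.card ≤ (nbN 2 c ε μ F D).card ∧
      ((∃ E ∈ T4 2, ∀ b : Bool, (E, b) ∈ D) → (nbN 2 c ε μ F D).card ≤ D.card →
        D = T4 2 ×ˢ (Finset.univ : Finset Bool)) := by
    intro m hm h1 h2 h3
    have hL := loc_of_has (T4 2 ×ˢ (univ : Finset Bool)) full_eq full_card
      (H m hm β hβ' γ hγ' hγ1) hβ hγ (LoN 2 c ε μ F)
      (fun s => 2 * s.1 + ⌊F + ε * s.1 + off μ s.2⌋) h1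
      (fun s _ t _ h => by
        unfold LoN
        have h4 := demand_eq 2 F μ c t _ _ h2 h3
        unfold dz at h
        have h5 : (4 : Int) ^ 2 = 16 := by norm_num
        rw [h5] at h4
        have h6 : (4 : Int) ^ 2 * ⌊(F + c * t.1) / 4 ^ 2 + off μ t.2⌋
            - ⌊F + ε * s.1 + off μ s.2⌋ - c * t.1 - 2 * s.1 =
            (16 * ⌊(F + c * t.1) / 4 ^ 2 + off μ t.2⌋ - c * t.1) -
              (2 * s.1 + ⌊F + ε * s.1 + off μ s.2⌋) := by
          rw [h5]; ring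
        rw [h6, h4]
        exact h) D hD
    refine ⟨hL.1, ?_⟩
    rintro ⟨E, hE, hED⟩ hle
    obtain ⟨e, he, heE⟩ := tok_word E hE
    refine hL.2 ⟨e, he, ?_⟩ hle
    rw [heE]
    exact hED
  rcases hs with ⟨h0, h1, h2⟩ | ⟨h0, h1, h2⟩
  · obtain ⟨a, c', ha1, ha2, hc1, hc2, hac, hpr⟩ := prof F ε 5 h0 (by push_cast; linarith)
    obtain ⟨hm, hG, hH, hS⟩ := cellP (a := a) (c := c') (by omega) (by omega) ha1 hc1 hac
    refine key (mP a c') hm ?_ ?_ ?_
    · intro i hi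
      rw [hS i hi, h2]
      have h3 := hpr (tok i).1 (by have := (tok_abs i hi).1; exact_mod_cast this)
      rw [supply_P F ε (tok i) _ h3]
      ring
    · rw [hG, h2]; simp
    · rw [hH, h2]; simp
  · have hμ : 0 < μ := by rw [h2]; linarith
    obtain ⟨a, c', ha1, ha2, hc1, hc2, hac, hpr⟩ := prof F μ 16 hμ (by
      push_cast; rw [h2]; linarith)
    obtain ⟨hm, hG, hH, hS⟩ := cellM (a := a) (c := c') (by omega) (by omega) ha1 hc1 hac
    refine key (mM a c') hm ?_ ?_ ?_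
    · intro i hi
      rw [hS i hi]
      have h3 := hpr (uM (tok i).1 (tok i).2) (by
        have := (tok_abs i hi).2; exact_mod_cast this)
      rw [supply_M F ε μ h2 (tok i) _ h3]
      ring
    · rw [hG, ← hpr (-16) (by norm_num)]
      congr 1
      push_cast
      ring
    · rw [hH, ← hpr 16 (by norm_num)]
      congr 1
      push_cast
      ring

/-! ### one digit -/

/-- supplies, one digit -/
def ST1 : Nat := 0x674523674533675534674523674523664523564423784523674523674512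

/-- left slack, one digit -/
def GT1 : Nat := 0x3c7

/-- right slack, one digit -/
def HT1 : Nat := 0x380

/-- matchings, one digit -/
def CT1 : Nat := 0x35a104aca3446ab28470d08a74468434d11a35a10cac23446ab28470d08a74468c14d11a35a11ca0a14c6ab28470528b15468c14d71014b51c34274428d09c70d08a7442d415d10a10d69a34474428d09c68d10d71035a11c40d14c69a34474428d09c68d10d71035a11d40c14c6ab28470528b15468c14d71035a11ca0a14b51c28570528a15c74c08a7442d511d10a14b51c34274428d09c70d08a7442d415d10a34351c34274c08d09c70528a15c2d414570a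

/-- supply `i` -/
def sv1 (m i : Nat) : Nat := fld 4 ST1 (Nat.add (Nat.mul 6 m) i)

/-- demand `i`, plus 4 -/
def dv1 (g h β γ i : Nat) : Nat :=
  cond (Nat.beq (Nat.mod i 2) 0)
    (Nat.sub (Nat.add 7 g) (Nat.mod (Nat.add (Nat.add β (Nat.add g 3))
      (Nat.mul γ (Nat.add (Nat.div i 2) 3))) 4))
    (Nat.sub (Nat.add 4 h) (Nat.mod (Nat.add (Nat.add β h)
      (Nat.mul γ (Nat.add (Nat.div i 2) 3))) 4))

/-- token number `i`, one digit -/
def tok1 (i : Nat) : Int × Bool := ((i / 2 : Nat) - 1, Nat.beq (i % 2) 0)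

/-- partner of demand `i` -/
def lb1 (m β γ i : Nat) : Nat := fld 3 (fld 18 CT1 ((m * 4 + β) * 2 + γ / 2)) i

/-- check of one type -/
def ok1 (m β γ : Nat) : Bool :=
  and (Nat.beq (cov (lb1 m β γ) 6) (2 ^ 6 - 1))
    (allB (fun i =>
      and (Nat.ble (dv1 (fld 1 GT1 m) (fld 1 HT1 m) β γ i) (sv1 m (lb1 m β γ i) + 1))
        (Nat.ble (sv1 m (lb1 m β γ i)) (dv1 (fld 1 GT1 m) (fld 1 HT1 m) β γ i + 1))) 6)

theorem ok1_all : ∀ m < 10, ∀ β < 4, ∀ γ < 4, γ % 2 = 1 → ok1 m β γ = true := by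
  decide +kernel

theorem full1_eq : T4 1 ×ˢ (univ : Finset Bool) = (range 6).image tok1 := by
  decide +kernel

theorem full1_card : (T4 1 ×ˢ (univ : Finset Bool)).card = 6 := by
  decide +kernel

/-- the cell for `ε > 0`, one digit -/
def m1P (a c : Nat) : Nat := if a = 1 then 0 else if c = 1 then 2 else 1

/-- the cell for `ε < 0`, one digit -/
def m1M (a c : Nat) : Nat :=
  if a ≤ 4 then 3 + (if a = 1 then 0 else if a ≤ 3 then 1 else 2)
  else if c ≤ 4 then 7 + (if c = 1 then 0 else if c ≤ 3 then 1 else 2) else 6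

/-- check of one cell for `ε > 0`, one digit -/
def ck1P (a c : Nat) : Bool :=
  decide (m1P a c < 10) && decide (fld 1 GT1 (m1P a c) = 1) && decide (fld 1 HT1 (m1P a c) = 0) &&
    allB (fun i => decide (((sv1 (m1P a c) i : Nat) : Int) = 2 * (tok1 i).1 +
      psi a c (tok1 i).1 + (if (tok1 i).2 then 1 else 0) + 4)) 6

/-- check of one cell for `ε < 0`, one digit -/
def ck1M (a c : Nat) : Bool :=
  decide (m1M a c < 10) && decide ((fld 1 GT1 (m1M a c) : Int) - 1 = psi a c (-4)) &&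
    decide ((fld 1 HT1 (m1M a c) : Int) = psi a c 4) &&
    allB (fun i => decide (((sv1 (m1M a c) i : Nat) : Int) = 2 * (tok1 i).1 +
      psi a c (uM (tok1 i).1 (tok1 i).2) + (if (tok1 i).2 then 1 else 0) + 4)) 6

theorem ck1P_all : swp ck1P 6 = true := by
  decide +kernel

theorem ck1M_all : swp ck1M 17 = true := by
  decide +kernel

theorem cell1P {a c : Nat} (ha : a < 7) (hc : c < 7) (ha1 : 1 ≤ a) (hc1 : 1 ≤ c)
    (hac : a = 6 ∨ c = 6) :
    m1P a c < 10 ∧ fld 1 GT1 (m1P a c) = 1 ∧ fld 1 HT1 (m1P a c) = 0 ∧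
    ∀ i < 6, ((sv1 (m1P a c) i : Nat) : Int) = 2 * (tok1 i).1 + psi a c (tok1 i).1 +
      (if (tok1 i).2 then 1 else 0) + 4 := by
  have h := swp_spec ck1P_all ha hc ha1 hc1 hac
  unfold ck1P at h
  simp only [Bool.and_eq_true, decide_eq_true_eq] at h
  obtain ⟨⟨⟨h1, h2⟩, h3⟩, h4⟩ := h
  exact ⟨h1, h2, h3, fun i hi => of_decide_eq_true (allB_spec h4 i hi)⟩

theorem cell1M {a c : Nat} (ha : a < 18) (hc : c < 18) (ha1 : 1 ≤ a) (hc1 : 1 ≤ c)
    (hac : a = 17 ∨ c = 17) :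
    m1M a c < 10 ∧ (fld 1 GT1 (m1M a c) : Int) - 1 = psi a c (-4) ∧
    (fld 1 HT1 (m1M a c) : Int) = psi a c 4 ∧
    ∀ i < 6, ((sv1 (m1M a c) i : Nat) : Int) = 2 * (tok1 i).1 +
      psi a c (uM (tok1 i).1 (tok1 i).2) + (if (tok1 i).2 then 1 else 0) + 4 := by
  have h := swp_spec ck1M_all ha hc ha1 hc1 hac
  unfold ck1M at h
  simp only [Bool.and_eq_true, decide_eq_true_eq] at h
  obtain ⟨⟨⟨h1, h2⟩, h3⟩, h4⟩ := h
  exact ⟨h1, h2, h3, fun i hi => of_decide_eq_true (allB_spec h4 i hi)⟩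

theorem tok1_abs : ∀ i < 6, |(tok1 i).1| ≤ 5 ∧ |uM (tok1 i).1 (tok1 i).2| ≤ 16 := by
  decide +kernel

/-- the integer behind demand `t`, one digit -/
def dz1 (g h b c : Int) (t : Int × Bool) : Int :=
  if t.2 then (b + g) + 4 - ((b + g) + c * t.1) % 4 else (b + h) - ((b + h) + c * t.1) % 4

theorem dv1_spec {b c : Int} {β γ g h : Nat} (hb : b % 4 = β) (hc : c % 4 = γ) {i : Nat} :
    ((dv1 g h β γ i : Nat) : Int) = dz1 ((g : Int) - 1) h b c (tok1 i) - b + 4 := by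
  obtain ⟨t, ht⟩ : ∃ t, b = 4 * t + β := ⟨b / 4, by omega⟩
  obtain ⟨u, hu⟩ : ∃ u, c = 4 * u + γ := ⟨c / 4, by omega⟩
  unfold dv1 dz1 tok1
  have e1 : Nat.div i 2 = i / 2 := rfl
  have e2 : Nat.mod i 2 = i % 2 := rfl
  rw [e1, e2]
  generalize i / 2 = e
  rcases Nat.mod_two_eq_zero_or_one i with h0 | h0
  · rw [h0]
    have h1 : Nat.beq 0 0 = true := rfl
    rw [h1]
    simp only [cond_true, if_true]
    have h2 : (b + ((g : Int) - 1)) + c * ((e : Nat) - 1 : Int) =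
        ((β + (g + 3) + γ * (e + 3) : Nat) : Int) + 4 * (t - 1 + u * ((e : Int) - 1) - γ) := by
      rw [ht, hu]; push_cast; ring
    rw [h2, Int.add_mul_emod_self_left]
    have h3 : Nat.mod (Nat.add (Nat.add β (Nat.add g 3)) (Nat.mul γ (Nat.add e 3))) 4 =
        (β + (g + 3) + γ * (e + 3)) % 4 := rfl
    rw [h3]
    have h4 : ((β + (g + 3) + γ * (e + 3)) % 4 : Nat) < 4 := Nat.mod_lt _ (by norm_num)
    have h5 : Nat.sub (Nat.add 7 g) ((β + (g + 3) + γ * (e + 3)) % 4) =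
        7 + g - (β + (g + 3) + γ * (e + 3)) % 4 := rfl
    rw [h5]
    omega
  · rw [h0]
    have h1 : Nat.beq 1 0 = false := rfl
    rw [h1]
    simp only [cond_false]
    rw [if_neg (by decide)]
    have h2 : (b + (h : Int)) + c * ((e : Nat) - 1 : Int) =
        ((β + h + γ * (e + 3) : Nat) : Int) + 4 * (t + u * ((e : Int) - 1) - γ) := by
      rw [ht, hu]; push_cast; ring
    rw [h2, Int.add_mul_emod_self_left]
    have h3 : Nat.mod (Nat.add (Nat.add β h) (Nat.mul γ (Nat.add e 3))) 4 =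
        (β + h + γ * (e + 3)) % 4 := rfl
    rw [h3]
    have h4 : ((β + h + γ * (e + 3)) % 4 : Nat) < 4 := Nat.mod_lt _ (by norm_num)
    have h5 : Nat.sub (Nat.add 4 h) ((β + h + γ * (e + 3)) % 4) =
        4 + h - (β + h + γ * (e + 3)) % 4 := rfl
    rw [h5]
    omega

theorem Ln1_of {x : Int} (h1 : -1 ≤ x) (h2 : x ≤ 1) : Ln 1 x := by
  refine C52C.mem_T4.1 ?_
  have h3 : x = -1 ∨ x = 0 ∨ x = 1 := by omega
  rcases h3 with h | h | h <;> rw [h] <;> decide +kernel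

open scoped Classical in
theorem hall1_of_ok (A : Finset (Int × Bool)) (hA : A = (range 6).image tok1) (hAc : A.card = 6)
    {m β γ : Nat} (H : ok1 m β γ = true) {b c : Int} (hb : b % 4 = β)
    (hc : c % 4 = γ) (R : Int × Bool → Int × Bool → Prop) (sz : Int × Bool → Int)
    (hs : ∀ i < 6, ((sv1 m i : Nat) : Int) = sz (tok1 i) - b + 4)
    (hR : ∀ s t, Ln 1 (dz1 ((fld 1 GT1 m : Int) - 1) (fld 1 HT1 m) b c t - sz s) → R s t)
    (D : Finset (Int × Bool)) (hD : D ⊆ A) :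
    D.card ≤ (filter (fun s => ∃ t ∈ D, R s t) A).card := by
  unfold ok1 at H
  rw [Bool.and_eq_true] at H
  have hq := cov_full H.1
  have hE := allB_spec H.2
  have hql : ∀ i < 6, lb1 m β γ i < 6 := by
    intro i hi
    by_contra hge
    have h1 : (range 6) ⊆ ((range 6).erase i).image (lb1 m β γ) := by
      intro j hj
      obtain ⟨i', hi', h2⟩ := hq j (mem_range.1 hj)
      refine mem_image.2 ⟨i', mem_erase.2 ⟨?_, mem_range.2 hi'⟩, h2⟩
      rintro rfl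
      have := mem_range.1 hj
      omega
    have h2 := card_le_card h1
    have h3 := card_image_le (s := (range 6).erase i) (f := lb1 m β γ)
    rw [card_erase_of_mem (mem_range.2 hi)] at h3
    simp only [card_range] at h2 h3
    omega
  have hB : A = (range 6).image (fun i => tok1 (lb1 m β γ i)) := by
    rw [hA]
    ext u
    simp only [mem_image, mem_range]
    constructor
    · rintro ⟨j, hj, rfl⟩
      obtain ⟨i, hi, h2⟩ := hq j hj
      exact ⟨i, hi, by rw [h2]⟩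
    · rintro ⟨i, hi, rfl⟩
      exact ⟨lb1 m β γ i, hql i hi, rfl⟩
  have k1 : ∀ i < 6, R (tok1 (lb1 m β γ i)) (tok1 i) := by
    intro i hi
    have h1 := hE i hi
    rw [Bool.and_eq_true] at h1
    have h2 := Nat.le_of_ble_eq_true h1.1
    have h3 := Nat.le_of_ble_eq_true h1.2
    have h4 := dv1_spec (g := fld 1 GT1 m) (h := fld 1 HT1 m) hb hc (i := i)
    have h5 := hs _ (hql i hi)
    refine hR _ _ (Ln1_of ?_ ?_)
    · omega
    · omega
  exact (core_card 6 tok1 (fun i => tok1 (lb1 m β γ i)) A A hA hB hAc hAc (fun t s => R s t)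
    k1 D hD).1

theorem locN1 (c : Int) (hc : Odd c) (ε μ : ℝ) (hs : Side ε μ) : LocN1 c ε μ := by
  intro F D hD
  obtain ⟨β, hβ⟩ : ∃ β : ℕ, ⌊F⌋ % 4 = β := ⟨(⌊F⌋ % 4).toNat, by omega⟩
  obtain ⟨γ, hγ⟩ : ∃ γ : ℕ, c % 4 = γ := ⟨(c % 4).toNat, by omega⟩
  have hβ' : β < 4 := by omega
  have hγ' : γ < 4 := by omega
  have hγ1 : γ % 2 = 1 := by
    obtain ⟨d, hd⟩ := hc
    omega
  have key : ∀ m < 10, (∀ i < 6, ((sv1 m i : Nat) : Int) =
      (2 * (tok1 i).1 + ⌊F + ε * (tok1 i).1 + off μ (tok1 i).2⌋) - ⌊F⌋ + 4) →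
      ⌊F - 4 ^ 1 * μ⌋ = ⌊F⌋ + ((fld 1 GT1 m : Int) - 1) →
      ⌊F + 4 ^ 1 * μ⌋ = ⌊F⌋ + (fld 1 HT1 m : Int) →
      D.card ≤ (nbN 1 c ε μ F D).card := by
    intro m hm h1 h2 h3
    refine hall1_of_ok (T4 1 ×ˢ (univ : Finset Bool)) full1_eq full1_card
      (ok1_all m hm β hβ' γ hγ' hγ1) hβ hγ (LoN 1 c ε μ F)
      (fun s => 2 * s.1 + ⌊F + ε * s.1 + off μ s.2⌋) h1
      (fun s t h => ?_) D hD
    unfold LoN
    have h4 := demand_eq 1 F μ c t _ _ h2 h3
    unfold dz1 at h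
    have h5 : (4 : Int) ^ 1 = 4 := by norm_num
    rw [h5] at h4
    have h6 : (4 : Int) ^ 1 * ⌊(F + c * t.1) / 4 ^ 1 + off μ t.2⌋
        - ⌊F + ε * s.1 + off μ s.2⌋ - c * t.1 - 2 * s.1 =
        (4 * ⌊(F + c * t.1) / 4 ^ 1 + off μ t.2⌋ - c * t.1) -
          (2 * s.1 + ⌊F + ε * s.1 + off μ s.2⌋) := by
      rw [h5]; ring
    rw [h6, h4]
    exact h
  rcases hs with ⟨h0, h1, h2⟩ | ⟨h0, h1, h2⟩
  · obtain ⟨a, c', ha1, ha2, hc1, hc2, hac, hpr⟩ := prof F ε 5 h0 (by push_cast; linarith)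
    obtain ⟨hm, hG, hH, hS⟩ := cell1P (a := a) (c := c') (by omega) (by omega) ha1 hc1 hac
    refine key (m1P a c') hm ?_ ?_ ?_
    · intro i hi
      rw [hS i hi, h2]
      have h3 := hpr (tok1 i).1 (by have := (tok1_abs i hi).1; exact_mod_cast this)
      rw [supply_P F ε (tok1 i) _ h3]
      ring
    · rw [hG, h2]; simp
    · rw [hH, h2]; simp
  · have hμ : 0 < μ := by rw [h2]; linarith
    obtain ⟨a, c', ha1, ha2, hc1, hc2, hac, hpr⟩ := prof F μ 16 hμ (by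
      push_cast; rw [h2]; linarith)
    obtain ⟨hm, hG, hH, hS⟩ := cell1M (a := a) (c := c') (by omega) (by omega) ha1 hc1 hac
    refine key (m1M a c') hm ?_ ?_ ?_
    · intro i hi
      rw [hS i hi]
      have h3 := hpr (uM (tok1 i).1 (tok1 i).2) (by
        have := (tok1_abs i hi).2; exact_mod_cast this)
      rw [supply_M F ε μ h2 (tok1 i) _ h3]
      ring
    · rw [hG, ← hpr (-4) (by norm_num)]
      congr 1
      push_cast
      ring
    · rw [hH, ← hpr 4 (by norm_num)]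
      congr 1
      push_cast
      ring

end Pool.Agent.Lib.MP_c52340_nt.Near2L
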