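import Pool.Agent.Lib.MP_c52340_nt.HallGap

/-!
Counting functions of two-valued tokens: token `(i, j)` sits at `c i`, or `δ` lower when `j < h i`.
-/

set_option autoImplicit false

namespace Pool.Agent.Lib.MP_c52340_nt.Near

/-- number of the `n` tokens (of which `h` sit at `c - δ` and the others at `c`) at most `q` -/
def cF (n : ℕ) (δ : ℤ) (c : ℤ) (h : ℕ) (q : ℤ) : ℕ :=
  if c ≤ q then n else if c - δ ≤ q then h else 0

theorem card_lt (n h : ℕ) (hh : h ≤ n) :
    ((Finset.univ : Finset (Fin n)).filter (fun j => j.1 < h)).card = h := by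
  rw [Fin.card_filter_val_lt]
  exact min_eq_right hh

theorem card_cF (n : ℕ) (δ c : ℤ) (hδ : 0 < δ) (h : ℕ) (hh : h ≤ n) (q : ℤ) :
    ((Finset.univ : Finset (Fin n)).filter
      (fun j => c - (if j.1 < h then δ else 0) ≤ q)).card = cF n δ c h q := by
  unfold cF
  split_ifs with h1 h2
  · rw [Finset.filter_true_of_mem]
    · simp
    · intro j _
      split_ifs <;> omega
  · have : ((Finset.univ : Finset (Fin n)).filter
      (fun j => c - (if j.1 < h then δ else 0) ≤ q)) =
        (Finset.univ : Finset (Fin n)).filter (fun j => j.1 < h) := by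
      ext j
      simp only [Finset.mem_filter, Finset.mem_univ, true_and]
      split_ifs with h3
      · simp [h3, h2]
      · simp only [h3, iff_false]
        omega
    rw [this, card_lt n h hh]
  · rw [Finset.card_eq_zero, Finset.filter_eq_empty_iff]
    intro j _
    split_ifs <;> omega

theorem card_fam {n : ℕ} (δ : ℤ) (hδ : 0 < δ) (c : Fin 3 → ℤ) (h : Fin 3 → ℕ)
    (hh : ∀ i, h i ≤ n) (q : ℤ) :
    ((Finset.univ : Finset (Fin 3 × Fin n)).filter
      (fun p => c p.1 - (if p.2.1 < h p.1 then δ else 0) ≤ q)).card =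
        cF n δ (c 0) (h 0) q + cF n δ (c 1) (h 1) q + cF n δ (c 2) (h 2) q := by
  classical
  rw [Finset.card_eq_sum_ones, Finset.sum_filter, Fintype.sum_prod_type, Fin.sum_univ_three]
  simp only
  have key : ∀ i : Fin 3, (∑ j : Fin n, if c i - (if j.1 < h i then δ else 0) ≤ q then 1 else 0) =
      cF n δ (c i) (h i) q := by
    intro i
    rw [← Finset.sum_filter, ← Finset.card_eq_sum_ones]
    exact card_cF n δ (c i) hδ (h i) (hh i) q
  rw [key 0, key 1, key 2]

/-- the cut inequalities at the place `q`; `T` is the number of tokens -/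
def CutAt (T : ℕ) (q0 : ℤ) (FS FD : ℤ → ℕ) (q : ℤ) : Prop :=
  (FS q = T → T ≤ FD (q + 1)) ∧ (FS q = 0 → FD (q - 1) = 0) ∧
  (0 < FS q → FS q < T → FS q ≤ FD (q + 1) ∧ FD (q - 1) ≤ FS q) ∧
  (0 < FS q → FS q < T → q ≠ q0 → FS q < FD (q + 1)) ∧
  (0 < FS q → FS q < T → q ≠ q0 + 1 → FD (q - 1) < FS q)

end Pool.Agent.Lib.MP_c52340_nt.Near
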