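import Pool.Agent.Lib.MP_c52340_nt.NearP
import Pool.Agent.Lib.MP_c52340_nt.TokF

/-!
`k / 4 ^ l` slightly above `2`: the number of tokens is `O(1 + |log (k / 4 ^ l - 2)|)`.
-/

set_option autoImplicit false

namespace Pool.Agent.Lib.MP_c52340_nt.Near

open Pool.Agent.Lib.MP_c52340_nt Pool.Agent.Lib.MP_c52340_nt.Tok C52C Finset

theorem bsh_near_N {k : ℤ} (hk : k % 2 = 1) {m N : ℕ} {κ : ℝ} (hκ : κ * 4 ^ (m + 2) = k)
    (h1 : 2 < κ) (h2 : κ ≤ 33 / 16) (hN : 0 < N) (hN2 : 1 / 4 ≤ (κ - 2) * 4 ^ N) :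
    BSH T4 2 m (RbG k (qP κ (κ - 2) N) 2 m) := by
  have he : 0 < κ - 2 := by linarith
  have he' : κ - 2 ≤ 1 / 16 := by linarith
  refine glue (BadX κ (κ - 2)) (by rw [Fintype.card_fin]; omega) ?_ ?_
  · intro X _ D hD hne hnf
    exact local2 hk hκ he he' (by ring) hN hN2 X hD hne hnf
  · intro X _
    exact exists_good hk hκ he' X

theorem exists_N {e : ℝ} (he : 0 < e) (he' : e ≤ 1 / 16) :
    ∃ N : ℕ, 0 < N ∧ 1 / 4 ≤ e * 4 ^ N ∧ (N : ℝ) ≤ |Real.log e| := by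
  classical
  have hex : ∃ N : ℕ, 1 / 4 ≤ e * 4 ^ N := by
    obtain ⟨N, hN⟩ := pow_unbounded_of_one_lt (1 / e) (by norm_num : (1 : ℝ) < 4)
    refine ⟨N, ?_⟩
    have h1 : 1 < 4 ^ N * e := (div_lt_iff₀ he).1 hN
    linarith
  obtain ⟨N, hN, hmin⟩ : ∃ N : ℕ, 1 / 4 ≤ e * 4 ^ N ∧ ∀ i < N, e * 4 ^ i < 1 / 4 := by
    refine ⟨Nat.find hex, Nat.find_spec hex, fun i hi => ?_⟩
    have := Nat.find_min hex hi
    push Not at this
    exact this
  have hN0 : N ≠ 0 := by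
    rintro rfl
    rw [pow_zero, mul_one] at hN
    linarith
  obtain ⟨i, rfl⟩ := Nat.exists_eq_succ_of_ne_zero hN0
  refine ⟨i + 1, by omega, hN, ?_⟩
  have h3 := hmin i (by omega)
  have h5 : Real.log e + (i : ℝ) * Real.log 4 < - Real.log 4 := by
    rw [← Real.log_pow, ← Real.log_mul he.ne' (by positivity), ← Real.log_inv]
    apply Real.log_lt_log (by positivity)
    linarith
  have h6 : 1 ≤ Real.log 4 := by
    rw [show (4 : ℝ) = 2 ^ 2 by norm_num, Real.log_pow]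
    have := Real.log_two_gt_d9
    push_cast
    linarith
  have h7 : ((i : ℝ) + 1) ≤ (i + 1) * Real.log 4 := by
    have : (0 : ℝ) ≤ i := Nat.cast_nonneg i
    nlinarith
  have h8 : -Real.log e ≤ |Real.log e| := neg_le_abs _
  push_cast
  linarith

/-- `k / 4 ^ l` in `(2, 33 / 16]` -/
theorem good_P {k : ℤ} (hk : Odd k) {l : ℕ} (hl : 3 ≤ l) (h1 : (2 : ℝ) < k / 4 ^ l)
    (h2 : (k : ℝ) / 4 ^ l ≤ 33 / 16) : Good 10 k (1 + abs (Real.log |(k : ℝ) / 4 ^ l - 2|)) := by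
  have hkm : (k : ℝ) / 4 ^ l * 4 ^ (l - 2 + 2) = k := by
    rw [show l - 2 + 2 = l by omega, div_mul_cancel₀]
    positivity
  obtain ⟨N, hN, hN2, hN3⟩ := exists_N (e := (k : ℝ) / 4 ^ l - 2) (by linarith) (by linarith)
  have hB := bsh_near_N (Int.odd_iff.1 hk) hkm h1 h2 hN hN2
  refine Good_of_BSHG (κ := (k : ℝ) / 4 ^ l) (r := 2) (m := l - 2) (by norm_num) le_rfl
    (by omega) ?_ (by linarith) hB ⟨3, by omega⟩ (qP_zero (by linarith) N _ le_rfl) ?_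
  · rw [add_comm 2 (l - 2)]
    exact hkm
  · rw [Fintype.card_fin, abs_of_pos (show 0 < (k : ℝ) / 4 ^ l - 2 by linarith)]
    push_cast
    have := abs_nonneg (Real.log ((k : ℝ) / 4 ^ l - 2))
    linarith

end Pool.Agent.Lib.MP_c52340_nt.Near
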