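import Mathlib

/-!
The law `2 + e`: the number `HP e N f` of tokens (out of `6 N + 10`) which sit one below the ceiling
when the ceiling exceeds the number by `f`.
-/

set_option autoImplicit false

namespace Pool.Agent.Lib.MP_c52340_nt.Near

open Classical in
/-- the number of thresholds `e 4^m` (`m < N`) at most `f` -/
noncomputable def gl (e : ℝ) (N : ℕ) (f : ℝ) : ℕ :=
  ((Finset.range N).filter (fun m => e * 4 ^ m ≤ f)).card

open Classical in
/-- the number of thresholds `e 4^m` (`m < N`) below `f` -/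
noncomputable def gs (e : ℝ) (N : ℕ) (f : ℝ) : ℕ :=
  ((Finset.range N).filter (fun m => e * 4 ^ m < f)).card

theorem gl_le (e : ℝ) (N : ℕ) (f : ℝ) : gl e N f ≤ N := by
  unfold gl
  exact (Finset.card_filter_le _ _).trans (by rw [Finset.card_range])

theorem gs_le (e : ℝ) (N : ℕ) (f : ℝ) : gs e N f ≤ N := by
  unfold gs
  exact (Finset.card_filter_le _ _).trans (by rw [Finset.card_range])

theorem gl_mono (e : ℝ) (N : ℕ) {f f' : ℝ} (h : f ≤ f') : gl e N f ≤ gl e N f' := by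
  unfold gl
  apply Finset.card_le_card
  intro m hm
  rw [Finset.mem_filter] at hm ⊢
  exact ⟨hm.1, hm.2.trans h⟩

theorem gs_mono (e : ℝ) (N : ℕ) {f f' : ℝ} (h : f ≤ f') : gs e N f ≤ gs e N f' := by
  unfold gs
  apply Finset.card_le_card
  intro m hm
  rw [Finset.mem_filter] at hm ⊢
  exact ⟨hm.1, hm.2.trans_le h⟩

theorem e_le_pow {e : ℝ} (he : 0 < e) (m : ℕ) : e ≤ e * 4 ^ m := by
  have : (1 : ℝ) ≤ 4 ^ m := one_le_pow₀ (by norm_num)
  nlinarith

theorem gl_zero {e : ℝ} (he : 0 < e) (N : ℕ) {f : ℝ} (h : f < e) : gl e N f = 0 := by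
  unfold gl
  rw [Finset.card_eq_zero, Finset.filter_eq_empty_iff]
  intro m _
  have := e_le_pow he m
  push Not
  linarith

theorem gs_zero {e : ℝ} (he : 0 < e) (N : ℕ) {f : ℝ} (h : f ≤ e) : gs e N f = 0 := by
  unfold gs
  rw [Finset.card_eq_zero, Finset.filter_eq_empty_iff]
  intro m _
  have := e_le_pow he m
  push Not
  linarith

theorem gl_pos {e : ℝ} {N : ℕ} (hN : 0 < N) {f : ℝ} (h : e ≤ f) : 1 ≤ gl e N f := by
  unfold gl
  apply Finset.card_pos.2
  refine ⟨0, ?_⟩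
  rw [Finset.mem_filter, Finset.mem_range]
  refine ⟨hN, ?_⟩
  rw [pow_zero, mul_one]
  exact h

theorem gs_pos {e : ℝ} {N : ℕ} (hN : 0 < N) {f : ℝ} (h : e < f) : 1 ≤ gs e N f := by
  unfold gs
  apply Finset.card_pos.2
  refine ⟨0, ?_⟩
  rw [Finset.mem_filter, Finset.mem_range]
  refine ⟨hN, ?_⟩
  rw [pow_zero, mul_one]
  exact h

/-- growth -/
theorem gl_grow {e : ℝ} {N : ℕ} (he : 0 < e) (hN : 0 < N) (hN2 : 1 / 4 ≤ e * 4 ^ N) {f : ℝ}
    (h1 : e ≤ 4 * f) (h2 : 4 * f < 1 / 4) : gl e N f + 1 ≤ gl e N (4 * f) := by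
  classical
  unfold gl
  have hsub : insert 0 (((Finset.range N).filter (fun m => e * 4 ^ m ≤ f)).map
      ⟨Nat.succ, Nat.succ_injective⟩) ⊆ (Finset.range N).filter (fun m => e * 4 ^ m ≤ 4 * f) := by
    intro m hm
    rw [Finset.mem_insert, Finset.mem_map] at hm
    rw [Finset.mem_filter, Finset.mem_range]
    rcases hm with rfl | ⟨p, hp, rfl⟩
    · refine ⟨hN, ?_⟩
      rw [pow_zero, mul_one]
      exact h1
    · rw [Finset.mem_filter, Finset.mem_range] at hp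
      simp only [Function.Embedding.coeFn_mk]
      have h3 : e * 4 ^ (p.succ) ≤ 4 * f := by
        rw [pow_succ]
        nlinarith [hp.2]
      refine ⟨?_, h3⟩
      by_contra hc
      push Not at hc
      have h4 : (4 : ℝ) ^ N ≤ 4 ^ (p.succ) := pow_le_pow_right₀ (by norm_num) hc
      nlinarith
  have := Finset.card_le_card hsub
  rw [Finset.card_insert_of_notMem, Finset.card_map] at this
  · exact this
  · rw [Finset.mem_map]
    rintro ⟨p, _, hp⟩
    exact Nat.succ_ne_zero p hp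

theorem gs_grow {e : ℝ} {N : ℕ} (he : 0 < e) (hN : 0 < N) (hN2 : 1 / 4 ≤ e * 4 ^ N) {f : ℝ}
    (h1 : e < 4 * f) (h2 : 4 * f ≤ 1 / 4) : gs e N f + 1 ≤ gs e N (4 * f) := by
  classical
  unfold gs
  have hsub : insert 0 (((Finset.range N).filter (fun m => e * 4 ^ m < f)).map
      ⟨Nat.succ, Nat.succ_injective⟩) ⊆ (Finset.range N).filter (fun m => e * 4 ^ m < 4 * f) := by
    intro m hm
    rw [Finset.mem_insert, Finset.mem_map] at hm
    rw [Finset.mem_filter, Finset.mem_range]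
    rcases hm with rfl | ⟨p, hp, rfl⟩
    · refine ⟨hN, ?_⟩
      rw [pow_zero, mul_one]
      exact h1
    · rw [Finset.mem_filter, Finset.mem_range] at hp
      simp only [Function.Embedding.coeFn_mk]
      have h3 : e * 4 ^ (p.succ) < 4 * f := by
        rw [pow_succ]
        nlinarith [hp.2]
      refine ⟨?_, h3⟩
      by_contra hc
      push Not at hc
      have h4 : (4 : ℝ) ^ N ≤ 4 ^ (p.succ) := pow_le_pow_right₀ (by norm_num) hc
      nlinarith
  have := Finset.card_le_card hsub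
  rw [Finset.card_insert_of_notMem, Finset.card_map] at this
  · exact this
  · rw [Finset.mem_map]
    rintro ⟨p, _, hp⟩
    exact Nat.succ_ne_zero p hp

/-- the law on `[0, 1/2)`, right-continuous -/
noncomputable def lo (e : ℝ) (N : ℕ) (f : ℝ) : ℕ :=
  if f < 3 / 16 then 3 * (1 + gl e N f) else if f < 1 / 4 - e / 4 then 3 * N + 3 else
  if f < 1 / 4 then 3 * N + 5 else if f < 1 / 4 + e / 4 then 3 * N + 4 else 3 * N + 5

/-- the law on `(0, 1/2]`, left-continuous -/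
noncomputable def lc (e : ℝ) (N : ℕ) (f : ℝ) : ℕ :=
  if f ≤ 3 / 16 then 3 * (1 + gs e N f) else if f ≤ 1 / 4 - e / 4 then 3 * N + 3 else
  if f ≤ 1 / 4 then 3 * N + 5 else if f ≤ 1 / 4 + e / 4 then 3 * N + 4 else 3 * N + 5

/-- the law -/
noncomputable def HP (e : ℝ) (N : ℕ) (f : ℝ) : ℕ :=
  if f < 1 / 2 then lo e N f else 6 * N + 10 - lc e N (1 - f)

theorem lo_le (e : ℝ) (N : ℕ) (f : ℝ) : lo e N f ≤ 3 * N + 5 := by
  unfold lo
  have := gl_le e N f
  split_ifs <;> omega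

theorem lc_le (e : ℝ) (N : ℕ) (f : ℝ) : lc e N f ≤ 3 * N + 5 := by
  unfold lc
  have := gs_le e N f
  split_ifs <;> omega

theorem lo_ge (e : ℝ) (N : ℕ) (f : ℝ) : 3 ≤ lo e N f := by
  unfold lo
  split_ifs <;> omega

theorem lc_ge (e : ℝ) (N : ℕ) (f : ℝ) : 3 ≤ lc e N f := by
  unfold lc
  split_ifs <;> omega

/-- `lo f` is at least `3 (1 + g f')` when `f' ≤ f` -/
theorem lo_ge' (e : ℝ) (N : ℕ) {f f' : ℝ} (h : f' ≤ f) : 3 * (1 + gl e N f') ≤ lo e N f := by
  unfold lo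
  have h1 := gl_le e N f'
  have h2 := gl_mono e N h
  split_ifs <;> omega

theorem lc_ge' (e : ℝ) (N : ℕ) {f f' : ℝ} (h : f' ≤ f) : 3 * (1 + gs e N f') ≤ lc e N f := by
  unfold lc
  have h1 := gs_le e N f'
  have h2 := gs_mono e N h
  split_ifs <;> omega

theorem HP_le (e : ℝ) (N : ℕ) (f : ℝ) : HP e N f ≤ 6 * N + 10 := by
  unfold HP
  have := lo_le e N f
  split_ifs <;> omega

theorem HP_lo {e : ℝ} {N : ℕ} {f : ℝ} (h : f < 1 / 2) : HP e N f = lo e N f := if_pos h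

theorem HP_lc {e : ℝ} {N : ℕ} {f : ℝ} (h : 1 / 2 ≤ f) : HP e N f = 6 * N + 10 - lc e N (1 - f) :=
  if_neg (by linarith)

/-- range `w < e` -/
theorem facts1 {e w : ℝ} {N : ℕ} (he : 0 < e) (he' : e ≤ 1 / 16) (hN : 0 < N) (hw0 : 0 ≤ w)
    (hw : w < e) :
    HP e N (w / 4) = 3 ∧ HP e N ((1 + w) / 4) = 3 * N + 4 ∧ HP e N ((2 + w) / 4) = 3 * N + 5 ∧
    HP e N ((3 + w) / 4) = 3 * N + 5 ∧ HP e N w = 3 ∧ 6 ≤ HP e N (w + e) ∧
    HP e N (w + e) ≤ 3 * N + 5 ∧ HP e N (1 + w - e) = 6 * N + 7 := by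
  refine ⟨?_, ?_, ?_, ?_, ?_, ?_, ?_, ?_⟩
  · rw [HP_lo (by linarith), lo, if_pos (by linarith), gl_zero he N (by linarith)]
  · rw [HP_lo (by linarith), lo, if_neg (by linarith), if_neg (by linarith), if_neg (by linarith),
      if_pos (by linarith)]
  · rw [HP_lc (by linarith), lc, if_neg (by linarith), if_neg (by linarith), if_neg (by linarith),
      if_neg (by linarith)]
    omega
  · rw [HP_lc (by linarith), lc, if_neg (by linarith), if_neg (by linarith), if_pos (by linarith)]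
    omega
  · rw [HP_lo (by linarith), lo, if_pos (by linarith), gl_zero he N (by linarith)]
  · rw [HP_lo (by linarith)]
    have h1 := lo_ge' e N (f := w + e) (f' := e) (by linarith)
    have h2 := gl_pos (e := e) hN (le_refl e)
    omega
  · rw [HP_lo (by linarith)]
    exact lo_le _ _ _
  · rw [HP_lc (by linarith), lc, if_pos (by linarith), gs_zero he N (by linarith)]
    omega

/-- range `e ≤ w < 1 / 4` -/
theorem facts2 {e w : ℝ} {N : ℕ} (he : 0 < e) (he' : e ≤ 1 / 16) (hN : 0 < N)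
    (hN2 : 1 / 4 ≤ e * 4 ^ N) (hw0 : e ≤ w) (hw : w < 1 / 4) :
    ∃ a h0 hp hm : ℕ, HP e N (w / 4) = a ∧ HP e N ((1 + w) / 4) = 3 * N + 5 ∧
      HP e N ((2 + w) / 4) = 3 * N + 5 ∧ HP e N ((3 + w) / 4) = 3 * N + 7 ∧ HP e N w = h0 ∧
      HP e N (w + e) = hp ∧ HP e N (w - e) = hm ∧ 3 ≤ a ∧ a ≤ 3 * N + 3 ∧ a + 1 ≤ h0 ∧
      h0 ≤ 3 * N + 5 ∧ a + 1 ≤ hp ∧ hp ≤ 3 * N + 5 ∧ 3 ≤ hm ∧ hm ≤ 3 * N + 5 := by
  have e0 : HP e N (w / 4) = 3 * (1 + gl e N (w / 4)) := by
    rw [HP_lo (by linarith), lo, if_pos (by linarith)]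
  have g1 := gl_grow he hN hN2 (f := w / 4) (by linarith) (by linarith)
  have g2 : 4 * (w / 4) = w := by ring
  rw [g2] at g1
  have g3 := gl_le e N w
  refine ⟨_, _, _, _, rfl, ?_, ?_, ?_, rfl, rfl, rfl, ?_, ?_, ?_, ?_, ?_, ?_, ?_, ?_⟩
  · rw [HP_lo (by linarith), lo, if_neg (by linarith), if_neg (by linarith), if_neg (by linarith),
      if_neg (by linarith)]
  · rw [HP_lc (by linarith), lc, if_neg (by linarith), if_neg (by linarith), if_neg (by linarith),
      if_neg (by linarith)]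
    omega
  · rw [HP_lc (by linarith), lc, if_neg (by linarith), if_pos (by linarith)]
    omega
  · omega
  · omega
  · rw [e0, HP_lo (by linarith)]
    have := lo_ge' e N (f := w) (f' := w) le_rfl
    omega
  · rw [HP_lo (by linarith)]
    exact lo_le _ _ _
  · rw [e0, HP_lo (by linarith)]
    have := lo_ge' e N (f := w + e) (f' := w) (by linarith)
    omega
  · rw [HP_lo (by linarith)]
    exact lo_le _ _ _
  · rw [HP_lo (by linarith)]
    exact lo_ge _ _ _
  · rw [HP_lo (by linarith)]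
    exact lo_le _ _ _

/-- range `1 / 4 ≤ w < 3 / 4` -/
theorem facts3 {e w : ℝ} {N : ℕ} (he : 0 < e) (he' : e ≤ 1 / 16) (hw0 : 1 / 4 ≤ w)
    (hw : w < 3 / 4) :
    ∃ a b h0 hp hm : ℕ, HP e N (w / 4) = a ∧ HP e N ((1 + w) / 4) = 3 * N + 5 ∧
      HP e N ((2 + w) / 4) = 3 * N + 5 ∧ HP e N ((3 + w) / 4) = 6 * N + 10 - b ∧ HP e N w = h0 ∧
      HP e N (w + e) = hp ∧ HP e N (w - e) = hm ∧ 3 ≤ a ∧ a ≤ 3 * N + 3 ∧ 3 ≤ b ∧ b ≤ 3 * N + 3 ∧
      3 * N + 4 ≤ h0 ∧ h0 ≤ 3 * N + 6 ∧ 3 * N + 5 ≤ hp ∧ hp ≤ 3 * N + 7 ∧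
      3 * N + 3 ≤ hm ∧ hm ≤ 3 * N + 5 := by
  have e0 : HP e N (w / 4) = 3 * (1 + gl e N (w / 4)) := by
    rw [HP_lo (by linarith), lo, if_pos (by linarith)]
  have e3 : HP e N ((3 + w) / 4) = 6 * N + 10 - 3 * (1 + gs e N (1 - (3 + w) / 4)) := by
    rw [HP_lc (by linarith), lc, if_pos (by linarith)]
  have g1 := gl_le e N (w / 4)
  have g2 := gs_le e N (1 - (3 + w) / 4)
  refine ⟨_, 3 * (1 + gs e N (1 - (3 + w) / 4)), _, _, _, rfl, ?_, ?_, e3, rfl, rfl, rfl,
    ?_, ?_, ?_, ?_, ?_, ?_, ?_, ?_, ?_, ?_⟩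
  · rw [HP_lo (by linarith), lo, if_neg (by linarith), if_neg (by linarith), if_neg (by linarith),
      if_neg (by linarith)]
  · rw [HP_lc (by linarith), lc, if_neg (by linarith), if_neg (by linarith), if_neg (by linarith),
      if_neg (by linarith)]
    omega
  · omega
  · omega
  · omega
  · omega
  · rcases lt_or_ge w (1 / 2) with h | h
    · rw [HP_lo h, lo, if_neg (by linarith), if_neg (by linarith), if_neg (by linarith)]
      split_ifs <;> omega
    · rw [HP_lc h, lc, if_neg (by linarith), if_neg (by linarith), if_neg (by linarith)]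
      split_ifs <;> omega
  · rcases lt_or_ge w (1 / 2) with h | h
    · rw [HP_lo h, lo, if_neg (by linarith), if_neg (by linarith), if_neg (by linarith)]
      split_ifs <;> omega
    · rw [HP_lc h, lc, if_neg (by linarith), if_neg (by linarith), if_neg (by linarith)]
      split_ifs <;> omega
  · rcases lt_or_ge (w + e) (1 / 2) with h | h
    · rw [HP_lo h, lo, if_neg (by linarith), if_neg (by linarith), if_neg (by linarith),
        if_neg (by linarith)]
    · rw [HP_lc h, lc, if_neg (by linarith)]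
      split_ifs <;> omega
  · rcases lt_or_ge (w + e) (1 / 2) with h | h
    · rw [HP_lo h]
      have := lo_le e N (w + e)
      omega
    · rw [HP_lc h, lc, if_neg (by linarith)]
      split_ifs <;> omega
  · rcases lt_or_ge (w - e) (1 / 2) with h | h
    · rw [HP_lo h, lo, if_neg (by linarith)]
      split_ifs <;> omega
    · rw [HP_lc h, lc, if_neg (by linarith), if_neg (by linarith), if_neg (by linarith),
        if_neg (by linarith)]
      omega
  · rcases lt_or_ge (w - e) (1 / 2) with h | h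
    · rw [HP_lo h]
      exact lo_le _ _ _
    · rw [HP_lc h, lc, if_neg (by linarith), if_neg (by linarith), if_neg (by linarith),
        if_neg (by linarith)]
      omega

/-- range `3 / 4 ≤ w < 1 - e` -/
theorem facts4 {e w : ℝ} {N : ℕ} (he : 0 < e) (he' : e ≤ 1 / 16) (hN : 0 < N)
    (hN2 : 1 / 4 ≤ e * 4 ^ N) (hw0 : 3 / 4 ≤ w) (hw : w < 1 - e) :
    ∃ b B0 Bp Bm : ℕ, HP e N (w / 4) = 3 * N + 3 ∧ HP e N ((1 + w) / 4) = 3 * N + 5 ∧
      HP e N ((2 + w) / 4) = 3 * N + 5 ∧ HP e N ((3 + w) / 4) = 6 * N + 10 - b ∧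
      HP e N w = 6 * N + 10 - B0 ∧ HP e N (w + e) = 6 * N + 10 - Bp ∧
      HP e N (w - e) = 6 * N + 10 - Bm ∧ 3 ≤ b ∧ b ≤ 3 * N + 3 ∧ b + 1 ≤ B0 ∧
      B0 ≤ 3 * N + 5 ∧ b + 1 ≤ Bm ∧ Bm ≤ 3 * N + 5 ∧ 3 ≤ Bp ∧ Bp ≤ 3 * N + 5 := by
  have e3 : HP e N ((3 + w) / 4) = 6 * N + 10 - 3 * (1 + gs e N ((1 - w) / 4)) := by
    rw [HP_lc (by linarith), lc, if_pos (by linarith)]
    congr 4
    ring
  have g1 := gs_grow he hN hN2 (f := (1 - w) / 4) (by linarith) (by linarith)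
  have g2 : 4 * ((1 - w) / 4) = 1 - w := by ring
  rw [g2] at g1
  have g3 := gs_le e N (1 - w)
  refine ⟨3 * (1 + gs e N ((1 - w) / 4)), lc e N (1 - w), lc e N (1 - (w + e)),
    lc e N (1 - (w - e)), ?_, ?_, ?_, e3, ?_, ?_, ?_, ?_, ?_, ?_, ?_, ?_, ?_, ?_, ?_⟩
  · rw [HP_lo (by linarith), lo, if_neg (by linarith), if_pos (by linarith)]
  · rw [HP_lo (by linarith), lo, if_neg (by linarith), if_neg (by linarith), if_neg (by linarith),
      if_neg (by linarith)]
  · rw [HP_lc (by linarith), lc, if_neg (by linarith), if_neg (by linarith), if_neg (by linarith),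
      if_neg (by linarith)]
    omega
  · rw [HP_lc (by linarith)]
  · rw [HP_lc (by linarith)]
  · rw [HP_lc (by linarith)]
  · omega
  · omega
  · have := lc_ge' e N (f := 1 - w) (f' := 1 - w) le_rfl
    omega
  · exact lc_le _ _ _
  · have := lc_ge' e N (f := 1 - (w - e)) (f' := 1 - w) (by linarith)
    omega
  · exact lc_le _ _ _
  · exact lc_ge _ _ _
  · exact lc_le _ _ _

/-- range `1 - e ≤ w` -/
theorem facts5 {e w : ℝ} {N : ℕ} (he : 0 < e) (he' : e ≤ 1 / 16) (hN : 0 < N) (hw0 : 1 - e ≤ w)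
    (hw : w < 1) :
    ∃ Bm : ℕ, HP e N (w / 4) = 3 * N + 5 ∧ HP e N ((1 + w) / 4) = 3 * N + 5 ∧
    HP e N ((2 + w) / 4) = 3 * N + 6 ∧ HP e N ((3 + w) / 4) = 6 * N + 7 ∧ HP e N w = 6 * N + 7 ∧
    HP e N (w - e) = 6 * N + 10 - Bm ∧ 6 ≤ Bm ∧ Bm ≤ 3 * N + 5 ∧ HP e N (w + e - 1) = 3 := by
  refine ⟨lc e N (1 - (w - e)), ?_, ?_, ?_, ?_, ?_, ?_, ?_, ?_, ?_⟩
  · rw [HP_lo (by linarith), lo, if_neg (by linarith), if_neg (by linarith), if_pos (by linarith)]
  · rw [HP_lo (by linarith), lo, if_neg (by linarith), if_neg (by linarith), if_neg (by linarith),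
      if_neg (by linarith)]
  · rw [HP_lc (by linarith), lc, if_neg (by linarith), if_neg (by linarith), if_neg (by linarith),
      if_pos (by linarith)]
    omega
  · rw [HP_lc (by linarith), lc, if_pos (by linarith), gs_zero he N (by linarith)]
    omega
  · rw [HP_lc (by linarith), lc, if_pos (by linarith), gs_zero he N (by linarith)]
    omega
  · rw [HP_lc (by linarith)]
  · have h1 := lc_ge' e N (f := 1 - (w - e)) (f' := 1 - (w - e)) le_rfl
    have h2 := gs_pos (e := e) hN (f := 1 - (w - e)) (by linarith)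
    omega
  · exact lc_le _ _ _
  · rw [HP_lo (by linarith), lo, if_pos (by linarith), gl_zero he N (by linarith)]

end Pool.Agent.Lib.MP_c52340_nt.Near
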