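import Pool.Agent.Lib.MP_c52340_nt.NearNum
import Pool.Agent.Lib.MP_c52340_nt.Glue

/-!
From cut inequalities to the one-digit hypothesis of `C52C.glue`.
-/

set_option autoImplicit false

namespace Pool.Agent.Lib.MP_c52340_nt.Near

open Pool.Agent.Lib.MP_c52340_nt Pool.Agent.Lib.MP_c52340_nt.Tok C52C Finset

/-- the digits -/
def dd : Fin 3 → ℤ := ![0, 1, -1]

theorem dd_inj : Function.Injective dd := by
  intro i j h
  fin_cases i <;> fin_cases j <;> simp [dd] at h ⊢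

theorem dig_dd (i : Fin 3) : dd i = -1 ∨ dd i = 0 ∨ dd i = 1 := by
  fin_cases i <;> simp [dd]

theorem dd_mem (i : Fin 3) : dd i ∈ T4 1 := by
  have h := mem_T4_succ (n := 0) (x := dd i)
  rw [zero_add] at h
  rw [h]
  exact ⟨0, by simp [T4], dd i, dig_dd i, by simp⟩

theorem mem_T4_one {x : ℤ} (hx : x ∈ T4 1) : ∃ i, x = dd i := by
  have h := mem_T4_succ (n := 0) (x := x)
  rw [zero_add] at h
  rw [h] at hx
  obtain ⟨y, hy, e, he, rfl⟩ := hx
  have hy0 : y = 0 := by simpa [T4] using hy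
  subst hy0
  rcases he with rfl | rfl | rfl
  · exact ⟨2, by simp [dd]⟩
  · exact ⟨0, by simp [dd]⟩
  · exact ⟨1, by simp [dd]⟩

open Classical in
/-- the tokens over `Fin 3 × Fin n` of a set of tokens -/
noncomputable def pull {n : ℕ} (D : Finset (ℤ × Fin n)) : Finset (Fin 3 × Fin n) :=
  univ.filter (fun p => (dd p.1, p.2) ∈ D)

theorem mem_pull {n : ℕ} {D : Finset (ℤ × Fin n)} {p : Fin 3 × Fin n} :
    p ∈ pull D ↔ (dd p.1, p.2) ∈ D := by
  unfold pull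
  simp

theorem card_pull {n : ℕ} {D : Finset (ℤ × Fin n)} (hD : D ⊆ T4 1 ×ˢ (univ : Finset (Fin n))) :
    (pull D).card = D.card := by
  classical
  have h : (pull D).map ⟨fun p : Fin 3 × Fin n => ((dd p.1, p.2) : ℤ × Fin n), by
      intro p r h
      have h1 := (Prod.mk.inj h).1
      have h2 := (Prod.mk.inj h).2
      exact Prod.ext (dd_inj h1) h2⟩ = D := by
    ext ⟨x, j⟩
    rw [Finset.mem_map]
    constructor
    · rintro ⟨p, hp, h⟩
      rw [mem_pull] at hp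
      have h' : ((dd p.1, p.2) : ℤ × Fin n) = (x, j) := h
      rw [← h']
      exact hp
    · intro hx
      obtain ⟨i, rfl⟩ := mem_T4_one (Finset.mem_product.mp (hD hx)).1
      exact ⟨(i, j), mem_pull.2 hx, rfl⟩
  rw [← Finset.card_map, h]

section

variable {n : ℕ} {k : ℤ} {q : ℤ → Fin n → ℤ} {m X A : ℤ} {cs cd : Fin 3 → ℤ} {hs hd : Fin 3 → ℕ}

/-- position of a supply token, relative to `A` -/
def ps (cs : Fin 3 → ℤ) (hs : Fin 3 → ℕ) (p : Fin 3 × Fin n) : ℤ :=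
  cs p.1 - (if p.2.1 < hs p.1 then 1 else 0)

/-- position of a demand token, relative to `A` -/
def pd (cd : Fin 3 → ℤ) (hd : Fin 3 → ℕ) (p : Fin 3 × Fin n) : ℤ :=
  cd p.1 - (if p.2.1 < hd p.1 then 4 else 0)

theorem rb_iff {m : ℕ}
    (hsup : ∀ i j, q (dd i + 4 ^ 1 * X) j = A + ps cs hs (i, j))
    (hdem : ∀ i j, 4 ^ 1 * q (X + 4 ^ m * dd i) j - k * dd i = A + pd cd hd (i, j))
    (p r : Fin 3 × Fin n) :
    RbG k q 1 m X (dd p.1, p.2) (dd r.1, r.2) ↔ |pd cd hd r - ps cs hs p| ≤ 1 := by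
  unfold RbG
  rw [ln_one]
  unfold Dig
  have h1 := hsup p.1 p.2
  have h2 := hdem r.1 r.2
  simp only
  rw [h1, h2, abs_le]
  have e1 : ((p.1, p.2) : Fin 3 × Fin n) = p := rfl
  have e2 : ((r.1, r.2) : Fin 3 × Fin n) = r := rfl
  rw [e1, e2]
  constructor
  · rintro (h | h | h) <;> constructor <;> linarith
  · rintro ⟨h3, h4⟩
    omega

theorem mem_nbr_iff {m : ℕ}
    (hsup : ∀ i j, q (dd i + 4 ^ 1 * X) j = A + ps cs hs (i, j))
    (hdem : ∀ i j, 4 ^ 1 * q (X + 4 ^ m * dd i) j - k * dd i = A + pd cd hd (i, j))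
    {D : Finset (ℤ × Fin n)} (hD : D ⊆ T4 1 ×ˢ (univ : Finset (Fin n))) (r : Fin 3 × Fin n) :
    ((dd r.1, r.2) : ℤ × Fin n) ∈ nbr T4 1 (RbG k q 1 m) X D ↔
      ∃ p : Fin 3 × Fin n, (dd p.1, p.2) ∈ D ∧ |pd cd hd r - ps cs hs p| ≤ 1 := by
  classical
  unfold nbr
  rw [Finset.mem_filter, Finset.mem_product]
  constructor
  · rintro ⟨_, ⟨x, j⟩, hd, hR⟩
    obtain ⟨i, rfl⟩ := mem_T4_one (Finset.mem_product.mp (hD hd)).1
    exact ⟨(i, j), hd, (rb_iff hsup hdem (i, j) r).1 hR⟩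
  · rintro ⟨p, hp, h⟩
    exact ⟨⟨dd_mem _, Finset.mem_univ _⟩, _, hp, (rb_iff hsup hdem p r).2 h⟩

/-- the local statement -/
theorem loc_of_cuts {m : ℕ}
    (hsup : ∀ i j, q (dd i + 4 ^ 1 * X) j = A + ps cs hs (i, j))
    (hdem : ∀ i j, 4 ^ 1 * q (X + 4 ^ m * dd i) j - k * dd i = A + pd cd hd (i, j))
    (hhs : ∀ i, hs i ≤ n) (hhd : ∀ i, hd i ≤ n) {q0 : ℤ} {FS FD : ℤ → ℕ}
    (hFS : ∀ z, FS z = cF n 1 (cs 0) (hs 0) z + cF n 1 (cs 1) (hs 1) z + cF n 1 (cs 2) (hs 2) z)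
    (hFD : ∀ z, FD z = cF n 4 (cd 0) (hd 0) z + cF n 4 (cd 1) (hd 1) z + cF n 4 (cd 2) (hd 2) z)
    (hcut : ∀ z, CutAt (3 * n) q0 FS FD z) (hgap : FS (q0 + 1) = FS q0)
    {D : Finset (ℤ × Fin n)} (hD : D ⊆ T4 1 ×ˢ (univ : Finset (Fin n))) (hne : D.Nonempty)
    (hnf : D ≠ T4 1 ×ˢ (univ : Finset (Fin n))) :
    D.card + 1 ≤ (nbr T4 1 (RbG k q 1 m) X D).card ∨
    (D.card ≤ (nbr T4 1 (RbG k q 1 m) X D).card ∧
      ((∀ p : Fin 3 × Fin n, (dd p.1, p.2) ∈ D ↔ ps cs hs p ≤ q0) ∨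
       (∀ p : Fin 3 × Fin n, (dd p.1, p.2) ∈ D ↔ q0 < ps cs hs p))) := by
  classical
  have hcard : Fintype.card (Fin 3 × Fin n) = 3 * n := by simp
  have h := hall_gap hcard hcard (ps cs hs) (pd cd hd) FS FD
    (fun z => by
      rw [hFS]
      exact card_fam 1 one_pos cs hs hhs z)
    (fun z => by
      rw [hFD]
      exact card_fam 4 (by norm_num) cd hd hhd z)
    q0 (fun z => (hcut z).1) (fun z => (hcut z).2.1) (fun z => (hcut z).2.2.1)
    (fun z => (hcut z).2.2.2.1) (fun z => (hcut z).2.2.2.2) hgap (pull D)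
    (by rw [← Finset.card_pos, card_pull hD]; exact Finset.card_pos.2 hne)
    (by
      intro hu
      apply hnf
      apply Finset.Subset.antisymm hD
      rintro ⟨x, j⟩ hx
      obtain ⟨i, rfl⟩ := mem_T4_one (Finset.mem_product.mp hx).1
      have : ((i, j) : Fin 3 × Fin n) ∈ pull D := by rw [hu]; exact Finset.mem_univ _
      exact mem_pull.1 this)
    (fun p r => |pd cd hd r - ps cs hs p| ≤ 1) (fun _ _ h => h)
    (pull (nbr T4 1 (RbG k q 1 m) X D))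
    (by
      rintro r ⟨p, hp, h⟩
      rw [mem_pull, mem_nbr_iff hsup hdem hD]
      exact ⟨p, mem_pull.1 hp, h⟩)
  rw [card_pull hD, card_pull (nbr_sub _ _ _ _ _)] at h
  rcases h with h | ⟨h1, h2⟩
  · exact Or.inl h
  · right
    refine ⟨h1, ?_⟩
    rcases h2 with h2 | h2
    · left
      intro p
      rw [← mem_pull]
      exact h2 p
    · right
      intro p
      rw [← mem_pull]
      exact h2 p

/-- strict version -/
theorem loc_strict {m : ℕ}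
    (hsup : ∀ i j, q (dd i + 4 ^ 1 * X) j = A + ps cs hs (i, j))
    (hdem : ∀ i j, 4 ^ 1 * q (X + 4 ^ m * dd i) j - k * dd i = A + pd cd hd (i, j))
    (hhs : ∀ i, hs i ≤ n) (hhd : ∀ i, hd i ≤ n) {FS FD : ℤ → ℕ}
    (hFS : ∀ z, FS z = cF n 1 (cs 0) (hs 0) z + cF n 1 (cs 1) (hs 1) z + cF n 1 (cs 2) (hs 2) z)
    (hFD : ∀ z, FD z = cF n 4 (cd 0) (hd 0) z + cF n 4 (cd 1) (hd 1) z + cF n 4 (cd 2) (hd 2) z)
    (hcs : ∀ i, -3 ≤ cs i)
    (hcut : ∀ z, CutAt (3 * n) (-100) FS FD z)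
    {D : Finset (ℤ × Fin n)} (hD : D ⊆ T4 1 ×ˢ (univ : Finset (Fin n))) (hne : D.Nonempty)
    (hnf : D ≠ T4 1 ×ˢ (univ : Finset (Fin n))) :
    D.card + 1 ≤ (nbr T4 1 (RbG k q 1 m) X D).card := by
  have hps : ∀ p : Fin 3 × Fin n, -100 < ps cs hs p := by
    intro p
    unfold ps
    have := hcs p.1
    split_ifs <;> omega
  rcases loc_of_cuts hsup hdem hhs hhd hFS hFD hcut (by
    rw [hFS, hFS]
    have h0 := hcs 0
    have h1 := hcs 1
    have h2 := hcs 2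
    rw [cF_bot (by omega) (by omega), cF_bot (by omega) (by omega), cF_bot (by omega) (by omega),
      cF_bot (by omega) (by omega), cF_bot (by omega) (by omega), cF_bot (by omega) (by omega)])
    hD hne hnf with h | ⟨_, h | h⟩
  · exact h
  · exfalso
    obtain ⟨⟨x, j⟩, hx⟩ := hne
    obtain ⟨i, rfl⟩ := mem_T4_one (Finset.mem_product.mp (hD hx)).1
    have h1 := (h (i, j)).1 hx
    have h2 := hps (i, j)
    omega
  · exfalso
    apply hnf
    apply Finset.Subset.antisymm hD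
    rintro ⟨x, j⟩ hx
    obtain ⟨i, rfl⟩ := mem_T4_one (Finset.mem_product.mp hx).1
    exact (h (i, j)).2 (hps _)

end

end Pool.Agent.Lib.MP_c52340_nt.Near
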