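import Pool.Agent.Lib.MP_c52340_nt.NearCount

/-!
The cut inequalities for the law `2 + e`, as inequalities between natural numbers.
-/

set_option autoImplicit false
set_option linter.unusedSimpArgs false

namespace Pool.Agent.Lib.MP_c52340_nt.Near

theorem cF_top {n : ℕ} {δ c : ℤ} {h : ℕ} {q : ℤ} (h1 : c ≤ q) : cF n δ c h q = n := if_pos h1

theorem cF_mid {n : ℕ} {δ c : ℤ} {h : ℕ} {q : ℤ} (h1 : q < c) (h2 : c - δ ≤ q) :
    cF n δ c h q = h := by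
  unfold cF
  rw [if_neg (by omega), if_pos h2]

theorem cF_bot {n : ℕ} {δ c : ℤ} {h : ℕ} {q : ℤ} (h1 : q < c) (h2 : q < c - δ) :
    cF n δ c h q = 0 := by
  unfold cF
  rw [if_neg (by omega), if_neg (by omega)]

/-- the class `js` of demands is missing -/
def FDs (js : ℕ) (FD F0 F1 F2 F3 : ℤ → ℕ) : Prop :=
  (js = 0 ∧ ∀ q, FD q = F1 q + F2 q + F3 q) ∨ (js = 1 ∧ ∀ q, FD q = F0 q + F2 q + F3 q) ∨
  (js = 2 ∧ ∀ q, FD q = F0 q + F1 q + F3 q) ∨ (js = 3 ∧ ∀ q, FD q = F0 q + F1 q + F2 q)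

theorem cut_pts {n : ℕ} {q0 : ℤ} {FS FD : ℤ → ℕ} (hn : 0 < n)
    {c0 c1 c2 d0 d1 d2 : ℤ} {h0 h1 h2 k0 k1 k2 : ℕ}
    (hFS : ∀ q, FS q = cF n 1 c0 h0 q + cF n 1 c1 h1 q + cF n 1 c2 h2 q)
    (hFD : ∀ q, FD q = cF n 4 d0 k0 q + cF n 4 d1 k1 q + cF n 4 d2 k2 q)
    (e0 : -3 ≤ c0 ∧ c0 ≤ 3 ∧ -3 ≤ c1 ∧ c1 ≤ 3 ∧ -3 ≤ c2 ∧ c2 ≤ 3)
    (e1 : 0 ≤ d0 ∧ d0 ≤ 3 ∧ 0 ≤ d1 ∧ d1 ≤ 3 ∧ 0 ≤ d2 ∧ d2 ≤ 3)
    (s : CutAt (3 * n) q0 FS FD (-4) ∧ CutAt (3 * n) q0 FS FD (-3) ∧ CutAt (3 * n) q0 FS FD (-2) ∧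
      CutAt (3 * n) q0 FS FD (-1) ∧ CutAt (3 * n) q0 FS FD 0 ∧ CutAt (3 * n) q0 FS FD 1 ∧
      CutAt (3 * n) q0 FS FD 2) (q : ℤ) : CutAt (3 * n) q0 FS FD q := by
  have hq : q ≤ -5 ∨ q = -4 ∨ q = -3 ∨ q = -2 ∨ q = -1 ∨ q = 0 ∨ q = 1 ∨ q = 2 ∨ 3 ≤ q := by
    omega
  obtain ⟨s1, s2, s3, s4, s5, s6, s7⟩ := s
  rcases hq with hq | rfl | rfl | rfl | rfl | rfl | rfl | rfl | hq
  · have a1 : FS q = 0 := by
      rw [hFS, cF_bot (by omega) (by omega), cF_bot (by omega) (by omega),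
        cF_bot (by omega) (by omega)]
    have a2 : FD (q - 1) = 0 := by
      rw [hFD, cF_bot (by omega) (by omega), cF_bot (by omega) (by omega),
        cF_bot (by omega) (by omega)]
    unfold CutAt
    omega
  · exact s1
  · exact s2
  · exact s3
  · exact s4
  · exact s5
  · exact s6
  · exact s7
  · have a1 : FS q = 3 * n := by
      rw [hFS, cF_top (by omega), cF_top (by omega), cF_top (by omega)]
      omega
    have a2 : FD (q + 1) = 3 * n := by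
      rw [hFD, cF_top (by omega), cF_top (by omega), cF_top (by omega)]
      omega
    unfold CutAt
    omega

/-- range `w < e`, classes `2`, `3` missing -/
theorem cutR1 (N hp : ℕ) (h1 : 6 ≤ hp) (h2 : hp ≤ 3 * N + 5) (FS FD : ℤ → ℕ)
    (js : ℕ) (hjs : js = 2 ∨ js = 3)
    (hFS : ∀ q, FS q = cF (6 * N + 10) 1 0 3 q + cF (6 * N + 10) 1 3 (6 * N + 7) q +
      cF (6 * N + 10) 1 (-2) hp q)
    (hFD : FDs js FD (cF (6 * N + 10) 4 0 3) (cF (6 * N + 10) 4 1 (3 * N + 4))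
      (cF (6 * N + 10) 4 2 (3 * N + 5)) (cF (6 * N + 10) 4 3 (3 * N + 5))) (q : ℤ) :
    CutAt (3 * (6 * N + 10)) (-100) FS FD q := by
  rcases hFD with ⟨hj, hFD⟩ | ⟨hj, hFD⟩ | ⟨hj, hFD⟩ | ⟨hj, hFD⟩ <;>
    (refine cut_pts (by omega) hFS hFD (by omega) (by omega) ?_ q
     simp only [CutAt, hFS, hFD, cF, Int.reduceLE, Int.reduceAdd, Int.reduceSub, Int.reduceNeg,
       if_true, if_false, zero_add, Int.reduceEq, ne_eq, not_true, not_false_eq_true,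
       forall_const, implies_true, IsEmpty.forall_iff, true_and, and_true]
     clear hFS hFD
     repeat' apply And.intro
     all_goals first | trivial | omega)

/-- range `w < e` -/
theorem cutR1g (N hp : ℕ) (h1 : 6 ≤ hp) (h2 : hp ≤ 3 * N + 5) (FS FD : ℤ → ℕ)
    (js : ℕ)
    (hFS : ∀ q, FS q = cF (6 * N + 10) 1 0 3 q + cF (6 * N + 10) 1 3 (6 * N + 7) q +
      cF (6 * N + 10) 1 (-2) hp q)
    (hFD : FDs js FD (cF (6 * N + 10) 4 0 3) (cF (6 * N + 10) 4 1 (3 * N + 4))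
      (cF (6 * N + 10) 4 2 (3 * N + 5)) (cF (6 * N + 10) 4 3 (3 * N + 5))) (q : ℤ) :
    CutAt (3 * (6 * N + 10)) 0 FS FD q := by
  rcases hFD with ⟨hj, hFD⟩ | ⟨hj, hFD⟩ | ⟨hj, hFD⟩ | ⟨hj, hFD⟩ <;>
    (refine cut_pts (by omega) hFS hFD (by omega) (by omega) ?_ q
     simp only [CutAt, hFS, hFD, cF, Int.reduceLE, Int.reduceAdd, Int.reduceSub, Int.reduceNeg,
       if_true, if_false, zero_add, Int.reduceEq, ne_eq, not_true, not_false_eq_true,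
       forall_const, implies_true, IsEmpty.forall_iff, true_and, and_true]
     clear hFS hFD
     repeat' apply And.intro
     all_goals first | trivial | omega)

/-- range `e ≤ w < 1 / 4` -/
theorem cutR2 (N a h0 hp hm : ℕ) (h1 : 3 ≤ a) (h2 : a ≤ 3 * N + 3) (h3 : a + 1 ≤ h0)
    (h4 : h0 ≤ 3 * N + 5) (h5 : a + 1 ≤ hp) (h6 : hp ≤ 3 * N + 5) (h7 : 3 ≤ hm)
    (h8 : hm ≤ 3 * N + 5) (FS FD : ℤ → ℕ)
    (js : ℕ)
    (hFS : ∀ q, FS q = cF (6 * N + 10) 1 0 h0 q + cF (6 * N + 10) 1 2 hm q +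
      cF (6 * N + 10) 1 (-2) hp q)
    (hFD : FDs js FD (cF (6 * N + 10) 4 0 a) (cF (6 * N + 10) 4 1 (3 * N + 5))
      (cF (6 * N + 10) 4 2 (3 * N + 5)) (cF (6 * N + 10) 4 3 (3 * N + 7))) (q : ℤ) :
    CutAt (3 * (6 * N + 10)) (-100) FS FD q := by
  rcases hFD with ⟨hj, hFD⟩ | ⟨hj, hFD⟩ | ⟨hj, hFD⟩ | ⟨hj, hFD⟩ <;>
    (refine cut_pts (by omega) hFS hFD (by omega) (by omega) ?_ q
     simp only [CutAt, hFS, hFD, cF, Int.reduceLE, Int.reduceAdd, Int.reduceSub, Int.reduceNeg,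
       if_true, if_false, zero_add, Int.reduceEq, ne_eq, not_true, not_false_eq_true,
       forall_const, implies_true, IsEmpty.forall_iff, true_and, and_true]
     clear hFS hFD
     repeat' apply And.intro
     all_goals first | trivial | omega)

/-- range `1 / 4 ≤ w < 3 / 4` -/
theorem cutR3 (N a b h0 hp hm : ℕ) (h1 : 3 ≤ a) (h2 : a ≤ 3 * N + 3) (h3 : 3 ≤ b) (h3b : b ≤ 3 * N + 3)
    (h4 : 3 * N + 4 ≤ h0) (h4b : h0 ≤ 3 * N + 6) (h5 : 3 * N + 5 ≤ hp) (h6 : hp ≤ 3 * N + 7)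
    (h7 : 3 * N + 3 ≤ hm) (h8 : hm ≤ 3 * N + 5) (FS FD : ℤ → ℕ)
    (js : ℕ)
    (hFS : ∀ q, FS q = cF (6 * N + 10) 1 0 h0 q + cF (6 * N + 10) 1 2 hm q +
      cF (6 * N + 10) 1 (-2) hp q)
    (hFD : FDs js FD (cF (6 * N + 10) 4 0 a) (cF (6 * N + 10) 4 1 (3 * N + 5))
      (cF (6 * N + 10) 4 2 (3 * N + 5)) (cF (6 * N + 10) 4 3 (6 * N + 10 - b))) (q : ℤ) :
    CutAt (3 * (6 * N + 10)) (-100) FS FD q := by
  rcases hFD with ⟨hj, hFD⟩ | ⟨hj, hFD⟩ | ⟨hj, hFD⟩ | ⟨hj, hFD⟩ <;>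
    (refine cut_pts (by omega) hFS hFD (by omega) (by omega) ?_ q
     simp only [CutAt, hFS, hFD, cF, Int.reduceLE, Int.reduceAdd, Int.reduceSub, Int.reduceNeg,
       if_true, if_false, zero_add, Int.reduceEq, ne_eq, not_true, not_false_eq_true,
       forall_const, implies_true, IsEmpty.forall_iff, true_and, and_true]
     clear hFS hFD
     repeat' apply And.intro
     all_goals first | trivial | omega)

/-- range `3 / 4 ≤ w < 1 - e` -/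
theorem cutR4 (N b B0 Bp Bm : ℕ) (h1 : 3 ≤ b) (h2 : b ≤ 3 * N + 3) (h3 : b + 1 ≤ B0)
    (h4 : B0 ≤ 3 * N + 5) (h5 : b + 1 ≤ Bm) (h6 : Bm ≤ 3 * N + 5) (h7 : 3 ≤ Bp)
    (h8 : Bp ≤ 3 * N + 5) (FS FD : ℤ → ℕ)
    (js : ℕ)
    (hFS : ∀ q, FS q = cF (6 * N + 10) 1 0 (6 * N + 10 - B0) q + cF (6 * N + 10) 1 2 (6 * N + 10 - Bm) q +
      cF (6 * N + 10) 1 (-2) (6 * N + 10 - Bp) q)
    (hFD : FDs js FD (cF (6 * N + 10) 4 0 (3 * N + 3)) (cF (6 * N + 10) 4 1 (3 * N + 5))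
      (cF (6 * N + 10) 4 2 (3 * N + 5)) (cF (6 * N + 10) 4 3 (6 * N + 10 - b))) (q : ℤ) :
    CutAt (3 * (6 * N + 10)) (-100) FS FD q := by
  rcases hFD with ⟨hj, hFD⟩ | ⟨hj, hFD⟩ | ⟨hj, hFD⟩ | ⟨hj, hFD⟩ <;>
    (refine cut_pts (by omega) hFS hFD (by omega) (by omega) ?_ q
     simp only [CutAt, hFS, hFD, cF, Int.reduceLE, Int.reduceAdd, Int.reduceSub, Int.reduceNeg,
       if_true, if_false, zero_add, Int.reduceEq, ne_eq, not_true, not_false_eq_true,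
       forall_const, implies_true, IsEmpty.forall_iff, true_and, and_true]
     clear hFS hFD
     repeat' apply And.intro
     all_goals first | trivial | omega)

/-- range `1 - e ≤ w`, classes `0`, `1` missing -/
theorem cutR5 (N Bm : ℕ) (h1 : 6 ≤ Bm) (h2 : Bm ≤ 3 * N + 5) (FS FD : ℤ → ℕ)
    (js : ℕ) (hjs : js = 0 ∨ js = 1)
    (hFS : ∀ q, FS q = cF (6 * N + 10) 1 0 (6 * N + 7) q + cF (6 * N + 10) 1 2 (6 * N + 10 - Bm) q +
      cF (6 * N + 10) 1 (-3) 3 q)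
    (hFD : FDs js FD (cF (6 * N + 10) 4 0 (3 * N + 5)) (cF (6 * N + 10) 4 1 (3 * N + 5))
      (cF (6 * N + 10) 4 2 (3 * N + 6)) (cF (6 * N + 10) 4 3 (6 * N + 7))) (q : ℤ) :
    CutAt (3 * (6 * N + 10)) (-100) FS FD q := by
  rcases hFD with ⟨hj, hFD⟩ | ⟨hj, hFD⟩ | ⟨hj, hFD⟩ | ⟨hj, hFD⟩ <;>
    (refine cut_pts (by omega) hFS hFD (by omega) (by omega) ?_ q
     simp only [CutAt, hFS, hFD, cF, Int.reduceLE, Int.reduceAdd, Int.reduceSub, Int.reduceNeg,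
       if_true, if_false, zero_add, Int.reduceEq, ne_eq, not_true, not_false_eq_true,
       forall_const, implies_true, IsEmpty.forall_iff, true_and, and_true]
     clear hFS hFD
     repeat' apply And.intro
     all_goals first | trivial | omega)

/-- range `1 - e ≤ w` -/
theorem cutR5g (N Bm : ℕ) (h1 : 6 ≤ Bm) (h2 : Bm ≤ 3 * N + 5) (FS FD : ℤ → ℕ)
    (js : ℕ)
    (hFS : ∀ q, FS q = cF (6 * N + 10) 1 0 (6 * N + 7) q + cF (6 * N + 10) 1 2 (6 * N + 10 - Bm) q +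
      cF (6 * N + 10) 1 (-3) 3 q)
    (hFD : FDs js FD (cF (6 * N + 10) 4 0 (3 * N + 5)) (cF (6 * N + 10) 4 1 (3 * N + 5))
      (cF (6 * N + 10) 4 2 (3 * N + 6)) (cF (6 * N + 10) 4 3 (6 * N + 7))) (q : ℤ) :
    CutAt (3 * (6 * N + 10)) (-3) FS FD q := by
  rcases hFD with ⟨hj, hFD⟩ | ⟨hj, hFD⟩ | ⟨hj, hFD⟩ | ⟨hj, hFD⟩ <;>
    (refine cut_pts (by omega) hFS hFD (by omega) (by omega) ?_ q
     simp only [CutAt, hFS, hFD, cF, Int.reduceLE, Int.reduceAdd, Int.reduceSub, Int.reduceNeg,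
       if_true, if_false, zero_add, Int.reduceEq, ne_eq, not_true, not_false_eq_true,
       forall_const, implies_true, IsEmpty.forall_iff, true_and, and_true]
     clear hFS hFD
     repeat' apply And.intro
     all_goals first | trivial | omega)

end Pool.Agent.Lib.MP_c52340_nt.Near
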