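import Pool.Agent.Lib.MP_c52340_nt.NearLoc
import Pool.Agent.Lib.MP_c52340_nt.NearLaw

/-!
Strong Hall property of two-digit blocks for `κ = k / 4 ^ l` slightly above `2`.
-/

set_option autoImplicit false

namespace Pool.Agent.Lib.MP_c52340_nt.Near

open Pool.Agent.Lib.MP_c52340_nt Pool.Agent.Lib.MP_c52340_nt.Tok C52C Finset

/-- the state function -/
noncomputable def qP (κ e : ℝ) (N : ℕ) (x : ℤ) (j : Fin (6 * N + 10)) : ℤ :=
  ⌈κ * x⌉ - (if j.1 < HP e N (⌈κ * x⌉ - κ * x) then 1 else 0)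

theorem qP_at {κ e : ℝ} {N : ℕ} {x c : ℤ} {f : ℝ} (h : κ * x = c - f) (h0 : 0 ≤ f) (h1 : f < 1)
    (j : Fin (6 * N + 10)) : qP κ e N x j = c - (if j.1 < HP e N f then 1 else 0) := by
  have hc : ⌈κ * x⌉ = c := by
    rw [Int.ceil_eq_iff, h]
    constructor <;> linarith
  unfold qP
  rw [hc]
  have : (c : ℝ) - κ * x = f := by rw [h]; ring
  rw [this]

theorem qP_zero {κ e : ℝ} (he : 0 < e) (N : ℕ) (j : Fin (6 * N + 10)) (hj : 3 ≤ j.1) :
    qP κ e N 0 j = 0 := by
  rw [qP_at (c := 0) (f := 0) (by simp) le_rfl one_pos]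
  have : HP e N 0 = 3 := by
    rw [HP_lo (by norm_num), lo, if_pos (by norm_num), gl_zero he N he]
  rw [this, if_neg (by omega)]
  rfl

/-- the classes of the demands -/
theorem fds {k A : ℤ} (hk : k % 2 = 1) (G : ℤ → ℤ → ℕ) (cd : Fin 3 → ℤ)
    (hcd : ∀ i, cd i = (-(A + k * dd i)) % 4) :
    ∃ js : ℕ, FDs js (fun z => G (cd 0) z + G (cd 1) z + G (cd 2) z) (G 0) (G 1) (G 2) (G 3) ∧
      ((js = 0 ∨ js = 1) → ∃ i, cd i = 3) ∧ ((js = 2 ∨ js = 3) → ∃ i, cd i = 0) ∧ js < 4 := by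
  have h0 := hcd 0
  have h1 := hcd 1
  have h2 := hcd 2
  have e0 : dd 0 = 0 := rfl
  have e1 : dd 1 = 1 := rfl
  have e2 : dd 2 = -1 := rfl
  rw [e0, mul_zero, add_zero] at h0
  rw [e1, mul_one] at h1
  rw [e2, mul_neg, mul_one] at h2
  have hA : A % 4 = 0 ∨ A % 4 = 1 ∨ A % 4 = 2 ∨ A % 4 = 3 := by omega
  have hk4 : k % 4 = 1 ∨ k % 4 = 3 := by omega
  rcases hA with hA | hA | hA | hA <;> rcases hk4 with hk4 | hk4
  · have a0 : cd 0 = 0 := by omega
    have a1 : cd 1 = 3 := by omega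
    have a2 : cd 2 = 1 := by omega
    refine ⟨2, Or.inr (Or.inr (Or.inl ⟨rfl, fun z => ?_⟩)), fun h => ?_, fun _ => ⟨0, a0⟩, by omega⟩
    · simp only [a0, a1, a2]; ring
    · omega
  · have a0 : cd 0 = 0 := by omega
    have a1 : cd 1 = 1 := by omega
    have a2 : cd 2 = 3 := by omega
    refine ⟨2, Or.inr (Or.inr (Or.inl ⟨rfl, fun z => ?_⟩)), fun h => ?_, fun _ => ⟨0, a0⟩, by omega⟩
    · simp only [a0, a1, a2]
    · omega
  · have a0 : cd 0 = 3 := by omega
    have a1 : cd 1 = 2 := by omega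
    have a2 : cd 2 = 0 := by omega
    refine ⟨1, Or.inr (Or.inl ⟨rfl, fun z => ?_⟩), fun _ => ⟨0, a0⟩, fun _ => ⟨2, a2⟩, by omega⟩
    simp only [a0, a1, a2]; ring
  · have a0 : cd 0 = 3 := by omega
    have a1 : cd 1 = 0 := by omega
    have a2 : cd 2 = 2 := by omega
    refine ⟨1, Or.inr (Or.inl ⟨rfl, fun z => ?_⟩), fun _ => ⟨0, a0⟩, fun _ => ⟨1, a1⟩, by omega⟩
    simp only [a0, a1, a2]; ring
  · have a0 : cd 0 = 2 := by omega
    have a1 : cd 1 = 1 := by omega
    have a2 : cd 2 = 3 := by omega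
    refine ⟨0, Or.inl ⟨rfl, fun z => ?_⟩, fun _ => ⟨2, a2⟩, fun h => ?_, by omega⟩
    · simp only [a0, a1, a2]; ring
    · omega
  · have a0 : cd 0 = 2 := by omega
    have a1 : cd 1 = 3 := by omega
    have a2 : cd 2 = 1 := by omega
    refine ⟨0, Or.inl ⟨rfl, fun z => ?_⟩, fun _ => ⟨1, a1⟩, fun h => ?_, by omega⟩
    · simp only [a0, a1, a2]; ring
    · omega
  · have a0 : cd 0 = 1 := by omega
    have a1 : cd 1 = 0 := by omega
    have a2 : cd 2 = 2 := by omega
    refine ⟨3, Or.inr (Or.inr (Or.inr ⟨rfl, fun z => ?_⟩)), fun h => ?_, fun _ => ⟨1, a1⟩, by omega⟩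
    · simp only [a0, a1, a2]; ring
    · omega
  · have a0 : cd 0 = 1 := by omega
    have a1 : cd 1 = 2 := by omega
    have a2 : cd 2 = 0 := by omega
    refine ⟨3, Or.inr (Or.inr (Or.inr ⟨rfl, fun z => ?_⟩)), fun h => ?_, fun _ => ⟨2, a2⟩, by omega⟩
    · simp only [a0, a1, a2]; ring
    · omega

section

variable {k : ℤ} {m : ℕ} {κ e : ℝ} {N : ℕ}

/-- the demands -/
theorem dem_at (hκ : κ * 4 ^ (m + 2) = k) {X A : ℤ} {w : ℝ} (hA : κ * (4 * X) = A - w)
    (hw0 : 0 ≤ w) (hw1 : w < 1) (i : Fin 3) (j : Fin (6 * N + 10)) :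
    4 ^ 1 * qP κ e N (X + 4 ^ (m + 1) * dd i) j - k * dd i =
      A + pd (fun i => (-(A + k * dd i)) % 4)
        (fun i => HP e N ((((-(A + k * dd i)) % 4 : ℤ) + w) / 4)) (i, j) := by
  set r : ℤ := (-(A + k * dd i)) % 4 with hr
  have hr0 : 0 ≤ r := Int.emod_nonneg _ (by norm_num)
  have hr1 : r < 4 := Int.emod_lt_of_pos _ (by norm_num)
  obtain ⟨c, hc⟩ : ∃ c : ℤ, A + k * dd i + r = 4 * c := by
    refine ⟨(A + k * dd i + r) / 4, ?_⟩
    have : (A + k * dd i + r) % 4 = 0 := by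
      rw [hr]
      omega
    omega
  have hr0' : (0 : ℝ) ≤ r := by exact_mod_cast hr0
  have hr1' : (r : ℝ) ≤ 3 := by
    have : r ≤ 3 := by omega
    exact_mod_cast this
  have hcR : (A : ℝ) + k * dd i + r = 4 * c := by exact_mod_cast hc
  have hx : κ * ((X + 4 ^ (m + 1) * dd i : ℤ) : ℝ) = c - (r + w) / 4 := by
    push_cast
    have e1 : (4 : ℝ) ^ (m + 2) = 4 * 4 ^ (m + 1) := by ring
    rw [e1] at hκ
    have e2 : κ * (X + 4 ^ (m + 1) * dd i) =
        (κ * (4 * X)) / 4 + (κ * (4 * 4 ^ (m + 1))) * dd i / 4 := by ring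
    rw [e2, hA, hκ]
    linarith
  rw [qP_at hx (by linarith) (by linarith)]
  have h4 : 4 * c = A + k * dd i + r := hc.symm
  show 4 ^ 1 * (c - (if j.1 < HP e N ((r + w) / 4) then 1 else 0)) - k * dd i =
    A + (r - (if j.1 < HP e N ((r + w) / 4) then 4 else 0))
  split_ifs <;> linarith

/-- the supplies -/
theorem sup_at {X A : ℤ} {w : ℝ} (hA : κ * (4 * X) = A - w) {cs : Fin 3 → ℤ} {fs : Fin 3 → ℝ}
    {hs : Fin 3 → ℕ} (hh : ∀ i, hs i = HP e N (fs i))
    (h : ∀ i, κ * dd i - w = cs i - fs i) (h0 : ∀ i, 0 ≤ fs i) (h1 : ∀ i, fs i < 1)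
    (i : Fin 3) (j : Fin (6 * N + 10)) :
    qP κ e N (dd i + 4 ^ 1 * X) j = A + ps cs hs (i, j) := by
  have hx : κ * ((dd i + 4 ^ 1 * X : ℤ) : ℝ) = (A + cs i : ℤ) - fs i := by
    push_cast
    have := h i
    have e1 : κ * ((dd i : ℝ) + 4 * X) = κ * dd i + κ * (4 * X) := by ring
    rw [e1, hA]
    linarith
  rw [qP_at hx (h0 i) (h1 i)]
  unfold ps
  simp only [hh]
  ring

/-- bad contexts -/
def BadX (κ e : ℝ) (X : ℤ) : Prop :=
  (⌈κ * (4 * X)⌉ : ℝ) - κ * (4 * X) < e ∨ 1 - e ≤ (⌈κ * (4 * X)⌉ : ℝ) - κ * (4 * X)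

/-- good contexts exist -/
theorem exists_good (hk : k % 2 = 1) (hκ : κ * 4 ^ (m + 2) = k) (he : e ≤ 1 / 16) (X : ℤ) :
    ∃ c ∈ T4 1, ¬ BadX κ e (X + 4 ^ m * c) := by
  by_contra hcon
  push Not at hcon
  have b0 := hcon 0 (zero_mem_T4 1)
  have b1 := hcon 1 (dd_mem 1)
  rw [mul_zero, add_zero] at b0
  rw [mul_one] at b1
  unfold BadX at b0 b1
  set A : ℤ := ⌈κ * (4 * X)⌉ with hA
  set B : ℤ := ⌈κ * (4 * ((X + 4 ^ m : ℤ) : ℝ))⌉ with hB
  have hx : κ * (4 * ((X + 4 ^ m : ℤ) : ℝ)) = κ * (4 * X) + k / 4 := by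
    push_cast
    rw [← hκ]
    ring
  have a1 : κ * (4 * X) ≤ A := Int.le_ceil _
  have a2 : (A : ℝ) < κ * (4 * X) + 1 := Int.ceil_lt_add_one _
  have a3 : κ * (4 * ((X + 4 ^ m : ℤ) : ℝ)) ≤ B := Int.le_ceil _
  have a4 : (B : ℝ) < κ * (4 * ((X + 4 ^ m : ℤ) : ℝ)) + 1 := Int.ceil_lt_add_one _
  set u : ℝ := κ * (4 * X) with hu
  rw [hx] at b1 a3 a4
  -- the odd integer `M = 4 (w - w')`
  have hM : ((4 * (A - B) + k : ℤ) : ℝ) = 4 * ((A - u) - (B - (u + k / 4))) := by
    push_cast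
    ring
  have hodd : (4 * (A - B) + k) % 2 = 1 := by omega
  set M : ℤ := 4 * (A - B) + k with hMdef
  have key : M = 0 ∨ (3 < M ∧ M < 4) ∨ (-4 < M ∧ M < -3) := by
    rcases b0 with b0 | b0 <;> rcases b1 with b1 | b1
    · left
      have c1 : ((M : ℤ) : ℝ) < 1 := by rw [hM]; linarith
      have c2 : (-1 : ℝ) < (M : ℤ) := by rw [hM]; linarith
      have c1' : M < 1 := by exact_mod_cast c1
      have c2' : -1 < M := by exact_mod_cast c2
      omega
    · right; right
      have c1 : ((M : ℤ) : ℝ) < -3 := by rw [hM]; linarith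
      have c2 : (-4 : ℝ) < (M : ℤ) := by rw [hM]; linarith
      have c1' : M < -3 := by exact_mod_cast c1
      have c2' : -4 < M := by exact_mod_cast c2
      exact ⟨c2', c1'⟩
    · right; left
      have c1 : ((M : ℤ) : ℝ) < 4 := by rw [hM]; linarith
      have c2 : (3 : ℝ) < (M : ℤ) := by rw [hM]; linarith
      have c1' : M < 4 := by exact_mod_cast c1
      have c2' : 3 < M := by exact_mod_cast c2
      exact ⟨c2', c1'⟩
    · left
      have c1 : ((M : ℤ) : ℝ) < 1 := by rw [hM]; linarith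
      have c2 : (-1 : ℝ) < (M : ℤ) := by rw [hM]; linarith
      have c1' : M < 1 := by exact_mod_cast c1
      have c2' : -1 < M := by exact_mod_cast c2
      omega
  omega

/-- the one-digit statement in every context -/
theorem local2 (hk : k % 2 = 1) (hκ : κ * 4 ^ (m + 2) = k) (he : 0 < e) (he' : e ≤ 1 / 16)
    (hκe : κ = 2 + e) (hN : 0 < N) (hN2 : 1 / 4 ≤ e * 4 ^ N) (X : ℤ)
    {D : Finset (ℤ × Fin (6 * N + 10))}
    (hD : D ⊆ T4 1 ×ˢ (univ : Finset (Fin (6 * N + 10)))) (hne : D.Nonempty)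
    (hnf : D ≠ T4 1 ×ˢ (univ : Finset (Fin (6 * N + 10)))) :
    D.card + 1 ≤ (nbr T4 1 (RbG k (qP κ e N) 1 (m + 1)) X D).card ∨
    (BadX κ e X ∧ D.card ≤ (nbr T4 1 (RbG k (qP κ e N) 1 (m + 1)) X D).card ∧ Pure D ∧
      ¬ Pure (nbr T4 1 (RbG k (qP κ e N) 1 (m + 1)) X D)) := by
  classical
  set A : ℤ := ⌈κ * (4 * X)⌉ with hAdef
  obtain ⟨w, hw⟩ : ∃ w : ℝ, w = A - κ * (4 * X) := ⟨_, rfl⟩
  have hA : κ * (4 * X) = A - w := by rw [hw]; ring
  have hw0 : 0 ≤ w := by
    have : κ * (4 * X) ≤ A := Int.le_ceil _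
    rw [hw]; linarith
  have hw1 : w < 1 := by
    have : (A : ℝ) < κ * (4 * X) + 1 := Int.ceil_lt_add_one _
    rw [hw]; linarith
  set cd : Fin 3 → ℤ := fun i => (-(A + k * dd i)) % 4 with hcd
  set hd : Fin 3 → ℕ := fun i => HP e N ((((-(A + k * dd i)) % 4 : ℤ) + w) / 4) with hhd
  have hdem : ∀ i j, 4 ^ 1 * qP κ e N (X + 4 ^ (m + 1) * dd i) j - k * dd i =
      A + pd cd hd (i, j) := fun i j => dem_at hκ hA hw0 hw1 i j
  have hhd' : ∀ i, hd i ≤ 6 * N + 10 := fun i => HP_le _ _ _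
  obtain ⟨js, hjs, hj1, hj2, hj3⟩ := fds (k := k) (A := A) hk
    (fun c z => cF (6 * N + 10) 4 c (HP e N (((c : ℤ) + w) / 4)) z) cd (fun i => rfl)
  have hjs' : FDs js (fun z => cF (6 * N + 10) 4 (cd 0) (hd 0) z +
      cF (6 * N + 10) 4 (cd 1) (hd 1) z + cF (6 * N + 10) 4 (cd 2) (hd 2) z)
      (cF (6 * N + 10) 4 0 (HP e N (w / 4))) (cF (6 * N + 10) 4 1 (HP e N ((1 + w) / 4)))
      (cF (6 * N + 10) 4 2 (HP e N ((2 + w) / 4))) (cF (6 * N + 10) 4 3 (HP e N ((3 + w) / 4))) := by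
    have := hjs
    simp only [Int.cast_zero, zero_add, Int.cast_one, Int.cast_ofNat] at this
    exact this
  have hd0 : dd 0 = 0 := rfl
  have hd1 : dd 1 = 1 := rfl
  have hd2 : dd 2 = -1 := rfl
  have hn3 : 3 * (6 * N + 10) = 3 * (6 * N + 10) := rfl
  -- the supplies for given positions
  have hsupG : ∀ (c1 c2 : ℤ) (f1 f2 : ℝ), κ - w = c1 - f1 → -κ - w = c2 - f2 → 0 ≤ f1 → f1 < 1 →
      0 ≤ f2 → f2 < 1 → ∀ i (j : Fin (6 * N + 10)), qP κ e N (dd i + 4 ^ 1 * X) j =
        A + ps ![0, c1, c2] ![HP e N w, HP e N f1, HP e N f2] (i, j) := by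
    intro c1 c2 f1 f2 g1 g2 g3 g4 g5 g6
    apply sup_at (fs := ![w, f1, f2]) hA
    · intro i
      fin_cases i <;> rfl
    · intro i
      fin_cases i
      · show κ * ((0 : ℤ) : ℝ) - w = ((0 : ℤ) : ℝ) - w
        simp
      · show κ * ((1 : ℤ) : ℝ) - w = (c1 : ℝ) - f1
        push_cast
        linarith
      · show κ * ((-1 : ℤ) : ℝ) - w = (c2 : ℝ) - f2
        push_cast
        linarith
    · intro i
      fin_cases i
      · exact hw0
      · exact g3
      · exact g5
    · intro i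
      fin_cases i
      · exact hw1
      · exact g4
      · exact g6
  have hps : ∀ c1 c2 : ℤ, -3 ≤ c1 → -3 ≤ c2 → ∀ i, -3 ≤ (![0, c1, c2] : Fin 3 → ℤ) i := by
    intro c1 c2 g1 g2 i
    fin_cases i
    · show (-3 : ℤ) ≤ 0
      norm_num
    · exact g1
    · exact g2
  have hle : ∀ x y z : ℕ, x ≤ 6 * N + 10 → y ≤ 6 * N + 10 → z ≤ 6 * N + 10 →
      ∀ i, (![x, y, z] : Fin 3 → ℕ) i ≤ 6 * N + 10 := by
    intro x y z x1 x2 x3 i
    fin_cases i
    · exact x1
    · exact x2
    · exact x3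
  rcases lt_or_ge w e with hwe | hwe
  · -- range 1
    obtain ⟨f1, f2, f3, f4, f5, f6, f7, f8⟩ := facts1 he he' hN hw0 hwe
    rw [f1, f2, f3, f4] at hjs'
    have hsup := hsupG 3 (-2) (1 + w - e) (w + e) (by rw [hκe]; push_cast; ring)
      (by rw [hκe]; push_cast; ring) (by linarith) (by linarith) (by linarith) (by linarith)
    rw [f5, f8] at hsup
    have hFS : ∀ z, cF (6 * N + 10) 1 0 3 z + cF (6 * N + 10) 1 3 (6 * N + 7) z +
        cF (6 * N + 10) 1 (-2) (HP e N (w + e)) z =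
        cF (6 * N + 10) 1 ((![0, 3, -2] : Fin 3 → ℤ) 0)
          ((![3, 6 * N + 7, HP e N (w + e)] : Fin 3 → ℕ) 0) z +
        cF (6 * N + 10) 1 ((![0, 3, -2] : Fin 3 → ℤ) 1)
          ((![3, 6 * N + 7, HP e N (w + e)] : Fin 3 → ℕ) 1) z +
        cF (6 * N + 10) 1 ((![0, 3, -2] : Fin 3 → ℤ) 2)
          ((![3, 6 * N + 7, HP e N (w + e)] : Fin 3 → ℕ) 2) z := fun z => rfl
    have hhs : ∀ i, (![3, 6 * N + 7, HP e N (w + e)] : Fin 3 → ℕ) i ≤ 6 * N + 10 := by
      intro i
      fin_cases i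
      · show 3 ≤ 6 * N + 10
        omega
      · show 6 * N + 7 ≤ 6 * N + 10
        omega
      · exact HP_le _ _ _
    rcases (show js = 0 ∨ js = 1 ∨ js = 2 ∨ js = 3 by omega) with hj | hj | hj | hj
    rotate_left 2
    · left
      exact loc_strict hsup hdem hhs hhd' hFS (fun z => rfl)
        (hps _ _ (by norm_num) (by norm_num))
        (cutR1 N (HP e N (w + e)) f6 f7 _ _ js (Or.inl hj) (fun z => rfl) hjs') hD hne hnf
    · left
      exact loc_strict hsup hdem hhs hhd' hFS (fun z => rfl)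
        (hps _ _ (by norm_num) (by norm_num))
        (cutR1 N (HP e N (w + e)) f6 f7 _ _ js (Or.inr hj) (fun z => rfl) hjs') hD hne hnf
    all_goals
      obtain ⟨i3, hi3⟩ := hj1 (by omega)
      rcases loc_of_cuts (q0 := 0) hsup hdem hhs hhd' hFS (fun z => rfl)
        (cutR1g N (HP e N (w + e)) f6 f7 _ _ js (fun z => rfl) hjs')
        (by
          simp [cF]) hD hne hnf with h | ⟨h, h'⟩
      · exact Or.inl h
      · right
        have hpos : ∀ p : Fin 3 × Fin (6 * N + 10),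
            (ps ![0, 3, -2] ![3, 6 * N + 7, HP e N (w + e)] p ≤ 0 ↔ p.1 ≠ 1) ∧
            (p.1 = 1 → 2 ≤ ps ![0, 3, -2] ![3, 6 * N + 7, HP e N (w + e)] p ∧
              ps ![0, 3, -2] ![3, 6 * N + 7, HP e N (w + e)] p ≤ 3) ∧
            (p.1 = 0 → -1 ≤ ps ![0, 3, -2] ![3, 6 * N + 7, HP e N (w + e)] p) := by
          rintro ⟨i, j⟩
          unfold ps
          fin_cases i
          · show ((0 : ℤ) - (if j.1 < 3 then 1 else 0) ≤ 0 ↔ (0 : Fin 3) ≠ 1) ∧
              ((0 : Fin 3) = 1 → _) ∧ ((0 : Fin 3) = 0 → (-1 : ℤ) ≤ 0 - (if j.1 < 3 then 1 else 0))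
            split_ifs <;> simp
          · show ((3 : ℤ) - (if j.1 < 6 * N + 7 then 1 else 0) ≤ 0 ↔ (1 : Fin 3) ≠ 1) ∧
              ((1 : Fin 3) = 1 → (2 : ℤ) ≤ 3 - (if j.1 < 6 * N + 7 then 1 else 0) ∧
                (3 : ℤ) - (if j.1 < 6 * N + 7 then 1 else 0) ≤ 3) ∧ ((1 : Fin 3) = 0 → _)
            split_ifs <;> simp
          · show ((-2 : ℤ) - (if j.1 < HP e N (w + e) then 1 else 0) ≤ 0 ↔ (2 : Fin 3) ≠ 1) ∧
              ((2 : Fin 3) = 1 → _) ∧ ((2 : Fin 3) = 0 → _)
            split_ifs <;> simp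
        have hHi : hd i3 = 3 * N + 5 := by
          have e1 : hd i3 = HP e N ((((cd i3 : ℤ) : ℝ) + w) / 4) := rfl
          rw [e1, hi3]
          exact_mod_cast f4
        have hlow : pd cd hd (i3, (⟨0, by omega⟩ : Fin (6 * N + 10))) = -1 := by
          unfold pd
          simp only
          rw [hi3, hHi, if_pos (by omega)]
          norm_num
        have hhigh : pd cd hd (i3, (⟨6 * N + 9, by omega⟩ : Fin (6 * N + 10))) = 3 := by
          unfold pd
          simp only
          rw [hi3, hHi, if_neg (by omega)]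
          norm_num
        refine ⟨Or.inl (by rw [← hAdef, ← hw]; exact hwe), h, ?_, ?_⟩
        · rcases h' with h' | h'
          · intro y hy
            obtain ⟨i, rfl⟩ := mem_T4_one hy
            by_cases hi : i = 1
            · right
              intro j hj
              have := ((hpos (i, j)).1.1 ((h' (i, j)).1 hj))
              exact this hi
            · left
              intro j
              exact (h' (i, j)).2 ((hpos (i, j)).1.2 hi)
          · intro y hy
            obtain ⟨i, rfl⟩ := mem_T4_one hy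
            by_cases hi : i = 1
            · left
              intro j
              have := ((hpos (i, j)).2.1 hi).1
              exact (h' (i, j)).2 (by omega)
            · right
              intro j hj
              have h2 := (hpos (i, j)).1.2 hi
              have h3 := (h' (i, j)).1 hj
              omega
        · intro hp
          rcases h' with h' | h'
          · rcases hp (dd i3) (dd_mem _) with hp | hp
            · have h2 := hp (⟨6 * N + 9, by omega⟩ : Fin (6 * N + 10))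
              rw [mem_nbr_iff hsup hdem hD (i3, (⟨6 * N + 9, by omega⟩ : Fin (6 * N + 10)))] at h2
              obtain ⟨p, hp1, hp2⟩ := h2
              have h3 := (h' p).1 hp1
              rw [hhigh, abs_le] at hp2
              omega
            · apply hp (⟨0, by omega⟩ : Fin (6 * N + 10))
              rw [mem_nbr_iff hsup hdem hD (i3, (⟨0, by omega⟩ : Fin (6 * N + 10)))]
              refine ⟨((0 : Fin 3), (⟨0, by omega⟩ : Fin (6 * N + 10))), ?_, ?_⟩
              · rw [h']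
                exact (hpos _).1.2 (by simp)
              · have h2 := (hpos ((0 : Fin 3), (⟨0, by omega⟩ : Fin (6 * N + 10)))).1.2 (by simp)
                have h3 := (hpos ((0 : Fin 3), (⟨0, by omega⟩ : Fin (6 * N + 10)))).2.2 rfl
                rw [hlow, abs_le]
                omega
          · rcases hp (dd i3) (dd_mem _) with hp | hp
            · have h2 := hp (⟨0, by omega⟩ : Fin (6 * N + 10))
              rw [mem_nbr_iff hsup hdem hD (i3, (⟨0, by omega⟩ : Fin (6 * N + 10)))] at h2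
              obtain ⟨p, hp1, hp2⟩ := h2
              have h3 := (h' p).1 hp1
              have h4 : p.1 = 1 := by
                by_contra hc
                have := (hpos p).1.2 hc
                omega
              have h5 := (hpos p).2.1 h4
              rw [hlow, abs_le] at hp2
              omega
            · apply hp (⟨6 * N + 9, by omega⟩ : Fin (6 * N + 10))
              rw [mem_nbr_iff hsup hdem hD (i3, (⟨6 * N + 9, by omega⟩ : Fin (6 * N + 10)))]
              have h5 := (hpos ((1 : Fin 3), (⟨0, by omega⟩ : Fin (6 * N + 10)))).2.1 rfl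
              refine ⟨((1 : Fin 3), (⟨0, by omega⟩ : Fin (6 * N + 10))), ?_, ?_⟩
              · rw [h']
                omega
              · rw [hhigh, abs_le]
                omega
  rcases lt_or_ge w (1 / 4) with hw4 | hw4
  · -- range 2
    left
    obtain ⟨a, h0, hp, hm, f1, f2, f3, f4, f5, f6, f7, g1, g2, g3, g4, g5, g6, g7, g8⟩ :=
      facts2 he he' hN hN2 hwe hw4
    rw [f1, f2, f3, f4] at hjs'
    have hsup := hsupG 2 (-2) (w - e) (w + e) (by rw [hκe]; push_cast; ring)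
      (by rw [hκe]; push_cast; ring) (by linarith) (by linarith) (by linarith) (by linarith)
    rw [f5, f6, f7] at hsup
    exact loc_strict hsup hdem (hle _ _ _ (by omega) (by omega) (by omega)) hhd'
      (FS := fun z => cF (6 * N + 10) 1 0 h0 z + cF (6 * N + 10) 1 2 hm z +
        cF (6 * N + 10) 1 (-2) hp z) (fun z => rfl) (fun z => rfl)
      (hps _ _ (by norm_num) (by norm_num))
      (cutR2 N a h0 hp hm g1 g2 g3 g4 g5 g6 g7 g8 _ _ js (fun z => rfl) hjs') hD hne hnf
  rcases lt_or_ge w (3 / 4) with hw5 | hw5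
  · -- range 3
    left
    obtain ⟨a, b, h0, hp, hm, f1, f2, f3, f4, f5, f6, f7, g1, g2, g3, g3', g4, g4', g5, g6, g7,
      g8⟩ := facts3 (N := N) he he' hw4 hw5
    rw [f1, f2, f3, f4] at hjs'
    have hsup := hsupG 2 (-2) (w - e) (w + e) (by rw [hκe]; push_cast; ring)
      (by rw [hκe]; push_cast; ring) (by linarith) (by linarith) (by linarith) (by linarith)
    rw [f5, f6, f7] at hsup
    exact loc_strict hsup hdem (hle _ _ _ (by omega) (by omega) (by omega)) hhd'
      (FS := fun z => cF (6 * N + 10) 1 0 h0 z + cF (6 * N + 10) 1 2 hm z +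
        cF (6 * N + 10) 1 (-2) hp z) (fun z => rfl) (fun z => rfl)
      (hps _ _ (by norm_num) (by norm_num))
      (cutR3 N a b h0 hp hm g1 g2 g3 g3' g4 g4' g5 g6 g7 g8 _ _ js (fun z => rfl) hjs') hD hne hnf
  rcases lt_or_ge w (1 - e) with hw6 | hw6
  · -- range 4
    left
    obtain ⟨b, B0, Bp, Bm, f1, f2, f3, f4, f5, f6, f7, g1, g2, g3, g4, g5, g6, g7, g8⟩ :=
      facts4 he he' hN hN2 hw5 hw6
    rw [f1, f2, f3, f4] at hjs'
    have hsup := hsupG 2 (-2) (w - e) (w + e) (by rw [hκe]; push_cast; ring)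
      (by rw [hκe]; push_cast; ring) (by linarith) (by linarith) (by linarith) (by linarith)
    rw [f5, f6, f7] at hsup
    exact loc_strict hsup hdem (hle _ _ _ (by omega) (by omega) (by omega)) hhd'
      (FS := fun z => cF (6 * N + 10) 1 0 (6 * N + 10 - B0) z +
        cF (6 * N + 10) 1 2 (6 * N + 10 - Bm) z +
        cF (6 * N + 10) 1 (-2) (6 * N + 10 - Bp) z) (fun z => rfl) (fun z => rfl)
      (hps _ _ (by norm_num) (by norm_num))
      (cutR4 N b B0 Bp Bm g1 g2 g3 g4 g5 g6 g7 g8 _ _ js (fun z => rfl) hjs') hD hne hnf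
  · -- range 5
    obtain ⟨Bm, f1, f2, f3, f4, f5, f6, g1, g2, f7⟩ := facts5 he he' hN hw6 hw1
    rw [f1, f2, f3, f4] at hjs'
    have hsup := hsupG 2 (-3) (w - e) (w + e - 1) (by rw [hκe]; push_cast; ring)
      (by rw [hκe]; push_cast; ring) (by linarith) (by linarith) (by linarith) (by linarith)
    rw [f5, f6, f7] at hsup
    have hFS : ∀ z, cF (6 * N + 10) 1 0 (6 * N + 7) z +
        cF (6 * N + 10) 1 2 (6 * N + 10 - Bm) z + cF (6 * N + 10) 1 (-3) 3 z =
        cF (6 * N + 10) 1 ((![0, 2, -3] : Fin 3 → ℤ) 0)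
          ((![6 * N + 7, 6 * N + 10 - Bm, 3] : Fin 3 → ℕ) 0) z +
        cF (6 * N + 10) 1 ((![0, 2, -3] : Fin 3 → ℤ) 1)
          ((![6 * N + 7, 6 * N + 10 - Bm, 3] : Fin 3 → ℕ) 1) z +
        cF (6 * N + 10) 1 ((![0, 2, -3] : Fin 3 → ℤ) 2)
          ((![6 * N + 7, 6 * N + 10 - Bm, 3] : Fin 3 → ℕ) 2) z := fun z => rfl
    have hhs := hle (6 * N + 7) (6 * N + 10 - Bm) 3 (by omega) (by omega) (by omega)
    rcases (show js = 0 ∨ js = 1 ∨ js = 2 ∨ js = 3 by omega) with hj | hj | hj | hj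
    · left
      exact loc_strict hsup hdem hhs hhd' hFS (fun z => rfl)
        (hps _ _ (by norm_num) (by norm_num))
        (cutR5 N Bm g1 g2 _ _ js (Or.inl hj) (fun z => rfl) hjs') hD hne hnf
    · left
      exact loc_strict hsup hdem hhs hhd' hFS (fun z => rfl)
        (hps _ _ (by norm_num) (by norm_num))
        (cutR5 N Bm g1 g2 _ _ js (Or.inr hj) (fun z => rfl) hjs') hD hne hnf
    all_goals
      obtain ⟨i0, hi0⟩ := hj2 (by omega)
      rcases loc_of_cuts (q0 := -3) hsup hdem hhs hhd' hFS (fun z => rfl)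
        (cutR5g N Bm g1 g2 _ _ js (fun z => rfl) hjs')
        (by
          simp [cF]) hD hne hnf with h | ⟨h, h'⟩
      · exact Or.inl h
      · right
        have hpos : ∀ p : Fin 3 × Fin (6 * N + 10),
            (ps ![0, 2, -3] ![6 * N + 7, 6 * N + 10 - Bm, 3] p ≤ -3 ↔ p.1 = 2) ∧
            (p.1 = 2 → -4 ≤ ps ![0, 2, -3] ![6 * N + 7, 6 * N + 10 - Bm, 3] p) ∧
            (p.1 = 0 → -1 ≤ ps ![0, 2, -3] ![6 * N + 7, 6 * N + 10 - Bm, 3] p ∧
              ps ![0, 2, -3] ![6 * N + 7, 6 * N + 10 - Bm, 3] p ≤ 0) := by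
          rintro ⟨i, j⟩
          unfold ps
          fin_cases i
          · show ((0 : ℤ) - (if j.1 < 6 * N + 7 then 1 else 0) ≤ -3 ↔ (0 : Fin 3) = 2) ∧
              ((0 : Fin 3) = 2 → _) ∧
              ((0 : Fin 3) = 0 → (-1 : ℤ) ≤ 0 - (if j.1 < 6 * N + 7 then 1 else 0) ∧
                (0 : ℤ) - (if j.1 < 6 * N + 7 then 1 else 0) ≤ 0)
            split_ifs <;> simp
          · show ((2 : ℤ) - (if j.1 < 6 * N + 10 - Bm then 1 else 0) ≤ -3 ↔ (1 : Fin 3) = 2) ∧
              ((1 : Fin 3) = 2 → _) ∧ ((1 : Fin 3) = 0 → _)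
            split_ifs <;> simp
          · show ((-3 : ℤ) - (if j.1 < 3 then 1 else 0) ≤ -3 ↔ (2 : Fin 3) = 2) ∧
              ((2 : Fin 3) = 2 → (-4 : ℤ) ≤ -3 - (if j.1 < 3 then 1 else 0)) ∧
              ((2 : Fin 3) = 0 → _)
            split_ifs <;> simp
        have hHi : hd i0 = 3 * N + 5 := by
          have e1 : hd i0 = HP e N ((((cd i0 : ℤ) : ℝ) + w) / 4) := rfl
          rw [e1, hi0, Int.cast_zero, zero_add]
          exact f1
        have hlow : pd cd hd (i0, (⟨0, by omega⟩ : Fin (6 * N + 10))) = -4 := by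
          unfold pd
          simp only
          rw [hi0, hHi, if_pos (by omega)]
          norm_num
        have hhigh : pd cd hd (i0, (⟨6 * N + 9, by omega⟩ : Fin (6 * N + 10))) = 0 := by
          unfold pd
          simp only
          rw [hi0, hHi, if_neg (by omega)]
          norm_num
        refine ⟨Or.inr (by rw [← hAdef, ← hw]; exact hw6), h, ?_, ?_⟩
        · rcases h' with h' | h'
          · intro y hy
            obtain ⟨i, rfl⟩ := mem_T4_one hy
            by_cases hi : i = 2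
            · left
              intro j
              exact (h' (i, j)).2 ((hpos (i, j)).1.2 hi)
            · right
              intro j hj
              exact hi ((hpos (i, j)).1.1 ((h' (i, j)).1 hj))
          · intro y hy
            obtain ⟨i, rfl⟩ := mem_T4_one hy
            by_cases hi : i = 2
            · right
              intro j hj
              have h2 := (hpos (i, j)).1.2 hi
              have h3 := (h' (i, j)).1 hj
              omega
            · left
              intro j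
              apply (h' (i, j)).2
              by_contra hc
              push Not at hc
              exact hi ((hpos (i, j)).1.1 hc)
        · intro hp
          rcases h' with h' | h'
          · rcases hp (dd i0) (dd_mem _) with hp | hp
            · have h2 := hp (⟨6 * N + 9, by omega⟩ : Fin (6 * N + 10))
              rw [mem_nbr_iff hsup hdem hD (i0, (⟨6 * N + 9, by omega⟩ : Fin (6 * N + 10)))] at h2
              obtain ⟨p, hp1, hp2⟩ := h2
              have h3 := (h' p).1 hp1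
              rw [hhigh, abs_le] at hp2
              omega
            · apply hp (⟨0, by omega⟩ : Fin (6 * N + 10))
              rw [mem_nbr_iff hsup hdem hD (i0, (⟨0, by omega⟩ : Fin (6 * N + 10)))]
              have h2 := (hpos ((2 : Fin 3), (⟨0, by omega⟩ : Fin (6 * N + 10)))).1.2 rfl
              have h3 := (hpos ((2 : Fin 3), (⟨0, by omega⟩ : Fin (6 * N + 10)))).2.1 rfl
              refine ⟨((2 : Fin 3), (⟨0, by omega⟩ : Fin (6 * N + 10))), ?_, ?_⟩
              · rw [h']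
                exact h2
              · rw [hlow, abs_le]
                omega
          · rcases hp (dd i0) (dd_mem _) with hp | hp
            · have h2 := hp (⟨0, by omega⟩ : Fin (6 * N + 10))
              rw [mem_nbr_iff hsup hdem hD (i0, (⟨0, by omega⟩ : Fin (6 * N + 10)))] at h2
              obtain ⟨p, hp1, hp2⟩ := h2
              have h3 := (h' p).1 hp1
              rw [hlow, abs_le] at hp2
              omega
            · apply hp (⟨6 * N + 9, by omega⟩ : Fin (6 * N + 10))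
              rw [mem_nbr_iff hsup hdem hD (i0, (⟨6 * N + 9, by omega⟩ : Fin (6 * N + 10)))]
              have h5 := (hpos ((0 : Fin 3), (⟨0, by omega⟩ : Fin (6 * N + 10)))).2.2 rfl
              refine ⟨((0 : Fin 3), (⟨0, by omega⟩ : Fin (6 * N + 10))), ?_, ?_⟩
              · rw [h']
                omega
              · rw [hhigh, abs_le]
                omega

end

/-- The strong Hall property of two-digit blocks for `2 < k / 4 ^ (m + 2) ≤ 33 / 16`. -/
theorem bsh_near {k : ℤ} (hk : k % 2 = 1) {m : ℕ} {κ : ℝ} (hκ : κ * 4 ^ (m + 2) = k)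
    (h1 : 2 < κ) (h2 : κ ≤ 33 / 16) :
    BSH T4 2 m (RbG k (qP κ (κ - 2) (m + 2)) 2 m) := by
  have he : 0 < κ - 2 := by linarith
  have he' : κ - 2 ≤ 1 / 16 := by linarith
  have h4 : (0 : ℝ) < 4 ^ (m + 2) := by positivity
  have hN2 : 1 / 4 ≤ (κ - 2) * 4 ^ (m + 2) := by
    have e1 : (κ - 2) * 4 ^ (m + 2) = ((k - 2 * 4 ^ (m + 2) : ℤ) : ℝ) := by
      push_cast
      rw [← hκ]
      ring
    have e2 : (0 : ℝ) < ((k - 2 * 4 ^ (m + 2) : ℤ) : ℝ) := by
      rw [← e1]
      positivity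
    have e3 : 0 < k - 2 * 4 ^ (m + 2) := by exact_mod_cast e2
    have e4 : (1 : ℝ) ≤ ((k - 2 * 4 ^ (m + 2) : ℤ) : ℝ) := by exact_mod_cast e3
    rw [e1]
    linarith
  refine glue (BadX κ (κ - 2)) (by rw [Fintype.card_fin]; omega) ?_ ?_
  · intro X _ D hD hne hnf
    exact local2 hk hκ he he' (by ring) (by omega) hN2 X hD hne hnf
  · intro X _
    exact exists_good hk hκ he' X

end Pool.Agent.Lib.MP_c52340_nt.Near
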