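import Mathlib
import Pool.Agent.Lib.MP_c52340_nt.Tok3

/-!
Tokens, part 4: assembly.  If the local strong Hall property holds (with at most `N` offsets and
block length `r`) for every large odd `k` with the property `P`, then every odd `k`, `|k| ≥ 3`, with
`P |k|` has a multiplier `≤ |k| ^ (C log log |k|)`.
-/

set_option autoImplicit false

namespace Pool.Agent.Lib.MP_c52340_nt.Tok

open Pool.Agent.Lib.MP_c52340_nt

/-- the local property at the scale `4 ^ l ≤ 2 k < 4 ^ (l + 1)`, i.e. `κ = k / 4 ^ l ∈ [1/2, 2)` -/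
def GoodAt (N r : ℕ) (k : ℤ) (l : ℕ) : Prop :=
  ∃ (J : Type) (_ : Fintype J) (ρ : J → ℝ) (j0 : J), Fintype.card J ≤ N ∧
    LocBSH k (k / 4 ^ l) ρ r ∧ -1 / 2 ≤ ρ j0 ∧ ρ j0 < 1 / 2

theorem quasi_small (r : ℕ) : ∃ C : ℝ, 0 < C ∧ ∀ k : ℤ, Odd k → 3 ≤ k → k < 4 ^ (r + 1) →
    ∃ z : ℤ, 0 < z ∧ (z : ℝ) ≤ (k : ℝ) ^ (C * Real.log (Real.log k)) ∧ InL z ∧ InL (k * z) := by
  refine ⟨(2 ^ (r + 1) * Real.log 16) / 0.08 + 1, by positivity, ?_⟩
  intro k hodd hk hlt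
  have hk3 : (3 : ℝ) ≤ k := by exact_mod_cast hk
  have hk0 : (0 : ℝ) < k := by linarith
  obtain ⟨z, ⟨hz0, hz1, hz2⟩, hz⟩ := bound_real k hodd (by rw [abs_of_nonneg (by omega)]; exact hk)
  refine ⟨z, hz0, ?_, hz1, hz2⟩
  refine hz.le.trans ?_
  have hlog := log_three_gt.trans_le (Real.log_le_log (by norm_num) hk3)
  have hLL := loglog_pos hk3
  rw [Real.rpow_def_of_pos (by norm_num), Real.rpow_def_of_pos hk0]
  apply Real.exp_le_exp.2
  rw [abs_of_pos hk0]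
  have h1 : Real.sqrt k ≤ 2 ^ (r + 1) := by
    rw [show (2 : ℝ) ^ (r + 1) = Real.sqrt (4 ^ (r + 1)) by
      rw [show (4 : ℝ) ^ (r + 1) = (2 ^ (r + 1)) ^ 2 by
        rw [← pow_mul, mul_comm, pow_mul]; norm_num]
      rw [Real.sqrt_sq (by positivity)]]
    apply Real.sqrt_le_sqrt
    exact_mod_cast hlt.le
  have h16 : 0 < Real.log 16 := Real.log_pos (by norm_num)
  set B : ℝ := 2 ^ (r + 1) * Real.log 16 with hB
  have hB0 : 0 < B := by positivity
  have h2 : Real.log 16 * Real.sqrt k ≤ B := by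
    rw [hB]
    nlinarith
  refine h2.trans ?_
  set LL := Real.log (Real.log k) with hLLd
  have h3 : B ≤ (B / 0.08 + 1) * LL := by
    have h4 : B / 0.08 * 0.08 = B := by field_simp
    have h5 : B / 0.08 * 0.08 ≤ B / 0.08 * LL := mul_le_mul_of_nonneg_left hLL.le (by positivity)
    linarith
  have h4 : (B / 0.08 + 1) * LL ≤ Real.log k * ((B / 0.08 + 1) * LL) := by
    have h5 : 0 ≤ (B / 0.08 + 1) * LL := by positivity
    nlinarith
  exact h3.trans h4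

/-- assembly -/
theorem quasi_final (N r : ℕ) (hr : 0 < r) (P : ℤ → Prop)
    (hP : ∀ (k : ℤ) (l : ℕ), Odd k → 3 ≤ k → P k → r < l → (4 : ℤ) ^ l ≤ 2 * k →
      2 * k < (4 : ℤ) ^ (l + 1) → GoodAt N r k l) :
    ∃ C : ℝ, 0 < C ∧ ∀ k : ℤ, Odd k → 3 ≤ |k| → P |k| →
      ∃ m : ℤ, IsMultiplier k m ∧ (m : ℝ) ≤ |(k : ℝ)| ^ (C * Real.log (Real.log |(k : ℝ)|)) := by
  obtain ⟨C₁, hC₁, h₁⟩ := quasi N r hr
  obtain ⟨C₂, hC₂, h₂⟩ := quasi_small r
  refine ⟨max C₁ C₂, lt_max_of_lt_left hC₁, ?_⟩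
  have key : ∀ k : ℤ, Odd k → 3 ≤ k → P k → ∃ z : ℤ, 0 < z ∧
      (z : ℝ) ≤ (k : ℝ) ^ (max C₁ C₂ * Real.log (Real.log k)) ∧ InL z ∧ InL (k * z) := by
    intro k hodd hk hPk
    have hk3 : (3 : ℝ) ≤ k := by exact_mod_cast hk
    have hLL := loglog_pos hk3
    have hmono : ∀ C : ℝ, C ≤ max C₁ C₂ →
        (k : ℝ) ^ (C * Real.log (Real.log k)) ≤ (k : ℝ) ^ (max C₁ C₂ * Real.log (Real.log k)) := by
      intro C hC
      apply Real.rpow_le_rpow_of_exponent_le (by linarith)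
      exact mul_le_mul_of_nonneg_right hC (by linarith)
    by_cases hsmall : k < 4 ^ (r + 1)
    · obtain ⟨z, hz0, hz1, hz2⟩ := h₂ k hodd hk hsmall
      exact ⟨z, hz0, hz1.trans (hmono _ (le_max_right _ _)), hz2⟩
    · push Not at hsmall
      obtain ⟨K, hK⟩ := Int.eq_ofNat_of_zero_le (by omega : 0 ≤ k)
      set l := Nat.log 4 (2 * K) with hl
      have hKn : K ≠ 0 := by rintro rfl; simp at hK; omega
      have h3 : 4 ^ l ≤ 2 * K := Nat.pow_log_le_self 4 (by omega)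
      have h4 : 2 * K < 4 ^ (l + 1) := Nat.lt_pow_succ_log_self (by norm_num) _
      have h3' : (4 : ℤ) ^ l ≤ 2 * k := by rw [hK]; exact_mod_cast h3
      have h4' : 2 * k < (4 : ℤ) ^ (l + 1) := by rw [hK]; exact_mod_cast h4
      have hrl : r < l := by
        have h5 : (4 : ℤ) ^ (r + 1) < 4 ^ (l + 1) := by linarith
        have h6 := (pow_lt_pow_iff_right₀ (by norm_num : (1 : ℤ) < 4)).1 h5
        omega
      obtain ⟨J, hJf, ρ, j0, hJN, hB, h5, h6⟩ := hP k l hodd hk hPk hrl h3' h4'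
      have hlr : r + (l - r) = l := by omega
      obtain ⟨z, hz0, hz1, hz2⟩ := h₁ J hJN k (l - r) ρ j0 hk (by omega)
        (by
          rw [hlr]
          have : ((4 : ℤ) ^ l : ℝ) ≤ 2 * k := by exact_mod_cast h3'
          push_cast at this
          linarith)
        (by rw [hlr]; exact hB) h5 h6
      exact ⟨z, hz0, hz1.trans (hmono _ (le_max_left _ _)), hz2⟩
  intro k hodd hk hPk
  have hodd' : Odd |k| := by
    rcases abs_choice k with h | h <;> rw [h]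
    · exact hodd
    · exact hodd.neg
  obtain ⟨z, hz0, hz1, hz2, hz3⟩ := key |k| hodd' hk hPk
  refine ⟨z, ⟨hz0, hz2, ?_⟩, ?_⟩
  · rcases abs_choice k with h | h
    · rw [h] at hz3; exact hz3
    · rw [h] at hz3
      have := hz3.neg
      rw [show -(-k * z) = k * z by ring] at this
      exact this
  · rw [Int.cast_abs] at hz1
    exact hz1

end Pool.Agent.Lib.MP_c52340_nt.Tok
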