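import Mathlib
import Pool.Agent.Lib.MP_c52340_nt.TokF
import Pool.Agent.Lib.MP_c52340_nt.LocA4
import Pool.Agent.Lib.MP_c52340_nt.LocB

/-!
The ranges of `κ` away from `2` which have local certificates.
-/

set_option autoImplicit false

namespace Pool.Agent.Lib.MP_c52340_nt.Tok

open Pool.Agent.Lib.MP_c52340_nt

theorem LocW_of_LocBSHW {J : Type} [Fintype J] {h : ℕ} {k : ℤ} {κ : ℝ} {ρ : J → ℝ}
    {d : Fin h → ℤ} (H : LocA.LocBSHW k κ ρ d) : LocW k κ ρ d := by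
  classical
  intro a D N hD hD' hN
  have h1 := H a D hD hD'
  refine h1.trans (Finset.card_le_card ?_)
  intro t ht
  rw [Finset.mem_filter] at ht
  exact (hN t).2 ht.2

theorem d3_dig (c : Fin 3) : Dig (LocA.d3 c) := by
  unfold Dig LocA.d3
  split
  · omega
  · split <;> omega

theorem d13_dig (c : Fin 13) : Dig (LocA.d13 c) := by
  unfold Dig LocA.d13
  split
  · omega
  · split <;> omega

/-- `κ` in `[0.825, 1.8)` -/
theorem good_A {k : ℤ} (hk : Odd k) {l : ℕ} (hl : 2 ≤ l) (h1 : (0.825 : ℝ) ≤ k / 4 ^ l)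
    (h2 : (k : ℝ) / 4 ^ l < 9 / 5) : Good 6 k 1 := by
  have hk' : k % 2 = 1 := Int.odd_iff.1 hk
  have h4l : (0 : ℝ) < 4 ^ l := by positivity
  have hκ : (k : ℝ) / 4 ^ l * 4 ^ (1 + (l - 1)) = k := by
    rw [show 1 + (l - 1) = l by omega, div_mul_cancel₀]
    exact h4l.ne'
  rcases lt_or_ge ((k : ℝ) / 4 ^ l) (21 / 20) with h | h
  · obtain ⟨n, hn0, hn6, ρ, hρ, hB⟩ := LocA.off_lo k hk' _ (by norm_num at h1 ⊢; exact h1) h
    refine Good_of_LocW d3_dig (c0 := 0) (c1 := 1) (by decide) (by decide) le_rfl (by norm_num)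
      (by omega) hκ (by linarith) (LocW_of_LocBSHW hB) ⟨0, hn0⟩ (hρ _).1.le (hρ _).2 ?_
    rw [Fintype.card_fin]
    have : (n : ℝ) ≤ 6 := by exact_mod_cast hn6
    linarith
  · obtain ⟨n, hn0, hn6, ρ, hρ, hB⟩ := LocA.off_hi k hk' _ h h2
    refine Good_of_LocW d13_dig (c0 := 0) (c1 := 5) (by decide) (by decide) (by norm_num) le_rfl
      (by omega) hκ (by linarith) (LocW_of_LocBSHW hB) ⟨0, hn0⟩ (hρ _).1.le (hρ _).2 ?_
    rw [Fintype.card_fin]
    have : (n : ℝ) ≤ 6 := by exact_mod_cast hn6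
    linarith

/-- `κ` in `[2.5, 3.5]` -/
theorem good_B {k : ℤ} (hk : Odd k) {l : ℕ} (hl : 2 ≤ l) (h1 : (5 / 2 : ℝ) ≤ k / 4 ^ l)
    (h2 : (k : ℝ) / 4 ^ l ≤ 7 / 2) : Good 6 k 1 := by
  have hk' : k % 2 = 1 := Int.odd_iff.1 hk
  have h4l : (0 : ℝ) < 4 ^ l := by positivity
  have hκ : (k : ℝ) / 4 ^ l / 4 * 4 ^ (2 + (l - 1)) = k := by
    rw [show 2 + (l - 1) = l + 1 by omega, pow_succ]
    field_simp
  refine Good_of_LocBSH (κ := (k : ℝ) / 4 ^ l / 4) (by norm_num) le_rfl (by omega) hκ (by linarith)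
    (C52B.locB hk' (by linarith) (by linarith)) 0 (by norm_num) (by norm_num) ?_
  simp

end Pool.Agent.Lib.MP_c52340_nt.Tok
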