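import Mathlib
import Pool.Agent.Lib.MP_c52340_nt.TokF
import Pool.Agent.Lib.MP_c52340_nt.Loc2

/-!
The ranges of `κ` next to `2` which have two-digit certificates (helper31's `Loc2`).
-/

set_option autoImplicit false

namespace Pool.Agent.Lib.MP_c52340_nt.Tok

open Pool.Agent.Lib.MP_c52340_nt

theorem Good_of_Off2 {k : ℤ} {l : ℕ} (hl : 3 ≤ l) (h1 : (1 / 4 : ℝ) ≤ k / 4 ^ l)
    (H : Loc2.Off2 k ((k : ℝ) / 4 ^ l)) : Good 6 k 1 := by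
  have h4l : (0 : ℝ) < 4 ^ l := by positivity
  have hκ : (k : ℝ) / 4 ^ l * 4 ^ (2 + (l - 2)) = k := by
    rw [show 2 + (l - 2) = l by omega, div_mul_cancel₀]
    exact h4l.ne'
  obtain ⟨n, hn0, hn4, ρ, j0, h2, h3, hB⟩ := H
  refine Good_of_LocBSH (by norm_num) le_rfl (by omega) hκ h1 hB j0 h2 h3 ?_
  rw [Fintype.card_fin]
  have : (n : ℝ) ≤ 4 := by exact_mod_cast hn4
  linarith

/-- `κ` in `[2.035, 2.515]` -/
theorem good_D {k : ℤ} (hk : Odd k) {l : ℕ} (hl : 3 ≤ l) (h1 : (407 / 200 : ℝ) ≤ k / 4 ^ l)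
    (h2 : (k : ℝ) / 4 ^ l ≤ 503 / 200) : Good 6 k 1 :=
  Good_of_Off2 hl (by linarith) (Loc2.off2_A (Int.odd_iff.1 hk) h1 h2)

/-- `κ` in `[1.79, 1.87]` -/
theorem good_E {k : ℤ} (hk : Odd k) {l : ℕ} (hl : 3 ≤ l) (h1 : (179 / 100 : ℝ) ≤ k / 4 ^ l)
    (h2 : (k : ℝ) / 4 ^ l ≤ 187 / 100) : Good 6 k 1 :=
  Good_of_Off2 hl (by linarith) (Loc2.off2_D (Int.odd_iff.1 hk) h1 h2)

end Pool.Agent.Lib.MP_c52340_nt.Tok
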