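import Mathlib
import Pool.Agent.Lib.MP_c52340_nt.TokF

/-!
The two bounds in one formula.
-/

set_option autoImplicit false

namespace Pool.Agent.Lib.MP_c52340_nt.Tok

open Pool.Agent.Lib.MP_c52340_nt

/-- Combination of the bound `exp (C G log k log log k)` with a bound `exp (C (log k) ^ 2)` for the
`k` next to `2 * 4 ^ l`. -/
theorem final_min {C₁ C₂ : ℝ} (hC₁ : 0 < C₁) (L : ℕ)
    (H1 : ∀ (k : ℤ) (G : ℝ), Odd k → 3 ≤ |k| → 1 ≤ G →
      (∀ l : ℕ, |(k : ℝ)| * Real.exp (-G) ≤ abs (|(k : ℝ)| - 2 * 4 ^ l)) →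
      ∃ m : ℤ, IsMultiplier k m ∧
        (m : ℝ) ≤ Real.exp (C₁ * G * Real.log |(k : ℝ)| * Real.log (Real.log |(k : ℝ)|)))
    (H2 : ∀ (k : ℤ) (l : ℕ), Odd k → L ≤ l → |(k : ℝ) - 2 * 4 ^ l| ≤ 4 ^ l / 21 →
      ∃ z : ℤ, 0 < z ∧ (z : ℝ) ≤ Real.exp (C₂ * Real.log k ^ 2) ∧ InL z ∧ InL (k * z)) :
    ∃ C : ℝ, 0 < C ∧ ∀ (k : ℤ) (G : ℝ), Odd k → 3 ≤ |k| → 1 ≤ G →
      (∀ l : ℕ, |(k : ℝ)| * Real.exp (-G) ≤ abs (|(k : ℝ)| - 2 * 4 ^ l)) →
      ∃ m : ℤ, IsMultiplier k m ∧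
        (m : ℝ) ≤ Real.exp (C * Real.log |(k : ℝ)| *
          min (Real.log |(k : ℝ)|) (G * Real.log (Real.log |(k : ℝ)|))) := by
  obtain ⟨C₃, hC₃, h₃⟩ := mult_small (4 ^ (L + 1))
  set C : ℝ := 5 * C₁ + |C₂| + C₃ with hC
  have hC0 : 0 < C := by positivity
  refine ⟨C, hC0, ?_⟩
  intro k G hodd hk hG hd
  have hk3 : (3 : ℝ) ≤ |(k : ℝ)| := by
    rw [← Int.cast_abs]; exact_mod_cast hk
  have hlog := log_three_gt.trans_le (Real.log_le_log (by norm_num) hk3)
  have hLL := loglog_pos hk3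
  have hLL2 : Real.log (Real.log |(k : ℝ)|) ≤ Real.log |(k : ℝ)| := by
    have := Real.log_le_sub_one_of_pos (show 0 < Real.log |(k : ℝ)| by linarith)
    linarith
  set Lk := Real.log |(k : ℝ)| with hLk
  set LL := Real.log Lk with hLLd
  have hodd' : Odd |k| := by
    rcases abs_choice k with h | h <;> rw [h]
    · exact hodd
    · exact hodd.neg
  -- from a positive bound `x ≤ C * Lk * min`
  have habs : ∀ z : ℤ, 0 < z → InL z → InL (|k| * z) → IsMultiplier k z := by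
    intro z h1 h2 h3
    refine ⟨h1, h2, ?_⟩
    rcases abs_choice k with h | h
    · rw [h] at h3; exact h3
    · rw [h] at h3
      have := h3.neg
      rw [show -(-k * z) = k * z by ring] at this
      exact this
  have hsmall : ∀ C' : ℝ, 0 ≤ C' → C' ≤ C → Real.exp (C' * Lk * LL) ≤
      Real.exp (C * Lk * min Lk (G * LL)) := by
    intro C' hC'0 hC'
    apply Real.exp_le_exp.2
    have h1 : LL ≤ min Lk (G * LL) := le_min hLL2 (by nlinarith)
    have h2 : C' * Lk ≤ C * Lk := mul_le_mul_of_nonneg_right hC' (by linarith)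
    exact mul_le_mul h2 h1 (by linarith) (by positivity)
  by_cases hb : |k| ≤ 4 ^ (L + 1)
  · obtain ⟨z, hz0, hz1, hz2, hz3⟩ := h₃ |k| 1 hodd' hk hb le_rfl
    refine ⟨z, habs z hz0 hz2 hz3, hz1.trans ?_⟩
    rw [Int.cast_abs]
    refine le_trans (le_of_eq ?_) (hsmall C₃ hC₃.le (by rw [hC]; nlinarith [abs_nonneg C₂]))
    rw [hLLd, hLk]; ring_nf
  push Not at hb
  have hbr : (4 : ℝ) ^ (L + 1) < |(k : ℝ)| := by
    rw [← Int.cast_abs]; exact_mod_cast hb
  by_cases hn : ∃ l : ℕ, L ≤ l ∧ abs (|(k : ℝ)| - 2 * 4 ^ l) ≤ 4 ^ l / 21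
  · obtain ⟨l, hl, hn⟩ := hn
    rcases le_total Lk (G * LL) with h | h
    · rw [min_eq_left h]
      obtain ⟨z, hz0, hz1, hz2, hz3⟩ := H2 |k| l hodd' hl (by rw [Int.cast_abs]; exact hn)
      refine ⟨z, habs z hz0 hz2 hz3, hz1.trans ?_⟩
      rw [Int.cast_abs]
      apply Real.exp_le_exp.2
      have h1 : C₂ ≤ C := by
        rw [hC]; nlinarith [le_abs_self C₂]
      have h2 : 0 ≤ Lk ^ 2 := sq_nonneg _
      nlinarith
    · rw [min_eq_right h]
      obtain ⟨m, hm, hm2⟩ := H1 k G hodd hk hG hd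
      refine ⟨m, hm, hm2.trans ?_⟩
      apply Real.exp_le_exp.2
      have h1 : C₁ ≤ C := by
        rw [hC]; nlinarith [abs_nonneg C₂]
      have h2 : 0 ≤ Lk * (G * LL) := by positivity
      calc C₁ * G * Lk * LL = C₁ * (Lk * (G * LL)) := by ring
        _ ≤ C * (Lk * (G * LL)) := mul_le_mul_of_nonneg_right h1 h2
        _ = _ := by ring
  · push Not at hn
    obtain ⟨m, hm, hm2⟩ := H1 k 5 hodd hk (by norm_num) (by
      intro l
      have h5 : Real.exp (-5) < 1 / 63 := by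
        have h6 : Real.exp (-5) = Real.exp (-1) ^ 5 := by
          rw [← Real.exp_nat_mul]; norm_num
        rw [h6]
        have h7 : Real.exp (-1) < 0.3678794412 := Real.exp_neg_one_lt_d9
        calc Real.exp (-1) ^ 5 < 0.3678794412 ^ 5 :=
              pow_lt_pow_left₀ h7 (Real.exp_pos _).le (by norm_num)
          _ < 1 / 63 := by norm_num
      have h4l : (0 : ℝ) < 4 ^ l := by positivity
      have hx : |(k : ℝ)| * Real.exp (-5) ≤ |(k : ℝ)| / 63 := by
        have h8 : |(k : ℝ)| * Real.exp (-5) ≤ |(k : ℝ)| * (1 / 63) :=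
          mul_le_mul_of_nonneg_left h5.le (by linarith)
        linarith
      refine hx.trans ?_
      rcases lt_or_ge l L with hl | hl
      · have h9 : (4 : ℝ) ^ l ≤ 4 ^ L := pow_le_pow_right₀ (by norm_num) hl.le
        rw [pow_succ] at hbr
        refine le_trans ?_ (le_abs_self _)
        linarith
      · rcases le_or_gt |(k : ℝ)| (3 * 4 ^ l) with h10 | h10
        · have := hn l hl
          linarith
        · refine le_trans ?_ (le_abs_self _)
          linarith)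
    refine ⟨m, hm, hm2.trans ?_⟩
    refine le_trans (le_of_eq ?_) (hsmall (5 * C₁) (by positivity)
      (by rw [hC]; nlinarith [abs_nonneg C₂]))
    rw [hLLd, hLk]; ring_nf

end Pool.Agent.Lib.MP_c52340_nt.Tok
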