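import Mathlib
import Pool.Agent.Lib.MP_c52340_nt.TokC

/-!
Assembly of all ranges of `κ`.
-/

set_option autoImplicit false

namespace Pool.Agent.Lib.MP_c52340_nt.Tok

open Pool.Agent.Lib.MP_c52340_nt

/-- Assembly: `κ` in `[9/5, c₁)`, `[c₁, 2)`, `(2, c₂]` and `[c₂, 5/2)` are the inputs. -/
theorem main_of_ranges (A : ℝ) (hA : 6 ≤ A) (L : ℕ) (c₁ c₂ : ℝ)
    (H1 : ∀ (k : ℤ) (l : ℕ), Odd k → L ≤ l → (9 / 5 : ℝ) ≤ k / 4 ^ l → (k : ℝ) / 4 ^ l < c₁ →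
      Good A k 1)
    (H2 : ∀ (k : ℤ) (l : ℕ), Odd k → L ≤ l → c₁ ≤ (k : ℝ) / 4 ^ l → (k : ℝ) / 4 ^ l < 2 →
      Good A k (1 + abs (Real.log |(k : ℝ) / 4 ^ l - 2|)))
    (H3 : ∀ (k : ℤ) (l : ℕ), Odd k → L ≤ l → (2 : ℝ) < k / 4 ^ l → (k : ℝ) / 4 ^ l ≤ c₂ →
      Good A k (1 + abs (Real.log |(k : ℝ) / 4 ^ l - 2|)))
    (H4 : ∀ (k : ℤ) (l : ℕ), Odd k → L ≤ l → c₂ < (k : ℝ) / 4 ^ l → (k : ℝ) / 4 ^ l < 5 / 2 →
      Good A k 1) :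
    ∃ C : ℝ, 0 < C ∧ ∀ (k : ℤ) (G : ℝ), Odd k → 3 ≤ |k| → 1 ≤ G →
      (∀ l : ℕ, |(k : ℝ)| * Real.exp (-G) ≤ abs (|(k : ℝ)| - 2 * 4 ^ l)) →
      ∃ m : ℤ, IsMultiplier k m ∧
        (m : ℝ) ≤ Real.exp (C * G * Real.log |(k : ℝ)| * Real.log (Real.log |(k : ℝ)|)) := by
  have hA0 : 0 < A := by linarith
  refine final_of_Good A hA0 (4 ^ (max L 2 + 1)) ?_
  intro k l hodd hN hl1 hl2
  have h4l : (0 : ℝ) < 4 ^ l := by positivity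
  have hlL : max L 2 ≤ l := by
    by_contra hc
    push Not at hc
    have h1 : (k : ℝ) < 3.3 * 4 ^ l := (div_lt_iff₀ h4l).1 hl2
    have h2 : (4 : ℝ) ^ (max L 2 + 1) < k := by exact_mod_cast hN
    have h3 : (4 : ℝ) ^ (l + 1) ≤ 4 ^ (max L 2 + 1) :=
      pow_le_pow_right₀ (by norm_num) (by omega)
    rw [pow_succ] at h3
    nlinarith
  have hL : L ≤ l := (le_max_left _ _).trans hlL
  have hl2' : 2 ≤ l := (le_max_right _ _).trans hlL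
  have habs : 0 ≤ abs (Real.log |(k : ℝ) / 4 ^ l - 2|) := abs_nonneg _
  have hmono : ∀ B : ℝ, B ≤ A → 0 ≤ B → Good B k 1 →
      Good A k (1 + abs (Real.log |(k : ℝ) / 4 ^ l - 2|)) := by
    intro B hB hB0 h
    exact h.mono (by nlinarith)
  rcases lt_or_ge ((k : ℝ) / 4 ^ l) (9 / 5) with h | h
  · exact hmono 6 hA (by norm_num) (good_A hodd hl2' hl1 h)
  rcases lt_or_ge ((k : ℝ) / 4 ^ l) c₁ with h' | h'
  · exact hmono A le_rfl hA0.le (H1 k l hodd hL h h')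
  rcases lt_trichotomy ((k : ℝ) / 4 ^ l) 2 with h2 | h2 | h2
  · exact H2 k l hodd hL h' h2
  · exfalso
    rw [div_eq_iff h4l.ne'] at h2
    have h3 : k = 2 * 4 ^ l := by exact_mod_cast h2
    rw [h3] at hodd
    exact (Int.not_odd_iff_even.2 ⟨4 ^ l, by ring⟩) hodd
  rcases le_or_gt ((k : ℝ) / 4 ^ l) c₂ with h3 | h3
  · exact H3 k l hodd hL h2 h3
  rcases lt_or_ge ((k : ℝ) / 4 ^ l) (5 / 2) with h4 | h4
  · exact hmono A le_rfl hA0.le (H4 k l hodd hL h3 h4)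
  · exact hmono 6 hA (by norm_num) (good_B hodd hl2' h4 (by norm_num at hl2 ⊢; linarith))

end Pool.Agent.Lib.MP_c52340_nt.Tok
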