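import Mathlib
import Pool.Agent.Lib.MP_c52340_nt.TokM
import Pool.Agent.Lib.MP_c52340_nt.TokZ
import Pool.Agent.Lib.MP_c52340_nt.TokC2

/-!
Interfaces for the last assembly.
-/

set_option autoImplicit false

namespace Pool.Agent.Lib.MP_c52340_nt.Tok

open Pool.Agent.Lib.MP_c52340_nt

/-- from `4 ^ (C l ^ 2)` to `exp (C (log k) ^ 2)` -/
theorem near_of {C L : ℕ}
    (H : ∀ (k : ℤ) (l : ℕ), Odd k → L ≤ l → |k - 2 * 4 ^ l| * 21 ≤ 4 ^ l →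
      ∃ z : ℤ, 0 < z ∧ z < 4 ^ (C * l ^ 2) ∧ InL z ∧ InL (k * z)) :
    ∀ (k : ℤ) (l : ℕ), Odd k → L ≤ l → |(k : ℝ) - 2 * 4 ^ l| ≤ 4 ^ l / 21 →
      ∃ z : ℤ, 0 < z ∧ (z : ℝ) ≤ Real.exp (2 * C * Real.log k ^ 2) ∧ InL z ∧ InL (k * z) := by
  intro k l hodd hl hd
  have h4l : (0 : ℝ) < 4 ^ l := by positivity
  obtain ⟨z, hz0, hz1, hz2, hz3⟩ := H k l hodd hl (by
    have h1 : |(k : ℝ) - 2 * 4 ^ l| * 21 ≤ 4 ^ l := by linarith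
    exact_mod_cast h1)
  refine ⟨z, hz0, ?_, hz2, hz3⟩
  have hk4 : (4 : ℝ) ^ l ≤ k := by
    rw [abs_le] at hd
    linarith [hd.1]
  have hk0 : (0 : ℝ) < k := lt_of_lt_of_le h4l hk4
  have hlog4 : (1 : ℝ) < Real.log 4 := by
    have h5 : Real.log 3 < Real.log 4 := Real.log_lt_log (by norm_num) (by norm_num)
    linarith [log_three_gt]
  have hlog4' : Real.log 4 < 2 := by
    have h6 : Real.log 4 = 2 * Real.log 2 := by
      rw [show (4 : ℝ) = 2 ^ 2 by norm_num, Real.log_pow]; norm_num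
    have h7 := Real.log_two_lt_d9
    linarith
  have h1 : (l : ℝ) ≤ Real.log k := by
    have h2 := Real.log_le_log h4l hk4
    rw [Real.log_pow] at h2
    have h3 : (0 : ℝ) ≤ l := Nat.cast_nonneg _
    nlinarith
  have hz1' : (z : ℝ) ≤ (4 : ℝ) ^ (C * l ^ 2) := by
    have : (z : ℝ) < ((4 ^ (C * l ^ 2) : ℤ) : ℝ) := by exact_mod_cast hz1
    push_cast at this
    exact this.le
  refine hz1'.trans ?_
  rw [← Real.exp_log (show (0 : ℝ) < 4 ^ (C * l ^ 2) by positivity)]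
  apply Real.exp_le_exp.2
  rw [Real.log_pow]
  push_cast
  have h3 : (0 : ℝ) ≤ l := Nat.cast_nonneg _
  have h4 : (l : ℝ) ^ 2 ≤ Real.log k ^ 2 := pow_le_pow_left₀ h3 h1 2
  have h5 : (0 : ℝ) ≤ C := Nat.cast_nonneg _
  calc (C : ℝ) * (l : ℝ) ^ 2 * Real.log 4 ≤ C * (Real.log k ^ 2) * 2 := by
        apply mul_le_mul (mul_le_mul_of_nonneg_left h4 h5) hlog4'.le (by linarith) (by positivity)
    _ = 2 * C * Real.log k ^ 2 := by ring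

/-- **Last assembly**: inputs are the two laws next to `2` (`c₂ ≥ 407 / 200`) and the bound
`4 ^ (C l ^ 2)` next to `2 * 4 ^ l`. -/
theorem main_min (A : ℝ) (hA : 6 ≤ A) (L : ℕ) (c₂ : ℝ) (hc₂ : 407 / 200 ≤ c₂)
    (H2 : ∀ (k : ℤ) (l : ℕ), Odd k → L ≤ l → (9 / 5 : ℝ) ≤ (k : ℝ) / 4 ^ l →
      (k : ℝ) / 4 ^ l < 2 → Good A k (1 + abs (Real.log |(k : ℝ) / 4 ^ l - 2|)))
    (H3 : ∀ (k : ℤ) (l : ℕ), Odd k → L ≤ l → (2 : ℝ) < k / 4 ^ l → (k : ℝ) / 4 ^ l ≤ c₂ →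
      Good A k (1 + abs (Real.log |(k : ℝ) / 4 ^ l - 2|)))
    {C L' : ℕ}
    (H5 : ∀ (k : ℤ) (l : ℕ), Odd k → L' ≤ l → |k - 2 * 4 ^ l| * 21 ≤ 4 ^ l →
      ∃ z : ℤ, 0 < z ∧ z < 4 ^ (C * l ^ 2) ∧ InL z ∧ InL (k * z)) :
    ∃ C : ℝ, 0 < C ∧ ∀ (k : ℤ) (G : ℝ), Odd k → 3 ≤ |k| → 1 ≤ G →
      (∀ l : ℕ, |(k : ℝ)| * Real.exp (-G) ≤ abs (|(k : ℝ)| - 2 * 4 ^ l)) →
      ∃ m : ℤ, IsMultiplier k m ∧
        (m : ℝ) ≤ Real.exp (C * Real.log |(k : ℝ)| *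
          min (Real.log |(k : ℝ)|) (G * Real.log (Real.log |(k : ℝ)|))) := by
  obtain ⟨C₁, hC₁, h₁⟩ := main_of_ranges A hA (max L 3) (9 / 5) c₂
    (fun k l _ _ h1 h2 => absurd h2 (not_lt.2 h1))
    (fun k l hodd hl h1 h2 => H2 k l hodd ((le_max_left _ _).trans hl) h1 h2)
    (fun k l hodd hl h1 h2 => H3 k l hodd ((le_max_left _ _).trans hl) h1 h2)
    (fun k l hodd hl h1 h2 => (good_D hodd ((le_max_right _ _).trans hl) (by linarith)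
      (by linarith)).mono (by nlinarith))
  exact final_min hC₁ L' h₁ (near_of H5)

end Pool.Agent.Lib.MP_c52340_nt.Tok
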